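import Mathlib

set_option autoImplicit false
open Module Order

namespace Pool.Agent.H13.Arr

variable {V : Type} [NormedAddCommGroup V] [NormedSpace ℝ V] {ι : Type} (g : ι → Dual ℝ V)

def C (A B : Set ι) : Set V := {v | (∀ i ∈ A, 0 ≤ g i v) ∧ ∀ i ∈ B, g i v ≤ 0}

def P (A B : Set ι) : Set V := Metric.sphere 0 1 ∩ C g A B

def Y0 : Set (Set V) := {K | K.Nonempty ∧ ∃ A B, K = P g A B}

theorem unit {x : V} (hx : x ≠ 0) : ∃ c : ℝ, 0 < c ∧ c • x ∈ Metric.sphere (0 : V) 1 :=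
  ⟨‖x‖⁻¹, inv_pos.2 (norm_pos_iff.2 hx), by simpa using norm_smul_inv_norm (𝕜 := ℝ) hx⟩

theorem smul_C {A B : Set ι} {x : V} {c : ℝ} (hc : 0 < c) : c • x ∈ C g A B ↔ x ∈ C g A B := by
  simp only [C, Set.mem_ofPred_eq, map_smul, smul_eq_mul, mul_nonneg_iff_of_pos_left hc,
    mul_nonpos_iff_pos_imp_nonpos, hc, forall_const]
  refine and_congr_right' (forall₂_congr fun i _ => ⟨fun h => h.1, fun h => ⟨h, fun _ => ?_⟩⟩)
  linarith

theorem memY {A B : Set ι} {x : V} (hx : x ≠ 0) (h : x ∈ C g A B) : P g A B ∈ Y0 g := by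
  obtain ⟨c, hc, hs⟩ := unit hx
  exact ⟨⟨_, hs, (smul_C g hc).2 h⟩, A, B, rfl⟩

def Hh (K : Set V) (k : ℕ) : Prop := ∃ h : K ∈ Y0 g, (k : ℕ∞) ≤ height (⟨K, h⟩ : Y0 g)

theorem step {A B A' B' : Set ι} {k : ℕ} (h : Hh g (P g A B) k) (hA : A' ⊆ A) (hB : B' ⊆ B)
    {x : V} (h1 : x ∈ C g A' B') (h2 : x ∉ C g A B) : Hh g (P g A' B') (k + 1) := by
  have hx : x ≠ 0 := by
    rintro rfl
    exact h2 ⟨by simp, by simp⟩
  obtain ⟨hK, hk⟩ := h
  refine ⟨memY g hx h1, ?_⟩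
  obtain ⟨c, hc, hs⟩ := unit hx
  have : (⟨_, hK⟩ : Y0 g) < ⟨_, memY g hx h1⟩ := by
    refine Subtype.mk_lt_mk.2 ⟨fun v hv => ⟨hv.1, fun i hi => hv.2.1 i (hA hi),
      fun i hi => hv.2.2 i (hB hi)⟩, fun hh => h2 ?_⟩
    exact (smul_C g hc).1 (hh ⟨hs, (smul_C g hc).2 h1⟩).2
  refine le_trans ?_ (height_add_one_le this)
  push_cast
  gcongr

theorem pivot [Finite ι] (h : ι → Dual ℝ V) (L : Submodule ℝ V) (J : Set ι) (hJ : J.Nonempty) :
    ∃ i ∈ J, ∃ y ∈ L, (∀ j ∈ J, h i y ≤ h j y) ∧ ∀ j, h j y = h i y → ∀ z ∈ L, h j z = h i z := by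
  obtain ⟨y, hy, hne⟩ := Module.Dual.exists_forall_mem_ne_zero_of_forall_exists
    (ι := {p : ι × ι // ∃ z ∈ L, (h p.1 - h p.2) z ≠ 0}) L (fun p => h p.1.1 - h p.1.2)
    (fun p => p.2)
  obtain ⟨i, hi, hmin⟩ := Set.exists_min_image J (fun j => h j y) (Set.toFinite J) hJ
  refine ⟨i, hi, y, hy, hmin, fun j hj z hz => ?_⟩
  by_contra c
  exact hne ⟨(j, i), z, hz, by simpa [sub_eq_zero] using c⟩ (by simpa [sub_eq_zero] using hj)

theorem faces [Finite ι] [FiniteDimensional ℝ V] (ess : ∀ v, (∀ i, g i v = 0) → v = 0) (e : ℕ) :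
    ∀ (Z : Set ι) (L : Submodule ℝ V) (x : V), (∀ v, v ∈ L ↔ ∀ i ∈ Z, g i v = 0) →
      finrank ℝ L = e + 1 → x ∈ L → (∀ j, 0 ≤ g j x) → (∀ j, g j x = 0 → ∀ z ∈ L, g j z = 0) →
      Hh g (P g Set.univ Z) e := by
  have base : ∀ (e : ℕ) (L : Submodule ℝ V) (x : V), finrank ℝ L = e + 1 →
      (∀ j, g j x = 0 → ∀ z ∈ L, g j z = 0) → ∃ j, g j x ≠ 0 := by
    intro e L x hL h
    by_contra c
    push Not at c
    have : L = ⊥ := (Submodule.eq_bot_iff L).2 fun z hz => ess z fun i => h i (c i) z hz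
    rw [this] at hL
    simp at hL
  induction e with
  | zero =>
    intro Z L x hZ hL hx h0 h1
    obtain ⟨j, hj⟩ := base 0 L x hL h1
    exact ⟨memY g (x := x) (by rintro rfl; simp at hj)
      ⟨fun i _ => h0 i, fun i hi => ((hZ x).1 hx i hi).le⟩, by simp⟩
  | succ e ih =>
    intro Z L x hZ hL hx h0 h1
    obtain ⟨i, hi, y, hy, hmin, heq⟩ := pivot (fun j => (g j x)⁻¹ • g j) L {j | g j x ≠ 0}
      (base _ L x hL h1)
    simp only [Set.mem_ofPred_eq, LinearMap.smul_apply, smul_eq_mul] at hi hmin heq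
    have hi' : 0 < g i x := (h0 i).lt_of_ne' hi
    set t := (g i x)⁻¹ * g i y with ht
    have val : ∀ j, g j x ≠ 0 → g j (y - t • x) = g j x * ((g j x)⁻¹ * g j y - t) := by
      intro j hj
      simp only [map_sub, map_smul, smul_eq_mul]
      field_simp
    have hx' : y - t • x ∈ L := L.sub_mem hy (L.smul_mem t hx)
    have hr : finrank ℝ ↥(L ⊓ LinearMap.ker (g i)) = e + 1 := by
      have hf : (g i).domRestrict L ≠ 0 := fun c => hi (by
        simpa using LinearMap.congr_fun c ⟨x, hx⟩)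
      have a := Module.Dual.finrank_ker_add_one_of_ne_zero hf
      rw [LinearMap.ker_domRestrict, hL] at a
      rw [← Submodule.map_comap_subtype, Submodule.finrank_map_subtype_eq]
      omega
    have := ih (insert i Z) (L ⊓ LinearMap.ker (g i)) (y - t • x)
      (fun v => by simp [hZ, and_comm]) hr
      ⟨hx', by show g i _ = 0; rw [val i hi, ht, sub_self, mul_zero]⟩
      (fun j => by
        by_cases c : g j x = 0
        · exact (h1 j c _ hx').ge
        · rw [val j c]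
          exact mul_nonneg (h0 j) (sub_nonneg.2 (hmin j c)))
      (fun j hj z hz => by
        by_cases c : g j x = 0
        · exact h1 j c z hz.1
        · rw [val j c] at hj
          have a := heq j (sub_eq_zero.1 ((mul_eq_zero.1 hj).resolve_left c)) z hz.1
          have b : g i z = 0 := hz.2
          rw [b, mul_zero] at a
          exact (mul_eq_zero.1 a).resolve_left (inv_ne_zero c))
    exact step g this subset_rfl (Set.subset_insert i Z)
      ⟨fun j _ => h0 j, fun j hj => ((hZ x).1 hx j hj).le⟩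
      (fun c => absurd (c.2 i (Set.mem_insert i Z)) (not_le.2 hi'))

theorem peel [Finite ι] {x : V} (hx : ∀ i, 0 < g i x)
    (np : ∀ i j, (∀ z, (g i x)⁻¹ * g i z = (g j x)⁻¹ * g j z) → i = j) (m : ℕ) :
    ∀ (A : Set ι) (k : ℕ), A.ncard = m → Hh g (P g A ∅) k → Hh g (P g ∅ ∅) (k + m) := by
  induction m with
  | zero =>
    intro A k hA h
    rwa [(Set.ncard_eq_zero (Set.toFinite A)).1 hA] at h
  | succ m ih =>
    intro A k hA h
    obtain ⟨i, hi, y, -, hmin, heq⟩ := pivot (fun j => (g j x)⁻¹ • g j) ⊤ A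
      (Set.nonempty_of_ncard_ne_zero (by omega))
    simp only [LinearMap.smul_apply, smul_eq_mul] at hmin heq
    obtain ⟨t, ht, ht'⟩ : ∃ t, (g i x)⁻¹ * g i y < t ∧ ∀ j ∈ A \ {i}, t ≤ (g j x)⁻¹ * g j y := by
      rcases (A \ {i}).eq_empty_or_nonempty with c | c
      · exact ⟨_, lt_add_one _, by simp [c]⟩
      · obtain ⟨j, hj, hm⟩ := Set.exists_min_image _ (fun j => (g j x)⁻¹ * g j y)
          (Set.toFinite _) c
        exact ⟨_, (hmin j hj.1).lt_of_ne fun c =>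
          hj.2 (np j i fun z => heq j c.symm z trivial), hm⟩
    have val : ∀ j, g j (y - t • x) = g j x * ((g j x)⁻¹ * g j y - t) := by
      intro j
      have := (hx j).ne'
      simp only [map_sub, map_smul, smul_eq_mul]
      field_simp
    have := step g h (A' := A \ {i}) (B' := ∅) Set.sdiff_subset subset_rfl (x := y - t • x)
      ⟨fun j hj => by rw [val]; exact mul_nonneg (hx j).le (sub_nonneg.2 (ht' j hj)), by simp⟩
      (fun c => by
        have := c.1 i hi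
        rw [val] at this
        exact absurd this (not_le.2 (mul_neg_of_pos_of_neg (hx i) (sub_neg.2 ht))))
    have := ih (A \ {i}) (k + 1) (by rw [Set.ncard_sdiff_singleton_of_mem hi]; omega) this
    rwa [add_assoc, add_comm 1] at this

noncomputable def pot (K : Set V) : ℕ :=
  finrank ℝ (Submodule.span ℝ K) + {i | (∃ x ∈ K, 0 < g i x) ∧ ∃ y ∈ K, g i y < 0}.ncard

theorem pot_mono [Finite ι] [FiniteDimensional ℝ V] :
    StrictMono fun K : Y0 g => pot g K.1 := by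
  rintro ⟨K, hn, A, B, rfl⟩ ⟨K', hK'⟩ hlt
  have hlt' : P g A B ⊂ K' := hlt
  have hs : {i | (∃ x ∈ P g A B, 0 < g i x) ∧ ∃ y ∈ P g A B, g i y < 0} ⊆
      {i | (∃ x ∈ K', 0 < g i x) ∧ ∃ y ∈ K', g i y < 0} := by
    rintro i ⟨⟨x, h1, h2⟩, y, h3, h4⟩
    exact ⟨⟨x, hlt'.1 h1, h2⟩, y, hlt'.1 h3, h4⟩
  rcases (Submodule.span_mono (R := ℝ) hlt'.1).lt_or_eq with c | c
  · exact add_lt_add_of_lt_of_le (Submodule.finrank_lt_finrank_of_lt c) (Set.ncard_le_ncard hs)
  · refine add_lt_add_of_le_of_lt (by rw [c]) (Set.ncard_lt_ncard ⟨hs, fun hh => ?_⟩)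
    obtain ⟨x, hx, hx'⟩ := Set.exists_of_ssubset hlt'
    have hx1 : x ∈ Metric.sphere (0 : V) 1 := by
      obtain ⟨-, A', B', e⟩ := hK'
      exact (e ▸ hx : x ∈ P g A' B').1
    have nz : ∀ i, g i x ≠ 0 → ∃ y ∈ P g A B, g i y ≠ 0 := by
      intro i hi
      by_contra d
      push Not at d
      have : Submodule.span ℝ (P g A B) ≤ LinearMap.ker (g i) := Submodule.span_le.2 d
      exact hi (this (c ▸ Submodule.subset_span hx))
    refine hx' ⟨hx1, fun i hi => ?_, fun i hi => ?_⟩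
    · by_contra d
      push Not at d
      obtain ⟨y, hy, hy'⟩ := nz i d.ne
      obtain ⟨-, z, hz, hz'⟩ := hh (a := i) ⟨⟨y, hlt'.1 hy, (hy.2.1 i hi).lt_of_ne' hy'⟩, x, hx, d⟩
      exact absurd (hz.2.1 i hi) (not_le.2 hz')
    · by_contra d
      push Not at d
      obtain ⟨y, hy, hy'⟩ := nz i d.ne'
      obtain ⟨⟨z, hz, hz'⟩, -⟩ := hh (a := i) ⟨⟨x, hx, d⟩, y, hlt'.1 hy, (hy.2.2 i hi).lt_of_ne hy'⟩
      exact absurd (hz.2.2 i hi) (not_le.2 hz')

theorem arr [Finite ι] [FiniteDimensional ℝ V] (ess : ∀ v, (∀ i, g i v = 0) → v = 0) {x : V}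
    (hx : ∀ i, 0 < g i x)
    (np : ∀ i j, (∀ z, (g i x)⁻¹ * g i z = (g j x)⁻¹ * g j z) → i = j) {d : ℕ}
    (hd : finrank ℝ V = d + 1) : krullDim (Y0 g) = ((d + Nat.card ι : ℕ) : ℕ∞) := by
  apply le_antisymm
  · refine iSup_le fun p => ?_
    have h1 : ∀ K : Y0 g, 1 ≤ pot g K.1 := by
      rintro ⟨K, ⟨v, hv⟩, A, B, rfl⟩
      refine le_trans ?_ (Nat.le_add_right _ _)
      rw [Nat.one_le_iff_ne_zero, Ne, Submodule.finrank_eq_zero, Submodule.span_eq_bot]
      intro c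
      have := hv.1
      rw [c v hv] at this
      simp at this
    have h2 : ∀ K : Y0 g, pot g K.1 ≤ d + 1 + Nat.card ι := fun K =>
      add_le_add (hd ▸ Submodule.finrank_le _) (Set.ncard_univ ι ▸ Set.ncard_le_ncard (by simp))
    have h3 : ∀ n : ℕ, ∀ h : n < p.length + 1, n + 1 ≤ pot g (p ⟨n, h⟩).1 := by
      intro n
      induction n with
      | zero => intro h; exact h1 _
      | succ n ih =>
        intro h
        exact lt_of_le_of_lt (ih (by omega)) (pot_mono g (p.strictMono (by simp [Fin.lt_def])))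
    have := (h3 p.length (by omega)).trans (h2 _)
    have h4 : p.length ≤ d + Nat.card ι := by omega
    exact_mod_cast h4
  · have a := faces g ess d ∅ ⊤ x (by simp) (by simpa using hd) trivial (fun j => (hx j).le)
      (fun j hj => absurd hj (hx j).ne')
    obtain ⟨h, hk⟩ := peel g hx np _ Set.univ d (Set.ncard_univ ι) a
    exact le_trans (WithBot.coe_le_coe.2 hk) (height_le_krullDim _)

end Pool.Agent.H13.Arr
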