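import Mathlib

namespace Pool.Agent.H13.Bodies
open Set Metric Filter Topology Pointwise

abbrev E := EuclideanSpace ℝ (Fin 3)

variable {ι J : Type} (o : J → ι) (w : J → E) (ρ : ι → ℝ)

def K (ε : ℝ) (i : ι) : Set E := convexHull ℝ (w '' {j | o j = i}) + closedBall 0 (ε * ρ i)

variable {o w ρ}

lemma ball_sub {ε : ℝ} {j : J} : closedBall (w j) (ε * ρ (o j)) ⊆ K o w ρ ε (o j) := by
  intro x hx
  refine ⟨w j, subset_convexHull ℝ _ ⟨j, rfl, rfl⟩, x - w j, ?_, by simp⟩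
  simpa [dist_eq_norm] using hx

lemma K_le {ε c : ℝ} {i : ι} {n : E} (h : ∀ j, o j = i → inner ℝ n (w j) ≤ c) {x : E}
    (hx : x ∈ K o w ρ ε i) : inner ℝ n x ≤ c + ‖n‖ * (ε * ρ i) := by
  obtain ⟨y, hy, z, hz, rfl⟩ := hx
  have h1 : y ∈ {y : E | inner ℝ n y ≤ c} := by
    refine convexHull_min ?_ (convex_halfSpace_le (innerₗ E n).isLinear c) hy
    rintro _ ⟨j, hj, rfl⟩
    exact h j hj
  have h2 := real_inner_le_norm n z
  have h3 : ‖z‖ ≤ ε * ρ i := by simpa using hz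
  have h4 := mul_le_mul_of_nonneg_left h3 (norm_nonneg n)
  simp only [inner_add_right]
  have : inner ℝ n y ≤ c := h1
  linarith

lemma small (a : ℝ) {δ : ℝ} (h : 0 < δ) : ∀ᶠ ε in 𝓝[>] (0 : ℝ), a * ε < δ := by
  have c : Continuous fun ε : ℝ => a * ε := by fun_prop
  exact nhdsWithin_le_nhds (c.continuousAt.eventually_lt_const (by simpa using h))

variable [Finite J]

lemma body {ε : ℝ} (hε : 0 < ε) (h0 : ∀ i, 0 < ρ i) (ho : Function.Surjective o) (i : ι) :
    IsCompact (K o w ρ ε i) ∧ Convex ℝ (K o w ρ ε i) ∧ (interior (K o w ρ ε i)).Nonempty := by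
  refine ⟨((toFinite _).isCompact_convexHull ℝ).add (isCompact_closedBall _ _),
    (convex_convexHull ℝ _).add (convex_closedBall _ _), ?_⟩
  obtain ⟨j, rfl⟩ := ho i
  exact ⟨w j, interior_mono ball_sub (by
    rw [mem_interior_iff_mem_nhds]; exact closedBall_mem_nhds _ (mul_pos hε (h0 _)))⟩

lemma K_lt {c : ℝ} {i : ι} {n : E} (h : ∀ j, o j = i → inner ℝ n (w j) < c) :
    ∀ᶠ ε in 𝓝[>] (0 : ℝ), ∀ x ∈ K o w ρ ε i, inner ℝ n x < c := by
  obtain ⟨δ, d0, hd⟩ : ∃ δ > 0, ∀ j, o j = i → inner ℝ n (w j) ≤ c - δ := by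
    have : ∀ᶠ δ in 𝓝[>] (0 : ℝ), ∀ j, o j = i → inner ℝ n (w j) ≤ c - δ := by
      rw [eventually_all]
      intro j
      by_cases e : o j = i
      · filter_upwards [small 1 (sub_pos.2 (h j e))] with δ hδ _
        linarith
      · simp [e]
    obtain ⟨δ, h1, h2⟩ := (this.and self_mem_nhdsWithin).exists
    exact ⟨δ, h2, h1⟩
  filter_upwards [small (‖n‖ * ρ i) d0] with ε hε x hx
  linarith [K_le hd hx]

lemma sep {a b d : ι} {n : E} {c : ℝ} (h1 : ∀ j, o j = a ∨ o j = b → inner ℝ n (w j) < c)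
    (h2 : ∀ j, o j = d → c < inner ℝ n (w j)) :
    ∀ᶠ ε in 𝓝[>] (0 : ℝ), (∀ x ∈ K o w ρ ε a ∪ K o w ρ ε b, inner ℝ n x < c) ∧
      ∀ x ∈ K o w ρ ε d, c < inner ℝ n x := by
  filter_upwards [K_lt (ρ := ρ) fun j h => h1 j (.inl h), K_lt (ρ := ρ) fun j h => h1 j (.inr h),
    K_lt (ρ := ρ) (n := -n) (c := -c) (i := d) fun j h => by simpa using h2 j h] with ε a1 a2 a3
  exact ⟨fun x hx => hx.elim (a1 x) (a2 x), fun x hx => by simpa using a3 x hx⟩

lemma expose (h0 : ∀ i, 0 < ρ i) (h1 : ∀ i, ρ i ≤ 1) {S : Set ι} {j0 : J} (hS : o j0 ∈ S) {n : E}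
    (hn : n ≠ 0) (h : ∀ j, o j ∈ S → j ≠ j0 → inner ℝ n (w j) < inner ℝ n (w j0)) :
    ∀ᶠ ε in 𝓝[>] (0 : ℝ), ∃ U, IsOpen U ∧ (U ∩ frontier (K o w ρ ε (o j0))).Nonempty ∧
      U ∩ frontier (K o w ρ ε (o j0)) ⊆ frontier (convexHull ℝ (⋃ i ∈ S, K o w ρ ε i)) := by
  have a : ∀ᶠ ε in 𝓝[>] (0 : ℝ), ∀ j, o j ∈ S → j ≠ j0 →
      inner ℝ n (w j - w j0) + ε * ‖n‖ < 0 := by
    rw [eventually_all]
    intro j
    by_cases e : o j ∈ S ∧ j ≠ j0
    · filter_upwards [small ‖n‖ (sub_pos.2 (h j e.1 e.2))] with δ hδ _ _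
      rw [inner_sub_right]; linarith
    · exact .of_forall fun _ a b => (e ⟨a, b⟩).elim
  filter_upwards [a, self_mem_nhdsWithin] with ε ha (hε : 0 < ε)
  set v := w j0
  set r := ε * ρ (o j0) with hr
  have r0 : 0 < r := mul_pos hε (h0 _)
  set U := {x : E | ∀ j, o j ∈ S → j ≠ j0 → inner ℝ (x - v) (w j - v) + ε * ‖x - v‖ < 0} with hU
  have Uo : IsOpen U := by
    simp only [hU, ofPred_forall]
    refine isOpen_iInter_of_finite fun j => isOpen_iInter_of_finite fun _ =>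
      isOpen_iInter_of_finite fun _ => isOpen_lt (by fun_prop) continuous_const
  set H := convexHull ℝ (⋃ i ∈ S, K o w ρ ε i)
  have s1 : closedBall v r ⊆ K o w ρ ε (o j0) := ball_sub
  have s2 : K o w ρ ε (o j0) ⊆ H := (subset_biUnion_of_mem hS).trans (subset_convexHull ℝ _)
  have s3 : H ∩ U ⊆ closedBall v r := by
    rintro x ⟨hx, hu⟩
    have n0 := norm_nonneg (x - v)
    have : x ∈ {y : E | inner ℝ (x - v) y ≤ inner ℝ (x - v) v + ‖x - v‖ * r} := by
      refine convexHull_min ?_ (convex_halfSpace_le (innerₗ E (x - v)).isLinear _) hx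
      refine iUnion₂_subset fun i hi y hy => ?_
      by_cases e : i = o j0
      · subst e
        refine K_le (fun j hj => ?_) hy
        by_cases e : j = j0
        · rw [e]
        · have := hu j (hj ▸ hS) e
          rw [inner_sub_right] at this
          nlinarith
      · have := K_le (n := x - v) (c := inner ℝ (x - v) v - ε * ‖x - v‖) (fun j hj => by
          have := hu j (hj ▸ hi) (fun e' => e (by rw [← hj, e']))
          rw [inner_sub_right] at this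
          linarith) hy
        have b := mul_le_mul_of_nonneg_left (h1 i) (mul_nonneg n0 hε.le)
        show inner ℝ (x - v) y ≤ _
        nlinarith
    have t : inner ℝ (x - v) x ≤ inner ℝ (x - v) v + ‖x - v‖ * r := this
    have e := real_inner_self_eq_norm_sq (x - v)
    rw [inner_sub_right] at e
    rw [mem_closedBall, dist_eq_norm]
    nlinarith
  have e1 : K o w ρ ε (o j0) ∩ U = closedBall v r ∩ U :=
    Subset.antisymm (fun x hx => ⟨s3 ⟨s2 hx.1, hx.2⟩, hx.2⟩) (inter_subset_inter_left _ s1)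
  have e2 : H ∩ U = closedBall v r ∩ U :=
    Subset.antisymm (fun x hx => ⟨s3 hx, hx.2⟩) (inter_subset_inter_left _ (s1.trans s2))
  have f1 : U ∩ frontier (K o w ρ ε (o j0)) = frontier (closedBall v r) ∩ U := by
    rw [inter_comm, ← frontier_inter_open_inter Uo, e1, frontier_inter_open_inter Uo]
  have f2 : frontier H ∩ U = frontier (closedBall v r) ∩ U := by
    rw [← frontier_inter_open_inter Uo, e2, frontier_inter_open_inter Uo]
  refine ⟨U, Uo, ?_, by rw [f1, ← f2]; exact inter_subset_left⟩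
  have np := norm_pos_iff.2 hn
  have q : 0 < r / ‖n‖ := div_pos r0 np
  rw [f1, frontier_closedBall _ r0.ne']
  refine ⟨v + (r / ‖n‖) • n, ?_, fun j a b => ?_⟩
  · simp only [mem_sphere_iff_norm, add_sub_cancel_left, norm_smul, Real.norm_eq_abs, abs_of_pos q]
    field_simp
  · simp only [add_sub_cancel_left, norm_smul, Real.norm_eq_abs, abs_of_pos q, real_inner_smul_left]
    nlinarith [mul_neg_of_pos_of_neg q (ha j a b)]

lemma touch {ε c : ℝ} (hε : 0 < ε) (h0 : ∀ i, 0 < ρ i) (h1 : ∀ i, ρ i ≤ 1)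
    (ho : Function.Surjective o) {i : ι} {n : E} (hx : ∃ x ∈ K o w ρ ε i, inner ℝ n x = c)
    (h : ∀ x ∈ K o w ρ ε i, inner ℝ n x ≤ c) : ∃ j, o j = i ∧ |inner ℝ n (w j) - c| ≤ ‖n‖ * ε := by
  obtain ⟨j, hj, hm⟩ := (toFinite {j | o j = i}).exists_maximalFor (fun j => inner ℝ n (w j)) _ (ho i)
  obtain ⟨x, hx, rfl⟩ := hx
  have a := K_le (c := inner ℝ n (w j)) (fun k hk => not_lt.1 fun l => (hm hk l.le).not_gt l) hx
  have e : o j = i := hj
  have b := h (w j) (e ▸ ball_sub (mem_closedBall_self (mul_pos hε (h0 _)).le))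
  have d := mul_le_mul_of_nonneg_left (h1 i) (mul_nonneg (norm_nonneg n) hε.le)
  exact ⟨j, e, abs_le.2 ⟨by nlinarith, by nlinarith [mul_nonneg (norm_nonneg n) hε.le]⟩⟩

lemma indep (p : Fin 4 → E) (h : ∀ (n : E) (c : ℝ), (∀ k, inner ℝ n (p k) = c) → n = 0) :
    ∀ᶠ ε in 𝓝[>] (0 : ℝ), ∀ (n : E) (c : ℝ), (∀ k, |inner ℝ n (p k) - c| ≤ ‖n‖ * ε) → n = 0 := by
  let L : E →ₗ[ℝ] (Fin 4 → ℝ) := LinearMap.pi fun k => innerₗ E (p k - p 0)
  have hL : ∀ n k, L n k = inner ℝ n (p k) - inner ℝ n (p 0) := fun n k => by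
    simp [L, real_inner_comm]
  obtain ⟨A, -, hA⟩ := L.exists_antilipschitzWith (by
    rw [LinearMap.ker_eq_bot']
    intro n hn
    exact h n _ fun k => sub_eq_zero.1 (by rw [← hL, hn]; rfl))
  filter_upwards [small (2 * A) one_pos, self_mem_nhdsWithin] with ε h1 (h2 : 0 < ε) n c hn
  have a := ZeroHomClass.bound_of_antilipschitz L hA n
  have b : ‖L n‖ ≤ 2 * (‖n‖ * ε) := by
    refine (pi_norm_le_iff_of_nonneg (by positivity)).2 fun k => ?_
    rw [hL, Real.norm_eq_abs]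
    have := abs_le.1 (hn k)
    have := abs_le.1 (hn 0)
    rw [abs_le]; constructor <;> linarith
  have d := mul_le_mul_of_nonneg_left b A.2
  by_contra e
  have := norm_pos_iff.2 e
  have : (A.1 : ℝ) = A := rfl
  nlinarith

end Pool.Agent.H13.Bodies
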