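import Mathlib
import Pool.Agent.H13.Bodies

namespace Pool.Agent.H13.Bodies
open Set Metric Filter Topology Pointwise

def oo (m : ℕ) : Fin (m + 3) ⊕ Fin m → Option (Fin (m + 3)) := Sum.elim some fun _ => none

noncomputable def pa (t : ℝ) : E := !₂[t, t ^ 2, t ^ 3]
noncomputable def pq (s : ℝ) : E := !₂[1 / 2, s / 2, (s ^ 2 + 1 / 2) / 2]

noncomputable def ww (m : ℕ) : Fin (m + 3) ⊕ Fin m → E :=
  Sum.elim (fun t => pa (t : ℕ)) fun j => pq ((j : ℕ) + 2)

noncomputable def rr (m : ℕ) : Option (Fin (m + 3)) → ℝ := fun i => i.elim (1 / 2) fun _ => 1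

lemma in_pa (n : E) (t : ℝ) : inner ℝ n (pa t) = n 0 * t + n 1 * t ^ 2 + n 2 * t ^ 3 := by
  simp [pa, PiLp.inner_apply, Fin.sum_univ_three]; ring

lemma in_pq (n : E) (s : ℝ) : inner ℝ n (pq s) = (n 0 + n 1 * s + n 2 * (s ^ 2 + 1 / 2)) / 2 := by
  simp [pq, PiLp.inner_apply, Fin.sum_univ_three]; ring

variable {m : ℕ}

lemma rr0 (i) : 0 < rr m i := by cases i <;> simp [rr]
lemma rr1 (i) : rr m i ≤ 1 := by cases i <;> simp [rr]; norm_num

lemma oo_surj (hm : 0 < m) : Function.Surjective (oo m) := by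
  rintro (_ | t)
  · exact ⟨.inr ⟨0, hm⟩, rfl⟩
  · exact ⟨.inl t, rfl⟩

lemma one_le_sq {a b : ℕ} (h : a ≠ b) : (1 : ℝ) ≤ ((a : ℝ) - b) ^ 2 := by
  have : (1 : ℤ) ≤ ((a : ℤ) - b) ^ 2 := by
    have : (a : ℤ) - b ≠ 0 := by omega
    nlinarith [Int.one_le_abs this, sq_abs ((a : ℤ) - b)]
  exact_mod_cast this

lemma nat_sq (a : ℕ) : (a : ℝ) ≤ (a : ℝ) ^ 2 := by exact_mod_cast Nat.le_self_pow two_ne_zero a

lemma ex_a (t : Fin (m + 3)) (j) (h : j ≠ .inl t) :
    inner ℝ (!₂[2 * (t : ℕ), -1, 0] : E) (ww m j) ≤ ((t : ℕ) : ℝ) ^ 2 - 1 := by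
  rcases j with u | j
  · have := one_le_sq (a := u) (b := t) fun e => h (by rw [Fin.ext e])
    simp [ww, in_pa]; nlinarith
  · have := nat_sq t
    have : (0 : ℝ) ≤ (j : ℕ) := by positivity
    simp [ww, in_pq]; nlinarith

lemma ex_a' (t : Fin (m + 3)) :
    inner ℝ (!₂[2 * (t : ℕ), -1, 0] : E) (ww m (.inl t)) = ((t : ℕ) : ℝ) ^ 2 := by
  simp [ww, in_pa]; ring

lemma hsep (a b d : Option (Fin (m + 3))) (ha : a ≠ d) (hb : b ≠ d) : ∃ (n : E) (c : ℝ),
    (∀ j, oo m j = a ∨ oo m j = b → inner ℝ n (ww m j) < c) ∧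
      ∀ j, oo m j = d → c < inner ℝ n (ww m j) := by
  have key : ∀ t : Fin (m + 3), ∃ (n : E) (c : ℝ), (∀ j, oo m j = some t ∨ oo m j = some 0 →
      inner ℝ n (ww m j) < c) ∧ ∀ j, oo m j = none → c < inner ℝ n (ww m j) := by
    intro t
    refine ⟨!₂[((t : ℕ) : ℝ) ^ 2, -2 * (t : ℕ), 1], 1 / 8, ?_, ?_⟩
    · rintro (u | j) (h | h) <;> simp [oo] at h <;> subst h <;> simp [ww, in_pa]
      ring_nf; norm_num
    · rintro (u | j) h <;> simp [oo] at h
      simp [ww, in_pq]; nlinarith [sq_nonneg (((j : ℕ) : ℝ) + 2 - (t : ℕ))]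
  rcases d with _ | t
  · rcases a with _ | a
    · exact (ha rfl).elim
    rcases b with _ | b
    · exact (hb rfl).elim
    by_cases b0 : b = 0
    · exact b0 ▸ key a
    by_cases a0 : a = 0
    · simpa only [or_comm, a0] using key b
    refine ⟨!₂[-1, 0, 0], -3 / 4, ?_, ?_⟩
    · have a1 : (1 : ℝ) ≤ (a : ℕ) := by exact_mod_cast Nat.pos_of_ne_zero (by simpa using a0)
      have b1 : (1 : ℝ) ≤ (b : ℕ) := by exact_mod_cast Nat.pos_of_ne_zero (by simpa using b0)
      rintro (u | j) (h | h) <;> simp [oo] at h <;> subst h <;> simp [ww, in_pa] <;> linarith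
    · rintro (u | j) h <;> simp [oo] at h
      simp [ww, in_pq]; norm_num
  · refine ⟨!₂[2 * (t : ℕ), -1, 0], ((t : ℕ) : ℝ) ^ 2 - 1 / 2, fun j h => ?_, ?_⟩
    · have := ex_a t j (by rintro rfl; rcases h with h | h; exacts [ha h.symm, hb h.symm])
      linarith
    · rintro (u | j) h <;> simp [oo] at h
      subst h
      rw [ex_a']; linarith

lemma ex_q (s : Fin m) (j) (h : j ≠ .inr s) (h' : j ≠ .inl ⟨s + 2, by omega⟩) :
    inner ℝ (!₂[3 / 4 - ((s : ℕ) + 2) ^ 2, 2 * ((s : ℕ) + 2), -1] : E) (ww m j) <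
    inner ℝ (!₂[3 / 4 - ((s : ℕ) + 2) ^ 2, 2 * ((s : ℕ) + 2), -1] : E) (ww m (.inr s)) := by
  rcases j with u | j
  · have := one_le_sq (a := u) (b := s + 2) fun e => h' (by congr 1; exact Fin.ext e)
    have u0 : (0 : ℝ) ≤ (u : ℕ) := by positivity
    push_cast at this
    simp [ww, in_pa, in_pq]; nlinarith [mul_le_mul_of_nonneg_left this u0]
  · have := one_le_sq (a := j) (b := s) fun e => h (by rw [Fin.ext e])
    simp [ww, in_pq]; nlinarith

lemma three {n : E} {c : ℝ} {x y z : Fin (m + 3)} {j} (hxy : x ≠ y) (hxz : x ≠ z) (hyz : y ≠ z)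
    (jx : oo m j ≠ some x) (jy : oo m j ≠ some y) (jz : oo m j ≠ some z)
    (hx : inner ℝ n (ww m (.inl x)) = c) (hy : inner ℝ n (ww m (.inl y)) = c)
    (hz : inner ℝ n (ww m (.inl z)) = c) (hj : inner ℝ n (ww m j) = c) : n = 0 := by
  have ne : ∀ {a b : Fin (m + 3)}, a ≠ b → ((a : ℕ) : ℝ) - (b : ℕ) ≠ 0 := fun h e =>
    h (Fin.ext (by exact_mod_cast sub_eq_zero.1 e))
  simp only [ww, Sum.elim_inl, in_pa] at hx hy hz
  have d1 := ne hxy
  have d2 := ne hxz
  have d3 := ne hyz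
  set a : ℝ := ((x : ℕ) : ℝ) with ha
  set b : ℝ := ((y : ℕ) : ℝ) with hb
  set d : ℝ := ((z : ℕ) : ℝ) with hd
  have e1 : n 0 + n 1 * (a + b) + n 2 * (a ^ 2 + a * b + b ^ 2) = 0 :=
    mul_left_cancel₀ d1 (by linear_combination hx - hy)
  have e2 : n 0 + n 1 * (a + d) + n 2 * (a ^ 2 + a * d + d ^ 2) = 0 :=
    mul_left_cancel₀ d2 (by linear_combination hx - hz)
  have e3 : n 1 = -n 2 * (a + b + d) := mul_left_cancel₀ d3 (by linear_combination e1 - e2)
  have e4 : n 0 = n 2 * (a * b + a * d + b * d) := by rw [e3] at e1; linear_combination e1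
  have e5 : c = n 2 * (a * b * d) := by rw [e3, e4] at hx; linear_combination -hx
  have e6 : n 2 = 0 := by
    rcases j with u | j
    · simp only [ww, Sum.elim_inl, in_pa, e3, e4, e5] at hj
      have : n 2 * ((((u : ℕ) : ℝ) - a) * (((u : ℕ) - b) * ((u : ℕ) - d))) = 0 := by
        linear_combination hj
      simp only [oo, Sum.elim_inl, ne_eq, Option.some.injEq] at jx jy jz
      exact (mul_eq_zero.1 this).resolve_right (mul_ne_zero (ne jx) (mul_ne_zero (ne jy) (ne jz)))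
    · simp only [ww, Sum.elim_inr, in_pq, e3, e4, e5] at hj
      set s : ℝ := ((j : ℕ) : ℝ) with hs
      have : n 2 * (2 * ((a * b + a * d + b * d) - (a + b + d) * (s + 2) + (s + 2) ^ 2 -
          2 * (a * b * d)) + 1) = 0 := by linear_combination 4 * hj
      refine (mul_eq_zero.1 this).resolve_right fun e => ?_
      rw [ha, hb, hd, hs] at e
      have : 2 * ((((x : ℕ) : ℤ) * (y : ℕ) + (x : ℕ) * (z : ℕ) + (y : ℕ) * (z : ℕ)) -
          ((x : ℕ) + (y : ℕ) + (z : ℕ)) * ((j : ℕ) + 2) + ((j : ℕ) + 2) ^ 2 -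
          2 * ((x : ℕ) * (y : ℕ) * (z : ℕ))) + 1 = 0 := by
        apply Int.cast_injective (α := ℝ)
        simp only [Int.cast_add, Int.cast_mul, Int.cast_sub, Int.cast_pow, Int.cast_natCast,
          Int.cast_ofNat, Int.cast_one, Int.cast_zero]
        linear_combination e
      omega
  ext i
  fin_cases i <;> simp [e3, e4, e6]

lemma four (j : Fin 4 → Fin (m + 3) ⊕ Fin m) (hj : Function.Injective (oo m ∘ j)) (n : E) (c : ℝ)
    (h : ∀ k, inner ℝ n (ww m (j k)) = c) : n = 0 := by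
  have ne : ∀ a b, a ≠ b → oo m (j a) ≠ oo m (j b) := fun a b e e' => e (hj e')
  have n01 := ne 0 1 (by decide)
  have n02 := ne 0 2 (by decide)
  have n03 := ne 0 3 (by decide)
  have n12 := ne 1 2 (by decide)
  have n13 := ne 1 3 (by decide)
  have n23 := ne 2 3 (by decide)
  have h0 := h 0
  have h1 := h 1
  have h2 := h 2
  have h3 := h 3
  generalize j 0 = a at *
  generalize j 1 = b at *
  generalize j 2 = d at *
  generalize j 3 = e at *
  have s : ∀ {x y : Fin (m + 3)}, oo m (.inl x) ≠ oo m (.inl y) → x ≠ y := fun h e => h (e ▸ rfl)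
  rcases a with a | a <;> rcases b with b | b <;> rcases d with d | d <;> rcases e with e | e <;>
    first
    | exact three (s n01) (s n02) (s n12) n03.symm n13.symm n23.symm h0 h1 h2 h3
    | exact three (s n01) (s n03) (s n13) n02.symm n12.symm n23 h0 h1 h3 h2
    | exact three (s n02) (s n03) (s n23) n01.symm n12 n13 h0 h2 h3 h1
    | exact three (s n12) (s n13) (s n23) n01 n02 n03 h1 h2 h3 h0
    | exact (n01 rfl).elim
    | exact (n02 rfl).elim
    | exact (n03 rfl).elim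
    | exact (n12 rfl).elim
    | exact (n13 rfl).elim
    | exact (n23 rfl).elim

lemma q_mem (s : Fin m) : ww m (.inr s) ∈ convexHull ℝ (range fun t => ww m (.inl t)) := by
  set P := convexHull ℝ (range fun t => ww m (.inl t))
  have cv : Convex ℝ P := convex_convexHull ℝ _
  have z : (0 : E) ∈ P := subset_convexHull ℝ _ ⟨0, by ext i; fin_cases i <;> simp [ww, pa]⟩
  have x : ∀ t : ℕ, t < m + 3 → 0 < t → (!₂[1 / 2, t / 2, t ^ 2 / 2] : E) ∈ P := by
    intro t h1 h2
    have t1 : (1 : ℝ) ≤ t := by exact_mod_cast h2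
    have := cv.smul_mem_of_zero_mem z (subset_convexHull ℝ _ ⟨⟨t, h1⟩, rfl⟩) (t := 1 / (2 * t))
      ⟨by positivity, by rw [div_le_one (by positivity)]; linarith⟩
    convert this using 1
    ext i; fin_cases i <;> simp [ww, pa] <;> field_simp
  have a := cv (x (s + 1) (by omega) (by omega)) (x (s + 3) (by omega) (by omega))
    (a := 1 / 2) (b := 1 / 2) (by norm_num) (by norm_num) (by norm_num)
  have b := cv a (x (s + 2) (by omega) (by omega))
    (a := 1 / 2) (b := 1 / 2) (by norm_num) (by norm_num) (by norm_num)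
  convert b using 1
  ext i; fin_cases i <;> simp [ww, pq] <;> ring

lemma inside {ε : ℝ} (hε : 0 < ε) : K (oo m) (ww m) (rr m) ε none ⊆
    interior (convexHull ℝ (⋃ i, K (oo m) (ww m) (rr m) ε i)) := by
  set H := convexHull ℝ (⋃ i, K (oo m) (ww m) (rr m) ε i)
  set P := convexHull ℝ (range fun t => ww m (.inl t))
  have a : P + ball (0 : E) ε ⊆ H := by
    rintro _ ⟨y, hy, z, hz, rfl⟩
    have : y ∈ (fun y => y + z) ⁻¹' H := by
      refine convexHull_min ?_ ((convex_convexHull ℝ _).translate_preimage_left z) hy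
      rintro _ ⟨t, rfl⟩
      refine subset_convexHull ℝ _ (mem_iUnion.2 ⟨_, ball_sub (j := .inl t) ?_⟩)
      simpa [oo, rr] using (mem_ball_zero_iff.1 hz).le
    exact this
  refine subset_trans ?_ (interior_maximal a isOpen_ball.add_left)
  refine add_subset_add (convexHull_min ?_ (convex_convexHull ℝ _))
    (closedBall_subset_ball (by simp [rr]; linarith))
  rintro _ ⟨u | s, h, rfl⟩
  · simp [oo] at h
  · exact q_mem s

lemma expo (S : Finset (Option (Fin (m + 3)))) (hS : S.card < m) (i) (hi : i ∈ S) :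
    ∀ᶠ ε in 𝓝[>] (0 : ℝ), ∃ U, IsOpen U ∧ (U ∩ frontier (K (oo m) (ww m) (rr m) ε i)).Nonempty ∧
      U ∩ frontier (K (oo m) (ww m) (rr m) ε i) ⊆
        frontier (convexHull ℝ (⋃ i ∈ (S : Set (Option (Fin (m + 3)))), K (oo m) (ww m) (rr m) ε i)) := by
  rcases i with _ | t
  · obtain ⟨s, h⟩ : ∃ s : Fin m, some (⟨s + 2, by omega⟩ : Fin (m + 3)) ∉ S := by
      by_contra h
      push Not at h
      have := Finset.card_le_card_of_injOn (s := Finset.univ) (t := S)
        (fun s : Fin m => some (⟨s + 2, by omega⟩ : Fin (m + 3))) (fun s _ => h s)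
        (fun a _ b _ e => by simpa [Fin.ext_iff] using e)
      simp at this
      omega
    have := expose (o := oo m) (w := ww m) (ρ := rr m) (S := S) (j0 := .inr s) rr0 rr1 hi
      (n := !₂[3 / 4 - ((s : ℕ) + 2) ^ 2, 2 * ((s : ℕ) + 2), -1])
      (fun e => by simpa using congrArg (fun v : E => v 2) e)
      fun j h1 h2 => ex_q s j h2 (by rintro rfl; exact h h1)
    exact this
  · have := expose (o := oo m) (w := ww m) (ρ := rr m) (S := S) (j0 := .inl t) rr0 rr1 hi
      (n := !₂[2 * (t : ℕ), -1, 0]) (fun e => by simpa using congrArg (fun v : E => v 1) e)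
      fun j _ h2 => by linarith [ex_a t j h2, ex_a' t]
    exact this

end Pool.Agent.H13.Bodies
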