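import Mathlib

set_option autoImplicit false

namespace Pool.Agent.H13.Braid

variable {B : Type} (M : CoxeterMatrix B)

def SimplyLaced : Prop := ∀ s t, s ≠ t → M s t = 2 ∨ M s t = 3

def TriangleFree : Prop := ∀ s t u, ¬ (M s t = 3 ∧ M t u = 3 ∧ M s u = 3)

def Move (u v : List B) : Prop :=
  ∃ p q s t, M s t = 3 ∧ u = p ++ [s, t, s] ++ q ∧ v = p ++ [t, s, t] ++ q

def Cls (α : List B) : Set (List B) := {β | Relation.ReflTransGen (Move M) α β}

def graph (α : List B) : SimpleGraph (Cls M α) := SimpleGraph.fromRel fun u v => Move M u.1 v.1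

def Shadows (α : List B) : Set ℕ :=
  {i | ∃ β ∈ Cls M α, ∃ p q s t, M s t = 3 ∧ β = p ++ [s, t, s] ++ q ∧ p.length = i}

variable {M}

theorem ne3 {s t : B} (h : M s t = 3) : s ≠ t := by
  rintro rfl
  simp at h

theorem sym3 {s t : B} (h : M s t = 3) : M t s = 3 := (M.symmetric t s).trans h

theorem Move.symm {u v : List B} (h : Move M u v) : Move M v u := by
  obtain ⟨p, q, s, t, h, a, b⟩ := h
  exact ⟨p, q, t, s, sym3 h, b, a⟩

def L (m : ℕ) (w : ℕ → B) : List B := (List.range m).map w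

theorem L_congr {m : ℕ} {w w' : ℕ → B} (h : ∀ j < m, w j = w' j) : L m w = L m w' :=
  List.map_congr_left fun j hj => h j (List.mem_range.1 hj)

theorem L_inj {m : ℕ} {w w' : ℕ → B} (h : L m w = L m w') {j : ℕ} (hj : j < m) : w j = w' j :=
  List.map_inj_left.1 h j (List.mem_range.2 hj)

theorem split (i k n : ℕ) (w : ℕ → B) :
    L (i + k + n) w = L i w ++ L k (fun j => w (i + j)) ++ L n (fun j => w (i + k + j)) := by
  simp [L, List.range_add, Function.comp_def]

theorem L3 (w : ℕ → B) : L 3 w = [w 0, w 1, w 2] := rfl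

def sw (w : ℕ → B) (i : ℕ) (j : ℕ) : B :=
  if j = i ∨ j = i + 2 then w (i + 1) else if j = i + 1 then w i else w j

theorem sw_split (i n : ℕ) (w : ℕ → B) : L (i + 3 + n) (sw w i) =
    L i w ++ [w (i + 1), w i, w (i + 1)] ++ L n (fun j => w (i + 3 + j)) := by
  rw [split, L3, L_congr (w' := w) fun j hj => by rw [sw, if_neg (by omega), if_neg (by omega)],
    L_congr (m := n) (w' := fun j => w (i + 3 + j)) fun j hj => by
      rw [sw, if_neg (by omega), if_neg (by omega)]]
  simp [sw]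

theorem decomp {m : ℕ} {w : ℕ → B} {p q : List B} {s t : B} (h : L m w = p ++ [s, t, s] ++ q) :
    p.length + 2 < m ∧ w p.length = s ∧ w (p.length + 1) = t ∧ w (p.length + 2) = s ∧
      p ++ [t, s, t] ++ q = L m (sw w p.length) := by
  have hm : m = p.length + 3 + q.length := by
    have := congrArg List.length h
    simp [L] at this
    omega
  subst hm
  rw [split, L3] at h
  obtain ⟨h1, h2⟩ := List.append_inj h (by simp [L])
  obtain ⟨h3, h4⟩ := List.append_inj h1 (by simp [L])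
  simp only [add_zero, List.cons.injEq, and_true] at h4
  refine ⟨by omega, h4.1, h4.2.1, h4.2.2, ?_⟩
  rw [sw_split, h2, h3, h4.1, h4.2.1]

theorem move_of {m i : ℕ} {w : ℕ → B} (hi : i + 2 < m)
    (h2 : w (i + 2) = w i) : ∃ p q, p.length = i ∧ L m w = p ++ [w i, w (i + 1), w i] ++ q ∧
      L m (sw w i) = p ++ [w (i + 1), w i, w (i + 1)] ++ q := by
  obtain ⟨n, rfl⟩ : ∃ n, m = i + 3 + n := ⟨m - (i + 3), by omega⟩
  exact ⟨L i w, _, by simp [L], by rw [split, L3]; simp [h2], sw_split i n w⟩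

section Cox
variable {W : Type} [Group W] (cs : CoxeterSystem M W)

theorem braid {s t : B} (h : M s t = 3) :
    cs.simple s * cs.simple t * cs.simple s = cs.simple t * cs.simple s * cs.simple t := by
  have h1 := cs.simple_mul_simple_pow s t
  rw [h] at h1
  have : (cs.simple s * cs.simple t * cs.simple s) * (cs.simple t * cs.simple s * cs.simple t) =
      1 := by rw [← h1]; simp only [pow_succ, pow_zero, one_mul, mul_assoc]
  rw [eq_inv_of_mul_eq_one_left this]
  simp [mul_assoc]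

theorem red_move {u v : List B} (h : Move M u v) (hu : cs.IsReduced u) : cs.IsReduced v := by
  obtain ⟨p, q, s, t, h, rfl, rfl⟩ := h
  have := braid cs h
  unfold CoxeterSystem.IsReduced at hu ⊢
  simp only [cs.wordProd_append, cs.wordProd_cons, cs.wordProd_nil, mul_one, ← mul_assoc,
    List.length_append, List.length_cons] at hu ⊢
  simp only [mul_assoc] at this hu ⊢
  rw [← hu]
  congr 2
  simpa only [mul_assoc] using congrArg (· * cs.wordProd q) this.symm

theorem not_red {m i : ℕ} {w : ℕ → B} (hi : i + 3 < m) (h : M (w i) (w (i + 1)) = 3)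
    (h2 : w (i + 2) = w i) (h3 : w (i + 3) = w (i + 1)) : ¬ cs.IsReduced (L m w) := by
  obtain ⟨n, rfl⟩ : ∃ n, m = i + 4 + n := ⟨m - (i + 4), by omega⟩
  intro hr
  have e : L (i + 4 + n) w = L i w ++ [w i, w (i + 1), w i, w (i + 1)] ++
      L n (fun j => w (i + 4 + j)) := by
    rw [split, show L 4 (fun j => w (i + j)) = [w i, w (i + 1), w (i + 2), w (i + 3)] from rfl,
      h2, h3]
  have e2 : cs.wordProd (L (i + 4 + n) w) =
      cs.wordProd (L i w ++ [w (i + 1), w i] ++ L n (fun j => w (i + 4 + j))) := by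
    rw [e]
    simp only [cs.wordProd_append, cs.wordProd_cons, cs.wordProd_nil, mul_one, ← mul_assoc]
    congr 1
    have := congrArg (fun z => cs.wordProd (L i w) * z * cs.simple (w (i + 1))) (braid cs h)
    simpa only [← mul_assoc, cs.simple_mul_simple_cancel_right] using this
  have := cs.length_wordProd_le (L i w ++ [w (i + 1), w i] ++ L n (fun j => w (i + 4 + j)))
  rw [← e2, hr.eq] at this
  simp [L] at this
  omega

end Cox

structure St (B : Type) where
  Z : Finset ℕ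
  f : ℕ → Bool → B
  l : ℕ → Bool
  r : ℕ → Bool
  base : ℕ → B

namespace St
variable (S : St B)

def Wd (x : ℕ → Bool) (j : ℕ) : B :=
  if j ∈ S.Z then S.f j (x j) else
  if j - 1 ∈ S.Z ∧ (j + 1 ∉ S.Z ∨ x (j - 1) = S.r (j - 1)) then S.f (j - 1)
    (if j + 1 ∈ S.Z then !S.r (j - 1) else !x (j - 1)) else
  if j + 1 ∈ S.Z then S.f (j + 1) (!x (j + 1)) else S.base j

def Valid (x : ℕ → Bool) : Prop :=
  ∀ c ∈ S.Z, c + 2 ∈ S.Z → ¬ (x c = S.r c ∧ x (c + 2) = S.l (c + 2))

def Ok (M : CoxeterMatrix B) (m : ℕ) : Prop :=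
  (∀ c ∈ S.Z, 1 ≤ c ∧ c + 1 < m ∧ c + 1 ∉ S.Z ∧ M (S.f c true) (S.f c false) = 3) ∧
  ∀ c ∈ S.Z, c + 2 ∈ S.Z → S.f c (S.r c) = S.f (c + 2) (S.l (c + 2)) ∧
    S.f c (!S.r c) ≠ S.f (c + 2) (!S.l (c + 2))

variable {S} {m : ℕ} (hS : S.Ok M m)
include hS

theorem m3 {c : ℕ} (hc : c ∈ S.Z) (b : Bool) : M (S.f c b) (S.f c (!b)) = 3 := by
  cases b
  · exact sym3 (hS.1 c hc).2.2.2
  · exact (hS.1 c hc).2.2.2

theorem finj {c : ℕ} (hc : c ∈ S.Z) {a b : Bool} (h : S.f c a = S.f c b) : a = b := by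
  by_contra k
  have : b = !a := by cases a <;> cases b <;> simp_all
  exact ne3 (m3 hS hc a) (this ▸ h)

omit hS in
theorem W0 (x : ℕ → Bool) {c : ℕ} (hc : c ∈ S.Z) : S.Wd x c = S.f c (x c) := if_pos hc

theorem WR {x : ℕ → Bool} (hx : S.Valid x) {c : ℕ} (hc : c ∈ S.Z) : S.Wd x (c + 1) =
    if c + 2 ∈ S.Z ∧ x (c + 2) = S.l (c + 2) then S.f (c + 2) (!S.l (c + 2)) else S.f c (!x c) := by
  have a := (hS.1 c hc).2.2.1
  have b := hS.2 c hc
  have v := hx c hc
  unfold Wd
  simp only [a, if_false, Nat.add_sub_cancel, hc, true_and, add_assoc, Nat.reduceAdd]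
  by_cases h : c + 2 ∈ S.Z
  · have b := (b h).1
    have v := v h
    simp only [h, not_true, false_or, if_true, true_and]
    revert b v
    cases x c <;> cases x (c + 2) <;> cases S.r c <;> cases S.l (c + 2) <;> simp_all
  · simp [h]

theorem WL (x : ℕ → Bool) {c : ℕ} (hc : c + 1 ∈ S.Z) : S.Wd x c =
    if c - 1 ∈ S.Z ∧ x (c - 1) = S.r (c - 1) then S.f (c - 1) (!S.r (c - 1))
    else S.f (c + 1) (!x (c + 1)) := by
  have a : c ∉ S.Z := fun h => (hS.1 c h).2.2.1 hc
  unfold Wd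
  simp [a, hc]

theorem pred {c : ℕ} (h : c - 1 ∈ S.Z) : c - 1 + 1 = c := by
  have := (hS.1 _ h).1
  omega

theorem flip_eq {x : ℕ → Bool} {i : ℕ} (hc : i + 1 ∈ S.Z) (hx : S.Valid x)
    (hy : S.Valid (Function.update x (i + 1) (!x (i + 1)))) :
    S.Wd x i = S.f (i + 1) (!x (i + 1)) ∧ S.Wd x (i + 2) = S.f (i + 1) (!x (i + 1)) ∧
      S.Wd (Function.update x (i + 1) (!x (i + 1))) = sw (S.Wd x) i := by
  have a1 : ¬ (i - 1 ∈ S.Z ∧ x (i - 1) = S.r (i - 1)) := by
    rintro ⟨h1, h2⟩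
    have e : i - 1 + 2 = i + 1 := by have := pred hS h1; omega
    have u := hx _ h1 (e ▸ hc)
    have v := hy _ h1 (e ▸ hc)
    rw [e] at u v
    rw [Function.update_of_ne (by omega), Function.update_self] at v
    revert u v
    cases x (i + 1) <;> cases S.l (i + 1) <;> simp [h2]
  have a2 : ¬ (i + 1 + 2 ∈ S.Z ∧ x (i + 1 + 2) = S.l (i + 1 + 2)) := by
    rintro ⟨h1, h2⟩
    have u := hx _ hc h1
    have v := hy _ hc h1
    rw [Function.update_of_ne (a := i + 1 + 2) (by omega), Function.update_self] at v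
    revert u v
    cases x (i + 1) <;> cases S.r (i + 1) <;> simp [h2]
  have b1 := (WL hS x hc).trans (if_neg a1)
  have b2 := (WR hS hx hc).trans (if_neg a2)
  refine ⟨b1, b2, funext fun j => ?_⟩
  unfold sw
  split_ifs with h1 h2
  · rw [W0 x hc]
    rcases h1 with rfl | rfl
    · rw [WL hS _ hc, Function.update_of_ne (by omega), if_neg a1]
      simp
    · rw [WR hS hy hc, Function.update_of_ne (by omega), if_neg a2]
      simp
  · subst h2
    rw [W0 _ hc, b1]
    simp
  · unfold Wd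
    rw [Function.update_of_ne h2, Function.update_of_ne (by omega : j - 1 ≠ i + 1),
      Function.update_of_ne (by omega : j + 1 ≠ i + 1)]

theorem flip_move {x : ℕ → Bool} {c : ℕ} (hc : c ∈ S.Z) (hx : S.Valid x)
    (hy : S.Valid (Function.update x c (!x c))) :
    ∃ p q s t, p.length + 1 = c ∧ M s t = 3 ∧ L m (S.Wd x) = p ++ [s, t, s] ++ q ∧
      L m (S.Wd (Function.update x c (!x c))) = p ++ [t, s, t] ++ q := by
  obtain ⟨i, rfl⟩ : ∃ i, c = i + 1 := ⟨c - 1, by have := (hS.1 c hc).1; omega⟩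
  obtain ⟨a, b, e⟩ := flip_eq hS hc hx hy
  have h3 : M (S.Wd x i) (S.Wd x (i + 1)) = 3 := by
    rw [a, W0 x hc]
    exact sym3 (m3 hS hc _)
  obtain ⟨p, q, h1, h2, h4⟩ := move_of (hS.1 _ hc).2.1 (b.trans a.symm)
  exact ⟨p, q, _, _, by omega, h3, h2, e ▸ h4⟩

def ham (S : St B) (x y : ℕ → Bool) : ℕ := (S.Z.filter fun c => x c ≠ y c).card

omit hS in
theorem W_congr {x y : ℕ → Bool} (h : ∀ c ∈ S.Z, x c = y c) : S.Wd x = S.Wd y := by
  funext j
  unfold Wd
  by_cases a : j ∈ S.Z <;> by_cases b : j - 1 ∈ S.Z <;> by_cases c : j + 1 ∈ S.Z <;>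
    simp [a, b, c, h]

omit hS in
theorem geo {x y : ℕ → Bool} (hx : S.Valid x) (hy : S.Valid y) {n : ℕ} (h : S.ham x y = n + 1) :
    ∃ c ∈ S.Z, S.Valid (Function.update x c (!x c)) ∧
      S.ham (Function.update x c (!x c)) y = n := by
  classical
  let D := S.Z.filter fun c => x c ≠ y c
  let E := D.filter fun c => ¬ ∃ d ∈ S.Z, d + 2 = c ∧ x d = S.r d ∧ y c = S.l c
  have hD : D.Nonempty := Finset.card_pos.1 (by rw [show D.card = _ from h]; omega)
  have hE : E.Nonempty := by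
    refine ⟨D.min' hD, Finset.mem_filter.2 ⟨D.min'_mem hD, ?_⟩⟩
    rintro ⟨d, h1, h2, h3, h4⟩
    have : d ∉ D := fun k => by have := D.min'_le d k; omega
    have : x d = y d := by simpa [D, h1] using this
    exact hy d h1 (h2 ▸ (Finset.mem_filter.1 (D.min'_mem hD)).1) ⟨this ▸ h3, h2 ▸ h4⟩
  obtain ⟨hc, hc3⟩ := Finset.mem_filter.1 (E.max'_mem hE)
  obtain ⟨hc1, hc2⟩ := Finset.mem_filter.1 hc
  set c := E.max' hE
  have hn : (!x c) = y c := by revert hc2; cases x c <;> cases y c <;> simp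
  refine ⟨c, hc1, ?_, ?_⟩
  · rintro d h1 h2 ⟨h3, h4⟩
    by_cases a : d = c
    · subst a
      rw [Function.update_self, hn] at h3
      rw [Function.update_of_ne (by omega)] at h4
      have : c + 2 ∈ E := by
        refine Finset.mem_filter.2 ⟨Finset.mem_filter.2 ⟨h2, fun k => hy c h1 h2 ⟨h3, k ▸ h4⟩⟩, ?_⟩
        rintro ⟨e, -, k2, k3, -⟩
        rw [show e = c by omega] at k3
        exact hc2 (k3.trans h3.symm)
      have := E.le_max' _ this
      omega
    · rw [Function.update_of_ne a] at h3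
      by_cases b : d + 2 = c
      · rw [b, Function.update_self, hn] at h4
        exact hc3 ⟨d, h1, b, h3, h4⟩
      · rw [Function.update_of_ne b] at h4
        exact hx d h1 h2 ⟨h3, h4⟩
  · have : (S.Z.filter fun d => Function.update x c (!x c) d ≠ y d) = D.erase c := by
      ext d
      by_cases a : d = c
      · subst a
        simp [hn]
      · simp [D, a]
    rw [ham, this, Finset.card_erase_of_mem hc, show D.card = _ from h]
    rfl

theorem reach {y : ℕ → Bool} (hy : S.Valid y) (n : ℕ) : ∀ x, S.Valid x → S.ham x y = n →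
    Relation.ReflTransGen (Move M) (L m (S.Wd x)) (L m (S.Wd y)) := by
  induction n with
  | zero =>
    intro x _ h
    rw [W_congr (x := x) (y := y) fun c hc => by
      simpa using Finset.filter_eq_empty_iff.1 (Finset.card_eq_zero.1 h) hc]
  | succ n ih =>
    intro x hx h
    obtain ⟨c, hc, hv, hn⟩ := geo hx hy h
    obtain ⟨p, q, s, t, -, k⟩ := flip_move hS hc hx hv
    exact .head ⟨p, q, s, t, k⟩ (ih _ hv hn)

end St

end Pool.Agent.H13.Braid
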