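import Mathlib
import Pool.Agent.H13.Braid

set_option autoImplicit false

namespace Pool.Agent.H13.Braid

variable {B : Type} {M : CoxeterMatrix B}

namespace St
variable {S : St B} {m : ℕ}

theorem W_loc {x y : ℕ → Bool} {j : ℕ} (h1 : x (j - 1) = y (j - 1)) (h2 : x j = y j)
    (h3 : x (j + 1) = y (j + 1)) : S.Wd x j = S.Wd y j := by
  unfold Wd
  rw [h1, h2, h3]

theorem fillR {x : ℕ → Bool} (hx : S.Valid x) (c : ℕ) :
    S.Valid fun j => if j ≤ c then x j else !S.l j := by
  rintro d h1 h2 ⟨h3, h4⟩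
  by_cases a : d + 2 ≤ c
  · simp only [if_pos a, if_pos (show d ≤ c by omega)] at h3 h4
    exact hx d h1 h2 ⟨h3, h4⟩
  · simp [a] at h4

theorem fillL {x : ℕ → Bool} (hx : S.Valid x) (c : ℕ) :
    S.Valid fun j => if j < c then !S.r j else x j := by
  rintro d h1 h2 ⟨h3, h4⟩
  by_cases a : d < c
  · simp [a] at h3
  · simp only [if_neg a, if_neg (show ¬ d + 2 < c by omega)] at h3 h4
    exact hx d h1 h2 ⟨h3, h4⟩

theorem closed (hT : TriangleFree M) (hS : S.Ok M m) {x : ℕ → Bool} (hx : S.Valid x) {i : ℕ}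
    (hc : i + 1 ∈ S.Z) (h3 : M (S.Wd x i) (S.Wd x (i + 1)) = 3) (h2 : S.Wd x (i + 2) = S.Wd x i) :
    S.Valid (Function.update x (i + 1) (!x (i + 1))) := by
  rw [W0 x hc] at h3
  rintro d h1 h4 ⟨a, b⟩
  by_cases e : d = i + 1
  · subst e
    rw [Function.update_self] at a
    rw [Function.update_of_ne (by omega)] at b
    rw [← h2, WR hS hx hc, if_pos ⟨h4, b⟩] at h3
    have k1 := m3 hS hc (x (i + 1))
    have k2 := m3 hS h4 (S.l (i + 1 + 2))
    rw [a, (hS.2 _ hc h4).1] at k1
    exact hT _ _ _ ⟨k1, k2, sym3 h3⟩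
  · rw [Function.update_of_ne e] at a
    by_cases e2 : d + 2 = i + 1
    · have k2 := m3 hS h1 (S.r d)
      rw [(hS.2 _ h1 h4).1] at k2
      rw [e2, Function.update_self] at b
      have e3 : i - 1 = d := by omega
      rw [WL hS x hc, e3, if_pos ⟨h1, a⟩] at h3
      have k1 := m3 hS hc (x (i + 1))
      rw [e2] at k2
      rw [b] at k1
      exact hT _ _ _ ⟨k1, k2, sym3 h3⟩
    · rw [Function.update_of_ne e2] at b
      exact hx d h1 h4 ⟨a, b⟩

variable {W : Type} [Group W] (cs : CoxeterSystem M W)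

theorem nonadj (hS : S.Ok M m) (hR : ∀ y, S.Valid y → cs.IsReduced (L m (S.Wd y)))
    {x : ℕ → Bool} (hx : S.Valid x) {i : ℕ} (hi : i + 2 < m)
    (h3 : M (S.Wd x i) (S.Wd x (i + 1)) = 3) (h2 : S.Wd x (i + 2) = S.Wd x i) :
    i ∉ S.Z ∧ i + 2 ∉ S.Z := by
  have both : ¬ (i ∈ S.Z ∧ i + 2 ∈ S.Z) := by
    rintro ⟨a, b⟩
    rw [W0 x a, W0 x b] at h2
    obtain ⟨k1, k2⟩ := hS.2 i a b
    have k3 := ne3 (m3 hS a (S.r i))
    have k4 := ne3 (m3 hS b (S.l (i + 2)))
    have v := hx i a b
    revert k1 k2 k3 k4 v h2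
    cases x i <;> cases x (i + 2) <;> cases S.r i <;> cases S.l (i + 2) <;> simp <;> grind
  constructor
  · intro a
    have b : i + 2 ∉ S.Z := fun b => both ⟨a, b⟩
    obtain ⟨j, rfl⟩ : ∃ j, i = j + 1 := ⟨i - 1, by have := (hS.1 i a).1; omega⟩
    have hy := fillL hx (j + 1)
    set y := fun n => if n < j + 1 then !S.r n else x n with hy'
    have e1 : S.Wd y (j + 1) = S.Wd x (j + 1) := by rw [W0 _ a, W0 _ a]; simp [y]
    have e2 : S.Wd y (j + 2) = S.Wd x (j + 2) := W_loc (by simp [y]) (by simp [y]) (by simp [y])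
    have e3 : S.Wd y (j + 3) = S.Wd x (j + 3) := W_loc (by simp [y]) (by simp [y]) (by simp [y])
    have e0 : S.Wd y j = S.Wd x (j + 2) := by
      rw [WL hS y a, WR hS hx a, if_neg (by simp [y]), if_neg (fun k => b k.1)]
      simp [y]
    exact not_red cs (i := j) (by omega) (by rw [e0, e1]; exact sym3 h3) (e2.trans e0.symm)
      (by rw [e3, e1]; exact h2) (hR y hy)
  · intro b
    have a : i ∉ S.Z := fun a => both ⟨a, b⟩
    have hy := fillR hx (i + 2)
    set y := fun n => if n ≤ i + 2 then x n else !S.l n with hy'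
    have e0 : S.Wd y i = S.Wd x i :=
      W_loc (by simp only [y]; rw [if_pos (by omega)]) (by simp [y]) (by simp [y])
    have e1 : S.Wd y (i + 1) = S.Wd x (i + 1) := W_loc (by simp [y]) (by simp [y]) (by simp [y])
    have e2 : S.Wd y (i + 2) = S.Wd x (i + 2) := by rw [W0 _ b, W0 _ b]; simp [y]
    have e3 : S.Wd y (i + 3) = S.Wd x (i + 1) := by
      rw [WR hS hy b, WL hS x b, if_neg (by simp [y]), if_neg (fun k => a k.1)]
      simp [y]
    exact not_red cs (i := i) (hS.1 _ b).2.1 (by rw [e0, e1]; exact h3) (by rw [e2, e0]; exact h2)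
      (e3.trans e1.symm) (hR y hy)

theorem extend (hS : S.Ok M m) (hR : ∀ y, S.Valid y → cs.IsReduced (L m (S.Wd y)))
    {x : ℕ → Bool} (hx : S.Valid x) {i : ℕ} (hi : i + 2 < m) (hc : i + 1 ∉ S.Z)
    (h3 : M (S.Wd x i) (S.Wd x (i + 1)) = 3) (h2 : S.Wd x (i + 2) = S.Wd x i) :
    ∃ T : St B, T.Ok M m ∧ T.Z = insert (i + 1) S.Z ∧
      ∀ y, S.Valid y → ∃ z, T.Valid z ∧ T.Wd z = S.Wd y := by
  obtain ⟨n0, n2⟩ := nonadj cs hS hR hx hi h3 h2
  have z0 : 0 ∉ S.Z := fun h => by have := (hS.1 0 h).1; omega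
  have wl : ∀ y, S.Wd y i = if i - 1 ∈ S.Z then S.f (i - 1) (!y (i - 1)) else S.base i := by
    intro y; unfold Wd; simp [n0, hc]
  have wc : ∀ y, S.Wd y (i + 1) = S.base (i + 1) := by
    intro y; unfold Wd; simp [n0, hc, n2]
  have wr : ∀ y, S.Wd y (i + 2) =
      if i + 3 ∈ S.Z then S.f (i + 3) (!y (i + 3)) else S.base (i + 2) := by
    intro y; unfold Wd; simp [hc, n2]
  let T : St B := ⟨insert (i + 1) S.Z,
    fun j => if j = i + 1 then fun b => if b then S.Wd x (i + 1) else S.Wd x i else S.f j,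
    fun j => if j = i + 1 then false else if j = i + 3 then !x j else S.l j,
    fun j => if j = i + 1 then false else if j + 1 = i then !x j else S.r j, S.base⟩
  have ne : ∀ d ∈ S.Z, d ≠ i + 1 := fun d h e => hc (e ▸ h)
  refine ⟨T, ⟨?_, ?_⟩, rfl, fun y hy => ⟨Function.update y (i + 1) true, ?_, ?_⟩⟩
  · intro c h
    rcases Finset.mem_insert.1 h with rfl | h
    · exact ⟨by omega, hi, by simpa [T] using n2, by simpa [T] using sym3 h3⟩
    · obtain ⟨k1, k2, k3, k4⟩ := hS.1 c h
      refine ⟨k1, k2, ?_, by simpa [T, ne c h] using k4⟩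
      simp only [T, Finset.mem_insert, not_or]
      exact ⟨fun e => n0 (by rwa [← Nat.add_right_cancel e]), k3⟩
  · intro c g g'
    rcases Finset.mem_insert.1 g with rfl | h
    · have h' : i + 3 ∈ S.Z := (Finset.mem_insert.1 g').resolve_left (by omega)
      simp only [T, if_true, show i + 1 + 2 = i + 3 from rfl, if_neg (ne _ h'), Bool.not_false,
        Bool.false_eq_true, if_false, Bool.not_not]
      refine ⟨by rw [← h2, wr, if_pos h'], fun e => ?_⟩
      exact not_red cs (i := i) (by have := (hS.1 _ h').2.1; omega) h3 h2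
        (by rw [W0 x h', e]) (hR x hx)
    · rcases Finset.mem_insert.1 g' with e | h'
      · obtain rfl : i = c + 1 := by omega
        simp only [T, if_true, show c + 1 + 1 = c + 2 from rfl, if_neg (show c ≠ c + 2 by omega),
          Bool.not_false, Bool.false_eq_true, if_false, Bool.not_not]
        refine ⟨by rw [wl, Nat.add_sub_cancel, if_pos h], fun e => ?_⟩
        exact not_red cs (i := c) (by omega) (by rw [W0 x h, e]; exact sym3 h3)
          (by rw [W0 x h, e]) h2 (hR x hx)
      · have a1 : c + 1 ≠ i := fun e => ne _ h' (by omega)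
        have a2 : c + 2 ≠ i + 3 := fun e => ne _ h (by omega)
        simpa only [T, if_neg (ne _ h), if_neg (ne _ h'), if_neg a1, if_neg a2] using hS.2 c h h'
  · rintro c h h' ⟨a, b⟩
    rcases Finset.mem_insert.1 h with rfl | h
    · simp [T] at a
    · rcases Finset.mem_insert.1 h' with e | h'
      · simp [T, e] at b
      · have a1 : c + 1 ≠ i := fun e => ne _ h' (by omega)
        have a2 : c + 2 ≠ i + 3 := fun e => ne _ h (by omega)
        simp only [T, if_neg (ne _ h), if_neg (ne _ h'), if_neg a1, if_neg a2,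
          Function.update_of_ne (ne _ h), Function.update_of_ne (ne _ h')] at a b
        exact hy c h h' ⟨a, b⟩
  · funext j
    by_cases e0 : j = i
    · subst e0
      rw [wl y]
      have := wl x
      by_cases k : j - 1 ∈ S.Z
      · have p1 := pred hS k
        have p2 : j - 1 ≠ j + 1 := by omega
        rw [if_pos k] at this
        unfold Wd
        simp only [T, Finset.mem_insert, n0, k, p1, p2, Function.update_of_ne p2,
          Function.update_self, this]
        cases x (j - 1) <;> cases y (j - 1) <;> simp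
      · have p2 : j - 1 ≠ j + 1 := by omega
        rw [if_neg k] at this
        unfold Wd
        simp [T, n0, k, p2, this]
    by_cases e1 : j = i + 1
    · subst e1
      rw [wc y, W0 _ (Finset.mem_insert_self _ _)]
      simp [T, wc]
    by_cases e2 : j = i + 2
    · subst e2
      rw [wr y]
      have := h2.symm.trans (wr x)
      by_cases k : i + 3 ∈ S.Z
      · unfold Wd
        simp [T, n2, k]
      · rw [if_neg k] at this
        unfold Wd
        simp [T, n2, k, this]
    · have p1 : j - 1 ≠ i + 1 := by omega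
      have p2 : j + 1 ≠ i + 1 := by omega
      unfold Wd
      by_cases k : j - 1 ∈ S.Z
      · have p3 : j - 1 + 1 ≠ i := by rw [pred hS k]; exact e0
        simp [T, e1, p1, p3, e0]
      · simp [T, e1, p1, k, e0]

end St

theorem structure_thm {W : Type} [Group W] (cs : CoxeterSystem M W) (hT : TriangleFree M)
    [Inhabited B] {α : List B} (hα : cs.IsReduced α) :
    ∃ (S : St B) (m : ℕ), S.Ok M m ∧ (∀ β, β ∈ Cls M α ↔ ∃ x, S.Valid x ∧ β = L m (S.Wd x)) ∧
      ∀ x, S.Valid x → ∀ p q s t, M s t = 3 → L m (S.Wd x) = p ++ [s, t, s] ++ q →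
        p.length + 1 ∈ S.Z ∧ S.Valid (Function.update x (p.length + 1) (!x (p.length + 1))) ∧
        p ++ [t, s, t] ++ q = L m (S.Wd (Function.update x (p.length + 1) (!x (p.length + 1)))) := by
  classical
  let P : ℕ → Prop := fun n => ∃ S : St B, S.Ok M α.length ∧
    (∃ x, S.Valid x ∧ α = L α.length (S.Wd x)) ∧ S.Z.card = n
  have P0 : P 0 := by
    refine ⟨⟨∅, default, default, default, fun j => α.getD j default⟩, ⟨by simp, by simp⟩,
      ⟨default, by simp [St.Valid], ?_⟩, rfl⟩
    apply List.ext_getElem (by simp [L])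
    intro i h1 h2
    simp [L, St.Wd, h1]
  obtain ⟨S, hS, ⟨x0, hx0, e0⟩, hn⟩ := Nat.findGreatest_spec (P := P) (Nat.zero_le α.length) P0
  have hC : ∀ y, S.Valid y → L α.length (S.Wd y) ∈ Cls M α := fun y hy => by
    have := St.reach hS hy _ x0 hx0 rfl
    rwa [← e0] at this
  have hR : ∀ y, S.Valid y → cs.IsReduced (L α.length (S.Wd y)) := fun y hy => by
    have := hC y hy
    generalize L α.length (S.Wd y) = β at this
    induction this with
    | refl => exact hα
    | tail _ h ih => exact red_move cs h ih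
  have key : ∀ x, S.Valid x → ∀ p q s t, M s t = 3 → L α.length (S.Wd x) = p ++ [s, t, s] ++ q →
      p.length + 1 ∈ S.Z ∧ S.Valid (Function.update x (p.length + 1) (!x (p.length + 1))) ∧
      p ++ [t, s, t] ++ q =
        L α.length (S.Wd (Function.update x (p.length + 1) (!x (p.length + 1)))) := by
    intro x hx p q s t h e
    obtain ⟨a1, a2, a3, a4, a5⟩ := decomp e
    have h3 : M (S.Wd x p.length) (S.Wd x (p.length + 1)) = 3 := by rw [a2, a3, h]
    have hc : p.length + 1 ∈ S.Z := by
      by_contra hc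
      obtain ⟨T, hT, hZ, hy⟩ := St.extend cs hS hR hx a1 hc h3 (a4.trans a2.symm)
      obtain ⟨z, hz, ez⟩ := hy x0 hx0
      have c1 : T.Z.card = S.Z.card + 1 := by rw [hZ, Finset.card_insert_of_notMem hc]
      have c2 : T.Z.card ≤ α.length := by
        rw [← Finset.card_range α.length]
        exact Finset.card_le_card fun c h => Finset.mem_range.2 (by have := (hT.1 c h).2.1; omega)
      have := Nat.le_findGreatest (P := P) c2 ⟨T, hT, ⟨z, hz, by rw [ez]; exact e0⟩, rfl⟩
      omega
    have hv := St.closed hT hS hx hc h3 (a4.trans a2.symm)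
    exact ⟨hc, hv, by rw [a5, (St.flip_eq hS hc hx hv).2.2]⟩
  refine ⟨S, α.length, hS, fun β => ⟨fun h => ?_, ?_⟩, key⟩
  · induction h with
    | refl => exact ⟨x0, hx0, e0⟩
    | tail _ h ih =>
      obtain ⟨x, hx, e⟩ := ih
      obtain ⟨p, q, s, t, h1, h2, h3⟩ := h
      obtain ⟨-, k1, k2⟩ := key x hx p q s t h1 (e.symm.trans h2)
      exact ⟨_, k1, h3.trans k2⟩
  · rintro ⟨x, hx, rfl⟩
    exact hC x hx

theorem both_dims {W : Type} [Group W] (cs : CoxeterSystem M W) (hT : TriangleFree M)
    {α : List B} (hα : cs.IsReduced α) :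
    ∃ D : ℕ, (Shadows M α).ncard = D ∧ (graph M α).ediam = D ∧
      ∃ f : Cls M α → Fin D → Bool, ∀ u v, (hammingDist (f u) (f v) : ℕ∞) = (graph M α).edist u v := by
  classical
  rcases isEmpty_or_nonempty B with hB | hB
  · have e : ∀ u v : Cls M α, u = v := fun u v => Subtype.ext (Subsingleton.elim _ _)
    refine ⟨0, ?_, le_antisymm (SimpleGraph.ediam_le_of_edist_le fun u v => by simp [e u v])
      (by simp), default, fun u v => by simp [e u v]⟩
    rw [show Shadows M α = ∅ from Set.eq_empty_of_forall_notMem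
      fun i ⟨_, _, _, _, s, _⟩ => hB.elim s, Set.ncard_empty]
  haveI : Inhabited B := ⟨Classical.choice hB⟩
  obtain ⟨S, m, hS, hC, key⟩ := structure_thm cs hT hα
  have up : ∀ y, S.Valid y → ∀ v : Cls M α, v.1 = L m (S.Wd y) → ∀ n : ℕ, ∀ x, S.Valid x →
      S.ham x y = n → ∀ u : Cls M α, u.1 = L m (S.Wd x) → (graph M α).edist u v ≤ n := by
    intro y hy v hv n
    induction n with
    | zero =>
      intro x _ h u hu
      rw [St.W_congr (x := x) (y := y) fun c hc => by
        simpa using Finset.filter_eq_empty_iff.1 (Finset.card_eq_zero.1 h) hc] at hu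
      simp [Subtype.ext (hu.trans hv.symm)]
    | succ n ih =>
      intro x hx h u hu
      obtain ⟨c, hc, hw, hn⟩ := St.geo hx hy h
      obtain ⟨p, q, s, t, -, k⟩ := St.flip_move hS hc hx hw
      let w : Cls M α := ⟨_, (hC _).2 ⟨_, hw, rfl⟩⟩
      have a : (graph M α).edist u w ≤ 1 := by
        by_cases e : u = w
        · simp [e]
        · have : (graph M α).Adj u w := ⟨e, Or.inl ⟨p, q, s, t, k.1, hu.trans k.2.1, k.2.2⟩⟩
          exact (SimpleGraph.edist_eq_one_iff_adj.2 this).le
      refine (SimpleGraph.edist_triangle (v := w)).trans ?_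
      rw [Nat.cast_succ, add_comm (n : ℕ∞)]
      exact add_le_add a (ih _ hw hn w rfl)
  have lo : ∀ y, ∀ u v : Cls M α, ∀ p : (graph M α).Walk u v, v.1 = L m (S.Wd y) →
      ∀ x, S.Valid x → u.1 = L m (S.Wd x) → S.ham x y ≤ p.length := by
    intro y u v p
    induction p with
    | nil =>
      intro hv x _ hu
      refine (Finset.card_eq_zero.2 (Finset.filter_eq_empty_iff.2 fun c hc k => k ?_)).le
      have := L_inj (hu.symm.trans hv) (j := c) (by have := (hS.1 c hc).2.1; omega)
      rw [St.W0 _ hc, St.W0 _ hc] at this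
      exact St.finj hS hc this
    | cons h p ih =>
      intro hv x hx hu
      obtain ⟨a, b, s, t, k1, k2, k3⟩ := h.2.elim id Move.symm
      obtain ⟨-, k4, k5⟩ := key x hx a b s t k1 (hu.symm.trans k2)
      have := ih hv _ k4 (k3.trans k5)
      rw [SimpleGraph.Walk.length_cons]
      refine le_trans ?_ ((Finset.card_insert_le (a.length + 1) _).trans
        (Nat.add_le_add_right this 1))
      refine Finset.card_le_card fun c hc => ?_
      by_cases e : c = a.length + 1
      · simp [e]
      · simpa [e] using hc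
  have dist : ∀ x y, S.Valid x → S.Valid y → ∀ u v : Cls M α, u.1 = L m (S.Wd x) →
      v.1 = L m (S.Wd y) → (graph M α).edist u v = S.ham x y := by
    intro x y hx hy u v hu hv
    refine le_antisymm (up y hy v hv _ x hx rfl u hu) ?_
    rw [SimpleGraph.edist_eq_sInf]
    refine le_sInf ?_
    rintro _ ⟨p, rfl⟩
    exact Nat.cast_le.2 (lo y u v p hv x hx hu)
  choose g hg1 hg2 using fun u : Cls M α => (hC u.1).1 u.2
  refine ⟨S.Z.card, ?_, le_antisymm (SimpleGraph.ediam_le_of_edist_le fun u v => ?_) ?_,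
    fun u k => g u (S.Z.equivFin.symm k), fun u v => ?_⟩
  · have : (fun i => i + 1) '' Shadows M α = S.Z := by
      ext c
      constructor
      · rintro ⟨_, ⟨β, h, p, q, s, t, k1, k2, rfl⟩, rfl⟩
        obtain ⟨x, hx, rfl⟩ := (hC β).1 h
        exact (key x hx p q s t k1 k2).1
      · intro hc
        have v : ∀ b, S.Valid (Function.update (fun j => if j < c then !S.r j else !S.l j) c b) := by
          rintro b d h1 h2 ⟨h3, h4⟩
          by_cases e : d < c
          · rw [Function.update_of_ne (by omega)] at h3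
            simp [e] at h3
          · rw [Function.update_of_ne (by omega), if_neg (by omega)] at h4
            simp at h4
        obtain ⟨p, q, s, t, k0, k1, k2, -⟩ := St.flip_move hS hc (v true) (by simpa using v false)
        exact ⟨p.length, ⟨_, (hC _).2 ⟨_, v true, rfl⟩, p, q, s, t, k1, k2, rfl⟩, k0⟩
    rw [← Set.ncard_coe_finset, ← this, Set.ncard_image_of_injective _ (add_left_injective 1)]
  · rw [dist _ _ (hg1 u) (hg1 v) u v (hg2 u) (hg2 v)]
    exact_mod_cast Finset.card_filter_le _ _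
  · let y : ℕ → Bool := Nat.twoStepInduction true true
      fun n a _ => if a = S.r n then !S.l (n + 2) else S.l (n + 2)
    have hy : ∀ n, y (n + 2) = if y n = S.r n then !S.l (n + 2) else S.l (n + 2) := fun _ => rfl
    have v1 : S.Valid y := by
      rintro d - - ⟨h3, h4⟩
      simp [hy, h3] at h4
    have v2 : S.Valid fun j => !y j := by
      rintro d - - ⟨h3, h4⟩
      simp [hy, ← h3] at h4
    refine le_trans ?_ (SimpleGraph.edist_le_ediam (u := ⟨_, (hC _).2 ⟨_, v1, rfl⟩⟩)
      (v := ⟨_, (hC _).2 ⟨_, v2, rfl⟩⟩))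
    rw [dist _ _ v1 v2 _ _ rfl rfl]
    simp [St.ham]
  · rw [dist _ _ (hg1 u) (hg1 v) u v (hg2 u) (hg2 v)]
    congr 1
    refine (Finset.card_bij (fun c hc => S.Z.equivFin ⟨c, (Finset.mem_filter.1 hc).1⟩) ?_ ?_ ?_).symm
    · intro c hc
      simpa using (Finset.mem_filter.1 hc).2
    · intro a _ b _ h
      simpa using h
    · intro k hk
      refine ⟨S.Z.equivFin.symm k, Finset.mem_filter.2 ⟨Subtype.property _, by simpa using hk⟩, ?_⟩
      simp

end Pool.Agent.H13.Braid
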