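import Mathlib

set_option autoImplicit false

namespace Pool.Agent.H13.Builder

def IsMatchingIn {V : Type} (G M : SimpleGraph V) : Prop :=
  M ≤ G ∧ ∀ a b c, M.Adj a b → M.Adj a c → b = c

def grow {V : Type} (G M : SimpleGraph V) : SimpleGraph (Option V) where
  Adj
    | some a, some b => G.Adj a b ∧ ¬ M.Adj a b
    | none, some a => a ∈ M.support
    | some a, none => a ∈ M.support
    | none, none => False
  symm := ⟨by
    rintro (_ | a) (_ | b) h
    · exact h
    · exact h
    · exact h
    · exact ⟨h.1.symm, fun g => h.2 g.symm⟩⟩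
  loopless := ⟨by
    rintro (_ | a) h
    · exact h
    · exact h.1.ne rfl⟩

def Force (k : ℕ) : ℕ → (V : Type) → SimpleGraph V → Prop
  | 0, _, G => ¬ G.CliqueFree k
  | t + 1, V, G => ∃ M : SimpleGraph V, IsMatchingIn G M ∧ ∃ H0 H1 : SimpleGraph (Option V),
      Disjoint H0 H1 ∧ H0 ⊔ H1 = grow G M ∧ Force k t (Option V) H0 ∧ Force k t (Option V) H1

end Pool.Agent.H13.Builder
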