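import Mathlib
import Pool.Agent.H13.BuilderDefs

set_option autoImplicit false

namespace Pool.Agent.H13.Builder

open SimpleGraph

theorem split {k t : ℕ} {V : Type} {G M : SimpleGraph V} (hM : IsMatchingIn G M)
    (H : SimpleGraph (Option V)) (h1 : H ≤ grow G M) (h2 : Force k t _ (grow G M \ H))
    (h3 : Force k t _ H) : Force k (t + 1) V G :=
  ⟨M, hM, grow G M \ H, H, disjoint_sdiff_self_left, sdiff_sup_cancel h1, h2, h3⟩

theorem mono (k : ℕ) : ∀ (t : ℕ) (V W : Type) (G : SimpleGraph V) (G' : SimpleGraph W) (f : V ↪ W),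
    (∀ a b, G.Adj a b → G'.Adj (f a) (f b)) → Force k t V G → Force k t W G'
  | 0, V, W, G, G', f, hf, h => by
    intro g
    refine h (fun s hs => g (s.map f) (hs.map.mono ?_))
    exact (map_le_iff_le_comap f G G').2 (fun a b => hf a b)
  | t + 1, V, W, G, G', f, hf, ⟨M, hM, H0, H1, a1, a2, a3, a4⟩ => by
    have key : ∀ x y, (grow G M).Adj x y →
        (grow G' (M.map f)).Adj (f.optionMap x) (f.optionMap y) := by
      have s : ∀ a, a ∈ M.support → f a ∈ (M.map f).support := fun a ⟨b, hb⟩ =>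
        ⟨f b, map_adj_apply.2 hb⟩
      rintro (_ | a) (_ | b) h
      · exact h
      · exact s b h
      · exact s a h
      · exact ⟨hf a b h.1, fun g => h.2 (map_adj_apply.1 g)⟩
    refine split (M := M.map f) ⟨?_, ?_⟩ (H1.map f.optionMap) ?_ ?_ ?_
    · exact (map_le_iff_le_comap f M G').2 (fun a b h => hf a b (hM.1 h))
    · intro a b c h1 h2
      obtain ⟨x, y, c1, rfl, rfl⟩ := (map_adj f M a b).1 h1
      obtain ⟨x', z, c2, c3, rfl⟩ := (map_adj f M _ c).1 h2
      rw [f.injective c3] at c2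
      rw [hM.2 x y z c1 c2]
    · exact (map_le_iff_le_comap _ _ _).2 (fun x y h => key x y (a2 ▸ Or.inr h))
    · refine mono k t _ _ H0 _ f.optionMap (fun x y h => ⟨key x y (a2 ▸ Or.inl h), fun g => ?_⟩) a3
      exact a1.le_bot (show (H0 ⊓ H1).Adj x y from ⟨h, map_adj_apply.1 g⟩)
    · exact mono k t _ _ H1 _ f.optionMap (fun x y h => map_adj_apply.2 h) a4

def Lev {V : Type} (G : SimpleGraph V) (l : V → ℕ) : Prop :=
  ∀ a b, G.Adj a b → (l a = 0 ∧ ∀ c, G.Adj a c → c = b) ∨ (l b = 0 ∧ ∀ c, G.Adj b c → c = a) ∨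
    (0 < l a ∧ 0 < l b ∧ l a ≠ l b)

def emb {V : Type} (l : V → ℕ) (j : ℕ) (s : Bool) (a : V) : V × (Option Bool ⊕ Bool) :=
  (a, .inl (if l a = j then none else some s))

def mat {V : Type} (G : SimpleGraph V) (l : V → ℕ) (j : ℕ) (c : V) :
    SimpleGraph (V × (Option Bool ⊕ Bool)) :=
  fromRel fun x y => ∃ s a, G.Adj c a ∧ x = emb l j s a ∧ y = (a, .inr s)

def back {V : Type} (G : SimpleGraph V) (l : V → ℕ) (j : ℕ) (c : V) :
    SimpleGraph (V × (Option Bool ⊕ Bool)) :=
  mat G l j c ⊔ fromRel fun x y => ∃ s a b, G.Adj a b ∧ a ≠ c ∧ b ≠ c ∧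
    x = emb l j s a ∧ y = emb l j s b

theorem mat_adj {V : Type} {G : SimpleGraph V} {l : V → ℕ} {j : ℕ} {c : V}
    {x y : V × (Option Bool ⊕ Bool)} : (mat G l j c).Adj x y ↔ ∃ s a, G.Adj c a ∧
      ((x = emb l j s a ∧ y = (a, .inr s)) ∨ (y = emb l j s a ∧ x = (a, .inr s))) := by
  rw [mat, fromRel_adj]
  constructor
  · rintro ⟨-, ⟨s, a, h1, h2⟩ | ⟨s, a, h1, h2⟩⟩
    · exact ⟨s, a, h1, Or.inl h2⟩
    · exact ⟨s, a, h1, Or.inr h2⟩
  · rintro ⟨s, a, h1, h2 | h2⟩
    · exact ⟨by simp [h2.1, h2.2, emb], Or.inl ⟨s, a, h1, h2⟩⟩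
    · exact ⟨by simp [h2.1, h2.2, emb], Or.inr ⟨s, a, h1, h2⟩⟩

theorem back_adj {V : Type} {G : SimpleGraph V} {l : V → ℕ} {j : ℕ} {c : V}
    {x y : V × (Option Bool ⊕ Bool)} : (back G l j c).Adj x y ↔ (mat G l j c).Adj x y ∨
      ∃ s a b, G.Adj a b ∧ a ≠ c ∧ b ≠ c ∧ x = emb l j s a ∧ y = emb l j s b := by
  rw [back, sup_adj, fromRel_adj]
  refine or_congr_right ⟨?_, ?_⟩
  · rintro ⟨-, h | ⟨s, a, b, h1, h2, h3, h4, h5⟩⟩
    · exact h
    · exact ⟨s, b, a, h1.symm, h3, h2, h5, h4⟩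
  · rintro ⟨s, a, b, h1, h2, h3, h4, h5⟩
    exact ⟨by simp [h4, h5, emb, h1.ne], Or.inl ⟨s, a, b, h1, h2, h3, h4, h5⟩⟩

theorem indep {V : Type} {G : SimpleGraph V} {l : V → ℕ} (h : Lev G l) {j : ℕ} (hj : 0 < j)
    {a b : V} (g : G.Adj a b) (e : l a = j) : l b ≠ j := by
  rcases h a b g with c | c | c <;> omega

theorem back_force {k t : ℕ} {V : Type} {G : SimpleGraph V} {l : V → ℕ} (h : Lev G l) {j : ℕ}
    (hj : 0 < j) {c : V} (hc : l c = j) (hf : Force k t V G) : Force k (t + 1) _ (back G l j c) := by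
  classical
  let f : Bool → V ↪ Option (V × (Option Bool ⊕ Bool)) := fun s =>
    ⟨fun a => if a = c then none else some (emb l j s a), fun a b e => by
      dsimp only at e
      split_ifs at e with p q
      · rw [p, q]
      · exact congrArg Prod.fst (Option.some.inj e)⟩
  have f1 : ∀ s, f s c = none := fun s => if_pos rfl
  have f2 : ∀ s a, a ≠ c → f s a = some (emb l j s a) := fun s a g => if_neg g
  have key : ∀ s a b, G.Adj a b → (grow (back G l j c) (mat G l j c)).Adj (f s a) (f s b) := by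
    intro s a b g
    by_cases p : a = c
    · subst p
      rw [f1, f2 s b g.ne']
      exact ⟨_, mat_adj.2 ⟨s, b, g, Or.inl ⟨rfl, rfl⟩⟩⟩
    by_cases q : b = c
    · subst q
      rw [f1, f2 s a p]
      exact ⟨_, mat_adj.2 ⟨s, a, g.symm, Or.inl ⟨rfl, rfl⟩⟩⟩
    · rw [f2 s a p, f2 s b q]
      refine ⟨back_adj.2 (Or.inr ⟨s, a, b, g, p, q, rfl, rfl⟩), fun r => ?_⟩
      obtain ⟨s', a', -, r | r⟩ := mat_adj.1 r
      · simpa [emb] using r.2
      · simpa [emb] using r.2
  refine split (M := mat G l j c) ⟨le_sup_left, ?_⟩ (G.map (f true)) ?_ ?_ ?_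
  · intro x y z h1 h2
    obtain ⟨s, a, p1, p2⟩ := mat_adj.1 h1
    obtain ⟨s', a', q1, q2⟩ := mat_adj.1 h2
    have r1 := indep h hj p1 hc
    have r2 := indep h hj q1 hc
    rcases p2 with ⟨rfl, rfl⟩ | ⟨rfl, rfl⟩ <;> rcases q2 with ⟨e, rfl⟩ | ⟨rfl, e⟩ <;>
      simp only [emb, if_neg r1, if_neg r2, Prod.mk.injEq, Sum.inl.injEq, Sum.inr.injEq,
        Option.some.injEq, reduceCtorEq, and_false] at e ⊢ <;> exact e
  · exact (map_le_iff_le_comap _ _ _).2 (fun x y g => key true x y g)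
  · refine mono k t _ _ G _ (f false) (fun a b g => ⟨key false a b g, fun r => ?_⟩) hf
    obtain ⟨x, y, -, r1, r2⟩ := (map_adj _ _ _ _).1 r
    have nr : ∀ x a, l a ≠ j → f true x ≠ f false a := by
      intro x a p e
      rw [f2 false a (fun q => p (q ▸ hc))] at e
      by_cases q : x = c
      · rw [q, f1] at e
        cases e
      · rw [f2 true x q] at e
        have e1 := Option.some.inj e
        obtain rfl : x = a := congrArg Prod.fst e1
        simp [emb, p] at e1
    by_cases p : l a = j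
    · exact nr y b (indep h hj g p) r2
    · exact nr x a p r1
  · exact mono k t _ _ G _ (f true) (fun a b g => map_adj_apply.2 g) hf

open Classical in
noncomputable def lev' {V : Type} (l : V → ℕ) (j : ℕ) (c : V) (x : V × (Option Bool ⊕ Bool)) : ℕ :=
  if x.1 ≠ c ∧ ∃ s, x = emb l j s x.1 then l x.1 else 0

theorem back_lev {V : Type} {G : SimpleGraph V} {l : V → ℕ} (h : Lev G l) {j : ℕ}
    (hj : 0 < j) {c : V} (hc : l c = j) : Lev (back G l j c) (lev' l j c) := by
  have k1 : ∀ s a, G.Adj c a → lev' l j c (a, .inr s) = 0 ∧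
      ∀ z, (back G l j c).Adj (a, .inr s) z → z = emb l j s a := by
    intro s a _
    refine ⟨if_neg (by simp [emb]), fun z g => ?_⟩
    rcases back_adj.1 g with g | ⟨s', a', b', -, -, -, g, -⟩
    · obtain ⟨s', a', -, g | g⟩ := mat_adj.1 g
      · simpa [emb] using g.1
      · obtain ⟨rfl, rfl⟩ : a = a' ∧ s = s' := by simpa using g.2
        exact g.1
    · simp [emb] at g
  have k2 : ∀ s a, a ≠ c → lev' l j c (emb l j s a) = l a := fun s a g => if_pos ⟨g, s, rfl⟩
  have k3 : ∀ s a b, b ≠ c → l a = 0 → (∀ z, G.Adj a z → z = b) →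
      ∀ z, (back G l j c).Adj (emb l j s a) z → z = emb l j s b := by
    intro s a b p1 p2 p3 z g
    have p4 : l a ≠ j := by omega
    rcases back_adj.1 g with g | ⟨s', a', b', g1, -, -, g2, rfl⟩
    · obtain ⟨s', a', g1, g | g⟩ := mat_adj.1 g
      · obtain rfl : a = a' := congrArg Prod.fst g.1
        exact absurd (p3 c g1.symm).symm p1
      · simpa [emb] using g.2
    · obtain rfl : a = a' := congrArg Prod.fst g2
      obtain rfl : s = s' := by simpa [emb, p4] using g2
      rw [p3 b' g1]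
  intro x y g
  rcases back_adj.1 g with g | ⟨s, a, b, g1, g2, g3, rfl, rfl⟩
  · obtain ⟨s, a, g1, ⟨rfl, rfl⟩ | ⟨rfl, rfl⟩⟩ := mat_adj.1 g
    · exact Or.inr (Or.inl (k1 s a g1))
    · exact Or.inl (k1 s a g1)
  · rw [k2 s a g2, k2 s b g3]
    rcases h a b g1 with p | p | p
    · exact Or.inl ⟨p.1, k3 s a b g3 p.1 p.2⟩
    · exact Or.inr (Or.inl ⟨p.1, k3 s b a g2 p.1 p.2⟩)
    · exact Or.inr (Or.inr p)

theorem acyc {V : Type} {G : SimpleGraph V} (h : Lev G (fun _ => 0)) : G.IsAcyclic := by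
  classical
  intro v p hp
  have k : ∀ (u : V) (q : G.Walk u u), q.IsCycle → ∀ b, ¬ ∀ c, G.Adj u c → c = b := by
    intro u q hq b g
    exact hq.snd_ne_penultimate ((g _ (q.adj_snd hq.not_nil)).trans
      (g _ (q.adj_penultimate hq.not_nil).symm).symm)
  rcases h v p.snd (p.adj_snd hp.not_nil) with g | g | g
  · exact k v p hp _ g.2
  · exact k _ (p.rotate _ (p.getVert_mem_support 1)) (hp.rotate _) _ g.2
  · exact absurd g.1 (lt_irrefl _)

theorem main (k : ℕ) : ∀ (j m : ℕ) (V : Type) [Finite V] (G : SimpleGraph V) (l : V → ℕ) (t : ℕ),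
    Lev G l → (∀ a, l a ≤ j) → {a | l a = j}.ncard ≤ m → Force k t V G →
      ∃ (W : Type) (_ : Finite W) (H : SimpleGraph W) (s : ℕ), H.IsAcyclic ∧ Force k s W H := by
  intro j
  induction j with
  | zero =>
    intro m V _ G l t h1 h2 _ h4
    obtain rfl : l = fun _ => 0 := funext (fun a => Nat.le_zero.1 (h2 a))
    exact ⟨V, inferInstance, G, t, acyc h1, h4⟩
  | succ j ih =>
    intro m
    induction m with
    | zero =>
      intro V _ G l t h1 h2 h3 h4
      rw [Nat.le_zero, Set.ncard_eq_zero] at h3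
      refine ih _ V G l t h1 (fun a => ?_) le_rfl h4
      have : a ∉ {a | l a = j + 1} := h3 ▸ Set.notMem_empty a
      have := h2 a
      simp only [Set.mem_ofPred_eq] at *
      omega
    | succ m ihm =>
      intro V _ G l t h1 h2 h3 h4
      by_cases e : ∃ c, l c = j + 1
      · obtain ⟨c, hc⟩ := e
        refine ihm _ (back G l (j + 1) c) (lev' l (j + 1) c) (t + 1) (back_lev h1 (by omega) hc)
          (fun x => ?_) ?_ (back_force h1 (by omega) hc h4)
        · unfold lev'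
          split_ifs
          · exact h2 _
          · omega
        · have p1 : {x | lev' l (j + 1) c x = j + 1} ⊆
              (fun a => (a, .inl none)) '' ({a | l a = j + 1} \ {c}) := by
            intro x hx
            simp only [Set.mem_ofPred_eq, lev'] at hx
            split_ifs at hx with p
            obtain ⟨p1, s, p2⟩ := p
            exact ⟨x.1, ⟨hx, p1⟩, by rw [p2]; simp [emb, hx]⟩
          have p2 := Set.ncard_le_ncard p1
          have p3 := Set.ncard_image_le (s := {a | l a = j + 1} \ {c})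
            (f := fun a => ((a, .inl none) : V × (Option Bool ⊕ Bool)))
          have p4 := Set.ncard_sdiff_singleton_lt_of_mem (s := {a | l a = j + 1}) hc
          omega
      · push Not at e
        exact ihm V G l t h1 h2 (by simp [e]) h4

theorem forest (k : ℕ) :
    ∃ (W : Type) (_ : Finite W) (H : SimpleGraph W) (s : ℕ), H.IsAcyclic ∧ Force k s W H := by
  refine main k k _ (Fin k) ⊤ (fun a => a.1 + 1) 0 (fun a b g => Or.inr (Or.inr ?_))
    (fun a => a.2) le_rfl (IsContained.not_cliqueFree IsContained.rfl)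
  exact ⟨Nat.succ_pos _, Nat.succ_pos _, fun e => g.ne (Fin.ext (Nat.succ_injective e))⟩

end Pool.Agent.H13.Builder
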