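import Pool.Agent.H13.CairnsD

namespace Pool.Agent.H13.Cairns
open Finset Polynomial

def pos (i : Fin 10) : ℤ := ([0, 1, 3, 4, 6, 2, 5, 7, 9, 8] : List ℤ).getD i.1 0

def maxL : List (List (Fin 10)) := [
  [0, 2, 3], [0, 3, 4], [0, 4, 2], [1, 2, 3], [1, 3, 5], [1, 5, 4], [1, 4, 2], [6, 3, 4], [6, 4, 5], [6, 5, 3],
  [6, 0, 2], [6, 0, 3], [6, 0, 4], [6, 1, 2], [6, 1, 3], [6, 1, 4], [6, 1, 5], [6, 2, 3], [6, 2, 4], [7, 8, 4],
  [8, 9, 2], [9, 7, 3], [2, 3, 9], [3, 4, 7], [4, 2, 8], [0, 1], [6, 7], [6, 8], [6, 9]]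

theorem maxF_eq : maxF = maxL.map List.toFinset := by decide +kernel

def tab : List (ℤ × ℤ × ℤ × ℤ) := [
  (1, 5, 11, -1), (3, 5, 9, -1), (1, 5, 9, -1), (1, 7, 9, 11), (5, 7, 15, -1), (1, 5, 7, 11), (7, 11, 13, -1),
  (1, 9, -1, -1), (1, 5, 7, 9), (5, 11, 15, -1), (3, 5, 7, 11), (1, 7, 11, -1), (7, 9, 13, -1), (5, 9, 15, -1),
  (7, 9, 11, -1), (11, 15, 17, -1), (7, 11, 13, 17)]

def ev (σ : ℤ) (r : ℤ × ℤ × ℤ × ℤ) (x : ℤ) : ℤ :=
  σ * ((2 * x - r.1) * (2 * x - r.2.1) * (2 * x - r.2.2.1) * (2 * x - r.2.2.2))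

theorem chk0 : (maxL.all fun m => maxL.all fun n => m.length ≤ 3 && (m.any (fun i => n.contains i) ||
    m.length ≤ 2 || n.length ≤ 2 || tab.any fun r => [(1 : ℤ), -1].any fun σ =>
      m.all (fun i => 0 < ev σ r (pos i)) && n.all fun i => ev σ r (pos i) < 0)) = true := by
  decide +kernel

theorem chk : ∀ m ∈ maxF, ∀ n ∈ maxF, #(m ∪ n) ≤ 5 ∨
    ∃ r σ, (∀ i ∈ m, 0 < ev σ r (pos i)) ∧ ∀ i ∈ n, ev σ r (pos i) < 0 := by
  rw [maxF_eq]
  intro m' hm' n' hn'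
  obtain ⟨m, hm, rfl⟩ := List.mem_map.1 hm'
  obtain ⟨n, hn, rfl⟩ := List.mem_map.1 hn'
  have h := chk0
  simp only [List.all_eq_true, Bool.and_eq_true, Bool.or_eq_true, List.any_eq_true, decide_eq_true_eq,
    List.contains_iff_mem] at h
  have a := (List.toFinset_card_le m)
  have b := (List.toFinset_card_le n)
  have c := (h m hm n hn).1
  have d := (h n hn m hm).1
  have e := card_union_add_card_inter m.toFinset n.toFinset
  rcases (h m hm n hn).2 with ((⟨i, h1, h2⟩ | h1) | h1) | ⟨r, -, σ, -, h1, h2⟩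
  · have : 0 < #(m.toFinset ∩ n.toFinset) := card_pos.2 ⟨i, by simp [h1, h2]⟩
    left; omega
  · left; omega
  · left; omega
  · exact Or.inr ⟨r, σ, by simpa using h1, by simpa using h2⟩

theorem pos_inj : Function.Injective pos := by decide

def mc (x : ℝ) : Fin 4 → ℝ := ![x, x ^ 2, x ^ 3, x ^ 4]

def pt (i : Fin 10) : Fin 4 → ℝ := mc (pos i)

theorem pt_inj : Function.Injective pt := fun i j h => by
  have := congrFun h 0
  simp only [pt, mc, Matrix.cons_val_zero, Int.cast_inj] at this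
  exact pos_inj this

theorem indep (S : Finset (Fin 4 → ℝ)) (h5 : #S ≤ 5) (hS : ∀ y ∈ S, y = mc (y 0)) :
    AffineIndependent ℝ ((↑) : S → Fin 4 → ℝ) := by
  classical
  rw [affineIndependent_iff]
  intro s w h0 h1 v hv
  have hc : #s ≤ 5 := (card_le_univ s).trans (by simpa using h5)
  have mom : ∀ j < 5, ∑ e ∈ s, w e * (e.1 0) ^ j = 0 := by
    intro j hj
    have k : ∀ i : Fin 4, ∑ e ∈ s, w e * (e.1 0) ^ ((i : ℕ) + 1) = 0 := by
      intro i
      have := congrFun h1 i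
      rw [Finset.sum_apply] at this
      refine Eq.trans (sum_congr rfl fun e _ => ?_) this
      have he := congrFun (hS e.1 e.2) i
      rw [Pi.smul_apply, smul_eq_mul, he]
      fin_cases i <;> simp [mc]
    rcases j with _ | j
    · simpa using h0
    · exact k ⟨j, by omega⟩
  set q : ℝ[X] := ∏ u ∈ s.erase v, (X - C (u.1 0)) with hq
  have dq : q.natDegree < 5 := by
    rw [hq, natDegree_prod_of_monic _ _ fun u _ => monic_X_sub_C _]
    simp only [natDegree_X_sub_C, sum_const, smul_eq_mul, mul_one, card_erase_of_mem hv]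
    have := card_pos.2 ⟨v, hv⟩
    omega
  have z : ∑ e ∈ s, w e * q.eval (e.1 0) = 0 := by
    simp only [eval_eq_sum_range' dq, mul_sum]
    rw [sum_comm]
    refine sum_eq_zero fun j hj => ?_
    have := mom j (mem_range.1 hj)
    rw [← mul_zero (q.coeff j), ← this, mul_sum]
    exact sum_congr rfl fun e _ => by ring
  rw [sum_eq_single v] at z
  · refine (mul_eq_zero.1 z).resolve_right ?_
    rw [hq, eval_prod]
    refine prod_ne_zero_iff.2 fun u hu => ?_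
    simp only [eval_sub, eval_X, eval_C, sub_ne_zero]
    intro e
    exact (mem_erase.1 hu).1 (Subtype.ext (by rw [hS u.1 u.2, hS v.1 v.2, e]))
  · intro b hb hbv
    rw [hq, eval_prod, prod_eq_zero (mem_erase.2 ⟨hbv, hb⟩) (by simp), mul_zero]
  · exact fun h => absurd hv h

theorem indep' (s : Finset (Fin 10)) (h : #s ≤ 5) :
    AffineIndependent ℝ ((↑) : ↥(s.map ⟨pt, pt_inj⟩) → Fin 4 → ℝ) := by
  refine indep _ (by simpa using h) fun y hy => ?_
  obtain ⟨i, -, rfl⟩ := mem_map.1 hy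
  rfl

theorem sep (m n : Finset (Fin 10)) (σ : ℤ) (r : ℤ × ℤ × ℤ × ℤ) (h1 : ∀ i ∈ m, 0 < ev σ r (pos i))
    (h2 : ∀ i ∈ n, ev σ r (pos i) < 0) :
    convexHull ℝ (m.map ⟨pt, pt_inj⟩ : Set (Fin 4 → ℝ)) ∩ convexHull ℝ (n.map ⟨pt, pt_inj⟩ : Set (Fin 4 → ℝ)) = ∅ := by
  obtain ⟨a, b, c, d⟩ := r
  let L : (Fin 4 → ℝ) → ℝ := fun y => σ * (16 * y 3 - 8 * (a + b + c + d) * y 2 +
    4 * (a * b + a * c + a * d + b * c + b * d + c * d) * y 1 -
    2 * (a * b * c + a * b * d + a * c * d + b * c * d) * y 0)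
  have hL : IsLinearMap ℝ L := ⟨fun x y => by simp only [L, Pi.add_apply]; ring,
    fun t x => by simp only [L, Pi.smul_apply, smul_eq_mul]; ring⟩
  have e : ∀ i, L (pt i) = (ev σ (a, b, c, d) (pos i) : ℝ) - σ * (a * b * c * d) := by
    intro i
    have e0 : pt i 0 = pos i := rfl
    have e1 : pt i 1 = (pos i : ℝ) ^ 2 := rfl
    have e2 : pt i 2 = (pos i : ℝ) ^ 3 := rfl
    have e3 : pt i 3 = (pos i : ℝ) ^ 4 := rfl
    simp only [L, ev, e0, e1, e2, e3]; push_cast; ring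
  have A : convexHull ℝ (m.map ⟨pt, pt_inj⟩ : Set (Fin 4 → ℝ)) ⊆ {y | -(σ * (a * b * c * d) : ℝ) < L y} := by
    refine convexHull_min (fun y hy => ?_) (convex_halfSpace_gt hL _)
    obtain ⟨i, hi, rfl⟩ := mem_map.1 hy
    have : (0 : ℝ) < ev σ (a, b, c, d) (pos i) := by exact_mod_cast h1 i hi
    show _ < L (pt i)
    rw [e]; linarith
  have B : convexHull ℝ (n.map ⟨pt, pt_inj⟩ : Set (Fin 4 → ℝ)) ⊆ {y | L y < -(σ * (a * b * c * d) : ℝ)} := by
    refine convexHull_min (fun y hy => ?_) (convex_halfSpace_lt hL _)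
    obtain ⟨i, hi, rfl⟩ := mem_map.1 hy
    have : (ev σ (a, b, c, d) (pos i) : ℝ) < 0 := by exact_mod_cast h2 i hi
    show L (pt i) < _
    rw [e]; linarith
  refine Set.eq_empty_of_forall_notMem fun y hy => ?_
  have a1 : _ < L y := A hy.1
  have a2 : L y < _ := B hy.2
  exact lt_asymm a1 a2

end Pool.Agent.H13.Cairns
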