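import Mathlib

namespace Pool.Agent.H13.Cairns

/-- The 25 triangles and the 4 further edges of the complex, with the vertices
`A₀, A₁, B₁, B₂, B₃, B₄, C, D₁, D₂, D₃` numbered `0, ..., 9`. -/
def maxF : List (Finset (Fin 10)) := [
  {0, 2, 3}, {0, 3, 4}, {0, 4, 2}, {1, 2, 3}, {1, 3, 5}, {1, 5, 4}, {1, 4, 2}, {6, 3, 4}, {6, 4, 5}, {6, 5, 3},
  {6, 0, 2}, {6, 0, 3}, {6, 0, 4}, {6, 1, 2}, {6, 1, 3}, {6, 1, 4}, {6, 1, 5}, {6, 2, 3}, {6, 2, 4}, {7, 8, 4},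
  {8, 9, 2}, {9, 7, 3}, {2, 3, 9}, {3, 4, 7}, {4, 2, 8}, {0, 1}, {6, 7}, {6, 8}, {6, 9}]

/-- The members (nonempty faces) of the complex: nonempty subsets of a listed triangle or edge. -/
def Face (s : Finset (Fin 10)) : Prop := s.Nonempty ∧ ∃ m ∈ maxF, s ⊆ m

end Pool.Agent.H13.Cairns
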