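import Mathlib

namespace Pool.Agent.H13.Cat7

def cf (l : List ℕ) (i : Fin 7) : ℕ := l.getD i 0

abbrev D := List ℕ × List (List (Fin 7) × List (Fin 7))

def L : List D := [([0,0,0,0,0,0,0],[]),
  ([0,0,0,0,0,0,6],[]),
  ([0,0,0,0,0,5,0],[]),
  ([0,0,0,0,0,5,6],[]),
  ([0,0,0,0,4,0,0],[]),
  ([0,0,0,0,4,0,6],[]),
  ([0,0,0,0,4,5,0],[]),
  ([0,0,0,0,4,5,6],[]),
  ([0,0,0,3,0,0,0],[]),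
  ([0,0,0,3,0,0,6],[]),
  ([0,0,0,3,0,5,0],[]),
  ([0,0,0,3,0,5,6],[]),
  ([0,0,0,3,4,0,0],[]),
  ([0,0,0,3,4,0,6],[]),
  ([0,0,0,3,4,5,0],[]),
  ([0,0,0,3,4,5,6],[]),
  ([0,0,2,0,0,0,0],[]),
  ([0,0,2,0,0,0,6],[]),
  ([0,0,2,0,0,5,0],[]),
  ([0,0,2,0,0,5,6],[]),
  ([0,0,2,0,4,0,0],[]),
  ([0,0,2,0,4,0,6],[]),
  ([0,0,2,0,4,5,0],[]),
  ([0,0,2,0,4,5,6],[]),
  ([0,0,2,3,0,0,0],[]),
  ([0,0,2,3,0,0,6],[]),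
  ([0,0,2,3,0,5,0],[]),
  ([0,0,2,3,0,5,6],[]),
  ([0,0,2,3,4,0,0],[]),
  ([0,0,2,3,4,0,6],[]),
  ([0,0,2,3,4,5,0],[]),
  ([0,0,2,3,4,5,6],[]),
  ([0,1,0,0,0,0,0],[]),
  ([0,1,0,0,0,0,6],[]),
  ([0,1,0,0,0,5,0],[]),
  ([0,1,0,0,0,5,6],[]),
  ([0,1,0,0,4,0,0],[]),
  ([0,1,0,0,4,0,6],[]),
  ([0,1,0,0,4,5,0],[]),
  ([0,1,0,0,4,5,6],[]),
  ([0,1,0,3,0,0,0],[]),
  ([0,1,0,3,0,0,6],[]),
  ([0,1,0,3,0,5,0],[]),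
  ([0,1,0,3,0,5,6],[]),
  ([0,1,0,3,4,0,0],[]),
  ([0,1,0,3,4,0,6],[]),
  ([0,1,0,3,4,5,0],[]),
  ([0,1,0,3,4,5,6],[]),
  ([0,1,1,1,1,1,1],[]),
  ([0,1,1,1,1,1,6],[]),
  ([0,1,1,1,1,5,1],[]),
  ([0,1,1,1,1,5,6],[]),
  ([0,1,1,1,4,1,1],[]),
  ([0,1,1,1,4,1,6],[]),
  ([0,1,1,1,4,5,1],[]),
  ([0,1,1,1,4,5,6],[]),
  ([0,1,1,3,1,1,1],[]),
  ([0,1,1,3,1,1,6],[]),
  ([0,1,1,3,1,5,1],[]),
  ([0,1,1,3,1,5,6],[]),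
  ([0,1,1,3,4,1,1],[]),
  ([0,1,1,3,4,1,6],[]),
  ([0,1,1,3,4,5,1],[]),
  ([0,1,1,3,4,5,6],[]),
  ([0,1,2,0,0,0,0],[]),
  ([0,1,2,0,0,0,6],[]),
  ([0,1,2,0,0,5,0],[]),
  ([0,1,2,0,0,5,6],[]),
  ([0,1,2,0,4,0,0],[]),
  ([0,1,2,0,4,0,6],[]),
  ([0,1,2,0,4,5,0],[]),
  ([0,1,2,0,4,5,6],[]),
  ([0,1,2,1,1,1,1],[]),
  ([0,1,2,1,1,1,6],[]),
  ([0,1,2,1,1,5,1],[]),
  ([0,1,2,1,1,5,6],[]),
  ([0,1,2,1,4,1,1],[]),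
  ([0,1,2,1,4,1,6],[]),
  ([0,1,2,1,4,5,1],[]),
  ([0,1,2,1,4,5,6],[]),
  ([0,1,2,2,2,2,2],[]),
  ([0,1,2,2,2,2,6],[]),
  ([0,1,2,2,2,5,2],[]),
  ([0,1,2,2,2,5,6],[]),
  ([0,1,2,2,4,2,2],[]),
  ([0,1,2,2,4,2,6],[]),
  ([0,1,2,2,4,5,2],[]),
  ([0,1,2,2,4,5,6],[]),
  ([0,1,2,3,0,0,0],[]),
  ([0,1,2,3,0,0,6],[]),
  ([0,1,2,3,0,5,0],[]),
  ([0,1,2,3,0,5,6],[]),
  ([0,1,2,3,1,1,1],[]),
  ([0,1,2,3,1,1,6],[]),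
  ([0,1,2,3,1,5,1],[]),
  ([0,1,2,3,1,5,6],[]),
  ([0,1,2,3,2,2,2],[]),
  ([0,1,2,3,2,2,6],[]),
  ([0,1,2,3,2,5,2],[]),
  ([0,1,2,3,2,5,6],[]),
  ([0,1,2,3,3,3,3],[]),
  ([0,1,2,3,3,3,6],[]),
  ([0,1,2,3,3,5,3],[]),
  ([0,1,2,3,3,5,6],[]),
  ([0,1,2,3,4,0,0],[]),
  ([0,1,2,3,4,0,6],[]),
  ([0,1,2,3,4,1,1],[]),
  ([0,1,2,3,4,1,6],[]),
  ([0,1,2,3,4,2,2],[]),
  ([0,1,2,3,4,2,6],[]),
  ([0,1,2,3,4,3,3],[]),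
  ([0,1,2,3,4,3,6],[]),
  ([0,1,2,3,4,4,4],[]),
  ([0,1,2,3,4,4,6],[]),
  ([0,1,2,3,4,5,0],[]),
  ([0,1,2,3,4,5,1],[]),
  ([0,1,2,3,4,5,2],[]),
  ([0,1,2,3,4,5,3],[]),
  ([0,1,2,3,4,5,4],[]),
  ([0,1,2,3,4,5,5],[]),
  ([0,1,2,3,4,5,6],[]),
  ([0,0,2,2,4,5,6],[([0,1],[2,3])]),
  ([0,0,2,3,2,5,6],[([0,1],[2,4])]),
  ([0,0,2,3,3,5,6],[([0,1],[3,4])]),
  ([0,0,2,3,4,2,6],[([0,1],[2,5])]),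
  ([0,0,2,3,4,3,6],[([0,1],[3,5])]),
  ([0,0,2,3,4,4,6],[([0,1],[4,5])]),
  ([0,0,2,3,4,5,2],[([0,1],[2,6])]),
  ([0,0,2,3,4,5,3],[([0,1],[3,6])]),
  ([0,0,2,3,4,5,4],[([0,1],[4,6])]),
  ([0,0,2,3,4,5,5],[([0,1],[5,6])]),
  ([0,1,0,3,3,5,6],[([0,2],[3,4])]),
  ([0,1,0,3,4,3,6],[([0,2],[3,5])]),
  ([0,1,0,3,4,4,6],[([0,2],[4,5])]),
  ([0,1,0,3,4,5,3],[([0,2],[3,6])]),
  ([0,1,0,3,4,5,4],[([0,2],[4,6])]),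
  ([0,1,0,3,4,5,5],[([0,2],[5,6])]),
  ([0,1,1,3,3,5,6],[([1,2],[3,4])]),
  ([0,1,1,3,4,3,6],[([1,2],[3,5])]),
  ([0,1,1,3,4,4,6],[([1,2],[4,5])]),
  ([0,1,1,3,4,5,3],[([1,2],[3,6])]),
  ([0,1,1,3,4,5,4],[([1,2],[4,6])]),
  ([0,1,1,3,4,5,5],[([1,2],[5,6])]),
  ([0,1,2,0,4,4,6],[([0,3],[4,5])]),
  ([0,1,2,0,4,5,4],[([0,3],[4,6])]),
  ([0,1,2,0,4,5,5],[([0,3],[5,6])]),
  ([0,1,2,1,4,4,6],[([1,3],[4,5])]),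
  ([0,1,2,1,4,5,4],[([1,3],[4,6])]),
  ([0,1,2,1,4,5,5],[([1,3],[5,6])]),
  ([0,1,2,2,4,4,6],[([2,3],[4,5])]),
  ([0,1,2,2,4,5,4],[([2,3],[4,6])]),
  ([0,1,2,2,4,5,5],[([2,3],[5,6])]),
  ([0,1,2,3,0,5,5],[([0,4],[5,6])]),
  ([0,1,2,3,1,5,5],[([1,4],[5,6])]),
  ([0,1,2,3,2,5,5],[([2,4],[5,6])]),
  ([0,1,2,3,3,5,5],[([3,4],[5,6])]),
  ([0,0,0,3,3,5,6],[([0,1,2],[3,4])]),
  ([0,0,0,3,4,3,6],[([0,1,2],[3,5])]),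
  ([0,0,0,3,4,4,6],[([0,1,2],[4,5])]),
  ([0,0,0,3,4,5,3],[([0,1,2],[3,6])]),
  ([0,0,0,3,4,5,4],[([0,1,2],[4,6])]),
  ([0,0,0,3,4,5,5],[([0,1,2],[5,6])]),
  ([0,0,2,0,4,4,6],[([0,1,3],[4,5])]),
  ([0,0,2,0,4,5,4],[([0,1,3],[4,6])]),
  ([0,0,2,0,4,5,5],[([0,1,3],[5,6])]),
  ([0,0,2,2,2,5,6],[([0,1],[2,3,4])]),
  ([0,0,2,2,4,2,6],[([0,1],[2,3,5])]),
  ([0,0,2,2,4,5,2],[([0,1],[2,3,6])]),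
  ([0,0,2,3,0,5,5],[([0,1,4],[5,6])]),
  ([0,0,2,3,2,2,6],[([0,1],[2,4,5])]),
  ([0,0,2,3,2,5,2],[([0,1],[2,4,6])]),
  ([0,0,2,3,3,3,6],[([0,1],[3,4,5])]),
  ([0,0,2,3,3,5,3],[([0,1],[3,4,6])]),
  ([0,0,2,3,4,2,2],[([0,1],[2,5,6])]),
  ([0,0,2,3,4,3,3],[([0,1],[3,5,6])]),
  ([0,0,2,3,4,4,4],[([0,1],[4,5,6])]),
  ([0,1,0,0,4,4,6],[([0,2,3],[4,5])]),
  ([0,1,0,0,4,5,4],[([0,2,3],[4,6])]),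
  ([0,1,0,0,4,5,5],[([0,2,3],[5,6])]),
  ([0,1,0,3,0,5,5],[([0,2,4],[5,6])]),
  ([0,1,0,3,3,3,6],[([0,2],[3,4,5])]),
  ([0,1,0,3,3,5,3],[([0,2],[3,4,6])]),
  ([0,1,0,3,4,3,3],[([0,2],[3,5,6])]),
  ([0,1,0,3,4,4,4],[([0,2],[4,5,6])]),
  ([0,1,1,1,4,4,6],[([1,2,3],[4,5])]),
  ([0,1,1,1,4,5,4],[([1,2,3],[4,6])]),
  ([0,1,1,1,4,5,5],[([1,2,3],[5,6])]),
  ([0,1,1,3,1,5,5],[([1,2,4],[5,6])]),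
  ([0,1,1,3,3,3,6],[([1,2],[3,4,5])]),
  ([0,1,1,3,3,5,3],[([1,2],[3,4,6])]),
  ([0,1,1,3,4,3,3],[([1,2],[3,5,6])]),
  ([0,1,1,3,4,4,4],[([1,2],[4,5,6])]),
  ([0,1,2,0,0,5,5],[([0,3,4],[5,6])]),
  ([0,1,2,0,4,4,4],[([0,3],[4,5,6])]),
  ([0,1,2,1,1,5,5],[([1,3,4],[5,6])]),
  ([0,1,2,1,4,4,4],[([1,3],[4,5,6])]),
  ([0,1,2,2,2,5,5],[([2,3,4],[5,6])]),
  ([0,1,2,2,4,4,4],[([2,3],[4,5,6])]),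
  ([0,0,0,0,4,4,6],[([0,1,2,3],[4,5])]),
  ([0,0,0,0,4,5,4],[([0,1,2,3],[4,6])]),
  ([0,0,0,0,4,5,5],[([0,1,2,3],[5,6])]),
  ([0,0,0,3,0,5,5],[([0,1,2,4],[5,6])]),
  ([0,0,0,3,3,3,6],[([0,1,2],[3,4,5])]),
  ([0,0,0,3,3,5,3],[([0,1,2],[3,4,6])]),
  ([0,0,0,3,4,3,3],[([0,1,2],[3,5,6])]),
  ([0,0,0,3,4,4,4],[([0,1,2],[4,5,6])]),
  ([0,0,2,0,0,5,5],[([0,1,3,4],[5,6])]),
  ([0,0,2,0,4,4,4],[([0,1,3],[4,5,6])]),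
  ([0,0,2,2,2,2,6],[([0,1],[2,3,4,5])]),
  ([0,0,2,2,2,5,2],[([0,1],[2,3,4,6])]),
  ([0,0,2,2,4,2,2],[([0,1],[2,3,5,6])]),
  ([0,0,2,3,2,2,2],[([0,1],[2,4,5,6])]),
  ([0,0,2,3,3,3,3],[([0,1],[3,4,5,6])]),
  ([0,1,0,0,0,5,5],[([0,2,3,4],[5,6])]),
  ([0,1,0,0,4,4,4],[([0,2,3],[4,5,6])]),
  ([0,1,0,3,3,3,3],[([0,2],[3,4,5,6])]),
  ([0,1,1,1,1,5,5],[([1,2,3,4],[5,6])]),
  ([0,1,1,1,4,4,4],[([1,2,3],[4,5,6])]),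
  ([0,1,1,3,3,3,3],[([1,2],[3,4,5,6])]),
  ([0,0,0,0,0,5,5],[([0,1,2,3,4],[5,6])]),
  ([0,0,0,0,4,4,4],[([0,1,2,3],[4,5,6])]),
  ([0,0,0,3,3,3,3],[([0,1,2],[3,4,5,6])]),
  ([0,0,2,2,2,2,2],[([0,1],[2,3,4,5,6])]),
  ([0,0,2,2,4,4,6],[([0,1],[2,3]),([0,1],[4,5]),([2,3],[4,5])]),
  ([0,0,2,2,4,5,4],[([0,1],[2,3]),([0,1],[4,6]),([2,3],[4,6])]),
  ([0,0,2,2,4,5,5],[([0,1],[2,3]),([0,1],[5,6]),([2,3],[5,6])]),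
  ([0,0,2,3,2,5,5],[([0,1],[2,4]),([0,1],[5,6]),([2,4],[5,6])]),
  ([0,0,2,3,3,5,5],[([0,1],[3,4]),([0,1],[5,6]),([3,4],[5,6])]),
  ([0,1,0,3,3,5,5],[([0,2],[3,4]),([0,2],[5,6]),([3,4],[5,6])]),
  ([0,1,1,3,3,5,5],[([1,2],[3,4]),([1,2],[5,6]),([3,4],[5,6])]),
  ([0,0,0,3,3,5,5],[([0,1,2],[3,4]),([0,1,2],[5,6]),([3,4],[5,6])]),
  ([0,0,2,2,2,5,5],[([0,1],[2,3,4]),([0,1],[5,6]),([2,3,4],[5,6])]),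
  ([0,0,2,2,4,4,4],[([0,1],[2,3]),([0,1],[4,5,6]),([2,3],[4,5,6])])]

def sep (r : List ℕ) (A B : List (Fin 7)) : Bool :=
  A.all fun a => B.all fun b => Nat.blt (cf r a) (cf r b)

def q (r : List ℕ) (x : D) : Bool := x.2.all fun y => sep r y.1 y.2 || sep r y.2 y.1

def r0 : List ℕ := [1, 1, 2, 3, 4, 5, 5]

def g (r : List ℕ) : Bool := !((L.filter (q r)).drop 125).isEmpty

def W (k : ℕ) : List (List ℕ) := r0.permutations'.drop (630 * k)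

theorem st (k : ℕ) (h : ((W k).take 630).all g = true) (e : (W (k + 1)).all g = true) :
    (W k).all g = true := by
  rw [← List.take_append_drop 630 (W k), List.all_append, h, Bool.true_and, ← e, W, W,
    List.drop_drop, Nat.mul_succ]

theorem c0 : ((W 0).take 630).all g = true := by decide +kernel

theorem c1 : ((W 1).take 630).all g = true := by decide +kernel

theorem c2 : ((W 2).take 630).all g = true := by decide +kernel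

theorem c3 : ((W 3).take 630).all g = true := by decide +kernel

theorem c4 : ((W 4).take 630).all g = true := by decide +kernel

theorem c5 : ((W 5).take 630).all g = true := by decide +kernel

theorem c6 : ((W 6).take 630).all g = true := by decide +kernel

theorem c7 : (W 7).all g = true := by decide +kernel

theorem cnt : (r0.permutations'.all fun r => !((L.filter (q r)).drop 125).isEmpty) = true :=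
  st 0 c0 (st 1 c1 (st 2 c2 (st 3 c3 (st 4 c4 (st 5 c5 (st 6 c6 c7))))))

theorem base : L.all (q r0) = true := by decide +kernel

def U : List (Fin 7) := List.finRange 7

theorem cov : (L.all fun x => U.all fun a => U.all fun a' => cf x.1 a != cf x.1 a' || a == a' ||
    U.all fun b => cf x.1 a == cf x.1 b || U.all fun b' => cf x.1 b != cf x.1 b' || b == b' ||
      x.2.any fun y => (y.1.contains a && y.1.contains a' && y.2.contains b) ||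
        (y.2.contains a && y.2.contains a' && y.1.contains b)) = true := by
  decide +kernel

theorem dif : L.Pairwise fun x y => (U.any fun a => U.any fun b =>
    (cf x.1 a == cf x.1 b) != (cf y.1 a == cf y.1 b)) = true := by
  decide +kernel

def sp (l : List ℕ) (X Y : List (Fin 7)) : Bool :=
  X.all fun a => X.all fun b => cf l a == cf l b ||
    !((Y.any fun d => cf l a == cf l d) && Y.any fun d => cf l b == cf l d)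

def ok (l : List ℕ) : Bool :=
  (U.all fun i => l.getD (cf l i) 0 == cf l i) &&
  sp l [3, 4] [0, 1, 2, 5, 6] && sp l [0, 3, 4] [1, 2, 5, 6] && sp l [5, 6] [0, 1, 2, 3, 4] &&
  sp l [1, 2] [0, 3, 4, 5, 6] && sp l [2, 4] [0, 1, 3, 5, 6] && sp l [2, 4, 6] [0, 1, 3, 5] &&
  sp l [1, 3, 5] [0, 2, 4, 6] && sp l [1, 3] [0, 2, 4, 5, 6]

def E : List (List ℕ) := (List.sections ((List.range 7).map fun i => List.range (i + 1))).filter ok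

theorem lenE : E.length = 125 := by decide +kernel

end Pool.Agent.H13.Cat7
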