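import Mathlib

set_option autoImplicit false
open MeasureTheory
open scoped ENNReal

namespace Pool.Agent.H13.Circ

abbrev E := EuclideanSpace ℝ (Fin 2)

def PP : List (ℤ × ℤ) := 
  [(1000, 0), (841, 541), (415, 910), (-142, 990), (-655, 756), (-959, 282), (-959, -282), (-655, -756), (-142, -990), (415, -910), (841, -541), (0, 0), (1, 0), (0, 1), (-1, 0), (0, -1)]
def QQ : List (ℤ × ℤ) := 
  [(368, 37), (234, 286), (-37, 368), (-286, 234), (-368, -37), (-234, -286), (37, -368), (286, -234)]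

def nn (p : ℤ × ℤ) : ℤ := p.1 * p.1 + p.2 * p.2

def lb (c lo hi : ℤ) : ℤ := if 0 ≤ c then c * lo else c * hi

def sep (a0 a1 b0 b1 c0 c1 : ℤ) (p q : ℤ × ℤ) : Bool :=
  decide (1 ≤ lb (nn p - nn q) a0 a1 + lb (p.1 - q.1) b0 b1 + lb (p.2 - q.2) c0 c1)

def good (a0 a1 b0 b1 c0 c1 : ℤ) : Bool :=
  Nat.ble 11 (PP.countP fun p => Nat.ble 3 (QQ.countP fun q => sep a0 a1 b0 b1 c0 c1 p q))

def chk : ℕ → ℤ → ℤ → ℤ → ℤ → ℤ → ℤ → Bool
  | 0, a0, a1, b0, b1, c0, c1 => good a0 a1 b0 b1 c0 c1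
  | n + 1, a0, a1, b0, b1, c0, c1 =>
    good a0 a1 b0 b1 c0 c1 ||
      (if b1 - b0 ≤ (a1 - a0) * 1000 ∧ c1 - c0 ≤ (a1 - a0) * 1000 then
        chk n a0 ((a0 + a1) / 2) b0 b1 c0 c1 && chk n ((a0 + a1) / 2) a1 b0 b1 c0 c1
      else if c1 - c0 ≤ b1 - b0 then
        chk n a0 a1 b0 ((b0 + b1) / 2) c0 c1 && chk n a0 a1 ((b0 + b1) / 2) b1 c0 c1
      else chk n a0 a1 b0 b1 c0 ((c0 + c1) / 2) && chk n a0 a1 b0 b1 ((c0 + c1) / 2) c1)

theorem c1 : chk 40 1024 1024 (-2097152) 2097152 (-2097152) 2097152 = true := by decide +kernel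
theorem c2 : chk 40 0 1024 2097152 2097152 (-2097152) 2097152 = true := by decide +kernel
theorem c3 : chk 40 0 1024 (-2097152) (-2097152) (-2097152) 2097152 = true := by decide +kernel
theorem c4 : chk 40 0 1024 (-2097152) 2097152 2097152 2097152 = true := by decide +kernel
theorem c5 : chk 40 0 1024 (-2097152) 2097152 (-2097152) (-2097152) = true := by decide +kernel

def G (a b c u v : ℝ) : ℝ := a * (u * u + v * v) + b * u + c * v

open Classical in
def Good (a b c : ℝ) : Prop :=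
  11 ≤ PP.countP fun p => decide (3 ≤ QQ.countP fun q =>
    decide (1 ≤ G a b c p.1 p.2 - G a b c q.1 q.2))

theorem lb_le (c lo hi : ℤ) (x : ℝ) (h1 : (lo : ℝ) ≤ x) (h2 : x ≤ hi) :
    (lb c lo hi : ℝ) ≤ c * x := by
  unfold lb
  split_ifs with h
  · have : (0 : ℝ) ≤ c := by exact_mod_cast h
    push_cast; gcongr
  · have : (c : ℝ) < 0 := by exact_mod_cast (not_le.mp h)
    push_cast; nlinarith

theorem good_sound (a0 a1 b0 b1 c0 c1 : ℤ) (h : good a0 a1 b0 b1 c0 c1 = true) (a b c : ℝ)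
    (ha : (a0 : ℝ) ≤ a ∧ a ≤ a1) (hb : (b0 : ℝ) ≤ b ∧ b ≤ b1) (hc : (c0 : ℝ) ≤ c ∧ c ≤ c1) :
    Good a b c := by
  unfold good at h
  rw [Nat.ble_eq] at h
  unfold Good
  refine h.trans (List.countP_mono_left fun p _ hp => ?_)
  rw [Nat.ble_eq] at hp
  rw [decide_eq_true_eq]
  refine hp.trans (List.countP_mono_left fun q _ hq => ?_)
  rw [decide_eq_true_eq]
  unfold sep at hq
  rw [decide_eq_true_eq] at hq
  have h0 : (1 : ℝ) ≤ (lb (nn p - nn q) a0 a1 : ℝ) + lb (p.1 - q.1) b0 b1 + lb (p.2 - q.2) c0 c1 := by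
    exact_mod_cast hq
  have h1 := lb_le (nn p - nn q) a0 a1 a ha.1 ha.2
  have h2 := lb_le (p.1 - q.1) b0 b1 b hb.1 hb.2
  have h3 := lb_le (p.2 - q.2) c0 c1 c hc.1 hc.2
  unfold nn at h1 h0
  unfold G
  push_cast at h1 h2 h3
  linarith

theorem chk_sound : ∀ (n : ℕ) (a0 a1 b0 b1 c0 c1 : ℤ), chk n a0 a1 b0 b1 c0 c1 = true →
    ∀ a b c : ℝ, ((a0 : ℝ) ≤ a ∧ a ≤ a1) → ((b0 : ℝ) ≤ b ∧ b ≤ b1) → ((c0 : ℝ) ≤ c ∧ c ≤ c1) →
    Good a b c := by
  intro n
  induction n with
  | zero => intro a0 a1 b0 b1 c0 c1 h a b c ha hb hc; exact good_sound _ _ _ _ _ _ h a b c ha hb hc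
  | succ n ih =>
    intro a0 a1 b0 b1 c0 c1 h a b c ha hb hc
    rw [chk, Bool.or_eq_true] at h
    rcases h with h | h
    · exact good_sound _ _ _ _ _ _ h a b c ha hb hc
    · split_ifs at h
      · rw [Bool.and_eq_true] at h
        rcases le_total a (((a0 + a1) / 2 : ℤ) : ℝ) with h' | h'
        · exact ih _ _ _ _ _ _ h.1 a b c ⟨ha.1, h'⟩ hb hc
        · exact ih _ _ _ _ _ _ h.2 a b c ⟨h', ha.2⟩ hb hc
      · rw [Bool.and_eq_true] at h
        rcases le_total b (((b0 + b1) / 2 : ℤ) : ℝ) with h' | h'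
        · exact ih _ _ _ _ _ _ h.1 a b c ha ⟨hb.1, h'⟩ hc
        · exact ih _ _ _ _ _ _ h.2 a b c ha ⟨h', hb.2⟩ hc
      · rw [Bool.and_eq_true] at h
        rcases le_total c (((c0 + c1) / 2 : ℤ) : ℝ) with h' | h'
        · exact ih _ _ _ _ _ _ h.1 a b c ha hb ⟨hc.1, h'⟩
        · exact ih _ _ _ _ _ _ h.2 a b c ha hb ⟨h', hc.2⟩

theorem norm_ex (α β γ : ℝ) (h0 : 0 ≤ α) (hne : α ≠ 0 ∨ β ≠ 0 ∨ γ ≠ 0) :
    ∃ t : ℝ, 0 < t ∧ t * α ≤ 1024 ∧ |t * β| ≤ 2097152 ∧ |t * γ| ≤ 2097152 ∧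
      Good (t * α) (t * β) (t * γ) := by
  set M : ℝ := max (2048 * α) (max |β| |γ|) with hM
  have m1 : 2048 * α ≤ M := le_max_left _ _
  have m2 : |β| ≤ M := (le_max_left _ _).trans (le_max_right _ _)
  have m3 : |γ| ≤ M := (le_max_right _ _).trans (le_max_right _ _)
  have hpos : 0 < M := by
    rcases hne with h | h | h
    · have : 0 < α := lt_of_le_of_ne h0 (Ne.symm h)
      linarith
    · exact (abs_pos.mpr h).trans_le m2
    · exact (abs_pos.mpr h).trans_le m3
  set t : ℝ := 2097152 / M with ht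
  have tpos : 0 < t := by positivity
  have tM : t * M = 2097152 := by rw [ht]; field_simp
  have k0 : 0 ≤ t * α := by positivity
  have k1 : t * α ≤ 1024 := by nlinarith
  have k2 : |t * β| ≤ 2097152 := by rw [abs_mul, abs_of_pos tpos, ← tM]; gcongr
  have k3 : |t * γ| ≤ 2097152 := by rw [abs_mul, abs_of_pos tpos, ← tM]; gcongr
  refine ⟨t, tpos, k1, k2, k3, ?_⟩
  have k2' := abs_le.mp k2
  have k3' := abs_le.mp k3
  have cases : M = 2048 * α ∨ M = β ∨ M = -β ∨ M = γ ∨ M = -γ := by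
    rcases max_choice (2048 * α) (max |β| |γ|) with h | h
    · exact Or.inl (hM.trans h)
    · rcases max_choice |β| |γ| with h' | h'
      · rcases abs_choice β with h'' | h''
        · exact Or.inr (Or.inl (hM.trans (h.trans (h'.trans h''))))
        · exact Or.inr (Or.inr (Or.inl (hM.trans (h.trans (h'.trans h'')))))
      · rcases abs_choice γ with h'' | h''
        · exact Or.inr (Or.inr (Or.inr (Or.inl (hM.trans (h.trans (h'.trans h''))))))
        · exact Or.inr (Or.inr (Or.inr (Or.inr (hM.trans (h.trans (h'.trans h''))))))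
  rcases cases with h | h | h | h | h <;> rw [h] at tM
  · exact chk_sound _ _ _ _ _ _ _ c1 _ _ _ (by push_cast; constructor <;> linarith)
      (by push_cast; exact k2') (by push_cast; exact k3')
  · exact chk_sound _ _ _ _ _ _ _ c2 _ _ _ (by push_cast; exact ⟨k0, k1⟩)
      (by push_cast; constructor <;> linarith) (by push_cast; exact k3')
  · exact chk_sound _ _ _ _ _ _ _ c3 _ _ _ (by push_cast; exact ⟨k0, k1⟩)
      (by push_cast; constructor <;> linarith) (by push_cast; exact k3')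
  · exact chk_sound _ _ _ _ _ _ _ c4 _ _ _ (by push_cast; exact ⟨k0, k1⟩)
      (by push_cast; exact k2') (by push_cast; constructor <;> linarith)
  · exact chk_sound _ _ _ _ _ _ _ c5 _ _ _ (by push_cast; exact ⟨k0, k1⟩)
      (by push_cast; exact k2') (by push_cast; constructor <;> linarith)

noncomputable def rho : ℝ := 1 / 100000000

theorem lip (a b c u v x y : ℝ) (h0 : 0 ≤ a) (ha : a ≤ 1024) (hb : |b| ≤ 2097152)
    (hc : |c| ≤ 2097152) (hu : |u| ≤ 1000) (hv : |v| ≤ 1000) (hx : |x - u| ≤ rho)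
    (hy : |y - v| ≤ rho) : |G a b c x y - G a b c u v| ≤ 1 / 4 := by
  have e : G a b c x y - G a b c u v =
      (a * (2 * u + (x - u)) + b) * (x - u) + (a * (2 * v + (y - v)) + c) * (y - v) := by
    unfold G; ring
  have r1 : rho ≤ 1 := by unfold rho; norm_num
  have key : ∀ w d k : ℝ, |w| ≤ 1000 → |d| ≤ rho → |k| ≤ 2097152 →
      |(a * (2 * w + d) + k) * d| ≤ 1 / 8 := by
    intro w d k hw hd hk
    have h1 : |2 * w + d| ≤ 2001 := by
      have := abs_add_le (2 * w) d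
      rw [abs_mul, abs_two] at this
      linarith
    have h2 : |a * (2 * w + d)| ≤ 1024 * 2001 := by
      rw [abs_mul, abs_of_nonneg h0]; gcongr
    have h3 : |a * (2 * w + d) + k| ≤ 1024 * 2001 + 2097152 := (abs_add_le _ _).trans (by linarith)
    rw [abs_mul]
    calc _ ≤ (1024 * 2001 + 2097152) * rho := by gcongr
      _ ≤ 1 / 8 := by unfold rho; norm_num
  rw [e]
  have := key u (x - u) b hu hx hb
  have := key v (y - v) c hv hy hc
  exact (abs_add_le _ _).trans (by linarith)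

noncomputable def ctr (q : ℤ × ℤ) : E := !₂[(q.1 : ℝ), (q.2 : ℝ)]

def bl (q : ℤ × ℤ) : Set E := Metric.ball (ctr q) rho

theorem bl_coord (q : ℤ × ℤ) (x : E) (hx : x ∈ bl q) :
    |x 0 - q.1| < rho ∧ |x 1 - q.2| < rho := by
  have h1 : ‖x - ctr q‖ < rho := by simpa [bl, dist_eq_norm] using hx
  have h2 := PiLp.norm_apply_le (x - ctr q) 0
  have h3 := PiLp.norm_apply_le (x - ctr q) 1
  simp only [ctr, PiLp.sub_apply, Real.norm_eq_abs] at h2 h3
  simp only [ctr] at h1
  exact ⟨lt_of_le_of_lt (by simpa using h2) h1, lt_of_le_of_lt (by simpa using h3) h1⟩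

def U : List (ℤ × ℤ) → Set E
  | [] => ∅
  | q :: l => bl q ∪ U l

theorem mem_U (x : E) : ∀ l : List (ℤ × ℤ), x ∈ U l ↔ ∃ q ∈ l, x ∈ bl q := by
  intro l
  induction l with
  | nil => simp [U]
  | cons q l ih => simp [U, ih]

theorem U_meas : ∀ l : List (ℤ × ℤ), MeasurableSet (U l) := by
  intro l
  induction l with
  | nil => exact MeasurableSet.empty
  | cons q l ih => exact measurableSet_ball.union ih

noncomputable def beta : ℝ≥0∞ := volume (Metric.ball (0 : E) rho)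

theorem vol_bl (q : ℤ × ℤ) : volume (bl q) = beta := Measure.addHaar_ball_center _ _ _

theorem beta_pos : beta ≠ 0 :=
  (Metric.measure_ball_pos _ _ (by unfold rho; norm_num)).ne'

theorem beta_fin : beta ≠ ⊤ := measure_ball_lt_top.ne

theorem vol_U : ∀ l : List (ℤ × ℤ), l.Nodup → volume (U l) = l.length * beta := by
  intro l
  induction l with
  | nil => simp [U]
  | cons q l ih =>
    intro h
    rw [List.nodup_cons] at h
    have hd : Disjoint (bl q) (U l) := by
      rw [Set.disjoint_left]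
      intro x hx hy
      obtain ⟨r, hr, hxr⟩ := (mem_U x l).mp hy
      have k1 := bl_coord q x hx
      have k2 := bl_coord r x hxr
      have r1 : rho < 1 / 2 := by unfold rho; norm_num
      have e1 : q.1 = r.1 := by
        have : |(q.1 : ℝ) - r.1| < 1 := by
          rw [abs_lt]
          constructor <;> linarith [(abs_lt.mp k1.1).1, (abs_lt.mp k1.1).2, (abs_lt.mp k2.1).1, (abs_lt.mp k2.1).2]
        have : |q.1 - r.1| < 1 := by exact_mod_cast this
        have := abs_lt.mp this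
        omega
      have e2 : q.2 = r.2 := by
        have : |(q.2 : ℝ) - r.2| < 1 := by
          rw [abs_lt]
          constructor <;> linarith [(abs_lt.mp k1.2).1, (abs_lt.mp k1.2).2, (abs_lt.mp k2.2).1, (abs_lt.mp k2.2).2]
        have : |q.2 - r.2| < 1 := by exact_mod_cast this
        have := abs_lt.mp this
        omega
      exact h.1 (by rw [Prod.ext e1 e2]; exact hr)
    rw [U, measure_union hd (U_meas l), vol_bl, ih h.2, List.length_cons]
    push_cast; ring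

theorem ndP : PP.Nodup := by decide +kernel
theorem ndQ : QQ.Nodup := by decide +kernel
theorem lenP : PP.length = 16 := by decide +kernel
theorem lenQ : QQ.length = 8 := by decide +kernel
theorem bdP : ∀ p ∈ PP, |p.1| ≤ 1000 ∧ |p.2| ≤ 1000 := by decide +kernel
theorem bdQ : ∀ p ∈ QQ, |p.1| ≤ 1000 ∧ |p.2| ≤ 1000 := by decide +kernel

theorem pigeon {T : Type} (f g : T → Bool) : ∀ l : List T, (∀ x ∈ l, f x = true → g x = true → False) →
    l.countP f + l.countP g ≤ l.length := by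
  intro l
  induction l with
  | nil => simp
  | cons x l ih =>
    intro h
    have := ih fun y hy => h y (List.mem_cons_of_mem _ hy)
    have h2 := h x List.mem_cons_self
    rw [List.countP_cons, List.countP_cons, List.length_cons]
    cases hf : f x <;> cases hg : g x <;> simp_all <;> omega

theorem third (m n : ℕ) (h : (m : ℝ≥0∞) * beta ≤ (n : ℝ≥0∞) * beta / 3) : 3 * m ≤ n := by
  rw [ENNReal.le_div_iff_mul_le (Or.inl (by norm_num)) (Or.inl (by norm_num))] at h
  have h2 : ((3 * m : ℕ) : ℝ≥0∞) * beta ≤ (n : ℝ≥0∞) * beta := by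
    push_cast
    calc _ = (m : ℝ≥0∞) * beta * 3 := by ring
      _ ≤ _ := h
  rw [ENNReal.mul_le_mul_iff_left beta_pos beta_fin, Nat.cast_le] at h2
  exact h2

theorem third' (m n : ℕ) (h : (n : ℝ≥0∞) * beta / 3 ≤ (m : ℝ≥0∞) * beta) : n ≤ 3 * m := by
  rw [ENNReal.div_le_iff (by norm_num) (by norm_num)] at h
  have h2 : (n : ℝ≥0∞) * beta ≤ ((3 * m : ℕ) : ℝ≥0∞) * beta := by
    push_cast
    calc _ ≤ _ := h
      _ = _ := by ring
  rw [ENNReal.mul_le_mul_iff_left beta_pos beta_fin, Nat.cast_le] at h2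
  exact h2

theorem main (α β γ δ : ℝ) (h0 : 0 ≤ α) (hne : α ≠ 0 ∨ β ≠ 0 ∨ γ ≠ 0) (S : Set E)
    (hS : ∀ x : E, x ∈ S ↔ G α β γ (x 0) (x 1) < δ)
    (h1 : volume (U PP ∩ S) = volume (U PP) / 3) (h2 : volume (U QQ ∩ S) = volume (U QQ) / 3) :
    False := by
  classical
  obtain ⟨t, tpos, k1, k2, k3, hg⟩ := norm_ex α β γ h0 hne
  have hS' : ∀ x : E, x ∈ S ↔ G (t * α) (t * β) (t * γ) (x 0) (x 1) < t * δ := by
    intro x
    rw [hS]
    have : G (t * α) (t * β) (t * γ) (x 0) (x 1) = t * G α β γ (x 0) (x 1) := by unfold G; ring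
    rw [this, mul_lt_mul_iff_right₀ tpos]
  set a := t * α
  set b := t * β
  set c := t * γ
  have a0 : 0 ≤ a := by positivity
  set mt : ℤ × ℤ → Bool := fun p => decide (∃ x ∈ bl p, x ∈ S) with hmt
  have hsub : U PP ∩ S ⊆ U (PP.filter mt) := by
    rintro x ⟨hx, hxs⟩
    obtain ⟨p, hp, hxp⟩ := (mem_U x _).mp hx
    refine (mem_U x _).mpr ⟨p, List.mem_filter.mpr ⟨hp, ?_⟩, hxp⟩
    simp only [hmt, decide_eq_true_eq]
    exact ⟨x, hxp, hxs⟩
  have hm := measure_mono (μ := volume) hsub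
  rw [h1, vol_U _ ndP, vol_U _ (ndP.filter _), lenP, ← List.countP_eq_length_filter] at hm
  have hm2 := third' _ _ hm
  unfold Good at hg
  have : ∃ p ∈ PP, (3 ≤ QQ.countP fun q => decide (1 ≤ G a b c p.1 p.2 - G a b c q.1 q.2)) ∧
      ∃ x ∈ bl p, x ∈ S := by
    by_contra hc
    have := pigeon (fun p : ℤ × ℤ => decide (3 ≤ QQ.countP fun q =>
      decide (1 ≤ G a b c p.1 p.2 - G a b c q.1 q.2))) mt PP (by
        intro p hp e1 e2
        rw [decide_eq_true_eq] at e1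
        simp only [hmt, decide_eq_true_eq] at e2
        exact hc ⟨p, hp, e1, e2⟩)
    rw [lenP] at this
    omega
  obtain ⟨p, hp, h3, x, hxp, hxs⟩ := this
  have hsub2 : U (QQ.filter fun q => decide (1 ≤ G a b c p.1 p.2 - G a b c q.1 q.2)) ⊆
      U QQ ∩ S := by
    intro y hy
    obtain ⟨q, hq, hyq⟩ := (mem_U y _).mp hy
    rw [List.mem_filter, decide_eq_true_eq] at hq
    refine ⟨(mem_U y _).mpr ⟨q, hq.1, hyq⟩, ?_⟩
    rw [hS'] at hxs ⊢
    have l1 := lip a b c p.1 p.2 (x 0) (x 1) a0 k1 k2 k3 (by exact_mod_cast (bdP p hp).1)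
      (by exact_mod_cast (bdP p hp).2) (bl_coord p x hxp).1.le (bl_coord p x hxp).2.le
    have l2 := lip a b c q.1 q.2 (y 0) (y 1) a0 k1 k2 k3 (by exact_mod_cast (bdQ q hq.1).1)
      (by exact_mod_cast (bdQ q hq.1).2) (bl_coord q y hyq).1.le (bl_coord q y hyq).2.le
    have := abs_le.mp l1
    have := abs_le.mp l2
    linarith [hq.2]
  have hn := measure_mono (μ := volume) hsub2
  rw [h2, vol_U _ ndQ, vol_U _ (ndQ.filter _), lenQ, ← List.countP_eq_length_filter] at hn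
  have := third _ _ hn
  omega

theorem fin (l : List (ℤ × ℤ)) (h : l.Nodup) : volume (U l) < ⊤ := by
  rw [vol_U l h]
  exact ENNReal.mul_lt_top (by simp) beta_fin.lt_top

theorem main_ball (p : E) (r : ℝ) (hr : 0 < r)
    (h1 : volume (U PP ∩ Metric.ball p r) = volume (U PP) / 3)
    (h2 : volume (U QQ ∩ Metric.ball p r) = volume (U QQ) / 3) : False := by
  refine main 1 (-2 * p 0) (-2 * p 1) (r ^ 2 - p 0 ^ 2 - p 1 ^ 2) zero_le_one
    (Or.inl one_ne_zero) _ (fun x => ?_) h1 h2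
  rw [Metric.mem_ball, EuclideanSpace.dist_eq, Fin.sum_univ_two, Real.sqrt_lt' hr, Real.dist_eq,
    Real.dist_eq, sq_abs, sq_abs]
  unfold G
  constructor <;> intro h <;> nlinarith

theorem main_half (v : E) (c : ℝ) (hv : v ≠ 0)
    (h1 : volume (U PP ∩ {x : E | inner ℝ v x < c}) = volume (U PP) / 3)
    (h2 : volume (U QQ ∩ {x : E | inner ℝ v x < c}) = volume (U QQ) / 3) : False := by
  refine main 0 (v 0) (v 1) c le_rfl ?_ _ (fun x => ?_) h1 h2
  · right
    by_contra hc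
    push Not at hc
    apply hv
    ext i
    fin_cases i
    · exact hc.1
    · exact hc.2
  · have : inner ℝ v x = G 0 (v 0) (v 1) (x 0) (x 1) := by
      simp [G, PiLp.inner_apply, Fin.sum_univ_two]
      ring
    rw [Set.mem_ofPred_eq, this]

end Pool.Agent.H13.Circ
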