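import Mathlib

set_option autoImplicit false

namespace Pool.Agent.H13.Dilworth

theorem dilworth {α : Type} [PartialOrder α] (S : Finset α) (w : ℕ)
    (h : ∀ A ⊆ S, IsAntichain (· ≤ ·) (A : Set α) → A.card ≤ w) :
    ∃ f : α → ℕ, (∀ x ∈ S, f x < w) ∧ ∀ x ∈ S, ∀ y ∈ S, f x = f y → x ≤ y ∨ y ≤ x := by
  classical
  induction hN : S.card using Nat.strong_induction_on generalizing S w with
  | _ N ih =>
  rcases S.eq_empty_or_nonempty with rfl | hne
  · exact ⟨fun _ => 0, by simp, by simp⟩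
  obtain ⟨a, ha⟩ := S.exists_maximal hne
  have haS : a ∈ S := ha.1
  have hw : 1 ≤ w := by simpa using h {a} (by simpa using haS) (by simp)
  have fin : ∀ K : Finset α, a ∈ K → (∀ x ∈ K, ∀ y ∈ K, x ≤ y ∨ y ≤ x) →
      (∀ A ⊆ S \ K, IsAntichain (· ≤ ·) (A : Set α) → A.card ≤ w - 1) →
      ∃ f : α → ℕ, (∀ x ∈ S, f x < w) ∧ ∀ x ∈ S, ∀ y ∈ S, f x = f y → x ≤ y ∨ y ≤ x := by
    intro K haK hK hA
    have hlt : (S \ K).card < N := hN ▸ Finset.card_lt_card
      ⟨Finset.sdiff_subset, fun hs => (Finset.mem_sdiff.1 (hs haS)).2 haK⟩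
    obtain ⟨g, g1, g2⟩ := ih _ hlt (S \ K) (w - 1) hA rfl
    refine ⟨fun x => if x ∈ K then w - 1 else g x, fun x hx => ?_, fun x hx y hy e => ?_⟩
    · simp only
      split_ifs with hxK
      · omega
      · have := g1 x (Finset.mem_sdiff.2 ⟨hx, hxK⟩); omega
    · simp only at e
      split_ifs at e with h1 h2 h2
      · exact hK x h1 y h2
      · have := g1 y (Finset.mem_sdiff.2 ⟨hy, h2⟩); omega
      · have := g1 x (Finset.mem_sdiff.2 ⟨hx, h1⟩); omega
      · exact g2 x (Finset.mem_sdiff.2 ⟨hx, h1⟩) y (Finset.mem_sdiff.2 ⟨hy, h2⟩) e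
  by_cases h1 : ∀ A ⊆ S \ {a}, IsAntichain (· ≤ ·) (A : Set α) → A.card ≤ w - 1
  · exact fin {a} (by simp) (by simp) h1
  push Not at h1
  obtain ⟨A0, A0s, A0a, A0c⟩ := h1
  have hlt : (S \ {a}).card < N := hN ▸ Finset.card_lt_card
    ⟨Finset.sdiff_subset, fun hs => (Finset.mem_sdiff.1 (hs haS)).2 (by simp)⟩
  obtain ⟨g, g1, g2⟩ := ih _ hlt (S \ {a}) w
    (fun A hA => h A (hA.trans Finset.sdiff_subset)) rfl
  have hit : ∀ A ⊆ S \ {a}, IsAntichain (· ≤ ·) (A : Set α) → w ≤ A.card →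
      ∀ i < w, ∃ z ∈ A, g z = i := by
    intro A hs hA hc i hi
    have inj : Set.InjOn g A := fun x hx y hy e => by
      by_contra hxy
      rcases g2 x (hs hx) y (hs hy) e with l | l
      · exact hA hx hy hxy l
      · exact hA hy hx (Ne.symm hxy) l
    have hsub : A.image g ⊆ Finset.range w := fun j hj => by
      obtain ⟨z, hz, rfl⟩ := Finset.mem_image.1 hj
      exact Finset.mem_range.2 (g1 z (hs hz))
    have heq := Finset.eq_of_subset_of_card_le hsub
      (by rw [Finset.card_range, Finset.card_image_of_injOn inj]; exact hc)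
    have : i ∈ A.image g := heq ▸ Finset.mem_range.2 hi
    exact Finset.mem_image.1 this
  let B : ℕ → Finset α := fun i => (S \ {a}).filter fun z => g z = i ∧
    ∃ A ⊆ S \ {a}, IsAntichain (· ≤ ·) (A : Set α) ∧ w ≤ A.card ∧ z ∈ A
  have top : ∀ i, ∃ x, i < w → x ∈ B i ∧ ∀ z ∈ B i, z ≤ x := by
    intro i
    by_cases hi : i < w
    · obtain ⟨z, hz, e⟩ := hit A0 A0s A0a (by omega) i hi
      obtain ⟨x, hx⟩ := (B i).exists_maximal
        ⟨z, Finset.mem_filter.2 ⟨A0s hz, e, A0, A0s, A0a, by omega, hz⟩⟩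
      refine ⟨x, fun _ => ⟨hx.1, fun y hy => ?_⟩⟩
      have a1 := Finset.mem_filter.1 hx.1
      have a2 := Finset.mem_filter.1 hy
      rcases g2 x a1.1 y a2.1 (a1.2.1.trans a2.2.1.symm) with l | l
      · exact hx.2 hy l
      · exact l
    · exact ⟨a, fun h => absurd h hi⟩
  choose x hx using top
  have xg : ∀ i < w, g (x i) = i := fun i hi => (Finset.mem_filter.1 (hx i hi).1).2.1
  have xs : ∀ i < w, x i ∈ S \ {a} := fun i hi => (Finset.mem_filter.1 (hx i hi).1).1
  have xa : ∀ i < w, ∀ j < w, x j ≤ x i → j = i := by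
    intro i hi j hj l
    obtain ⟨A, As, Aa, Ac, hxi⟩ := (Finset.mem_filter.1 (hx i hi).1).2.2
    obtain ⟨y, hy, e⟩ := hit A As Aa Ac j hj
    have : y ≤ x j := (hx j hj).2 y (Finset.mem_filter.2 ⟨As hy, e, A, As, Aa, Ac, hy⟩)
    by_contra hji
    refine Aa hy hxi (fun e' => hji ?_) (this.trans l)
    rw [← e, e', xg i hi]
  have : ∃ i < w, x i ≤ a := by
    by_contra hno
    push Not at hno
    have na : a ∉ (Finset.range w).image x := fun hm => by
      obtain ⟨i, hi, e⟩ := Finset.mem_image.1 hm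
      exact hno i (Finset.mem_range.1 hi) e.le
    have := h (insert a ((Finset.range w).image x)) (by
      intro z hz
      rcases Finset.mem_insert.1 hz with rfl | hz
      · exact haS
      · obtain ⟨i, hi, rfl⟩ := Finset.mem_image.1 hz
        exact (Finset.mem_sdiff.1 (xs i (Finset.mem_range.1 hi))).1) (by
      intro y hy z hz hyz l
      simp only [Finset.coe_insert, Set.mem_insert_iff, Finset.coe_image, Finset.coe_range,
        Set.mem_image, Set.mem_Iio] at hy hz
      rcases hy with rfl | ⟨i, hi, rfl⟩ <;> rcases hz with rfl | ⟨j, hj, rfl⟩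
      · exact hyz rfl
      · exact hno j hj (ha.2 (Finset.mem_sdiff.1 (xs j hj)).1 l)
      · exact hno i hi l
      · exact hyz (by rw [xa j hj i hi l]))
    rw [Finset.card_insert_of_notMem na, Finset.card_image_of_injOn (fun i hi j hj e => by
      rw [← xg i (by simpa using hi), e, xg j (by simpa using hj)]), Finset.card_range] at this
    omega
  obtain ⟨i, hi, hia⟩ := this
  refine fin (insert a ((S \ {a}).filter fun z => g z = i ∧ z ≤ x i)) (by simp) ?_ ?_
  · intro y hy z hz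
    rcases Finset.mem_insert.1 hy with rfl | hy <;> rcases Finset.mem_insert.1 hz with rfl | hz
    · exact Or.inl le_rfl
    · exact Or.inr ((Finset.mem_filter.1 hz).2.2.trans hia)
    · exact Or.inl ((Finset.mem_filter.1 hy).2.2.trans hia)
    · have a1 := Finset.mem_filter.1 hy
      have a2 := Finset.mem_filter.1 hz
      exact g2 y a1.1 z a2.1 (a1.2.1.trans a2.2.1.symm)
  · intro A As Aa
    by_contra hc
    have As' : A ⊆ S \ {a} := fun z hz => by
      have := Finset.mem_sdiff.1 (As hz)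
      exact Finset.mem_sdiff.2 ⟨this.1, fun e => this.2 (by
        rw [Finset.mem_singleton.1 e]; exact Finset.mem_insert_self _ _)⟩
    obtain ⟨z, hz, e⟩ := hit A As' Aa (by omega) i hi
    have : z ≤ x i := (hx i hi).2 z (Finset.mem_filter.2 ⟨As' hz, e, A, As', Aa, by omega, hz⟩)
    exact (Finset.mem_sdiff.1 (As hz)).2
      (Finset.mem_insert_of_mem (Finset.mem_filter.2 ⟨As' hz, e, this⟩))

theorem over_chain {α : Type} [PartialOrder α] (C : Set α)
    (hC : ∀ x ∈ C, ∀ y ∈ C, x ≤ y ∨ y ≤ x) :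
    ∃ s : α → α → Prop, IsLinearOrder α s ∧ (∀ x y, x ≤ y → s x y) ∧
      ∀ x ∈ C, ∀ y, ¬ x ≤ y → s y x := by
  let r : α → α → Prop := fun a b => a ≤ b ∨ ∃ c ∈ C, ¬ c ≤ a ∧ c ≤ b
  haveI : IsPartialOrder α r :=
    { refl := fun a => Or.inl le_rfl
      trans := by
        rintro a b d (h1 | ⟨c, hc, h1, h1'⟩) (h2 | ⟨c', hc', h2, h2'⟩)
        · exact Or.inl (h1.trans h2)
        · exact Or.inr ⟨c', hc', fun h => h2 (h.trans h1), h2'⟩
        · exact Or.inr ⟨c, hc, h1, h1'.trans h2⟩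
        · rcases hC c hc c' hc' with l | l
          · exact Or.inr ⟨c, hc, h1, l.trans h2'⟩
          · exact absurd (l.trans h1') h2
      antisymm := by
        rintro a b (h1 | ⟨c, hc, h1, h1'⟩) (h2 | ⟨c', hc', h2, h2'⟩)
        · exact le_antisymm h1 h2
        · exact absurd (h2'.trans h1) h2
        · exact absurd (h1'.trans h2) h1
        · rcases hC c hc c' hc' with l | l
          · exact absurd (l.trans h2') h1
          · exact absurd (l.trans h1') h2 }
  obtain ⟨s, hs, hrs⟩ := extend_partialOrder r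
  exact ⟨s, hs, fun x y h => hrs x y (Or.inl h), fun x hx y h => hrs y x (Or.inr ⟨x, hx, h, le_rfl⟩)⟩

end Pool.Agent.H13.Dilworth
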