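import Mathlib

namespace Pool.Agent.H13.Drc
open Finset

def agree {d : ℕ} (x y : Fin d → Bool) : ℕ := ∑ i, if x i = y i then 1 else 0

lemma one_dim {a M p q r s : ℝ} (ha : 1 ≤ a) (hM : 0 < M) (hp : 0 ≤ p) (hq : 0 ≤ q) (hr : 0 ≤ r)
    (hs : 0 ≤ s) (h1 : p * r ≤ a * M) (h2 : q * s ≤ a * M) (h3 : p * s ≤ M) (h4 : q * r ≤ M) :
    (p + q) * (r + s) ≤ (2 + a + a⁻¹) * M := by
  have e : (p * r) * (q * s) ≤ M * M := by
    calc (p * r) * (q * s) = (p * s) * (q * r) := by ring
      _ ≤ M * M := mul_le_mul h3 h4 (by positivity) hM.le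
  have k : a * M * (p * r + q * s) ≤ (a * a + 1) * (M * M) := by
    nlinarith [mul_nonneg (sub_nonneg.2 h1) (sub_nonneg.2 h2)]
  have a0 : 0 < a := by linarith
  have k2 : p * r + q * s ≤ (a + a⁻¹) * M := by
    apply le_of_mul_le_mul_left _ (mul_pos a0 hM)
    calc _ ≤ _ := k
      _ = _ := by field_simp
  nlinarith

lemma cube {a : ℝ} (ha : 1 ≤ a) (d : ℕ) : ∀ (M : ℝ) (f g : (Fin d → Bool) → ℝ), 0 < M →
    (∀ x, 0 ≤ f x) → (∀ x, 0 ≤ g x) → (∀ x y, f x * g y ≤ a ^ agree x y * M) →
    (∑ x, f x) * (∑ y, g y) ≤ (2 + a + a⁻¹) ^ d * M := by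
  induction d with
  | zero =>
    intro M f g _ _ _ h
    rw [Fintype.sum_unique, Fintype.sum_unique]
    refine (h _ _).trans_eq ?_
    simp [agree]
  | succ d ih =>
    intro M f g hM hf hg h
    have split : ∀ u : (Fin (d + 1) → Bool) → ℝ, ∑ x, u x =
        ∑ x : Fin d → Bool, u (Fin.cons true x) + ∑ x : Fin d → Bool, u (Fin.cons false x) := by
      intro u
      rw [← (Fin.consEquiv fun _ : Fin (d + 1) => Bool).sum_comp, Fintype.sum_prod_type,
        Fintype.sum_bool]
      rfl
    have a0 : 0 < a := by linarith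
    have C0 : 0 < (2 + a + a⁻¹) ^ d := by positivity
    have step : ∀ s t : Bool, (∑ x : Fin d → Bool, f (Fin.cons s x)) *
        (∑ y : Fin d → Bool, g (Fin.cons t y)) ≤
        (2 + a + a⁻¹) ^ d * ((if s = t then a else 1) * M) := by
      intro s t
      apply ih _ _ _ (by split_ifs <;> positivity) (fun _ => hf _) (fun _ => hg _)
      intro x y
      refine (h _ _).trans_eq ?_
      simp only [agree, Fin.sum_univ_succ, Fin.cons_zero, Fin.cons_succ]
      split_ifs <;> ring
    rw [split f, split g]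
    have := one_dim (M := (2 + a + a⁻¹) ^ d * M) ha (by positivity)
      (sum_nonneg fun x _ => hf (Fin.cons true x)) (sum_nonneg fun x _ => hf (Fin.cons false x))
      (sum_nonneg fun x _ => hg (Fin.cons true x)) (sum_nonneg fun x _ => hg (Fin.cons false x))
      ((step true true).trans_eq (by simp; ring)) ((step false false).trans_eq (by simp; ring))
      ((step true false).trans_eq (by simp)) ((step false true).trans_eq (by simp))
    refine this.trans_eq (by ring)

lemma small {d : ℕ} {e : ℝ} (he : 0 < e) (B : Finset (Fin d → Bool))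
    (h : ∀ x ∈ B, ∀ y ∈ B, e * d ≤ agree x y) :
    (B.card : ℝ) ≤ 2 ^ d * Real.exp (-(e ^ 2 / 4 * d)) := by
  have ha : 1 ≤ Real.exp e := Real.one_le_exp he.le
  have k := cube ha d 1 (fun x => if x ∈ B then 1 else 0)
    (fun x => if x ∈ B then Real.exp (e * (e * d)) else 0) one_pos
    (fun x => by split_ifs <;> norm_num) (fun x => by split_ifs <;> positivity) (by
      intro x y
      split_ifs with hx hy
      · rw [one_mul, mul_one, ← Real.exp_nat_mul]
        apply Real.exp_le_exp.2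
        have := h x hx y hy
        nlinarith
      all_goals simp only [mul_zero, zero_mul]; positivity)
  simp only [sum_ite_mem, univ_inter, sum_const, nsmul_eq_mul, mul_one] at k
  have c : 2 + Real.exp e + (Real.exp e)⁻¹ ≤ 4 * Real.exp (e ^ 2 / 2) := by
    have h1 := Real.cosh_le_exp_half_sq e
    rw [Real.cosh_eq, Real.exp_neg] at h1
    have h2 : 1 ≤ Real.exp (e ^ 2 / 2) := Real.one_le_exp (by positivity)
    linarith
  have c2 := pow_le_pow_left₀ (by positivity) c d
  apply abs_le_of_sq_le_sq' _ (by positivity) |>.2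
  apply le_of_mul_le_mul_right _ (Real.exp_pos (e * (e * d)))
  calc (B.card : ℝ) ^ 2 * Real.exp (e * (e * d))
      = B.card * (B.card * Real.exp (e * (e * d))) := by ring
    _ ≤ (4 * Real.exp (e ^ 2 / 2)) ^ d := k.trans c2
    _ = _ := by
      rw [mul_pow, mul_pow, ← Real.exp_nat_mul, ← Real.exp_nat_mul, mul_assoc, ← Real.exp_add,
        ← pow_mul, mul_comm d 2, pow_mul]
      congr 1
      · norm_num
      · congr 1; push_cast; ring

def S {d R p : ℕ} (v : Fin d → Bool) : Finset (((Fin d × Bool) × Fin R) ⊕ Fin p) :=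
  univ.filter fun z => Sum.elim (fun w => v w.1.1 == w.1.2) (fun _ => true) z = true

lemma card_S {d R p : ℕ} (u v : Fin d → Bool) :
    (S (R := R) (p := p) u ∩ S v).card = R * agree u v + p := by
  rw [S, S, ← filter_and, card_filter, Fintype.sum_sum_type, Fintype.sum_prod_type,
    Fintype.sum_prod_type, agree, mul_sum]
  simp only [Sum.elim_inl, Sum.elim_inr, and_self, if_true, sum_const, card_univ, Fintype.card_fin,
    smul_eq_mul, mul_one, Fintype.sum_bool, beq_iff_eq]
  congr 1
  apply sum_congr rfl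
  intro i _
  cases u i <;> cases v i <;> simp

lemma drc {n m : ℕ} (hn : 1 ≤ n) {c e : ℝ} (hc : 0 ≤ c) (he : 0 ≤ e) (A : Fin m → Finset (Fin n))
    (hA : ∀ i, c * n < (A i).card) (k : ℕ) :
    ∃ I : Finset (Fin m), m * c ^ k - m ^ 2 / 2 * e ^ k ≤ I.card ∧
      ∀ i ∈ I, ∀ j ∈ I, i ≠ j → e * n < (A i ∩ A j).card := by
  classical
  set bad : Finset (Fin m × Fin m) :=
    univ.filter fun p => p.1 < p.2 ∧ ((A p.1 ∩ A p.2).card : ℝ) ≤ e * n with hbad
  have cnt : ∀ T : Finset (Fin n), ∑ x : Fin k → Fin n, (if ∀ t, x t ∈ T then (1 : ℝ) else 0) =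
      (T.card : ℝ) ^ k := by
    intro T
    rw [sum_boole]
    have : (univ.filter fun x : Fin k → Fin n => ∀ t, x t ∈ T) = Fintype.piFinset fun _ => T := by
      ext x; simp
    rw [this, Fintype.card_piFinset]; simp
  have hb : (bad.card : ℝ) ≤ m ^ 2 / 2 := by
    have h1 : bad.card + (bad.image Prod.swap).card ≤ m * m := by
      rw [← card_union_of_disjoint]
      · simpa using card_le_univ (bad ∪ bad.image Prod.swap)
      · rw [disjoint_left]
        intro p h1 h2
        obtain ⟨q, hq, rfl⟩ := mem_image.1 h2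
        simp only [hbad, mem_filter, Prod.fst_swap, Prod.snd_swap] at h1 hq
        exact lt_asymm h1.2.1 hq.2.1
    rw [card_image_of_injective _ Prod.swap_injective] at h1
    have : ((bad.card + bad.card : ℕ) : ℝ) ≤ (m * m : ℕ) := by exact_mod_cast h1
    push_cast at this
    nlinarith
  have n0 : (0 : ℝ) < n := by exact_mod_cast hn
  set F : (Fin k → Fin n) → ℝ := fun x => (∑ i, if ∀ t, x t ∈ A i then (1 : ℝ) else 0) -
    ∑ p ∈ bad, if ∀ t, x t ∈ A p.1 ∩ A p.2 then (1 : ℝ) else 0 with hF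
  have tot : ∑ _x : Fin k → Fin n, (m * c ^ k - bad.card * e ^ k : ℝ) ≤ ∑ x, F x := by
    simp only [hF, sum_sub_distrib]
    rw [sum_comm, sum_comm (t := bad)]
    simp only [cnt, sum_const, card_univ, Fintype.card_fun, Fintype.card_fin, nsmul_eq_mul]
    have l1 : ∑ _i : Fin m, (c * n) ^ k ≤ ∑ i, ((A i).card : ℝ) ^ k :=
      sum_le_sum fun i _ => pow_le_pow_left₀ (by positivity) (hA i).le k
    have l2 : ∑ p ∈ bad, ((A p.1 ∩ A p.2).card : ℝ) ^ k ≤ ∑ _p ∈ bad, (e * n) ^ k :=
      sum_le_sum fun p hp => pow_le_pow_left₀ (by positivity) (mem_filter.1 hp).2.2 k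
    simp only [sum_const, card_univ, Fintype.card_fin, nsmul_eq_mul, mul_pow] at l1 l2
    push_cast
    nlinarith
  haveI : Nonempty (Fin n) := ⟨⟨0, hn⟩⟩
  obtain ⟨x, -, hx⟩ := exists_le_of_sum_le univ_nonempty tot
  simp only [hF, sum_boole] at hx
  set J := univ.filter fun i => ∀ t, x t ∈ A i with hJ
  set W := bad.filter fun p => ∀ t, x t ∈ A p.1 ∩ A p.2 with hW
  refine ⟨J \ W.image Prod.fst, ?_, ?_⟩
  · have h1 := le_card_sdiff (W.image Prod.fst) J
    have h2 := card_image_le (s := W) (f := Prod.fst)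
    have h3 : J.card ≤ (J \ W.image Prod.fst).card + W.card := by omega
    have h4 : (J.card : ℝ) ≤ (J \ W.image Prod.fst).card + W.card := by exact_mod_cast h3
    have := mul_le_mul_of_nonneg_right hb (pow_nonneg he k)
    linarith
  · have main : ∀ i ∈ J \ W.image Prod.fst, ∀ j ∈ J \ W.image Prod.fst, i < j →
        e * n < (A i ∩ A j).card := by
      intro i hi j hj l
      by_contra hh
      apply (mem_sdiff.1 hi).2
      refine mem_image.2 ⟨(i, j), mem_filter.2 ⟨mem_filter.2 ⟨mem_univ _, l, not_lt.1 hh⟩, ?_⟩, rfl⟩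
      intro t
      exact mem_inter.2 ⟨(mem_filter.1 (mem_sdiff.1 hi).1).2 t, (mem_filter.1 (mem_sdiff.1 hj).1).2 t⟩
    intro i hi j hj hne
    rcases lt_or_gt_of_ne hne with l | l
    · exact main i hi j hj l
    · rw [inter_comm]; exact main j hj i hi l

end Pool.Agent.H13.Drc
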