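import Pool.Agent.H13.ZSum

set_option autoImplicit false
open Finset

namespace Pool.Agent.H13.Fact

open Pool.Agent.H13.ZSum

def cj {V : Type} (g : V ≃ V) (m : V → V) : V → V := g ∘ m ∘ g.symm

open Classical in
theorem cnt {V α : Type} (P : (V → V) → (α → V) → Prop)
    (hP : ∀ (g : V ≃ V) m t, P m t → P (cj g m) (g ∘ t)) (D : Finset (V → V)) (g : V ≃ V)
    (h1 : ∀ m ∈ D, cj g m ∈ D) (h2 : ∀ m ∈ D, cj g.symm m ∈ D) (t : α → V) :
    #{m ∈ D | P m t} = #{m ∈ D | P m (g ∘ t)} := by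
  refine card_nbij' (cj g) (cj g.symm) (fun m hm => ?_) (fun m hm => ?_)
    (fun m _ => by funext x; simp [cj]) (fun m _ => by funext x; simp [cj])
  · simp only [coe_filter, Set.mem_ofPred_eq] at hm ⊢
    exact ⟨h1 m hm.1, hP g m t hm.2⟩
  · simp only [coe_filter, Set.mem_ofPred_eq] at hm ⊢
    have := hP g.symm m _ hm.2
    rw [show g.symm ∘ g ∘ t = t by funext x; simp] at this
    exact ⟨h2 m hm.1, this⟩

abbrev W (j : ℕ) : Type := (Fin j → ZMod 2) × ZMod 2 × ZMod 2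

theorem cardG (j : ℕ) : Nat.card (W j ≃ₗ[ZMod 2] W j) ≤ 2 ^ ((j + 2) * (j + 2)) := by
  have : Finite (W j →ₗ[ZMod 2] W j) := Finite.of_injective _ DFunLike.coe_injective
  refine (Nat.card_le_card_of_injective _ LinearEquiv.toLinearMap_injective).trans (le_of_eq ?_)
  rw [Module.natCard_eq_pow_finrank (K := ZMod 2), Module.finrank_linearMap]
  simp

open Classical in
theorem cardM (j : ℕ) : 2 ^ 2 ^ j ≤
    #{m : W j → W j | Function.Involutive m ∧ ∀ x, m x ≠ x} := by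
  have e : 2 ^ 2 ^ j = #(univ : Finset ((Fin j → ZMod 2) → Bool)) := by simp
  rw [e]
  refine card_le_card_of_injOn
    (fun s x => (x.1, x.2 + if s x.1 then ((1, 0) : ZMod 2 × ZMod 2) else (0, 1))) (fun s _ => ?_)
    (fun s _ s' _ h => funext fun w => ?_)
  · simp only [coe_filter, mem_univ, true_and, Set.mem_ofPred_eq]
    refine ⟨fun ⟨w, z⟩ => Prod.ext rfl ?_, fun ⟨w, z⟩ h => ?_⟩
    · simp only
      cases s w <;> revert z <;> decide
    · have := congrArg Prod.snd h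
      simp only at this
      clear h
      revert this
      cases s w <;> revert z <;> decide
  · have := congrArg Prod.snd (congrFun h (w, 0))
    simp only at this
    revert this
    cases s w <;> cases s' w <;> decide

open Classical in
theorem main (r n : ℕ) : ∃ j, n ≤ j ∧ ∀ (P : (W j → W j) → (Fin r → W j) → Prop),
    (∀ (g : W j ≃ W j) m t, P m t → P (cj g m) (g ∘ t)) →
    ∃ D : Finset (W j → W j), (∀ m ∈ D, Function.Involutive m ∧ ∀ x, m x ≠ x) ∧ D.Nonempty ∧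
      (∃ m, (Function.Involutive m ∧ ∀ x, m x ≠ x) ∧ m ∉ D) ∧
      ∀ t t', Function.Injective t → Function.Injective t' →
        #{m ∈ D | P m t} = #{m ∈ D | P m t'} := by
  set d := Fintype.card (Set (Fin r → ZMod 2))
  obtain ⟨j, hj, hC⟩ := grow (3 ^ d + 1) n
  refine ⟨j, hj, fun P hP => ?_⟩
  set b := (j + 2) * (j + 2)
  set I : Finset (W j → W j) := {m | Function.Involutive m ∧ ∀ x, m x ≠ x} with hI
  have IM : ∀ g : W j ≃ W j, ∀ m ∈ I, cj g m ∈ I := fun g m hm => by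
    simp only [hI, mem_filter_univ] at hm ⊢
    refine ⟨fun x => by simp [cj, hm.1 _], fun x h => hm.2 (g.symm x) ?_⟩
    rw [Equiv.eq_symm_apply]; exact h
  have lI : 2 ^ 2 ^ j ≤ #I := by convert cardM j
  have : Finite (W j ≃ₗ[ZMod 2] W j) := Finite.of_injective _ DFunLike.coe_injective
  have := Fintype.ofFinite (W j ≃ₗ[ZMod 2] W j)
  let q : (W j → W j) → Finset (W j → W j) := fun m =>
    univ.image fun g : W j ≃ₗ[ZMod 2] W j => cj g.toEquiv m
  have q1 : ∀ (g : W j ≃ₗ[ZMod 2] W j) m, q (cj g.toEquiv m) = q m := fun g m => by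
    ext u
    simp only [q, mem_image, mem_univ, true_and]
    exact ⟨fun ⟨h, e⟩ => ⟨g.trans h, e⟩, fun ⟨h, e⟩ => ⟨g.symm.trans h, by
      rw [← e]; funext x; simp [cj]⟩⟩
  have q2 : ∀ ω, ω ∈ I.image q → #{m ∈ I | q m = ω} ≤ 2 ^ b := fun ω hω => by
    obtain ⟨u, -, rfl⟩ := mem_image.1 hω
    refine (card_le_card (t := q u) fun m hm => ?_).trans (card_image_le.trans ?_)
    · rw [← (mem_filter.1 hm).2]
      exact mem_image.2 ⟨LinearEquiv.refl _ _, mem_univ _, rfl⟩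
    · rw [card_univ, Fintype.card_eq_nat_card]; exact cardG j
  let kr : (Fin r → W j) → Set (Fin r → ZMod 2) := fun t =>
    LinearMap.ker (Fintype.linearCombination (ZMod 2) t)
  obtain ⟨T, T1, T2, T3⟩ := exists_subset_injOn_image_eq_of_surjOn (f := kr)
    {t | Function.Injective t} ((univ.filter Function.Injective).image kr) (fun y hy => by
      obtain ⟨t, ht, e⟩ := mem_image.1 hy
      exact ⟨t, (mem_filter.1 ht).2, e⟩)
  have Tc : T.card ≤ d := by
    rw [← card_image_of_injOn T2]; exact card_le_univ _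
  by_cases h0 : ∃ t0 : Fin r → W j, Function.Injective t0
  swap
  · have h2 : 2 ^ 1 ≤ 2 ^ 2 ^ j := Nat.pow_le_pow_right (by norm_num) Nat.one_le_two_pow
    obtain ⟨a, ha, c, hc, n⟩ := one_lt_card.1 (show 1 < #I by omega)
    exact ⟨{a}, by simpa [hI] using ha, by simp, ⟨c, by simpa [hI] using hc, by simpa using n.symm⟩,
      fun t _ h => absurd ⟨t, h⟩ h0⟩
  obtain ⟨t0, h0⟩ := h0
  have S : ∀ (J : Finset (Finset (W j → W j))) t, ∑ ω ∈ J, (#{m ∈ I | q m = ω ∧ P m t} : ℤ) =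
      #{m ∈ I.filter (q · ∈ J) | P m t} := fun J t => by
    rw [← Nat.cast_sum, Nat.cast_inj]
    refine ((card_eq_sum_card_fiberwise (f := q) (t := J) fun m hm =>
      (mem_filter.1 (mem_filter.1 hm).1).2).trans (sum_congr rfl fun ω hω => congrArg _ ?_)).symm
    ext m
    simp only [mem_filter]
    exact ⟨fun ⟨⟨⟨a, _⟩, e⟩, c⟩ => ⟨a, c, e⟩, fun ⟨a, c, e⟩ => ⟨⟨⟨a, c ▸ hω⟩, e⟩, c⟩⟩
  have lb : 2 ^ 2 ^ j ≤ 2 ^ b * #(I.image q) := lI.trans (card_le_mul_card_image I _ q2)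
  obtain ⟨J, J1, ⟨ω, hω⟩, J3, J4⟩ := multi (fun ω t => (#{m ∈ I | q m = ω ∧ P m t} : ℤ) -
      #{m ∈ I | q m = ω ∧ P m t0}) b T (I.image q) (fun ω hω t => by
      have A : ∀ t, #{m ∈ I | q m = ω ∧ P m t} ≤ 2 ^ b := fun t =>
        (card_le_card fun m hm => mem_filter.2 ⟨(mem_filter.1 hm).1, (mem_filter.1 hm).2.1⟩).trans
          (q2 ω hω)
      have := A t
      have := A t0
      rw [abs_le]
      omega) (fun t ht => by
      obtain ⟨g, hg⟩ := Equiv.Perm.exists_extending_pair t0 t h0 (T1 ht)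
      rw [sum_sub_distrib, S, S, filter_true_of_mem (s := I) fun m hm => mem_image_of_mem q hm,
        cnt P hP I g (IM g) (IM _) t0, show g ∘ t0 = t from funext hg, sub_self])
      (by
        rw [← card_pos]
        refine Nat.pos_of_mul_pos_left (lt_of_lt_of_le (by positivity) lb))
  have ne : #J < #(I.image q) := by
    refine Nat.lt_of_mul_lt_mul_left (a := 2 ^ b) (lt_of_lt_of_le ?_ lb)
    refine lt_of_le_of_lt (Nat.mul_le_mul_left _ J3) ?_
    rw [← pow_add]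
    refine Nat.pow_lt_pow_right (by norm_num) (lt_of_le_of_lt ?_ hC)
    have := Nat.mul_le_mul_right (b + 2) (Nat.pow_le_pow_right (show 0 < 3 by norm_num) Tc)
    nlinarith
  have K : ∀ t, Function.Injective t →
      #{m ∈ I.filter (q · ∈ J) | P m t} = #{m ∈ I.filter (q · ∈ J) | P m t0} := fun t ht => by
    obtain ⟨u, hu, e⟩ := mem_image.1 (T3 ▸ mem_image_of_mem kr (mem_filter.2 ⟨mem_univ t, ht⟩))
    obtain ⟨g, rfl⟩ := ext u t (SetLike.coe_injective e)
    have A : ∀ g : W j ≃ₗ[ZMod 2] W j, ∀ m ∈ I.filter (q · ∈ J),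
        cj g.toEquiv m ∈ I.filter (q · ∈ J) := fun g m hm =>
      mem_filter.2 ⟨IM _ m (mem_filter.1 hm).1, by rw [q1]; exact (mem_filter.1 hm).2⟩
    have := J4 u hu
    rw [sum_sub_distrib, S, S, cnt P hP _ g.toEquiv (A g) (A g.symm) u, sub_eq_zero] at this
    exact_mod_cast this
  obtain ⟨ω', h1, h2⟩ := exists_mem_notMem_of_card_lt_card ne
  obtain ⟨u, hu, rfl⟩ := mem_image.1 (J1 hω)
  obtain ⟨u', hu', rfl⟩ := mem_image.1 h1
  exact ⟨I.filter (q · ∈ J), fun m hm => (mem_filter.1 (mem_filter.1 hm).1).2,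
    ⟨u, mem_filter.2 ⟨hu, hω⟩⟩, ⟨u', (mem_filter.1 hu').2, fun h => h2 (mem_filter.1 h).2⟩,
    fun t t' h h' => (K t h).trans (K t' h').symm⟩

theorem cardW (j : ℕ) : Fintype.card (W j) = 2 * (2 * 2 ^ j) := by simp; ring

theorem three {V : Type} [Fintype V] (h : 4 < Fintype.card V) (m : V → V)
    (h1 : Function.Involutive m) (h2 : ∀ x, m x ≠ x) :
    ∃ a b e, Function.Injective ![a, m a, b, m b, e, m e] := by
  classical
  have A : ∀ S : Finset V, S.card ≤ 4 → ∃ x, x ∉ S ∧ ((∀ y ∈ S, m y ∈ S) → m x ∉ S) := by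
    intro S hS
    obtain ⟨x, -, hx⟩ := exists_mem_notMem_of_card_lt_card (s := S) (t := univ)
      (by rw [card_univ]; omega)
    exact ⟨x, hx, fun k l => hx (h1 x ▸ k _ l)⟩
  obtain ⟨a, -⟩ := A ∅ (by simp)
  obtain ⟨b, b1, b2⟩ := A {a, m a} (card_le_two.trans (by norm_num))
  obtain ⟨e, e1, e2⟩ := A {a, m a, b, m b} card_le_four
  have b3 := b2 (by simp [h1 a])
  have e3 := e2 (by simp [h1 a, h1 b])
  refine ⟨a, b, e, List.nodup_ofFn.1 ?_⟩
  have := h2 a
  have := h2 b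
  have := h2 e
  simp only [mem_insert, mem_singleton, not_or] at b1 b3 e1 e3
  simp [List.ofFn_succ]
  grind

end Pool.Agent.H13.Fact
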