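import Mathlib

set_option autoImplicit false
open MeasureTheory
open scoped ENNReal

namespace Pool.Agent.H13.Fair

abbrev E := EuclideanSpace ℝ (Fin 2)
abbrev Q := ℕ × ℕ × ℕ × ℕ

def pts : List Q :=
  [(590,409,9,0),(442,293,9,0),(410,984,6,0),(18,888,7,0),(882,356,4,0),(804,831,9,0),
   (493,419,10,0),(295,4,5,0),(854,5,8,0),(766,308,0,10),(600,676,0,4),(377,183,0,1),
   (718,676,0,4),(403,361,0,4),(598,239,0,4),(657,788,0,1),(229,850,0,4),(356,91,0,4)]

def det (p q r : Q) : ℤ :=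
  ((q.1 : ℤ) - p.1) * ((r.2.1 : ℤ) - p.2.1) - ((q.2.1 : ℤ) - p.2.1) * ((r.1 : ℤ) - p.1)

def dA (p q r : Q) : ℕ := Nat.add (Nat.add (Nat.mul q.1 r.2.1) (Nat.mul p.1 q.2.1)) (Nat.mul r.1 p.2.1)
def dB (p q r : Q) : ℕ := Nat.add (Nat.add (Nat.mul q.1 p.2.1) (Nat.mul p.1 r.2.1)) (Nat.mul r.1 q.2.1)

theorem det_eq (p q r : Q) : det p q r = (dA p q r : ℤ) - dB p q r := by
  simp only [det, dA, dB, Nat.add_eq, Nat.mul_eq]; push_cast; ring

def wt (k : Bool) (q : Q) : ℕ := bif k then q.2.2.1 else q.2.2.2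

def wsum (k : Bool) (I : Q → Bool) (l : List Q) : ℕ :=
  List.rec 0 (fun q _ s => Nat.add (bif (Nat.ble 1 (wt k q) && I q) then wt k q else 0) s) l

theorem wsum_cons (k : Bool) (I : Q → Bool) (q : Q) (l : List Q) :
    wsum k I (q :: l) = (if I q then wt k q else 0) + wsum k I l := by
  have : wsum k I (q :: l) =
      Nat.add (bif (Nat.ble 1 (wt k q) && I q) then wt k q else 0) (wsum k I l) := rfl
  rw [this, Nat.add_eq]
  congr 1
  rcases h : wt k q with _ | m <;> cases I q <;> simp [Nat.ble]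

def tot (k : Bool) : ℕ := bif k then 67 else 36

theorem tot_eq (k : Bool) : wsum k (fun _ => true) pts = tot k := by
  cases k <;> decide +kernel

def ok1 (k : Bool) (I O : Q → Bool) (s : ℕ) : Bool :=
  Nat.ble (Nat.mul 6 (wsum k I pts)) (Nat.mul s (tot k)) &&
    Nat.ble (Nat.mul s (tot k)) (Nat.mul 6 (wsum k (fun r => !O r) pts))

def ok (I O : Q → Bool) (s : ℕ) : Bool := ok1 true I O s && ok1 false I O s

def neg (p q : Q) (r : Q) : Bool := Nat.blt (dA p q r) (dB p q r)
def pos (p q : Q) (r : Q) : Bool := Nat.blt (dB p q r) (dA p q r)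
def dif (p q : Q) : Bool := !(decide (p.1 = q.1) && decide (p.2.1 = q.2.1))

theorem neg_det (p q r : Q) (h : neg p q r = true) : det p q r < 0 := by
  rw [det_eq]; unfold neg at h; rw [Nat.blt_eq] at h; omega

theorem pos_det (p q r : Q) (h : pos p q r = true) : 0 < det p q r := by
  rw [det_eq]; unfold pos at h; rw [Nat.blt_eq] at h; omega

def cut (I O : Q → Bool) (p q : Q) (s t : ℕ) : Bool :=
  ok (fun r => I r && neg p q r) (fun r => O r || pos p q r) s &&
  ok (fun r => I r && pos p q r) (fun r => O r || neg p q r) t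

def second (I O : Q → Bool) : Bool :=
  pts.any fun p => pts.any fun q => dif p q && (cut I O p q 1 2 || cut I O p q 2 1)

def good (p q : Q) : Bool :=
  !(dif p q) ||
  (!(cut (fun _ => true) (fun _ => false) p q 1 5) && !(cut (fun _ => true) (fun _ => false) p q 2 4) &&
   !(cut (fun _ => true) (fun _ => false) p q 4 2) && !(cut (fun _ => true) (fun _ => false) p q 5 1) &&
   (!(cut (fun _ => true) (fun _ => false) p q 3 3) ||
     !(second (fun r => true && neg p q r) (fun r => false || pos p q r)) ||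
     !(second (fun r => true && pos p q r) (fun r => false || neg p q r))))

theorem check : (pts.all fun p => pts.all fun q => good p q) = true := by decide +kernel

theorem bnd : ∀ p ∈ pts, p.1 ≤ 1000 ∧ p.2.1 ≤ 1000 := by decide +kernel

theorem two : ∀ p ∈ pts, ∃ q ∈ pts, dif p q = true := by decide +kernel

theorem det_swap (p q r : Q) : det q p r = - det p q r := by
  unfold det; ring

theorem dif_swap (p q : Q) (h : dif p q = true) : dif q p = true := by
  unfold dif at *
  simp only [Bool.not_eq_true', Bool.and_eq_false_imp, decide_eq_true_eq, decide_eq_false_iff_not] at *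
  intro h1 h2
  exact h h1.symm h2.symm

noncomputable def eps : ℝ := 1 / 8000

theorem conform (v0 v1 c n : ℝ) (hn : 0 < n) (hn2 : n ^ 2 = v0 ^ 2 + v1 ^ 2) :
    ∃ p ∈ pts, ∃ q ∈ pts, dif p q = true ∧ ∀ r ∈ pts,
      (0 < det p q r → eps * n ≤ v0 * r.1 + v1 * r.2.1 - c) ∧
      (det p q r < 0 → v0 * r.1 + v1 * r.2.1 - c ≤ -(eps * n)) := by
  classical
  set f : Q → ℝ := fun r => v0 * r.1 + v1 * r.2.1 - c with hf
  have hne : pts.toFinset.Nonempty := ⟨(590,409,9,0), by simp [pts]⟩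
  obtain ⟨p, hp, hpm⟩ := Finset.exists_min_image pts.toFinset (fun r => |f r|) hne
  rw [List.mem_toFinset] at hp
  set a : Q → ℝ := fun r => f r - f p with ha
  set b : Q → ℝ := fun r => -v1 * ((r.1 : ℝ) - p.1) + v0 * ((r.2.1 : ℝ) - p.2.1) with hb
  have hab : ∀ r : Q, a r ^ 2 + b r ^ 2 = n ^ 2 * (((r.1 : ℝ) - p.1) ^ 2 + ((r.2.1 : ℝ) - p.2.1) ^ 2) := by
    intro r; simp only [ha, hb, hf]; rw [hn2]; ring
  have hpos : ∀ r : Q, dif p r = true → 0 < a r ^ 2 + b r ^ 2 := by
    intro r hr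
    rw [hab]
    apply mul_pos (by positivity)
    unfold dif at hr
    simp only [Bool.not_eq_true', Bool.and_eq_false_imp, decide_eq_true_eq, decide_eq_false_iff_not] at hr
    by_cases h1 : p.1 = r.1
    · have h2 : ((r.2.1 : ℝ) - p.2.1) ≠ 0 := by
        rw [sub_ne_zero]; intro h; exact hr h1 (Nat.cast_injective h).symm
      positivity
    · have h2 : ((r.1 : ℝ) - p.1) ≠ 0 := by
        rw [sub_ne_zero]; intro h; exact h1 (Nat.cast_injective h).symm
      positivity
  have hne2 : (pts.toFinset.filter (fun r => dif p r = true)).Nonempty := by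
    obtain ⟨q, hq, hd⟩ := two p hp
    exact ⟨q, by simp [hq, hd]⟩
  obtain ⟨q, hq, hqm⟩ := Finset.exists_max_image _ (fun r => b r ^ 2 / (a r ^ 2 + b r ^ 2)) hne2
  rw [Finset.mem_filter, List.mem_toFinset] at hq
  obtain ⟨hq, hd⟩ := hq
  have hcross : ∀ r ∈ pts, |a q| * |b r| ≤ |a r| * |b q| := by
    intro r hr
    by_cases hdr : dif p r = true
    · have h1 := hqm r (by simp [hr, hdr])
      rw [div_le_div_iff₀ (hpos r hdr) (hpos q hd)] at h1
      rw [← abs_mul, ← abs_mul]
      apply sq_le_sq.mp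
      nlinarith
    · unfold dif at hdr
      simp only [Bool.not_eq_true', Bool.and_eq_false_imp, decide_eq_true_eq, decide_eq_false_iff_not, not_forall, not_not] at hdr
      obtain ⟨h1, h2⟩ := hdr
      have : b r = 0 := by simp only [hb]; rw [h1, h2]; ring
      rw [this, abs_zero, mul_zero]; positivity
  have hdet : ∀ r : Q, a q * b r - a r * b q = n ^ 2 * (det p q r : ℝ) := by
    intro r; simp only [ha, hb, hf, det]; rw [hn2]; push_cast; ring
  have hv0 : |v0| ≤ n := by
    rw [← abs_of_pos hn]; apply sq_le_sq.mp; nlinarith [sq_nonneg v1]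
  have hv1 : |v1| ≤ n := by
    rw [← abs_of_pos hn]; apply sq_le_sq.mp; nlinarith [sq_nonneg v0]
  have hbq : |b q| ≤ 2000 * n := by
    obtain ⟨p1, p2⟩ := bnd p hp
    obtain ⟨q1, q2⟩ := bnd q hq
    have e1 : |((q.1 : ℝ) - p.1)| ≤ 1000 := by
      have : |(q.1 : ℤ) - p.1| ≤ 1000 := by rw [abs_le]; constructor <;> omega
      exact_mod_cast this
    have e2 : |((q.2.1 : ℝ) - p.2.1)| ≤ 1000 := by
      have : |(q.2.1 : ℤ) - p.2.1| ≤ 1000 := by rw [abs_le]; constructor <;> omega
      exact_mod_cast this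
    calc |b q| ≤ |-v1 * ((q.1 : ℝ) - p.1)| + |v0 * ((q.2.1 : ℝ) - p.2.1)| := abs_add_le _ _
      _ = |v1| * |((q.1 : ℝ) - p.1)| + |v0| * |((q.2.1 : ℝ) - p.2.1)| := by
          rw [abs_mul, abs_mul, abs_neg]
      _ ≤ n * 1000 + n * 1000 := by gcongr
      _ = 2000 * n := by ring
  have hfar : ∀ r ∈ pts, det p q r ≠ 0 → eps * n ≤ |f r| := by
    intro r hr h0
    by_contra hlt
    push Not at hlt
    have h1 : (1 : ℝ) ≤ |(det p q r : ℝ)| := by
      have : 1 ≤ |det p q r| := Int.one_le_abs h0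
      exact_mod_cast this
    have h2 : |a r| ≤ 2 * |f r| := by
      have := hpm r (by simp [hr])
      have h3 : |f r - f p| ≤ |f r| + |f p| := abs_sub _ _
      simp only [ha]; linarith
    have h3 : n ^ 2 * |(det p q r : ℝ)| ≤ 2 * (|a r| * |b q|) := by
      have h4 : |a q * b r - a r * b q| ≤ |a q * b r| + |a r * b q| := abs_sub _ _
      rw [hdet, abs_mul, abs_of_pos (by positivity : 0 < n ^ 2), abs_mul, abs_mul] at h4
      linarith [hcross r hr]
    have h5 : |a r| * |b q| ≤ (2 * |f r|) * (2000 * n) := by gcongr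
    have h6 : n ^ 2 * 1 ≤ n ^ 2 * |(det p q r : ℝ)| := by gcongr
    have h7 : |f r| * n < eps * n * n := by gcongr
    unfold eps at h7
    nlinarith
  have hsp : ∀ r ∈ pts, 0 < a r → 0 < f r := by
    intro r hr h
    have := hpm r (by simp [hr])
    by_contra hle
    push Not at hle
    rw [abs_of_nonpos hle] at this
    have := neg_abs_le (f p)
    simp only [ha] at h; linarith
  have hsn : ∀ r ∈ pts, a r < 0 → f r < 0 := by
    intro r hr h
    have := hpm r (by simp [hr])
    by_contra hle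
    push Not at hle
    rw [abs_of_nonneg hle] at this
    have := le_abs_self (f p)
    simp only [ha] at h; linarith
  have key : ∀ r ∈ pts, ∀ s : ℝ, (s = 1 ∨ s = -1) → s * b q = |b q| →
      (s * (det p q r : ℝ) < 0 → 0 < a r) ∧ (0 < s * (det p q r : ℝ) → a r < 0) := by
    intro r hr s hs hsb
    have h1 := hcross r hr
    have h2 : s * (a q * b r) - a r * |b q| = n ^ 2 * (s * (det p q r : ℝ)) := by
      rw [← hsb]; linear_combination s * hdet r
    have h3 : |s * (a q * b r)| = |a q| * |b r| := by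
      rcases hs with h | h <;> simp [h, abs_mul]
    have h4 := le_abs_self (s * (a q * b r))
    have h5 := neg_abs_le (s * (a q * b r))
    have hn' : 0 < n ^ 2 := by positivity
    constructor
    · intro h
      have h6 : n ^ 2 * (s * (det p q r : ℝ)) < 0 := mul_neg_of_pos_of_neg hn' h
      by_contra hle
      push Not at hle
      rw [abs_of_nonpos hle] at h1
      linarith
    · intro h
      have h6 : 0 < n ^ 2 * (s * (det p q r : ℝ)) := mul_pos hn' h
      by_contra hle
      push Not at hle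
      rw [abs_of_nonneg hle] at h1
      linarith
  have fin1 : ∀ r ∈ pts, det p q r ≠ 0 → 0 < a r → eps * n ≤ f r := by
    intro r hr h0 h
    have := hfar r hr h0
    rwa [abs_of_pos (hsp r hr h)] at this
  have fin2 : ∀ r ∈ pts, det p q r ≠ 0 → a r < 0 → f r ≤ -(eps * n) := by
    intro r hr h0 h
    have := hfar r hr h0
    rw [abs_of_neg (hsn r hr h)] at this
    linarith
  rcases le_total 0 (b q) with hs | hs
  · refine ⟨q, hq, p, hp, dif_swap _ _ hd, fun r hr => ?_⟩
    obtain ⟨k1, k2⟩ := key r hr 1 (Or.inl rfl) (by rw [abs_of_nonneg hs]; ring)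
    rw [det_swap]
    constructor
    · intro h
      apply fin1 r hr (by omega)
      apply k1
      have : det p q r < 0 := by omega
      rw [one_mul]; exact_mod_cast this
    · intro h
      apply fin2 r hr (by omega)
      apply k2
      have : 0 < det p q r := by omega
      rw [one_mul]; exact_mod_cast this
  · refine ⟨p, hp, q, hq, hd, fun r hr => ?_⟩
    obtain ⟨k1, k2⟩ := key r hr (-1) (Or.inr rfl) (by rw [abs_of_nonpos hs]; ring)
    constructor
    · intro h
      apply fin1 r hr (by omega)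
      apply k1
      have : (0 : ℝ) < det p q r := by exact_mod_cast h
      linarith
    · intro h
      apply fin2 r hr (by omega)
      apply k2
      have : (det p q r : ℝ) < 0 := by exact_mod_cast h
      linarith

noncomputable def ctr (q : Q) : E := !₂[(q.1 : ℝ), (q.2.1 : ℝ)]

def bl (q : Q) : Set E := Metric.ball (ctr q) eps

noncomputable def mu (k : Bool) : List Q → Measure E
  | [] => 0
  | q :: l => (wt k q : ℝ≥0∞) • (volume : Measure E).restrict (bl q) + mu k l

noncomputable def beta : ℝ≥0∞ := volume (Metric.ball (0 : E) eps)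

theorem vol_bl (q : Q) : volume (bl q) = beta := by
  unfold bl beta
  exact Measure.addHaar_ball_center _ _ _

theorem beta_pos : beta ≠ 0 := by
  unfold beta
  exact (Metric.measure_ball_pos _ _ (by unfold eps; norm_num)).ne'

theorem beta_fin : beta ≠ ⊤ := by
  unfold beta
  exact measure_ball_lt_top.ne

theorem mu_cons (k : Bool) (q : Q) (l : List Q) (A : Set E) :
    mu k (q :: l) A = (wt k q : ℝ≥0∞) * volume (A ∩ bl q) + mu k l A := by
  have : MeasurableSet (bl q) := measurableSet_ball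
  simp only [mu, Measure.add_apply, Measure.smul_apply, smul_eq_mul, Measure.restrict_apply' this]

theorem lower (k : Bool) (I : Q → Bool) (A : Set E) :
    ∀ l : List Q, (∀ q ∈ l, I q = true → bl q ⊆ A) → (wsum k I l : ℝ≥0∞) * beta ≤ mu k l A := by
  intro l
  induction l with
  | nil => intro _; simp [wsum]
  | cons q l ih =>
    intro h
    rw [mu_cons, wsum_cons, Nat.cast_add, add_mul]
    apply add_le_add _ (ih fun r hr => h r (List.mem_cons_of_mem _ hr))
    by_cases hI : I q = true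
    · rw [if_pos hI, Set.inter_eq_right.mpr (h q List.mem_cons_self hI), vol_bl]
    · rw [if_neg hI]; simp

theorem upper (k : Bool) (O : Q → Bool) (A : Set E) :
    ∀ l : List Q, (∀ q ∈ l, O q = true → A ∩ bl q = ∅) →
      mu k l A ≤ (wsum k (fun r => !O r) l : ℝ≥0∞) * beta := by
  intro l
  induction l with
  | nil => intro _; simp [mu]
  | cons q l ih =>
    intro h
    rw [mu_cons, wsum_cons, Nat.cast_add, add_mul]
    apply add_le_add _ (ih fun r hr => h r (List.mem_cons_of_mem _ hr))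
    by_cases hO : O q = true
    · rw [h q List.mem_cons_self hO]; simp
    · have : (!O q) = true := by simpa using hO
      rw [if_pos this, ← vol_bl q]
      gcongr
      exact Set.inter_subset_right

theorem mu_univ (k : Bool) : mu k pts Set.univ = (tot k : ℝ≥0∞) * beta := by
  rw [← tot_eq]
  apply le_antisymm
  · exact upper k (fun _ => false) _ pts (by simp)
  · exact lower k (fun _ => true) _ pts (by simp)

theorem mu_fin (k : Bool) : IsFiniteMeasure (mu k pts) := by
  constructor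
  rw [mu_univ]
  exact ENNReal.mul_lt_top (by simp) beta_fin.lt_top

theorem mu_ac (k : Bool) : ∀ l : List Q, mu k l ≪ (volume : Measure E) := by
  intro l
  induction l with
  | nil => exact Measure.AbsolutelyContinuous.zero _
  | cons q l ih =>
    apply Measure.AbsolutelyContinuous.add_left _ ih
    exact (Measure.absolutelyContinuous_restrict).smul_left _

def Fits (A : Set E) (I O : Q → Bool) : Prop :=
  (∀ q ∈ pts, I q = true → bl q ⊆ A) ∧ (∀ q ∈ pts, O q = true → A ∩ bl q = ∅)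

theorem ok_of (A : Set E) (I O : Q → Bool) (hF : Fits A I O) (s : ℕ) (al : Bool → ℝ≥0∞)
    (hal : ∀ k, (tot k : ℝ≥0∞) * beta = 6 * al k) (hA : ∀ k, mu k pts A = s * al k) :
    ok I O s = true := by
  have h : ∀ k, ok1 k I O s = true := by
    intro k
    have h1 := lower k I A pts hF.1
    have h2 := upper k O A pts hF.2
    rw [hA k] at h1 h2
    have h3 : ((6 * wsum k I pts : ℕ) : ℝ≥0∞) * beta ≤ ((s * tot k : ℕ) : ℝ≥0∞) * beta := by
      push_cast
      rw [mul_assoc, mul_assoc, hal k, mul_left_comm (s : ℝ≥0∞)]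
      exact mul_le_mul_right h1 6
    have h4 : ((s * tot k : ℕ) : ℝ≥0∞) * beta ≤ ((6 * wsum k (fun r => !O r) pts : ℕ) : ℝ≥0∞) * beta := by
      push_cast
      rw [mul_assoc, mul_assoc, hal k, mul_left_comm (s : ℝ≥0∞)]
      exact mul_le_mul_right h2 6
    rw [ENNReal.mul_le_mul_iff_left beta_pos beta_fin, Nat.cast_le] at h3 h4
    simp [ok1, Nat.ble_eq, h3, h4]
  simp [ok, h true, h false]

theorem split (v : E) (c : ℝ) (hv : v ≠ 0) :
    ∃ p ∈ pts, ∃ q ∈ pts, dif p q = true ∧ ∀ (A : Set E) (I O : Q → Bool), Fits A I O →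
      Fits (A ∩ {x | inner ℝ v x ≤ c}) (fun r => I r && neg p q r) (fun r => O r || pos p q r) ∧
      Fits (A ∩ {x | c < inner ℝ v x}) (fun r => I r && pos p q r) (fun r => O r || neg p q r) := by
  have hn : 0 < ‖v‖ := norm_pos_iff.mpr hv
  have hn2 : ‖v‖ ^ 2 = v 0 ^ 2 + v 1 ^ 2 := by
    rw [EuclideanSpace.real_norm_sq_eq, Fin.sum_univ_two]
  obtain ⟨p, hp, q, hq, hd, h⟩ := conform (v 0) (v 1) c ‖v‖ hn hn2
  have hin : ∀ r : Q, inner ℝ v (ctr r) = v 0 * r.1 + v 1 * r.2.1 := by
    intro r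
    simp [ctr, PiLp.inner_apply, Fin.sum_univ_two]
    ring
  have hball : ∀ r : Q, ∀ x ∈ bl r, |inner ℝ v x - (v 0 * r.1 + v 1 * r.2.1)| < eps * ‖v‖ := by
    intro r x hx
    rw [← hin, ← inner_sub_right]
    have h1 : ‖x - ctr r‖ < eps := by simpa [bl, dist_eq_norm] using hx
    calc |inner ℝ v (x - ctr r)| ≤ ‖v‖ * ‖x - ctr r‖ := abs_real_inner_le_norm _ _
      _ < ‖v‖ * eps := by gcongr
      _ = eps * ‖v‖ := by ring
  have hP : ∀ r ∈ pts, pos p q r = true → ∀ x ∈ bl r, c < inner ℝ v x := by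
    intro r hr h1 x hx
    have h2 := (h r hr).1 (pos_det _ _ _ h1)
    have h3 := abs_lt.mp (hball r x hx)
    linarith [h3.1]
  have hN : ∀ r ∈ pts, neg p q r = true → ∀ x ∈ bl r, inner ℝ v x < c := by
    intro r hr h1 x hx
    have h2 := (h r hr).2 (neg_det _ _ _ h1)
    have h3 := abs_lt.mp (hball r x hx)
    linarith [h3.2]
  refine ⟨p, hp, q, hq, hd, fun A I O hF => ⟨⟨?_, ?_⟩, ⟨?_, ?_⟩⟩⟩
  · intro r hr h1 x hx
    rw [Bool.and_eq_true] at h1
    exact ⟨hF.1 r hr h1.1 hx, (hN r hr h1.2 x hx).le⟩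
  · intro r hr h1
    rw [Bool.or_eq_true] at h1
    rw [Set.eq_empty_iff_forall_notMem]
    rintro x ⟨⟨hA, hc⟩, hx⟩
    rcases h1 with h1 | h1
    · have : x ∈ A ∩ bl r := ⟨hA, hx⟩
      rw [hF.2 r hr h1] at this
      exact this
    · exact absurd (hP r hr h1 x hx) (not_lt.mpr hc)
  · intro r hr h1 x hx
    rw [Bool.and_eq_true] at h1
    exact ⟨hF.1 r hr h1.1 hx, hP r hr h1.2 x hx⟩
  · intro r hr h1
    rw [Bool.or_eq_true] at h1
    rw [Set.eq_empty_iff_forall_notMem]
    rintro x ⟨⟨hA, hc⟩, hx⟩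
    rcases h1 with h1 | h1
    · have : x ∈ A ∩ bl r := ⟨hA, hx⟩
      rw [hF.2 r hr h1] at this
      exact this
    · exact absurd (hN r hr h1 x hx) (not_lt.mpr (le_of_lt hc))

inductive IP : Set E → List (Set E) → Prop
  | one (A : Set E) : IP A [A]
  | cut (A : Set E) (l₁ l₂ : List (Set E)) (v : E) (c : ℝ) (hv : v ≠ 0)
      (h₁ : IP (A ∩ {x | inner ℝ v x ≤ c}) l₁) (h₂ : IP (A ∩ {x | c < inner ℝ v x}) l₂) :
      IP A (l₁ ++ l₂)

theorem IP.len {A : Set E} {l : List (Set E)} (h : IP A l) : 1 ≤ l.length := by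
  induction h with
  | one A => simp
  | cut A l₁ l₂ v c hv h₁ h₂ ih₁ ih₂ => rw [List.length_append]; omega

theorem IP.meas (m : Measure E) (a : ℝ≥0∞) {A : Set E} {l : List (Set E)} (h : IP A l) :
    (∀ P ∈ l, m P = a) → m A = l.length * a := by
  induction h with
  | one A => intro h; simp [h A]
  | cut A l₁ l₂ v c hv h₁ h₂ ih₁ ih₂ =>
    intro h
    have hm : MeasurableSet {x : E | inner ℝ v x ≤ c} :=
      (isClosed_le (by fun_prop) continuous_const).measurableSet
    have e : A \ {x : E | inner ℝ v x ≤ c} = A ∩ {x | c < inner ℝ v x} := by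
      ext x; simp
    rw [← measure_inter_add_sdiff A hm, e, ih₁ (fun P hP => h P (by simp [hP])),
      ih₂ (fun P hP => h P (by simp [hP])), List.length_append, Nat.cast_add, add_mul]

theorem IP.inv {A : Set E} {l : List (Set E)} (h : IP A l) (h2 : 2 ≤ l.length) :
    ∃ (l₁ l₂ : List (Set E)) (v : E) (c : ℝ), v ≠ 0 ∧ IP (A ∩ {x | inner ℝ v x ≤ c}) l₁ ∧
      IP (A ∩ {x | c < inner ℝ v x}) l₂ ∧ l = l₁ ++ l₂ := by
  cases h with
  | one => simp at h2
  | cut _ l₁ l₂ v c hv h₁ h₂ => exact ⟨l₁, l₂, v, c, hv, h₁, h₂, rfl⟩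

theorem step (al : Bool → ℝ≥0∞) (hal : ∀ k, (tot k : ℝ≥0∞) * beta = 6 * al k)
    (A : Set E) (I O : Q → Bool) (hF : Fits A I O) (l : List (Set E)) (h : IP A l)
    (h2 : 2 ≤ l.length) (he : ∀ k, ∀ P ∈ l, mu k pts P = al k) :
    ∃ p ∈ pts, ∃ q ∈ pts, dif p q = true ∧ ∃ (A₁ A₂ : Set E) (l₁ l₂ : List (Set E)),
      IP A₁ l₁ ∧ IP A₂ l₂ ∧ l = l₁ ++ l₂ ∧
      Fits A₁ (fun r => I r && neg p q r) (fun r => O r || pos p q r) ∧
      Fits A₂ (fun r => I r && pos p q r) (fun r => O r || neg p q r) ∧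
      cut I O p q l₁.length l₂.length = true := by
  obtain ⟨l₁, l₂, v, c, hv, h₁, h₂, rfl⟩ := h.inv h2
  obtain ⟨p, hp, q, hq, hd, hs⟩ := split v c hv
  obtain ⟨F₁, F₂⟩ := hs A I O hF
  refine ⟨p, hp, q, hq, hd, _, _, l₁, l₂, h₁, h₂, rfl, F₁, F₂, ?_⟩
  unfold cut
  rw [Bool.and_eq_true]
  exact ⟨ok_of _ _ _ F₁ _ al hal fun k => h₁.meas _ _ fun P hP => he k P (by simp [hP]),
    ok_of _ _ _ F₂ _ al hal fun k => h₂.meas _ _ fun P hP => he k P (by simp [hP])⟩

theorem second_of (al : Bool → ℝ≥0∞) (hal : ∀ k, (tot k : ℝ≥0∞) * beta = 6 * al k)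
    (A : Set E) (I O : Q → Bool) (hF : Fits A I O) (l : List (Set E)) (h : IP A l)
    (h3 : l.length = 3) (he : ∀ k, ∀ P ∈ l, mu k pts P = al k) : second I O = true := by
  obtain ⟨p, hp, q, hq, hd, A₁, A₂, l₁, l₂, h₁, h₂, rfl, -, -, hc⟩ :=
    step al hal A I O hF l h (by omega) he
  have e₁ := h₁.len
  have e₂ := h₂.len
  rw [List.length_append] at h3
  unfold second
  rw [List.any_eq_true]
  refine ⟨p, hp, ?_⟩
  rw [List.any_eq_true]
  refine ⟨q, hq, ?_⟩
  rw [hd, Bool.true_and, Bool.or_eq_true]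
  rcases (by omega : (l₁.length = 1 ∧ l₂.length = 2) ∨ (l₁.length = 2 ∧ l₂.length = 1)) with
    ⟨a, b⟩ | ⟨a, b⟩
  · rw [a, b] at hc; exact Or.inl hc
  · rw [a, b] at hc; exact Or.inr hc

theorem main (L : List (Set E)) (hL : L.length = 6) (h : IP Set.univ L)
    (he : ∀ k, ∀ P ∈ L, ∀ R ∈ L, mu k pts P = mu k pts R) : False := by
  obtain ⟨P₀, hP₀⟩ : ∃ P, P ∈ L := List.exists_mem_of_length_pos (by omega)
  set al : Bool → ℝ≥0∞ := fun k => mu k pts P₀ with hal0
  have he' : ∀ k, ∀ P ∈ L, mu k pts P = al k := fun k P hP => he k P hP P₀ hP₀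
  have hal : ∀ k, (tot k : ℝ≥0∞) * beta = 6 * al k := by
    intro k
    rw [← mu_univ, h.meas _ _ (he' k), hL]; norm_num
  have hF : Fits Set.univ (fun _ => true) (fun _ => false) := ⟨by simp, by simp⟩
  obtain ⟨p, hp, q, hq, hd, A₁, A₂, l₁, l₂, h₁, h₂, rfl, F₁, F₂, hc⟩ :=
    step al hal _ _ _ hF L h (by omega) he'
  have hg : good p q = true := by
    have := check
    rw [List.all_eq_true] at this
    have := this p hp
    rw [List.all_eq_true] at this
    exact this q hq
  have e₁ := h₁.len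
  have e₂ := h₂.len
  rw [List.length_append] at hL
  unfold good at hg
  rw [hd] at hg
  simp only [Bool.not_true, Bool.false_or, Bool.and_eq_true, Bool.or_eq_true,
    Bool.not_eq_true'] at hg
  obtain ⟨⟨⟨⟨g1, g2⟩, g4⟩, g5⟩, g3⟩ := hg
  rcases (by omega : (l₁.length = 1 ∧ l₂.length = 5) ∨ (l₁.length = 2 ∧ l₂.length = 4) ∨
      (l₁.length = 3 ∧ l₂.length = 3) ∨ (l₁.length = 4 ∧ l₂.length = 2) ∨
      (l₁.length = 5 ∧ l₂.length = 1)) with ⟨a, b⟩ | ⟨a, b⟩ | ⟨a, b⟩ | ⟨a, b⟩ | ⟨a, b⟩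
  · rw [a, b, g1] at hc; exact absurd hc (by simp)
  · rw [a, b, g2] at hc; exact absurd hc (by simp)
  · have s₁ := second_of al hal A₁ _ _ F₁ l₁ h₁ a fun k P hP => he' k P (by simp [hP])
    have s₂ := second_of al hal A₂ _ _ F₂ l₂ h₂ b fun k P hP => he' k P (by simp [hP])
    rw [a, b] at hc
    rcases g3 with (g | g) | g
    · rw [hc] at g; exact absurd g (by simp)
    · simp only [Bool.true_and, Bool.false_or] at s₁ g
      rw [s₁] at g; exact absurd g (by simp)
    · simp only [Bool.true_and, Bool.false_or] at s₂ g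
      rw [s₂] at g; exact absurd g (by simp)
  · rw [a, b, g4] at hc; exact absurd hc (by simp)
  · rw [a, b, g5] at hc; exact absurd hc (by simp)

end Pool.Agent.H13.Fair
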