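import Mathlib

set_option autoImplicit false
open MeasureTheory Set
open scoped ENNReal

namespace Pool.Agent.H13.Fan

abbrev E := EuclideanSpace ℝ (Fin 2)

noncomputable def eps : ℝ := 1 / 100000000

noncomputable def ctr (q : ℤ × ℤ) : E := !₂[(q.1 : ℝ), (q.2 : ℝ)]

def bl (q : ℤ × ℤ) : Set E := Metric.ball (ctr q) eps

theorem bl_coord (q : ℤ × ℤ) (x : E) (hx : x ∈ bl q) :
    |x 0 - q.1| ≤ eps ∧ |x 1 - q.2| ≤ eps := by
  have h1 : ‖x - ctr q‖ < eps := by simpa [bl, dist_eq_norm] using hx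
  have h2 := PiLp.norm_apply_le (x - ctr q) 0
  have h3 := PiLp.norm_apply_le (x - ctr q) 1
  simp only [ctr, PiLp.sub_apply, Real.norm_eq_abs] at h2 h3
  simp only [ctr] at h1
  exact ⟨(lt_of_le_of_lt (by simpa using h2) h1).le, (lt_of_le_of_lt (by simpa using h3) h1).le⟩

noncomputable def beta : ℝ≥0∞ := volume (Metric.ball (0 : E) eps)

theorem vol_bl (q : ℤ × ℤ) : volume (bl q) = beta := Measure.addHaar_ball_center _ _ _

theorem beta_pos : beta ≠ 0 :=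
  (Metric.measure_ball_pos _ _ (by unfold eps; norm_num)).ne'

theorem beta_fin : beta ≠ ⊤ := measure_ball_lt_top.ne

noncomputable def mu (n : ℕ) (c : Fin n → ℤ × ℤ) : Measure E :=
  ∑ i, ((n : ℝ≥0∞)⁻¹ * beta⁻¹) • (volume : Measure E).restrict (bl (c i))

theorem mu_apply (n : ℕ) (c : Fin n → ℤ × ℤ) (S : Set E) :
    mu n c S = ∑ i, (n : ℝ≥0∞)⁻¹ * beta⁻¹ * volume (S ∩ bl (c i)) := by
  unfold mu
  rw [Measure.finsetSum_apply]
  refine Finset.sum_congr rfl fun i _ => ?_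
  have : MeasurableSet (bl (c i)) := measurableSet_ball
  rw [Measure.smul_apply, Measure.restrict_apply' this, smul_eq_mul]

theorem mu_prob (n : ℕ) (hn : n ≠ 0) (c : Fin n → ℤ × ℤ) : IsProbabilityMeasure (mu n c) := by
  constructor
  rw [mu_apply]
  simp only [univ_inter, vol_bl, mul_assoc, ENNReal.inv_mul_cancel beta_pos beta_fin, mul_one,
    Finset.sum_const, Finset.card_univ, Fintype.card_fin, nsmul_eq_mul]
  exact ENNReal.mul_inv_cancel (by exact_mod_cast hn) (by simp)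

theorem mu_ac (n : ℕ) (c : Fin n → ℤ × ℤ) : mu n c ≪ (volume : Measure E) := by
  intro S hS
  rw [mu_apply]
  refine Finset.sum_eq_zero fun i _ => ?_
  rw [measure_mono_null inter_subset_left hS, mul_zero]

theorem two_of (n : ℕ) (c : Fin n → ℤ × ℤ) (S : Set E) (h : (n : ℝ≥0∞)⁻¹ < mu n c S) :
    ∃ i j, i ≠ j ∧ (S ∩ bl (c i)).Nonempty ∧ (S ∩ bl (c j)).Nonempty := by
  by_contra hc
  push Not at hc
  apply absurd h
  rw [not_lt, mu_apply]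
  by_cases h0 : ∃ i, (S ∩ bl (c i)).Nonempty
  · obtain ⟨i, hi⟩ := h0
    rw [Finset.sum_eq_single i]
    · calc _ ≤ (n : ℝ≥0∞)⁻¹ * beta⁻¹ * volume (bl (c i)) := by
            gcongr; exact inter_subset_right
        _ = _ := by rw [vol_bl, mul_assoc, ENNReal.inv_mul_cancel beta_pos beta_fin, mul_one]
    · intro j _ hj
      rw [hc i j hj.symm hi]; simp
    · simp
  · push Not at h0
    simp [h0]

def AA : Fin 3 → ℤ × ℤ := ![(0, 0), (-5, -3), (4, -4)]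
def BB : Fin 7 → ℤ × ℤ := ![(-3, 14), (-2, 9), (-1, 6), (0, 5), (1, 7), (2, 10), (3, 13)]

def det (p q r : ℤ × ℤ) : ℤ := (q.1 - p.1) * (r.2 - p.2) - (q.2 - p.2) * (r.1 - p.1)

theorem gen : ∀ i : Fin 3, ∀ j k : Fin 7, j ≠ k → det (AA i) (BB j) (BB k) ≠ 0 := by decide

theorem wide : ∀ i j k : Fin 3, i ≠ j → i ≠ k → j ≠ k → ∀ l : Fin 7,
    det (AA i) (AA j) (AA k) < 0 ∨ det (AA i) (AA j) (BB l) < 0 ∨ det (AA i) (BB l) (AA k) < 0 := by
  decide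

theorem bdAB : ∀ i : Fin 3, ∀ j : Fin 7, |(BB j).1 - (AA i).1| ≤ 20 ∧ |(BB j).2 - (AA i).2| ≤ 20 := by
  decide

theorem bdAA : ∀ i j : Fin 3, |(AA j).1 - (AA i).1| ≤ 20 ∧ |(AA j).2 - (AA i).2| ≤ 20 := by
  decide

theorem sepA : ∀ i j : Fin 3, i ≠ j → 1 ≤ |(AA j).1 - (AA i).1| := by decide

def cr (u v s t : ℝ) : ℝ := u * t - v * s

theorem cr_le (u v s t m n : ℝ) (h1 : |u| ≤ m) (h2 : |v| ≤ m) (h3 : |s| ≤ n) (h4 : |t| ≤ n) :
    |cr u v s t| ≤ 2 * (m * n) := by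
  have hm : 0 ≤ m := (abs_nonneg _).trans h1
  have a : |u * t| ≤ m * n := by rw [abs_mul]; gcongr
  have b : |v * s| ≤ m * n := by rw [abs_mul]; gcongr
  have := abs_sub (u * t) (v * s)
  unfold cr; linarith

theorem pert (u v s t u' v' s' t' : ℝ) (h1 : |u| ≤ 20) (h2 : |v| ≤ 20) (h3 : |s| ≤ 20)
    (h4 : |t| ≤ 20) (k1 : |u' - u| ≤ 1 / 100) (k2 : |v' - v| ≤ 1 / 100) (k3 : |s' - s| ≤ 1 / 100)
    (k4 : |t' - t| ≤ 1 / 100) (h : cr u v s t ≤ -1) : cr u' v' s' t' < 0 := by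
  have e : cr u' v' s' t' = cr u v s t + cr (u' - u) (v' - v) s t + cr u v (s' - s) (t' - t) +
      cr (u' - u) (v' - v) (s' - s) (t' - t) := by unfold cr; ring
  have a := abs_le.mp (cr_le _ _ _ _ _ _ k1 k2 h3 h4)
  have b := abs_le.mp (cr_le _ _ _ _ _ _ h1 h2 k3 k4)
  have c := abs_le.mp (cr_le _ _ _ _ _ _ k1 k2 k3 k4)
  rw [e]; linarith [a.2, b.2, c.2]

theorem thin1 (u v m e1 e2 f1 f2 g1 g2 s t : ℝ) (hu : |u| ≤ m) (hv : |v| ≤ m) (hm : 1 / 200 ≤ m)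
    (he1 : |e1| ≤ eps) (he2 : |e2| ≤ eps) (hf1 : |f1| ≤ eps) (hf2 : |f2| ≤ eps)
    (hg1 : |g1| ≤ eps) (hg2 : |g2| ≤ eps) (hs : |s| ≤ 20) (ht : |t| ≤ 20)
    (c1 : 0 ≤ cr (u + e1) (v + e2) (u + s + g1) (v + t + g2))
    (c2 : 0 ≤ cr (u + s + g1) (v + t + g2) (u + f1) (v + f2)) :
    |cr u v s t| ≤ m / 1000 := by
  have r : eps ≤ 1 := by unfold eps; norm_num
  have y1 : |u + s + g1| ≤ 4201 * m := by
    have := abs_add_three u s g1
    linarith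
  have y2 : |v + t + g2| ≤ 4201 * m := by
    have := abs_add_three v t g2
    linarith
  have a := abs_le.mp (cr_le _ _ _ _ _ _ he1 he2 y1 y2)
  have b := abs_le.mp (cr_le _ _ _ _ _ _ hf1 hf2 y1 y2)
  have c := abs_le.mp (cr_le _ _ _ _ _ _ hu hv hg1 hg2)
  have e1' : cr (u + e1) (v + e2) (u + s + g1) (v + t + g2) =
      cr u v s t + cr u v g1 g2 + cr e1 e2 (u + s + g1) (v + t + g2) := by unfold cr; ring
  have e2' : cr (u + s + g1) (v + t + g2) (u + f1) (v + f2) =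
      -cr u v s t - cr u v g1 g2 - cr f1 f2 (u + s + g1) (v + t + g2) := by unfold cr; ring
  rw [e1'] at c1
  rw [e2'] at c2
  unfold eps at a b c
  rw [abs_le]
  constructor <;> linarith [a.1, a.2, b.1, b.2, c.1, c.2]

theorem thin2 (u v m s t s' t' : ℝ) (hm : 0 < m) (hmax : |u| = m ∨ |v| = m)
    (hs : |s| ≤ 20) (ht : |t| ≤ 20) (hs' : |s'| ≤ 20) (ht' : |t'| ≤ 20)
    (c1 : |cr u v s t| ≤ m / 1000) (c2 : |cr u v s' t'| ≤ m / 1000) : |cr s t s' t'| < 1 := by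
  have key : ∀ w a b : ℝ, |w| = m → |a| ≤ 20 → |b| ≤ 20 →
      cr s t s' t' * w = cr u v s' t' * a - cr u v s t * b → |cr s t s' t'| < 1 := by
    intro w a b hw ha hb e
    have h1 : |cr u v s' t' * a| ≤ m / 1000 * 20 := by rw [abs_mul]; gcongr
    have h2 : |cr u v s t * b| ≤ m / 1000 * 20 := by rw [abs_mul]; gcongr
    have h3 := abs_sub (cr u v s' t' * a) (cr u v s t * b)
    rw [← e, abs_mul, hw] at h3
    nlinarith
  rcases hmax with h | h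
  · exact key u s s' h hs hs' (by unfold cr; ring)
  · exact key v t t' h ht ht' (by unfold cr; ring)

def Wedge (x p q : E) (T : Set E) : Prop :=
  0 ≤ cr (p 0 - x 0) (p 1 - x 1) (q 0 - x 0) (q 1 - x 1) ∧
  ∀ y ∈ T, 0 ≤ cr (p 0 - x 0) (p 1 - x 1) (y 0 - x 0) (y 1 - x 1) ∧
    0 ≤ cr (y 0 - x 0) (y 1 - x 1) (q 0 - x 0) (q 1 - x 1)

def Near (x : E) (i : Fin 3) : Prop :=
  |x 0 - (AA i).1| ≤ 1 / 200 ∧ |x 1 - (AA i).2| ≤ 1 / 200

theorem thin (x p q : E) (T : Set E) (i : Fin 3) (hp : p ∈ bl (AA i)) (hq : q ∈ bl (AA i))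
    (hx : ¬ Near x i) (hW : Wedge x p q T) (hT : ((7 : ℕ) : ℝ≥0∞)⁻¹ < mu 7 BB T) : False := by
  obtain ⟨j, k, hjk, ⟨y, hy, hyj⟩, ⟨z, hz, hzk⟩⟩ := two_of 7 BB T hT
  set u : ℝ := (AA i).1 - x 0 with hu
  set v : ℝ := (AA i).2 - x 1 with hv
  set m : ℝ := max |u| |v| with hm
  have hm1 : 1 / 200 ≤ m := by
    by_contra hc
    push Not at hc
    apply hx
    constructor
    · rw [abs_sub_comm]; exact ((le_max_left _ _).trans hc.le)
    · rw [abs_sub_comm]; exact ((le_max_right _ _).trans hc.le)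
  have one : ∀ (l : Fin 7) (w : E), w ∈ T → w ∈ bl (BB l) →
      |cr u v (((BB l).1 : ℝ) - (AA i).1) (((BB l).2 : ℝ) - (AA i).2)| ≤ m / 1000 := by
    intro l w hw hwl
    obtain ⟨c1, c2⟩ := hW.2 w hw
    refine thin1 u v m (p 0 - (AA i).1) (p 1 - (AA i).2) (q 0 - (AA i).1) (q 1 - (AA i).2)
      (w 0 - (BB l).1) (w 1 - (BB l).2) _ _ (le_max_left _ _) (le_max_right _ _) hm1
      (bl_coord _ _ hp).1 (bl_coord _ _ hp).2 (bl_coord _ _ hq).1 (bl_coord _ _ hq).2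
      (bl_coord _ _ hwl).1 (bl_coord _ _ hwl).2 (by exact_mod_cast (bdAB i l).1)
      (by exact_mod_cast (bdAB i l).2) ?_ ?_
    · convert c1 using 2 <;> simp only [hu, hv] <;> ring
    · convert c2 using 2 <;> simp only [hu, hv] <;> ring
  have h := thin2 u v m _ _ _ _ (by linarith) ((max_choice |u| |v|).imp Eq.symm Eq.symm)
    (by exact_mod_cast (bdAB i j).1) (by exact_mod_cast (bdAB i j).2)
    (by exact_mod_cast (bdAB i k).1) (by exact_mod_cast (bdAB i k).2) (one j y hy hyj)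
    (one k z hz hzk)
  have h1 : (1 : ℝ) ≤ |(det (AA i) (BB j) (BB k) : ℝ)| := by
    exact_mod_cast Int.one_le_abs (gen i j k hjk)
  unfold det at h1
  unfold cr at h
  push_cast at h1
  linarith

theorem close (a c w x : ℝ) (h1 : |w - c| ≤ eps) (h2 : |x - a| ≤ 1 / 200) :
    |w - x - (c - a)| ≤ 1 / 100 := by
  have r : eps ≤ 1 / 200 := by unfold eps; norm_num
  rw [abs_le] at *
  constructor <;> linarith [h1.1, h1.2, h2.1, h2.2]

theorem pert' (x w z : E) (i : Fin 3) (c d : ℤ × ℤ) (hx : Near x i) (hw : w ∈ bl c) (hz : z ∈ bl d)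
    (hc : |c.1 - (AA i).1| ≤ 20 ∧ |c.2 - (AA i).2| ≤ 20)
    (hd : |d.1 - (AA i).1| ≤ 20 ∧ |d.2 - (AA i).2| ≤ 20) (h : det (AA i) c d < 0) :
    cr (w 0 - x 0) (w 1 - x 1) (z 0 - x 0) (z 1 - x 1) < 0 := by
  refine pert ((c.1 : ℝ) - (AA i).1) ((c.2 : ℝ) - (AA i).2) ((d.1 : ℝ) - (AA i).1)
    ((d.2 : ℝ) - (AA i).2) _ _ _ _ (by exact_mod_cast hc.1) (by exact_mod_cast hc.2)
    (by exact_mod_cast hd.1) (by exact_mod_cast hd.2)
    (close _ _ _ _ (bl_coord _ _ hw).1 hx.1) (close _ _ _ _ (bl_coord _ _ hw).2 hx.2)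
    (close _ _ _ _ (bl_coord _ _ hz).1 hx.1) (close _ _ _ _ (bl_coord _ _ hz).2 hx.2) ?_
  have : det (AA i) c d ≤ -1 := by omega
  unfold det at this
  unfold cr
  exact_mod_cast this

theorem fat (x p q : E) (T : Set E) (i j k : Fin 3) (hij : i ≠ j) (hik : i ≠ k) (hjk : j ≠ k)
    (hp : p ∈ bl (AA j)) (hq : q ∈ bl (AA k)) (hx : Near x i) (hW : Wedge x p q T)
    (hT : ((7 : ℕ) : ℝ≥0∞)⁻¹ < mu 7 BB T) : False := by
  obtain ⟨l, -, -, ⟨y, hy, hyl⟩, -⟩ := two_of 7 BB T hT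
  rcases wide i j k hij hik hjk l with h | h | h
  · exact absurd hW.1 (not_le.mpr (pert' x p q i _ _ hx hp hq (bdAA i j) (bdAA i k) h))
  · exact absurd (hW.2 y hy).1 (not_le.mpr (pert' x p y i _ _ hx hp hyl (bdAA i j) (bdAB i l) h))
  · exact absurd (hW.2 y hy).2 (not_le.mpr (pert' x y q i _ _ hx hyl hq (bdAB i l) (bdAA i k) h))

theorem near_unique (x : E) (i j : Fin 3) (hi : Near x i) (hj : Near x j) : i = j := by
  by_contra h
  have h1 : (1 : ℝ) ≤ |((AA j).1 : ℝ) - (AA i).1| := by exact_mod_cast sepA i j h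
  have a := abs_le.mp hi.1
  have b := abs_le.mp hj.1
  have : |((AA j).1 : ℝ) - (AA i).1| ≤ 1 / 100 := by
    rw [abs_le]; constructor <;> linarith [a.1, a.2, b.1, b.2]
  linarith

theorem pig : ∀ a b c d : Fin 3, a ≠ b → c ≠ d → a = c ∨ a = d ∨ b = c ∨ b = d := by decide

theorem main (x : E) (S₁ S₂ S₃ S₄ : Set E)
    (hW : ∀ p ∈ S₁, ∀ q ∈ S₃, Wedge x p q S₂ ∨ Wedge x q p S₄)
    (h1 : ((3 : ℕ) : ℝ≥0∞)⁻¹ < mu 3 AA S₁) (h3 : ((3 : ℕ) : ℝ≥0∞)⁻¹ < mu 3 AA S₃)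
    (h2 : ((7 : ℕ) : ℝ≥0∞)⁻¹ < mu 7 BB S₂) (h4 : ((7 : ℕ) : ℝ≥0∞)⁻¹ < mu 7 BB S₄) : False := by
  have th : ∀ i, (S₁ ∩ bl (AA i)).Nonempty → (S₃ ∩ bl (AA i)).Nonempty → Near x i := by
    rintro i ⟨p, hp, hpi⟩ ⟨q, hq, hqi⟩
    by_contra hx
    rcases hW p hp q hq with h | h
    · exact thin x p q _ i hpi hqi hx h h2
    · exact thin x q p _ i hqi hpi hx h h4
  obtain ⟨a, b, hab, ha, hb⟩ := two_of 3 AA S₁ h1
  obtain ⟨c, d, hcd, hc, hd⟩ := two_of 3 AA S₃ h3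
  obtain ⟨i, hi⟩ : ∃ i, Near x i := by
    rcases pig a b c d hab hcd with h | h | h | h <;> subst h
    · exact ⟨_, th _ ha hc⟩
    · exact ⟨_, th _ ha hd⟩
    · exact ⟨_, th _ hb hc⟩
    · exact ⟨_, th _ hb hd⟩
  obtain ⟨j, hij, hj⟩ : ∃ j, i ≠ j ∧ (S₁ ∩ bl (AA j)).Nonempty := by
    by_cases h : i = a
    · exact ⟨b, h ▸ hab, hb⟩
    · exact ⟨a, h, ha⟩
  obtain ⟨k, hik, hk⟩ : ∃ k, i ≠ k ∧ (S₃ ∩ bl (AA k)).Nonempty := by
    by_cases h : i = c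
    · exact ⟨d, h ▸ hcd, hd⟩
    · exact ⟨c, h, hc⟩
  have hjk : j ≠ k := by
    rintro rfl
    exact hij (near_unique x i j hi (th j hj hk))
  obtain ⟨p, hp, hpj⟩ := hj
  obtain ⟨q, hq, hqk⟩ := hk
  rcases hW p hp q hq with h | h
  · exact fat x p q _ i j k hij hik hjk hpj hqk hi h h2
  · exact fat x q p _ i k j hik hij hjk.symm hqk hpj hi h h4

theorem cr_polar (r s a b : ℝ) (hr : 0 ≤ r) (hs : 0 ≤ s) (h1 : a ≤ b) (h2 : b - a ≤ Real.pi) :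
    0 ≤ cr (r * Real.cos a) (r * Real.sin a) (s * Real.cos b) (s * Real.sin b) := by
  have : cr (r * Real.cos a) (r * Real.sin a) (s * Real.cos b) (s * Real.sin b) =
      r * s * Real.sin (b - a) := by unfold cr; rw [Real.sin_sub]; ring
  rw [this]
  exact mul_nonneg (mul_nonneg hr hs) (Real.sin_nonneg_of_nonneg_of_le_pi (by linarith) h2)

end Pool.Agent.H13.Fan
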