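import Pool.Agent.H13.GeoP4

set_option maxRecDepth 100000
set_option linter.defProp false

namespace Pool.Agent.H13.GeoP

def ce0 : CE0.all certB = true := by decide +kernel

def ce1 : CE1.all certB = true := by decide +kernel

def ce2 : CE2.all certB = true := by decide +kernel

def ce3 : CE3.all certB = true := by decide +kernel

def ce4 : CE4.all certB = true := by decide +kernel

end Pool.Agent.H13.GeoP
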