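import Pool.Agent.H13.GeoP4

set_option maxRecDepth 100000
set_option linter.defProp false

namespace Pool.Agent.H13.GeoP

def ce5 : CE5.all certB = true := by decide +kernel

def ce6 : CE6.all certB = true := by decide +kernel

def ce7 : CE7.all certB = true := by decide +kernel

def ce8 : CE8.all certB = true := by decide +kernel

def ce9 : CE9.all certB = true := by decide +kernel

end Pool.Agent.H13.GeoP
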