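import Mathlib

set_option linter.unusedVariables false
set_option linter.unusedSimpArgs false
set_option synthInstance.maxSize 100000
set_option synthInstance.maxHeartbeats 2000000
set_option maxRecDepth 100000

namespace Pool.Agent.H13.GeoK

variable {ι : Type*}

def o (a b c : ℝ × ℝ) : ℝ := (b.1 - a.1) * (c.2 - a.2) - (b.2 - a.2) * (c.1 - a.1)

noncomputable def c (P : ι → ℝ × ℝ) (i j k : ι) : Bool := decide (0 < o (P i) (P j) (P k))

def GP (P : ι → ℝ × ℝ) : Prop := ∀ i j k, i ≠ j → i ≠ k → j ≠ k → o (P i) (P j) (P k) ≠ 0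

def X (P : ι → ℝ × ℝ) (x y u v : ι) : Prop :=
  o (P x) (P y) (P u) * o (P x) (P y) (P v) < 0 ∧ o (P u) (P v) (P x) * o (P u) (P v) (P y) < 0

def Sub (P Q : ι → ℝ × ℝ) : Prop := ∀ x y u v, X P x y u v → X Q x y u v

def N (P : ι → ℝ × ℝ) (x : ι) : Prop :=
  ∀ i j k, ¬ (0 < o (P x) (P i) (P j) ∧ 0 < o (P x) (P j) (P k) ∧ 0 < o (P x) (P k) (P i))

def acyB (a b c d : Bool) : Bool := (!(a && (!b) && c && (!d))) && (!((!a) && b && (!c) && d))
def gpB (a b c d e f : Bool) : Bool :=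
  (!((a == b) && (c != d) && (e == f))) && (!((a != b) && (c == d) && (e != f)))
def crB (a0 a1 a2 a3 b0 b1 b2 b3 : Bool) : Bool :=
  ((!((a0 == a2) && (a1 == a3))) || ((b0 == b2) && (b1 == b3))) &&
  ((!((a0 != a1) && (a2 != a3))) || ((b0 != b1) && (b2 != b3))) &&
  ((!((a1 != a2) && (a0 != a3))) || ((b1 != b2) && (b0 != b3)))
def ninB0 (x y z w : Bool) : Bool := !((x == (!y)) && ((!y) == z) && (z != (!w)))
def ninB1 (x y z w : Bool) : Bool := !((x == (!y)) && ((!y) == (!w)) && ((!w) != z))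
def ninB2 (x y z w : Bool) : Bool := !((x == z) && (z == (!w)) && ((!w) != (!y)))
def ninB3 (x y z w : Bool) : Bool := !(((!y) == z) && (z == (!w)) && ((!w) != x))

theorem acy (P : ι → ℝ × ℝ) (i j k l : ι) :
    acyB (c P i j k) (c P i j l) (c P i k l) (c P j k l) = true := by
  have h : o (P i) (P j) (P k) - o (P i) (P j) (P l) + o (P i) (P k) (P l) - o (P j) (P k) (P l) = 0 := by
    unfold o; ring
  unfold acyB c
  by_cases h1 : 0 < o (P i) (P j) (P k) <;> by_cases h2 : 0 < o (P i) (P j) (P l) <;>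
    by_cases h3 : 0 < o (P i) (P k) (P l) <;> by_cases h4 : 0 < o (P j) (P k) (P l) <;>
    simp only [h1, h2, h3, h4, decide_true, decide_false] <;> first | rfl | (exfalso; linarith)

theorem mp {a b : ℝ} (ha : a ≠ 0) (hb : b ≠ 0) :
    (0 < a * b ↔ (decide (0 < a) == decide (0 < b)) = true) ∧
    (a * b < 0 ↔ (decide (0 < a) != decide (0 < b)) = true) := by
  rcases lt_or_gt_of_ne ha with h1 | h1 <;> rcases lt_or_gt_of_ne hb with h2 | h2
  · simp [not_lt.2 h1.le, not_lt.2 h2.le, mul_pos_of_neg_of_neg h1 h2, (mul_pos_of_neg_of_neg h1 h2).le]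
  · simp [not_lt.2 h1.le, h2, mul_neg_of_neg_of_pos h1 h2, (mul_neg_of_neg_of_pos h1 h2).le]
  · simp [not_lt.2 h2.le, h1, mul_neg_of_pos_of_neg h1 h2, (mul_neg_of_pos_of_neg h1 h2).le]
  · simp [h1, h2, (mul_pos h1 h2).le]

theorem gpR {a b c d e f : ℝ} (h : a * b - c * d + e * f = 0) (ha : a ≠ 0) (hb : b ≠ 0) (hc : c ≠ 0)
    (hd : d ≠ 0) (he : e ≠ 0) (hf : f ≠ 0) :
    gpB (decide (0 < a)) (decide (0 < b)) (decide (0 < c)) (decide (0 < d)) (decide (0 < e))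
      (decide (0 < f)) = true := by
  have h1 := mp ha hb
  have h2 := mp hc hd
  have h3 := mp he hf
  simp only [gpB, Bool.and_eq_true, Bool.not_eq_true', Bool.eq_false_iff, ne_eq, ← h1.1, ← h1.2, ← h2.1,
    ← h2.2, ← h3.1, ← h3.2]
  constructor <;> rintro ⟨⟨u, v⟩, w⟩ <;> linarith

section
variable {P Q : ι → ℝ × ℝ} {i j k l m x : ι}

theorem gp0 (hP : GP P) (h01 : i ≠ j) (h02 : i ≠ k) (h03 : i ≠ l) (h04 : i ≠ m) (h12 : j ≠ k) (h13 : j ≠ l) (h14 : j ≠ m) (h23 : k ≠ l) (h24 : k ≠ m) (h34 : l ≠ m) :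
    gpB (c P i j k) (c P i l m) (c P i j l) (c P i k m) (c P i j m) (c P i k l) = true :=
  gpR (by unfold o; ring) (hP _ _ _ h01 h02 h12) (hP _ _ _ h03 h04 h34) (hP _ _ _ h01 h03 h13) (hP _ _ _ h02 h04 h24) (hP _ _ _ h01 h04 h14) (hP _ _ _ h02 h03 h23)

theorem gp1 (hP : GP P) (h01 : i ≠ j) (h02 : i ≠ k) (h03 : i ≠ l) (h04 : i ≠ m) (h12 : j ≠ k) (h13 : j ≠ l) (h14 : j ≠ m) (h23 : k ≠ l) (h24 : k ≠ m) (h34 : l ≠ m) :
    gpB (c P i j k) (c P j l m) (c P i j l) (c P j k m) (c P i j m) (c P j k l) = true :=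
  gpR (by unfold o; ring) (hP _ _ _ h01 h02 h12) (hP _ _ _ h13 h14 h34) (hP _ _ _ h01 h03 h13) (hP _ _ _ h12 h14 h24) (hP _ _ _ h01 h04 h14) (hP _ _ _ h12 h13 h23)

theorem gp2 (hP : GP P) (h01 : i ≠ j) (h02 : i ≠ k) (h03 : i ≠ l) (h04 : i ≠ m) (h12 : j ≠ k) (h13 : j ≠ l) (h14 : j ≠ m) (h23 : k ≠ l) (h24 : k ≠ m) (h34 : l ≠ m) :
    gpB (c P i j k) (c P k l m) (c P i k l) (c P j k m) (c P i k m) (c P j k l) = true :=
  gpR (by unfold o; ring) (hP _ _ _ h01 h02 h12) (hP _ _ _ h23 h24 h34) (hP _ _ _ h02 h03 h23) (hP _ _ _ h12 h14 h24) (hP _ _ _ h02 h04 h24) (hP _ _ _ h12 h13 h23)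

theorem gp3 (hP : GP P) (h01 : i ≠ j) (h02 : i ≠ k) (h03 : i ≠ l) (h04 : i ≠ m) (h12 : j ≠ k) (h13 : j ≠ l) (h14 : j ≠ m) (h23 : k ≠ l) (h24 : k ≠ m) (h34 : l ≠ m) :
    gpB (c P i j l) (c P k l m) (c P i k l) (c P j l m) (c P i l m) (c P j k l) = true :=
  gpR (by unfold o; ring) (hP _ _ _ h01 h03 h13) (hP _ _ _ h23 h24 h34) (hP _ _ _ h02 h03 h23) (hP _ _ _ h13 h14 h34) (hP _ _ _ h03 h04 h34) (hP _ _ _ h12 h13 h23)

theorem gp4 (hP : GP P) (h01 : i ≠ j) (h02 : i ≠ k) (h03 : i ≠ l) (h04 : i ≠ m) (h12 : j ≠ k) (h13 : j ≠ l) (h14 : j ≠ m) (h23 : k ≠ l) (h24 : k ≠ m) (h34 : l ≠ m) :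
    gpB (c P i j m) (c P k l m) (c P i k m) (c P j l m) (c P i l m) (c P j k m) = true :=
  gpR (by unfold o; ring) (hP _ _ _ h01 h04 h14) (hP _ _ _ h23 h24 h34) (hP _ _ _ h02 h04 h24) (hP _ _ _ h13 h14 h34) (hP _ _ _ h03 h04 h34) (hP _ _ _ h12 h14 h24)

theorem c_rot (P : ι → ℝ × ℝ) (i j k : ι) : c P i j k = c P j k i := by
  unfold c; congr 2; unfold o; ring

theorem c_swap (hP : GP P) (h01 : i ≠ j) (h02 : i ≠ k) (h12 : j ≠ k) : c P i k j = !c P i j k := by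
  have e : o (P i) (P k) (P j) = - o (P i) (P j) (P k) := by unfold o; ring
  have := hP i j k h01 h02 h12
  unfold c; rw [e]
  rcases lt_or_gt_of_ne this with h | h
  · simp [h, not_lt.2 h.le]
  · simp [h, h.le]

theorem X_iff (hP : GP P) (h01 : i ≠ j) (h02 : i ≠ k) (h03 : i ≠ l) (h12 : j ≠ k) (h13 : j ≠ l)
    (h23 : k ≠ l) : X P i j k l ↔ ((c P i j k != c P i j l) && (c P i k l != c P j k l)) = true := by
  rw [c_rot P i k l, c_rot P j k l, Bool.and_eq_true]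
  exact and_congr (mp (hP _ _ _ h01 h02 h12) (hP _ _ _ h01 h03 h13)).2
    (mp (hP _ _ _ h23 h02.symm h03.symm) (hP _ _ _ h23 h12.symm h13.symm)).2

theorem X2 (hP : GP P) (h01 : i ≠ j) (h02 : i ≠ k) (h03 : i ≠ l) (h12 : j ≠ k) (h13 : j ≠ l)
    (h23 : k ≠ l) : X P i k j l ↔ ((c P i j k == c P i k l) && (c P i j l == c P j k l)) = true := by
  rw [X_iff hP h02 h01 h03 h12.symm h23 h13, c_swap hP h01 h02 h12, c_rot P k j l, c_swap hP h13 h12 h23.symm,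
    c_swap hP h12 h13 h23]
  cases c P i j k <;> cases c P i k l <;> cases c P i j l <;> cases c P j k l <;> simp

theorem X3 (hP : GP P) (h01 : i ≠ j) (h02 : i ≠ k) (h03 : i ≠ l) (h12 : j ≠ k) (h13 : j ≠ l)
    (h23 : k ≠ l) : X P i l j k ↔ ((c P i j l != c P i k l) && (c P i j k != c P j k l)) = true := by
  rw [X_iff hP h03 h01 h02 h13.symm h23.symm h12, c_swap hP h01 h03 h13, c_swap hP h02 h03 h23, c_rot P l j k]
  cases c P i j k <;> cases c P i k l <;> cases c P i j l <;> cases c P j k l <;> simp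

theorem cr (hP : GP P) (hQ : GP Q) (H : Sub P Q) (h01 : i ≠ j) (h02 : i ≠ k) (h03 : i ≠ l) (h12 : j ≠ k)
    (h13 : j ≠ l) (h23 : k ≠ l) : crB (c P i j k) (c P i j l) (c P i k l) (c P j k l)
      (c Q i j k) (c Q i j l) (c Q i k l) (c Q j k l) = true := by
  have a := H i j k l
  have b := H i k j l
  have d := H i l j k
  rw [X_iff hP h01 h02 h03 h12 h13 h23, X_iff hQ h01 h02 h03 h12 h13 h23] at a
  rw [X2 hP h01 h02 h03 h12 h13 h23, X2 hQ h01 h02 h03 h12 h13 h23] at b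
  rw [X3 hP h01 h02 h03 h12 h13 h23, X3 hQ h01 h02 h03 h12 h13 h23] at d
  unfold crB
  simp only [Bool.and_eq_true, Bool.or_eq_true, Bool.not_eq_true', Bool.eq_false_iff, ne_eq] at *
  exact ⟨⟨imp_iff_not_or.1 b, imp_iff_not_or.1 a⟩, imp_iff_not_or.1 d⟩

theorem N_c (n : N P x) (i j k : ι) : ¬ (c P x i j = true ∧ c P x j k = true ∧ c P x k i = true) := by
  simpa [c] using fun a b => not_lt.1 fun d => n i j k ⟨a, b, d⟩

theorem nin0 (hP : GP P) (n : N P i) (h01 : i ≠ j) (h02 : i ≠ k) (h03 : i ≠ l) (h12 : j ≠ k)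
    (h13 : j ≠ l) (h23 : k ≠ l) : ninB0 (c P i j k) (c P i j l) (c P i k l) (c P j k l) = true := by
  have a := N_c n j k l
  have b := N_c n j l k
  have d := acy P i j k l
  rw [c_swap hP h01 h03 h13] at a
  rw [c_swap hP h02 h03 h23, c_swap hP h01 h02 h12] at b
  revert a b d
  cases c P i j k <;> cases c P i k l <;> cases c P i j l <;> cases c P j k l <;> decide

theorem nin1 (hP : GP P) (n : N P j) (h01 : i ≠ j) (h02 : i ≠ k) (h03 : i ≠ l) (h12 : j ≠ k)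
    (h13 : j ≠ l) (h23 : k ≠ l) : ninB1 (c P i j k) (c P i j l) (c P i k l) (c P j k l) = true := by
  have a := N_c n i k l
  have b := N_c n i l k
  rw [c_rot P j i k, c_swap hP h01 h02 h12, ← c_rot P i j l] at a
  rw [c_rot P j i l, c_swap hP h01 h03 h13, ← c_rot P i j k, c_swap hP h12 h13 h23] at b
  revert a b
  cases c P i j k <;> cases c P i k l <;> cases c P i j l <;> cases c P j k l <;> decide

theorem nin2 (hP : GP P) (n : N P k) (h01 : i ≠ j) (h02 : i ≠ k) (h03 : i ≠ l) (h12 : j ≠ k)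
    (h13 : j ≠ l) (h23 : k ≠ l) : ninB2 (c P i j k) (c P i j l) (c P i k l) (c P j k l) = true := by
  have a := N_c n i j l
  have b := N_c n i l j
  rw [c_rot P k i j, c_rot P k j l, c_swap hP h12 h13 h23, ← c_rot P i k l] at a
  rw [c_rot P k i l, c_swap hP h02 h03 h23, ← c_rot P j k l, ← c_rot P i k j, c_swap hP h01 h02 h12] at b
  revert a b
  cases c P i j k <;> cases c P i k l <;> cases c P i j l <;> cases c P j k l <;> decide

theorem nin3 (hP : GP P) (n : N P l) (h01 : i ≠ j) (h02 : i ≠ k) (h03 : i ≠ l) (h12 : j ≠ k)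
    (h13 : j ≠ l) (h23 : k ≠ l) : ninB3 (c P i j k) (c P i j l) (c P i k l) (c P j k l) = true := by
  have a := N_c n i j k
  have b := N_c n i k j
  rw [c_rot P l i j, c_rot P l j k, ← c_rot P i l k, c_swap hP h02 h03 h23] at a
  rw [c_rot P l i k, c_rot P l k j, c_rot P k j l, c_swap hP h12 h13 h23, ← c_rot P i l j,
    c_swap hP h01 h03 h13] at b
  revert a b
  cases c P i j k <;> cases c P i k l <;> cases c P i j l <;> cases c P j k l <;> decide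

end

theorem oppB : ∀ a012 : Bool, ∀ a013 : Bool, ((a012 != a013)) = true →
    ∀ a023 : Bool, ∀ a123 : Bool, (ninB0 a012 a013 a023 a123) = true →
    (ninB1 a012 a013 a023 a123) = true →
    ∀ b123 : Bool, ∀ b012 : Bool, ∀ b013 : Bool, ∀ b023 : Bool, (!((b012 != b013) && (b023 != b123))) = true →
    (crB a012 a013 a023 a123 b012 b013 b023 b123) = true →
    False := by
  decide +kernel

theorem opp {P Q : ι → ℝ × ℝ} (hP : GP P) (hQ : GP Q) (H : Sub P Q) {i0 i1 i2 i3 : ι}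
    (h01 : i0 ≠ i1) (h02 : i0 ≠ i2) (h03 : i0 ≠ i3) (h12 : i1 ≠ i2) (h13 : i1 ≠ i3) (h23 : i2 ≠ i3)
    (na0 : N P i0) (na1 : N P i1) 
    (k0 : ((c P i0 i1 i2 != c P i0 i1 i3)) = true)
    : ((c Q i0 i1 i2 != c Q i0 i1 i3) && (c Q i0 i2 i3 != c Q i1 i2 i3)) = true := by
  by_contra hc
  rw [Bool.not_eq_true, ← Bool.not_eq_true'] at hc
  exact oppB _ _ (k0) _ _ (nin0 hP na0 h01 h02 h03 h12 h13 h23) (nin1 hP na1 h01 h02 h03 h12 h13 h23) _ _ _ _ (hc) (cr hP hQ H h01 h02 h03 h12 h13 h23)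

theorem diagB : ∀ a023 : Bool, ∀ a012 : Bool, ∀ a013 : Bool, (!((a012 != a013) || (a012 == a023) || (a013 != a023))) = true →
    False := by
  decide +kernel

theorem diag {P Q : ι → ℝ × ℝ} (hP : GP P) (hQ : GP Q) (H : Sub P Q) {i0 i1 i2 i3 : ι}
    (h01 : i0 ≠ i1) (h02 : i0 ≠ i2) (h03 : i0 ≠ i3) (h12 : i1 ≠ i2) (h13 : i1 ≠ i3) (h23 : i2 ≠ i3)
    (na0 : N P i0) (na1 : N P i1) (na2 : N P i2) (na3 : N P i3) 
    : ((c P i0 i1 i2 != c P i0 i1 i3) || (c P i0 i1 i2 == c P i0 i2 i3) || (c P i0 i1 i3 != c P i0 i2 i3)) = true := by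
  by_contra hc
  rw [Bool.not_eq_true, ← Bool.not_eq_true'] at hc
  exact diagB _ _ _ (hc)

theorem m1B : ∀ a123 : Bool, ∀ e : Bool, ∀ b123 : Bool, (!(((a123 == b123) == e))) = true →
    ∀ b023 : Bool, ∀ a023 : Bool, (((a023 == b023) == e)) = true →
    ∀ a013 : Bool, ∀ a012 : Bool, (ninB0 a012 a013 a023 a123) = true →
    (ninB1 a012 a013 a023 a123) = true →
    (ninB2 a012 a013 a023 a123) = true →
    (ninB3 a012 a013 a023 a123) = true →
    ∀ b013 : Bool, ∀ b012 : Bool, (acyB b012 b013 b023 b123) = true →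
    (crB a012 a013 a023 a123 b012 b013 b023 b123) = true →
    False := by
  decide +kernel

theorem m1 {P Q : ι → ℝ × ℝ} (hP : GP P) (hQ : GP Q) (H : Sub P Q) {i0 i1 i2 i3 : ι} {e : Bool}
    (h01 : i0 ≠ i1) (h02 : i0 ≠ i2) (h03 : i0 ≠ i3) (h12 : i1 ≠ i2) (h13 : i1 ≠ i3) (h23 : i2 ≠ i3)
    (na0 : N P i0) (na1 : N P i1) (na2 : N P i2) (na3 : N P i3) 
    (k0 : (((c P i0 i2 i3 == c Q i0 i2 i3) == e)) = true)
    : (((c P i1 i2 i3 == c Q i1 i2 i3) == e)) = true := by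
  by_contra hc
  rw [Bool.not_eq_true, ← Bool.not_eq_true'] at hc
  exact m1B _ _ _ (hc) _ _ (k0) _ _ (nin0 hP na0 h01 h02 h03 h12 h13 h23) (nin1 hP na1 h01 h02 h03 h12 h13 h23) (nin2 hP na2 h01 h02 h03 h12 h13 h23) (nin3 hP na3 h01 h02 h03 h12 h13 h23) _ _ (acy Q i0 i1 i2 i3) (cr hP hQ H h01 h02 h03 h12 h13 h23)

theorem m2aB : ∀ b123 : Bool, (b123) = true →
    ∀ b023 : Bool, ((!b023)) = true →
    ∀ b013 : Bool, (b013) = true →
    ∀ b012 : Bool, (acyB b012 b013 b023 b123) = true →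
    ∀ a012 : Bool, ∀ e : Bool, (((a012 == b012) == e)) = true →
    ∀ a013 : Bool, ∀ a023 : Bool, (!(((a013 == b013) == e) && ((a023 == b023) == e))) = true →
    ∀ a123 : Bool, (ninB0 a012 a013 a023 a123) = true →
    (ninB1 a012 a013 a023 a123) = true →
    (ninB2 a012 a013 a023 a123) = true →
    (crB a012 a013 a023 a123 b012 b013 b023 b123) = true →
    False := by
  decide +kernel

theorem m2a {P Q : ι → ℝ × ℝ} (hP : GP P) (hQ : GP Q) (H : Sub P Q) {i0 i1 i2 i3 : ι} {e : Bool}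
    (h01 : i0 ≠ i1) (h02 : i0 ≠ i2) (h03 : i0 ≠ i3) (h12 : i1 ≠ i2) (h13 : i1 ≠ i3) (h23 : i2 ≠ i3)
    (na0 : N P i0) (na1 : N P i1) (na2 : N P i2) 
    (k0 : (c Q i0 i1 i3) = true)
     (k1 : ((!c Q i0 i2 i3)) = true)
     (k2 : (c Q i1 i2 i3) = true)
     (k3 : (((c P i0 i1 i2 == c Q i0 i1 i2) == e)) = true)
    : (((c P i0 i1 i3 == c Q i0 i1 i3) == e) && ((c P i0 i2 i3 == c Q i0 i2 i3) == e)) = true := by
  by_contra hc
  rw [Bool.not_eq_true, ← Bool.not_eq_true'] at hc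
  exact m2aB _ (k2) _ (k1) _ (k0) _ (acy Q i0 i1 i2 i3) _ _ (k3) _ _ (hc) _ (nin0 hP na0 h01 h02 h03 h12 h13 h23) (nin1 hP na1 h01 h02 h03 h12 h13 h23) (nin2 hP na2 h01 h02 h03 h12 h13 h23) (cr hP hQ H h01 h02 h03 h12 h13 h23)

theorem m2bB : ∀ b014 : Bool, (b014) = true →
    ∀ b124 : Bool, (b124) = true →
    ∀ b024 : Bool, ((!b024)) = true →
    ∀ b012 : Bool, (acyB b012 b014 b024 b124) = true →
    ∀ a012 : Bool, ∀ e : Bool, (((a012 == b012) == e)) = true →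
    ∀ a034 : Bool, ∀ b034 : Bool, (!(((a034 == b034) == e))) = true →
    ∀ a014 : Bool, ∀ a124 : Bool, ∀ a024 : Bool, (ninB0 a012 a014 a024 a124) = true →
    (ninB2 a012 a014 a024 a124) = true →
    (crB a012 a014 a024 a124 b012 b014 b024 b124) = true →
    ∀ a013 : Bool, ∀ a134 : Bool, (ninB0 a013 a014 a034 a134) = true →
    (ninB2 a013 a014 a034 a134) = true →
    ∀ a123 : Bool, ∀ a023 : Bool, (ninB0 a012 a013 a023 a123) = true →
    (ninB1 a012 a013 a023 a123) = true →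
    (ninB2 a012 a013 a023 a123) = true →
    ∀ a234 : Bool, (ninB2 a023 a024 a034 a234) = true →
    (ninB1 a123 a124 a134 a234) = true →
    (ninB2 a123 a124 a134 a234) = true →
    ∀ b023 : Bool, ∀ b234 : Bool, (crB a023 a024 a034 a234 b023 b024 b034 b234) = true →
    ∀ b013 : Bool, ∀ b123 : Bool, (acyB b012 b013 b023 b123) = true →
    (crB a012 a013 a023 a123 b012 b013 b023 b123) = true →
    ∀ b134 : Bool, (crB a013 a014 a034 a134 b013 b014 b034 b134) = true →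
    (crB a123 a124 a134 a234 b123 b124 b134 b234) = true →
    False := by
  decide +kernel

theorem m2b {P Q : ι → ℝ × ℝ} (hP : GP P) (hQ : GP Q) (H : Sub P Q) {i0 i1 i2 i3 i4 : ι} {e : Bool}
    (h01 : i0 ≠ i1) (h02 : i0 ≠ i2) (h03 : i0 ≠ i3) (h04 : i0 ≠ i4) (h12 : i1 ≠ i2) (h13 : i1 ≠ i3) (h14 : i1 ≠ i4) (h23 : i2 ≠ i3) (h24 : i2 ≠ i4) (h34 : i3 ≠ i4)
    (na0 : N P i0) (na1 : N P i1) (na2 : N P i2) (na3 : N P i3) 
    (k0 : (c Q i0 i1 i4) = true)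
     (k1 : ((!c Q i0 i2 i4)) = true)
     (k2 : (c Q i1 i2 i4) = true)
     (k3 : (((c P i0 i1 i2 == c Q i0 i1 i2) == e)) = true)
    : (((c P i0 i3 i4 == c Q i0 i3 i4) == e)) = true := by
  by_contra hc
  rw [Bool.not_eq_true, ← Bool.not_eq_true'] at hc
  exact m2bB _ (k0) _ (k2) _ (k1) _ (acy Q i0 i1 i2 i4) _ _ (k3) _ _ (hc) _ _ _ (nin0 hP na0 h01 h02 h04 h12 h14 h24) (nin2 hP na2 h01 h02 h04 h12 h14 h24) (cr hP hQ H h01 h02 h04 h12 h14 h24) _ _ (nin0 hP na0 h01 h03 h04 h13 h14 h34) (nin2 hP na3 h01 h03 h04 h13 h14 h34) _ _ (nin0 hP na0 h01 h02 h03 h12 h13 h23) (nin1 hP na1 h01 h02 h03 h12 h13 h23) (nin2 hP na2 h01 h02 h03 h12 h13 h23) _ (nin2 hP na3 h02 h03 h04 h23 h24 h34) (nin1 hP na2 h12 h13 h14 h23 h24 h34) (nin2 hP na3 h12 h13 h14 h23 h24 h34) _ _ (cr hP hQ H h02 h03 h04 h23 h24 h34) _ _ (acy Q i0 i1 i2 i3) (cr hP hQ H h01 h02 h03 h12 h13 h23) _ (cr hP hQ H h01 h03 h04 h13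 h14 h34) (cr hP hQ H h12 h13 h14 h23 h24 h34)

theorem m3B : ∀ b024 : Bool, ∀ e : Bool, ∀ a024 : Bool, (((a024 == b024) == e)) = true →
    ∀ b034 : Bool, ∀ a034 : Bool, (!(((a034 == b034) == e))) = true →
    ∀ a014 : Bool, ∀ b014 : Bool, (((a014 == b014) == e)) = true →
    ∀ a013 : Bool, ∀ b013 : Bool, (((a013 == b013) == e)) = true →
    ∀ a134 : Bool, (ninB0 a013 a014 a034 a134) = true →
    (ninB1 a013 a014 a034 a134) = true →
    ∀ b023 : Bool, ∀ b134 : Bool, (crB a013 a014 a034 a134 b013 b014 b034 b134) = true →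
    ∀ a023 : Bool, (((a023 == b023) == e)) = true →
    ∀ a234 : Bool, (ninB0 a023 a024 a034 a234) = true →
    (ninB1 a023 a024 a034 a234) = true →
    ∀ b234 : Bool, ((b034 != b134) || (b034 != b234) ) = true →
    (crB a023 a024 a034 a234 b023 b024 b034 b234) = true →
    ∀ a124 : Bool, ∀ a123 : Bool, (ninB0 a123 a124 a134 a234) = true →
    (ninB1 a123 a124 a134 a234) = true →
    ∀ b124 : Bool, (((a124 == b124) == e)) = true →
    ∀ b123 : Bool, (((a123 == b123) == e)) = true →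
    (crB a123 a124 a134 a234 b123 b124 b134 b234) = true →
    False := by
  decide +kernel

theorem m3 {P Q : ι → ℝ × ℝ} (hP : GP P) (hQ : GP Q) (H : Sub P Q) {i0 i1 i2 i3 i4 : ι} {e : Bool}
    (h01 : i0 ≠ i1) (h02 : i0 ≠ i2) (h03 : i0 ≠ i3) (h04 : i0 ≠ i4) (h12 : i1 ≠ i2) (h13 : i1 ≠ i3) (h14 : i1 ≠ i4) (h23 : i2 ≠ i3) (h24 : i2 ≠ i4) (h34 : i3 ≠ i4)
    (na0 : N P i0) (na1 : N P i1) (na2 : N P i2) 
    (k0 : ((c Q i0 i3 i4 != c Q i1 i3 i4) || (c Q i0 i3 i4 != c Q i2 i3 i4) ) = true)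
     (k1 : (((c P i0 i1 i3 == c Q i0 i1 i3) == e)) = true)
     (k2 : (((c P i0 i1 i4 == c Q i0 i1 i4) == e)) = true)
     (k3 : (((c P i0 i2 i3 == c Q i0 i2 i3) == e)) = true)
     (k4 : (((c P i0 i2 i4 == c Q i0 i2 i4) == e)) = true)
     (k5 : (((c P i1 i2 i3 == c Q i1 i2 i3) == e)) = true)
     (k6 : (((c P i1 i2 i4 == c Q i1 i2 i4) == e)) = true)
    : (((c P i0 i3 i4 == c Q i0 i3 i4) == e)) = true := by
  by_contra hc
  rw [Bool.not_eq_true, ← Bool.not_eq_true'] at hc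
  exact m3B _ _ _ (k4) _ _ (hc) _ _ (k2) _ _ (k1) _ (nin0 hP na0 h01 h03 h04 h13 h14 h34) (nin1 hP na1 h01 h03 h04 h13 h14 h34) _ _ (cr hP hQ H h01 h03 h04 h13 h14 h34) _ (k3) _ (nin0 hP na0 h02 h03 h04 h23 h24 h34) (nin1 hP na2 h02 h03 h04 h23 h24 h34) _ (k0) (cr hP hQ H h02 h03 h04 h23 h24 h34) _ _ (nin0 hP na1 h12 h13 h14 h23 h24 h34) (nin1 hP na2 h12 h13 h14 h23 h24 h34) _ (k6) _ (k5) (cr hP hQ H h12 h13 h14 h23 h24 h34)

theorem m4B : ∀ b023 : Bool, ∀ b123 : Bool, ((b023 != b123)) = true →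
    ∀ a123 : Bool, ∀ e : Bool, (((a123 == b123) == e)) = true →
    ∀ a023 : Bool, (((a023 == b023) == e)) = true →
    ∀ a024 : Bool, ∀ b024 : Bool, (((a024 == b024) == e)) = true →
    ∀ b034 : Bool, ∀ a034 : Bool, (((a034 == b034) == e)) = true →
    ∀ a014 : Bool, ∀ b014 : Bool, (((a014 == b014) == e)) = true →
    ∀ a234 : Bool, ∀ b234 : Bool, (!(((a234 == b234) == e))) = true →
    (crB a023 a024 a034 a234 b023 b024 b034 b234) = true →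
    ∀ a134 : Bool, ∀ b124 : Bool, ∀ b134 : Bool, (((a134 == b134) == e)) = true →
    (gpB b014 b234 b024 b134 b034 b124) = true →
    ∀ a124 : Bool, (((a124 == b124) == e)) = true →
    (gpB a014 a234 a024 a134 a034 a124) = true →
    (crB a123 a124 a134 a234 b123 b124 b134 b234) = true →
    ∀ a012 : Bool, ∀ b012 : Bool, (((a012 == b012) == e)) = true →
    ∀ a013 : Bool, ∀ b013 : Bool, (((a013 == b013) == e)) = true →
    False := by
  decide +kernel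

theorem m4 {P Q : ι → ℝ × ℝ} (hP : GP P) (hQ : GP Q) (H : Sub P Q) {i0 i1 i2 i3 i4 : ι} {e : Bool}
    (h01 : i0 ≠ i1) (h02 : i0 ≠ i2) (h03 : i0 ≠ i3) (h04 : i0 ≠ i4) (h12 : i1 ≠ i2) (h13 : i1 ≠ i3) (h14 : i1 ≠ i4) (h23 : i2 ≠ i3) (h24 : i2 ≠ i4) (h34 : i3 ≠ i4)
    (na0 : N P i0) (na1 : N P i1) 
    (k0 : ((c Q i0 i2 i3 != c Q i1 i2 i3)) = true)
     (k1 : (((c P i0 i2 i3 == c Q i0 i2 i3) == e)) = true)
     (k2 : (((c P i0 i2 i4 == c Q i0 i2 i4) == e)) = true)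
     (k3 : (((c P i0 i3 i4 == c Q i0 i3 i4) == e)) = true)
     (k4 : (((c P i1 i2 i3 == c Q i1 i2 i3) == e)) = true)
     (k5 : (((c P i1 i2 i4 == c Q i1 i2 i4) == e)) = true)
     (k6 : (((c P i1 i3 i4 == c Q i1 i3 i4) == e)) = true)
     (k7 : (((c P i0 i1 i2 == c Q i0 i1 i2) == e)) = true)
     (k8 : (((c P i0 i1 i3 == c Q i0 i1 i3) == e)) = true)
     (k9 : (((c P i0 i1 i4 == c Q i0 i1 i4) == e)) = true)
    : (((c P i2 i3 i4 == c Q i2 i3 i4) == e)) = true := by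
  by_contra hc
  rw [Bool.not_eq_true, ← Bool.not_eq_true'] at hc
  exact m4B _ _ (k0) _ _ (k4) _ (k1) _ _ (k2) _ _ (k3) _ _ (k9) _ _ (hc) (cr hP hQ H h02 h03 h04 h23 h24 h34) _ _ _ (k6) (gp4 hQ h01 h02 h03 h04 h12 h13 h14 h23 h24 h34) _ (k5) (gp4 hP h01 h02 h03 h04 h12 h13 h14 h23 h24 h34) (cr hP hQ H h12 h13 h14 h23 h24 h34) _ _ (k7) _ _ (k8)

theorem s4B : ∀ b123 : Bool, (b123) = true →
    ∀ b023 : Bool, ((!b023)) = true →
    ∀ b013 : Bool, (b013) = true →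
    ∀ b012 : Bool, (acyB b012 b013 b023 b123) = true →
    ∀ a013 : Bool, ∀ a123 : Bool, ∀ a023 : Bool, ∀ a012 : Bool, (!((((a012 == b012) == (a013 == b013)) == ((a023 == b023) == (a123 == b123))))) = true →
    (crB a012 a013 a023 a123 b012 b013 b023 b123) = true →
    False := by
  decide +kernel

theorem s4 {P Q : ι → ℝ × ℝ} (hP : GP P) (hQ : GP Q) (H : Sub P Q) {i0 i1 i2 i3 : ι}
    (h01 : i0 ≠ i1) (h02 : i0 ≠ i2) (h03 : i0 ≠ i3) (h12 : i1 ≠ i2) (h13 : i1 ≠ i3) (h23 : i2 ≠ i3)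
     
    (k0 : (c Q i0 i1 i3) = true)
     (k1 : ((!c Q i0 i2 i3)) = true)
     (k2 : (c Q i1 i2 i3) = true)
    : ((((c P i0 i1 i2 == c Q i0 i1 i2) == (c P i0 i1 i3 == c Q i0 i1 i3)) == ((c P i0 i2 i3 == c Q i0 i2 i3) == (c P i1 i2 i3 == c Q i1 i2 i3)))) = true := by
  by_contra hc
  rw [Bool.not_eq_true, ← Bool.not_eq_true'] at hc
  exact s4B _ (k2) _ (k1) _ (k0) _ (acy Q i0 i1 i2 i3) _ _ _ _ (hc) (cr hP hQ H h01 h02 h03 h12 h13 h23)

theorem s5B : ∀ b013 : Bool, (b013) = true →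
    ∀ b014 : Bool, (b014) = true →
    ∀ b023 : Bool, ((!b023)) = true →
    ∀ b123 : Bool, (b123) = true →
    ∀ b024 : Bool, ((!b024)) = true →
    ∀ b124 : Bool, (b124) = true →
    ∀ b012 : Bool, (acyB b012 b014 b024 b124) = true →
    ∀ b034 : Bool, ∀ b234 : Bool, ∀ b134 : Bool, (gpB b014 b234 b024 b134 b034 b124) = true →
    ∀ a134 : Bool, ∀ a034 : Bool, ∀ a014 : Bool, ∀ a013 : Bool, (crB a013 a014 a034 a134 b013 b014 b034 b134) = true →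
    ∀ a023 : Bool, ∀ a024 : Bool, ∀ a234 : Bool, (!((((a013 == b013) == (a014 == b014)) == ((a034 == b034) == (a134 == b134))) && (((a023 == b023) == (a024 == b024)) == ((a034 == b034) == (a234 == b234))))) = true →
    (crB a023 a024 a034 a234 b023 b024 b034 b234) = true →
    ∀ a124 : Bool, ∀ a123 : Bool, (crB a123 a124 a134 a234 b123 b124 b134 b234) = true →
    ∀ a012 : Bool, (crB a012 a013 a023 a123 b012 b013 b023 b123) = true →
    (crB a012 a014 a024 a124 b012 b014 b024 b124) = true →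
    False := by
  decide +kernel

theorem s5 {P Q : ι → ℝ × ℝ} (hP : GP P) (hQ : GP Q) (H : Sub P Q) {i0 i1 i2 i3 i4 : ι}
    (h01 : i0 ≠ i1) (h02 : i0 ≠ i2) (h03 : i0 ≠ i3) (h04 : i0 ≠ i4) (h12 : i1 ≠ i2) (h13 : i1 ≠ i3) (h14 : i1 ≠ i4) (h23 : i2 ≠ i3) (h24 : i2 ≠ i4) (h34 : i3 ≠ i4)
     
    (k0 : (c Q i0 i1 i3) = true)
     (k1 : ((!c Q i0 i2 i3)) = true)
     (k2 : (c Q i1 i2 i3) = true)
     (k3 : (c Q i0 i1 i4) = true)
     (k4 : ((!c Q i0 i2 i4)) = true)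
     (k5 : (c Q i1 i2 i4) = true)
    : ((((c P i0 i1 i3 == c Q i0 i1 i3) == (c P i0 i1 i4 == c Q i0 i1 i4)) == ((c P i0 i3 i4 == c Q i0 i3 i4) == (c P i1 i3 i4 == c Q i1 i3 i4))) && (((c P i0 i2 i3 == c Q i0 i2 i3) == (c P i0 i2 i4 == c Q i0 i2 i4)) == ((c P i0 i3 i4 == c Q i0 i3 i4) == (c P i2 i3 i4 == c Q i2 i3 i4)))) = true := by
  by_contra hc
  rw [Bool.not_eq_true, ← Bool.not_eq_true'] at hc
  exact s5B _ (k0) _ (k3) _ (k1) _ (k2) _ (k4) _ (k5) _ (acy Q i0 i1 i2 i4) _ _ _ (gp4 hQ h01 h02 h03 h04 h12 h13 h14 h23 h24 h34) _ _ _ _ (cr hP hQ H h01 h03 h04 h13 h14 h34) _ _ _ (hc) (cr hP hQ H h02 h03 h04 h23 h24 h34) _ _ (cr hP hQ H h12 h13 h14 h23 h24 h34) _ (cr hP hQ H h01 h02 h03 h12 h13 h23) (cr hP hQ H h01 h02 h04 h12 h14 h24)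

theorem s6B : ∀ b123 : Bool, (b123) = true →
    ∀ b014 : Bool, (b014) = true →
    ∀ b013 : Bool, (b013) = true →
    ∀ b124 : Bool, (b124) = true →
    ∀ b125 : Bool, (b125) = true →
    ∀ b025 : Bool, ((!b025)) = true →
    ∀ b023 : Bool, ((!b023)) = true →
    ∀ b015 : Bool, (b015) = true →
    ∀ b024 : Bool, ((!b024)) = true →
    ∀ b012 : Bool, (acyB b012 b013 b023 b123) = true →
    ∀ b045 : Bool, ∀ b245 : Bool, ∀ b145 : Bool, (gpB b015 b245 b025 b145 b045 b125) = true →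
    ∀ b135 : Bool, ∀ b134 : Bool, ∀ b345 : Bool, (acyB b134 b135 b145 b345) = true →
    ∀ b234 : Bool, ∀ b235 : Bool, (acyB b234 b235 b245 b345) = true →
    ∀ b035 : Bool, (gpB b013 b235 b023 b135 b035 b123) = true →
    (gpB b015 b345 b035 b145 b045 b135) = true →
    ∀ b034 : Bool, (acyB b034 b035 b045 b345) = true →
    (gpB b014 b234 b024 b134 b034 b124) = true →
    (gpB b013 b345 b034 b135 b035 b134) = true →
    ∀ a345 : Bool, ∀ a035 : Bool, ∀ a045 : Bool, ∀ a034 : Bool, (!((((a034 == b034) == (a035 == b035)) == ((a045 == b045) == (a345 == b345))))) = true →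
    (crB a034 a035 a045 a345 b034 b035 b045 b345) = true →
    ∀ a014 : Bool, ∀ a013 : Bool, ∀ a134 : Bool, (crB a013 a014 a034 a134 b013 b014 b034 b134) = true →
    ∀ a145 : Bool, (gpB a014 a345 a034 a145 a045 a134) = true →
    ∀ a135 : Bool, (gpB a013 a345 a034 a135 a035 a134) = true →
    (crB a134 a135 a145 a345 b134 b135 b145 b345) = true →
    ∀ a015 : Bool, (gpB a015 a345 a035 a145 a045 a135) = true →
    (crB a013 a015 a035 a135 b013 b015 b035 b135) = true →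
    (crB a014 a015 a045 a145 b014 b015 b045 b145) = true →
    ∀ a125 : Bool, ∀ a012 : Bool, ∀ a025 : Bool, (crB a012 a015 a025 a125 b012 b015 b025 b125) = true →
    ∀ a024 : Bool, (gpB a012 a045 a014 a025 a015 a024) = true →
    ∀ a245 : Bool, (crB a024 a025 a045 a245 b024 b025 b045 b245) = true →
    ∀ a124 : Bool, (gpB a012 a145 a014 a125 a015 a124) = true →
    (gpB a012 a245 a024 a125 a025 a124) = true →
    (crB a012 a014 a024 a124 b012 b014 b024 b124) = true →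
    (crB a124 a125 a145 a245 b124 b125 b145 b245) = true →
    ∀ a234 : Bool, ∀ a123 : Bool, (crB a123 a124 a134 a234 b123 b124 b134 b234) = true →
    ∀ a023 : Bool, (gpB a013 a234 a023 a134 a034 a123) = true →
    (crB a012 a013 a023 a123 b012 b013 b023 b123) = true →
    (crB a023 a024 a034 a234 b023 b024 b034 b234) = true →
    ∀ a235 : Bool, (gpB a023 a245 a024 a235 a025 a234) = true →
    (crB a023 a025 a035 a235 b023 b025 b035 b235) = true →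
    (crB a123 a125 a135 a235 b123 b125 b135 b235) = true →
    (crB a234 a235 a245 a345 b234 b235 b245 b345) = true →
    False := by
  decide +kernel

theorem s6 {P Q : ι → ℝ × ℝ} (hP : GP P) (hQ : GP Q) (H : Sub P Q) {i0 i1 i2 i3 i4 i5 : ι}
    (h01 : i0 ≠ i1) (h02 : i0 ≠ i2) (h03 : i0 ≠ i3) (h04 : i0 ≠ i4) (h05 : i0 ≠ i5) (h12 : i1 ≠ i2) (h13 : i1 ≠ i3) (h14 : i1 ≠ i4) (h15 : i1 ≠ i5) (h23 : i2 ≠ i3) (h24 : i2 ≠ i4) (h25 : i2 ≠ i5) (h34 : i3 ≠ i4) (h35 : i3 ≠ i5) (h45 : i4 ≠ i5)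
     
    (k0 : (c Q i0 i1 i3) = true)
     (k1 : ((!c Q i0 i2 i3)) = true)
     (k2 : (c Q i1 i2 i3) = true)
     (k3 : (c Q i0 i1 i4) = true)
     (k4 : ((!c Q i0 i2 i4)) = true)
     (k5 : (c Q i1 i2 i4) = true)
     (k6 : (c Q i0 i1 i5) = true)
     (k7 : ((!c Q i0 i2 i5)) = true)
     (k8 : (c Q i1 i2 i5) = true)
    : ((((c P i0 i3 i4 == c Q i0 i3 i4) == (c P i0 i3 i5 == c Q i0 i3 i5)) == ((c P i0 i4 i5 == c Q i0 i4 i5) == (c P i3 i4 i5 == c Q i3 i4 i5)))) = true := by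
  by_contra hc
  rw [Bool.not_eq_true, ← Bool.not_eq_true'] at hc
  exact s6B _ (k2) _ (k3) _ (k0) _ (k5) _ (k8) _ (k7) _ (k1) _ (k6) _ (k4) _ (acy Q i0 i1 i2 i3) _ _ _ (gp4 hQ h01 h02 h04 h05 h12 h14 h15 h24 h25 h45) _ _ _ (acy Q i1 i3 i4 i5) _ _ (acy Q i2 i3 i4 i5) _ (gp3 hQ h01 h02 h03 h05 h12 h13 h15 h23 h25 h35) (gp4 hQ h01 h03 h04 h05 h13 h14 h15 h34 h35 h45) _ (acy Q i0 i3 i4 i5) (gp4 hQ h01 h02 h03 h04 h12 h13 h14 h23 h24 h34) (gp2 hQ h01 h03 h04 h05 h13 h14 h15 h34 h35 h45) _ _ _ _ (hc) (cr hP hQ H h03 h04 h05 h34 h35 h45) _ _ _ (cr hP hQ H h01 h03 h04 h13 h14 h34) _ (gp3 hP h01 h03 h04 h05 h13 h14 h15 h34 h35 h45) _ (gp2 hP h01 h03 h04 h05 h13 h14 h15 h34 h35 h45) (cr hP hQ H h13 h14 h15 h34 h35 h45) _ (gp4 hP h01 h03 h04 h05 h13 h14 h15 h34 h35 h45) (cr hP hQ H h01 h03 h05 h13 h15 h35) (cr hP hQ H h01 h04 h05 h14 h15 h45) _ _ _ (cr hP hQ H h01 h02 h05 h12 h15 h25) _ (gp0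 hP h01 h02 h04 h05 h12 h14 h15 h24 h25 h45) _ (cr hP hQ H h02 h04 h05 h24 h25 h45) _ (gp1 hP h01 h02 h04 h05 h12 h14 h15 h24 h25 h45) (gp2 hP h01 h02 h04 h05 h12 h14 h15 h24 h25 h45) (cr hP hQ H h01 h02 h04 h12 h14 h24) (cr hP hQ H h12 h14 h15 h24 h25 h45) _ _ (cr hP hQ H h12 h13 h14 h23 h24 h34) _ (gp3 hP h01 h02 h03 h04 h12 h13 h14 h23 h24 h34) (cr hP hQ H h01 h02 h03 h12 h13 h23) (cr hP hQ H h02 h03 h04 h23 h24 h34) _ (gp1 hP h02 h03 h04 h05 h23 h24 h25 h34 h35 h45) (cr hP hQ H h02 h03 h05 h23 h25 h35) (cr hP hQ H h12 h13 h15 h23 h25 h35) (cr hP hQ H h23 h24 h25 h34 h35 h45)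

theorem finB : ∀ b023 : Bool, ∀ b123 : Bool, ((b023 != b123)) = true →
    ∀ b013 : Bool, ∀ b012 : Bool, ((b012 != b013)) = true →
    (acyB b012 b013 b023 b123) = true →
    ∀ a012 : Bool, ∀ a023 : Bool, ∀ a123 : Bool, ∀ a013 : Bool, ((((a012 == b012) == (a013 == b013)) == ((a023 == b023) == (a123 == b123)))) = true →
    (!((a012 != a013) && (a023 != a123))) = true →
    (crB a012 a013 a023 a123 b012 b013 b023 b123) = true →
    False := by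
  decide +kernel

theorem fin {P Q : ι → ℝ × ℝ} (hP : GP P) (hQ : GP Q) (H : Sub P Q) {i0 i1 i2 i3 : ι}
    (h01 : i0 ≠ i1) (h02 : i0 ≠ i2) (h03 : i0 ≠ i3) (h12 : i1 ≠ i2) (h13 : i1 ≠ i3) (h23 : i2 ≠ i3)
     
    (k0 : ((((c P i0 i1 i2 == c Q i0 i1 i2) == (c P i0 i1 i3 == c Q i0 i1 i3)) == ((c P i0 i2 i3 == c Q i0 i2 i3) == (c P i1 i2 i3 == c Q i1 i2 i3)))) = true)
     (k1 : ((c Q i0 i1 i2 != c Q i0 i1 i3)) = true)
     (k2 : ((c Q i0 i2 i3 != c Q i1 i2 i3)) = true)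
    : ((c P i0 i1 i2 != c P i0 i1 i3) && (c P i0 i2 i3 != c P i1 i2 i3)) = true := by
  by_contra hc
  rw [Bool.not_eq_true, ← Bool.not_eq_true'] at hc
  exact finB _ _ (k2) _ _ (k1) (acy Q i0 i1 i2 i3) _ _ _ _ (k0) (hc) (cr hP hQ H h01 h02 h03 h12 h13 h23)

end Pool.Agent.H13.GeoK
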