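import Pool.Agent.H13.GeoK1

set_option linter.unusedVariables false
set_option linter.unusedSectionVars false

namespace Pool.Agent.H13.GeoK

variable {ι : Type*} [Finite ι] {P Q : ι → ℝ × ℝ}

def Hu (P : ι → ℝ × ℝ) : Set ι := {i | P i ∈ (convexHull ℝ (Set.range P)).extremePoints ℝ}

theorem c_iff {i j k : ι} : c P i j k = true ↔ 0 < o (P i) (P j) (P k) := by simp [c]

theorem c_ne {i j k : ι} (h : c P i j k = true) : i ≠ j ∧ i ≠ k ∧ j ≠ k := by
  rw [c_iff] at h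
  refine ⟨?_, ?_, ?_⟩ <;> rintro rfl <;> simp [o] at h
  linarith

theorem F1 {x : ι} (hx : x ∈ Hu P) : N P x := by
  rintro i j k ⟨h1, h2, h3⟩
  have hm : ∀ t, P t ∈ convexHull ℝ (Set.range P) := fun t => subset_convexHull _ _ ⟨t, rfl⟩
  set a := o (P x) (P i) (P j) with ha
  set b := o (P x) (P j) (P k) with hb
  set d := o (P x) (P k) (P i) with hd
  have hy : (b / (b + d)) • P i + (d / (b + d)) • P j ∈ convexHull ℝ (Set.range P) :=
    convex_convexHull ℝ _ (hm i) (hm j) (by positivity) (by positivity) (by field_simp)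
  have := (mem_extremePoints_iff_left.1 hx).2 _ (hm k) _ hy
    ⟨a / (a + (b + d)), (b + d) / (a + (b + d)), by positivity, by positivity, by field_simp, ?_⟩
  · rw [hb, this] at h2
    simp [o] at h2
  · have e1 : a * (P k).1 + (b * (P i).1 + d * (P j).1) = (a + (b + d)) * (P x).1 := by
      rw [ha, hb, hd]; unfold o; ring
    have e2 : a * (P k).2 + (b * (P i).2 + d * (P j).2) = (a + (b + d)) * (P x).2 := by
      rw [ha, hb, hd]; unfold o; ring
    ext <;> simp only [Prod.fst_add, Prod.snd_add, Prod.smul_fst, Prod.smul_snd, smul_eq_mul] <;>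
      field_simp <;> linarith

theorem F2 (hP : GP P) (hI : Function.Injective P) {p q : ι} (hp : p ∉ Hu P) (hq : q ≠ p) (s : ℝ)
    (hs : s ≠ 0) : ∃ z ∈ Hu P, 0 < s * o (P p) (P q) (P z) := by
  by_contra hc
  push Not at hc
  have hf : (Set.range P).Finite := Set.finite_range P
  have hK := closure_convexHull_extremePoints (hf.isCompact_convexHull ℝ) (convex_convexHull ℝ _)
  rw [((hf.subset extremePoints_convexHull_subset).isClosed_convexHull ℝ).closure_eq] at hK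
  have hS : Convex ℝ {z : ℝ × ℝ | s * o (P p) (P q) z < 0 ∨ z = P q} := by
    intro u hu v hv a b ha hb hab
    have e : s * o (P p) (P q) (a • u + b • v) = a * (s * o (P p) (P q) u) + b * (s * o (P p) (P q) v) := by
      have : b = 1 - a := by linarith
      subst this
      simp only [o, Prod.fst_add, Prod.snd_add, Prod.smul_fst, Prod.smul_snd, smul_eq_mul]; ring
    have z : s * o (P p) (P q) (P q) = 0 := by unfold o; ring
    rcases ha.eq_or_lt with rfl | ha'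
    · have : b = 1 := by linarith
      subst this; simpa using hv
    rcases hb.eq_or_lt with rfl | hb'
    · have : a = 1 := by linarith
      subst this; simpa using hu
    simp only [Set.mem_ofPred_eq] at hu hv ⊢
    rw [e]
    rcases hu with hu | rfl <;> rcases hv with hv | rfl
    · left; nlinarith
    · left; rw [z]; nlinarith
    · left; rw [z]; nlinarith
    · right; rw [← add_smul, hab, one_smul]
  have hsub : (convexHull ℝ (Set.range P)).extremePoints ℝ ⊆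
      {z : ℝ × ℝ | s * o (P p) (P q) z < 0 ∨ z = P q} := by
    intro z hz
    obtain ⟨j, rfl⟩ := extremePoints_convexHull_subset hz
    by_cases hj : j = q
    · right; rw [hj]
    · left
      have hjp : p ≠ j := by rintro rfl; exact hp hz
      exact lt_of_le_of_ne (hc j hz) (mul_ne_zero hs (hP _ _ _ hq.symm hjp (Ne.symm hj)))
  have : P p ∈ convexHull ℝ ((convexHull ℝ (Set.range P)).extremePoints ℝ) := by
    rw [hK]; exact subset_convexHull _ _ ⟨p, rfl⟩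
  rcases convexHull_min hsub hS this with h | h
  · simp [o] at h
  · exact hq (hI h).symm

theorem F2c (hP : GP P) (hI : Function.Injective P) {p q : ι} (hp : p ∉ Hu P) (hq : q ≠ p) (b : Bool) :
    ∃ z ∈ Hu P, c P z p q = b ∧ z ≠ p ∧ z ≠ q := by
  cases b
  · obtain ⟨z, hz, h⟩ := F2 hP hI hp hq (-1) (by norm_num)
    refine ⟨z, hz, ?_, ?_, ?_⟩
    · rw [c_rot]; simp only [c, decide_eq_false_iff_not]; linarith
    · rintro rfl; exact hp hz
    · rintro rfl; simp [o] at h; linarith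
  · obtain ⟨z, hz, h⟩ := F2 hP hI hp hq 1 one_ne_zero
    rw [one_mul, ← c_iff] at h
    exact ⟨z, hz, by rw [c_rot]; exact h, (c_ne h).2.1.symm, (c_ne h).2.2.symm⟩

def Ins (Q : ι → ℝ × ℝ) (x y z p : ι) : Prop :=
  c Q x y p = true ∧ (!c Q x z p) = true ∧ c Q y z p = true ∧ x ≠ z ∧ x ≠ p ∧ z ≠ p

theorem F3 (hP : GP P) (hI : Function.Injective P) {p y : ι} (hp : p ∉ Hu P) (hy : y ≠ p) :
    ∃ u ∈ Hu P, ∃ w ∈ Hu P, Ins P y u w p := by
  obtain ⟨u0, hu0, h0⟩ := F2 hP hI hp hy 1 one_ne_zero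
  let t : ι → ℝ := fun u => ((P y).1 - (P p).1) * ((P u).1 - (P p).1) + ((P y).2 - (P p).2) * ((P u).2 - (P p).2)
  obtain ⟨u, ⟨hu, h1⟩, hm⟩ := Set.exists_min_image {u | u ∈ Hu P ∧ 0 < o (P p) (P y) (P u)}
    (fun u => t u / o (P p) (P y) (P u)) (Set.toFinite _) ⟨u0, hu0, by simpa using h0⟩
  have hup : u ≠ p := by rintro rfl; exact hp hu
  obtain ⟨w, hw, h2⟩ := F2 hP hI hp hup 1 one_ne_zero
  rw [one_mul] at h2
  have hwp : w ≠ p := by rintro rfl; exact hp hw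
  have hwy : y ≠ w := by
    rintro rfl
    have : o (P p) (P u) (P y) = - o (P p) (P y) (P u) := by unfold o; ring
    linarith
  have h3 : ¬ 0 < o (P p) (P y) (P w) := by
    intro h3
    have := hm w ⟨hw, h3⟩
    rw [div_le_div_iff₀ h1 h3] at this
    have e : o (P p) (P u) (P w) * t y = o (P p) (P y) (P w) * t u - o (P p) (P y) (P u) * t w := by
      simp only [t, o]; ring
    have ht : 0 < t y := by
      by_contra hn
      have a1 : (P y).1 - (P p).1 = 0 := by simp only [t] at hn; nlinarith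
      have a2 : (P y).2 - (P p).2 = 0 := by simp only [t] at hn; nlinarith
      simp [o, a1, a2] at h1
    nlinarith [mul_pos h2 ht]
  refine ⟨u, hu, w, hw, ?_, ?_, ?_, hwy, hy, hwp⟩
  · rw [← c_rot]; exact c_iff.2 h1
  · rw [← c_rot]; simpa [c] using not_lt.1 h3
  · rw [← c_rot]; exact c_iff.2 h2

theorem Ins.rot (hQ : GP Q) {x y z p : ι} (h : Ins Q x y z p) : Ins Q y z x p := by
  obtain ⟨a, b, d, e, f, g⟩ := h
  obtain ⟨a1, a2, a3⟩ := c_ne a
  refine ⟨d, ?_, ?_, a1.symm, a3, a2⟩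
  · rw [c_rot Q y x p, c_swap hQ a1 a2 a3, a]; rfl
  · rw [c_rot Q z x p, c_swap hQ e f g]; exact b

theorem Ins.pos {x y z p : ι} (h : Ins Q x y z p) : c Q x y z = true := by
  obtain ⟨a, b, d, -⟩ := h
  have := acy Q x y z p
  revert this b
  rw [a, d]
  cases c Q x y z <;> cases c Q x z p <;> decide

theorem lemA' (hP : GP P) (hQ : GP Q) (H : Sub P Q) (hI : Function.Injective Q) {x y u w : ι}
    (hx : x ∈ Hu P) (hy : y ∈ Hu P) (hxy : x ≠ y) (h1 : x ≠ u) (h2 : y ≠ u) (h3 : x ≠ w) (h4 : y ≠ w)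
    (h : c P x y u ≠ c P x y w) : x ∈ Hu Q := by
  by_contra hn
  obtain ⟨p, -, q, -, hi⟩ := F3 hQ hI hn hxy.symm
  have hpos := hi.pos
  obtain ⟨a, b, d, e, f, g⟩ := hi
  obtain ⟨a1, a2, a3⟩ := c_ne a
  obtain ⟨d1, d2, d3⟩ := c_ne d
  rw [← c_rot] at a b d
  have O : ∀ s t, x ≠ s → y ≠ s → x ≠ t → y ≠ t → c P x y s ≠ c P x y t →
      c Q x y s ≠ c Q x y t ∧ c Q x s t ≠ c Q y s t := by
    intro s t s1 s2 t1 t2 hh
    have := opp hP hQ H hxy s1 t1 s2 t2 (by rintro rfl; exact hh rfl) (F1 hx) (F1 hy) (by simpa using hh)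
    simpa using this
  by_cases hpq : c P x y p = c P x y q
  · have : ∃ s, x ≠ s ∧ y ≠ s ∧ c P x y s ≠ c P x y p := by
      by_cases hh : c P x y u = c P x y p
      · exact ⟨w, h3, h4, fun e => h (hh.trans e.symm)⟩
      · exact ⟨u, h1, h2, hh⟩
    obtain ⟨s, s1, s2, s3⟩ := this
    have o1 := (O s p s1 s2 a3.symm a1 s3).1
    have o2 := (O s q s1 s2 g.symm e (hpq ▸ s3)).1
    revert o1 o2 b
    rw [a]
    cases c Q x y s <;> cases c Q x y q <;> decide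
  · exact (O p q a3.symm a1 g.symm e hpq).2 (d.trans hpos.symm)

theorem lemA (hP : GP P) (hQ : GP Q) (H : Sub P Q) (hI : Function.Injective Q) (h4 : 3 < (Hu P).ncard) :
    Hu P ⊆ Hu Q := by
  intro x hx
  have : 2 < (Hu P \ {x}).ncard := by
    rw [Set.ncard_sdiff_singleton_of_mem hx]; omega
  obtain ⟨a, ⟨ha, ax⟩, b, ⟨hb, bx⟩, d, ⟨hd, dx⟩, ab, ad, bd⟩ := (Set.two_lt_ncard (Set.toFinite _)).1 this
  have ax : x ≠ a := Ne.symm ax
  have bx : x ≠ b := Ne.symm bx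
  have dx : x ≠ d := Ne.symm dx
  by_cases e1 : c P x a b = c P x a d
  · by_cases e2 : c P x a b = c P x b d
    · refine lemA' hP hQ H hI hx hb bx ax ab.symm dx bd ?_
      rw [c_swap hP ax bx ab, e2]; simp
    · refine lemA' hP hQ H hI hx hd dx ax ad.symm bx bd.symm ?_
      rw [c_swap hP ax dx ad, c_swap hP bx dx bd, ← e1]; simpa using e2
  · exact lemA' hP hQ H hI hx ha ax bx ab dx ad e1

noncomputable def E (P Q : ι → ℝ × ℝ) (i j k : ι) : Bool := c P i j k == c Q i j k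

theorem E_rot (P Q : ι → ℝ × ℝ) (i j k : ι) : E P Q i j k = E P Q j k i := by
  unfold E; rw [c_rot P, c_rot Q]

theorem E23 (hP : GP P) (hQ : GP Q) {i j k : ι} (h01 : i ≠ j) (h02 : i ≠ k) (h12 : j ≠ k) :
    E P Q i k j = E P Q i j k := by
  unfold E; rw [c_swap hP h01 h02 h12, c_swap hQ h01 h02 h12]
  cases c P i j k <;> cases c Q i j k <;> rfl

theorem E12 (hP : GP P) (hQ : GP Q) {i j k : ι} (h01 : i ≠ j) (h02 : i ≠ k) (h12 : j ≠ k) :
    E P Q j i k = E P Q i j k := by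
  rw [E_rot, E23 hP hQ h01 h02 h12]

def D (P Q : ι → ℝ × ℝ) (i j k l : ι) : Prop :=
  ((E P Q i j k == E P Q i j l) == (E P Q i k l == E P Q j k l)) = true

theorem main1 (hP : GP P) (hQ : GP Q) (H : Sub P Q) (hI : Function.Injective Q) (hH : Hu P = Hu Q)
    (h3 : 2 < (Hu P).ncard) : ∃ e, ∀ i j k, i ≠ j → i ≠ k → j ≠ k → E P Q i j k = e := by
  obtain ⟨x0, hx0, y0, hy0, z0, hz0, xy, xz, yz⟩ := (Set.two_lt_ncard (Set.toFinite _)).1 h3
  refine ⟨E P Q x0 y0 z0, ?_⟩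
  generalize he : E P Q x0 y0 z0 = e
  have B : ∀ {i j k}, E P Q i j k = e ↔ ((c P i j k == c Q i j k) == e) = true := by
    intro i j k; simp [E]
  have rep : ∀ x ∈ Hu P, ∀ w ∈ Hu P, ∀ y ∈ Hu P, ∀ z ∈ Hu P, x ≠ y → x ≠ z → w ≠ y → w ≠ z → y ≠ z →
      E P Q x y z = e → E P Q w y z = e := by
    intro x hx w hw y hy z hz a1 a2 a3 a4 a5 h
    by_cases hh : x = w
    · rwa [← hh]
    · exact B.2 (m1 hP hQ H hh a1 a2 a3 a4 a5 (F1 hx) (F1 hw) (F1 hy) (F1 hz) (B.1 h))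
  have s3 : ∀ z ∈ Hu P, x0 ≠ z → y0 ≠ z → E P Q x0 y0 z = e := by
    intro z hz a b
    rw [← E_rot]
    exact rep z0 hz0 z hz x0 hx0 y0 hy0 xz.symm yz.symm a.symm b.symm xy (by rw [E_rot]; exact he)
  have s2 : ∀ y ∈ Hu P, ∀ z ∈ Hu P, x0 ≠ y → x0 ≠ z → y ≠ z → E P Q x0 y z = e := by
    intro y hy z hz a b d
    by_cases hh : y0 = z
    · subst hh; rw [E23 hP hQ xy a d.symm]; exact s3 y hy a d.symm
    · rw [← E12 hP hQ a b d]
      exact rep y0 hy0 y hy x0 hx0 z hz xy.symm hh a.symm d b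
        (by rw [E12 hP hQ xy b hh]; exact s3 z hz b hh)
  have M1 : ∀ x ∈ Hu P, ∀ y ∈ Hu P, ∀ z ∈ Hu P, x ≠ y → x ≠ z → y ≠ z → E P Q x y z = e := by
    intro x hx y hy z hz a b d
    by_cases h1 : x0 = y
    · subst h1; rw [E_rot]; exact s2 z hz x hx d a.symm b.symm
    by_cases h2 : x0 = z
    · subst h2; rw [← E_rot]; exact s2 x hx y hy b.symm d.symm a
    exact rep x0 hx0 x hx y hy z hz h1 h2 a b d (s2 y hy z hz h1 h2 d)
  have M2 : ∀ x ∈ Hu P, ∀ y ∈ Hu P, ∀ p, x ≠ y → x ≠ p → y ≠ p → E P Q x y p = e := by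
    intro x hx y hy p a b d
    by_cases hp : p ∈ Hu P
    · exact M1 x hx y hy p hp a b d
    obtain ⟨u, hu, w, hw, k0, k1, k2, xw, -, wp⟩ := F3 hQ hI (hH ▸ hp) b
    rw [← hH] at hu hw
    obtain ⟨xu, -, up⟩ := c_ne k0
    have uw := (c_ne k2).1
    have k3 := B.1 (M1 x hx u hu w hw xu xw uw)
    have A := m2a hP hQ H xu xw b uw up wp (F1 hx) (F1 hu) (F1 hw) k0 k1 k2 k3
    rw [Bool.and_eq_true] at A
    by_cases h1 : u = y
    · subst h1; exact B.2 A.1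
    by_cases h2 : w = y
    · subst h2; exact B.2 A.2
    exact B.2 (m2b hP hQ H xu xw a b uw h1 up h2 wp d (F1 hx) (F1 hu) (F1 hw) (F1 hy) k0 k1 k2 k3)
  have M3 : ∀ x ∈ Hu P, ∀ p q, x ≠ p → x ≠ q → p ≠ q → E P Q x p q = e := by
    intro x hx p q a b d
    by_cases hp : p ∈ Hu P
    · exact M2 x hx p hp q a b d
    by_cases hq : q ∈ Hu P
    · rw [E23 hP hQ b a d.symm]; exact M2 x hx q hq p b a d.symm
    obtain ⟨y, hy, k, yp, yq⟩ := F2c hQ hI (hH ▸ hp) d.symm (!c Q x p q)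
    rw [← hH] at hy
    have xy' : x ≠ y := by rintro rfl; simp at k
    have : ∃ z ∈ Hu P, x ≠ z ∧ y ≠ z := by
      by_contra hc
      push Not at hc
      by_cases e1 : x = x0
      · subst e1; exact yz ((hc y0 hy0 xy).symm.trans (hc z0 hz0 xz))
      by_cases e2 : x = y0
      · subst e2; exact xz ((hc x0 hx0 e1).symm.trans (hc z0 hz0 yz))
      exact xy ((hc x0 hx0 e1).symm.trans (hc y0 hy0 e2))
    obtain ⟨z, hz, xz', yz'⟩ := this
    have zp : z ≠ p := by rintro rfl; exact hp hz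
    have zq : z ≠ q := by rintro rfl; exact hq hz
    exact B.2 (m3 hP hQ H xy' xz' a b yz' yp yq zp zq d (F1 hx) (F1 hy) (F1 hz) (by rw [k]; simp)
      (B.1 (M2 x hx y hy p xy' a yp)) (B.1 (M2 x hx y hy q xy' b yq)) (B.1 (M2 x hx z hz p xz' a zp))
      (B.1 (M2 x hx z hz q xz' b zq)) (B.1 (M2 y hy z hz p yz' yp zp)) (B.1 (M2 y hy z hz q yz' yq zq)))
  intro p q r a b d
  by_cases hp : p ∈ Hu P
  · exact M3 p hp q r a b d
  by_cases hq : q ∈ Hu P
  · rw [E_rot]; exact M3 q hq r p d a.symm b.symm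
  by_cases hr : r ∈ Hu P
  · rw [← E_rot]; exact M3 r hr p q b.symm d.symm a
  obtain ⟨u, hu, k, up, uq⟩ := F2c hQ hI (hH ▸ hp) a.symm true
  obtain ⟨w, hw, k', wp, wq⟩ := F2c hQ hI (hH ▸ hp) a.symm false
  rw [← hH] at hu hw
  have uw : u ≠ w := by rintro rfl; simp [k] at k'
  have ur : u ≠ r := by rintro rfl; exact hr hu
  have wr : w ≠ r := by rintro rfl; exact hr hw
  exact B.2 (m4 hP hQ H uw up uq ur wp wq wr a b d (F1 hu) (F1 hw) (by rw [k, k']; rfl)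
    (B.1 (M3 u hu p q up uq a)) (B.1 (M3 u hu p r up ur b)) (B.1 (M3 u hu q r uq ur d))
    (B.1 (M3 w hw p q wp wq a)) (B.1 (M3 w hw p r wp wr b)) (B.1 (M3 w hw q r wq wr d))
    (B.1 (M3 u hu w p uw up wp)) (B.1 (M3 u hu w q uw uq wq)) (B.1 (M3 u hu w r uw ur wr)))

section
variable (hP : GP P) (hQ : GP Q) {i j k l : ι} (h01 : i ≠ j) (h02 : i ≠ k) (h03 : i ≠ l) (h12 : j ≠ k)
  (h13 : j ≠ l) (h23 : k ≠ l)
include hP hQ h01 h02 h03 h12 h13 h23

theorem D12 (h : D P Q j i k l) : D P Q i j k l := by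
  unfold D at *
  rw [E12 hP hQ h01 h02 h12, E12 hP hQ h01 h03 h13] at h
  revert h
  cases E P Q i j k <;> cases E P Q i j l <;> cases E P Q i k l <;> cases E P Q j k l <;> decide

theorem D23 (h : D P Q i k j l) : D P Q i j k l := by
  unfold D at *
  rw [E23 hP hQ h01 h02 h12, E12 hP hQ h12 h13 h23] at h
  revert h
  cases E P Q i j k <;> cases E P Q i j l <;> cases E P Q i k l <;> cases E P Q j k l <;> decide

theorem D34 (h : D P Q i j l k) : D P Q i j k l := by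
  unfold D at *
  rw [E23 hP hQ h02 h03 h23, E23 hP hQ h12 h13 h23] at h
  revert h
  cases E P Q i j k <;> cases E P Q i j l <;> cases E P Q i k l <;> cases E P Q j k l <;> decide

end

theorem Dpar {x i j k l : ι} (a : D P Q x i j k) (b : D P Q x i j l) (d : D P Q x i k l)
    (e : D P Q x j k l) : D P Q i j k l := by
  unfold D at *
  revert a b d e
  generalize E P Q x i j = v1, E P Q x i k = v2, E P Q x i l = v3, E P Q x j k = v4, E P Q x j l = v5,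
    E P Q x k l = v6, E P Q i j k = v7, E P Q i j l = v8, E P Q i k l = v9, E P Q j k l = v0
  revert v1 v2 v3 v4 v5 v6 v7 v8 v9 v0
  decide +kernel

def T (Q : ι → ℝ × ℝ) (x y z : ι) : Prop :=
  x ≠ y ∧ x ≠ z ∧ y ≠ z ∧ ∀ p, x ≠ p → y ≠ p → z ≠ p → Ins Q x y z p

theorem T.rot (hQ : GP Q) {x y z : ι} (h : T Q x y z) : T Q y z x :=
  ⟨h.2.2.1, h.1.symm, h.2.1.symm, fun p a b d => (h.2.2.2 p d a b).rot hQ⟩

theorem L2 (hP : GP P) (hQ : GP Q) (H : Sub P Q) {x y z : ι} (h : T Q x y z) {j k : ι} (a : x ≠ j)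
    (b : x ≠ k) (d : y ≠ j) (e : y ≠ k) (f : j ≠ k) : D P Q x y j k := by
  obtain ⟨xy, xz, yz, h⟩ := h
  by_cases h1 : z = j
  · subst h1
    obtain ⟨k0, k1, k2, -⟩ := h k b e f
    exact s4 hP hQ H xy a b d e f k0 k1 k2
  by_cases h2 : z = k
  · subst h2
    obtain ⟨k0, k1, k2, -⟩ := h j a d h1
    exact D34 hP hQ xy a b d e f (s4 hP hQ H xy b a e d h1 k0 k1 k2)
  obtain ⟨k0, k1, k2, -⟩ := h j a d h1
  obtain ⟨k3, k4, k5, -⟩ := h k b e h2
  have := s5 hP hQ H xy xz a b yz d e h1 h2 f k0 k1 k2 k3 k4 k5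
  rw [Bool.and_eq_true] at this
  exact this.1

theorem L1 (hP : GP P) (hQ : GP Q) (H : Sub P Q) {x y z : ι} (h : T Q x y z) {i j k : ι} (a : x ≠ i)
    (b : x ≠ j) (d : x ≠ k) (e : i ≠ j) (f : i ≠ k) (g : j ≠ k) : D P Q x i j k := by
  have A : ∀ i j k, (y = i ∨ z = i) → x ≠ j → x ≠ k → i ≠ j → i ≠ k → j ≠ k → D P Q x i j k := by
    rintro i j k (rfl | rfl) b d e f g
    · exact L2 hP hQ H h b d e f g
    · exact D12 hP hQ h.2.1 b d e f g (L2 hP hQ H ((h.rot hQ).rot hQ) e f b d g)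
  by_cases h1 : y = i ∨ z = i
  · exact A i j k h1 b d e f g
  by_cases h2 : y = j ∨ z = j
  · exact D23 hP hQ a b d e f g (A j i k h2 a d e.symm g f)
  by_cases h3 : y = k ∨ z = k
  · exact D34 hP hQ a b d e f g (D23 hP hQ a d b f e g.symm (A k i j h3 a b f.symm g.symm e))
  push Not at h1 h2 h3
  obtain ⟨xy, xz, yz, h⟩ := h
  obtain ⟨k0, k1, k2, -⟩ := h i a h1.1 h1.2
  obtain ⟨k3, k4, k5, -⟩ := h j b h2.1 h2.2
  obtain ⟨k6, k7, k8, -⟩ := h k d h3.1 h3.2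
  exact s6 hP hQ H xy xz a b d yz h1.1 h2.1 h3.1 h1.2 h2.2 h3.2 e f g k0 k1 k2 k3 k4 k5 k6 k7 k8

theorem L0 (hP : GP P) (hQ : GP Q) (H : Sub P Q) {x y z : ι} (h : T Q x y z) {i j k l : ι}
    (h01 : i ≠ j) (h02 : i ≠ k) (h03 : i ≠ l) (h12 : j ≠ k) (h13 : j ≠ l) (h23 : k ≠ l) :
    D P Q i j k l := by
  by_cases a : x = i
  · subst a; exact L1 hP hQ H h h01 h02 h03 h12 h13 h23
  by_cases b : x = j
  · subst b; exact D12 hP hQ h01 h02 h03 h12 h13 h23 (L1 hP hQ H h a h12 h13 h02 h03 h23)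
  by_cases d : x = k
  · subst d
    exact D23 hP hQ h01 h02 h03 h12 h13 h23 (D12 hP hQ h02 h01 h03 b h23 h13
      (L1 hP hQ H h a b h23 h01 h03 h13))
  by_cases e : x = l
  · subst e
    exact D34 hP hQ h01 h02 h03 h12 h13 h23 (D23 hP hQ h01 h03 h02 h13 h12 d
      (D12 hP hQ h03 h01 h02 b d h12 (L1 hP hQ H h a b d h01 h02 h12)))
  exact Dpar (L1 hP hQ H h a b d h01 h02 h12) (L1 hP hQ H h a b e h01 h03 h13)
    (L1 hP hQ H h a d e h02 h03 h23) (L1 hP hQ H h b d e h12 h13 h23)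

theorem exT (hQ : GP Q) (hI : Function.Injective Q) (h3 : (Hu Q).ncard ≤ 3) {i j k l : ι}
    (h01 : i ≠ j) (h02 : i ≠ k) (h03 : i ≠ l) (h12 : j ≠ k) (h13 : j ≠ l) (h23 : k ≠ l) :
    ∃ x y z, T Q x y z := by
  have N4 : ∀ a ∈ Hu Q, ∀ b ∈ Hu Q, ∀ d ∈ Hu Q, ∀ e ∈ Hu Q, a ≠ b → a ≠ d → a ≠ e → b ≠ d → b ≠ e →
      d ≠ e → False := by
    intro a ha b hb d hd e he a1 a2 a3 a4 a5 a6
    have := (Set.three_lt_ncard (Set.toFinite (Hu Q))).2 ⟨a, ha, b, hb, d, hd, e, he, a1, a2, a3, a4, a5, a6⟩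
    omega
  have : ∃ p, p ∉ Hu Q := by
    by_contra hc
    push Not at hc
    exact N4 i (hc i) j (hc j) k (hc k) l (hc l) h01 h02 h03 h12 h13 h23
  obtain ⟨p, hp⟩ := this
  have : ∃ q, q ≠ p := by
    by_cases h : i = p
    · exact ⟨j, h ▸ h01.symm⟩
    · exact ⟨i, h⟩
  obtain ⟨q, hq⟩ := this
  obtain ⟨x, hx, -, xp, -⟩ := F2c hQ hI hp hq true
  obtain ⟨y, hy, z, hz, hi⟩ := F3 hQ hI hp xp
  have hpos := hi.pos
  obtain ⟨xy, xz, yz⟩ := c_ne hpos
  refine ⟨x, y, z, xy, xz, yz, fun r a b d => ?_⟩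
  have hr : r ∉ Hu Q := fun hr => N4 x hx y hy z hz r hr xy xz a yz b d
  obtain ⟨u, hu, w, hw, hj⟩ := F3 hQ hI hr a
  have hpos' := hj.pos
  obtain ⟨xu, xw, uw⟩ := c_ne hpos'
  by_cases e1 : y = u
  · subst e1
    by_cases e2 : z = w
    · subst e2; exact hj
    · exact (N4 x hx y hy z hz w hw xy xz xw yz uw e2).elim
  by_cases e2 : z = u
  · subst e2
    by_cases e3 : y = w
    · subst e3
      rw [c_swap hQ xy xz yz, hpos] at hpos'
      simp at hpos'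
    · exact (N4 x hx y hy z hz w hw xy xz xw yz e3 uw).elim
  exact (N4 x hx y hy z hz u hu xy xz xu yz e1 e2).elim

theorem X_ne {i j k l : ι} (h : X Q i j k l) : i ≠ j ∧ i ≠ k ∧ i ≠ l ∧ j ≠ k ∧ j ≠ l ∧ k ≠ l := by
  obtain ⟨a, b⟩ := h
  refine ⟨?_, ?_, ?_, ?_, ?_, ?_⟩ <;> rintro rfl <;> unfold o at a b <;> nlinarith

theorem core (hP : GP P) (hQ : GP Q) (H : Sub P Q) (hI : Function.Injective Q)
    (h : (Hu Q).ncard ≤ (Hu P).ncard) : Sub Q P := by
  intro i j k l hx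
  obtain ⟨h01, h02, h03, h12, h13, h23⟩ := X_ne hx
  have hD : D P Q i j k l := by
    by_cases h3 : (Hu Q).ncard ≤ 3
    · obtain ⟨x, y, z, hT⟩ := exT hQ hI h3 h01 h02 h03 h12 h13 h23
      exact L0 hP hQ H hT h01 h02 h03 h12 h13 h23
    · have hH : Hu P = Hu Q := Set.eq_of_subset_of_ncard_le (lemA hP hQ H hI (by omega)) h
      obtain ⟨e, he⟩ := main1 hP hQ H hI hH (by omega)
      unfold D
      rw [he _ _ _ h01 h02 h12, he _ _ _ h01 h03 h13, he _ _ _ h02 h03 h23, he _ _ _ h12 h13 h23]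
      simp
  rw [X_iff hQ h01 h02 h03 h12 h13 h23, Bool.and_eq_true] at hx
  rw [X_iff hP h01 h02 h03 h12 h13 h23]
  exact fin hP hQ H h01 h02 h03 h12 h13 h23 hD hx.1 hx.2

end Pool.Agent.H13.GeoK
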