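import Pool.Agent.H13.GeoP4

set_option maxRecDepth 100000
set_option linter.defProp false

namespace Pool.Agent.H13.GeoP

def ng0 : (List.range' 0 2).all (negB T7 AL7 V7 LS7) = true := by decide +kernel

def ng1 : (List.range' 2 2).all (negB T7 AL7 V7 LS7) = true := by decide +kernel

def ng2 : (List.range' 4 2).all (negB T7 AL7 V7 LS7) = true := by decide +kernel

def ng3 : (List.range' 6 3).all (negB T7 AL7 V7 LS7) = true := by decide +kernel

def ng4 : (List.range' 9 2).all (negB T7 AL7 V7 LS7) = true := by decide +kernel

def ng5 : (List.range' 11 3).all (negB T7 AL7 V7 LS7) = true := by decide +kernel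

def ng6 : (List.range' 14 2).all (negB T7 AL7 V7 LS7) = true := by decide +kernel

def ng7 : (List.range' 16 2).all (negB T7 AL7 V7 LS7) = true := by decide +kernel

def ng8 : (List.range' 18 2).all (negB T7 AL7 V7 LS7) = true := by decide +kernel

def ng9 : (List.range' 20 3).all (negB T7 AL7 V7 LS7) = true := by decide +kernel

def ng10 : (List.range' 23 4).all (negB T7 AL7 V7 LS7) = true := by decide +kernel

def ng11 : (List.range' 27 2).all (negB T7 AL7 V7 LS7) = true := by decide +kernel

def ng12 : (List.range' 29 2).all (negB T7 AL7 V7 LS7) = true := by decide +kernel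

end Pool.Agent.H13.GeoP
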