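import Pool.Agent.H13.GeoP4

set_option maxRecDepth 100000
set_option linter.defProp false

namespace Pool.Agent.H13.GeoP

def ng13 : (List.range' 31 2).all (negB T7 AL7 V7 LS7) = true := by decide +kernel

def ng14 : (List.range' 33 2).all (negB T7 AL7 V7 LS7) = true := by decide +kernel

def ng15 : (List.range' 35 3).all (negB T7 AL7 V7 LS7) = true := by decide +kernel

def ng16 : (List.range' 38 2).all (negB T7 AL7 V7 LS7) = true := by decide +kernel

def ng17 : (List.range' 40 1).all (negB T7 AL7 V7 LS7) = true := by decide +kernel

def ng18 : (List.range' 41 2).all (negB T7 AL7 V7 LS7) = true := by decide +kernel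

def ng19 : (List.range' 43 1).all (negB T7 AL7 V7 LS7) = true := by decide +kernel

def ng20 : (List.range' 44 1).all (negB T7 AL7 V7 LS7) = true := by decide +kernel

def ng21 : (List.range' 45 2).all (negB T7 AL7 V7 LS7) = true := by decide +kernel

def ng22 : (List.range' 47 2).all (negB T7 AL7 V7 LS7) = true := by decide +kernel

def ng23 : (List.range' 49 1).all (negB T7 AL7 V7 LS7) = true := by decide +kernel

def ng24 : (List.range' 50 2).all (negB T7 AL7 V7 LS7) = true := by decide +kernel

def ng25 : (List.range' 52 2).all (negB T7 AL7 V7 LS7) = true := by decide +kernel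

end Pool.Agent.H13.GeoP
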