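import Pool.Agent.H13.GeoP4

set_option maxRecDepth 100000
set_option linter.defProp false

namespace Pool.Agent.H13.GeoP

def ng26 : (List.range' 54 3).all (negB T7 AL7 V7 LS7) = true := by decide +kernel

def ng27 : (List.range' 57 2).all (negB T7 AL7 V7 LS7) = true := by decide +kernel

def ng28 : (List.range' 59 3).all (negB T7 AL7 V7 LS7) = true := by decide +kernel

def ng29 : (List.range' 62 2).all (negB T7 AL7 V7 LS7) = true := by decide +kernel

def ng30 : (List.range' 64 2).all (negB T7 AL7 V7 LS7) = true := by decide +kernel

def ng31 : (List.range' 66 2).all (negB T7 AL7 V7 LS7) = true := by decide +kernel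

def ng32 : (List.range' 68 1).all (negB T7 AL7 V7 LS7) = true := by decide +kernel

def ng33 : (List.range' 69 2).all (negB T7 AL7 V7 LS7) = true := by decide +kernel

def ng34 : (List.range' 71 2).all (negB T7 AL7 V7 LS7) = true := by decide +kernel

def ng35 : (List.range' 73 3).all (negB T7 AL7 V7 LS7) = true := by decide +kernel

def ng36 : (List.range' 76 2).all (negB T7 AL7 V7 LS7) = true := by decide +kernel

def ng37 : (List.range' 78 2).all (negB T7 AL7 V7 LS7) = true := by decide +kernel

def ng38 : (List.range' 80 2).all (negB T7 AL7 V7 LS7) = true := by decide +kernel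

end Pool.Agent.H13.GeoP
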