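import Pool.Agent.H13.GeoP4

set_option maxRecDepth 100000
set_option linter.defProp false

namespace Pool.Agent.H13.GeoP

def ng39 : (List.range' 82 1).all (negB T7 AL7 V7 LS7) = true := by decide +kernel

def ng40 : (List.range' 83 1).all (negB T7 AL7 V7 LS7) = true := by decide +kernel

def ng41 : (List.range' 84 2).all (negB T7 AL7 V7 LS7) = true := by decide +kernel

def ng42 : (List.range' 86 2).all (negB T7 AL7 V7 LS7) = true := by decide +kernel

def ng43 : (List.range' 88 2).all (negB T7 AL7 V7 LS7) = true := by decide +kernel

def ng44 : (List.range' 90 1).all (negB T7 AL7 V7 LS7) = true := by decide +kernel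

def ng45 : (List.range' 91 3).all (negB T7 AL7 V7 LS7) = true := by decide +kernel

def ng46 : (List.range' 94 3).all (negB T7 AL7 V7 LS7) = true := by decide +kernel

def ng47 : (List.range' 97 2).all (negB T7 AL7 V7 LS7) = true := by decide +kernel

def ng48 : (List.range' 99 1).all (negB T7 AL7 V7 LS7) = true := by decide +kernel

def ng49 : (List.range' 100 1).all (negB T7 AL7 V7 LS7) = true := by decide +kernel

def ng50 : (List.range' 101 1).all (negB T7 AL7 V7 LS7) = true := by decide +kernel

def ng51 : (List.range' 102 1).all (negB T7 AL7 V7 LS7) = true := by decide +kernel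

end Pool.Agent.H13.GeoP
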