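import Pool.Agent.H13.GeoP4

set_option maxRecDepth 100000
set_option linter.defProp false

namespace Pool.Agent.H13.GeoP

def ng52 : (List.range' 103 1).all (negB T7 AL7 V7 LS7) = true := by decide +kernel

def ng53 : (List.range' 104 1).all (negB T7 AL7 V7 LS7) = true := by decide +kernel

def ng54 : (List.range' 105 1).all (negB T7 AL7 V7 LS7) = true := by decide +kernel

def ng55 : (List.range' 106 1).all (negB T7 AL7 V7 LS7) = true := by decide +kernel

def ng56 : (List.range' 107 1).all (negB T7 AL7 V7 LS7) = true := by decide +kernel

def ng57 : (List.range' 108 1).all (negB T7 AL7 V7 LS7) = true := by decide +kernel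

def ng58 : (List.range' 109 4).all (negB T7 AL7 V7 LS7) = true := by decide +kernel

def ng59 : (List.range' 113 4).all (negB T7 AL7 V7 LS7) = true := by decide +kernel

def ng60 : (List.range' 117 2).all (negB T7 AL7 V7 LS7) = true := by decide +kernel

def ng61 : (List.range' 119 1).all (negB T7 AL7 V7 LS7) = true := by decide +kernel

def ng62 : (List.range' 120 1).all (negB T7 AL7 V7 LS7) = true := by decide +kernel

def ng63 : (List.range' 121 1).all (negB T7 AL7 V7 LS7) = true := by decide +kernel

end Pool.Agent.H13.GeoP
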