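import Pool.Agent.H13.GeoP4

set_option maxRecDepth 100000
set_option linter.defProp false

namespace Pool.Agent.H13.GeoP

def ps0 : (List.range' 0 12).all (posB 7 122 T7 AL7 V7 MM7 WT7) = true := by decide +kernel

def ps1 : (List.range' 12 7).all (posB 7 122 T7 AL7 V7 MM7 WT7) = true := by decide +kernel

def ps2 : (List.range' 19 10).all (posB 7 122 T7 AL7 V7 MM7 WT7) = true := by decide +kernel

def ps3 : (List.range' 29 10).all (posB 7 122 T7 AL7 V7 MM7 WT7) = true := by decide +kernel

def ps4 : (List.range' 39 5).all (posB 7 122 T7 AL7 V7 MM7 WT7) = true := by decide +kernel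

def ps5 : (List.range' 44 3).all (posB 7 122 T7 AL7 V7 MM7 WT7) = true := by decide +kernel

def ps6 : (List.range' 47 2).all (posB 7 122 T7 AL7 V7 MM7 WT7) = true := by decide +kernel

def ps7 : (List.range' 49 3).all (posB 7 122 T7 AL7 V7 MM7 WT7) = true := by decide +kernel

def ps8 : (List.range' 52 6).all (posB 7 122 T7 AL7 V7 MM7 WT7) = true := by decide +kernel

def ps9 : (List.range' 58 6).all (posB 7 122 T7 AL7 V7 MM7 WT7) = true := by decide +kernel

def ps10 : (List.range' 64 5).all (posB 7 122 T7 AL7 V7 MM7 WT7) = true := by decide +kernel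

def ps11 : (List.range' 69 6).all (posB 7 122 T7 AL7 V7 MM7 WT7) = true := by decide +kernel

def ps12 : (List.range' 75 6).all (posB 7 122 T7 AL7 V7 MM7 WT7) = true := by decide +kernel

def ps13 : (List.range' 81 3).all (posB 7 122 T7 AL7 V7 MM7 WT7) = true := by decide +kernel

end Pool.Agent.H13.GeoP
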