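import Pool.Agent.H13.GeoP4

set_option maxRecDepth 100000
set_option linter.defProp false

namespace Pool.Agent.H13.GeoP

def ps14 : (List.range' 84 6).all (posB 7 122 T7 AL7 V7 MM7 WT7) = true := by decide +kernel

def ps15 : (List.range' 90 8).all (posB 7 122 T7 AL7 V7 MM7 WT7) = true := by decide +kernel

def ps16 : (List.range' 98 2).all (posB 7 122 T7 AL7 V7 MM7 WT7) = true := by decide +kernel

def ps17 : (List.range' 100 2).all (posB 7 122 T7 AL7 V7 MM7 WT7) = true := by decide +kernel

def ps18 : (List.range' 102 2).all (posB 7 122 T7 AL7 V7 MM7 WT7) = true := by decide +kernel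

def ps19 : (List.range' 104 2).all (posB 7 122 T7 AL7 V7 MM7 WT7) = true := by decide +kernel

def ps20 : (List.range' 106 1).all (posB 7 122 T7 AL7 V7 MM7 WT7) = true := by decide +kernel

def ps21 : (List.range' 107 1).all (posB 7 122 T7 AL7 V7 MM7 WT7) = true := by decide +kernel

def ps22 : (List.range' 108 1).all (posB 7 122 T7 AL7 V7 MM7 WT7) = true := by decide +kernel

def ps23 : (List.range' 109 10).all (posB 7 122 T7 AL7 V7 MM7 WT7) = true := by decide +kernel

def ps24 : (List.range' 119 1).all (posB 7 122 T7 AL7 V7 MM7 WT7) = true := by decide +kernel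

def ps25 : (List.range' 120 1).all (posB 7 122 T7 AL7 V7 MM7 WT7) = true := by decide +kernel

def ps26 : (List.range' 121 1).all (posB 7 122 T7 AL7 V7 MM7 WT7) = true := by decide +kernel

end Pool.Agent.H13.GeoP
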