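import Pool.Agent.H13.GeoK2

set_option linter.unusedVariables false

namespace Pool.Agent.H13.GeoP
open Pool.Agent.H13.GeoK

def frc (x : ℕ) (k : ℕ → Bool) : Bool := Nat.rec (k 0) (fun n _ => k (Nat.succ n)) x

theorem frc_eq (x : ℕ) (k : ℕ → Bool) : frc x k = k x := by cases x <;> rfl

def ix4 (a b c d : ℕ) : ℕ := 343 * a + 49 * b + 7 * c + d

abbrev En := ℕ × ℕ × ℕ × ℕ × ℕ

def lvl (F : ℕ) (g : List ℕ) (k : ℕ → Bool) : List En → ℕ → Bool
  | [], al => k al
  | e :: L, al => cond (F.testBit (ix4 (g.getD e.1 0) (g.getD e.2.1 0) (g.getD e.2.2.1 0) (g.getD e.2.2.2.1 0)))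
      (lvl F g k L al) (frc (al &&& e.2.2.2.2) fun b => Nat.beq b 0 || lvl F g k L b)

def go (F : ℕ) (VS : List ℕ) : List (List En) → List ℕ → ℕ → Bool
  | [], _, _ => false
  | L :: Ls, g, al => VS.all fun v => g.any (Nat.beq v) || lvl F (v :: g) (go F VS Ls (v :: g)) L al

def okL (FA A : ℕ) : List (List En) → ℕ → Bool
  | [], _ => true
  | L :: Ls, t => (L.all fun e => Nat.ble e.1 t && Nat.ble e.2.1 t && Nat.ble e.2.2.1 t && Nat.ble e.2.2.2.1 t &&
      (e.2.2.2.2.testBit A || FA.testBit (ix4 (t - e.1) (t - e.2.1) (t - e.2.2.1) (t - e.2.2.2.1)))) &&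
      okL FA A Ls (t + 1)

theorem lvl_sound (F A : ℕ) (g : List ℕ) (k : ℕ → Bool) : ∀ (L : List En) (al : ℕ),
    (∀ e ∈ L, e.2.2.2.2.testBit A = true ∨
      F.testBit (ix4 (g.getD e.1 0) (g.getD e.2.1 0) (g.getD e.2.2.1 0) (g.getD e.2.2.2.1 0)) = true) →
    al.testBit A = true → lvl F g k L al = true → ∃ b, b.testBit A = true ∧ k b = true := by
  intro L
  induction L with
  | nil => intro al _ h1 h2; exact ⟨al, h1, h2⟩
  | cons e L ih =>
    intro al h h1 h2
    have h' := fun x hx => h x (List.mem_cons_of_mem _ hx)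
    have he := h e List.mem_cons_self
    unfold lvl at h2
    by_cases hb : F.testBit (ix4 (g.getD e.1 0) (g.getD e.2.1 0) (g.getD e.2.2.1 0) (g.getD e.2.2.2.1 0)) = true
    · rw [hb] at h2; exact ih al h' h1 h2
    · have hb' := Bool.eq_false_iff.2 hb
      rw [hb', cond_false, frc_eq, Bool.or_eq_true, Nat.beq_eq] at h2
      have hA : (al &&& e.2.2.2.2).testBit A = true := by
        rw [Nat.testBit_and, h1, he.resolve_right hb]; rfl
      rcases h2 with h2 | h2
      · rw [h2] at hA; simp at hA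
      · exact ih _ h' hA h2

def Gl (f : ℕ → ℕ) : ℕ → List ℕ
  | 0 => []
  | t + 1 => f t :: Gl f t

theorem Gl_mem (f : ℕ → ℕ) (v : ℕ) : ∀ t, v ∈ Gl f t → ∃ a < t, f a = v := by
  intro t
  induction t with
  | zero => simp [Gl]
  | succ t ih =>
    intro h
    rcases List.mem_cons.1 h with h | h
    · exact ⟨t, by omega, h.symm⟩
    · obtain ⟨a, h1, h2⟩ := ih h; exact ⟨a, by omega, h2⟩

theorem Gl_get (f : ℕ → ℕ) : ∀ t k, k ≤ t → (Gl f (t + 1)).getD k 0 = f (t - k) := by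
  intro t
  induction t with
  | zero => intro k hk; obtain rfl : k = 0 := by omega
            rfl
  | succ t ih =>
    intro k hk
    cases k with
    | zero => rfl
    | succ k => rw [Gl, List.getD_cons_succ, ih k (by omega)]; congr 1; omega

theorem go_sound (F FA A n : ℕ) (VS : List ℕ) (f : ℕ → ℕ) (hinj : ∀ a < n, ∀ b < n, f a = f b → a = b)
    (hV : ∀ a < n, f a ∈ VS) (hom : ∀ a < n, ∀ b < n, ∀ c < n, ∀ d < n, FA.testBit (ix4 a b c d) = true →
      F.testBit (ix4 (f a) (f b) (f c) (f d)) = true) :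
    ∀ (Ls : List (List En)) (t al : ℕ), t + Ls.length = n → okL FA A Ls t = true → al.testBit A = true →
      go F VS Ls (Gl f t) al = true → False := by
  intro Ls
  induction Ls with
  | nil => intro t al _ _ _ h; simp [go] at h
  | cons L Ls ih =>
    intro t al hl hok hA h
    simp only [List.length_cons] at hl
    simp only [okL, Bool.and_eq_true, List.all_eq_true, Nat.ble_eq, Bool.or_eq_true] at hok
    simp only [go, List.all_eq_true, Bool.or_eq_true, List.any_eq_true, Nat.beq_eq] at h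
    rcases h (f t) (hV t (by omega)) with ⟨x, hx, e⟩ | h
    · obtain ⟨a, h1, h2⟩ := Gl_mem f x t hx
      have := hinj a (by omega) t (by omega) (h2.trans e.symm)
      omega
    · obtain ⟨b, hb, hk⟩ := lvl_sound F A (Gl f (t + 1)) _ L al (fun e he => by
        obtain ⟨⟨⟨⟨a1, a2⟩, a3⟩, a4⟩, a5⟩ := hok.1 e he
        refine a5.imp id fun a5 => ?_
        rw [Gl_get f t _ a1, Gl_get f t _ a2, Gl_get f t _ a3, Gl_get f t _ a4]
        exact hom _ (by omega) _ (by omega) _ (by omega) _ (by omega) a5) hA h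
      exact ih (t + 1) b (by omega) hok.2 hb hk

def LeT (n FA FB : ℕ) : Prop := ∃ f : Fin n → Fin n, Function.Injective f ∧
  ∀ i j k l : Fin n, FA.testBit (ix4 i j k l) = true → FB.testBit (ix4 (f i) (f j) (f k) (f l)) = true

theorem neg_sound {n FA FB A al : ℕ} {VS : List ℕ} {Ls : List (List En)} (hV : ∀ a < n, a ∈ VS)
    (hl : Ls.length = n) (hok : okL FA A Ls 0 = true) (hA : al.testBit A = true)
    (h : go FB VS Ls [] al = true) : ¬ LeT n FA FB := by
  rintro ⟨f, hf, H⟩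
  refine go_sound FB FA A n VS (fun a => if h : a < n then (f ⟨a, h⟩ : ℕ) else 0) ?_ ?_ ?_ Ls 0 al
    (by omega) hok hA h
  · intro a ha b hb e
    simp only [ha, hb, dite_true] at e
    simpa using hf (Fin.ext e)
  · intro a ha; simp only [ha, dite_true]; exact hV _ (f _).2
  · intro a ha b hb c hc d hd e
    simp only [ha, hb, hc, hd, dite_true]
    exact H ⟨a, ha⟩ ⟨b, hb⟩ ⟨c, hc⟩ ⟨d, hd⟩ e

def permB (n : ℕ) (VS p : List ℕ) : Bool :=
  VS.all fun a => Nat.blt (p.getD a 0) n && VS.all fun b => Nat.beq a b || !(Nat.beq (p.getD a 0) (p.getD b 0))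

theorem permB_sound {n : ℕ} {VS p : List ℕ} (hV : ∀ a < n, a ∈ VS) (h : permB n VS p = true) :
    ∃ f : Fin n → Fin n, Function.Injective f ∧ ∀ i, (f i : ℕ) = p.getD i 0 := by
  simp only [permB, List.all_eq_true, Bool.and_eq_true, Nat.blt_eq, Bool.or_eq_true, Nat.beq_eq,
    Bool.not_eq_true', Bool.eq_false_iff, ne_eq] at h
  refine ⟨fun i => ⟨p.getD i 0, (h i (hV i i.2)).1⟩, fun i j e => ?_, fun _ => rfl⟩
  exact Fin.ext (((h i (hV i i.2)).2 j (hV j j.2)).resolve_right (not_not.2 (congrArg Fin.val e)))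

def homB (n : ℕ) (VS : List ℕ) (FA FB : ℕ) (p : List ℕ) : Bool :=
  permB n VS p && VS.all fun a => VS.all fun b => frc (FA >>> (343 * a + 49 * b) % 2 ^ 49) fun G =>
    Nat.beq G 0 || VS.all fun c => VS.all fun d =>
      !(G.testBit (7 * c + d)) || FB.testBit (ix4 (p.getD a 0) (p.getD b 0) (p.getD c 0) (p.getD d 0))

theorem pos_sound {n FA FB : ℕ} {VS p : List ℕ} (hn : n ≤ 7) (hV : ∀ a < n, a ∈ VS)
    (h : homB n VS FA FB p = true) : LeT n FA FB := by
  simp only [homB, Bool.and_eq_true, List.all_eq_true, frc_eq, Bool.or_eq_true, Nat.beq_eq,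
    Bool.not_eq_true'] at h
  obtain ⟨f, hf, e⟩ := permB_sound hV h.1
  refine ⟨f, hf, fun i j k l hx => ?_⟩
  have hG : (FA >>> (343 * (i : ℕ) + 49 * (j : ℕ)) % 2 ^ 49).testBit (7 * (k : ℕ) + (l : ℕ)) = true := by
    rw [Nat.testBit_mod_two_pow, Nat.testBit_shiftRight, ← add_assoc]
    have := k.2
    have := l.2
    rw [Bool.and_eq_true]
    exact ⟨by simp; omega, hx⟩
  rcases h.2 i (hV i i.2) j (hV j j.2) with h1 | h1
  · rw [h1] at hG; simp at hG
  · rw [e, e, e, e]
    exact (h1 k (hV k k.2) l (hV l l.2)).resolve_left (by rw [hG]; simp)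

def emb (L M : ℕ → ℕ → Bool) (VS : List ℕ) : ℕ → ℕ → List (ℕ × ℕ) → Bool
  | 0, _, _ => false
  | k + 1, t, im => VS.all fun v =>
      !(im.all fun x => (L t x.1 == M v x.2) && (L x.1 t == M x.2 v)) ||
        frc (t + 1) fun u => emb L M VS k u ((t, v) :: im)

theorem emb_sound (L M : ℕ → ℕ → Bool) (VS : List ℕ) (N : ℕ) (φ : ℕ → ℕ) (hV : ∀ t < N, φ t ∈ VS)
    (H : ∀ s < N, ∀ t < N, L s t = M (φ s) (φ t)) : ∀ k t im, t + k = N →
    (∀ x ∈ im, x.1 < N ∧ x.2 = φ x.1) → emb L M VS k t im = true → False := by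
  intro k
  induction k with
  | zero => intro t im _ _ h; simp [emb] at h
  | succ k ih =>
    intro t im hl hi h
    simp only [emb, List.all_eq_true, Bool.or_eq_true, frc_eq, Bool.not_eq_true', Bool.eq_false_iff] at h
    rcases h (φ t) (hV t (by omega)) with h | h
    · apply h
      simp only [List.all_eq_true, Bool.and_eq_true, beq_iff_eq]
      intro x hx
      rw [(hi x hx).2]
      exact ⟨H _ (by omega) _ (hi x hx).1, H _ (hi x hx).1 _ (by omega)⟩
    · refine ih (t + 1) _ (by omega) ?_ h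
      intro x hx
      rcases List.mem_cons.1 hx with rfl | hx
      · exact ⟨by simp; omega, rfl⟩
      · exact hi x hx

def Rep (n : ℕ) (P : Fin n → ℝ × ℝ) (F : ℕ) : Prop := ∃ σ : Fin n ≃ Fin n,
  ∀ i j k l : Fin n, X P (σ i) (σ j) (σ k) (σ l) ↔ F.testBit (ix4 i j k l) = true

def LeX {n : ℕ} (P Q : Fin n → ℝ × ℝ) : Prop := ∃ f : Fin n → Fin n, Function.Injective f ∧
  ∀ i j k l, X P i j k l → X Q (f i) (f j) (f k) (f l)

theorem le_iff {n : ℕ} {P Q : Fin n → ℝ × ℝ} {F G : ℕ} (hP : Rep n P F) (hQ : Rep n Q G) :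
    LeX P Q ↔ LeT n F G := by
  obtain ⟨σ, hσ⟩ := hP
  obtain ⟨τ, hτ⟩ := hQ
  constructor
  · rintro ⟨f, hf, H⟩
    refine ⟨fun i => τ.symm (f (σ i)), τ.symm.injective.comp (hf.comp σ.injective), fun i j k l h => ?_⟩
    rw [← hτ]; simpa using H _ _ _ _ ((hσ i j k l).2 h)
  · rintro ⟨f, hf, H⟩
    refine ⟨fun i => τ (f (σ.symm i)), τ.injective.comp (hf.comp σ.symm.injective), fun i j k l h => ?_⟩
    exact (hτ _ _ _ _).2 (H _ _ _ _ ((hσ _ _ _ _).1 (by simpa using h)))

theorem sorted (Q : Fin 7 → ℝ × ℝ) (hQ : GP Q) (hI : Function.Injective Q) :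
    ∃ τ : Fin 7 ≃ Fin 7, ∀ i j : Fin 7, 0 < i → i < j → c (Q ∘ τ) 0 i j = true := by
  classical
  have : ∃ p, p ∈ Hu Q := by
    by_cases h : (0 : Fin 7) ∈ Hu Q
    · exact ⟨0, h⟩
    · obtain ⟨z, hz, -⟩ := F2c hQ hI h (q := 1) (by decide) true; exact ⟨z, hz⟩
  obtain ⟨p, hp⟩ := this
  have hN := N_c (F1 hp)
  let key : Fin 7 → ℕ := fun u => if u = p then 0 else (Finset.univ.filter fun w => c Q p w u = true).card + 1
  let τ := Tuple.sort key
  have hm : Monotone (key ∘ τ) := Tuple.monotone_sort key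
  have h0 : τ 0 = p := by
    by_contra hn
    have := hm (Fin.zero_le (τ.symm p))
    simp [key, hn] at this
  refine ⟨τ, fun i j hi hij => ?_⟩
  have a1 : τ i ≠ p := by rw [← h0]; exact τ.injective.ne hi.ne'
  have a2 : τ j ≠ p := by rw [← h0]; exact τ.injective.ne (hi.trans hij).ne'
  have a3 : τ i ≠ τ j := τ.injective.ne hij.ne
  show c Q (τ 0) (τ i) (τ j) = true
  rw [h0]
  by_contra hn
  have h1 : c Q p (τ j) (τ i) = true := by rw [c_swap hQ a1.symm a2.symm a3]; simpa using hn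
  have := hm hij.le
  simp only [key, Function.comp, a1, a2, if_false, add_le_add_iff_right] at this
  refine absurd this (not_le.2 (Finset.card_lt_card ⟨fun w hw => ?_, fun hs => ?_⟩))
  · simp only [Finset.mem_filter, Finset.mem_univ, true_and] at hw ⊢
    have b1 := (c_ne hw).1
    have b2 : w ≠ τ i := by rintro rfl; exact hn hw
    have := hN w (τ j) (τ i)
    rw [c_swap hQ b1 a1.symm b2] at this
    simpa [hw, h1] using this
  · have := hs (Finset.mem_filter.2 ⟨Finset.mem_univ (τ j), h1⟩)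
    exact (c_ne (Finset.mem_filter.1 this).2).2.2 rfl

end Pool.Agent.H13.GeoP
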