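import Pool.Agent.H13.GeoP1

set_option linter.unusedVariables false

namespace Pool.Agent.H13.GeoP
open Pool.Agent.H13.GeoK

def ix3 (a b c : ℕ) : ℕ := 16 * (a - 1) + 4 * (b - 2) + (c - 3)

def fn (a : ℕ) : Fin 7 := Fin.ofNat 7 a

def V7 : List ℕ := [0, 1, 2, 3, 4, 5, 6]

theorem V7_mem : ∀ a < 7, a ∈ V7 := by decide

def QD : List (ℕ × ℕ × ℕ × ℕ) := [(1,2,3,4),(1,2,3,5),(1,2,4,5),(1,3,4,5),(2,3,4,5),(1,2,3,6),(1,2,4,6),
  (1,3,4,6),(2,3,4,6),(1,2,5,6),(1,3,5,6),(2,3,5,6),(1,4,5,6),(2,4,5,6),(3,4,5,6)]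

def mono (x y z w : Bool) : Bool := gpB true z true y true x && gpB true w true y true x &&
  gpB true w true z true x && gpB true w true z true y

def bq (m a : ℕ) (q : ℕ × ℕ × ℕ × ℕ) : Bool :=
  a.testBit (ix3 q.1 q.2.1 q.2.2.1) && a.testBit (ix3 q.1 q.2.1 q.2.2.2) &&
  a.testBit (ix3 q.1 q.2.2.1 q.2.2.2) && a.testBit (ix3 q.2.1 q.2.2.1 q.2.2.2) &&
  !(mono (m.testBit (ix3 q.1 q.2.1 q.2.2.1)) (m.testBit (ix3 q.1 q.2.1 q.2.2.2))
    (m.testBit (ix3 q.1 q.2.2.1 q.2.2.2)) (m.testBit (ix3 q.2.1 q.2.2.1 q.2.2.2)))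

def bad (m a : ℕ) : Bool := QD.any (bq m a)

noncomputable def vv (Q : Fin 7 → ℝ × ℝ) (s : ℕ) : Bool := c Q (fn (s / 16 + 1)) (fn (s / 4 % 4 + 2)) (fn (s % 4 + 3))

theorem vv_ix (Q : Fin 7 → ℝ × ℝ) {i j k : ℕ} (hi : 0 < i ∧ i < j) (hj : j < k) (hk : k < 7) :
    vv Q (ix3 i j k) = c Q (fn i) (fn j) (fn k) := by
  unfold vv ix3
  congr 1 <;> apply Fin.ext <;> simp only [fn, Fin.ofNat] <;> omega

theorem fn_lt {i j : ℕ} (h : i < j) (hj : j < 7) : fn i < fn j := by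
  simp only [fn, Fin.lt_def, Fin.ofNat]; omega

theorem bad_sound (Q : Fin 7 → ℝ × ℝ) (hQ : GP Q) (h0 : ∀ i j : Fin 7, 0 < i → i < j → c Q 0 i j = true)
    (m a : ℕ) (h : ∀ s, m.testBit s = (a.testBit s && vv Q s)) : bad m a = false := by
  rw [Bool.eq_false_iff]
  intro hb
  simp only [bad, bq, List.any_eq_true, Bool.and_eq_true, Bool.not_eq_true'] at hb
  obtain ⟨⟨i, j, k, l⟩, hq, ⟨⟨⟨a1, a2⟩, a3⟩, a4⟩, a5⟩ := hb
  have : ∀ q ∈ QD, 0 < q.1 ∧ q.1 < q.2.1 ∧ q.2.1 < q.2.2.1 ∧ q.2.2.1 < q.2.2.2 ∧ q.2.2.2 < 7 := by decide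
  obtain ⟨b0, b1, b2, b3, b4⟩ := this _ hq
  simp only at a1 a2 a3 a4 a5 b0 b1 b2 b3 b4
  rw [h, h, h, h, a1, a2, a3, a4, vv_ix Q (by omega) (by omega) (by omega), vv_ix Q (by omega) (by omega) b4,
    vv_ix Q (by omega) (by omega) b4, vv_ix Q (by omega) (by omega) b4] at a5
  have l0 : (0 : Fin 7) < fn i := fn_lt b0 (by omega)
  have l1 := fn_lt b1 (by omega)
  have l2 := fn_lt b2 (by omega)
  have l3 := fn_lt b3 b4
  generalize fn i = x, fn j = y, fn k = z, fn l = w at *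
  have d : ∀ {s t : Fin 7}, s < t → s ≠ t := fun h => h.ne
  have g1 := gp1 hQ (d l0) (d (l0.trans l1)) (d (l0.trans (l1.trans l2))) (d (l0.trans (l1.trans (l2.trans l3))))
    (d l1) (d (l1.trans l2)) (d (l1.trans (l2.trans l3))) (d l2) (d (l2.trans l3)) (d l3)
  have g2 := gp2 hQ (d l0) (d (l0.trans l1)) (d (l0.trans (l1.trans l2))) (d (l0.trans (l1.trans (l2.trans l3))))
    (d l1) (d (l1.trans l2)) (d (l1.trans (l2.trans l3))) (d l2) (d (l2.trans l3)) (d l3)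
  have g3 := gp3 hQ (d l0) (d (l0.trans l1)) (d (l0.trans (l1.trans l2))) (d (l0.trans (l1.trans (l2.trans l3))))
    (d l1) (d (l1.trans l2)) (d (l1.trans (l2.trans l3))) (d l2) (d (l2.trans l3)) (d l3)
  have g4 := gp4 hQ (d l0) (d (l0.trans l1)) (d (l0.trans (l1.trans l2))) (d (l0.trans (l1.trans (l2.trans l3))))
    (d l1) (d (l1.trans l2)) (d (l1.trans (l2.trans l3))) (d l2) (d (l2.trans l3)) (d l3)
  rw [h0 x y l0 l1, h0 x z l0 (l1.trans l2), h0 x w l0 (l1.trans (l2.trans l3))] at g1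
  rw [h0 x y l0 l1, h0 y z (l0.trans l1) l2, h0 y w (l0.trans l1) (l2.trans l3)] at g2
  rw [h0 x z l0 (l1.trans l2), h0 y z (l0.trans l1) l2, h0 z w (l0.trans (l1.trans l2)) l3] at g3
  rw [h0 x w l0 (l1.trans (l2.trans l3)), h0 y w (l0.trans l1) (l2.trans l3),
    h0 z w (l0.trans (l1.trans l2)) l3] at g4
  simp [mono, g1, g2, g3, g4] at a5

def s3 (m i j k : ℕ) : Bool := Nat.beq i 0 || m.testBit (ix3 i j k)

def chB (m i j k : ℕ) : Bool :=
  cond (Nat.blt i j) (cond (Nat.blt j k) (s3 m i j k) (cond (Nat.blt i k) (!s3 m i k j) (s3 m k i j)))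
    (cond (Nat.blt i k) (!s3 m j i k) (cond (Nat.blt j k) (s3 m j k i) (!s3 m k j i)))

def XB (m i j k l : ℕ) : Bool := (chB m i j k != chB m i j l) && (chB m i k l != chB m j k l)

theorem chB_sound (Q : Fin 7 → ℝ × ℝ) (hQ : GP Q) (m : ℕ)
    (h : ∀ i j k : Fin 7, i < j → j < k → s3 m i j k = c Q i j k) (i j k : Fin 7) (a : i ≠ j) (b : i ≠ k)
    (d : j ≠ k) : chB m i j k = c Q i j k := by
  have B : ∀ x y : Fin 7, Nat.blt x y = decide (x < y) := by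
    intro x y; rw [Bool.eq_iff_iff, Nat.blt_eq]; simp
  unfold chB
  rw [B, B, B]
  by_cases h1 : i < j <;> by_cases h2 : j < k <;> by_cases h3 : i < k <;>
    simp only [h1, h2, h3, decide_true, decide_false, cond_true, cond_false]
  · exact h _ _ _ h1 h2
  · exact h _ _ _ h1 h2
  · rw [h _ _ _ h3 (by omega), c_swap hQ a b d]; simp
  · rw [h _ _ _ (by omega) h1, c_rot]
  · rw [h _ _ _ (by omega) h3, c_rot Q j i k, c_swap hQ a b d]; simp
  · rw [h _ _ _ h2 (by omega), ← c_rot]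
  · omega
  · rw [h _ _ _ (by omega) (by omega), c_rot Q k j i, c_rot Q j i k, c_swap hQ a b d]; simp

theorem X12 {ι : Type*} (P : ι → ℝ × ℝ) (i j k l : ι) : X P j i k l ↔ X P i j k l := by
  unfold X
  rw [show o (P j) (P i) (P k) * o (P j) (P i) (P l) = o (P i) (P j) (P k) * o (P i) (P j) (P l) by
    unfold o; ring, mul_comm (o (P k) (P l) (P j))]

theorem Xsw {ι : Type*} (P : ι → ℝ × ℝ) (i j k l : ι) : X P k l i j ↔ X P i j k l := and_comm

def symB (F : ℕ) : Bool := V7.all fun i => V7.all fun j => V7.all fun k => V7.all fun l =>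
  !(F.testBit (ix4 i j k l)) || (F.testBit (ix4 j i k l) && F.testBit (ix4 k l i j) &&
    !(Nat.beq i j) && !(Nat.beq i k) && !(Nat.beq i l) && !(Nat.beq j k) && !(Nat.beq j l) && !(Nat.beq k l))

def canB (m F : ℕ) (p : List ℕ) : Bool := V7.all fun i => V7.all fun j => !(Nat.blt i j) ||
  V7.all fun k => !(Nat.blt i k) || Nat.beq j k || V7.all fun l => !(Nat.blt k l) || Nat.beq j l ||
    (XB m (p.getD i 0) (p.getD j 0) (p.getD k 0) (p.getD l 0) == F.testBit (ix4 i j k l))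

theorem rep_sound (Q : Fin 7 → ℝ × ℝ) (hQ : GP Q) (m F : ℕ) (p : List ℕ)
    (h : ∀ i j k : Fin 7, i < j → j < k → s3 m i j k = c Q i j k) (hp : permB 7 V7 p = true)
    (hs : symB F = true) (hc : canB m F p = true) : Rep 7 Q F := by
  obtain ⟨f, hf, e⟩ := permB_sound V7_mem hp
  simp only [symB, List.all_eq_true, Bool.or_eq_true, Bool.not_eq_true', Bool.and_eq_true,
    Bool.eq_false_iff, ne_eq, Nat.beq_eq] at hs
  have S : ∀ i j k l : Fin 7, F.testBit (ix4 i j k l) = true → _ := fun i j k l h =>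
    (hs i (V7_mem i i.2) j (V7_mem j j.2) k (V7_mem k k.2) l (V7_mem l l.2)).resolve_left (not_not.2 h)
  simp only [canB, List.all_eq_true, Bool.or_eq_true, Bool.not_eq_true', Bool.eq_false_iff, ne_eq,
    Nat.beq_eq, Nat.blt_eq, beq_iff_eq] at hc
  let R : Fin 7 → Fin 7 → Fin 7 → Fin 7 → Prop := fun i j k l =>
    X Q (f i) (f j) (f k) (f l) ↔ F.testBit (ix4 i j k l) = true
  have C : ∀ i j k l : Fin 7, i < j → i < k → k < l → j ≠ k → j ≠ l → R i j k l := by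
    intro i j k l a b d x y
    have := ((((hc i (V7_mem i i.2) j (V7_mem j j.2)).resolve_left (not_not.2 a)) k
      (V7_mem k k.2)).resolve_left (by simp; omega) l (V7_mem l l.2)).resolve_left (by simp; omega)
    have n1 : f i ≠ f j := hf.ne a.ne
    have n2 : f i ≠ f k := hf.ne b.ne
    have n3 : f i ≠ f l := hf.ne (b.trans d).ne
    have n4 : f j ≠ f k := hf.ne x
    have n5 : f j ≠ f l := hf.ne y
    have n6 : f k ≠ f l := hf.ne d.ne
    simp only [R]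
    rw [← this, ← e, ← e, ← e, ← e, X_iff hQ n1 n2 n3 n4 n5 n6, XB, chB_sound Q hQ m h _ _ _ n1 n2 n4,
      chB_sound Q hQ m h _ _ _ n1 n3 n5, chB_sound Q hQ m h _ _ _ n2 n3 n6, chB_sound Q hQ m h _ _ _ n4 n5 n6]
  have R1 : ∀ i j k l, R j i k l → R i j k l := fun i j k l r =>
    (X12 Q _ _ _ _).symm.trans (r.trans ⟨fun x => (S _ _ _ _ x).1.1.1.1.1.1.1, fun x => (S _ _ _ _ x).1.1.1.1.1.1.1⟩)
  have R2 : ∀ i j k l, R k l i j → R i j k l := fun i j k l r =>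
    (Xsw Q _ _ _ _).symm.trans (r.trans ⟨fun x => (S _ _ _ _ x).1.1.1.1.1.1.2, fun x => (S _ _ _ _ x).1.1.1.1.1.1.2⟩)
  have C2 : ∀ i j k l : Fin 7, i < j → k < l → i ≠ k → i ≠ l → j ≠ k → j ≠ l → R i j k l := by
    intro i j k l a b d x y z
    rcases lt_or_gt_of_ne d with u | u
    · exact C i j k l a u b y z
    · exact R2 _ _ _ _ (C k l i j b u a x.symm z.symm)
  have C3 : ∀ i j k l : Fin 7, i < j → k ≠ l → i ≠ k → i ≠ l → j ≠ k → j ≠ l → R i j k l := by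
    intro i j k l a b d x y z
    rcases lt_or_gt_of_ne b with u | u
    · exact C2 i j k l a u d x y z
    · exact R2 _ _ _ _ (R1 _ _ _ _ (R2 _ _ _ _ (C2 i j l k a u x d z y)))
  refine ⟨Equiv.ofBijective f (Finite.injective_iff_bijective.1 hf), fun i j k l => ?_⟩
  show R i j k l
  by_cases hd : i ≠ j ∧ i ≠ k ∧ i ≠ l ∧ j ≠ k ∧ j ≠ l ∧ k ≠ l
  · obtain ⟨a, b, d, x, y, z⟩ := hd
    rcases lt_or_gt_of_ne a with u | u
    · exact C3 i j k l u z b d x y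
    · exact R1 _ _ _ _ (C3 j i k l u z x y b d)
  · refine iff_of_false (fun x => hd ?_) (fun x => hd ?_)
    · obtain ⟨a, b, d, x, y, z⟩ := X_ne x
      exact ⟨fun e => a (e ▸ rfl), fun e => b (e ▸ rfl), fun e => d (e ▸ rfl), fun e => x (e ▸ rfl),
        fun e => y (e ▸ rfl), fun e => z (e ▸ rfl)⟩
    · obtain ⟨⟨⟨⟨⟨⟨-, a⟩, b⟩, d⟩, x⟩, y⟩, z⟩ := S _ _ _ _ x
      exact ⟨fun e => a (e ▸ rfl), fun e => b (e ▸ rfl), fun e => d (e ▸ rfl), fun e => x (e ▸ rfl),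
        fun e => y (e ▸ rfl), fun e => z (e ▸ rfl)⟩

end Pool.Agent.H13.GeoP
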