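import Pool.Agent.H13.GeoP3

namespace Pool.Agent.H13.GeoP
open Pool.Agent.H13.GeoK

def certB (x : ℕ × ℕ × List ℕ) : Bool :=
  Nat.blt x.2.1 122 && permB 7 V7 x.2.2 && frc (T7.getD x.2.1 0) fun F => canB x.1 F x.2.2

def negB (T AL VS : List ℕ) (LS : List (List En)) (B : ℕ) : Bool :=
  frc (T.getD B 0) fun F => frc (AL.getD B 0) fun al => go F VS LS [] al

def posB (n R : ℕ) (T AL VS : List ℕ) (MM : ℕ) (WT : List (List (ℕ × List ℕ))) (B : ℕ) : Bool :=
  frc (T.getD B 0) fun F => frc (AL.getD B 0) fun al => (List.range R).all fun A =>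
    cond (MM.testBit (128 * B + A)) (frc (T.getD A 0) fun G => (WT.getD B []).any fun x =>
      Nat.beq x.1 A && homB n VS G F x.2) (al.testBit A)

def okB (T : List ℕ) (LS : List (List En)) (A : ℕ) : Bool := frc (T.getD A 0) fun F => okL F A LS 0

theorem M_iff {n R : ℕ} {T AL VS : List ℕ} {MM : ℕ} {WT : List (List (ℕ × List ℕ))} {LS : List (List En)}
    (hn : n ≤ 7) (hV : ∀ a < n, a ∈ VS) (hl : LS.length = n) {A B : ℕ} (hA : A < R)
    (h1 : negB T AL VS LS B = true) (h2 : posB n R T AL VS MM WT B = true) (h3 : okB T LS A = true) :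
    LeT n (T.getD A 0) (T.getD B 0) ↔ MM.testBit (128 * B + A) = true := by
  simp only [negB, posB, okB, frc_eq, List.all_eq_true, List.mem_range] at h1 h2 h3
  have := h2 A hA
  cases h : MM.testBit (128 * B + A)
  · rw [h, cond_false] at this
    simpa using neg_sound hV hl h3 this h1
  · rw [h, cond_true, List.any_eq_true] at this
    obtain ⟨x, -, hx⟩ := this
    rw [Bool.and_eq_true] at hx
    simpa using pos_sound hn hV hx.2

theorem rng {f : ℕ → Bool} {a n B : ℕ} (h : (List.range' a n).all f = true) (h1 : ¬ B < a)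
    (h2 : B < a + n) : f B = true := by
  rw [List.all_eq_true] at h
  exact h B (List.mem_range'_1.2 ⟨by omega, h2⟩)

inductive Tr
  | z : ℕ → Tr
  | f : ℕ → ℕ → Tr
  | n : Tr → Tr → Tr

def walk (CS : List (List (ℕ × ℕ × List ℕ))) : Tr → List ℕ → ℕ → ℕ → Bool
  | .z q, _, m, a => Nat.blt q QD.length && bq m a (QD.getD q (0, 0, 0, 0))
  | .f k j, _, m, a => Nat.beq a FULL && Nat.blt k CS.length && Nat.blt j (CS.getD k []).length &&
      Nat.beq ((CS.getD k []).getD j (0, 0, [])).1 m
  | .n l r, ss, m, a => frc (2 ^ ss.headD 0) fun p => frc (a ||| p) fun b => walk CS l ss.tail m b &&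
      frc (m ||| p) fun n => walk CS r ss.tail n b

theorem walk_sound (CS : List (List (ℕ × ℕ × List ℕ))) (v : ℕ → Bool)
    (hv : ∀ m a : ℕ, (∀ s, m.testBit s = (a.testBit s && v s)) → bad m a = false) :
    ∀ (t : Tr) (ss : List ℕ) (m a : ℕ), (∀ s, m.testBit s = (a.testBit s && v s)) → walk CS t ss m a = true →
      ∃ L ∈ CS, ∃ x ∈ L, ∀ s, x.1.testBit s = (FULL.testBit s && v s) := by
  intro t
  induction t with
  | z q =>
    intro ss m a h1 h2
    simp only [walk, Bool.and_eq_true, Nat.blt_eq] at h2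
    have := hv m a h1
    rw [bad, List.any_eq_false] at this
    exact absurd h2.2 (this _ (by rw [List.getD_eq_getElem _ _ h2.1]; exact List.getElem_mem _))
  | f k j =>
    intro ss m a h1 h2
    simp only [walk, Bool.and_eq_true, Nat.beq_eq, Nat.blt_eq] at h2
    obtain ⟨⟨⟨rfl, h3⟩, h4⟩, rfl⟩ := h2
    refine ⟨CS.getD k [], ?_, (CS.getD k []).getD j (0, 0, []), ?_, h1⟩
    · rw [List.getD_eq_getElem _ _ h3]; exact List.getElem_mem _
    · rw [List.getD_eq_getElem _ _ h4]; exact List.getElem_mem _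
  | n l r ihl ihr =>
    intro ss m a h1 h2
    simp only [walk, frc_eq, Bool.and_eq_true] at h2
    generalize ss.headD 0 = s at h2
    cases hs : v s
    · refine ihl _ _ _ (fun t => ?_) h2.1
      rw [h1, Nat.testBit_or, Nat.testBit_two_pow]
      by_cases e : s = t
      · subst e; simp [hs]
      · simp [e]
    · refine ihr _ _ _ (fun t => ?_) h2.2
      rw [Nat.testBit_or, h1, Nat.testBit_or, Nat.testBit_two_pow]
      by_cases e : s = t
      · subst e; simp [hs]
      · simp [e]

end Pool.Agent.H13.GeoP
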