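import Pool.Agent.H13.GeoP4

set_option maxRecDepth 100000
set_option linter.defProp false

namespace Pool.Agent.H13.GeoP

def sy0 : (List.range' 0 12).all (fun r => frc (T7.getD r 0) symB) = true := by decide +kernel

def sy1 : (List.range' 12 12).all (fun r => frc (T7.getD r 0) symB) = true := by decide +kernel

def sy2 : (List.range' 24 12).all (fun r => frc (T7.getD r 0) symB) = true := by decide +kernel

def sy3 : (List.range' 36 12).all (fun r => frc (T7.getD r 0) symB) = true := by decide +kernel

def sy4 : (List.range' 48 12).all (fun r => frc (T7.getD r 0) symB) = true := by decide +kernel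

def sy5 : (List.range' 60 12).all (fun r => frc (T7.getD r 0) symB) = true := by decide +kernel

def sy6 : (List.range' 72 12).all (fun r => frc (T7.getD r 0) symB) = true := by decide +kernel

def sy7 : (List.range' 84 12).all (fun r => frc (T7.getD r 0) symB) = true := by decide +kernel

def sy8 : (List.range' 96 12).all (fun r => frc (T7.getD r 0) symB) = true := by decide +kernel

def sy9 : (List.range' 108 12).all (fun r => frc (T7.getD r 0) symB) = true := by decide +kernel

def sy10 : (List.range' 120 2).all (fun r => frc (T7.getD r 0) symB) = true := by decide +kernel

def ok0 : (List.range' 0 31).all (okB T7 LS7) = true := by decide +kernel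

def ok1 : (List.range' 31 31).all (okB T7 LS7) = true := by decide +kernel

def ok2 : (List.range' 62 31).all (okB T7 LS7) = true := by decide +kernel

def ok3 : (List.range' 93 29).all (okB T7 LS7) = true := by decide +kernel

end Pool.Agent.H13.GeoP
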