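import Pool.Agent.H13.GeoP4

set_option maxRecDepth 100000
set_option linter.defProp false

namespace Pool.Agent.H13.GeoP

def tr0 : Tr := (.n (.n (.n (.n (.n (.n (.n (.n (.n (.n (.f 0 0) (.f 4 54)) (.n (.z 14) (.f 5 50))) (.n (.z 11) (.n (.z 13) (.f 5 77)))) (.n (.z 9) (.n (.z 10) (.n (.z 12) (.f 5 81))))) (.n (.n (.n (.n (.z 14) (.z 14)) (.n (.z 14) (.f 6 93))) (.n (.z 11) (.n (.z 13) (.f 7 4)))) (.n (.z 9) (.n (.z 10) (.n (.z 12) (.f 7 7)))))) (.n (.z 8) (.n (.n (.n (.n (.z 13) (.z 13)) (.n (.z 13) (.z 13))) (.n (.z 11) (.n (.z 13) (.f 7 20)))) (.n (.z 9) (.n (.z 10) (.n (.z 12) (.f 7 22))))))) (.n (.z 6) (.n (.z 7) (.n (.n (.n (.n (.z 12) (.z 12)) (.n (.z 12) (.z 12))) (.n (.z 11) (.n (.z 12) (.z 12)))) (.n (.z 9) (.n (.z 10) (.n (.z 12) (.f 7 24)))))))) (.n (.n (.n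 (.z 8) (.z 8)) (.n (.z 8) (.n (.n (.n (.z 11) (.z 11)) (.n (.z 11) (.n (.z 13) (.f 7 36)))) (.n (.z 9) (.n (.z 10) (.n (.z 12) (.f 7 37))))))) (.n (.z 6) (.n (.z 7) (.n (.n (.n (.z 11) (.z 11)) (.n (.z 11) (.n (.z 12) (.z 12)))) (.n (.z 9) (.n (.z 10) (.n (.z 12) (.f 7 38))))))))) (.n (.z 5) (.n (.n (.n (.z 7) (.z 7)) (.n (.z 7) (.z 7))) (.n (.z 6) (.n (.z 7) (.n (.n (.n (.z 10) (.z 10)) (.n (.z 10) (.z 10))) (.n (.z 9) (.n (.z 10) (.n (.z 12) (.f 7 39)))))))))) (.n (.n (.z 5) (.z 5)) (.n (.z 5) (.n (.n (.z 6) (.z 6)) (.n (.z 6) (.n (.z 7) (.n (.n (.z 9) (.z 9)) (.n (.z 9) (.n (.z 10) (.n (.z 12) (.f 7 40)))))))))))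

def tr1 : Tr := (.n (.n (.n (.n (.n (.n (.n (.n (.n (.n (.f 1 19) (.z 14)) (.n (.z 14) (.z 14))) (.n (.z 11) (.n (.z 13) (.z 14)))) (.n (.z 9) (.n (.z 10) (.n (.z 12) (.z 14))))) (.n (.n (.n (.n (.f 2 15) (.z 14)) (.n (.f 3 58) (.f 7 89))) (.n (.z 11) (.n (.z 13) (.f 8 1)))) (.n (.z 9) (.n (.z 10) (.n (.z 12) (.f 8 4)))))) (.n (.z 8) (.n (.n (.n (.n (.z 13) (.z 13)) (.n (.z 13) (.z 13))) (.n (.z 11) (.n (.z 13) (.f 8 17)))) (.n (.z 9) (.n (.z 10) (.n (.z 12) (.f 8 19))))))) (.n (.z 6) (.n (.z 7) (.n (.n (.n (.n (.z 12) (.z 12)) (.n (.z 12) (.z 12))) (.n (.z 11) (.n (.z 12) (.z 12)))) (.n (.z 9) (.n (.z 10) (.n (.z 12) (.f 8 21)))))))) (.n (.n (.n (.z 8) (.z 8)) (.n (.z 8) (.n (.n (.n (.z 11) (.z 11)) (.n (.z 11) (.n (.z 13) (.f 8 33)))) (.n (.z 9) (.n (.z 10) (.n (.z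 12) (.f 8 34))))))) (.n (.z 6) (.n (.z 7) (.n (.n (.n (.z 11) (.z 11)) (.n (.z 11) (.n (.z 12) (.z 12)))) (.n (.z 9) (.n (.z 10) (.n (.z 12) (.f 8 35))))))))) (.n (.z 5) (.n (.n (.n (.z 7) (.z 7)) (.n (.z 7) (.z 7))) (.n (.z 6) (.n (.z 7) (.n (.n (.n (.z 10) (.z 10)) (.n (.z 10) (.z 10))) (.n (.z 9) (.n (.z 10) (.n (.z 12) (.f 8 36)))))))))) (.n (.n (.z 5) (.z 5)) (.n (.z 5) (.n (.n (.z 6) (.z 6)) (.n (.z 6) (.n (.z 7) (.n (.n (.z 9) (.z 9)) (.n (.z 9) (.n (.z 10) (.n (.z 12) (.f 8 37)))))))))))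

def tr2 : Tr := (.n (.n (.n (.n (.n (.n (.n (.n (.n (.n (.f 1 33) (.z 13)) (.n (.z 14) (.z 13))) (.n (.z 11) (.n (.z 13) (.z 13)))) (.n (.z 9) (.n (.z 10) (.n (.z 12) (.z 13))))) (.n (.n (.n (.n (.f 2 30) (.z 13)) (.n (.f 3 70) (.z 13))) (.n (.z 11) (.n (.z 13) (.z 13)))) (.n (.z 9) (.n (.z 10) (.n (.z 12) (.z 13)))))) (.n (.z 8) (.n (.n (.n (.n (.f 2 58) (.z 13)) (.n (.f 3 82) (.z 13))) (.n (.z 11) (.n (.f 3 99) (.f 8 44)))) (.n (.z 9) (.n (.z 10) (.n (.z 12) (.f 8 46))))))) (.n (.z 6) (.n (.z 7) (.n (.n (.n (.n (.z 12) (.z 12)) (.n (.z 12) (.z 12))) (.n (.z 11) (.n (.z 12) (.z 12)))) (.n (.z 9) (.n (.z 10) (.n (.z 12) (.f 8 48)))))))) (.n (.n (.n (.z 8) (.z 8)) (.n (.z 8) (.n (.n (.n (.z 11) (.z 11)) (.n (.z 11) (.n (.f 4 16) (.f 8 63)))) (.n (.z 9) (.n (.z 10) (.n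 (.z 12) (.f 8 64))))))) (.n (.z 6) (.n (.z 7) (.n (.n (.n (.z 11) (.z 11)) (.n (.z 11) (.n (.z 12) (.z 12)))) (.n (.z 9) (.n (.z 10) (.n (.z 12) (.f 8 65))))))))) (.n (.z 5) (.n (.n (.n (.z 7) (.z 7)) (.n (.z 7) (.z 7))) (.n (.z 6) (.n (.z 7) (.n (.n (.n (.z 10) (.z 10)) (.n (.z 10) (.z 10))) (.n (.z 9) (.n (.z 10) (.n (.z 12) (.f 8 66)))))))))) (.n (.n (.z 5) (.z 5)) (.n (.z 5) (.n (.n (.z 6) (.z 6)) (.n (.z 6) (.n (.z 7) (.n (.n (.z 9) (.z 9)) (.n (.z 9) (.n (.z 10) (.n (.z 12) (.f 8 67)))))))))))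

def tr3 : Tr := (.n (.n (.n (.n (.n (.n (.n (.n (.n (.n (.f 1 35) (.z 12)) (.n (.z 14) (.z 12))) (.n (.z 11) (.n (.z 13) (.z 12)))) (.n (.z 9) (.n (.z 10) (.n (.z 12) (.z 12))))) (.n (.n (.n (.n (.f 2 32) (.z 12)) (.n (.f 3 72) (.z 12))) (.n (.z 11) (.n (.z 13) (.z 12)))) (.n (.z 9) (.n (.z 10) (.n (.z 12) (.z 12)))))) (.n (.z 8) (.n (.n (.n (.n (.f 2 60) (.z 12)) (.n (.f 3 84) (.z 12))) (.n (.z 11) (.n (.f 4 1) (.z 12)))) (.n (.z 9) (.n (.z 10) (.n (.z 12) (.z 12))))))) (.n (.z 6) (.n (.z 7) (.n (.n (.n (.n (.f 2 64) (.z 12)) (.n (.f 3 87) (.z 12))) (.n (.z 11) (.n (.f 4 3) (.z 12)))) (.n (.z 9) (.n (.z 10) (.n (.f 4 5) (.f 8 52)))))))) (.n (.n (.n (.z 8) (.z 8)) (.n (.z 8) (.n (.n (.n (.z 11) (.z 11)) (.n (.z 11) (.n (.f 4 17) (.z 12)))) (.n (.z 9) (.n (.z 10) (.n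 (.z 12) (.z 12))))))) (.n (.z 6) (.n (.z 7) (.n (.n (.n (.z 11) (.z 11)) (.n (.z 11) (.n (.f 4 18) (.z 12)))) (.n (.z 9) (.n (.z 10) (.n (.f 4 19) (.f 8 69))))))))) (.n (.z 5) (.n (.n (.n (.z 7) (.z 7)) (.n (.z 7) (.z 7))) (.n (.z 6) (.n (.z 7) (.n (.n (.n (.z 10) (.z 10)) (.n (.z 10) (.z 10))) (.n (.z 9) (.n (.z 10) (.n (.f 4 20) (.f 8 70)))))))))) (.n (.n (.z 5) (.z 5)) (.n (.z 5) (.n (.n (.z 6) (.z 6)) (.n (.z 6) (.n (.z 7) (.n (.n (.z 9) (.z 9)) (.n (.z 9) (.n (.z 10) (.n (.f 4 21) (.f 8 71)))))))))))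

def tr4 : Tr := (.n (.n (.n (.n (.n (.n (.n (.n (.n (.n (.f 1 48) (.z 13)) (.z 11)) (.n (.z 11) (.z 11))) (.n (.z 9) (.n (.z 10) (.z 11)))) (.n (.n (.n (.n (.f 2 46) (.z 13)) (.z 11)) (.n (.z 11) (.z 11))) (.n (.z 9) (.n (.z 10) (.z 11))))) (.n (.z 8) (.n (.n (.n (.n (.f 2 78) (.z 13)) (.z 11)) (.n (.z 11) (.z 11))) (.n (.z 9) (.n (.z 10) (.z 11)))))) (.n (.z 6) (.n (.z 7) (.n (.n (.n (.n (.z 12) (.z 12)) (.z 11)) (.n (.z 11) (.z 11))) (.n (.z 9) (.n (.z 10) (.z 11))))))) (.n (.n (.n (.z 8) (.z 8)) (.n (.z 8) (.n (.n (.n (.n (.f 2 95) (.z 13)) (.z 11)) (.n (.n (.f 3 31) (.z 14)) (.n (.f 4 28) (.f 8 78)))) (.n (.z 9) (.n (.z 10) (.n (.z 12) (.f 8 79))))))) (.n (.z 6) (.n (.z 7) (.n (.n (.n (.n (.z 12) (.z 12)) (.z 11)) (.n (.n (.z 12) (.z 12)) (.n (.z 12) (.z 12))))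 (.n (.z 9) (.n (.z 10) (.n (.z 12) (.f 8 80))))))))) (.n (.z 5) (.n (.n (.n (.z 7) (.z 7)) (.n (.z 7) (.z 7))) (.n (.z 6) (.n (.z 7) (.n (.n (.n (.z 10) (.z 10)) (.n (.z 10) (.z 10))) (.n (.z 9) (.n (.z 10) (.n (.z 12) (.f 8 81)))))))))) (.n (.n (.z 5) (.z 5)) (.n (.z 5) (.n (.n (.z 6) (.z 6)) (.n (.z 6) (.n (.z 7) (.n (.n (.z 9) (.z 9)) (.n (.z 9) (.n (.z 10) (.n (.z 12) (.f 8 82)))))))))))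

def tr5 : Tr := (.n (.n (.n (.n (.n (.n (.n (.n (.n (.n (.f 1 49) (.z 12)) (.z 11)) (.n (.z 11) (.z 11))) (.n (.z 9) (.n (.z 10) (.z 11)))) (.n (.n (.n (.n (.f 2 47) (.z 12)) (.z 11)) (.n (.z 11) (.z 11))) (.n (.z 9) (.n (.z 10) (.z 11))))) (.n (.z 8) (.n (.n (.n (.n (.f 2 79) (.z 12)) (.z 11)) (.n (.z 11) (.z 11))) (.n (.z 9) (.n (.z 10) (.z 11)))))) (.n (.z 6) (.n (.z 7) (.n (.n (.n (.n (.f 2 83) (.z 12)) (.z 11)) (.n (.z 11) (.z 11))) (.n (.z 9) (.n (.z 10) (.z 11))))))) (.n (.n (.n (.z 8) (.z 8)) (.n (.z 8) (.n (.n (.n (.n (.f 2 96) (.z 12)) (.z 11)) (.n (.n (.f 3 32) (.z 12)) (.n (.f 4 29) (.z 12)))) (.n (.z 9) (.n (.z 10) (.n (.z 12) (.z 12))))))) (.n (.z 6) (.n (.z 7) (.n (.n (.n (.n (.f 2 99) (.z 12)) (.z 11)) (.n (.n (.f 3 34) (.z 12)) (.n (.f 4 30) (.z 12))))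 (.n (.z 9) (.n (.z 10) (.n (.f 4 31) (.f 8 83))))))))) (.n (.z 5) (.n (.n (.n (.z 7) (.z 7)) (.n (.z 7) (.z 7))) (.n (.z 6) (.n (.z 7) (.n (.n (.n (.z 10) (.z 10)) (.n (.z 10) (.z 10))) (.n (.z 9) (.n (.z 10) (.n (.f 4 32) (.f 8 84)))))))))) (.n (.n (.z 5) (.z 5)) (.n (.z 5) (.n (.n (.z 6) (.z 6)) (.n (.z 6) (.n (.z 7) (.n (.n (.z 9) (.z 9)) (.n (.z 9) (.n (.z 10) (.n (.f 4 33) (.f 8 85)))))))))))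

def tr6 : Tr := (.n (.n (.n (.n (.n (.n (.n (.n (.n (.n (.f 1 50) (.z 12)) (.z 10)) (.n (.z 11) (.z 10))) (.n (.z 9) (.n (.z 10) (.z 10)))) (.n (.n (.n (.n (.f 2 48) (.z 12)) (.z 10)) (.n (.z 11) (.z 10))) (.n (.z 9) (.n (.z 10) (.z 10))))) (.n (.z 8) (.n (.n (.n (.n (.f 2 80) (.z 12)) (.z 10)) (.n (.z 11) (.z 10))) (.n (.z 9) (.n (.z 10) (.z 10)))))) (.n (.z 6) (.n (.z 7) (.n (.n (.n (.n (.f 2 84) (.z 12)) (.z 10)) (.n (.z 11) (.z 10))) (.n (.z 9) (.n (.z 10) (.z 10))))))) (.n (.n (.n (.z 8) (.z 8)) (.n (.z 8) (.n (.n (.n (.n (.f 2 97) (.z 12)) (.z 10)) (.n (.n (.f 3 33) (.z 12)) (.z 10))) (.n (.z 9) (.n (.z 10) (.z 10)))))) (.n (.z 6) (.n (.z 7) (.n (.n (.n (.n (.f 3 0) (.z 12)) (.z 10)) (.n (.n (.f 3 35) (.z 12)) (.z 10))) (.n (.z 9) (.n (.z 10) (.z 10)))))))) (.n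 (.z 5) (.n (.n (.n (.z 7) (.z 7)) (.n (.z 7) (.z 7))) (.n (.z 6) (.n (.z 7) (.n (.n (.n (.n (.f 3 2) (.z 12)) (.z 10)) (.n (.n (.f 3 36) (.z 12)) (.z 10))) (.n (.z 9) (.n (.n (.f 3 37) (.z 14)) (.n (.f 4 34) (.f 8 86)))))))))) (.n (.n (.z 5) (.z 5)) (.n (.z 5) (.n (.n (.z 6) (.z 6)) (.n (.z 6) (.n (.z 7) (.n (.n (.z 9) (.z 9)) (.n (.z 9) (.n (.n (.f 3 38) (.z 14)) (.n (.f 4 35) (.f 8 87)))))))))))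

def tr7 : Tr := (.n (.n (.n (.n (.n (.n (.n (.n (.n (.n (.f 1 51) (.z 12)) (.z 10)) (.z 9)) (.n (.z 9) (.z 9))) (.n (.n (.n (.n (.f 2 49) (.z 12)) (.z 10)) (.z 9)) (.n (.z 9) (.z 9)))) (.n (.z 8) (.n (.n (.n (.n (.f 2 81) (.z 12)) (.z 10)) (.z 9)) (.n (.z 9) (.z 9))))) (.n (.z 6) (.n (.z 7) (.n (.n (.n (.n (.f 2 85) (.z 12)) (.z 10)) (.z 9)) (.n (.z 9) (.z 9)))))) (.n (.n (.n (.z 8) (.z 8)) (.n (.z 8) (.n (.n (.n (.n (.f 2 98) (.z 12)) (.z 10)) (.z 9)) (.n (.z 9) (.z 9))))) (.n (.z 6) (.n (.z 7) (.n (.n (.n (.n (.f 3 1) (.z 12)) (.z 10)) (.z 9)) (.n (.z 9) (.z 9))))))) (.n (.z 5) (.n (.n (.n (.z 7) (.z 7)) (.n (.z 7) (.z 7))) (.n (.z 6) (.n (.z 7) (.n (.n (.n (.n (.f 3 3) (.z 12)) (.z 10)) (.z 9)) (.n (.z 9) (.z 9)))))))) (.n (.n (.z 5) (.z 5)) (.n (.z 5) (.n (.n (.z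 6) (.z 6)) (.n (.z 6) (.n (.z 7) (.n (.n (.n (.n (.f 3 4) (.z 12)) (.z 10)) (.z 9)) (.n (.n (.n (.f 3 8) (.z 13)) (.z 11)) (.n (.n (.f 3 39) (.z 14)) (.n (.f 4 36) (.f 8 88)))))))))))

def tr8 : Tr := (.n (.n (.n (.n (.n (.n (.n (.n (.n (.n (.f 0 16) (.f 4 68)) (.n (.z 14) (.f 5 65))) (.n (.z 11) (.n (.z 13) (.f 5 96)))) (.n (.z 9) (.n (.z 10) (.n (.z 12) (.f 6 0))))) (.z 8)) (.n (.z 8) (.z 8))) (.n (.z 6) (.n (.z 7) (.z 8)))) (.n (.n (.n (.n (.n (.n (.z 11) (.z 11)) (.n (.z 11) (.n (.z 13) (.f 6 13)))) (.n (.z 9) (.n (.z 10) (.n (.z 12) (.f 6 16))))) (.z 8)) (.n (.n (.n (.n (.z 11) (.z 11)) (.n (.z 11) (.n (.z 13) (.f 6 50)))) (.n (.z 9) (.n (.z 10) (.n (.z 12) (.f 6 52))))) (.n (.n (.n (.z 11) (.z 11)) (.n (.z 11) (.n (.z 13) (.f 7 48)))) (.n (.z 9) (.n (.z 10) (.n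 (.z 12) (.f 7 49))))))) (.n (.z 6) (.n (.z 7) (.n (.n (.n (.z 11) (.z 11)) (.n (.z 11) (.n (.z 12) (.z 12)))) (.n (.z 9) (.n (.z 10) (.n (.z 12) (.f 7 50))))))))) (.n (.z 5) (.n (.n (.n (.z 7) (.z 7)) (.n (.z 7) (.z 7))) (.n (.z 6) (.n (.z 7) (.n (.n (.n (.z 10) (.z 10)) (.n (.z 10) (.z 10))) (.n (.z 9) (.n (.z 10) (.n (.z 12) (.f 7 51)))))))))) (.n (.n (.z 5) (.z 5)) (.n (.z 5) (.n (.n (.z 6) (.z 6)) (.n (.z 6) (.n (.z 7) (.n (.n (.z 9) (.z 9)) (.n (.z 9) (.n (.z 10) (.n (.z 12) (.f 7 52)))))))))))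

def tr9 : Tr := (.n (.n (.n (.n (.n (.n (.n (.n (.n (.n (.f 0 30) (.f 4 80)) (.z 11)) (.n (.z 11) (.z 11))) (.n (.z 9) (.n (.z 10) (.z 11)))) (.z 8)) (.n (.z 8) (.z 8))) (.n (.z 6) (.n (.z 7) (.z 8)))) (.n (.n (.n (.n (.n (.n (.n (.f 0 45) (.f 4 92)) (.z 11)) (.n (.n (.z 13) (.f 5 9)) (.n (.z 13) (.f 6 30)))) (.n (.z 9) (.n (.z 10) (.n (.z 12) (.f 6 33))))) (.z 8)) (.n (.n (.n (.n (.n (.z 13) (.z 13)) (.z 11)) (.n (.n (.z 13) (.f 5 26)) (.n (.z 13) (.f 6 62)))) (.n (.z 9) (.n (.z 10) (.n (.z 12) (.f 6 64))))) (.n (.n (.n (.n (.z 13) (.z 13)) (.z 11)) (.n (.n (.z 13) (.z 14)) (.n (.z 13) (.f 7 60)))) (.n (.z 9) (.n (.z 10) (.n (.z 12) (.f 7 61))))))) (.n (.z 6) (.n (.z 7) (.n (.n (.n (.n (.z 12) (.z 12)) (.z 11)) (.n (.n (.z 12) (.z 12)) (.n (.z 12) (.z 12)))) (.n (.z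 9) (.n (.z 10) (.n (.z 12) (.f 7 62))))))))) (.n (.z 5) (.n (.n (.n (.z 7) (.z 7)) (.n (.z 7) (.z 7))) (.n (.z 6) (.n (.z 7) (.n (.n (.n (.z 10) (.z 10)) (.n (.z 10) (.z 10))) (.n (.z 9) (.n (.z 10) (.n (.z 12) (.f 7 63)))))))))) (.n (.n (.z 5) (.z 5)) (.n (.z 5) (.n (.n (.z 6) (.z 6)) (.n (.z 6) (.n (.z 7) (.n (.n (.z 9) (.z 9)) (.n (.z 9) (.n (.z 10) (.n (.z 12) (.f 7 64)))))))))))

def tr10 : Tr := (.n (.n (.n (.n (.n (.n (.n (.n (.n (.n (.f 0 64) (.z 13)) (.z 11)) (.n (.z 11) (.z 11))) (.n (.z 9) (.n (.z 10) (.z 11)))) (.z 8)) (.n (.z 8) (.z 8))) (.n (.z 6) (.n (.z 7) (.z 8)))) (.n (.n (.n (.n (.n (.n (.n (.f 0 75) (.z 13)) (.z 11)) (.n (.n (.z 13) (.z 13)) (.n (.z 13) (.z 13)))) (.n (.z 9) (.n (.z 10) (.n (.z 12) (.z 13))))) (.z 8)) (.n (.n (.n (.n (.n (.f 0 91)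 (.z 13)) (.z 11)) (.n (.n (.f 1 7) (.f 5 38)) (.n (.z 14) (.f 6 78)))) (.n (.z 9) (.n (.z 10) (.n (.z 12) (.f 6 80))))) (.n (.n (.n (.n (.z 14) (.z 13)) (.z 11)) (.n (.n (.z 14) (.z 14)) (.n (.z 14) (.f 7 75)))) (.n (.z 9) (.n (.z 10) (.n (.z 12) (.f 7 76))))))) (.n (.z 6) (.n (.z 7) (.n (.n (.n (.n (.z 12) (.z 12)) (.z 11)) (.n (.n (.z 12) (.z 12)) (.n (.z 12) (.z 12)))) (.n (.z 9) (.n (.z 10) (.n (.z 12) (.f 7 77))))))))) (.n (.z 5) (.n (.n (.n (.z 7) (.z 7)) (.n (.z 7) (.z 7))) (.n (.z 6) (.n (.z 7) (.n (.n (.n (.z 10) (.z 10)) (.n (.z 10) (.z 10))) (.n (.z 9) (.n (.z 10) (.n (.z 12) (.f 7 78)))))))))) (.n (.n (.z 5) (.z 5)) (.n (.z 5) (.n (.n (.z 6) (.z 6)) (.n (.z 6) (.n (.z 7) (.n (.n (.z 9) (.z 9)) (.n (.z 9) (.n (.z 10) (.n (.z 12) (.f 7 79)))))))))))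

def tr11 : Tr := (.n (.n (.n (.n (.n (.n (.n (.n (.n (.n (.f 1 60) (.z 13)) (.z 11)) (.n (.z 11) (.z 11))) (.n (.z 9) (.n (.z 10) (.z 11)))) (.z 8)) (.n (.z 8) (.z 8))) (.n (.z 6) (.n (.z 7) (.z 8)))) (.n (.n (.n (.n (.n (.n (.n (.f 1 72) (.z 13)) (.z 11)) (.n (.n (.z 13) (.z 13)) (.n (.z 13) (.z 13)))) (.n (.z 9) (.n (.z 10) (.n (.z 12) (.z 13))))) (.z 8)) (.n (.n (.n (.n (.n (.f 1 88) (.z 13)) (.z 11)) (.n (.n (.f 2 4) (.z 14)) (.n (.z 14) (.z 14)))) (.n (.z 9) (.n (.z 10) (.n (.z 12) (.z 14))))) (.n (.n (.n (.n (.f 3 12) (.z 13)) (.z 11)) (.n (.n (.f 3 43) (.z 14)) (.n (.f 4 40) (.f 8 92)))) (.n (.z 9) (.n (.z 10) (.n (.z 12) (.f 8 93))))))) (.n (.z 6) (.n (.z 7) (.n (.n (.n (.n (.z 12) (.z 12)) (.z 11)) (.n (.n (.z 12) (.z 12)) (.n (.z 12) (.z 12)))) (.n (.z 9)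 (.n (.z 10) (.n (.z 12) (.f 8 94))))))))) (.n (.z 5) (.n (.n (.n (.z 7) (.z 7)) (.n (.z 7) (.z 7))) (.n (.z 6) (.n (.z 7) (.n (.n (.n (.z 10) (.z 10)) (.n (.z 10) (.z 10))) (.n (.z 9) (.n (.z 10) (.n (.z 12) (.f 8 95)))))))))) (.n (.n (.z 5) (.z 5)) (.n (.z 5) (.n (.n (.z 6) (.z 6)) (.n (.z 6) (.n (.z 7) (.n (.n (.z 9) (.z 9)) (.n (.z 9) (.n (.z 10) (.n (.z 12) (.f 8 96)))))))))))

def tr12 : Tr := (.n (.n (.n (.n (.n (.n (.n (.n (.n (.n (.f 1 61) (.z 12)) (.z 11)) (.n (.z 11) (.z 11))) (.n (.z 9) (.n (.z 10) (.z 11)))) (.z 8)) (.n (.z 8) (.z 8))) (.n (.z 6) (.n (.z 7) (.z 8)))) (.n (.n (.n (.n (.n (.n (.n (.f 1 73) (.z 12)) (.z 11)) (.n (.n (.z 13) (.z 12)) (.n (.z 13) (.z 12)))) (.n (.z 9) (.n (.z 10) (.n (.z 12) (.z 12))))) (.z 8)) (.n (.n (.n (.n (.n (.f 1 89) (.z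 12)) (.z 11)) (.n (.n (.f 2 5) (.z 12)) (.n (.z 14) (.z 12)))) (.n (.z 9) (.n (.z 10) (.n (.z 12) (.z 12))))) (.n (.n (.n (.n (.f 3 13) (.z 12)) (.z 11)) (.n (.n (.f 3 44) (.z 12)) (.n (.f 4 41) (.z 12)))) (.n (.z 9) (.n (.z 10) (.n (.z 12) (.z 12))))))) (.n (.z 6) (.n (.z 7) (.n (.n (.n (.n (.f 3 16) (.z 12)) (.z 11)) (.n (.n (.f 3 46) (.z 12)) (.n (.f 4 42) (.z 12)))) (.n (.z 9) (.n (.z 10) (.n (.f 4 43) (.f 8 97))))))))) (.n (.z 5) (.n (.n (.n (.z 7) (.z 7)) (.n (.z 7) (.z 7))) (.n (.z 6) (.n (.z 7) (.n (.n (.n (.z 10) (.z 10)) (.n (.z 10) (.z 10))) (.n (.z 9) (.n (.z 10) (.n (.f 4 44) (.f 8 98)))))))))) (.n (.n (.z 5) (.z 5)) (.n (.z 5) (.n (.n (.z 6) (.z 6)) (.n (.z 6) (.n (.z 7) (.n (.n (.z 9) (.z 9)) (.n (.z 9) (.n (.z 10) (.n (.f 4 45) (.f 8 99)))))))))))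

def tr13 : Tr := (.n (.n (.n (.n (.n (.n (.n (.n (.n (.n (.f 1 62) (.z 12)) (.z 10)) (.n (.z 11) (.z 10))) (.n (.z 9) (.n (.z 10) (.z 10)))) (.z 8)) (.n (.z 8) (.z 8))) (.n (.z 6) (.n (.z 7) (.z 8)))) (.n (.n (.n (.n (.n (.n (.n (.f 1 74) (.z 12)) (.z 10)) (.n (.n (.z 13) (.z 12)) (.z 10))) (.n (.z 9) (.n (.z 10) (.z 10)))) (.z 8)) (.n (.n (.n (.n (.n (.f 1 90) (.z 12)) (.z 10)) (.n (.n (.f 2 6) (.z 12)) (.z 10))) (.n (.z 9) (.n (.z 10) (.z 10)))) (.n (.n (.n (.n (.f 3 14) (.z 12)) (.z 10)) (.n (.n (.f 3 45) (.z 12)) (.z 10))) (.n (.z 9) (.n (.z 10) (.z 10)))))) (.n (.z 6) (.n (.z 7) (.n (.n (.n (.n (.f 3 17) (.z 12)) (.z 10)) (.n (.n (.f 3 47) (.z 12)) (.z 10))) (.n (.z 9) (.n (.z 10) (.z 10)))))))) (.n (.z 5) (.n (.n (.n (.z 7) (.z 7)) (.n (.z 7) (.z 7))) (.n (.z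 6) (.n (.z 7) (.n (.n (.n (.n (.f 3 19) (.z 12)) (.z 10)) (.n (.n (.f 3 48) (.z 12)) (.z 10))) (.n (.z 9) (.n (.n (.f 3 50) (.z 14)) (.n (.f 4 46) (.f 9 0)))))))))) (.n (.n (.z 5) (.z 5)) (.n (.z 5) (.n (.n (.z 6) (.z 6)) (.n (.z 6) (.n (.z 7) (.n (.n (.z 9) (.z 9)) (.n (.z 9) (.n (.n (.f 3 51) (.z 14)) (.n (.f 4 47) (.f 9 1)))))))))))

def tr14 : Tr := (.n (.n (.n (.n (.n (.n (.n (.n (.n (.n (.f 1 63) (.z 12)) (.z 10)) (.z 9)) (.n (.z 9) (.z 9))) (.z 8)) (.n (.z 8) (.z 8))) (.n (.z 6) (.n (.z 7) (.z 8)))) (.n (.n (.n (.n (.n (.n (.n (.f 1 75) (.z 12)) (.z 10)) (.z 9)) (.n (.z 9) (.z 9))) (.z 8)) (.n (.n (.n (.n (.n (.f 1 91) (.z 12)) (.z 10)) (.z 9)) (.n (.z 9) (.z 9))) (.n (.n (.n (.n (.f 3 15) (.z 12)) (.z 10)) (.z 9)) (.n (.z 9) (.z 9))))) (.n (.z 6) (.n (.z 7) (.n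 (.n (.n (.n (.f 3 18) (.z 12)) (.z 10)) (.z 9)) (.n (.z 9) (.z 9))))))) (.n (.z 5) (.n (.n (.n (.z 7) (.z 7)) (.n (.z 7) (.z 7))) (.n (.z 6) (.n (.z 7) (.n (.n (.n (.n (.f 3 20) (.z 12)) (.z 10)) (.z 9)) (.n (.z 9) (.z 9)))))))) (.n (.n (.z 5) (.z 5)) (.n (.z 5) (.n (.n (.z 6) (.z 6)) (.n (.z 6) (.n (.z 7) (.n (.n (.n (.n (.f 3 21) (.z 12)) (.z 10)) (.z 9)) (.n (.n (.n (.f 3 27) (.z 13)) (.z 11)) (.n (.n (.f 3 52) (.z 14)) (.n (.f 4 48) (.f 9 2)))))))))))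

def tr15 : Tr := (.n (.n (.n (.n (.n (.n (.n (.n (.n (.n (.f 0 17) (.f 4 69)) (.n (.z 14) (.f 5 66))) (.n (.z 11) (.n (.z 13) (.f 5 97)))) (.n (.z 9) (.n (.z 10) (.n (.z 12) (.f 6 1))))) (.z 7)) (.n (.z 8) (.z 7))) (.n (.z 6) (.n (.z 7) (.z 7)))) (.n (.n (.n (.n (.n (.n (.z 11) (.z 11)) (.n (.z 11) (.n (.z 13) (.f 6 14)))) (.n (.z 9) (.n (.z 10) (.n (.z 12) (.f 6 17))))) (.z 7)) (.n (.n (.n (.n (.z 11) (.z 11)) (.n (.z 11) (.n (.z 13) (.f 6 51)))) (.n (.z 9) (.n (.z 10) (.n (.z 12) (.f 6 53))))) (.z 7))) (.n (.z 6) (.n (.z 7) (.z 7))))) (.n (.z 5) (.n (.n (.n (.n (.n (.n (.z 10) (.z 10)) (.n (.z 10) (.z 10))) (.n (.z 9) (.n (.z 10) (.n (.z 12) (.f 6 19))))) (.z 7)) (.n (.n (.n (.n (.z 10) (.z 10)) (.n (.z 10) (.z 10))) (.n (.z 9) (.n (.z 10) (.n (.z 12) (.f 6 54)))))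 (.z 7))) (.n (.z 6) (.n (.n (.n (.n (.z 10) (.z 10)) (.n (.z 10) (.z 10))) (.n (.z 9) (.n (.z 10) (.n (.z 12) (.f 6 55))))) (.n (.n (.n (.z 10) (.z 10)) (.n (.z 10) (.z 10))) (.n (.z 9) (.n (.z 10) (.n (.z 12) (.f 7 53)))))))))) (.n (.n (.z 5) (.z 5)) (.n (.z 5) (.n (.n (.z 6) (.z 6)) (.n (.z 6) (.n (.n (.n (.z 9) (.z 9)) (.n (.z 9) (.n (.z 10) (.n (.z 12) (.f 6 56))))) (.n (.n (.z 9) (.z 9)) (.n (.z 9) (.n (.z 10) (.n (.z 12) (.f 7 54)))))))))))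

def tr16 : Tr := (.n (.n (.n (.n (.n (.n (.n (.n (.n (.n (.f 0 31) (.f 4 81)) (.z 11)) (.n (.z 11) (.z 11))) (.n (.z 9) (.n (.z 10) (.z 11)))) (.z 7)) (.n (.z 8) (.z 7))) (.n (.z 6) (.n (.z 7) (.z 7)))) (.n (.n (.n (.n (.n (.n (.n (.f 0 46) (.f 4 93)) (.z 11)) (.n (.n (.z 13) (.f 5 10)) (.n (.z 13) (.f 6 31)))) (.n (.z 9) (.n (.z 10) (.n (.z 12) (.f 6 34))))) (.z 7)) (.n (.n (.n (.n (.n (.z 13) (.z 13)) (.z 11)) (.n (.n (.z 13) (.f 5 27)) (.n (.z 13) (.f 6 63)))) (.n (.z 9) (.n (.z 10) (.n (.z 12) (.f 6 65))))) (.z 7))) (.n (.z 6) (.n (.z 7) (.z 7))))) (.n (.z 5) (.n (.n (.n (.n (.n (.n (.z 10) (.z 10)) (.n (.z 10) (.z 10))) (.n (.z 9) (.n (.z 10) (.n (.z 12) (.f 6 36))))) (.z 7)) (.n (.n (.n (.n (.z 10) (.z 10)) (.n (.z 10) (.z 10))) (.n (.z 9) (.n (.z 10) (.n (.z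 12) (.f 6 66))))) (.z 7))) (.n (.z 6) (.n (.n (.n (.n (.z 10) (.z 10)) (.n (.z 10) (.z 10))) (.n (.z 9) (.n (.z 10) (.n (.z 12) (.f 6 68))))) (.n (.n (.n (.z 10) (.z 10)) (.n (.z 10) (.z 10))) (.n (.z 9) (.n (.z 10) (.n (.z 12) (.f 7 65)))))))))) (.n (.n (.z 5) (.z 5)) (.n (.z 5) (.n (.n (.z 6) (.z 6)) (.n (.z 6) (.n (.n (.n (.z 9) (.z 9)) (.n (.z 9) (.n (.z 10) (.n (.z 12) (.f 6 69))))) (.n (.n (.z 9) (.z 9)) (.n (.z 9) (.n (.z 10) (.n (.z 12) (.f 7 66)))))))))))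

def tr17 : Tr := (.n (.n (.n (.n (.n (.n (.n (.n (.n (.n (.f 0 65) (.z 13)) (.z 11)) (.n (.z 11) (.z 11))) (.n (.z 9) (.n (.z 10) (.z 11)))) (.z 7)) (.n (.z 8) (.z 7))) (.n (.z 6) (.n (.z 7) (.z 7)))) (.n (.n (.n (.n (.n (.n (.n (.f 0 76) (.z 13)) (.z 11)) (.n (.n (.z 13) (.z 13)) (.n (.z 13) (.z 13)))) (.n (.z 9) (.n (.z 10) (.n (.z 12) (.z 13))))) (.z 7)) (.n (.n (.n (.n (.n (.f 0 92) (.z 13)) (.z 11)) (.n (.n (.f 1 8) (.f 5 39)) (.n (.z 14) (.f 6 79)))) (.n (.z 9) (.n (.z 10) (.n (.z 12) (.f 6 81))))) (.z 7))) (.n (.z 6) (.n (.z 7) (.z 7))))) (.n (.z 5) (.n (.n (.n (.n (.n (.n (.z 10) (.z 10)) (.n (.z 10) (.z 10))) (.n (.z 9) (.n (.z 10) (.n (.z 12) (.z 13))))) (.z 7)) (.n (.n (.n (.n (.z 10) (.z 10)) (.n (.z 10) (.z 10))) (.n (.z 9) (.n (.z 10) (.n (.z 12) (.f 6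 82))))) (.z 7))) (.n (.z 6) (.n (.n (.n (.n (.z 10) (.z 10)) (.n (.z 10) (.z 10))) (.n (.z 9) (.n (.z 10) (.n (.z 12) (.f 6 84))))) (.n (.n (.n (.z 10) (.z 10)) (.n (.z 10) (.z 10))) (.n (.z 9) (.n (.z 10) (.n (.z 12) (.f 7 80)))))))))) (.n (.n (.z 5) (.z 5)) (.n (.z 5) (.n (.n (.z 6) (.z 6)) (.n (.z 6) (.n (.n (.n (.z 9) (.z 9)) (.n (.z 9) (.n (.z 10) (.n (.z 12) (.f 6 85))))) (.n (.n (.z 9) (.z 9)) (.n (.z 9) (.n (.z 10) (.n (.z 12) (.f 7 81)))))))))))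

def tr18 : Tr := (.n (.n (.n (.n (.n (.n (.n (.n (.n (.n (.f 0 33) (.f 4 83)) (.z 10)) (.n (.z 11) (.z 10))) (.n (.z 9) (.n (.z 10) (.z 10)))) (.z 7)) (.n (.z 8) (.z 7))) (.n (.z 6) (.n (.z 7) (.z 7)))) (.n (.n (.n (.n (.n (.n (.n (.f 0 48) (.f 4 95)) (.z 10)) (.n (.n (.z 13) (.f 5 12)) (.z 10))) (.n (.z 9) (.n (.z 10) (.z 10)))) (.z 7)) (.n (.n (.n (.n (.n (.z 13) (.z 13)) (.z 10)) (.n (.n (.z 13) (.f 5 28)) (.z 10))) (.n (.z 9) (.n (.z 10) (.z 10)))) (.z 7))) (.n (.z 6) (.n (.z 7) (.z 7))))) (.n (.z 5) (.n (.n (.n (.n (.n (.n (.n (.f 0 51) (.f 4 98)) (.z 10)) (.n (.n (.z 13) (.f 5 14)) (.z 10))) (.n (.z 9) (.n (.n (.z 12) (.f 5 16)) (.n (.z 12) (.f 6 39))))) (.z 7)) (.n (.n (.n (.n (.n (.z 13) (.z 13)) (.z 10)) (.n (.n (.z 13) (.f 5 29)) (.z 10))) (.n (.z 9) (.n (.n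 (.z 12) (.f 5 30)) (.n (.z 12) (.f 6 67))))) (.z 7))) (.n (.z 6) (.n (.n (.n (.n (.n (.z 12) (.z 12)) (.z 10)) (.n (.n (.z 12) (.z 12)) (.z 10))) (.n (.z 9) (.n (.n (.z 12) (.f 5 31)) (.n (.z 12) (.f 6 71))))) (.n (.n (.n (.n (.z 12) (.z 12)) (.z 10)) (.n (.n (.z 12) (.z 12)) (.z 10))) (.n (.z 9) (.n (.n (.z 12) (.z 14)) (.n (.z 12) (.f 7 68)))))))))) (.n (.n (.z 5) (.z 5)) (.n (.z 5) (.n (.n (.z 6) (.z 6)) (.n (.z 6) (.n (.n (.n (.z 9) (.z 9)) (.n (.z 9) (.n (.n (.z 12) (.f 5 32)) (.n (.z 12) (.f 6 72))))) (.n (.n (.z 9) (.z 9)) (.n (.z 9) (.n (.n (.z 12) (.z 14)) (.n (.z 12) (.f 7 69)))))))))))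

def tr19 : Tr := (.n (.n (.n (.n (.n (.n (.n (.n (.n (.n (.f 0 66) (.z 13)) (.z 10)) (.n (.z 11) (.z 10))) (.n (.z 9) (.n (.z 10) (.z 10)))) (.z 7)) (.n (.z 8) (.z 7))) (.n (.z 6) (.n (.z 7) (.z 7)))) (.n (.n (.n (.n (.n (.n (.n (.f 0 77) (.z 13)) (.z 10)) (.n (.n (.z 13) (.z 13)) (.z 10))) (.n (.z 9) (.n (.z 10) (.z 10)))) (.z 7)) (.n (.n (.n (.n (.n (.f 0 93) (.z 13)) (.z 10)) (.n (.n (.f 1 9) (.f 5 40)) (.z 10))) (.n (.z 9) (.n (.z 10) (.z 10)))) (.z 7))) (.n (.z 6) (.n (.z 7) (.z 7))))) (.n (.z 5) (.n (.n (.n (.n (.n (.n (.n (.f 0 78) (.z 13)) (.z 10)) (.n (.n (.z 13) (.z 13)) (.z 10))) (.n (.z 9) (.n (.n (.z 12) (.z 13)) (.n (.z 12) (.z 13))))) (.z 7)) (.n (.n (.n (.n (.n (.f 0 94) (.z 13)) (.z 10)) (.n (.n (.f 1 10) (.f 5 41)) (.z 10))) (.n (.z 9) (.n (.n (.z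 12) (.f 5 42)) (.n (.z 12) (.f 6 83))))) (.z 7))) (.n (.z 6) (.n (.n (.n (.n (.n (.z 12) (.z 12)) (.z 10)) (.n (.n (.z 12) (.z 12)) (.z 10))) (.n (.z 9) (.n (.n (.z 12) (.f 5 43)) (.n (.z 12) (.f 6 86))))) (.n (.n (.n (.n (.z 12) (.z 12)) (.z 10)) (.n (.n (.z 12) (.z 12)) (.z 10))) (.n (.z 9) (.n (.n (.z 12) (.z 14)) (.n (.z 12) (.f 7 82)))))))))) (.n (.n (.z 5) (.z 5)) (.n (.z 5) (.n (.n (.z 6) (.z 6)) (.n (.z 6) (.n (.n (.n (.z 9) (.z 9)) (.n (.z 9) (.n (.n (.z 12) (.f 5 44)) (.n (.z 12) (.f 6 87))))) (.n (.n (.z 9) (.z 9)) (.n (.z 9) (.n (.n (.z 12) (.z 14)) (.n (.z 12) (.f 7 83)))))))))))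

def tr20 : Tr := (.n (.n (.n (.n (.n (.n (.n (.n (.n (.n (.f 0 67) (.z 12)) (.z 10)) (.n (.z 11) (.z 10))) (.n (.z 9) (.n (.z 10) (.z 10)))) (.z 7)) (.n (.z 8) (.z 7))) (.n (.z 6) (.n (.z 7) (.z 7)))) (.n (.n (.n (.n (.n (.n (.n (.f 0 79) (.z 12)) (.z 10)) (.n (.n (.z 13) (.z 12)) (.z 10))) (.n (.z 9) (.n (.z 10) (.z 10)))) (.z 7)) (.n (.n (.n (.n (.n (.f 0 95) (.z 12)) (.z 10)) (.n (.n (.f 1 11) (.z 12)) (.z 10))) (.n (.z 9) (.n (.z 10) (.z 10)))) (.z 7))) (.n (.z 6) (.n (.z 7) (.z 7))))) (.n (.z 5) (.n (.n (.n (.n (.n (.n (.n (.f 0 82) (.z 12)) (.z 10)) (.n (.n (.z 13) (.z 12)) (.z 10))) (.n (.z 9) (.n (.n (.z 12) (.z 12)) (.n (.z 12) (.z 12))))) (.z 7)) (.n (.n (.n (.n (.n (.f 0 97) (.z 12)) (.z 10)) (.n (.n (.f 1 12) (.z 12)) (.z 10))) (.n (.z 9) (.n (.n (.z 12)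 (.z 12)) (.n (.z 12) (.z 12))))) (.z 7))) (.n (.z 6) (.n (.n (.n (.n (.n (.f 0 99) (.z 12)) (.z 10)) (.n (.n (.f 1 13) (.z 12)) (.z 10))) (.n (.z 9) (.n (.n (.f 1 14) (.f 5 45)) (.n (.z 14) (.f 6 88))))) (.n (.n (.n (.n (.z 14) (.z 12)) (.z 10)) (.n (.n (.z 14) (.z 12)) (.z 10))) (.n (.z 9) (.n (.n (.z 14) (.z 14)) (.n (.z 14) (.f 7 84)))))))))) (.n (.n (.z 5) (.z 5)) (.n (.z 5) (.n (.n (.z 6) (.z 6)) (.n (.z 6) (.n (.n (.n (.z 9) (.z 9)) (.n (.z 9) (.n (.n (.f 1 15) (.f 5 46)) (.n (.z 14) (.f 6 89))))) (.n (.n (.z 9) (.z 9)) (.n (.z 9) (.n (.n (.z 14) (.z 14)) (.n (.z 14) (.f 7 85)))))))))))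

def tr21 : Tr := (.n (.n (.n (.n (.n (.n (.n (.n (.n (.n (.f 1 64) (.z 12)) (.z 10)) (.n (.z 11) (.z 10))) (.n (.z 9) (.n (.z 10) (.z 10)))) (.z 7)) (.n (.z 8) (.z 7))) (.n (.z 6) (.n (.z 7) (.z 7)))) (.n (.n (.n (.n (.n (.n (.n (.f 1 76) (.z 12)) (.z 10)) (.n (.n (.z 13) (.z 12)) (.z 10))) (.n (.z 9) (.n (.z 10) (.z 10)))) (.z 7)) (.n (.n (.n (.n (.n (.f 1 92) (.z 12)) (.z 10)) (.n (.n (.f 2 7) (.z 12)) (.z 10))) (.n (.z 9) (.n (.z 10) (.z 10)))) (.z 7))) (.n (.z 6) (.n (.z 7) (.z 7))))) (.n (.z 5) (.n (.n (.n (.n (.n (.n (.n (.f 1 79) (.z 12)) (.z 10)) (.n (.n (.z 13) (.z 12)) (.z 10))) (.n (.z 9) (.n (.n (.z 12) (.z 12)) (.n (.z 12) (.z 12))))) (.z 7)) (.n (.n (.n (.n (.n (.f 1 94) (.z 12)) (.z 10)) (.n (.n (.f 2 8) (.z 12)) (.z 10))) (.n (.z 9) (.n (.n (.z 12) (.z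 12)) (.n (.z 12) (.z 12))))) (.z 7))) (.n (.z 6) (.n (.n (.n (.n (.n (.f 1 96) (.z 12)) (.z 10)) (.n (.n (.f 2 9) (.z 12)) (.z 10))) (.n (.z 9) (.n (.n (.f 2 10) (.z 14)) (.n (.z 14) (.z 14))))) (.n (.n (.n (.n (.f 3 22) (.z 12)) (.z 10)) (.n (.n (.f 3 49) (.z 12)) (.z 10))) (.n (.z 9) (.n (.n (.f 3 53) (.z 14)) (.n (.f 4 49) (.f 9 3)))))))))) (.n (.n (.z 5) (.z 5)) (.n (.z 5) (.n (.n (.z 6) (.z 6)) (.n (.z 6) (.n (.n (.n (.z 9) (.z 9)) (.n (.z 9) (.n (.n (.f 2 11) (.z 14)) (.n (.z 14) (.z 14))))) (.n (.n (.z 9) (.z 9)) (.n (.z 9) (.n (.n (.f 3 54) (.z 14)) (.n (.f 4 50) (.f 9 4)))))))))))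

def tr22 : Tr := (.n (.n (.n (.n (.n (.n (.n (.n (.n (.n (.f 0 68) (.z 12)) (.z 10)) (.z 9)) (.n (.z 9) (.z 9))) (.z 7)) (.n (.z 8) (.z 7))) (.n (.z 6) (.n (.z 7) (.z 7)))) (.n (.n (.n (.n (.n (.n (.n (.f 0 80) (.z 12)) (.z 10)) (.z 9)) (.n (.z 9) (.z 9))) (.z 7)) (.n (.n (.n (.n (.n (.f 0 96) (.z 12)) (.z 10)) (.z 9)) (.n (.z 9) (.z 9))) (.z 7))) (.n (.z 6) (.n (.z 7) (.z 7))))) (.n (.z 5) (.n (.n (.n (.n (.n (.n (.n (.f 0 83) (.z 12)) (.z 10)) (.z 9)) (.n (.z 9) (.z 9))) (.z 7)) (.n (.n (.n (.n (.n (.f 0 98) (.z 12)) (.z 10)) (.z 9)) (.n (.z 9) (.z 9))) (.z 7))) (.n (.z 6) (.n (.n (.n (.n (.n (.f 1 0) (.z 12)) (.z 10)) (.z 9)) (.n (.z 9) (.z 9))) (.n (.n (.n (.n (.z 14) (.z 12)) (.z 10)) (.z 9)) (.n (.z 9) (.z 9)))))))) (.n (.n (.z 5) (.z 5)) (.n (.z 5) (.n (.n (.z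 6) (.z 6)) (.n (.z 6) (.n (.n (.n (.n (.n (.f 1 1) (.z 12)) (.z 10)) (.z 9)) (.n (.n (.n (.f 1 4) (.z 13)) (.z 11)) (.n (.n (.f 1 16) (.f 5 47)) (.n (.z 14) (.f 6 90))))) (.n (.n (.n (.n (.z 14) (.z 12)) (.z 10)) (.z 9)) (.n (.n (.n (.z 14) (.z 13)) (.z 11)) (.n (.n (.z 14) (.z 14)) (.n (.z 14) (.f 7 86)))))))))))

def tr23 : Tr := (.n (.n (.n (.n (.n (.n (.n (.n (.n (.n (.f 1 65) (.z 12)) (.z 10)) (.z 9)) (.n (.z 9) (.z 9))) (.z 7)) (.n (.z 8) (.z 7))) (.n (.z 6) (.n (.z 7) (.z 7)))) (.n (.n (.n (.n (.n (.n (.n (.f 1 77) (.z 12)) (.z 10)) (.z 9)) (.n (.z 9) (.z 9))) (.z 7)) (.n (.n (.n (.n (.n (.f 1 93) (.z 12)) (.z 10)) (.z 9)) (.n (.z 9) (.z 9))) (.z 7))) (.n (.z 6) (.n (.z 7) (.z 7))))) (.n (.z 5) (.n (.n (.n (.n (.n (.n (.n (.f 1 80) (.z 12)) (.z 10)) (.z 9)) (.n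 (.z 9) (.z 9))) (.z 7)) (.n (.n (.n (.n (.n (.f 1 95) (.z 12)) (.z 10)) (.z 9)) (.n (.z 9) (.z 9))) (.z 7))) (.n (.z 6) (.n (.n (.n (.n (.n (.f 1 97) (.z 12)) (.z 10)) (.z 9)) (.n (.z 9) (.z 9))) (.n (.n (.n (.n (.f 3 23) (.z 12)) (.z 10)) (.z 9)) (.n (.z 9) (.z 9)))))))) (.n (.n (.z 5) (.z 5)) (.n (.z 5) (.n (.n (.z 6) (.z 6)) (.n (.z 6) (.n (.n (.n (.n (.n (.f 1 98) (.z 12)) (.z 10)) (.z 9)) (.n (.n (.n (.f 2 1) (.z 13)) (.z 11)) (.n (.n (.f 2 12) (.z 14)) (.n (.z 14) (.z 14))))) (.n (.n (.n (.n (.f 3 24) (.z 12)) (.z 10)) (.z 9)) (.n (.n (.n (.f 3 28) (.z 13)) (.z 11)) (.n (.n (.f 3 55) (.z 14)) (.n (.f 4 51) (.f 9 5)))))))))))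

def tr24 : Tr := (.n (.n (.n (.n (.n (.n (.n (.n (.n (.n (.f 0 18) (.f 4 70)) (.n (.z 14) (.f 5 67))) (.n (.z 11) (.n (.z 13) (.f 5 98)))) (.n (.z 9) (.n (.z 10) (.n (.z 12) (.f 6 2))))) (.z 7)) (.z 6)) (.n (.z 6) (.z 6))) (.n (.n (.n (.n (.n (.n (.z 11) (.z 11)) (.n (.z 11) (.n (.z 13) (.f 6 15)))) (.n (.z 9) (.n (.z 10) (.n (.z 12) (.f 6 18))))) (.z 7)) (.z 6)) (.n (.z 6) (.z 6)))) (.n (.z 5) (.n (.n (.n (.n (.n (.n (.z 10) (.z 10)) (.n (.z 10) (.z 10))) (.n (.z 9) (.n (.z 10) (.n (.z 12) (.f 6 20))))) (.z 7)) (.z 6)) (.n (.z 6) (.z 6))))) (.n (.n (.z 5) (.z 5)) (.n (.z 5) (.n (.n (.n (.n (.n (.z 9) (.z 9)) (.n (.z 9) (.n (.z 10) (.n (.z 12) (.f 6 21))))) (.z 7)) (.z 6)) (.n (.n (.n (.n (.z 9) (.z 9)) (.n (.z 9) (.n (.z 10) (.n (.z 12) (.f 6 25))))) (.z 8)) (.n (.n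 (.n (.z 9) (.z 9)) (.n (.z 9) (.n (.z 10) (.n (.z 12) (.f 6 57))))) (.n (.n (.z 9) (.z 9)) (.n (.z 9) (.n (.z 10) (.n (.z 12) (.f 7 55)))))))))))

def tr25 : Tr := (.n (.n (.n (.n (.n (.n (.n (.n (.n (.n (.f 0 32) (.f 4 82)) (.z 11)) (.n (.z 11) (.z 11))) (.n (.z 9) (.n (.z 10) (.z 11)))) (.z 7)) (.z 6)) (.n (.z 6) (.z 6))) (.n (.n (.n (.n (.n (.n (.n (.f 0 47) (.f 4 94)) (.z 11)) (.n (.n (.z 13) (.f 5 11)) (.n (.z 13) (.f 6 32)))) (.n (.z 9) (.n (.z 10) (.n (.z 12) (.f 6 35))))) (.z 7)) (.z 6)) (.n (.z 6) (.z 6)))) (.n (.z 5) (.n (.n (.n (.n (.n (.n (.z 10) (.z 10)) (.n (.z 10) (.z 10))) (.n (.z 9) (.n (.z 10) (.n (.z 12) (.f 6 37))))) (.z 7)) (.z 6)) (.n (.z 6) (.z 6))))) (.n (.n (.z 5) (.z 5)) (.n (.z 5) (.n (.n (.n (.n (.n (.z 9) (.z 9)) (.n (.z 9) (.n (.z 10) (.n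 (.z 12) (.f 6 38))))) (.z 7)) (.z 6)) (.n (.n (.n (.n (.z 9) (.z 9)) (.n (.z 9) (.n (.z 10) (.n (.z 12) (.f 6 44))))) (.z 8)) (.n (.n (.n (.z 9) (.z 9)) (.n (.z 9) (.n (.z 10) (.n (.z 12) (.f 6 70))))) (.n (.n (.z 9) (.z 9)) (.n (.z 9) (.n (.z 10) (.n (.z 12) (.f 7 67)))))))))))

def tr26 : Tr := (.n (.n (.n (.n (.n (.n (.n (.n (.n (.n (.f 0 34) (.f 4 84)) (.z 10)) (.n (.z 11) (.z 10))) (.n (.z 9) (.n (.z 10) (.z 10)))) (.z 7)) (.z 6)) (.n (.z 6) (.z 6))) (.n (.n (.n (.n (.n (.n (.n (.f 0 49) (.f 4 96)) (.z 10)) (.n (.n (.z 13) (.f 5 13)) (.z 10))) (.n (.z 9) (.n (.z 10) (.z 10)))) (.z 7)) (.z 6)) (.n (.z 6) (.z 6)))) (.n (.z 5) (.n (.n (.n (.n (.n (.n (.n (.f 0 52) (.f 4 99)) (.z 10)) (.n (.n (.z 13) (.f 5 15)) (.z 10))) (.n (.z 9) (.n (.n (.z 12) (.f 5 17)) (.n (.z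 12) (.f 6 40))))) (.z 7)) (.z 6)) (.n (.z 6) (.z 6))))) (.n (.n (.z 5) (.z 5)) (.n (.z 5) (.n (.n (.n (.n (.n (.z 9) (.z 9)) (.n (.z 9) (.n (.n (.z 12) (.f 5 18)) (.n (.z 12) (.f 6 41))))) (.z 7)) (.z 6)) (.n (.n (.n (.n (.z 9) (.z 9)) (.n (.z 9) (.n (.n (.z 12) (.f 5 21)) (.n (.z 12) (.f 6 45))))) (.z 8)) (.n (.n (.n (.z 9) (.z 9)) (.n (.z 9) (.n (.n (.z 12) (.f 5 33)) (.n (.z 12) (.f 6 73))))) (.n (.n (.z 9) (.z 9)) (.n (.z 9) (.n (.n (.z 12) (.z 14)) (.n (.z 12) (.f 7 70)))))))))))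

def tr27 : Tr := (.n (.n (.n (.n (.n (.n (.n (.n (.n (.n (.f 0 35) (.f 4 85)) (.z 10)) (.z 9)) (.n (.z 9) (.z 9))) (.z 7)) (.z 6)) (.n (.z 6) (.z 6))) (.n (.n (.n (.n (.n (.n (.n (.f 0 50) (.f 4 97)) (.z 10)) (.z 9)) (.n (.z 9) (.z 9))) (.z 7)) (.z 6)) (.n (.z 6) (.z 6)))) (.n (.z 5) (.n (.n (.n (.n (.n (.n (.n (.f 0 53) (.f 5 0)) (.z 10)) (.z 9)) (.n (.z 9) (.z 9))) (.z 7)) (.z 6)) (.n (.z 6) (.z 6))))) (.n (.n (.z 5) (.z 5)) (.n (.z 5) (.n (.n (.n (.n (.n (.n (.n (.f 0 54) (.f 5 1)) (.z 10)) (.z 9)) (.n (.n (.n (.z 12) (.f 5 3)) (.z 11)) (.n (.n (.z 12) (.f 5 19)) (.n (.z 12) (.f 6 42))))) (.z 7)) (.z 6)) (.n (.n (.n (.n (.n (.n (.z 12) (.z 12)) (.z 10)) (.z 9)) (.n (.n (.n (.z 12) (.f 5 5)) (.z 11)) (.n (.n (.z 12) (.f 5 22)) (.n (.z 12) (.f 6 46))))) (.z 8)) (.n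 (.n (.n (.n (.n (.z 12) (.z 12)) (.z 10)) (.z 9)) (.n (.n (.n (.z 12) (.z 13)) (.z 11)) (.n (.n (.z 12) (.f 5 34)) (.n (.z 12) (.f 6 74))))) (.n (.n (.n (.n (.z 12) (.z 12)) (.z 10)) (.z 9)) (.n (.n (.n (.z 12) (.z 13)) (.z 11)) (.n (.n (.z 12) (.z 14)) (.n (.z 12) (.f 7 71)))))))))))

def tr28 : Tr := (.n (.n (.n (.n (.n (.n (.n (.n (.n (.n (.f 0 39) (.z 12)) (.z 10)) (.z 9)) (.n (.z 9) (.z 9))) (.z 7)) (.z 6)) (.n (.z 6) (.z 6))) (.n (.n (.n (.n (.n (.n (.n (.f 0 56) (.z 12)) (.z 10)) (.z 9)) (.n (.z 9) (.z 9))) (.z 7)) (.z 6)) (.n (.z 6) (.z 6)))) (.n (.z 5) (.n (.n (.n (.n (.n (.n (.n (.f 0 57) (.z 12)) (.z 10)) (.z 9)) (.n (.z 9) (.z 9))) (.z 7)) (.z 6)) (.n (.z 6) (.z 6))))) (.n (.n (.z 5) (.z 5)) (.n (.z 5) (.n (.n (.n (.n (.n (.n (.n (.f 0 58) (.z 12)) (.z 10))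 (.z 9)) (.n (.n (.n (.z 12) (.z 12)) (.z 11)) (.n (.n (.z 12) (.z 12)) (.n (.z 12) (.z 12))))) (.z 7)) (.z 6)) (.n (.n (.n (.n (.n (.n (.f 0 60) (.z 12)) (.z 10)) (.z 9)) (.n (.n (.n (.f 0 62) (.f 5 7)) (.z 11)) (.n (.n (.z 13) (.f 5 24)) (.n (.z 13) (.f 6 48))))) (.z 8)) (.n (.n (.n (.n (.n (.z 13) (.z 12)) (.z 10)) (.z 9)) (.n (.n (.n (.z 13) (.z 13)) (.z 11)) (.n (.n (.z 13) (.f 5 36)) (.n (.z 13) (.f 6 76))))) (.n (.n (.n (.n (.z 13) (.z 12)) (.z 10)) (.z 9)) (.n (.n (.n (.z 13) (.z 13)) (.z 11)) (.n (.n (.z 13) (.z 14)) (.n (.z 13) (.f 7 73)))))))))))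

def tr29 : Tr := (.n (.n (.n (.n (.n (.n (.n (.n (.n (.n (.f 0 69) (.z 12)) (.z 10)) (.z 9)) (.n (.z 9) (.z 9))) (.z 7)) (.z 6)) (.n (.z 6) (.z 6))) (.n (.n (.n (.n (.n (.n (.n (.f 0 81) (.z 12)) (.z 10)) (.z 9)) (.n (.z 9) (.z 9))) (.z 7)) (.z 6)) (.n (.z 6) (.z 6)))) (.n (.z 5) (.n (.n (.n (.n (.n (.n (.n (.f 0 84) (.z 12)) (.z 10)) (.z 9)) (.n (.z 9) (.z 9))) (.z 7)) (.z 6)) (.n (.z 6) (.z 6))))) (.n (.n (.z 5) (.z 5)) (.n (.z 5) (.n (.n (.n (.n (.n (.n (.n (.f 0 85) (.z 12)) (.z 10)) (.z 9)) (.n (.n (.n (.z 12) (.z 12)) (.z 11)) (.n (.n (.z 12) (.z 12)) (.n (.z 12) (.z 12))))) (.z 7)) (.z 6)) (.n (.n (.n (.n (.n (.n (.f 0 87) (.z 12)) (.z 10)) (.z 9)) (.n (.n (.n (.f 0 89) (.z 13)) (.z 11)) (.n (.n (.z 13) (.z 13)) (.n (.z 13) (.z 13))))) (.z 8)) (.n (.n (.n (.n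 (.n (.f 1 2) (.z 12)) (.z 10)) (.z 9)) (.n (.n (.n (.f 1 5) (.z 13)) (.z 11)) (.n (.n (.f 1 17) (.f 5 48)) (.n (.z 14) (.f 6 91))))) (.n (.n (.n (.n (.z 14) (.z 12)) (.z 10)) (.z 9)) (.n (.n (.n (.z 14) (.z 13)) (.z 11)) (.n (.n (.z 14) (.z 14)) (.n (.z 14) (.f 7 87)))))))))))

def tr30 : Tr := (.n (.n (.n (.n (.n (.n (.n (.n (.n (.n (.f 1 66) (.z 12)) (.z 10)) (.z 9)) (.n (.z 9) (.z 9))) (.z 7)) (.z 6)) (.n (.z 6) (.z 6))) (.n (.n (.n (.n (.n (.n (.n (.f 1 78) (.z 12)) (.z 10)) (.z 9)) (.n (.z 9) (.z 9))) (.z 7)) (.z 6)) (.n (.z 6) (.z 6)))) (.n (.z 5) (.n (.n (.n (.n (.n (.n (.n (.f 1 81) (.z 12)) (.z 10)) (.z 9)) (.n (.z 9) (.z 9))) (.z 7)) (.z 6)) (.n (.z 6) (.z 6))))) (.n (.n (.z 5) (.z 5)) (.n (.z 5) (.n (.n (.n (.n (.n (.n (.n (.f 1 82) (.z 12)) (.z 10)) (.z 9))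 (.n (.n (.n (.z 12) (.z 12)) (.z 11)) (.n (.n (.z 12) (.z 12)) (.n (.z 12) (.z 12))))) (.z 7)) (.z 6)) (.n (.n (.n (.n (.n (.n (.f 1 84) (.z 12)) (.z 10)) (.z 9)) (.n (.n (.n (.f 1 86) (.z 13)) (.z 11)) (.n (.n (.z 13) (.z 13)) (.n (.z 13) (.z 13))))) (.z 8)) (.n (.n (.n (.n (.n (.f 1 99) (.z 12)) (.z 10)) (.z 9)) (.n (.n (.n (.f 2 2) (.z 13)) (.z 11)) (.n (.n (.f 2 13) (.z 14)) (.n (.z 14) (.z 14))))) (.n (.n (.n (.n (.f 3 25) (.z 12)) (.z 10)) (.z 9)) (.n (.n (.n (.f 3 29) (.z 13)) (.z 11)) (.n (.n (.f 3 56) (.z 14)) (.n (.f 4 52) (.f 9 6)))))))))))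

def tr31 : Tr := (.n (.n (.n (.n (.n (.n (.n (.n (.n (.n (.f 0 1) (.f 4 55)) (.n (.z 14) (.f 5 51))) (.n (.z 11) (.n (.z 13) (.f 5 78)))) (.n (.z 9) (.n (.z 10) (.n (.z 12) (.f 5 82))))) (.n (.n (.n (.n (.z 14) (.z 14)) (.n (.z 14) (.f 6 94))) (.n (.z 11) (.n (.z 13) (.f 7 5)))) (.n (.z 9) (.n (.z 10) (.n (.z 12) (.f 7 8)))))) (.n (.z 8) (.n (.n (.n (.n (.z 13) (.z 13)) (.n (.z 13) (.z 13))) (.n (.z 11) (.n (.z 13) (.f 7 21)))) (.n (.z 9) (.n (.z 10) (.n (.z 12) (.f 7 23))))))) (.n (.z 6) (.n (.z 7) (.n (.n (.n (.n (.z 12) (.z 12)) (.n (.z 12) (.z 12))) (.n (.z 11) (.n (.z 12) (.z 12)))) (.n (.z 9) (.n (.z 10) (.n (.z 12) (.f 7 25)))))))) (.z 5)) (.n (.z 5) (.z 5))) (.n (.n (.n (.n (.z 6) (.z 6)) (.n (.z 6) (.n (.z 7) (.n (.n (.z 9) (.z 9)) (.n (.z 9) (.n (.z 10) (.n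 (.z 12) (.f 7 26)))))))) (.z 5)) (.n (.n (.n (.z 6) (.z 6)) (.n (.z 6) (.n (.z 7) (.n (.n (.z 9) (.z 9)) (.n (.z 9) (.n (.z 10) (.n (.z 12) (.f 7 29)))))))) (.n (.n (.z 6) (.z 6)) (.n (.z 6) (.n (.z 7) (.n (.n (.z 9) (.z 9)) (.n (.z 9) (.n (.z 10) (.n (.z 12) (.f 7 41)))))))))))

def tr32 : Tr := (.n (.n (.n (.n (.n (.n (.n (.n (.n (.n (.f 1 20) (.z 14)) (.n (.z 14) (.z 14))) (.n (.z 11) (.n (.z 13) (.z 14)))) (.n (.z 9) (.n (.z 10) (.n (.z 12) (.z 14))))) (.n (.n (.n (.n (.f 2 16) (.z 14)) (.n (.f 3 59) (.f 7 90))) (.n (.z 11) (.n (.z 13) (.f 8 2)))) (.n (.z 9) (.n (.z 10) (.n (.z 12) (.f 8 5)))))) (.n (.z 8) (.n (.n (.n (.n (.z 13) (.z 13)) (.n (.z 13) (.z 13))) (.n (.z 11) (.n (.z 13) (.f 8 18)))) (.n (.z 9) (.n (.z 10) (.n (.z 12) (.f 8 20))))))) (.n (.z 6) (.n (.z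 7) (.n (.n (.n (.n (.z 12) (.z 12)) (.n (.z 12) (.z 12))) (.n (.z 11) (.n (.z 12) (.z 12)))) (.n (.z 9) (.n (.z 10) (.n (.z 12) (.f 8 22)))))))) (.z 5)) (.n (.z 5) (.z 5))) (.n (.n (.n (.n (.z 6) (.z 6)) (.n (.z 6) (.n (.z 7) (.n (.n (.z 9) (.z 9)) (.n (.z 9) (.n (.z 10) (.n (.z 12) (.f 8 23)))))))) (.z 5)) (.n (.n (.n (.z 6) (.z 6)) (.n (.z 6) (.n (.z 7) (.n (.n (.z 9) (.z 9)) (.n (.z 9) (.n (.z 10) (.n (.z 12) (.f 8 26)))))))) (.n (.n (.z 6) (.z 6)) (.n (.z 6) (.n (.z 7) (.n (.n (.z 9) (.z 9)) (.n (.z 9) (.n (.z 10) (.n (.z 12) (.f 8 38)))))))))))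

def tr33 : Tr := (.n (.n (.n (.n (.n (.n (.n (.n (.n (.n (.f 1 34) (.z 13)) (.n (.z 14) (.z 13))) (.n (.z 11) (.n (.z 13) (.z 13)))) (.n (.z 9) (.n (.z 10) (.n (.z 12) (.z 13))))) (.n (.n (.n (.n (.f 2 31) (.z 13)) (.n (.f 3 71) (.z 13))) (.n (.z 11) (.n (.z 13) (.z 13)))) (.n (.z 9) (.n (.z 10) (.n (.z 12) (.z 13)))))) (.n (.z 8) (.n (.n (.n (.n (.f 2 59) (.z 13)) (.n (.f 3 83) (.z 13))) (.n (.z 11) (.n (.f 4 0) (.f 8 45)))) (.n (.z 9) (.n (.z 10) (.n (.z 12) (.f 8 47))))))) (.n (.z 6) (.n (.z 7) (.n (.n (.n (.n (.z 12) (.z 12)) (.n (.z 12) (.z 12))) (.n (.z 11) (.n (.z 12) (.z 12)))) (.n (.z 9) (.n (.z 10) (.n (.z 12) (.f 8 49)))))))) (.z 5)) (.n (.z 5) (.z 5))) (.n (.n (.n (.n (.z 6) (.z 6)) (.n (.z 6) (.n (.z 7) (.n (.n (.z 9) (.z 9)) (.n (.z 9) (.n (.z 10) (.n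 (.z 12) (.f 8 50)))))))) (.z 5)) (.n (.n (.n (.z 6) (.z 6)) (.n (.z 6) (.n (.z 7) (.n (.n (.z 9) (.z 9)) (.n (.z 9) (.n (.z 10) (.n (.z 12) (.f 8 51)))))))) (.n (.n (.z 6) (.z 6)) (.n (.z 6) (.n (.z 7) (.n (.n (.z 9) (.z 9)) (.n (.z 9) (.n (.z 10) (.n (.z 12) (.f 8 68)))))))))))

def tr34 : Tr := (.n (.n (.n (.n (.n (.n (.n (.n (.n (.n (.f 1 36) (.z 12)) (.n (.z 14) (.z 12))) (.n (.z 11) (.n (.z 13) (.z 12)))) (.n (.z 9) (.n (.z 10) (.n (.z 12) (.z 12))))) (.n (.n (.n (.n (.f 2 33) (.z 12)) (.n (.f 3 73) (.z 12))) (.n (.z 11) (.n (.z 13) (.z 12)))) (.n (.z 9) (.n (.z 10) (.n (.z 12) (.z 12)))))) (.n (.z 8) (.n (.n (.n (.n (.f 2 61) (.z 12)) (.n (.f 3 85) (.z 12))) (.n (.z 11) (.n (.f 4 2) (.z 12)))) (.n (.z 9) (.n (.z 10) (.n (.z 12) (.z 12))))))) (.n (.z 6) (.n (.z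 7) (.n (.n (.n (.n (.f 2 65) (.z 12)) (.n (.f 3 88) (.z 12))) (.n (.z 11) (.n (.f 4 4) (.z 12)))) (.n (.z 9) (.n (.z 10) (.n (.f 4 6) (.f 8 53)))))))) (.z 5)) (.n (.z 5) (.z 5))) (.n (.n (.n (.n (.z 6) (.z 6)) (.n (.z 6) (.n (.z 7) (.n (.n (.z 9) (.z 9)) (.n (.z 9) (.n (.z 10) (.n (.f 4 7) (.f 8 54)))))))) (.z 5)) (.n (.n (.n (.z 6) (.z 6)) (.n (.z 6) (.n (.z 7) (.n (.n (.z 9) (.z 9)) (.n (.z 9) (.n (.z 10) (.n (.f 4 10) (.f 8 57)))))))) (.n (.n (.z 6) (.z 6)) (.n (.z 6) (.n (.z 7) (.n (.n (.z 9) (.z 9)) (.n (.z 9) (.n (.z 10) (.n (.f 4 22) (.f 8 72)))))))))))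

def tr35 : Tr := (.n (.n (.n (.n (.n (.n (.n (.n (.n (.n (.f 1 37) (.z 12)) (.n (.z 14) (.z 12))) (.z 9)) (.n (.z 9) (.z 9))) (.n (.n (.n (.n (.f 2 34) (.z 12)) (.n (.f 3 74) (.z 12))) (.z 9)) (.n (.z 9) (.z 9)))) (.n (.z 8) (.n (.n (.n (.n (.f 2 62) (.z 12)) (.n (.f 3 86) (.z 12))) (.z 9)) (.n (.z 9) (.z 9))))) (.n (.z 6) (.n (.z 7) (.n (.n (.n (.n (.f 2 66) (.z 12)) (.n (.f 3 89) (.z 12))) (.z 9)) (.n (.z 9) (.z 9)))))) (.z 5)) (.n (.z 5) (.z 5))) (.n (.n (.n (.n (.z 6) (.z 6)) (.n (.z 6) (.n (.z 7) (.n (.n (.n (.n (.f 2 67) (.z 12)) (.n (.f 3 90) (.z 12))) (.z 9)) (.n (.n (.z 10) (.n (.f 3 92) (.z 13))) (.n (.z 10) (.n (.f 4 8) (.f 8 55)))))))) (.z 5)) (.n (.n (.n (.z 6) (.z 6)) (.n (.z 6) (.n (.z 7) (.n (.n (.n (.z 10) (.z 10)) (.z 9)) (.n (.n (.z 10) (.n (.f 3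 94) (.z 13))) (.n (.z 10) (.n (.f 4 11) (.f 8 58)))))))) (.n (.n (.z 6) (.z 6)) (.n (.z 6) (.n (.z 7) (.n (.n (.n (.z 10) (.z 10)) (.z 9)) (.n (.n (.z 10) (.z 11)) (.n (.z 10) (.n (.f 4 23) (.f 8 73)))))))))))

def tr36 : Tr := (.n (.n (.n (.n (.n (.n (.n (.n (.n (.n (.f 1 40) (.z 12)) (.z 10)) (.z 9)) (.n (.z 9) (.z 9))) (.n (.n (.n (.n (.f 2 37) (.z 12)) (.z 10)) (.z 9)) (.n (.z 9) (.z 9)))) (.n (.z 8) (.n (.n (.n (.n (.f 2 63) (.z 12)) (.z 10)) (.z 9)) (.n (.z 9) (.z 9))))) (.n (.z 6) (.n (.z 7) (.n (.n (.n (.n (.f 2 69) (.z 12)) (.z 10)) (.z 9)) (.n (.z 9) (.z 9)))))) (.z 5)) (.n (.z 5) (.z 5))) (.n (.n (.n (.n (.z 6) (.z 6)) (.n (.z 6) (.n (.z 7) (.n (.n (.n (.n (.f 2 70) (.z 12)) (.z 10)) (.z 9)) (.n (.n (.z 10) (.z 10)) (.n (.z 10) (.z 10))))))) (.z 5)) (.n (.n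 (.n (.z 6) (.z 6)) (.n (.z 6) (.n (.z 7) (.n (.n (.n (.n (.f 2 72) (.z 12)) (.z 10)) (.z 9)) (.n (.n (.n (.f 2 75) (.z 13)) (.n (.f 3 96) (.z 13))) (.n (.z 11) (.n (.f 4 13) (.f 8 60)))))))) (.n (.n (.z 6) (.z 6)) (.n (.z 6) (.n (.z 7) (.n (.n (.n (.z 11) (.z 10)) (.z 9)) (.n (.n (.z 11) (.z 11)) (.n (.z 11) (.n (.f 4 25) (.f 8 75)))))))))))

def tr37 : Tr := (.n (.n (.n (.n (.n (.n (.n (.n (.n (.n (.f 1 52) (.z 12)) (.z 10)) (.z 9)) (.n (.z 9) (.z 9))) (.n (.n (.n (.n (.f 2 50) (.z 12)) (.z 10)) (.z 9)) (.n (.z 9) (.z 9)))) (.n (.z 8) (.n (.n (.n (.n (.f 2 82) (.z 12)) (.z 10)) (.z 9)) (.n (.z 9) (.z 9))))) (.n (.z 6) (.n (.z 7) (.n (.n (.n (.n (.f 2 86) (.z 12)) (.z 10)) (.z 9)) (.n (.z 9) (.z 9)))))) (.z 5)) (.n (.z 5) (.z 5))) (.n (.n (.n (.n (.z 6) (.z 6)) (.n (.z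 6) (.n (.z 7) (.n (.n (.n (.n (.f 2 87) (.z 12)) (.z 10)) (.z 9)) (.n (.n (.z 10) (.z 10)) (.n (.z 10) (.z 10))))))) (.z 5)) (.n (.n (.n (.z 6) (.z 6)) (.n (.z 6) (.n (.z 7) (.n (.n (.n (.n (.f 2 89) (.z 12)) (.z 10)) (.z 9)) (.n (.n (.n (.f 2 92) (.z 13)) (.z 11)) (.n (.z 11) (.z 11))))))) (.n (.n (.z 6) (.z 6)) (.n (.z 6) (.n (.z 7) (.n (.n (.n (.n (.f 3 5) (.z 12)) (.z 10)) (.z 9)) (.n (.n (.n (.f 3 9) (.z 13)) (.z 11)) (.n (.n (.f 3 40) (.z 14)) (.n (.f 4 37) (.f 8 89)))))))))))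

def tr38 : Tr := (.n (.n (.n (.n (.n (.n (.n (.n (.n (.n (.f 0 2) (.f 4 56)) (.n (.z 14) (.f 5 52))) (.n (.z 11) (.n (.z 13) (.f 5 79)))) (.n (.z 9) (.n (.z 10) (.n (.z 12) (.f 5 83))))) (.n (.n (.n (.n (.z 14) (.z 14)) (.n (.z 14) (.f 6 95))) (.n (.z 11) (.n (.z 13) (.f 7 6)))) (.n (.z 9) (.n (.z 10) (.n (.z 12) (.f 7 9)))))) (.z 6)) (.n (.z 6) (.z 6))) (.z 5)) (.n (.z 5) (.z 5))) (.n (.n (.n (.n (.n (.n (.n (.z 9) (.z 9)) (.n (.z 9) (.n (.z 10) (.n (.z 12) (.f 5 84))))) (.n (.n (.z 9) (.z 9)) (.n (.z 9) (.n (.z 10) (.n (.z 12) (.f 7 10)))))) (.z 6)) (.n (.n (.z 7) (.n (.n (.z 9) (.z 9)) (.n (.z 9) (.n (.z 10) (.n (.z 12) (.f 7 12)))))) (.n (.z 7) (.n (.n (.z 9) (.z 9)) (.n (.z 9) (.n (.z 10) (.n (.z 12) (.f 7 27)))))))) (.z 5)) (.n (.n (.n (.n (.z 7) (.z 7)) (.z 6))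 (.n (.n (.z 7) (.n (.n (.z 9) (.z 9)) (.n (.z 9) (.n (.z 10) (.n (.z 12) (.f 7 14)))))) (.n (.z 7) (.n (.n (.z 9) (.z 9)) (.n (.z 9) (.n (.z 10) (.n (.z 12) (.f 7 30)))))))) (.n (.n (.n (.z 7) (.z 7)) (.z 6)) (.n (.n (.z 7) (.z 8)) (.n (.z 7) (.n (.n (.z 9) (.z 9)) (.n (.z 9) (.n (.z 10) (.n (.z 12) (.f 7 42)))))))))))

def tr39 : Tr := (.n (.n (.n (.n (.n (.n (.n (.n (.n (.n (.f 1 21) (.z 14)) (.n (.z 14) (.z 14))) (.n (.z 11) (.n (.z 13) (.z 14)))) (.n (.z 9) (.n (.z 10) (.n (.z 12) (.z 14))))) (.n (.n (.n (.n (.f 2 17) (.z 14)) (.n (.f 3 60) (.f 7 91))) (.n (.z 11) (.n (.z 13) (.f 8 3)))) (.n (.z 9) (.n (.z 10) (.n (.z 12) (.f 8 6)))))) (.z 6)) (.n (.z 6) (.z 6))) (.z 5)) (.n (.z 5) (.z 5))) (.n (.n (.n (.n (.n (.n (.n (.z 9) (.z 9)) (.n (.z 9) (.n (.z 10) (.n (.z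 12) (.z 14))))) (.n (.n (.z 9) (.z 9)) (.n (.z 9) (.n (.z 10) (.n (.z 12) (.f 8 7)))))) (.z 6)) (.n (.n (.z 7) (.n (.n (.z 9) (.z 9)) (.n (.z 9) (.n (.z 10) (.n (.z 12) (.f 8 9)))))) (.n (.z 7) (.n (.n (.z 9) (.z 9)) (.n (.z 9) (.n (.z 10) (.n (.z 12) (.f 8 24)))))))) (.z 5)) (.n (.n (.n (.n (.z 7) (.z 7)) (.z 6)) (.n (.n (.z 7) (.n (.n (.z 9) (.z 9)) (.n (.z 9) (.n (.z 10) (.n (.z 12) (.f 8 11)))))) (.n (.z 7) (.n (.n (.z 9) (.z 9)) (.n (.z 9) (.n (.z 10) (.n (.z 12) (.f 8 27)))))))) (.n (.n (.n (.z 7) (.z 7)) (.z 6)) (.n (.n (.z 7) (.z 8)) (.n (.z 7) (.n (.n (.z 9) (.z 9)) (.n (.z 9) (.n (.z 10) (.n (.z 12) (.f 8 39)))))))))))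

def tr40 : Tr := (.n (.n (.n (.n (.n (.n (.n (.n (.n (.n (.f 0 3) (.f 4 57)) (.n (.z 14) (.f 5 53))) (.z 9)) (.n (.z 9) (.z 9))) (.n (.n (.n (.n (.z 14) (.z 14)) (.n (.z 14) (.f 6 96))) (.z 9)) (.n (.z 9) (.z 9)))) (.z 6)) (.n (.z 6) (.z 6))) (.z 5)) (.n (.z 5) (.z 5))) (.n (.n (.n (.n (.n (.n (.n (.n (.n (.f 0 4) (.f 4 58)) (.n (.z 14) (.f 5 54))) (.z 9)) (.n (.n (.z 10) (.n (.z 12) (.f 5 58))) (.n (.z 10) (.n (.z 12) (.f 5 85))))) (.n (.n (.n (.n (.z 14) (.z 14)) (.n (.z 14) (.f 6 97))) (.z 9)) (.n (.n (.z 10) (.n (.z 12) (.f 6 98))) (.n (.z 10) (.n (.z 12) (.f 7 11)))))) (.z 6)) (.n (.n (.z 7) (.n (.n (.n (.n (.z 12) (.z 12)) (.n (.z 12) (.z 12))) (.z 9)) (.n (.n (.z 10) (.n (.z 12) (.f 6 99))) (.n (.z 10) (.n (.z 12) (.f 7 13)))))) (.n (.z 7) (.n (.n (.n (.n (.z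 12) (.z 12)) (.n (.z 12) (.z 12))) (.z 9)) (.n (.n (.z 10) (.n (.z 12) (.z 13))) (.n (.z 10) (.n (.z 12) (.f 7 28)))))))) (.z 5)) (.n (.n (.n (.n (.z 7) (.z 7)) (.z 6)) (.n (.n (.z 7) (.n (.n (.n (.z 10) (.z 10)) (.z 9)) (.n (.n (.z 10) (.n (.z 12) (.f 7 0))) (.n (.z 10) (.n (.z 12) (.f 7 15)))))) (.n (.z 7) (.n (.n (.n (.z 10) (.z 10)) (.z 9)) (.n (.n (.z 10) (.n (.z 12) (.z 13))) (.n (.z 10) (.n (.z 12) (.f 7 31)))))))) (.n (.n (.n (.z 7) (.z 7)) (.z 6)) (.n (.n (.z 7) (.z 8)) (.n (.z 7) (.n (.n (.n (.z 10) (.z 10)) (.z 9)) (.n (.n (.z 10) (.z 11)) (.n (.z 10) (.n (.z 12) (.f 7 43)))))))))))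

def tr41 : Tr := (.n (.n (.n (.n (.n (.n (.n (.n (.n (.n (.f 1 22) (.z 14)) (.n (.z 14) (.z 14))) (.z 9)) (.n (.z 9) (.z 9))) (.n (.n (.n (.n (.f 2 18) (.z 14)) (.n (.f 3 61) (.f 7 92))) (.z 9)) (.n (.z 9) (.z 9)))) (.z 6)) (.n (.z 6) (.z 6))) (.z 5)) (.n (.z 5) (.z 5))) (.n (.n (.n (.n (.n (.n (.n (.n (.n (.f 1 23) (.z 14)) (.n (.z 14) (.z 14))) (.z 9)) (.n (.n (.z 10) (.n (.z 12) (.z 14))) (.n (.z 10) (.n (.z 12) (.z 14))))) (.n (.n (.n (.n (.f 2 19) (.z 14)) (.n (.f 3 62) (.f 7 93))) (.z 9)) (.n (.n (.z 10) (.n (.z 12) (.f 7 94))) (.n (.z 10) (.n (.z 12) (.f 8 8)))))) (.z 6)) (.n (.n (.z 7) (.n (.n (.n (.n (.z 12) (.z 12)) (.n (.z 12) (.z 12))) (.z 9)) (.n (.n (.z 10) (.n (.z 12) (.f 7 95))) (.n (.z 10) (.n (.z 12) (.f 8 10)))))) (.n (.z 7) (.n (.n (.n (.n (.z 12)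 (.z 12)) (.n (.z 12) (.z 12))) (.z 9)) (.n (.n (.z 10) (.n (.z 12) (.z 13))) (.n (.z 10) (.n (.z 12) (.f 8 25)))))))) (.z 5)) (.n (.n (.n (.n (.z 7) (.z 7)) (.z 6)) (.n (.n (.z 7) (.n (.n (.n (.z 10) (.z 10)) (.z 9)) (.n (.n (.z 10) (.n (.z 12) (.f 7 96))) (.n (.z 10) (.n (.z 12) (.f 8 12)))))) (.n (.z 7) (.n (.n (.n (.z 10) (.z 10)) (.z 9)) (.n (.n (.z 10) (.n (.z 12) (.z 13))) (.n (.z 10) (.n (.z 12) (.f 8 28)))))))) (.n (.n (.n (.z 7) (.z 7)) (.z 6)) (.n (.n (.z 7) (.z 8)) (.n (.z 7) (.n (.n (.n (.z 10) (.z 10)) (.z 9)) (.n (.n (.z 10) (.z 11)) (.n (.z 10) (.n (.z 12) (.f 8 40)))))))))))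

def tr42 : Tr := (.n (.n (.n (.n (.n (.n (.n (.n (.n (.n (.f 1 24) (.z 12)) (.n (.z 14) (.z 12))) (.z 9)) (.n (.z 9) (.z 9))) (.n (.n (.n (.n (.f 2 20) (.z 12)) (.n (.f 3 63) (.z 12))) (.z 9)) (.n (.z 9) (.z 9)))) (.z 6)) (.n (.z 6) (.z 6))) (.z 5)) (.n (.z 5) (.z 5))) (.n (.n (.n (.n (.n (.n (.n (.n (.n (.f 1 25) (.z 12)) (.n (.z 14) (.z 12))) (.z 9)) (.n (.n (.z 10) (.n (.z 12) (.z 12))) (.n (.z 10) (.n (.z 12) (.z 12))))) (.n (.n (.n (.n (.f 2 21) (.z 12)) (.n (.f 3 64) (.z 12))) (.z 9)) (.n (.n (.z 10) (.n (.z 12) (.z 12))) (.n (.z 10) (.n (.z 12) (.z 12)))))) (.z 6)) (.n (.n (.z 7) (.n (.n (.n (.n (.f 2 24) (.z 12)) (.n (.f 3 65) (.z 12))) (.z 9)) (.n (.n (.z 10) (.n (.f 3 66) (.f 7 97))) (.n (.z 10) (.n (.z 13) (.f 8 13)))))) (.n (.z 7) (.n (.n (.n (.n (.z 13)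 (.z 12)) (.n (.z 13) (.z 12))) (.z 9)) (.n (.n (.z 10) (.n (.z 13) (.z 13))) (.n (.z 10) (.n (.z 13) (.f 8 29)))))))) (.z 5)) (.n (.n (.n (.n (.z 7) (.z 7)) (.z 6)) (.n (.n (.z 7) (.n (.n (.n (.z 10) (.z 10)) (.z 9)) (.n (.n (.z 10) (.n (.f 3 67) (.f 7 98))) (.n (.z 10) (.n (.z 13) (.f 8 14)))))) (.n (.z 7) (.n (.n (.n (.z 10) (.z 10)) (.z 9)) (.n (.n (.z 10) (.n (.z 13) (.z 13))) (.n (.z 10) (.n (.z 13) (.f 8 30)))))))) (.n (.n (.n (.z 7) (.z 7)) (.z 6)) (.n (.n (.z 7) (.z 8)) (.n (.z 7) (.n (.n (.n (.z 10) (.z 10)) (.z 9)) (.n (.n (.z 10) (.z 11)) (.n (.z 10) (.n (.z 13) (.f 8 41)))))))))))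

def tr43 : Tr := (.n (.n (.n (.n (.n (.n (.n (.n (.n (.n (.f 1 38) (.z 12)) (.n (.z 14) (.z 12))) (.z 9)) (.n (.z 9) (.z 9))) (.n (.n (.n (.n (.f 2 35) (.z 12)) (.n (.f 3 75) (.z 12))) (.z 9)) (.n (.z 9) (.z 9)))) (.z 6)) (.n (.z 6) (.z 6))) (.z 5)) (.n (.z 5) (.z 5))) (.n (.n (.n (.n (.n (.n (.n (.n (.n (.f 1 39) (.z 12)) (.n (.z 14) (.z 12))) (.z 9)) (.n (.n (.z 10) (.n (.z 12) (.z 12))) (.n (.z 10) (.n (.z 12) (.z 12))))) (.n (.n (.n (.n (.f 2 36) (.z 12)) (.n (.f 3 76) (.z 12))) (.z 9)) (.n (.n (.z 10) (.n (.z 12) (.z 12))) (.n (.z 10) (.n (.z 12) (.z 12)))))) (.z 6)) (.n (.n (.z 7) (.n (.n (.n (.n (.f 2 40) (.z 12)) (.n (.f 3 77) (.z 12))) (.z 9)) (.n (.n (.z 10) (.n (.f 3 78) (.z 13))) (.n (.z 10) (.n (.z 13) (.z 13)))))) (.n (.z 7) (.n (.n (.n (.n (.f 2 68) (.z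 12)) (.n (.f 3 91) (.z 12))) (.z 9)) (.n (.n (.z 10) (.n (.f 3 93) (.z 13))) (.n (.z 10) (.n (.f 4 9) (.f 8 56)))))))) (.z 5)) (.n (.n (.n (.n (.z 7) (.z 7)) (.z 6)) (.n (.n (.z 7) (.n (.n (.n (.z 10) (.z 10)) (.z 9)) (.n (.n (.z 10) (.n (.f 3 79) (.z 13))) (.n (.z 10) (.n (.z 13) (.z 13)))))) (.n (.z 7) (.n (.n (.n (.z 10) (.z 10)) (.z 9)) (.n (.n (.z 10) (.n (.f 3 95) (.z 13))) (.n (.z 10) (.n (.f 4 12) (.f 8 59)))))))) (.n (.n (.n (.z 7) (.z 7)) (.z 6)) (.n (.n (.z 7) (.z 8)) (.n (.z 7) (.n (.n (.n (.z 10) (.z 10)) (.z 9)) (.n (.n (.z 10) (.z 11)) (.n (.z 10) (.n (.f 4 24) (.f 8 74)))))))))))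

def tr44 : Tr := (.n (.n (.n (.n (.n (.n (.n (.n (.n (.n (.f 1 26) (.z 12)) (.z 10)) (.z 9)) (.n (.z 9) (.z 9))) (.n (.n (.n (.n (.f 2 22) (.z 12)) (.z 10)) (.z 9)) (.n (.z 9) (.z 9)))) (.z 6)) (.n (.z 6) (.z 6))) (.z 5)) (.n (.z 5) (.z 5))) (.n (.n (.n (.n (.n (.n (.n (.n (.n (.f 1 27) (.z 12)) (.z 10)) (.z 9)) (.n (.n (.z 10) (.z 10)) (.n (.z 10) (.z 10)))) (.n (.n (.n (.n (.f 2 23) (.z 12)) (.z 10)) (.z 9)) (.n (.n (.z 10) (.z 10)) (.n (.z 10) (.z 10))))) (.z 6)) (.n (.n (.z 7) (.n (.n (.n (.n (.f 2 25) (.z 12)) (.z 10)) (.z 9)) (.n (.n (.z 10) (.z 10)) (.n (.z 10) (.z 10))))) (.n (.z 7) (.n (.n (.n (.n (.z 13) (.z 12)) (.z 10)) (.z 9)) (.n (.n (.z 10) (.z 10)) (.n (.z 10) (.z 10))))))) (.z 5)) (.n (.n (.n (.n (.z 7) (.z 7)) (.z 6)) (.n (.n (.z 7) (.n (.n (.n (.n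 (.f 2 26) (.z 12)) (.z 10)) (.z 9)) (.n (.n (.n (.f 2 28) (.z 14)) (.n (.f 3 68) (.f 7 99))) (.n (.z 11) (.n (.z 13) (.f 8 15)))))) (.n (.z 7) (.n (.n (.n (.n (.z 13) (.z 12)) (.z 10)) (.z 9)) (.n (.n (.n (.z 13) (.z 13)) (.n (.z 13) (.z 13))) (.n (.z 11) (.n (.z 13) (.f 8 31)))))))) (.n (.n (.n (.z 7) (.z 7)) (.z 6)) (.n (.n (.z 7) (.z 8)) (.n (.z 7) (.n (.n (.n (.z 11) (.z 10)) (.z 9)) (.n (.n (.z 11) (.z 11)) (.n (.z 11) (.n (.z 13) (.f 8 42)))))))))))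

def tr45 : Tr := (.n (.n (.n (.n (.n (.n (.n (.n (.n (.n (.f 1 41) (.z 12)) (.z 10)) (.z 9)) (.n (.z 9) (.z 9))) (.n (.n (.n (.n (.f 2 38) (.z 12)) (.z 10)) (.z 9)) (.n (.z 9) (.z 9)))) (.z 6)) (.n (.z 6) (.z 6))) (.z 5)) (.n (.z 5) (.z 5))) (.n (.n (.n (.n (.n (.n (.n (.n (.n (.f 1 42) (.z 12)) (.z 10)) (.z 9)) (.n (.n (.z 10) (.z 10)) (.n (.z 10) (.z 10)))) (.n (.n (.n (.n (.f 2 39) (.z 12)) (.z 10)) (.z 9)) (.n (.n (.z 10) (.z 10)) (.n (.z 10) (.z 10))))) (.z 6)) (.n (.n (.z 7) (.n (.n (.n (.n (.f 2 41) (.z 12)) (.z 10)) (.z 9)) (.n (.n (.z 10) (.z 10)) (.n (.z 10) (.z 10))))) (.n (.z 7) (.n (.n (.n (.n (.f 2 71) (.z 12)) (.z 10)) (.z 9)) (.n (.n (.z 10) (.z 10)) (.n (.z 10) (.z 10))))))) (.z 5)) (.n (.n (.n (.n (.z 7) (.z 7)) (.z 6)) (.n (.n (.z 7) (.n (.n (.n (.n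 (.f 2 42) (.z 12)) (.z 10)) (.z 9)) (.n (.n (.n (.f 2 44) (.z 13)) (.n (.f 3 80) (.z 13))) (.n (.z 11) (.n (.z 13) (.z 13)))))) (.n (.z 7) (.n (.n (.n (.n (.f 2 73) (.z 12)) (.z 10)) (.z 9)) (.n (.n (.n (.f 2 76) (.z 13)) (.n (.f 3 97) (.z 13))) (.n (.z 11) (.n (.f 4 14) (.f 8 61)))))))) (.n (.n (.n (.z 7) (.z 7)) (.z 6)) (.n (.n (.z 7) (.z 8)) (.n (.z 7) (.n (.n (.n (.z 11) (.z 10)) (.z 9)) (.n (.n (.z 11) (.z 11)) (.n (.z 11) (.n (.f 4 26) (.f 8 76)))))))))))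

def tr46 : Tr := (.n (.n (.n (.n (.n (.n (.n (.n (.n (.n (.f 1 53) (.z 12)) (.z 10)) (.z 9)) (.n (.z 9) (.z 9))) (.n (.n (.n (.n (.f 2 51) (.z 12)) (.z 10)) (.z 9)) (.n (.z 9) (.z 9)))) (.z 6)) (.n (.z 6) (.z 6))) (.z 5)) (.n (.z 5) (.z 5))) (.n (.n (.n (.n (.n (.n (.n (.n (.n (.f 1 54) (.z 12)) (.z 10)) (.z 9)) (.n (.n (.z 10) (.z 10)) (.n (.z 10) (.z 10)))) (.n (.n (.n (.n (.f 2 52) (.z 12)) (.z 10)) (.z 9)) (.n (.n (.z 10) (.z 10)) (.n (.z 10) (.z 10))))) (.z 6)) (.n (.n (.z 7) (.n (.n (.n (.n (.f 2 53) (.z 12)) (.z 10)) (.z 9)) (.n (.n (.z 10) (.z 10)) (.n (.z 10) (.z 10))))) (.n (.z 7) (.n (.n (.n (.n (.f 2 88) (.z 12)) (.z 10)) (.z 9)) (.n (.n (.z 10) (.z 10)) (.n (.z 10) (.z 10))))))) (.z 5)) (.n (.n (.n (.n (.z 7) (.z 7)) (.z 6)) (.n (.n (.z 7) (.n (.n (.n (.n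 (.f 2 54) (.z 12)) (.z 10)) (.z 9)) (.n (.n (.n (.f 2 56) (.z 13)) (.z 11)) (.n (.z 11) (.z 11))))) (.n (.z 7) (.n (.n (.n (.n (.f 2 90) (.z 12)) (.z 10)) (.z 9)) (.n (.n (.n (.f 2 93) (.z 13)) (.z 11)) (.n (.z 11) (.z 11))))))) (.n (.n (.n (.z 7) (.z 7)) (.z 6)) (.n (.n (.z 7) (.z 8)) (.n (.z 7) (.n (.n (.n (.n (.f 3 6) (.z 12)) (.z 10)) (.z 9)) (.n (.n (.n (.f 3 10) (.z 13)) (.z 11)) (.n (.n (.f 3 41) (.z 14)) (.n (.f 4 38) (.f 8 90)))))))))))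

def tr47 : Tr := (.n (.n (.n (.n (.n (.n (.n (.n (.n (.n (.f 0 5) (.f 4 59)) (.n (.z 14) (.f 5 55))) (.n (.z 11) (.n (.z 13) (.f 5 80)))) (.n (.z 9) (.n (.z 10) (.n (.z 12) (.f 5 86))))) (.z 7)) (.z 6)) (.n (.z 6) (.z 6))) (.z 5)) (.n (.z 5) (.z 5))) (.n (.n (.n (.n (.n (.n (.n (.z 9) (.z 9)) (.n (.z 9) (.n (.z 10) (.n (.z 12) (.f 5 87))))) (.z 7)) (.z 6)) (.n (.n (.z 7) (.z 7)) (.n (.z 7) (.z 7)))) (.z 5)) (.n (.n (.n (.n (.n (.n (.z 9) (.z 9)) (.n (.z 9) (.n (.z 10) (.n (.z 12) (.f 5 89))))) (.z 7)) (.z 6)) (.n (.n (.n (.n (.z 9) (.z 9)) (.n (.z 9) (.n (.z 10) (.n (.z 12) (.f 5 92))))) (.n (.n (.z 9) (.z 9)) (.n (.z 9) (.n (.z 10) (.n (.z 12) (.f 7 16)))))) (.n (.z 8) (.n (.n (.z 9) (.z 9)) (.n (.z 9) (.n (.z 10) (.n (.z 12) (.f 7 32)))))))) (.n (.n (.n (.z 8) (.z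 7)) (.z 6)) (.n (.n (.z 8) (.z 8)) (.n (.z 8) (.n (.n (.z 9) (.z 9)) (.n (.z 9) (.n (.z 10) (.n (.z 12) (.f 7 44)))))))))))

def tr48 : Tr := (.n (.n (.n (.n (.n (.n (.n (.n (.n (.n (.f 0 6) (.f 4 60)) (.n (.z 14) (.f 5 56))) (.z 9)) (.n (.z 9) (.z 9))) (.z 7)) (.z 6)) (.n (.z 6) (.z 6))) (.z 5)) (.n (.z 5) (.z 5))) (.n (.n (.n (.n (.n (.n (.n (.n (.n (.f 0 7) (.f 4 61)) (.n (.z 14) (.f 5 57))) (.z 9)) (.n (.n (.z 10) (.n (.z 12) (.f 5 59))) (.n (.z 10) (.n (.z 12) (.f 5 88))))) (.z 7)) (.z 6)) (.n (.n (.z 7) (.z 7)) (.n (.z 7) (.z 7)))) (.z 5)) (.n (.n (.n (.n (.n (.n (.n (.z 10) (.z 10)) (.z 9)) (.n (.n (.z 10) (.n (.z 12) (.f 5 60))) (.n (.z 10) (.n (.z 12) (.f 5 90))))) (.z 7)) (.z 6)) (.n (.n (.n (.n (.n (.z 10) (.z 10)) (.z 9)) (.n (.n (.z 10) (.n (.z 12) (.f 5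 62))) (.n (.z 10) (.n (.z 12) (.f 5 93))))) (.n (.n (.n (.z 10) (.z 10)) (.z 9)) (.n (.n (.z 10) (.n (.z 12) (.f 7 1))) (.n (.z 10) (.n (.z 12) (.f 7 17)))))) (.n (.z 8) (.n (.n (.n (.z 10) (.z 10)) (.z 9)) (.n (.n (.z 10) (.n (.z 12) (.z 13))) (.n (.z 10) (.n (.z 12) (.f 7 33)))))))) (.n (.n (.n (.z 8) (.z 7)) (.z 6)) (.n (.n (.z 8) (.z 8)) (.n (.z 8) (.n (.n (.n (.z 10) (.z 10)) (.z 9)) (.n (.n (.z 10) (.z 11)) (.n (.z 10) (.n (.z 12) (.f 7 45)))))))))))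

def tr49 : Tr := (.n (.n (.n (.n (.n (.n (.n (.n (.n (.n (.f 0 8) (.f 4 62)) (.z 10)) (.z 9)) (.n (.z 9) (.z 9))) (.z 7)) (.z 6)) (.n (.z 6) (.z 6))) (.z 5)) (.n (.z 5) (.z 5))) (.n (.n (.n (.n (.n (.n (.n (.n (.n (.f 0 9) (.f 4 63)) (.z 10)) (.z 9)) (.n (.n (.z 10) (.z 10)) (.n (.z 10) (.z 10)))) (.z 7)) (.z 6)) (.n (.n (.z 7) (.z 7)) (.n (.z 7) (.z 7)))) (.z 5)) (.n (.n (.n (.n (.n (.n (.n (.n (.f 0 10) (.f 4 64)) (.z 10)) (.z 9)) (.n (.n (.n (.z 12) (.f 4 65)) (.n (.z 12) (.f 5 61))) (.n (.z 11) (.n (.z 12) (.f 5 91))))) (.z 7)) (.z 6)) (.n (.n (.n (.n (.n (.n (.z 12) (.z 12)) (.z 10)) (.z 9)) (.n (.n (.n (.z 12) (.f 4 66)) (.n (.z 12) (.f 5 63))) (.n (.z 11) (.n (.z 12) (.f 5 94))))) (.n (.n (.n (.n (.z 12) (.z 12)) (.z 10)) (.z 9)) (.n (.n (.n (.z 12) (.z 14))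 (.n (.z 12) (.f 7 2))) (.n (.z 11) (.n (.z 12) (.f 7 18)))))) (.n (.z 8) (.n (.n (.n (.n (.z 12) (.z 12)) (.z 10)) (.z 9)) (.n (.n (.n (.z 12) (.z 13)) (.n (.z 12) (.z 13))) (.n (.z 11) (.n (.z 12) (.f 7 34)))))))) (.n (.n (.n (.z 8) (.z 7)) (.z 6)) (.n (.n (.z 8) (.z 8)) (.n (.z 8) (.n (.n (.n (.z 11) (.z 10)) (.z 9)) (.n (.n (.z 11) (.z 11)) (.n (.z 11) (.n (.z 12) (.f 7 46)))))))))))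

def tr50 : Tr := (.n (.n (.n (.n (.n (.n (.n (.n (.n (.n (.f 0 11) (.z 12)) (.z 10)) (.z 9)) (.n (.z 9) (.z 9))) (.z 7)) (.z 6)) (.n (.z 6) (.z 6))) (.z 5)) (.n (.z 5) (.z 5))) (.n (.n (.n (.n (.n (.n (.n (.n (.n (.f 0 12) (.z 12)) (.z 10)) (.z 9)) (.n (.n (.z 10) (.z 10)) (.n (.z 10) (.z 10)))) (.z 7)) (.z 6)) (.n (.n (.z 7) (.z 7)) (.n (.z 7) (.z 7)))) (.z 5)) (.n (.n (.n (.n (.n (.n (.n (.n (.f 0 13) (.z 12)) (.z 10)) (.z 9)) (.n (.n (.n (.z 12) (.z 12)) (.n (.z 12) (.z 12))) (.n (.z 11) (.n (.z 12) (.z 12))))) (.z 7)) (.z 6)) (.n (.n (.n (.n (.n (.n (.f 0 14) (.z 12)) (.z 10)) (.z 9)) (.n (.n (.n (.f 0 15) (.f 4 67)) (.n (.z 14) (.f 5 64))) (.n (.z 11) (.n (.z 13) (.f 5 95))))) (.n (.n (.n (.n (.z 14) (.z 12)) (.z 10)) (.z 9)) (.n (.n (.n (.z 14) (.z 14)) (.n (.z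 14) (.f 7 3))) (.n (.z 11) (.n (.z 13) (.f 7 19)))))) (.n (.z 8) (.n (.n (.n (.n (.z 13) (.z 12)) (.z 10)) (.z 9)) (.n (.n (.n (.z 13) (.z 13)) (.n (.z 13) (.z 13))) (.n (.z 11) (.n (.z 13) (.f 7 35)))))))) (.n (.n (.n (.z 8) (.z 7)) (.z 6)) (.n (.n (.z 8) (.z 8)) (.n (.z 8) (.n (.n (.n (.z 11) (.z 10)) (.z 9)) (.n (.n (.z 11) (.z 11)) (.n (.z 11) (.n (.z 13) (.f 7 47)))))))))))

def tr51 : Tr := (.n (.n (.n (.n (.n (.n (.n (.n (.n (.n (.f 1 28) (.z 12)) (.z 10)) (.z 9)) (.n (.z 9) (.z 9))) (.z 7)) (.z 6)) (.n (.z 6) (.z 6))) (.z 5)) (.n (.z 5) (.z 5))) (.n (.n (.n (.n (.n (.n (.n (.n (.n (.f 1 29) (.z 12)) (.z 10)) (.z 9)) (.n (.n (.z 10) (.z 10)) (.n (.z 10) (.z 10)))) (.z 7)) (.z 6)) (.n (.n (.z 7) (.z 7)) (.n (.z 7) (.z 7)))) (.z 5)) (.n (.n (.n (.n (.n (.n (.n (.n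 (.f 1 30) (.z 12)) (.z 10)) (.z 9)) (.n (.n (.n (.z 12) (.z 12)) (.n (.z 12) (.z 12))) (.n (.z 11) (.n (.z 12) (.z 12))))) (.z 7)) (.z 6)) (.n (.n (.n (.n (.n (.n (.f 1 31) (.z 12)) (.z 10)) (.z 9)) (.n (.n (.n (.f 1 32) (.z 14)) (.n (.z 14) (.z 14))) (.n (.z 11) (.n (.z 13) (.z 14))))) (.n (.n (.n (.n (.f 2 27) (.z 12)) (.z 10)) (.z 9)) (.n (.n (.n (.f 2 29) (.z 14)) (.n (.f 3 69) (.f 8 0))) (.n (.z 11) (.n (.z 13) (.f 8 16)))))) (.n (.z 8) (.n (.n (.n (.n (.z 13) (.z 12)) (.z 10)) (.z 9)) (.n (.n (.n (.z 13) (.z 13)) (.n (.z 13) (.z 13))) (.n (.z 11) (.n (.z 13) (.f 8 32)))))))) (.n (.n (.n (.z 8) (.z 7)) (.z 6)) (.n (.n (.z 8) (.z 8)) (.n (.z 8) (.n (.n (.n (.z 11) (.z 10)) (.z 9)) (.n (.n (.z 11) (.z 11)) (.n (.z 11) (.n (.z 13) (.f 8 43)))))))))))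

def tr52 : Tr := (.n (.n (.n (.n (.n (.n (.n (.n (.n (.n (.f 1 43) (.z 12)) (.z 10)) (.z 9)) (.n (.z 9) (.z 9))) (.z 7)) (.z 6)) (.n (.z 6) (.z 6))) (.z 5)) (.n (.z 5) (.z 5))) (.n (.n (.n (.n (.n (.n (.n (.n (.n (.f 1 44) (.z 12)) (.z 10)) (.z 9)) (.n (.n (.z 10) (.z 10)) (.n (.z 10) (.z 10)))) (.z 7)) (.z 6)) (.n (.n (.z 7) (.z 7)) (.n (.z 7) (.z 7)))) (.z 5)) (.n (.n (.n (.n (.n (.n (.n (.n (.f 1 45) (.z 12)) (.z 10)) (.z 9)) (.n (.n (.n (.z 12) (.z 12)) (.n (.z 12) (.z 12))) (.n (.z 11) (.n (.z 12) (.z 12))))) (.z 7)) (.z 6)) (.n (.n (.n (.n (.n (.n (.f 1 46) (.z 12)) (.z 10)) (.z 9)) (.n (.n (.n (.f 1 47) (.z 13)) (.n (.z 14) (.z 13))) (.n (.z 11) (.n (.z 13) (.z 13))))) (.n (.n (.n (.n (.f 2 43) (.z 12)) (.z 10)) (.z 9)) (.n (.n (.n (.f 2 45) (.z 13)) (.n (.f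 3 81) (.z 13))) (.n (.z 11) (.n (.z 13) (.z 13)))))) (.n (.z 8) (.n (.n (.n (.n (.f 2 74) (.z 12)) (.z 10)) (.z 9)) (.n (.n (.n (.f 2 77) (.z 13)) (.n (.f 3 98) (.z 13))) (.n (.z 11) (.n (.f 4 15) (.f 8 62)))))))) (.n (.n (.n (.z 8) (.z 7)) (.z 6)) (.n (.n (.z 8) (.z 8)) (.n (.z 8) (.n (.n (.n (.z 11) (.z 10)) (.z 9)) (.n (.n (.z 11) (.z 11)) (.n (.z 11) (.n (.f 4 27) (.f 8 77)))))))))))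

def tr53 : Tr := (.n (.n (.n (.n (.n (.n (.n (.n (.n (.n (.f 1 55) (.z 12)) (.z 10)) (.z 9)) (.n (.z 9) (.z 9))) (.z 7)) (.z 6)) (.n (.z 6) (.z 6))) (.z 5)) (.n (.z 5) (.z 5))) (.n (.n (.n (.n (.n (.n (.n (.n (.n (.f 1 56) (.z 12)) (.z 10)) (.z 9)) (.n (.n (.z 10) (.z 10)) (.n (.z 10) (.z 10)))) (.z 7)) (.z 6)) (.n (.n (.z 7) (.z 7)) (.n (.z 7) (.z 7)))) (.z 5)) (.n (.n (.n (.n (.n (.n (.n (.n (.f 1 57) (.z 12)) (.z 10)) (.z 9)) (.n (.n (.n (.z 12) (.z 12)) (.z 11)) (.n (.z 11) (.z 11)))) (.z 7)) (.z 6)) (.n (.n (.n (.n (.n (.n (.f 1 58) (.z 12)) (.z 10)) (.z 9)) (.n (.n (.n (.f 1 59) (.z 13)) (.z 11)) (.n (.z 11) (.z 11)))) (.n (.n (.n (.n (.f 2 55) (.z 12)) (.z 10)) (.z 9)) (.n (.n (.n (.f 2 57) (.z 13)) (.z 11)) (.n (.z 11) (.z 11))))) (.n (.z 8) (.n (.n (.n (.n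 (.f 2 91) (.z 12)) (.z 10)) (.z 9)) (.n (.n (.n (.f 2 94) (.z 13)) (.z 11)) (.n (.z 11) (.z 11))))))) (.n (.n (.n (.z 8) (.z 7)) (.z 6)) (.n (.n (.z 8) (.z 8)) (.n (.z 8) (.n (.n (.n (.n (.f 3 7) (.z 12)) (.z 10)) (.z 9)) (.n (.n (.n (.f 3 11) (.z 13)) (.z 11)) (.n (.n (.f 3 42) (.z 14)) (.n (.f 4 39) (.f 8 91)))))))))))

def tr54 : Tr := (.n (.n (.n (.n (.n (.n (.n (.n (.n (.n (.f 0 19) (.f 4 71)) (.n (.z 14) (.f 5 68))) (.n (.z 11) (.n (.z 13) (.f 5 99)))) (.n (.z 9) (.n (.z 10) (.n (.z 12) (.f 6 3))))) (.z 7)) (.z 6)) (.n (.z 6) (.z 6))) (.z 5)) (.n (.z 5) (.z 5))) (.n (.n (.n (.n (.n (.n (.n (.z 9) (.z 9)) (.n (.z 9) (.n (.z 10) (.n (.z 12) (.f 6 4))))) (.z 7)) (.z 6)) (.n (.n (.z 7) (.z 7)) (.n (.z 7) (.z 7)))) (.z 5)) (.n (.n (.n (.n (.n (.n (.z 9) (.z 9)) (.n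 (.z 9) (.n (.z 10) (.n (.z 12) (.f 6 6))))) (.z 7)) (.z 6)) (.n (.n (.n (.n (.z 9) (.z 9)) (.n (.z 9) (.n (.z 10) (.n (.z 12) (.f 6 9))))) (.z 8)) (.n (.z 8) (.z 8)))) (.n (.n (.n (.n (.n (.z 9) (.z 9)) (.n (.z 9) (.n (.z 10) (.n (.z 12) (.f 6 22))))) (.z 7)) (.z 6)) (.n (.n (.n (.n (.z 9) (.z 9)) (.n (.z 9) (.n (.z 10) (.n (.z 12) (.f 6 26))))) (.z 8)) (.n (.n (.n (.z 9) (.z 9)) (.n (.z 9) (.n (.z 10) (.n (.z 12) (.f 6 58))))) (.n (.n (.z 9) (.z 9)) (.n (.z 9) (.n (.z 10) (.n (.z 12) (.f 7 56)))))))))))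

def tr55 : Tr := (.n (.n (.n (.n (.n (.n (.n (.n (.n (.n (.f 0 20) (.f 4 72)) (.n (.z 14) (.f 5 69))) (.z 9)) (.n (.z 9) (.z 9))) (.z 7)) (.z 6)) (.n (.z 6) (.z 6))) (.z 5)) (.n (.z 5) (.z 5))) (.n (.n (.n (.n (.n (.n (.n (.n (.n (.f 0 21) (.f 4 73)) (.n (.z 14) (.f 5 70))) (.z 9)) (.n (.n (.z 10) (.n (.z 12) (.f 5 71))) (.n (.z 10) (.n (.z 12) (.f 6 5))))) (.z 7)) (.z 6)) (.n (.n (.z 7) (.z 7)) (.n (.z 7) (.z 7)))) (.z 5)) (.n (.n (.n (.n (.n (.n (.n (.z 10) (.z 10)) (.z 9)) (.n (.n (.z 10) (.n (.z 12) (.f 5 72))) (.n (.z 10) (.n (.z 12) (.f 6 7))))) (.z 7)) (.z 6)) (.n (.n (.n (.n (.n (.z 10) (.z 10)) (.z 9)) (.n (.n (.z 10) (.n (.z 12) (.f 5 74))) (.n (.z 10) (.n (.z 12) (.f 6 10))))) (.z 8)) (.n (.z 8) (.z 8)))) (.n (.n (.n (.n (.n (.n (.z 10) (.z 10)) (.z 9)) (.n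 (.n (.z 10) (.z 11)) (.n (.z 10) (.n (.z 12) (.f 6 23))))) (.z 7)) (.z 6)) (.n (.n (.n (.n (.n (.z 10) (.z 10)) (.z 9)) (.n (.n (.z 10) (.z 11)) (.n (.z 10) (.n (.z 12) (.f 6 27))))) (.z 8)) (.n (.n (.n (.n (.z 10) (.z 10)) (.z 9)) (.n (.n (.z 10) (.z 11)) (.n (.z 10) (.n (.z 12) (.f 6 59))))) (.n (.n (.n (.z 10) (.z 10)) (.z 9)) (.n (.n (.z 10) (.z 11)) (.n (.z 10) (.n (.z 12) (.f 7 57)))))))))))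

def tr56 : Tr := (.n (.n (.n (.n (.n (.n (.n (.n (.n (.n (.f 0 22) (.f 4 74)) (.z 10)) (.z 9)) (.n (.z 9) (.z 9))) (.z 7)) (.z 6)) (.n (.z 6) (.z 6))) (.z 5)) (.n (.z 5) (.z 5))) (.n (.n (.n (.n (.n (.n (.n (.n (.n (.f 0 23) (.f 4 75)) (.z 10)) (.z 9)) (.n (.n (.z 10) (.z 10)) (.n (.z 10) (.z 10)))) (.z 7)) (.z 6)) (.n (.n (.z 7) (.z 7)) (.n (.z 7) (.z 7)))) (.z 5)) (.n (.n (.n (.n (.n (.n (.n (.n (.f 0 24) (.f 4 76)) (.z 10)) (.z 9)) (.n (.n (.n (.z 12) (.f 4 77)) (.n (.z 12) (.f 5 73))) (.n (.z 11) (.n (.z 12) (.f 6 8))))) (.z 7)) (.z 6)) (.n (.n (.n (.n (.n (.n (.z 12) (.z 12)) (.z 10)) (.z 9)) (.n (.n (.n (.z 12) (.f 4 78)) (.n (.z 12) (.f 5 75))) (.n (.z 11) (.n (.z 12) (.f 6 11))))) (.z 8)) (.n (.z 8) (.z 8)))) (.n (.n (.n (.n (.n (.n (.z 11) (.z 10)) (.z 9))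 (.n (.n (.z 11) (.z 11)) (.n (.z 11) (.n (.z 12) (.f 6 24))))) (.z 7)) (.z 6)) (.n (.n (.n (.n (.n (.z 11) (.z 10)) (.z 9)) (.n (.n (.z 11) (.z 11)) (.n (.z 11) (.n (.z 12) (.f 6 28))))) (.z 8)) (.n (.n (.n (.n (.z 11) (.z 10)) (.z 9)) (.n (.n (.z 11) (.z 11)) (.n (.z 11) (.n (.z 12) (.f 6 60))))) (.n (.n (.n (.z 11) (.z 10)) (.z 9)) (.n (.n (.z 11) (.z 11)) (.n (.z 11) (.n (.z 12) (.f 7 58)))))))))))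

def tr57 : Tr := (.n (.n (.n (.n (.n (.n (.n (.n (.n (.n (.f 0 25) (.z 12)) (.z 10)) (.z 9)) (.n (.z 9) (.z 9))) (.z 7)) (.z 6)) (.n (.z 6) (.z 6))) (.z 5)) (.n (.z 5) (.z 5))) (.n (.n (.n (.n (.n (.n (.n (.n (.n (.f 0 26) (.z 12)) (.z 10)) (.z 9)) (.n (.n (.z 10) (.z 10)) (.n (.z 10) (.z 10)))) (.z 7)) (.z 6)) (.n (.n (.z 7) (.z 7)) (.n (.z 7) (.z 7)))) (.z 5)) (.n (.n (.n (.n (.n (.n (.n (.n (.f 0 27) (.z 12)) (.z 10)) (.z 9)) (.n (.n (.n (.z 12) (.z 12)) (.n (.z 12) (.z 12))) (.n (.z 11) (.n (.z 12) (.z 12))))) (.z 7)) (.z 6)) (.n (.n (.n (.n (.n (.n (.f 0 28) (.z 12)) (.z 10)) (.z 9)) (.n (.n (.n (.f 0 29) (.f 4 79)) (.n (.z 14) (.f 5 76))) (.n (.z 11) (.n (.z 13) (.f 6 12))))) (.z 8)) (.n (.z 8) (.z 8)))) (.n (.n (.n (.n (.n (.n (.z 11) (.z 10)) (.z 9)) (.n (.n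 (.z 11) (.z 11)) (.n (.z 11) (.n (.z 12) (.z 12))))) (.z 7)) (.z 6)) (.n (.n (.n (.n (.n (.z 11) (.z 10)) (.z 9)) (.n (.n (.z 11) (.z 11)) (.n (.z 11) (.n (.z 13) (.f 6 29))))) (.z 8)) (.n (.n (.n (.n (.z 11) (.z 10)) (.z 9)) (.n (.n (.z 11) (.z 11)) (.n (.z 11) (.n (.z 13) (.f 6 61))))) (.n (.n (.n (.z 11) (.z 10)) (.z 9)) (.n (.n (.z 11) (.z 11)) (.n (.z 11) (.n (.z 13) (.f 7 59)))))))))))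

def tr58 : Tr := (.n (.n (.n (.n (.n (.n (.n (.n (.n (.n (.f 0 36) (.f 4 86)) (.z 10)) (.z 9)) (.n (.z 9) (.z 9))) (.z 7)) (.z 6)) (.n (.z 6) (.z 6))) (.z 5)) (.n (.z 5) (.z 5))) (.n (.n (.n (.n (.n (.n (.n (.n (.n (.f 0 37) (.f 4 87)) (.z 10)) (.z 9)) (.n (.n (.z 10) (.z 10)) (.n (.z 10) (.z 10)))) (.z 7)) (.z 6)) (.n (.n (.z 7) (.z 7)) (.n (.z 7) (.z 7)))) (.z 5)) (.n (.n (.n (.n (.n (.n (.n (.n (.f 0 38) (.f 4 88)) (.z 10)) (.z 9)) (.n (.n (.n (.z 12) (.f 4 89)) (.z 11)) (.n (.z 11) (.z 11)))) (.z 7)) (.z 6)) (.n (.n (.n (.n (.n (.n (.z 12) (.z 12)) (.z 10)) (.z 9)) (.n (.n (.n (.z 12) (.f 4 90)) (.z 11)) (.n (.z 11) (.z 11)))) (.z 8)) (.n (.z 8) (.z 8)))) (.n (.n (.n (.n (.n (.n (.n (.f 0 55) (.f 5 2)) (.z 10)) (.z 9)) (.n (.n (.n (.z 12) (.f 5 4)) (.z 11)) (.n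 (.n (.z 12) (.f 5 20)) (.n (.z 12) (.f 6 43))))) (.z 7)) (.z 6)) (.n (.n (.n (.n (.n (.n (.z 12) (.z 12)) (.z 10)) (.z 9)) (.n (.n (.n (.z 12) (.f 5 6)) (.z 11)) (.n (.n (.z 12) (.f 5 23)) (.n (.z 12) (.f 6 47))))) (.z 8)) (.n (.n (.n (.n (.n (.z 12) (.z 12)) (.z 10)) (.z 9)) (.n (.n (.n (.z 12) (.z 13)) (.z 11)) (.n (.n (.z 12) (.f 5 35)) (.n (.z 12) (.f 6 75))))) (.n (.n (.n (.n (.z 12) (.z 12)) (.z 10)) (.z 9)) (.n (.n (.n (.z 12) (.z 13)) (.z 11)) (.n (.n (.z 12) (.z 14)) (.n (.z 12) (.f 7 72)))))))))))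

def tr59 : Tr := (.n (.n (.n (.n (.n (.n (.n (.n (.n (.n (.f 0 40) (.z 12)) (.z 10)) (.z 9)) (.n (.z 9) (.z 9))) (.z 7)) (.z 6)) (.n (.z 6) (.z 6))) (.z 5)) (.n (.z 5) (.z 5))) (.n (.n (.n (.n (.n (.n (.n (.n (.n (.f 0 41) (.z 12)) (.z 10)) (.z 9)) (.n (.n (.z 10) (.z 10)) (.n (.z 10) (.z 10)))) (.z 7)) (.z 6)) (.n (.n (.z 7) (.z 7)) (.n (.z 7) (.z 7)))) (.z 5)) (.n (.n (.n (.n (.n (.n (.n (.n (.f 0 42) (.z 12)) (.z 10)) (.z 9)) (.n (.n (.n (.z 12) (.z 12)) (.z 11)) (.n (.z 11) (.z 11)))) (.z 7)) (.z 6)) (.n (.n (.n (.n (.n (.n (.f 0 43) (.z 12)) (.z 10)) (.z 9)) (.n (.n (.n (.f 0 44) (.f 4 91)) (.z 11)) (.n (.z 11) (.z 11)))) (.z 8)) (.n (.z 8) (.z 8)))) (.n (.n (.n (.n (.n (.n (.n (.f 0 59) (.z 12)) (.z 10)) (.z 9)) (.n (.n (.n (.z 12) (.z 12)) (.z 11)) (.n (.n (.z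 12) (.z 12)) (.n (.z 12) (.z 12))))) (.z 7)) (.z 6)) (.n (.n (.n (.n (.n (.n (.f 0 61) (.z 12)) (.z 10)) (.z 9)) (.n (.n (.n (.f 0 63) (.f 5 8)) (.z 11)) (.n (.n (.z 13) (.f 5 25)) (.n (.z 13) (.f 6 49))))) (.z 8)) (.n (.n (.n (.n (.n (.z 13) (.z 12)) (.z 10)) (.z 9)) (.n (.n (.n (.z 13) (.z 13)) (.z 11)) (.n (.n (.z 13) (.f 5 37)) (.n (.z 13) (.f 6 77))))) (.n (.n (.n (.n (.z 13) (.z 12)) (.z 10)) (.z 9)) (.n (.n (.n (.z 13) (.z 13)) (.z 11)) (.n (.n (.z 13) (.z 14)) (.n (.z 13) (.f 7 74)))))))))))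

def tr60 : Tr := (.n (.n (.n (.n (.n (.n (.n (.n (.n (.n (.f 0 70) (.z 12)) (.z 10)) (.z 9)) (.n (.z 9) (.z 9))) (.z 7)) (.z 6)) (.n (.z 6) (.z 6))) (.z 5)) (.n (.z 5) (.z 5))) (.n (.n (.n (.n (.n (.n (.n (.n (.n (.f 0 71) (.z 12)) (.z 10)) (.z 9)) (.n (.n (.z 10) (.z 10)) (.n (.z 10) (.z 10)))) (.z 7)) (.z 6)) (.n (.n (.z 7) (.z 7)) (.n (.z 7) (.z 7)))) (.z 5)) (.n (.n (.n (.n (.n (.n (.n (.n (.f 0 72) (.z 12)) (.z 10)) (.z 9)) (.n (.n (.n (.z 12) (.z 12)) (.z 11)) (.n (.z 11) (.z 11)))) (.z 7)) (.z 6)) (.n (.n (.n (.n (.n (.n (.f 0 73) (.z 12)) (.z 10)) (.z 9)) (.n (.n (.n (.f 0 74) (.z 13)) (.z 11)) (.n (.z 11) (.z 11)))) (.z 8)) (.n (.z 8) (.z 8)))) (.n (.n (.n (.n (.n (.n (.n (.f 0 86) (.z 12)) (.z 10)) (.z 9)) (.n (.n (.n (.z 12) (.z 12)) (.z 11)) (.n (.n (.z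 12) (.z 12)) (.n (.z 12) (.z 12))))) (.z 7)) (.z 6)) (.n (.n (.n (.n (.n (.n (.f 0 88) (.z 12)) (.z 10)) (.z 9)) (.n (.n (.n (.f 0 90) (.z 13)) (.z 11)) (.n (.n (.z 13) (.z 13)) (.n (.z 13) (.z 13))))) (.z 8)) (.n (.n (.n (.n (.n (.f 1 3) (.z 12)) (.z 10)) (.z 9)) (.n (.n (.n (.f 1 6) (.z 13)) (.z 11)) (.n (.n (.f 1 18) (.f 5 49)) (.n (.z 14) (.f 6 92))))) (.n (.n (.n (.n (.z 14) (.z 12)) (.z 10)) (.z 9)) (.n (.n (.n (.z 14) (.z 13)) (.z 11)) (.n (.n (.z 14) (.z 14)) (.n (.z 14) (.f 7 88)))))))))))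

def tr61 : Tr := (.n (.n (.n (.n (.n (.n (.n (.n (.n (.n (.f 1 67) (.z 12)) (.z 10)) (.z 9)) (.n (.z 9) (.z 9))) (.z 7)) (.z 6)) (.n (.z 6) (.z 6))) (.z 5)) (.n (.z 5) (.z 5))) (.n (.n (.n (.n (.n (.n (.n (.n (.n (.f 1 68) (.z 12)) (.z 10)) (.z 9)) (.n (.n (.z 10) (.z 10)) (.n (.z 10) (.z 10)))) (.z 7)) (.z 6)) (.n (.n (.z 7) (.z 7)) (.n (.z 7) (.z 7)))) (.z 5)) (.n (.n (.n (.n (.n (.n (.n (.n (.f 1 69) (.z 12)) (.z 10)) (.z 9)) (.n (.n (.n (.z 12) (.z 12)) (.z 11)) (.n (.z 11) (.z 11)))) (.z 7)) (.z 6)) (.n (.n (.n (.n (.n (.n (.f 1 70) (.z 12)) (.z 10)) (.z 9)) (.n (.n (.n (.f 1 71) (.z 13)) (.z 11)) (.n (.z 11) (.z 11)))) (.z 8)) (.n (.z 8) (.z 8)))) (.n (.n (.n (.n (.n (.n (.n (.f 1 83) (.z 12)) (.z 10)) (.z 9)) (.n (.n (.n (.z 12) (.z 12)) (.z 11)) (.n (.n (.z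 12) (.z 12)) (.n (.z 12) (.z 12))))) (.z 7)) (.z 6)) (.n (.n (.n (.n (.n (.n (.f 1 85) (.z 12)) (.z 10)) (.z 9)) (.n (.n (.n (.f 1 87) (.z 13)) (.z 11)) (.n (.n (.z 13) (.z 13)) (.n (.z 13) (.z 13))))) (.z 8)) (.n (.n (.n (.n (.n (.f 2 0) (.z 12)) (.z 10)) (.z 9)) (.n (.n (.n (.f 2 3) (.z 13)) (.z 11)) (.n (.n (.f 2 14) (.z 14)) (.n (.z 14) (.z 14))))) (.n (.n (.n (.n (.f 3 26) (.z 12)) (.z 10)) (.z 9)) (.n (.n (.n (.f 3 30) (.z 13)) (.z 11)) (.n (.n (.f 3 57) (.z 14)) (.n (.f 4 53) (.f 9 7)))))))))))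

def TT : Tr := (.n (.n (.n (.n (.n (.n (.n (.n (.n (.n tr0 tr1) (.n (.z 4) tr2)) (.n (.z 2) (.n (.z 3) tr3))) (.n (.n (.n (.z 4) (.z 4)) (.n (.z 4) tr4)) (.n (.z 2) (.n (.z 3) tr5)))) (.n (.z 1) (.n (.n (.n (.z 3) (.z 3)) (.n (.z 3) (.z 3))) (.n (.z 2) (.n (.z 3) tr6))))) (.n (.n (.z 1) (.z 1)) (.n (.z 1) (.n (.n (.z 2) (.z 2)) (.n (.z 2) (.n (.z 3) tr7)))))) (.n (.n (.n (.n (.n (.n tr8 (.z 4)) (.n (.z 4) (.z 4))) (.n (.z 2) (.n (.z 3) (.z 4)))) (.n (.n (.n tr9 (.z 4)) (.n tr10 tr11)) (.n (.z 2) (.n (.z 3) tr12)))) (.n (.z 1) (.n (.n (.n (.z 3) (.z 3)) (.n (.z 3) (.z 3))) (.n (.z 2) (.n (.z 3) tr13))))) (.n (.n (.z 1) (.z 1)) (.n (.z 1) (.n (.n (.z 2) (.z 2)) (.n (.z 2) (.n (.z 3) tr14))))))) (.n (.z 0) (.n (.n (.n (.n (.n (.n tr15 (.z 3)) (.n (.z 4) (.z 3))) (.n (.z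 2) (.n (.z 3) (.z 3)))) (.n (.n (.n tr16 (.z 3)) (.n tr17 (.z 3))) (.n (.z 2) (.n (.z 3) (.z 3))))) (.n (.z 1) (.n (.n (.n tr18 (.z 3)) (.n tr19 (.z 3))) (.n (.z 2) (.n tr20 tr21))))) (.n (.n (.z 1) (.z 1)) (.n (.z 1) (.n (.n (.z 2) (.z 2)) (.n (.z 2) (.n tr22 tr23)))))))) (.n (.n (.z 0) (.z 0)) (.n (.z 0) (.n (.n (.n (.n (.n (.n tr24 (.z 3)) (.z 2)) (.n (.z 2) (.z 2))) (.n (.n (.n tr25 (.z 3)) (.z 2)) (.n (.z 2) (.z 2)))) (.n (.z 1) (.n (.n (.n tr26 (.z 3)) (.z 2)) (.n (.z 2) (.z 2))))) (.n (.n (.z 1) (.z 1)) (.n (.z 1) (.n (.n (.n tr27 (.z 3)) (.z 2)) (.n (.n tr28 (.z 4)) (.n tr29 tr30))))))))) (.n (.n (.n (.n (.n (.n (.n (.n (.n tr31 tr32) (.n (.z 4) tr33)) (.n (.z 2) (.n (.z 3) tr34))) (.z 1)) (.n (.z 1) (.z 1))) (.n (.n (.n (.n (.z 2) (.z 2)) (.n (.z 2) (.n (.z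 3) tr35))) (.z 1)) (.n (.n (.n (.z 2) (.z 2)) (.n (.z 2) (.n (.z 3) tr36))) (.n (.n (.z 2) (.z 2)) (.n (.z 2) (.n (.z 3) tr37)))))) (.z 0)) (.n (.z 0) (.z 0))) (.n (.n (.n (.n (.n (.n (.n (.n tr38 tr39) (.z 2)) (.n (.z 2) (.z 2))) (.z 1)) (.n (.z 1) (.z 1))) (.n (.n (.n (.n (.n tr40 tr41) (.z 2)) (.n (.n (.z 3) tr42) (.n (.z 3) tr43))) (.z 1)) (.n (.n (.n (.n (.z 3) (.z 3)) (.z 2)) (.n (.n (.z 3) tr44) (.n (.z 3) tr45))) (.n (.n (.n (.z 3) (.z 3)) (.z 2)) (.n (.n (.z 3) (.z 4)) (.n (.z 3) tr46)))))) (.z 0)) (.n (.n (.n (.n (.n (.n (.n tr47 (.z 3)) (.z 2)) (.n (.z 2) (.z 2))) (.z 1)) (.n (.z 1) (.z 1))) (.n (.n (.n (.n (.n tr48 (.z 3)) (.z 2)) (.n (.n (.z 3) (.z 3)) (.n (.z 3) (.z 3)))) (.z 1)) (.n (.n (.n (.n tr49 (.z 3)) (.z 2)) (.n (.n tr50 tr51) (.n (.z 4) tr52)))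 (.n (.n (.n (.z 4) (.z 3)) (.z 2)) (.n (.n (.z 4) (.z 4)) (.n (.z 4) tr53)))))) (.n (.n (.n (.n (.n (.n tr54 (.z 3)) (.z 2)) (.n (.z 2) (.z 2))) (.z 1)) (.n (.z 1) (.z 1))) (.n (.n (.n (.n (.n tr55 (.z 3)) (.z 2)) (.n (.n (.z 3) (.z 3)) (.n (.z 3) (.z 3)))) (.z 1)) (.n (.n (.n (.n tr56 (.z 3)) (.z 2)) (.n (.n tr57 (.z 4)) (.n (.z 4) (.z 4)))) (.n (.n (.n tr58 (.z 3)) (.z 2)) (.n (.n tr59 (.z 4)) (.n tr60 tr61))))))))))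

def CES : List (List (ℕ × ℕ × List ℕ)) := [CE0, CE1, CE2, CE3, CE4, CE5, CE6, CE7, CE8, CE9]

def walk_run : walk CES TT POS 0 0 = true := by decide +kernel

end Pool.Agent.H13.GeoP
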