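import Pool.Agent.H13.GeoN0
import Pool.Agent.H13.GeoN1
import Pool.Agent.H13.GeoN2
import Pool.Agent.H13.GeoN3
import Pool.Agent.H13.GeoN4
import Pool.Agent.H13.GeoO0
import Pool.Agent.H13.GeoO1
import Pool.Agent.H13.GeoC0
import Pool.Agent.H13.GeoC1
import Pool.Agent.H13.GeoW0
import Pool.Agent.H13.GeoS0

namespace Pool.Agent.H13.GeoP

theorem negAll (B : ℕ) (h : B < 122) : negB T7 AL7 V7 LS7 B = true := by
  have h0 : ¬ B < 0 := by omega
  by_cases h2 : B < 2
  · exact rng ng0 h0 h2
  by_cases h4 : B < 4
  · exact rng ng1 h2 h4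
  by_cases h6 : B < 6
  · exact rng ng2 h4 h6
  by_cases h9 : B < 9
  · exact rng ng3 h6 h9
  by_cases h11 : B < 11
  · exact rng ng4 h9 h11
  by_cases h14 : B < 14
  · exact rng ng5 h11 h14
  by_cases h16 : B < 16
  · exact rng ng6 h14 h16
  by_cases h18 : B < 18
  · exact rng ng7 h16 h18
  by_cases h20 : B < 20
  · exact rng ng8 h18 h20
  by_cases h23 : B < 23
  · exact rng ng9 h20 h23
  by_cases h27 : B < 27
  · exact rng ng10 h23 h27
  by_cases h29 : B < 29
  · exact rng ng11 h27 h29
  by_cases h31 : B < 31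
  · exact rng ng12 h29 h31
  by_cases h33 : B < 33
  · exact rng ng13 h31 h33
  by_cases h35 : B < 35
  · exact rng ng14 h33 h35
  by_cases h38 : B < 38
  · exact rng ng15 h35 h38
  by_cases h40 : B < 40
  · exact rng ng16 h38 h40
  by_cases h41 : B < 41
  · exact rng ng17 h40 h41
  by_cases h43 : B < 43
  · exact rng ng18 h41 h43
  by_cases h44 : B < 44
  · exact rng ng19 h43 h44
  by_cases h45 : B < 45
  · exact rng ng20 h44 h45
  by_cases h47 : B < 47
  · exact rng ng21 h45 h47
  by_cases h49 : B < 49
  · exact rng ng22 h47 h49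
  by_cases h50 : B < 50
  · exact rng ng23 h49 h50
  by_cases h52 : B < 52
  · exact rng ng24 h50 h52
  by_cases h54 : B < 54
  · exact rng ng25 h52 h54
  by_cases h57 : B < 57
  · exact rng ng26 h54 h57
  by_cases h59 : B < 59
  · exact rng ng27 h57 h59
  by_cases h62 : B < 62
  · exact rng ng28 h59 h62
  by_cases h64 : B < 64
  · exact rng ng29 h62 h64
  by_cases h66 : B < 66
  · exact rng ng30 h64 h66
  by_cases h68 : B < 68
  · exact rng ng31 h66 h68
  by_cases h69 : B < 69
  · exact rng ng32 h68 h69
  by_cases h71 : B < 71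
  · exact rng ng33 h69 h71
  by_cases h73 : B < 73
  · exact rng ng34 h71 h73
  by_cases h76 : B < 76
  · exact rng ng35 h73 h76
  by_cases h78 : B < 78
  · exact rng ng36 h76 h78
  by_cases h80 : B < 80
  · exact rng ng37 h78 h80
  by_cases h82 : B < 82
  · exact rng ng38 h80 h82
  by_cases h83 : B < 83
  · exact rng ng39 h82 h83
  by_cases h84 : B < 84
  · exact rng ng40 h83 h84
  by_cases h86 : B < 86
  · exact rng ng41 h84 h86
  by_cases h88 : B < 88
  · exact rng ng42 h86 h88
  by_cases h90 : B < 90
  · exact rng ng43 h88 h90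
  by_cases h91 : B < 91
  · exact rng ng44 h90 h91
  by_cases h94 : B < 94
  · exact rng ng45 h91 h94
  by_cases h97 : B < 97
  · exact rng ng46 h94 h97
  by_cases h99 : B < 99
  · exact rng ng47 h97 h99
  by_cases h100 : B < 100
  · exact rng ng48 h99 h100
  by_cases h101 : B < 101
  · exact rng ng49 h100 h101
  by_cases h102 : B < 102
  · exact rng ng50 h101 h102
  by_cases h103 : B < 103
  · exact rng ng51 h102 h103
  by_cases h104 : B < 104
  · exact rng ng52 h103 h104
  by_cases h105 : B < 105
  · exact rng ng53 h104 h105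
  by_cases h106 : B < 106
  · exact rng ng54 h105 h106
  by_cases h107 : B < 107
  · exact rng ng55 h106 h107
  by_cases h108 : B < 108
  · exact rng ng56 h107 h108
  by_cases h109 : B < 109
  · exact rng ng57 h108 h109
  by_cases h113 : B < 113
  · exact rng ng58 h109 h113
  by_cases h117 : B < 117
  · exact rng ng59 h113 h117
  by_cases h119 : B < 119
  · exact rng ng60 h117 h119
  by_cases h120 : B < 120
  · exact rng ng61 h119 h120
  by_cases h121 : B < 121
  · exact rng ng62 h120 h121
  by_cases h122 : B < 122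
  · exact rng ng63 h121 h122
  omega

theorem posAll (B : ℕ) (h : B < 122) : posB 7 122 T7 AL7 V7 MM7 WT7 B = true := by
  have h0 : ¬ B < 0 := by omega
  by_cases h12 : B < 12
  · exact rng ps0 h0 h12
  by_cases h19 : B < 19
  · exact rng ps1 h12 h19
  by_cases h29 : B < 29
  · exact rng ps2 h19 h29
  by_cases h39 : B < 39
  · exact rng ps3 h29 h39
  by_cases h44 : B < 44
  · exact rng ps4 h39 h44
  by_cases h47 : B < 47
  · exact rng ps5 h44 h47
  by_cases h49 : B < 49
  · exact rng ps6 h47 h49
  by_cases h52 : B < 52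
  · exact rng ps7 h49 h52
  by_cases h58 : B < 58
  · exact rng ps8 h52 h58
  by_cases h64 : B < 64
  · exact rng ps9 h58 h64
  by_cases h69 : B < 69
  · exact rng ps10 h64 h69
  by_cases h75 : B < 75
  · exact rng ps11 h69 h75
  by_cases h81 : B < 81
  · exact rng ps12 h75 h81
  by_cases h84 : B < 84
  · exact rng ps13 h81 h84
  by_cases h90 : B < 90
  · exact rng ps14 h84 h90
  by_cases h98 : B < 98
  · exact rng ps15 h90 h98
  by_cases h100 : B < 100
  · exact rng ps16 h98 h100
  by_cases h102 : B < 102
  · exact rng ps17 h100 h102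
  by_cases h104 : B < 104
  · exact rng ps18 h102 h104
  by_cases h106 : B < 106
  · exact rng ps19 h104 h106
  by_cases h107 : B < 107
  · exact rng ps20 h106 h107
  by_cases h108 : B < 108
  · exact rng ps21 h107 h108
  by_cases h109 : B < 109
  · exact rng ps22 h108 h109
  by_cases h119 : B < 119
  · exact rng ps23 h109 h119
  by_cases h120 : B < 120
  · exact rng ps24 h119 h120
  by_cases h121 : B < 121
  · exact rng ps25 h120 h121
  by_cases h122 : B < 122
  · exact rng ps26 h121 h122
  omega

theorem symAll (B : ℕ) (h : B < 122) : (fun r => frc (T7.getD r 0) symB) B = true := by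
  have h0 : ¬ B < 0 := by omega
  by_cases h12 : B < 12
  · exact rng (B := B) (f := fun r => frc (T7.getD r 0) symB) sy0 h0 h12
  by_cases h24 : B < 24
  · exact rng (B := B) (f := fun r => frc (T7.getD r 0) symB) sy1 h12 h24
  by_cases h36 : B < 36
  · exact rng (B := B) (f := fun r => frc (T7.getD r 0) symB) sy2 h24 h36
  by_cases h48 : B < 48
  · exact rng (B := B) (f := fun r => frc (T7.getD r 0) symB) sy3 h36 h48
  by_cases h60 : B < 60
  · exact rng (B := B) (f := fun r => frc (T7.getD r 0) symB) sy4 h48 h60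
  by_cases h72 : B < 72
  · exact rng (B := B) (f := fun r => frc (T7.getD r 0) symB) sy5 h60 h72
  by_cases h84 : B < 84
  · exact rng (B := B) (f := fun r => frc (T7.getD r 0) symB) sy6 h72 h84
  by_cases h96 : B < 96
  · exact rng (B := B) (f := fun r => frc (T7.getD r 0) symB) sy7 h84 h96
  by_cases h108 : B < 108
  · exact rng (B := B) (f := fun r => frc (T7.getD r 0) symB) sy8 h96 h108
  by_cases h120 : B < 120
  · exact rng (B := B) (f := fun r => frc (T7.getD r 0) symB) sy9 h108 h120
  by_cases h122 : B < 122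
  · exact rng (B := B) (f := fun r => frc (T7.getD r 0) symB) sy10 h120 h122
  omega

theorem okAll (B : ℕ) (h : B < 122) : okB T7 LS7 B = true := by
  have h0 : ¬ B < 0 := by omega
  by_cases h31 : B < 31
  · exact rng ok0 h0 h31
  by_cases h62 : B < 62
  · exact rng ok1 h31 h62
  by_cases h93 : B < 93
  · exact rng ok2 h62 h93
  by_cases h122 : B < 122
  · exact rng ok3 h93 h122
  omega

end Pool.Agent.H13.GeoP
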