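import Pool.Agent.H13.GeoP5
import Pool.Agent.H13.GeoP8

set_option maxRecDepth 100000

namespace Pool.Agent.H13.GeoP
open Pool.Agent.H13.GeoK

theorem seven_iff {A B : ℕ} (hA : A < 122) (hB : B < 122) :
    LeT 7 (T7.getD A 0) (T7.getD B 0) ↔ MMM A B = true :=
  M_iff (by norm_num) V7_mem rfl hA (negAll B hB) (posAll B hB) (okAll A hA)

theorem ceAll : ∀ L ∈ CES, ∀ x ∈ L, certB x = true := by
  intro L hL
  rw [← List.all_eq_true]
  simp only [CES, List.mem_cons, List.not_mem_nil, or_false] at hL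
  rcases hL with rfl | rfl | rfl | rfl | rfl | rfl | rfl | rfl | rfl | rfl
  exacts [ce0, ce1, ce2, ce3, ce4, ce5, ce6, ce7, ce8, ce9]

theorem classify (Q : Fin 7 → ℝ × ℝ) (hQ : GP Q) (hI : Function.Injective Q) :
    ∃ r < 122, Rep 7 Q (T7.getD r 0) := by
  obtain ⟨τ, h0⟩ := sorted Q hQ hI
  have gR : GP (Q ∘ τ) := fun i j k a b d => hQ _ _ _ (τ.injective.ne a) (τ.injective.ne b) (τ.injective.ne d)
  obtain ⟨L, hL, x, hx, h1⟩ := walk_sound CES (vv (Q ∘ τ)) (bad_sound _ gR h0) TT POS 0 0 (by simp) walk_run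
  have h2 := ceAll L hL x hx
  have hF : ∀ i j k : Fin 7, 0 < i → i < j → j < k → FULL.testBit (ix3 i j k) = true := by decide +kernel
  have hs : ∀ i j k : Fin 7, i < j → j < k → s3 x.1 i j k = c (Q ∘ τ) i j k := by
    intro i j k a b
    by_cases hi : i = 0
    · subst hi; rw [h0 j k a b]; rfl
    · have hi' : 0 < i := Fin.pos_iff_ne_zero.2 hi
      have : Nat.beq i 0 = false := by
        rw [Bool.eq_false_iff, ne_eq, Nat.beq_eq]; exact fun e => hi (Fin.ext e)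
      have e : ∀ x : Fin 7, fn x = x := by decide
      rw [s3, this, h1, hF i j k hi' a b, vv_ix _ ⟨hi', a⟩ b k.2, e, e, e]; rfl
  simp only [certB, Bool.and_eq_true, Nat.blt_eq, frc_eq] at h2
  have hy := symAll _ h2.1.1
  simp only [frc_eq] at hy
  obtain ⟨σ, hσ⟩ := rep_sound _ gR x.1 _ _ hs h2.1.2 hy h2.2
  exact ⟨x.2.1, h2.1.1, σ.trans τ, hσ⟩

theorem no_emb (Q : ℕ → Fin 7 → ℝ × ℝ) (hQ : ∀ r < 15, GP (Q r) ∧ Function.Injective (Q r))
    (H : ∀ s < 15, ∀ t < 15, LeX (P6 s) (P6 t) ↔ LeX (Q s) (Q t)) : False := by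
  have : ∀ r, ∃ w, r < 15 → w < 122 ∧ Rep 7 (Q r) (T7.getD w 0) := by
    intro r
    by_cases h : r < 15
    · obtain ⟨w, hw⟩ := classify (Q r) (hQ r h).1 (hQ r h).2
      exact ⟨w, fun _ => hw⟩
    · exact ⟨0, fun g => absurd g h⟩
  choose φ hφ using this
  refine emb2_sound φ (fun t ht => (hφ t ht).1) ?_ 15 0 [] rfl
    (by simp) emb_run
  intro s hs t ht
  have R : ∀ r < 15, Rep 6 (P6 r) (T8.getD r 0) := fun r hr => ⟨Equiv.refl _, (P6_spec hr).2⟩
  rw [Bool.eq_iff_iff, ← six_iff hs ht, ← seven_iff (hφ s hs).1 (hφ t ht).1, ← le_iff (R s hs) (R t ht),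
    ← le_iff (hφ s hs).2 (hφ t ht).2]
  exact H s hs t ht

end Pool.Agent.H13.GeoP
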