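import Mathlib

set_option autoImplicit false

namespace Pool.Agent.H13.Higgs

section Generic
variable {α : Type} [PartialOrder α]

def Cs (K : Set α) : Prop := ∀ C : Set α, IsMaxChain (· ≤ ·) C → (K ∩ C).Nonempty

def MinCs (K : Set α) : Prop := Cs K ∧ ∀ x ∈ K, ¬ Cs (K \ {x})

def Lo (K : Set α) (z : α) : Prop :=
  ∃ C : Set α, IsMaxChain (· ≤ ·) C ∧ z ∈ C ∧ ∀ c ∈ C, c ≤ z → c ∉ K

def Hi (K : Set α) (z : α) : Prop :=
  ∃ C : Set α, IsMaxChain (· ≤ ·) C ∧ z ∈ C ∧ ∀ c ∈ C, z ≤ c → c ∉ K

theorem cmp {C : Set α} (h : IsChain (· ≤ ·) C) {a b : α} (ha : a ∈ C) (hb : b ∈ C) :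
    a ≤ b ∨ b ≤ a := h.total ha hb

theorem mem_of_cmp {C : Set α} (h : IsMaxChain (· ≤ ·) C) {w : α}
    (hw : ∀ c ∈ C, w ≤ c ∨ c ≤ w) : w ∈ C := by
  have h1 : IsChain (· ≤ ·) (insert w C) := h.1.insert (fun b hb _ => hw b hb)
  have h2 := h.2 h1 (Set.subset_insert w C)
  rw [h2]
  exact Set.mem_insert w C

theorem chain_of {T : Set α} (h : ∀ a ∈ T, ∀ b ∈ T, a ≤ b ∨ b ≤ a) : IsChain (· ≤ ·) T :=
  fun a ha b hb _ => h a ha b hb

theorem glue {K : Set α} {z : α} (h1 : Lo K z) (h2 : Hi K z) (hK : Cs K) : False := by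
  obtain ⟨C1, m1, z1, k1⟩ := h1
  obtain ⟨C2, m2, z2, k2⟩ := h2
  have hT : IsChain (· ≤ ·) ({c | c ∈ C1 ∧ c ≤ z} ∪ {c | c ∈ C2 ∧ z ≤ c}) := by
    apply chain_of
    rintro a (ha | ha) b (hb | hb)
    · exact cmp m1.1 ha.1 hb.1
    · exact Or.inl (ha.2.trans hb.2)
    · exact Or.inr (hb.2.trans ha.2)
    · exact cmp m2.1 ha.1 hb.1
  obtain ⟨M, hM, hs⟩ := hT.exists_maxChain
  obtain ⟨k, hk, hkM⟩ := hK M hM
  have hz : z ∈ M := hs (Or.inl ⟨z1, le_rfl⟩)
  rcases cmp hM.1 hkM hz with h | h
  · refine k1 k (mem_of_cmp m1 fun c hc => ?_) h hk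
    rcases cmp m1.1 hc z1 with h' | h'
    · exact cmp hM.1 hkM (hs (Or.inl ⟨hc, h'⟩))
    · exact Or.inl (h.trans h')
  · refine k2 k (mem_of_cmp m2 fun c hc => ?_) h hk
    rcases cmp m2.1 hc z2 with h' | h'
    · exact Or.inr (h'.trans h)
    · exact cmp hM.1 hkM (hs (Or.inr ⟨hc, h'⟩))

theorem lo_ext {K : Set α} {z e : α} (h1 : Lo K z) (hze : z ≤ e)
    (h : ∀ w, z < w → w ≤ e → w ∉ K) : Lo K e := by
  obtain ⟨C1, m1, z1, k1⟩ := h1
  have hT : IsChain (· ≤ ·) ({c | c ∈ C1 ∧ c ≤ z} ∪ {e}) := by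
    apply chain_of
    rintro a (ha | ha) b (hb | hb)
    · exact cmp m1.1 ha.1 hb.1
    · rw [hb]; exact Or.inl (ha.2.trans hze)
    · rw [ha]; exact Or.inr (hb.2.trans hze)
    · rw [ha, hb]; exact Or.inl le_rfl
  obtain ⟨M, hM, hs⟩ := hT.exists_maxChain
  refine ⟨M, hM, hs (Or.inr rfl), fun k hkM hke => ?_⟩
  have hz : z ∈ M := hs (Or.inl ⟨z1, le_rfl⟩)
  by_cases h' : k ≤ z
  · refine k1 k (mem_of_cmp m1 fun c hc => ?_) h'
    rcases cmp m1.1 hc z1 with h'' | h''
    · exact cmp hM.1 hkM (hs (Or.inl ⟨hc, h''⟩))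
    · exact Or.inl (h'.trans h'')
  · rcases cmp hM.1 hkM hz with h'' | h''
    · exact absurd h'' h'
    · exact h k (lt_of_le_not_ge h'' h') hke

theorem hi_ext {K : Set α} {z e : α} (h1 : Hi K z) (hze : e ≤ z)
    (h : ∀ w, w < z → e ≤ w → w ∉ K) : Hi K e := by
  obtain ⟨C1, m1, z1, k1⟩ := h1
  have hT : IsChain (· ≤ ·) ({c | c ∈ C1 ∧ z ≤ c} ∪ {e}) := by
    apply chain_of
    rintro a (ha | ha) b (hb | hb)
    · exact cmp m1.1 ha.1 hb.1
    · rw [hb]; exact Or.inr (hze.trans ha.2)
    · rw [ha]; exact Or.inl (hze.trans hb.2)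
    · rw [ha, hb]; exact Or.inl le_rfl
  obtain ⟨M, hM, hs⟩ := hT.exists_maxChain
  refine ⟨M, hM, hs (Or.inr rfl), fun k hkM hke => ?_⟩
  have hz : z ∈ M := hs (Or.inl ⟨z1, le_rfl⟩)
  by_cases h' : z ≤ k
  · refine k1 k (mem_of_cmp m1 fun c hc => ?_) h'
    rcases cmp m1.1 hc z1 with h'' | h''
    · exact Or.inr (h''.trans h')
    · exact cmp hM.1 hkM (hs (Or.inl ⟨hc, h''⟩))
  · rcases cmp hM.1 hkM hz with h'' | h''
    · exact h k (lt_of_le_not_ge h'' h') hke
    · exact absurd h'' h'

theorem essential {K : Set α} (hK : MinCs K) {k : α} (hk : k ∈ K) :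
    ∃ C : Set α, IsMaxChain (· ≤ ·) C ∧ k ∈ C ∧ ∀ c ∈ C, c ≠ k → c ∉ K := by
  have h := hK.2 k hk
  unfold Cs at h
  push Not at h
  obtain ⟨C, hC, he⟩ := h
  have hne : ∀ c ∈ C, c ≠ k → c ∉ K := by
    intro c hc hck hcK
    have : c ∈ (K \ {k}) ∩ C := ⟨⟨hcK, hck⟩, hc⟩
    rw [he] at this
    exact this
  obtain ⟨x, hx, hxC⟩ := hK.1 C hC
  have : x = k := by
    by_contra hxk
    exact hne x hxC hxk hx
  exact ⟨C, hC, this ▸ hxC, hne⟩

end Generic

def L (n' i' n i : ℕ) : Prop := (n' = n ∧ i' = i) ∨ (n < n' ∧ i + n ≤ i' + n')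

structure Idx where
  n : ℕ
  f : ℚ → ℕ
  m : ℕ
  g : ℚ → ℕ
  hf : Function.Injective f
  hg : Function.Injective g

structure Cut where
  s : Set ℚ
  lower : ∀ a b, a ≤ b → b ∈ s → a ∈ s
  zero : (0 : ℚ) ∈ s
  one : (1 : ℚ) ∉ s

theorem Cut.ext' {S T : Cut} (h : S.s = T.s) : S = T := by
  cases S; cases T; simp only at h; subst h; rfl

inductive X : Type
  | bot : X
  | low : ℕ → ℕ → X
  | row : Idx → Cut → X
  | up : ℕ → ℕ → X
  | top : X

def le : X → X → Prop
  | .bot, _ => True
  | .low _ _, .bot => False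
  | .low n' i', .low n i => L n' i' n i
  | .low n' i', .row R S => ∃ q ∈ S.s, L n' i' R.n (R.f q)
  | .low _ _, .up _ _ => True
  | .low _ _, .top => True
  | .row _ _, .bot => False
  | .row _ _, .low _ _ => False
  | .row R S, .row R' S' => R = R' ∧ S.s ⊆ S'.s
  | .row R S, .up n i => ∃ q, q ∉ S.s ∧ L n i R.m (R.g q)
  | .row _ _, .top => True
  | .up _ _, .bot => False
  | .up _ _, .low _ _ => False
  | .up _ _, .row _ _ => False
  | .up n i, .up n' i' => L n' i' n i
  | .up _ _, .top => True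
  | .top, .top => True
  | .top, .bot => False
  | .top, .low _ _ => False
  | .top, .row _ _ => False
  | .top, .up _ _ => False

theorem L_refl (n i : ℕ) : L n i n i := Or.inl ⟨rfl, rfl⟩

theorem L_trans {a b c d e f : ℕ} (h1 : L a b c d) (h2 : L c d e f) : L a b e f := by
  unfold L at *; omega

instance : PartialOrder X where
  le := le
  le_refl a := by cases a <;> simp [le, L_refl]
  le_trans a b c h1 h2 := by
    cases a <;> cases b <;> cases c <;> simp only [le] at h1 h2 ⊢ <;> try trivial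
    · exact L_trans h1 h2
    · obtain ⟨q, hq, h⟩ := h2; exact ⟨q, hq, L_trans h1 h⟩
    · obtain ⟨q, hq, h⟩ := h1; obtain ⟨rfl, hs⟩ := h2; exact ⟨q, hs hq, h⟩
    · exact ⟨h1.1.trans h2.1, h1.2.trans h2.2⟩
    · obtain ⟨q, hq, h⟩ := h2; obtain ⟨rfl, hs⟩ := h1; exact ⟨q, fun h' => hq (hs h'), h⟩
    · obtain ⟨q, hq, h⟩ := h1; exact ⟨q, hq, L_trans h2 h⟩
    · exact L_trans h2 h1
  le_antisymm a b h1 h2 := by
    cases a <;> cases b <;> simp only [le] at h1 h2 ⊢ <;> try trivial
    · unfold L at *; congr 1 <;> omega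
    · obtain ⟨rfl, hs⟩ := h1
      rw [Cut.ext' (Set.Subset.antisymm hs h2.2)]
    · unfold L at *; congr 1 <;> omega

theorem le_def (a b : X) : a ≤ b ↔ le a b := Iff.rfl

theorem bot_le' (a : X) : X.bot ≤ a := by cases a <;> trivial
theorem le_top' (a : X) : a ≤ X.top := by cases a <;> trivial

theorem lt_def (a b : X) : a < b ↔ le a b ∧ ¬ le b a := lt_iff_le_not_ge

theorem inf_least {C : Set X} {m : X} (hm : m ∈ C) (h : ∀ c ∈ C, m ≤ c) :
    ∃ i, IsGLB C i ∧ ∀ x, i < x → ∃ c ∈ C, c < x :=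
  ⟨m, IsLeast.isGLB ⟨hm, h⟩, fun _ hx => ⟨m, hm, hx⟩⟩

theorem sup_greatest {C : Set X} {m : X} (hm : m ∈ C) (h : ∀ c ∈ C, c ≤ m) :
    ∃ i, IsLUB C i ∧ ∀ x, x < i → ∃ c ∈ C, x < c :=
  ⟨m, IsGreatest.isLUB ⟨hm, h⟩, fun _ hx => ⟨m, hm, hx⟩⟩

theorem fin_port {f : ℚ → ℕ} (hf : Function.Injective f) (a b n : ℕ) :
    {q | L a b n (f q)}.Finite := by
  refine ((Set.finite_Iic (a + b)).preimage hf.injOn).subset ?_
  intro q hq
  simp only [Set.mem_ofPred_eq, L] at hq
  simp only [Set.mem_preimage, Set.mem_Iic]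
  omega

theorem exists_top_level {p : ℕ → Prop} (h1 : ∃ n, p n) (h2 : ¬ ∀ N, ∃ n, N ≤ n ∧ p n) :
    ∃ n, p n ∧ ∀ k, p k → k ≤ n := by
  classical
  push Not at h2
  obtain ⟨N, hN⟩ := h2
  obtain ⟨n, hn⟩ := h1
  have hb : ∀ k, p k → k ≤ N := fun k hk => by
    by_contra h
    exact hN k (by omega) hk
  exact ⟨Nat.findGreatest p N, Nat.findGreatest_spec (hb n hn) hn,
    fun k hk => Nat.le_findGreatest (hb k hk) hk⟩

theorem exists_bot_level {p : ℕ → Prop} (h1 : ∃ n, p n) : ∃ n, p n ∧ ∀ k, p k → n ≤ k := by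
  classical
  exact ⟨Nat.find h1, Nat.find_spec h1, fun k hk => Nat.find_min' h1 hk⟩

theorem inf_ok (C : Set X) (hC : IsChain (· ≤ ·) C) (hne : C.Nonempty) :
    ∃ i, IsGLB C i ∧ ∀ x, i < x → ∃ c ∈ C, c < x := by
  by_cases h0 : X.bot ∈ C
  · exact inf_least h0 fun c _ => bot_le' c
  by_cases h1 : ∃ n i, X.low n i ∈ C
  · by_cases h2 : ∀ N, ∃ n, N ≤ n ∧ ∃ i, X.low n i ∈ C
    · refine ⟨X.bot, ⟨fun c _ => bot_le' c, fun y hy => ?_⟩, fun x hx => ?_⟩
      · cases y with
        | bot => exact le_rfl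
        | low n i =>
          obtain ⟨n', hn, i', hc⟩ := h2 (n + 1)
          have := hy hc
          simp only [le_def, le, L] at this
          omega
        | row R S => obtain ⟨n', i', hc⟩ := h1; exact (hy hc).elim
        | up n i => obtain ⟨n', i', hc⟩ := h1; exact (hy hc).elim
        | top => obtain ⟨n', i', hc⟩ := h1; exact (hy hc).elim
      · cases x with
        | bot => exact absurd hx (lt_irrefl _)
        | low n i =>
          obtain ⟨n', hn, i', hc⟩ := h2 (n + i + 1)
          refine ⟨_, hc, ?_⟩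
          simp only [lt_def, le, L]
          omega
        | row R S =>
          obtain ⟨n', hn, i', hc⟩ := h2 (R.n + R.f 0 + 1)
          refine ⟨_, hc, ?_⟩
          simp only [lt_def, le, not_false_eq_true, and_true]
          exact ⟨0, S.zero, Or.inr ⟨by omega, by omega⟩⟩
        | up n i => obtain ⟨n', i', hc⟩ := h1; exact ⟨_, hc, by simp [lt_def, le]⟩
        | top => obtain ⟨n', i', hc⟩ := h1; exact ⟨_, hc, by simp [lt_def, le]⟩
    · obtain ⟨n, ⟨i, hi⟩, hmax⟩ := exists_top_level h1 h2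
      refine inf_least hi fun c hc => ?_
      rcases cmp hC hi hc with h | h
      · exact h
      · cases c with
        | bot => exact absurd hc h0
        | low n' i' =>
          have := hmax n' ⟨i', hc⟩
          simp only [le_def, le, L] at h ⊢
          omega
        | row R S => exact h.elim
        | up n i => exact h.elim
        | top => exact h.elim
  by_cases h3 : ∃ R S, X.row R S ∈ C
  · obtain ⟨R, S0, hS0⟩ := h3
    have same : ∀ R' S', X.row R' S' ∈ C → R' = R := by
      intro R' S' h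
      rcases cmp hC h hS0 with h' | h'
      · exact h'.1
      · exact h'.1.symm
    let I : Cut := ⟨{q | ∀ S, X.row R S ∈ C → q ∈ S.s},
      fun a b hab hb S hS => S.lower a b hab (hb S hS), fun S _ => S.zero,
      fun h => S0.one (h S0 hS0)⟩
    have hI : ∀ S, X.row R S ∈ C → X.row R I ≤ X.row R S := fun S hS => ⟨rfl, fun q hq => hq S hS⟩
    refine ⟨X.row R I, ⟨fun c hc => ?_, fun y hy => ?_⟩, fun x hx => ?_⟩
    · cases c with
      | bot => exact absurd hc h0
      | low n i => exact absurd ⟨n, i, hc⟩ h1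
      | row R' S' => obtain rfl := same R' S' hc; exact hI S' hc
      | up n i =>
        rcases cmp hC hS0 hc with h | h
        · exact (hI S0 hS0).trans h
        · exact h.elim
      | top => exact le_top' _
    · cases y with
      | bot => exact bot_le' _
      | low n i =>
        obtain ⟨q, hq, hL⟩ := hy hS0
        obtain ⟨q0, hq0, hmin⟩ := Set.exists_min_image _ id (fin_port R.hf n i R.n) ⟨q, hL⟩
        refine ⟨q0, fun S hS => ?_, hq0⟩
        obtain ⟨q', hq', hL'⟩ := hy hS
        exact S.lower _ _ (hmin q' hL') hq'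
      | row R' S' =>
        have := (hy hS0).1
        subst this
        exact ⟨rfl, fun q hq S hS => (hy hS).2 hq⟩
      | up n i => exact (hy hS0).elim
      | top => exact (hy hS0).elim
    · cases x with
      | bot => exact (hx.le).elim
      | low n i => exact (hx.le).elim
      | row R' S' =>
        obtain ⟨⟨rfl, h1⟩, h2⟩ := (lt_def _ _).1 hx
        have : ∃ q ∈ S'.s, q ∉ I.s := by
          by_contra h
          push Not at h
          exact h2 ⟨rfl, h⟩
        obtain ⟨q, hq, hqI⟩ := this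
        have : ∃ S, X.row R S ∈ C ∧ q ∉ S.s := by
          by_contra h
          push Not at h
          exact hqI h
        obtain ⟨S, hS, hqS⟩ := this
        refine ⟨_, hS, (lt_def _ _).2 ⟨⟨rfl, fun r hr => ?_⟩, fun h => hqS (h.2 hq)⟩⟩
        rcases le_total r q with h | h
        · exact S'.lower _ _ h hq
        · exact absurd (S.lower _ _ h hr) hqS
      | up n i =>
        obtain ⟨q, hqI, hL⟩ := hx.le
        have : ∃ S, X.row R S ∈ C ∧ q ∉ S.s := by
          by_contra h
          push Not at h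
          exact hqI h
        obtain ⟨S, hS, hqS⟩ := this
        exact ⟨_, hS, (lt_def _ _).2 ⟨⟨q, hqS, hL⟩, fun h => h.elim⟩⟩
      | top => exact ⟨_, hS0, by simp [lt_def, le]⟩
  by_cases h4 : ∃ n i, X.up n i ∈ C
  · obtain ⟨n, ⟨i, hi⟩, hmin⟩ := exists_bot_level h4
    refine inf_least hi fun c hc => ?_
    rcases cmp hC hi hc with h | h
    · exact h
    · cases c with
      | bot => exact absurd hc h0
      | low n' i' => exact absurd ⟨n', i', hc⟩ h1
      | row R S => exact absurd ⟨R, S, hc⟩ h3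
      | up n' i' =>
        have := hmin n' ⟨i', hc⟩
        simp only [le_def, le, L] at h ⊢
        omega
      | top => exact h.elim
  · obtain ⟨m, hm⟩ := hne
    have all : ∀ c ∈ C, c = X.top := by
      intro c hc
      cases c with
      | bot => exact absurd hc h0
      | low n' i' => exact absurd ⟨n', i', hc⟩ h1
      | row R S => exact absurd ⟨R, S, hc⟩ h3
      | up n' i' => exact absurd ⟨n', i', hc⟩ h4
      | top => rfl
    exact inf_least hm fun c hc => by rw [all c hc]; exact le_top' _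

theorem sup_ok (C : Set X) (hC : IsChain (· ≤ ·) C) (hne : C.Nonempty) :
    ∃ i, IsLUB C i ∧ ∀ x, x < i → ∃ c ∈ C, x < c := by
  by_cases h0 : X.top ∈ C
  · exact sup_greatest h0 fun c _ => le_top' c
  by_cases h1 : ∃ n i, X.up n i ∈ C
  · by_cases h2 : ∀ N, ∃ n, N ≤ n ∧ ∃ i, X.up n i ∈ C
    · refine ⟨X.top, ⟨fun c _ => le_top' c, fun y hy => ?_⟩, fun x hx => ?_⟩
      · cases y with
        | top => exact le_rfl
        | up n i =>
          obtain ⟨n', hn, i', hc⟩ := h2 (n + 1)
          have := hy hc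
          simp only [le_def, le, L] at this
          omega
        | row R S => obtain ⟨n', i', hc⟩ := h1; exact (hy hc).elim
        | low n i => obtain ⟨n', i', hc⟩ := h1; exact (hy hc).elim
        | bot => obtain ⟨n', i', hc⟩ := h1; exact (hy hc).elim
      · cases x with
        | top => exact absurd hx (lt_irrefl _)
        | up n i =>
          obtain ⟨n', hn, i', hc⟩ := h2 (n + i + 1)
          refine ⟨_, hc, ?_⟩
          simp only [lt_def, le, L]
          omega
        | row R S =>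
          obtain ⟨n', hn, i', hc⟩ := h2 (R.m + R.g 1 + 1)
          refine ⟨_, hc, ?_⟩
          simp only [lt_def, le, not_false_eq_true, and_true]
          exact ⟨1, S.one, Or.inr ⟨by omega, by omega⟩⟩
        | low n i => obtain ⟨n', i', hc⟩ := h1; exact ⟨_, hc, by simp [lt_def, le]⟩
        | bot => obtain ⟨n', i', hc⟩ := h1; exact ⟨_, hc, by simp [lt_def, le]⟩
    · obtain ⟨n, ⟨i, hi⟩, hmax⟩ := exists_top_level h1 h2
      refine sup_greatest hi fun c hc => ?_
      rcases cmp hC hi hc with h | h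
      · cases c with
        | top => exact absurd hc h0
        | up n' i' =>
          have := hmax n' ⟨i', hc⟩
          simp only [le_def, le, L] at h ⊢
          omega
        | row R S => exact h.elim
        | low n i => exact h.elim
        | bot => exact h.elim
      · exact h
  by_cases h3 : ∃ R S, X.row R S ∈ C
  · obtain ⟨R, S0, hS0⟩ := h3
    have same : ∀ R' S', X.row R' S' ∈ C → R' = R := by
      intro R' S' h
      rcases cmp hC h hS0 with h' | h'
      · exact h'.1
      · exact h'.1.symm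
    let I : Cut := ⟨{q | ∃ S, X.row R S ∈ C ∧ q ∈ S.s},
      fun a b hab ⟨S, hS, hb⟩ => ⟨S, hS, S.lower a b hab hb⟩, ⟨S0, hS0, S0.zero⟩,
      fun ⟨S, _, h⟩ => S.one h⟩
    have hI : ∀ S, X.row R S ∈ C → X.row R S ≤ X.row R I :=
      fun S hS => ⟨rfl, fun q hq => ⟨S, hS, hq⟩⟩
    refine ⟨X.row R I, ⟨fun c hc => ?_, fun y hy => ?_⟩, fun x hx => ?_⟩
    · cases c with
      | top => exact absurd hc h0
      | up n i => exact absurd ⟨n, i, hc⟩ h1
      | row R' S' => obtain rfl := same R' S' hc; exact hI S' hc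
      | low n i =>
        rcases cmp hC hS0 hc with h | h
        · exact h.elim
        · exact h.trans (hI S0 hS0)
      | bot => exact bot_le' _
    · cases y with
      | top => exact le_top' _
      | up n i =>
        obtain ⟨q, hq, hL⟩ := hy hS0
        obtain ⟨q0, hq0, hmax⟩ := Set.exists_max_image _ id (fin_port R.hg n i R.m) ⟨q, hL⟩
        refine ⟨q0, fun ⟨S, hS, hq0S⟩ => ?_, hq0⟩
        obtain ⟨q', hq', hL'⟩ := hy hS
        exact hq' (S.lower _ _ (hmax q' hL') hq0S)
      | row R' S' =>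
        have := (hy hS0).1
        subst this
        exact ⟨rfl, fun q ⟨S, hS, hq⟩ => (hy hS).2 hq⟩
      | low n i => exact (hy hS0).elim
      | bot => exact (hy hS0).elim
    · cases x with
      | top => exact (hx.le).elim
      | up n i => exact (hx.le).elim
      | row R' S' =>
        obtain ⟨⟨rfl, h1⟩, h2⟩ := (lt_def _ _).1 hx
        have : ∃ q ∈ I.s, q ∉ S'.s := by
          by_contra h
          push Not at h
          exact h2 ⟨rfl, h⟩
        obtain ⟨q, ⟨S, hS, hqS⟩, hq⟩ := this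
        refine ⟨_, hS, (lt_def _ _).2 ⟨⟨rfl, fun r hr => ?_⟩, fun h => hq (h.2 hqS)⟩⟩
        rcases le_total r q with h | h
        · exact S.lower _ _ h hqS
        · exact absurd (S'.lower _ _ h hr) hq
      | low n i =>
        obtain ⟨q, ⟨S, hS, hqS⟩, hL⟩ := hx.le
        exact ⟨_, hS, (lt_def _ _).2 ⟨⟨q, hqS, hL⟩, fun h => h.elim⟩⟩
      | bot => exact ⟨_, hS0, by simp [lt_def, le]⟩
  by_cases h4 : ∃ n i, X.low n i ∈ C
  · obtain ⟨n, ⟨i, hi⟩, hmin⟩ := exists_bot_level h4
    refine sup_greatest hi fun c hc => ?_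
    rcases cmp hC hi hc with h | h
    · cases c with
      | top => exact absurd hc h0
      | up n' i' => exact absurd ⟨n', i', hc⟩ h1
      | row R S => exact absurd ⟨R, S, hc⟩ h3
      | low n' i' =>
        have := hmin n' ⟨i', hc⟩
        simp only [le_def, le, L] at h ⊢
        omega
      | bot => exact h.elim
    · exact h
  · obtain ⟨m, hm⟩ := hne
    have all : ∀ c ∈ C, c = X.bot := by
      intro c hc
      cases c with
      | top => exact absurd hc h0
      | up n' i' => exact absurd ⟨n', i', hc⟩ h1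
      | row R S => exact absurd ⟨R, S, hc⟩ h3
      | low n' i' => exact absurd ⟨n', i', hc⟩ h4
      | bot => rfl
    exact sup_greatest hm fun c hc => by rw [all c hc]; exact bot_le' _

theorem low_step {C : Set X} (hC : IsMaxChain (· ≤ ·) C) {n i : ℕ} (hk : X.low n i ∈ C) :
    ∃ i', X.low (n + 1) i' ∈ C := by
  by_cases h : ∃ n', n < n' ∧ ∃ i', X.low n' i' ∈ C
  · obtain ⟨n', ⟨hn, i', hi'⟩, hmin⟩ := exists_bot_level h
    have h1 : i + n ≤ i' + n' := by
      rcases cmp hC.1 hk hi' with h | h <;> simp only [le_def, le, L] at h <;> omega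
    refine ⟨i' + n' - (n + 1), mem_of_cmp hC fun c hc => ?_⟩
    have hw : X.low (n + 1) (i' + n' - (n + 1)) ≤ X.low n i := by
      simp only [le_def, le, L]; omega
    rcases cmp hC.1 hk hc with h2 | h2
    · exact Or.inl (hw.trans h2)
    · cases c with
      | bot => exact Or.inr (bot_le' _)
      | low n'' i'' =>
        have h3 := hmin n''
        have h4 := cmp hC.1 hc hi'
        by_cases h5 : n < n''
        · have := h3 ⟨h5, i'', hc⟩
          simp only [le_def, le, L] at h2 h4 ⊢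
          omega
        · simp only [le_def, le, L] at h2 h4 ⊢
          omega
      | row R S => exact h2.elim
      | up _ _ => exact h2.elim
      | top => exact h2.elim
  · refine ⟨i, mem_of_cmp hC fun c hc => ?_⟩
    have hw : X.low (n + 1) i ≤ X.low n i := by
      simp only [le_def, le, L]; omega
    rcases cmp hC.1 hk hc with h2 | h2
    · exact Or.inl (hw.trans h2)
    · cases c with
      | bot => exact Or.inr (bot_le' _)
      | low n'' i'' =>
        by_cases h5 : n < n''
        · exact absurd ⟨n'', h5, i'', hc⟩ h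
        · simp only [le_def, le, L] at h2 ⊢
          omega
      | row R S => exact h2.elim
      | up _ _ => exact h2.elim
      | top => exact h2.elim

theorem up_step {C : Set X} (hC : IsMaxChain (· ≤ ·) C) {n i : ℕ} (hk : X.up n i ∈ C) :
    ∃ i', X.up (n + 1) i' ∈ C := by
  by_cases h : ∃ n', n < n' ∧ ∃ i', X.up n' i' ∈ C
  · obtain ⟨n', ⟨hn, i', hi'⟩, hmin⟩ := exists_bot_level h
    have h1 : i + n ≤ i' + n' := by
      rcases cmp hC.1 hk hi' with h | h <;> simp only [le_def, le, L] at h <;> omega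
    refine ⟨i' + n' - (n + 1), mem_of_cmp hC fun c hc => ?_⟩
    have hw : X.up n i ≤ X.up (n + 1) (i' + n' - (n + 1)) := by
      simp only [le_def, le, L]; omega
    rcases cmp hC.1 hk hc with h2 | h2
    · cases c with
      | top => exact Or.inl (le_top' _)
      | up n'' i'' =>
        have h3 := hmin n''
        have h4 := cmp hC.1 hc hi'
        by_cases h5 : n < n''
        · have := h3 ⟨h5, i'', hc⟩
          simp only [le_def, le, L] at h2 h4 ⊢
          omega
        · simp only [le_def, le, L] at h2 h4 ⊢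
          omega
      | row R S => exact h2.elim
      | low _ _ => exact h2.elim
      | bot => exact h2.elim
    · exact Or.inr (h2.trans hw)
  · refine ⟨i, mem_of_cmp hC fun c hc => ?_⟩
    have hw : X.up n i ≤ X.up (n + 1) i := by
      simp only [le_def, le, L]; omega
    rcases cmp hC.1 hk hc with h2 | h2
    · cases c with
      | top => exact Or.inl (le_top' _)
      | up n'' i'' =>
        by_cases h5 : n < n''
        · exact absurd ⟨n'', h5, i'', hc⟩ h
        · simp only [le_def, le, L] at h2 ⊢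
          omega
      | row R S => exact h2.elim
      | low _ _ => exact h2.elim
      | bot => exact h2.elim
    · exact Or.inr (h2.trans hw)

theorem path (b : ℕ → ℕ) : ∃ j : ℕ → ℕ, Monotone j ∧ b 0 < j 0 ∧ ∀ n, b (n + 1) + 1 < j n := by
  refine ⟨fun n => ∑ k ∈ Finset.range (n + 2), b k + 2, fun x y h => ?_, ?_, fun n => ?_⟩
  · exact Nat.add_le_add_right (Finset.sum_le_sum_of_subset (Finset.range_mono (by omega))) 2
  · simp [Finset.sum_range_succ]; omega
  · simp only [Finset.sum_range_succ b (n + 1)]; omega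

theorem low_inf {K : Set X} (hK : MinCs K) (hb : X.bot ∉ K) :
    ∃ n, {i | Lo K (X.low n i)}.Infinite := by
  by_contra h
  push Not at h
  choose b hb' using fun n => (h n).bddAbove
  have step : ∀ n i, X.low n i ∈ K → i ≤ b (n + 1) + 1 := by
    intro n i hk
    obtain ⟨C, hC, hkC, hne⟩ := essential hK hk
    obtain ⟨i', hi'⟩ := low_step hC hkC
    have h1 : X.low (n + 1) i' ≤ X.low n i := by
      rcases cmp hC.1 hkC hi' with h | h
      · simp only [le_def, le, L] at h; omega
      · exact h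
    have h2 : Lo K (X.low (n + 1) i') := by
      refine ⟨C, hC, hi', fun c hc hcl => hne c hc ?_⟩
      rintro rfl
      simp only [le_def, le, L] at hcl; omega
    have := hb' (n + 1) h2
    simp only [le_def, le, L] at h1; omega
  obtain ⟨j, hj, hj0, hj1⟩ := path b
  have hT : IsChain (· ≤ ·) (Set.range fun n => X.low n (j n)) := by
    apply chain_of
    rintro _ ⟨x, rfl⟩ _ ⟨y, rfl⟩
    simp only [le_def, le, L]
    rcases lt_trichotomy x y with h | h | h
    · have := hj h.le; omega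
    · subst h; omega
    · have := hj h.le; omega
  obtain ⟨M, hM, hs⟩ := hT.exists_maxChain
  have : Lo K (X.low 0 (j 0)) := by
    refine ⟨M, hM, hs ⟨0, rfl⟩, fun c hc hcl hcK => ?_⟩
    cases c with
    | bot => exact hb hcK
    | low n i =>
      have h1 := cmp hM.1 hc (hs ⟨n, rfl⟩)
      have h2 := step n i hcK
      have h3 := hj1 n
      simp only [le_def, le, L] at h1; omega
    | row R S => exact hcl.elim
    | up _ _ => exact hcl.elim
    | top => exact hcl.elim
  have := hb' 0 this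
  omega

theorem up_inf {K : Set X} (hK : MinCs K) (hb : X.top ∉ K) :
    ∃ n, {i | Hi K (X.up n i)}.Infinite := by
  by_contra h
  push Not at h
  choose b hb' using fun n => (h n).bddAbove
  have step : ∀ n i, X.up n i ∈ K → i ≤ b (n + 1) + 1 := by
    intro n i hk
    obtain ⟨C, hC, hkC, hne⟩ := essential hK hk
    obtain ⟨i', hi'⟩ := up_step hC hkC
    have h1 : X.up n i ≤ X.up (n + 1) i' := by
      rcases cmp hC.1 hkC hi' with h | h
      · exact h
      · simp only [le_def, le, L] at h; omega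
    have h2 : Hi K (X.up (n + 1) i') := by
      refine ⟨C, hC, hi', fun c hc hcl => hne c hc ?_⟩
      rintro rfl
      simp only [le_def, le, L] at hcl; omega
    have := hb' (n + 1) h2
    simp only [le_def, le, L] at h1; omega
  obtain ⟨j, hj, hj0, hj1⟩ := path b
  have hT : IsChain (· ≤ ·) (Set.range fun n => X.up n (j n)) := by
    apply chain_of
    rintro _ ⟨x, rfl⟩ _ ⟨y, rfl⟩
    simp only [le_def, le, L]
    rcases lt_trichotomy x y with h | h | h
    · have := hj h.le; omega
    · subst h; omega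
    · have := hj h.le; omega
  obtain ⟨M, hM, hs⟩ := hT.exists_maxChain
  have : Hi K (X.up 0 (j 0)) := by
    refine ⟨M, hM, hs ⟨0, rfl⟩, fun c hc hcl hcK => ?_⟩
    cases c with
    | top => exact hb hcK
    | up n i =>
      have h1 := cmp hM.1 hc (hs ⟨n, rfl⟩)
      have h2 := step n i hcK
      have h3 := hj1 n
      simp only [le_def, le, L] at h1; omega
    | row R S => exact hcl.elim
    | low _ _ => exact hcl.elim
    | bot => exact hcl.elim
  have := hb' 0 this
  omega

theorem exists_inj {A : Set ℕ} (hA : A.Infinite) :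
    ∃ f : ℚ → ℕ, Function.Injective f ∧ ∀ q, f q ∈ A := by
  obtain ⟨e, he⟩ := Countable.exists_injective_nat ℚ
  exact ⟨fun q => (hA.natEmbedding A (e q) : ℕ),
    fun x y h => he ((hA.natEmbedding A).injective (Subtype.ext h)),
    fun q => (hA.natEmbedding A (e q)).2⟩

def ent (q : ℚ) (h0 : 0 ≤ q) (h1 : q < 1) : Cut :=
  ⟨Set.Iic q, fun _ _ hab hb => hab.trans hb, h0, fun h => absurd h1 (not_lt.2 h)⟩

def ext (q : ℚ) (h0 : 0 < q) (h1 : q ≤ 1) : Cut :=
  ⟨Set.Iio q, fun _ _ hab hb => lt_of_le_of_lt hab hb, h0, fun h => absurd h1 (not_le.2 h)⟩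

theorem between {R : Idx} {S T : Cut} {w : X} (h1 : X.row R S ≤ w) (h2 : w ≤ X.row R T) :
    ∃ U, w = X.row R U := by
  cases w with
  | bot => exact h1.elim
  | low _ _ => exact h1.elim
  | row R' U => exact ⟨U, by rw [h1.1]⟩
  | up _ _ => exact h2.elim
  | top => exact h2.elim

theorem row_cmp (R : Idx) (S T : Cut) : X.row R S ≤ X.row R T ∨ X.row R T ≤ X.row R S := by
  by_cases h : S.s ⊆ T.s
  · exact Or.inl ⟨rfl, h⟩
  · obtain ⟨q, hq, hqT⟩ := Set.not_subset.1 h
    refine Or.inr ⟨rfl, fun r hr => ?_⟩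
    rcases le_total r q with h | h
    · exact S.lower _ _ h hq
    · exact absurd (T.lower _ _ h hr) hqT

theorem ent_lo {K : Set X} {R : Idx} (hR : ∀ q, Lo K (X.low R.n (R.f q))) (q : ℚ) (h0 : 0 ≤ q)
    (h1 : q < 1) (hK : X.row R (ent q h0 h1) ∉ K) : Lo K (X.row R (ent q h0 h1)) := by
  refine lo_ext (hR q) ⟨q, le_refl q, L_refl _ _⟩ fun w hw1 hw2 => ?_
  cases w with
  | bot => exact hw1.le.elim
  | low n i =>
    obtain ⟨r, _, hr⟩ := hw2
    simp only [lt_def, le, L] at hw1 hr; omega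
  | row R' U =>
    obtain ⟨rfl, hU⟩ := hw2
    obtain ⟨r, hr, hL⟩ := hw1.le
    have : q = r := R'.hf (by simp only [L] at hL; omega)
    subst this
    have : U = ent q h0 h1 :=
      Cut.ext' (Set.Subset.antisymm hU fun x hx => U.lower _ _ hx hr)
    rw [this]; exact hK
  | up _ _ => exact hw2.elim
  | top => exact hw2.elim

theorem ext_hi {K : Set X} {R : Idx} (hR : ∀ q, Hi K (X.up R.m (R.g q))) (q : ℚ) (h0 : 0 < q)
    (h1 : q ≤ 1) (hK : X.row R (ext q h0 h1) ∉ K) : Hi K (X.row R (ext q h0 h1)) := by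
  refine hi_ext (hR q) ⟨q, lt_irrefl q, L_refl _ _⟩ fun w hw1 hw2 => ?_
  cases w with
  | top => exact hw1.le.elim
  | up n i =>
    obtain ⟨r, _, hr⟩ := hw2
    simp only [lt_def, le, L] at hw1 hr; omega
  | row R' U =>
    obtain ⟨rfl, hU⟩ := hw2
    obtain ⟨r, hr, hL⟩ := hw1.le
    have : q = r := R.hg (by simp only [L] at hL; omega)
    subst this
    have : U = ext q h0 h1 :=
      Cut.ext' (Set.Subset.antisymm (fun x hx => by
        by_contra h
        exact hr (U.lower _ _ (not_lt.1 h) hx)) hU)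
    rw [this]; exact hK
  | low _ _ => exact hw2.elim
  | bot => exact hw2.elim

theorem mid_mem {C : Set X} (hC : IsMaxChain (· ≤ ·) C) {R : Idx} {S T U : Cut}
    (hS : X.row R S ∈ C) (hT : X.row R T ∈ C) (h1 : X.row R S ≤ X.row R U)
    (h2 : X.row R U ≤ X.row R T) : X.row R U ∈ C := by
  refine mem_of_cmp hC fun c hc => ?_
  rcases cmp hC.1 hc hS with h | h
  · exact Or.inr (h.trans h1)
  · rcases cmp hC.1 hc hT with h' | h'
    · obtain ⟨V, rfl⟩ := between h h'
      exact row_cmp _ _ _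
    · exact Or.inl (h2.trans h')

theorem above {C : Set X} (hC : IsMaxChain (· ≤ ·) C) {R : Idx} {S : Cut} (hS : X.row R S ∈ C)
    (hno : ∀ T, X.row R T ∈ C → T.s ⊆ S.s) : ∃ q, S.s = Set.Iio q := by
  have key : ∀ q, q ∉ S.s → (∀ n i, X.up n i ∈ C → L n i R.m (R.g q)) → ∃ r, S.s = Set.Iio r := by
    intro q hq hup
    have h0 : 0 < min q 1 := lt_min (by
      by_contra h
      exact hq (S.lower _ _ (not_lt.1 h) S.zero)) one_pos
    have hsub : S.s ⊆ Set.Iio (min q 1) := fun x hx => lt_min (by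
      by_contra h
      exact hq (S.lower _ _ (not_lt.1 h) hx)) (by
      by_contra h
      exact S.one (S.lower _ _ (not_lt.1 h) hx))
    have hle : X.row R S ≤ X.row R (ext _ h0 (min_le_right _ _)) := ⟨rfl, hsub⟩
    have hm : X.row R (ext _ h0 (min_le_right _ _)) ∈ C := by
      refine mem_of_cmp hC fun c hc => ?_
      rcases cmp hC.1 hc hS with h | h
      · exact Or.inr (h.trans hle)
      · cases c with
        | bot => exact h.elim
        | low _ _ => exact h.elim
        | row R' U => obtain rfl := h.1; exact row_cmp _ _ _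
        | up n i =>
          exact Or.inl ⟨q, fun h => absurd (min_le_left q 1) (not_le.2 h), hup n i hc⟩
        | top => exact Or.inl (le_top' _)
    exact ⟨_, Set.Subset.antisymm hsub (hno _ hm)⟩
  by_cases h : ∃ n i, X.up n i ∈ C
  · obtain ⟨n, ⟨i, hi⟩, hmin⟩ := exists_bot_level h
    rcases cmp hC.1 hS hi with h' | h'
    · obtain ⟨q, hq, hL⟩ := h'
      refine key q hq fun n' i' hc => L_trans ?_ hL
      have h1 := hmin n' ⟨i', hc⟩
      have h2 := cmp hC.1 hi hc
      simp only [le_def, le, L] at h2 ⊢; omega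
    · exact h'.elim
  · exact key 1 S.one fun n i hc => absurd ⟨n, i, hc⟩ h

theorem below {C : Set X} (hC : IsMaxChain (· ≤ ·) C) {R : Idx} {S : Cut} (hS : X.row R S ∈ C)
    (hno : ∀ T, X.row R T ∈ C → S.s ⊆ T.s) : ∃ q, S.s = Set.Iic q := by
  have key : ∀ q, q ∈ S.s → (∀ n i, X.low n i ∈ C → L n i R.n (R.f q)) → ∃ r, S.s = Set.Iic r := by
    intro q hq hup
    have hmx : max q 0 ∈ S.s := by
      rcases le_total q 0 with h | h
      · rw [max_eq_right h]; exact S.zero
      · rw [max_eq_left h]; exact hq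
    have h1 : max q 0 < 1 := by
      by_contra h
      exact S.one (S.lower _ _ (not_lt.1 h) hmx)
    have hsub : Set.Iic (max q 0) ⊆ S.s := fun x hx => S.lower _ _ hx hmx
    have hle : X.row R (ent _ (le_max_right _ _) h1) ≤ X.row R S := ⟨rfl, hsub⟩
    have hm : X.row R (ent _ (le_max_right _ _) h1) ∈ C := by
      refine mem_of_cmp hC fun c hc => ?_
      rcases cmp hC.1 hc hS with h | h
      · cases c with
        | top => exact h.elim
        | up _ _ => exact h.elim
        | row R' U => obtain rfl := h.1; exact row_cmp _ _ _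
        | low n i => exact Or.inr ⟨q, le_max_left q 0, hup n i hc⟩
        | bot => exact Or.inr (bot_le' _)
      · exact Or.inl (hle.trans h)
    exact ⟨_, Set.Subset.antisymm (hno _ hm) hsub⟩
  by_cases h : ∃ n i, X.low n i ∈ C
  · obtain ⟨n, ⟨i, hi⟩, hmin⟩ := exists_bot_level h
    rcases cmp hC.1 hS hi with h' | h'
    · exact h'.elim
    · obtain ⟨q, hq, hL⟩ := h'
      refine key q hq fun n' i' hc => L_trans ?_ hL
      have h1 := hmin n' ⟨i', hc⟩
      have h2 := cmp hC.1 hi hc
      simp only [le_def, le, L] at h2 ⊢; omega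
  · exact key 0 S.zero fun n i hc => absurd ⟨n, i, hc⟩ h

theorem row_free {K : Set X} (hK : MinCs K) {R : Idx} (hl : ∀ q, Lo K (X.low R.n (R.f q)))
    (hu : ∀ q, Hi K (X.up R.m (R.g q))) (S : Cut) : X.row R S ∉ K := by
  intro hk
  obtain ⟨C, hC, hkC, hne⟩ := essential hK hk
  by_cases h1 : ∀ T, X.row R T ∈ C → T.s ⊆ S.s
  · by_cases h2 : ∀ T, X.row R T ∈ C → S.s ⊆ T.s
    · obtain ⟨q, hq⟩ := above hC hkC h1
      obtain ⟨r, hr⟩ := below hC hkC h2
      have e : Set.Iio q = Set.Iic r := hq.symm.trans hr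
      have a1 : r < q := by
        have : r ∈ Set.Iio q := by rw [e]; exact le_refl r
        exact this
      have a2 : (r + q) / 2 ∈ Set.Iic r := by
        rw [← e]
        show (r + q) / 2 < q
        linarith
      have : (r + q) / 2 ≤ r := a2
      linarith
    · push Not at h2
      obtain ⟨T, hT, hTS⟩ := h2
      obtain ⟨q, hq, hqT⟩ := Set.not_subset.1 hTS
      have q0 : 0 < q := by
        by_contra h
        exact hqT (T.lower _ _ (not_lt.1 h) T.zero)
      have q1 : q ≤ 1 := by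
        by_contra h
        exact S.one (S.lower _ _ (not_le.1 h).le hq)
      have b1 : X.row R T ≤ X.row R (ext q q0 q1) := ⟨rfl, fun x hx => by
        by_contra h
        exact hqT (T.lower _ _ (not_lt.1 h) hx)⟩
      have b2 : X.row R (ext q q0 q1) ≤ X.row R S := ⟨rfl, fun x hx => S.lower _ _ (le_of_lt hx) hq⟩
      have b3 : ¬ X.row R S ≤ X.row R (ext q q0 q1) := fun h => lt_irrefl q (h.2 hq)
      have hm := mid_mem hC hT hkC b1 b2
      have hn : ∀ c ∈ C, c ≤ X.row R (ext q q0 q1) → c ∉ K := fun c hc h =>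
        hne c hc (by rintro rfl; exact b3 h)
      exact glue ⟨C, hC, hm, hn⟩ (ext_hi hu q q0 q1 (hn _ hm le_rfl)) hK.1
  · push Not at h1
    obtain ⟨T, hT, hTS⟩ := h1
    obtain ⟨q, hq, hqS⟩ := Set.not_subset.1 hTS
    have q0 : 0 ≤ q := by
      by_contra h
      exact hqS (S.lower _ _ (not_le.1 h).le S.zero)
    have q1 : q < 1 := by
      by_contra h
      exact T.one (T.lower _ _ (not_lt.1 h) hq)
    have b1 : X.row R S ≤ X.row R (ent q q0 q1) := ⟨rfl, fun x hx => by
      by_contra h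
      exact hqS (S.lower _ _ (not_le.1 h).le hx)⟩
    have b2 : X.row R (ent q q0 q1) ≤ X.row R T := ⟨rfl, fun x hx => T.lower _ _ hx hq⟩
    have b3 : ¬ X.row R (ent q q0 q1) ≤ X.row R S := fun h => hqS (h.2 (le_refl q))
    have hm := mid_mem hC hkC hT b1 b2
    have hn : ∀ c ∈ C, X.row R (ent q q0 q1) ≤ c → c ∉ K := fun c hc h =>
      hne c hc (by rintro rfl; exact b3 h)
    exact glue (ent_lo hl q q0 q1 (hn _ hm le_rfl)) ⟨C, hC, hm, hn⟩ hK.1

theorem ends {K : Set X} (hK : MinCs K) : X.bot ∈ K ∨ X.top ∈ K := by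
  by_contra h
  push Not at h
  obtain ⟨n, hn⟩ := low_inf hK h.1
  obtain ⟨m, hm⟩ := up_inf hK h.2
  obtain ⟨f, hf, hfA⟩ := exists_inj hn
  obtain ⟨g, hg, hgA⟩ := exists_inj hm
  let R : Idx := ⟨n, f, m, g, hf, hg⟩
  have fr := row_free hK (R := R) hfA hgA
  have l1 := ent_lo (R := R) hfA 0 le_rfl one_pos (fr _)
  have u1 := ext_hi (R := R) hgA 1 one_pos le_rfl (fr _)
  have hle : X.row R (ent 0 le_rfl one_pos) ≤ X.row R (ext 1 one_pos le_rfl) :=
    ⟨rfl, fun x hx => show x < 1 from lt_of_le_of_lt (show x ≤ 0 from hx) one_pos⟩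
  refine glue (lo_ext l1 hle fun w h1 h2 => ?_) u1 hK.1
  obtain ⟨U, rfl⟩ := between h1.le h2
  exact fr U

theorem only {K : Set X} (hK : MinCs K) : K = {X.bot} ∨ K = {X.top} := by
  rcases ends hK with h | h
  · refine Or.inl (Set.eq_singleton_iff_unique_mem.2 ⟨h, fun k hk => ?_⟩)
    obtain ⟨C, hC, _, hne⟩ := essential hK hk
    by_contra e
    exact hne _ (mem_of_cmp hC fun c _ => Or.inl (bot_le' c)) (Ne.symm e) h
  · refine Or.inr (Set.eq_singleton_iff_unique_mem.2 ⟨h, fun k hk => ?_⟩)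
    obtain ⟨C, hC, _, hne⟩ := essential hK hk
    by_contra e
    exact hne _ (mem_of_cmp hC fun c _ => Or.inr (le_top' c)) (Ne.symm e) h

theorem cov : X.low 1 1 ⋖ X.low 0 0 := by
  refine ⟨by simp [lt_def, le, L], fun w h1 h2 => ?_⟩
  cases w with
  | bot => exact h1.le.elim
  | low n i => simp only [lt_def, le, L] at h1 h2; omega
  | row _ _ => exact h2.le.elim
  | up _ _ => exact h2.le.elim
  | top => exact h2.le.elim

end Pool.Agent.H13.Higgs
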