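import Pool.Agent.H13.MT2

namespace Pool.Agent.H13.InOut
open Finset

/-- The number of points of `S` in `(1/t) ℤ²`. -/
noncomputable def cnt (S : Set (EuclideanSpace ℝ (Fin 2))) (t : ℕ) : ℕ :=
  Set.ncard {z : ℤ × ℤ | (!₂[(z.1 : ℝ) / t, (z.2 : ℝ) / t] : EuclideanSpace ℝ (Fin 2)) ∈ S}

/-- `N` is a period of `f` on the positive integers. -/
def Per (f : ℕ → ℚ) (N : ℕ) : Prop := 0 < N ∧ ∀ t, 1 ≤ t → f (t + N) = f t

/-- `F t = c 0 t + c 1 t * t + c 2 t * t ^ 2` for `t ≥ 1`, with periodic coefficients. -/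
def IsQP (F : ℕ → ℕ) (c : Fin 3 → ℕ → ℚ) : Prop :=
  (∀ k, ∃ N, Per (c k) N) ∧ ∀ t, 1 ≤ t → (F t : ℚ) = ∑ k : Fin 3, c k t * (t : ℚ) ^ (k : ℕ)

theorem Per.mul {f : ℕ → ℚ} {N : ℕ} (h : Per f N) (t : ℕ) (ht : 1 ≤ t) (j : ℕ) : f (t + j * N) = f t := by
  induction j with
  | zero => simp
  | succ j ih => rw [show t + (j + 1) * N = t + j * N + N by ring, h.2 _ (by omega), ih]

theorem uniq {F : ℕ → ℕ} {c c' : Fin 3 → ℕ → ℚ} (h : IsQP F c) (h' : IsQP F c') (k : Fin 3) (t : ℕ) (ht : 1 ≤ t) :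
    c k t = c' k t := by
  choose N hN using h.1
  choose N' hN' using h'.1
  set M := (∏ k, N k) * ∏ k, N' k with hM
  have M0 : 0 < M := mul_pos (prod_pos fun k _ => (hN k).1) (prod_pos fun k _ => (hN' k).1)
  have a : ∀ k j, c k (t + j * M) = c k t := by
    intro k j
    obtain ⟨q, hq⟩ : N k ∣ M := (dvd_prod_of_mem _ (mem_univ k)).mul_right _
    rw [hq, show j * (N k * q) = j * q * N k by ring, (hN k).mul t ht]
  have b : ∀ k j, c' k (t + j * M) = c' k t := by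
    intro k j
    obtain ⟨q, hq⟩ : N' k ∣ M := (dvd_prod_of_mem _ (mem_univ k)).mul_left _
    rw [hq, show j * (N' k * q) = j * q * N' k by ring, (hN' k).mul t ht]
  have e : ∀ j : ℕ, (c 0 t - c' 0 t) + (c 1 t - c' 1 t) * (t + j * M) + (c 2 t - c' 2 t) * (t + j * M) ^ 2 = 0 := by
    intro j
    have h1 := h.2 (t + j * M) (by omega)
    have h2 := h'.2 (t + j * M) (by omega)
    simp only [Fin.sum_univ_three, a, b] at h1 h2
    push_cast at h1 h2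
    simp only [Fin.val_zero, Fin.val_one, Fin.val_two] at h1 h2
    linear_combination h2 - h1
  have e0 := e 0
  have e1 := e 1
  have e2 := e 2
  push_cast at e0 e1 e2
  have Mq : (M : ℚ) ≠ 0 := by exact_mod_cast M0.ne'
  have z2 : c 2 t - c' 2 t = 0 := by
    have : (c 2 t - c' 2 t) * (2 * (M : ℚ) ^ 2) = 0 := by linear_combination e0 - 2 * e1 + e2
    exact (mul_eq_zero.1 this).resolve_right (by positivity)
  have z1 : c 1 t - c' 1 t = 0 := by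
    have : (c 1 t - c' 1 t) * (M : ℚ) = 0 := by
      rw [z2] at e0 e1; linear_combination e1 - e0
    exact (mul_eq_zero.1 this).resolve_right Mq
  have z0 : c 0 t - c' 0 t = 0 := by rw [z2, z1] at e0; linear_combination e0
  fin_cases k
  · exact sub_eq_zero.1 z0
  · exact sub_eq_zero.1 z1
  · exact sub_eq_zero.1 z2

open Pool.Agent.H13.MT in
theorem P_eq : convexHull ℝ ({!₂[-1, 0], !₂[3, 0], !₂[0, 1 / 2]} : Set E) =
    {q | 0 ≤ q 1 ∧ q 0 + 6 * q 1 ≤ 3 ∧ -q 0 + 2 * q 1 ≤ 1} := by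
  apply Set.Subset.antisymm
  · apply convexHull_min
    · rintro q (rfl | rfl | rfl) <;> simp <;> norm_num
    · rintro p ⟨p1, p2, p3⟩ q ⟨q1, q2, q3⟩ a b ha hb hab
      simp only [Set.mem_ofPred_eq, PiLp.add_apply, PiLp.smul_apply, smul_eq_mul]
      refine ⟨?_, ?_, ?_⟩ <;> nlinarith
  · rintro q ⟨q1, q2, q3⟩
    refine comb3 (a := !₂[-1, 0]) (b := !₂[3, 0]) (c := !₂[0, 1 / 2]) (by simp) (by simp) (by simp)
      ((q 0 - 2 * q 1 + 1) / 4) (2 * q 1) (by linarith) (by linarith) (by linarith) ?_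
    ext i; fin_cases i <;> simp <;> ring

open Pool.Agent.H13.MT in
theorem P_int : interior (convexHull ℝ ({!₂[-1, 0], !₂[3, 0], !₂[0, 1 / 2]} : Set E)) =
    {q | 0 < q 1 ∧ q 0 + 6 * q 1 < 3 ∧ -q 0 + 2 * q 1 < 1} := by
  rw [P_eq]
  apply Set.Subset.antisymm
  · intro p hp
    have a1 := strict hp 0 (-1) 0 (by norm_num) fun q hq => by linarith [hq.1]
    have a2 := strict hp 1 6 3 (by norm_num) fun q hq => by linarith [hq.2.1]
    have a3 := strict hp (-1) 2 1 (by norm_num) fun q hq => by linarith [hq.2.2]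
    refine ⟨?_, ?_, ?_⟩ <;> linarith
  · refine interior_maximal (fun q hq => ?_) ?_
    · exact ⟨hq.1.le, hq.2.1.le, hq.2.2.le⟩
    · have o1 : IsOpen {q : E | 0 < q 1} := isOpen_lt (by fun_prop) (by fun_prop)
      have o2 : IsOpen {q : E | q 0 + 6 * q 1 < 3} := isOpen_lt (by fun_prop) (by fun_prop)
      have o3 : IsOpen {q : E | -q 0 + 2 * q 1 < 1} := isOpen_lt (by fun_prop) (by fun_prop)
      exact o1.inter (o2.inter o3)

theorem sum_lin (a : ℤ) (m : ℕ) : ∑ j ∈ range m, (a - 8 * (j : ℤ)) = a * m - 4 * m * (m - 1) := by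
  induction m with
  | zero => simp
  | succ m ih => rw [sum_range_succ, ih]; push_cast; ring

theorem count (m : ℕ) (R : ℕ → Finset ℤ) (a : ℤ) (h : ∀ j < m, (#(R j) : ℤ) = a - 8 * j) (S : Set (ℤ × ℤ))
    (hS : ∀ z : ℤ × ℤ, z ∈ S ↔ ∃ j < m, z.2 = (j : ℕ) + 1 ∧ z.1 ∈ R j) :
    (S.ncard : ℤ) = a * m - 4 * m * (m - 1) := by
  have : S = ↑(((range m).sigma R).image fun s : (_ : ℕ) × ℤ => (s.2, (s.1 : ℤ) + 1)) := by
    ext z
    rw [hS]
    simp only [coe_image, Set.mem_image, mem_coe, mem_sigma, mem_range]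
    constructor
    · rintro ⟨j, h1, h2, h3⟩; exact ⟨⟨j, z.1⟩, ⟨h1, h3⟩, Prod.ext rfl h2.symm⟩
    · rintro ⟨⟨j, x⟩, ⟨h1, h3⟩, rfl⟩; exact ⟨j, h1, rfl, h3⟩
  rw [this, Set.ncard_coe_finset, card_image_of_injective, card_sigma, ← sum_lin]
  · push_cast
    exact sum_congr rfl fun j hj => h j (mem_range.1 hj)
  · rintro ⟨j, x⟩ ⟨j', x'⟩ e
    simp only [Prod.mk.injEq, add_left_inj, Nat.cast_inj] at e
    rw [e.1, e.2]

theorem cond_iff (t : ℕ) (ht : 1 ≤ t) (x y : ℤ) :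
    (0 < (y : ℝ) / t ∧ (x : ℝ) / t + 6 * ((y : ℝ) / t) < 3 ∧ -((x : ℝ) / t) + 2 * ((y : ℝ) / t) < 1) ↔
      (0 < y ∧ x + 6 * y < 3 * t ∧ -x + 2 * y < t) := by
  have t0 : (0 : ℝ) < t := by exact_mod_cast ht
  rw [show (x : ℝ) / t + 6 * ((y : ℝ) / t) = (x + 6 * y) / t by ring,
    show -((x : ℝ) / t) + 2 * ((y : ℝ) / t) = (-x + 2 * y) / t by ring, div_lt_iff₀ t0, div_lt_iff₀ t0,
    lt_div_iff₀ t0, zero_mul, one_mul]
  norm_cast

open Pool.Agent.H13.MT in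
theorem Ew (t : ℕ) (ht : 1 ≤ t) :
    (cnt (interior (convexHull ℝ ({!₂[-1, 0], !₂[3, 0], !₂[0, 1 / 2]} : Set E))) t : ℤ) =
      (4 * t - 9) * ((t - 1) / 2 : ℕ) - 4 * ((t - 1) / 2 : ℕ) * (((t - 1) / 2 : ℕ) - 1) := by
  refine count _ (fun j => Ioo (2 * (j + 1) - t : ℤ) (3 * t - 6 * (j + 1))) _ (fun j hj => ?_) _ fun z => ?_
  · rw [Int.card_Ioo]; omega
  · rw [P_int]
    simp only [Set.mem_ofPred_eq, Matrix.cons_val_zero, Matrix.cons_val_one, mem_Ioo]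
    rw [cond_iff t ht]
    exact ⟨fun h => ⟨(z.2 - 1).toNat, by omega⟩, fun ⟨j, h⟩ => by omega⟩

open Pool.Agent.H13.MT in
theorem Eo (t : ℕ) (ht : 1 ≤ t) :
    (cnt (interior (convexHull ℝ ({!₂[-1, 0], !₂[3, 0], !₂[0, 1 / 2]} : Set E)) \ {q | q 0 = 0}) t : ℤ) =
      (4 * t - 10) * ((t - 1) / 2 : ℕ) - 4 * ((t - 1) / 2 : ℕ) * (((t - 1) / 2 : ℕ) - 1) := by
  refine count _ (fun j => (Ioo (2 * (j + 1) - t : ℤ) (3 * t - 6 * (j + 1))).erase 0) _ (fun j hj => ?_) _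
    fun z => ?_
  · rw [card_erase_of_mem (by rw [mem_Ioo]; omega), Int.card_Ioo]; omega
  · rw [P_int]
    have t0 : (t : ℝ) ≠ 0 := by positivity
    simp only [Set.mem_sdiff, Set.mem_ofPred_eq, Matrix.cons_val_zero, Matrix.cons_val_one, mem_Ioo, mem_erase,
      div_eq_zero_iff, t0, or_false, Int.cast_eq_zero]
    rw [cond_iff t ht]
    exact ⟨fun h => ⟨(z.2 - 1).toNat, by omega⟩, fun ⟨j, h⟩ => by omega⟩

theorem qA (F : ℕ → ℕ) (h : ∀ t, 1 ≤ t → (F t : ℤ) =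
    (4 * t - 10) * ((t - 1) / 2 : ℕ) - 4 * ((t - 1) / 2 : ℕ) * (((t - 1) / 2 : ℕ) - 1)) :
    IsQP F ![fun _ => 2, fun _ => -3, fun _ => 1] := by
  refine ⟨fun k => ⟨1, one_pos, fun t _ => by fin_cases k <;> rfl⟩, fun t ht => ?_⟩
  have := congrArg (Int.cast : ℤ → ℚ) (h t ht)
  rw [Fin.sum_univ_three]
  show (F t : ℚ) = 2 * (t : ℚ) ^ 0 + (-3) * (t : ℚ) ^ 1 + 1 * (t : ℚ) ^ 2
  obtain ⟨m, rfl | rfl⟩ := Nat.even_or_odd' t
  · obtain ⟨m, rfl⟩ : ∃ k, m = k + 1 := ⟨m - 1, by omega⟩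
    rw [show (2 * (m + 1) - 1) / 2 = m by omega] at this
    push_cast at this ⊢
    rw [this]; ring
  · rw [show (2 * m + 1 - 1) / 2 = m by omega] at this
    push_cast at this ⊢
    rw [this]; ring

theorem qB (F : ℕ → ℕ) (h : ∀ t, 1 ≤ t → (F t : ℤ) =
    (4 * t - 9) * ((t - 1) / 2 : ℕ) - 4 * ((t - 1) / 2 : ℕ) * (((t - 1) / 2 : ℕ) - 1)) :
    IsQP F ![fun t => if t % 2 = 0 then 1 else 3 / 2, fun _ => -5 / 2, fun _ => 1] := by
  refine ⟨fun k => ⟨2, two_pos, fun t _ => ?_⟩, fun t ht => ?_⟩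
  · fin_cases k
    · show (if (t + 2) % 2 = 0 then (1 : ℚ) else 3 / 2) = if t % 2 = 0 then (1 : ℚ) else 3 / 2
      rw [Nat.add_mod_right]
    · rfl
    · rfl
  have := congrArg (Int.cast : ℤ → ℚ) (h t ht)
  rw [Fin.sum_univ_three]
  show (F t : ℚ) = (if t % 2 = 0 then 1 else 3 / 2) * (t : ℚ) ^ 0 + (-5 / 2) * (t : ℚ) ^ 1 + 1 * (t : ℚ) ^ 2
  obtain ⟨m, rfl | rfl⟩ := Nat.even_or_odd' t
  · obtain ⟨m, rfl⟩ : ∃ k, m = k + 1 := ⟨m - 1, by omega⟩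
    rw [show (2 * (m + 1) - 1) / 2 = m by omega] at this
    rw [if_pos (by omega)]
    push_cast at this ⊢
    rw [this]; ring
  · rw [show (2 * m + 1 - 1) / 2 = m by omega] at this
    rw [if_neg (by omega)]
    push_cast at this ⊢
    rw [this]; ring

theorem fin {F G : ℕ → ℕ} (A : IsQP F ![fun _ => 2, fun _ => -3, fun _ => 1])
    (B : IsQP G ![fun t => if t % 2 = 0 then 1 else 3 / 2, fun _ => -5 / 2, fun _ => 1])
    (c cw : Fin 3 → ℕ → ℚ) (hc : IsQP F c) (hw : IsQP G cw) :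
    ∃ p0 p1 w0 w1 : ℕ, IsLeast {N | Per (c 0) N} p0 ∧ IsLeast {N | Per (c 1) N} p1 ∧
      IsLeast {N | Per (cw 0) N} w0 ∧ IsLeast {N | Per (cw 1) N} w1 ∧ ¬ p1 * w0 ∣ p0 * w1 := by
  refine ⟨1, 1, 2, 1, ?_, ?_, ?_, ?_, by decide⟩
  · exact ⟨⟨one_pos, fun t ht => by rw [uniq hc A 0 _ (by omega), uniq hc A 0 _ ht]; rfl⟩, fun N h => h.1⟩
  · exact ⟨⟨one_pos, fun t ht => by rw [uniq hc A 1 _ (by omega), uniq hc A 1 _ ht]; rfl⟩, fun N h => h.1⟩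
  · refine ⟨⟨two_pos, fun t ht => ?_⟩, fun N h => ?_⟩
    · rw [uniq hw B 0 _ (by omega), uniq hw B 0 _ ht]
      show (if (t + 2) % 2 = 0 then (1 : ℚ) else 3 / 2) = if t % 2 = 0 then (1 : ℚ) else 3 / 2
      rw [Nat.add_mod_right]
    by_contra hN
    obtain rfl : N = 1 := by have := h.1; omega
    have := h.2 1 le_rfl
    rw [uniq hw B 0 _ (by omega), uniq hw B 0 _ le_rfl] at this
    have e : (1 : ℚ) = 3 / 2 := this
    norm_num at e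
  · exact ⟨⟨one_pos, fun t ht => by rw [uniq hw B 1 _ (by omega), uniq hw B 1 _ ht]; rfl⟩, fun N h => h.1⟩

end Pool.Agent.H13.InOut
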