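import Mathlib

namespace Pool.Agent.H13.IntDist
open Finset

variable {n : ℕ}

def UD (G : Finset (Finset (Fin n))) : Prop :=
  ∀ A ∈ G, ∀ B ∈ G, ∀ C ∈ G, ∀ D ∈ G, A ≠ B → C ≠ D → (A ∪ B).card = (C ∪ D).card →
    (A = C ∧ B = D) ∨ (A = D ∧ B = C)

def Has (G : Finset (Finset (Fin n))) (u : ℕ) : Prop :=
  ∃ B ∈ G, ∃ C ∈ G, B ≠ C ∧ (B ∪ C).card = u

lemma trace {G : Finset (Finset (Fin n))} (h : UD G) {B C D : Finset (Fin n)} (hB : B ∈ G)
    (hC : C ∈ G) (hD : D ∈ G) (h1 : C ≠ B) (h2 : D ≠ B) (h3 : C ≠ D) :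
    (C \ B).card ≠ (D \ B).card := by
  intro e
  have a := card_sdiff_add_card C B
  have b := card_sdiff_add_card D B
  rcases h C hC B hB D hD B hB h1 h2 (by omega) with ⟨e1, _⟩ | ⟨e1, _⟩
  · exact h3 e1
  · exact h1 e1

lemma compl_big {G : Finset (Finset (Fin n))} (h : UD G) {B : Finset (Fin n)} (hB : B ∈ G) :
    G.card ≤ Bᶜ.card + 2 := by
  have : (G.erase B).card ≤ (range (Bᶜ.card + 1)).card := by
    apply card_le_card_of_injOn (fun C => (C \ B).card)
    · intro C _
      simp only [coe_range, Set.mem_Iio]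
      have : C \ B ⊆ Bᶜ := fun x hx => by simpa using (mem_sdiff.1 hx).2
      have := card_le_card this
      omega
    · intro C hC D hD e
      by_contra hne
      have hC' := mem_erase.1 (mem_coe.1 hC)
      have hD' := mem_erase.1 (mem_coe.1 hD)
      exact trace h hB hC'.2 hD'.2 hC'.1 hD'.1 hne e
  rw [card_erase_of_mem hB, card_range] at this
  omega

lemma size_big {G : Finset (Finset (Fin n))} (h : UD G) {P Q : Finset (Fin n)} (hP : P ∈ G) :
    G.card + (P ∪ Q).card ≤ Q.card + n + 2 := by
  have a := compl_big h hP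
  have b : Pᶜ ⊆ Q ∪ (P ∪ Q)ᶜ := by
    intro x hx
    by_cases hq : x ∈ Q <;> simp_all
  have c := (card_le_card b).trans (card_union_le _ _)
  have d := card_add_card_compl (P ∪ Q)
  simp only [Fintype.card_fin] at d
  omega

lemma split_le {P Q : Finset (Fin n)} (h : (P ∪ Q).card = n) (E : Finset (Fin n)) :
    (E \ P).card + (E \ Q).card ≤ E.card := by
  have hu : P ∪ Q = univ := by
    apply eq_univ_of_card; simpa using h
  rw [← card_union_of_disjoint]
  · exact card_le_card (union_subset sdiff_subset sdiff_subset)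
  · rw [disjoint_left]
    intro x h1 h2
    have : x ∈ P ∪ Q := hu ▸ mem_univ x
    simp only [mem_sdiff, mem_union] at *
    tauto

lemma has_one {G : Finset (Finset (Fin n))} (h : UD G) (h1 : Has G 1) :
    ∃ x, ∅ ∈ G ∧ {x} ∈ G ∧ ∀ D ∈ G, D ≠ {x} → x ∉ D := by
  obtain ⟨B, hB, C, hC, hne, e⟩ := h1
  obtain ⟨x, hx⟩ := card_eq_one.1 e
  have b : B = ∅ ∨ B = {x} := subset_singleton_iff.1 (hx ▸ subset_union_left)
  have c : C = ∅ ∨ C = {x} := subset_singleton_iff.1 (hx ▸ subset_union_right)
  have key : ∅ ∈ G ∧ {x} ∈ G := by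
    rcases b with b | b <;> rcases c with c | c <;> subst_vars <;> simp_all
  refine ⟨x, key.1, key.2, fun D hD hne hxD => ?_⟩
  have := trace h hD key.1 key.2 (by rintro rfl; simp at hxD) hne.symm (by simp)
  apply this
  rw [sdiff_eq_empty_iff_subset.2 (singleton_subset_iff.2 hxD)]
  simp

lemma not_one_top {G : Finset (Finset (Fin n))} (h : UD G) (hm : 4 ≤ G.card) (h1 : Has G 1) :
    ¬ Has G n := by
  obtain ⟨x, -, -, hx⟩ := has_one h h1
  rintro ⟨P, hP, Q, hQ, -, e⟩
  have a := size_big (Q := Q) h hP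
  have b := size_big (Q := P) h hQ
  rw [union_comm] at b
  have p := hx P hP (by rintro rfl; simp only [card_singleton] at b; omega)
  have q := hx Q hQ (by rintro rfl; simp only [card_singleton] at a; omega)
  have hu : P ∪ Q = univ := by
    apply eq_univ_of_card; simpa using e
  have : x ∈ P ∪ Q := hu ▸ mem_univ x
  simp only [mem_union] at this
  tauto

lemma caseA {G : Finset (Finset (Fin n))} (h : UD G) (hm : 6 ≤ G.card) (h1 : Has G 1)
    (h2 : Has G 2) (hn : 1 ≤ n) : ¬ Has G (n - 1) := by
  obtain ⟨x, h0, hx1, hx⟩ := has_one h h1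
  have hY : ∃ Y ∈ G, Y.card = 2 := by
    obtain ⟨B, hB, C, hC, hne, e⟩ := h2
    by_contra hc
    push Not at hc
    have small : ∀ D ∈ G, D.card ≤ 2 → D ⊆ {x} := by
      intro D hD hle
      by_cases d0 : D = ∅
      · simp [d0]
      by_cases d1 : D = {x}
      · simp [d1]
      have t := trace h h0 hD hx1 d0 (by simp) d1
      have := hc D hD
      have := card_pos.2 (nonempty_iff_ne_empty.2 d0)
      simp only [sdiff_empty, card_singleton] at t
      omega
    have b := small B hB (e ▸ card_le_card subset_union_left)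
    have c := small C hC (e ▸ card_le_card subset_union_right)
    have := card_le_card (union_subset b c)
    simp only [card_singleton] at this
    omega
  obtain ⟨Y, hY, y2⟩ := hY
  have xY : x ∉ Y := hx Y hY (by rintro rfl; simp at y2)
  have other : ∀ D ∈ G, 3 ≤ D.card → Disjoint (insert x Y) D := by
    intro D hD h3
    have n0 : ∅ ≠ D := by rintro rfl; simp at h3
    have n1 : {x} ≠ D := by rintro rfl; simp at h3
    have n2 : Y ≠ D := by rintro rfl; omega
    have xD := hx D hD n1.symm
    have t1 := trace h hD hY h0 n2 n0 (by rintro rfl; simp at y2)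
    have t2 := trace h hD hY hx1 n2 n1 (by rintro rfl; simp at y2)
    have e1 : ({x} \ D : Finset (Fin n)) = {x} := by
      rw [Finset.sdiff_eq_self_iff_disjoint]; simpa using xD
    rw [e1] at t2
    simp only [empty_sdiff, card_empty, card_singleton] at t1 t2
    have l := card_le_card (sdiff_subset (s := Y) (t := D))
    have e2 : Y \ D = Y := eq_of_subset_of_card_le sdiff_subset (by omega)
    rw [disjoint_insert_left]
    exact ⟨xD, Finset.sdiff_eq_self_iff_disjoint.1 e2⟩
  rintro ⟨P, hP, Q, hQ, -, e⟩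
  have a := size_big (Q := Q) h hP
  have b := size_big (Q := P) h hQ
  rw [union_comm] at b
  have d := disjoint_union_right.2 ⟨other P hP (by omega), other Q hQ (by omega)⟩
  have c := card_union_of_disjoint d
  have u := card_le_univ (insert x Y ∪ (P ∪ Q))
  rw [card_insert_of_notMem xY] at c
  simp only [Fintype.card_fin] at u
  omega

lemma caseB_aux {G : Finset (Finset (Fin n))} (h : UD G) {B C P Q : Finset (Fin n)} (hB : B ∈ G)
    (hC : C ∈ G) (hP : P ∈ G) (hQ : Q ∈ G) (hne : B ≠ C) (e : (B ∪ C).card = 2)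
    (eP : (P ∪ Q).card = n) (p : 4 ≤ P.card) (q : 4 ≤ Q.card) (c2 : C.card = 2)
    (b1 : 1 ≤ B.card) : False := by
  have hs : B ⊆ C := by
    have : C = B ∪ C := eq_of_subset_of_card_le subset_union_right (by omega)
    rw [this]; exact subset_union_left
  have lt := card_lt_card (Finset.ssubset_iff_subset_ne.2 ⟨hs, hne⟩)
  have cE := card_sdiff_add_card_eq_card hs
  have key : ∀ D ∈ G, 4 ≤ D.card → 1 ≤ ((C \ B) \ D).card := by
    intro D hD h4
    have t := trace h hD hB hC (by rintro rfl; omega) (by rintro rfl; omega) hne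
    by_contra hc
    have z : (C \ B) \ D = ∅ := card_eq_zero.1 (by omega)
    apply t
    congr 1
    ext y
    have := congrArg (y ∈ ·) z
    have := @hs y
    simp only [mem_sdiff, notMem_empty, eq_iff_iff, iff_false] at *
    tauto
  have := split_le eP (C \ B)
  have := key P hP p
  have := key Q hQ q
  omega

lemma caseB {G : Finset (Finset (Fin n))} (h : UD G) (hm : 6 ≤ G.card) (h2 : Has G 2)
    (h3 : Has G 3) : ¬ Has G n := by
  rintro ⟨P, hP, Q, hQ, -, eP⟩
  have a := size_big (Q := Q) h hP
  have b := size_big (Q := P) h hQ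
  rw [union_comm] at b
  obtain ⟨B, hB, C, hC, hne, e⟩ := h2
  have lB : B.card ≤ 2 := e ▸ card_le_card subset_union_left
  have lC : C.card ≤ 2 := e ▸ card_le_card subset_union_right
  have hT : ∃ T ∈ G, T.card ≤ 3 ∧ T ≠ B ∧ T ≠ C := by
    obtain ⟨E, hE, E', hE', hne', e'⟩ := h3
    have l1 : E.card ≤ 3 := e' ▸ card_le_card subset_union_left
    have l2 : E'.card ≤ 3 := e' ▸ card_le_card subset_union_right
    by_contra hc
    push Not at hc
    have s : ∀ T ∈ G, T.card ≤ 3 → T ⊆ B ∪ C := by
      intro T hT l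
      by_cases tb : T = B
      · rw [tb]; exact subset_union_left
      · rw [hc T hT l tb]; exact subset_union_right
    have := card_le_card (union_subset (s E hE l1) (s E' hE' l2))
    omega
  obtain ⟨T, hT, lT, tB, tC⟩ := hT
  have key : ∀ D ∈ G, 4 ≤ D.card → 3 ≤ (B \ D).card + (C \ D).card + (T \ D).card := by
    intro D hD h4
    have nB : B ≠ D := by rintro rfl; omega
    have nC : C ≠ D := by rintro rfl; omega
    have nT : T ≠ D := by rintro rfl; omega
    have := trace h hD hB hC nB nC hne
    have := trace h hD hT hB nT nB tB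
    have := trace h hD hT hC nT nC tC
    omega
  have k1 := key P hP (by omega)
  have k2 := key Q hQ (by omega)
  have := split_le eP B
  have := split_le eP C
  have := split_le eP T
  by_cases c2 : C.card = 2
  · exact caseB_aux h hB hC hP hQ hne e eP (by omega) (by omega) c2 (by omega)
  · exact caseB_aux h hC hB hP hQ hne.symm (by rwa [union_comm]) eP (by omega) (by omega)
      (by omega) (by omega)

open Classical in
lemma count {G : Finset (Finset (Fin n))} (h : UD G) :
    G.card.choose 2 ≤ ((Icc 1 n).filter (Has G)).card := by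
  rw [← card_powersetCard]
  apply card_le_card_of_injOn (fun P => (P.sup id).card)
  · intro P hP
    obtain ⟨hs, hc⟩ := mem_powersetCard.1 (mem_coe.1 hP)
    obtain ⟨A, B, hne, rfl⟩ := card_eq_two.1 hc
    have e : ({A, B} : Finset (Finset (Fin n))).sup id = A ∪ B := by simp
    simp only [e, coe_filter, mem_Icc, Set.mem_ofPred_eq]
    refine ⟨⟨?_, by simpa using card_le_univ (A ∪ B)⟩, A, hs (by simp), B, hs (by simp), hne, rfl⟩
    rw [Nat.one_le_iff_ne_zero, Ne, card_eq_zero, union_eq_empty]
    rintro ⟨rfl, rfl⟩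
    exact hne rfl
  · intro P hP Q hQ e
    obtain ⟨hs, hc⟩ := mem_powersetCard.1 (mem_coe.1 hP)
    obtain ⟨A, B, hne, rfl⟩ := card_eq_two.1 hc
    obtain ⟨hs', hc'⟩ := mem_powersetCard.1 (mem_coe.1 hQ)
    obtain ⟨C, D, hne', rfl⟩ := card_eq_two.1 hc'
    have e1 : ({A, B} : Finset (Finset (Fin n))).sup id = A ∪ B := by simp
    have e2 : ({C, D} : Finset (Finset (Fin n))).sup id = C ∪ D := by simp
    simp only [e1, e2] at e
    rcases h A (hs (by simp)) B (hs (by simp)) C (hs' (by simp)) D (hs' (by simp)) hne hne' e with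
      ⟨rfl, rfl⟩ | ⟨rfl, rfl⟩
    · rfl
    · exact pair_comm _ _

open Classical in
lemma missing {G : Finset (Finset (Fin n))} (h : UD G) (M : Finset ℕ) (hM : M ⊆ Icc 1 n)
    (hn : ∀ a ∈ M, ¬ Has G a) : G.card.choose 2 + M.card ≤ n := by
  have a := count h
  have b : (Icc 1 n).filter (Has G) ⊆ Icc 1 n \ M := by
    intro x hx
    rw [mem_filter] at hx
    exact mem_sdiff.2 ⟨hx.1, fun hm => hn x hm hx.2⟩
  have c := card_le_card b
  have d := card_sdiff_add_card_eq_card hM
  simp only [Nat.card_Icc] at d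
  omega

theorem nec0 {G : Finset (Finset (Fin n))} (h : UD G) : G.card.choose 2 ≤ n := by
  simpa using missing h ∅ (by simp) (by simp)

theorem nec1 {G : Finset (Finset (Fin n))} (h : UD G) (hm : 4 ≤ G.card) :
    G.card.choose 2 + 1 ≤ n := by
  have a := nec0 h
  have b : (4 : ℕ).choose 2 ≤ G.card.choose 2 := Nat.choose_le_choose 2 hm
  have b' : (4 : ℕ).choose 2 = 6 := by decide
  by_cases h1 : Has G 1
  · simpa using missing h {n} (by simp; omega) (by simpa using not_one_top h hm h1)
  · simpa using missing h {1} (by simp; omega) (by simpa using h1)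

theorem nec2 {G : Finset (Finset (Fin n))} (h : UD G) (hm : 6 ≤ G.card) :
    G.card.choose 2 + 2 ≤ n := by
  have a := nec0 h
  have b : (6 : ℕ).choose 2 ≤ G.card.choose 2 := Nat.choose_le_choose 2 hm
  have b' : (6 : ℕ).choose 2 = 15 := by decide
  have two : ∀ a b, a ≠ b → 1 ≤ a → a ≤ n → 1 ≤ b → b ≤ n → ¬ Has G a → ¬ Has G b →
      G.card.choose 2 + 2 ≤ n := by
    intro a b hab a1 a2 b1 b2 ha hb
    have := missing h {a, b} (by intro x hx; simp at hx ⊢; omega)
      (by intro x hx; simp at hx; rcases hx with rfl | rfl <;> assumption)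
    rwa [card_pair hab] at this
  by_cases h1 : Has G 1
  · have hn := not_one_top h (by omega) h1
    by_cases h2 : Has G 2
    · exact two n (n - 1) (by omega) (by omega) le_rfl (by omega) (by omega) hn
        (caseA h hm h1 h2 (by omega))
    · exact two n 2 (by omega) (by omega) le_rfl (by omega) (by omega) hn h2
  · by_cases h2 : Has G 2
    · by_cases h3 : Has G 3
      · exact two 1 n (by omega) le_rfl (by omega) (by omega) le_rfl h1 (caseB h hm h2 h3)
      · exact two 1 3 (by omega) le_rfl (by omega) (by omega) (by omega) h1 h3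
    · exact two 1 2 (by omega) le_rfl (by omega) (by omega) (by omega) h1 h2

end Pool.Agent.H13.IntDist
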