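import Mathlib

set_option autoImplicit false
open MeasureTheory Set

namespace Pool.Agent.H13.Kano

def cx : Fin 4 → ℕ := ![0, 1, 2, 3]
def cy : Fin 4 → ℕ := ![0, 2, 1, 3]

def sq (i : Fin 4) : Set (ℝ × ℝ) :=
  Ioo (cx i : ℝ) (cx i + 1) ×ˢ Ioo (cy i : ℝ) (cy i + 1)

theorem sq_meas (i : Fin 4) : MeasurableSet (sq i) := measurableSet_Ioo.prod measurableSet_Ioo

theorem sq_vol (i : Fin 4) : volume (sq i) = 1 := by
  unfold sq
  rw [Measure.volume_eq_prod, Measure.prod_prod]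
  simp

noncomputable def mu (i : Fin 4) : Measure (ℝ × ℝ) := volume.restrict (sq i)

theorem mu_univ (i : Fin 4) : mu i univ = 1 := by
  unfold mu
  rw [Measure.restrict_apply_univ, sq_vol]

theorem mu_fin (i : Fin 4) : IsFiniteMeasure (mu i) := ⟨by rw [mu_univ]; simp⟩

theorem mu_ac (i : Fin 4) : mu i ≪ volume := Measure.absolutelyContinuous_restrict

theorem meets (i : Fin 4) (U : Set (ℝ × ℝ)) (hU : IsOpen U) (h : mu i U = mu i univ / 2) :
    ∃ p ∈ sq i, p ∈ frontier U := by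
  by_contra hc
  push Not at hc
  have hp : IsPreconnected (sq i) := isPreconnected_Ioo.prod isPreconnected_Ioo
  rw [mu_univ] at h
  unfold mu at h
  rw [Measure.restrict_apply' (sq_meas i)] at h
  have hsub : sq i ⊆ U ∪ (closure U)ᶜ := by
    intro p hp
    by_cases h1 : p ∈ U
    · exact Or.inl h1
    · right
      intro h2
      apply hc p hp
      rw [hU.frontier_eq]
      exact ⟨h2, h1⟩
  have hd : Disjoint U (closure U)ᶜ := disjoint_compl_right_iff_subset.mpr subset_closure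
  rcases hp.subset_or_subset hU isClosed_closure.isOpen_compl hd hsub with h1 | h1
  · rw [inter_eq_right.mpr h1, sq_vol] at h
    have := congrArg ENNReal.toReal h
    norm_num at this
  · have : U ∩ sq i = ∅ := by
      rw [eq_empty_iff_forall_notMem]
      rintro p ⟨h2, h3⟩
      exact h1 h3 (subset_closure h2)
    rw [this, measure_empty] at h
    have := congrArg ENNReal.toReal h
    norm_num at this

def Btw (a b c : ℝ) : Prop := (a < b ∧ b < c) ∨ (c < b ∧ b < a)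

theorem btw_of (g : ℝ → ℝ) (hg : Continuous g) (u t w : ℝ) (h1 : u < t) (h2 : t < w)
    (hi : InjOn g (Icc u w)) : Btw (g u) (g t) (g w) := by
  have huw : u ≤ w := (h1.trans h2).le
  have mu : u ∈ Icc u w := ⟨le_rfl, huw⟩
  have mt : t ∈ Icc u w := ⟨h1.le, h2.le⟩
  have mw : w ∈ Icc u w := ⟨huw, le_rfl⟩
  rcases hg.continuousOn.strictMonoOn_of_injOn_Icc' huw hi with h | h
  · exact Or.inl ⟨h mu mt h1, h mt mw h2⟩
  · exact Or.inr ⟨h mt mw h2, h mu mt h1⟩

theorem piece (f : ℝ → ℝ × ℝ) (hf : Continuous f) (hi : Function.Injective f) (u t w : ℝ)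
    (h1 : u < t) (h2 : t < w)
    (h : ∀ x ∈ Icc u w, ∀ y ∈ Icc u w, (f x).1 = (f y).1 ∨ (f x).2 = (f y).2) :
    ((f u).1 = (f t).1 ∧ (f w).1 = (f t).1 ∧ Btw (f u).2 (f t).2 (f w).2) ∨
    ((f u).2 = (f t).2 ∧ (f w).2 = (f t).2 ∧ Btw (f u).1 (f t).1 (f w).1) := by
  have huw : u ≤ w := (h1.trans h2).le
  have mu : u ∈ Icc u w := ⟨le_rfl, huw⟩
  have mt : t ∈ Icc u w := ⟨h1.le, h2.le⟩
  have mw : w ∈ Icc u w := ⟨huw, le_rfl⟩
  by_cases hall : ∀ x ∈ Icc u w, (f x).1 = (f t).1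
  · left
    refine ⟨hall u mu, hall w mw, btw_of (fun x => (f x).2) (by fun_prop) u t w h1 h2 ?_⟩
    intro x hx y hy hxy
    exact hi (Prod.ext (by rw [hall x hx, hall y hy]) hxy)
  · right
    push Not at hall
    obtain ⟨q, hq, hne⟩ := hall
    have hq2 : (f q).2 = (f t).2 := (h q hq t mt).resolve_left hne
    have hall2 : ∀ x ∈ Icc u w, (f x).2 = (f t).2 := by
      intro x hx
      by_contra hx2
      have e1 := (h x hx t mt).resolve_right hx2
      have e2 := (h x hx q hq).resolve_right (by rw [hq2]; exact hx2)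
      exact hne (by rw [← e2, e1])
    refine ⟨hall2 u mu, hall2 w mw, btw_of (fun x => (f x).1) (by fun_prop) u t w h1 h2 ?_⟩
    intro x hx y hy hxy
    exact hi (Prod.ext hxy (by rw [hall2 x hx, hall2 y hy]))

theorem lt_of (m n : ℕ) (x y : ℝ) (hx : x ∈ Ioo (m : ℝ) (m + 1)) (hy : y ∈ Ioo (n : ℝ) (n + 1))
    (h : x ≤ y) : m ≤ n := by
  have : (m : ℝ) < n + 1 := by linarith [hx.1, hy.2]
  have : m < n + 1 := by exact_mod_cast this
  omega

def NB (a b c : ℕ) : Prop := (a ≤ b ∧ b ≤ c) ∨ (c ≤ b ∧ b ≤ a)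

instance (a b c : ℕ) : Decidable (NB a b c) := by unfold NB; infer_instance

theorem nb_of (l m n : ℕ) (x y z : ℝ) (hx : x ∈ Ioo (l : ℝ) (l + 1)) (hy : y ∈ Ioo (m : ℝ) (m + 1))
    (hz : z ∈ Ioo (n : ℝ) (n + 1)) (h : Btw x y z) : NB l m n := by
  rcases h with ⟨h1, h2⟩ | ⟨h1, h2⟩
  · exact Or.inl ⟨lt_of _ _ _ _ hx hy h1.le, lt_of _ _ _ _ hy hz h2.le⟩
  · exact Or.inr ⟨lt_of _ _ _ _ hz hy h1.le, lt_of _ _ _ _ hy hx h2.le⟩

theorem comb : ∀ a b c d : Fin 4, a ≠ b → a ≠ c → a ≠ d → b ≠ c → b ≠ d → c ≠ d →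
    ¬ (NB (cy a) (cy b) (cy c) ∧ NB (cx b) (cx c) (cx d)) ∧
    ¬ (NB (cx a) (cx b) (cx c) ∧ NB (cy b) (cy c) (cy d)) := by decide

theorem cinj : ∀ a b : Fin 4, a ≠ b → cx a ≠ cx b ∧ cy a ≠ cy b := by decide

theorem apart (a b : Fin 4) (hab : a ≠ b) (p q : ℝ × ℝ) (hp : p ∈ sq a) (hq : q ∈ sq b) :
    p.1 ≠ q.1 ∧ p.2 ≠ q.2 := by
  constructor
  · intro h
    exact (cinj a b hab).1 (le_antisymm (lt_of _ _ _ _ hp.1 hq.1 h.le) (lt_of _ _ _ _ hq.1 hp.1 h.ge))
  · intro h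
    exact (cinj a b hab).2 (le_antisymm (lt_of _ _ _ _ hp.2 hq.2 h.le) (lt_of _ _ _ _ hq.2 hp.2 h.ge))

theorem core (f : ℝ → ℝ × ℝ) (hf : Continuous f) (hi : Function.Injective f) (s : Finset ℝ)
    (hs : s.card ≤ 3)
    (h : ∀ x y : ℝ, (∀ z ∈ s, z ∉ Set.Ioo (min x y) (max x y)) →
      (f x).1 = (f y).1 ∨ (f x).2 = (f y).2)
    (t : Fin 4 → ℝ) (ht : ∀ i, f (t i) ∈ sq i) (a b c d : Fin 4)
    (hab : t a < t b) (hbc : t b < t c) (hcd : t c < t d) : False := by
  classical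
  have ne : ∀ i j, t i < t j → i ≠ j := fun i j hij e => by rw [e] at hij; exact lt_irrefl _ hij
  have gap : ∀ i j, t i < t j → ∃ z ∈ s, t i < z ∧ z < t j := by
    intro i j hij
    by_contra hc
    push Not at hc
    have := h (t i) (t j) (by
      intro z hz hm
      rw [min_eq_left hij.le, max_eq_right hij.le] at hm
      exact absurd hm.2 (not_lt.mpr (hc z hz hm.1)))
    have ap := apart i j (ne i j hij) _ _ (ht i) (ht j)
    tauto
  obtain ⟨z1, m1, a1, b1⟩ := gap a b hab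
  obtain ⟨z2, m2, a2, b2⟩ := gap b c hbc
  obtain ⟨z3, m3, a3, b3⟩ := gap c d hcd
  have h12 : z1 < z2 := b1.trans a2
  have h23 : z2 < z3 := b2.trans a3
  have hsub : ({z1, z2, z3} : Finset ℝ) ⊆ s := by
    intro z hz
    simp only [Finset.mem_insert, Finset.mem_singleton] at hz
    rcases hz with rfl | rfl | rfl <;> assumption
  have hcard : ({z1, z2, z3} : Finset ℝ).card = 3 :=
    Finset.card_eq_three.mpr ⟨z1, z2, z3, h12.ne, (h12.trans h23).ne, h23.ne, rfl⟩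
  have hseq : ({z1, z2, z3} : Finset ℝ) = s := Finset.eq_of_subset_of_card_le hsub (by omega)
  have mem : ∀ z ∈ s, z = z1 ∨ z = z2 ∨ z = z3 := by
    intro z hz
    rw [← hseq] at hz
    simpa using hz
  have gen : ∀ u w : ℝ, (∀ z ∈ s, z ≤ u ∨ w ≤ z) →
      ∀ x ∈ Icc u w, ∀ y ∈ Icc u w, (f x).1 = (f y).1 ∨ (f x).2 = (f y).2 := by
    intro u w hz x hx y hy
    apply h
    intro z hzs hm
    have l1 : u ≤ min x y := le_min hx.1 hy.1
    have l2 : max x y ≤ w := max_le hx.2 hy.2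
    rcases hz z hzs with e | e
    · linarith [hm.1]
    · linarith [hm.2]
  have pA := gen (t a) z1 (by
    intro z hz; rcases mem z hz with rfl | rfl | rfl <;> right <;> linarith)
    (t a) ⟨le_rfl, a1.le⟩ z1 ⟨a1.le, le_rfl⟩
  have pD := gen z3 (t d) (by
    intro z hz; rcases mem z hz with rfl | rfl | rfl <;> left <;> linarith)
    (t d) ⟨b3.le, le_rfl⟩ z3 ⟨le_rfl, b3.le⟩
  have pB := piece f hf hi z1 (t b) z2 b1 a2 (gen z1 z2 (by
    intro z hz
    rcases mem z hz with rfl | rfl | rfl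
    · left; exact le_rfl
    · right; exact le_rfl
    · right; exact h23.le))
  have pC := piece f hf hi z2 (t c) z3 b2 a3 (gen z2 z3 (by
    intro z hz
    rcases mem z hz with rfl | rfl | rfl
    · left; exact h12.le
    · left; exact le_rfl
    · right; exact le_rfl))
  have nab := ne a b hab
  have nbc := ne b c hbc
  have ncd := ne c d hcd
  have AB := apart a b nab _ _ (ht a) (ht b)
  have BC := apart b c nbc _ _ (ht b) (ht c)
  have CD := apart c d ncd _ _ (ht c) (ht d)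
  have cb := comb a b c d nab (ne a c (hab.trans hbc)) (ne a d ((hab.trans hbc).trans hcd)) nbc
    (ne b d (hbc.trans hcd)) ncd
  rcases pB with ⟨e1, e2, e3⟩ | ⟨e1, e2, e3⟩
  · rcases pC with ⟨g1, g2, g3⟩ | ⟨g1, g2, g3⟩
    · exact BC.1 (by rw [← e2, g1])
    · have k1 : (f (t a)).2 = (f z1).2 := pA.resolve_left (by rw [e1]; exact AB.1)
      have k2 : (f (t d)).1 = (f z3).1 := pD.resolve_right (by rw [g2]; exact CD.2.symm)
      rw [← k1, g1] at e3
      rw [e2, ← k2] at g3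
      exact cb.1 ⟨nb_of _ _ _ _ _ _ (ht a).2 (ht b).2 (ht c).2 e3,
        nb_of _ _ _ _ _ _ (ht b).1 (ht c).1 (ht d).1 g3⟩
  · rcases pC with ⟨g1, g2, g3⟩ | ⟨g1, g2, g3⟩
    · have k1 : (f (t a)).1 = (f z1).1 := pA.resolve_right (by rw [e1]; exact AB.2)
      have k2 : (f (t d)).2 = (f z3).2 := pD.resolve_left (by rw [g2]; exact CD.1.symm)
      rw [← k1, g1] at e3
      rw [e2, ← k2] at g3
      exact cb.2 ⟨nb_of _ _ _ _ _ _ (ht a).1 (ht b).1 (ht c).1 e3,
        nb_of _ _ _ _ _ _ (ht b).2 (ht c).2 (ht d).2 g3⟩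
    · exact BC.2 (by rw [← e2, g1])

theorem main (f : ℝ → ℝ × ℝ) (hf : Continuous f) (hi : Function.Injective f) (s : Finset ℝ)
    (hs : s.card ≤ 3)
    (h : ∀ x y : ℝ, (∀ z ∈ s, z ∉ Set.Ioo (min x y) (max x y)) →
      (f x).1 = (f y).1 ∨ (f x).2 = (f y).2)
    (U : Set (ℝ × ℝ)) (hU : IsOpen U) (hfr : frontier U = Set.range f)
    (hm : ∀ i, mu i U = mu i univ / 2) : False := by
  have : ∀ i, ∃ t, f t ∈ sq i := by
    intro i
    obtain ⟨p, hp, hq⟩ := meets i U hU (hm i)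
    rw [hfr] at hq
    obtain ⟨t, rfl⟩ := hq
    exact ⟨t, hp⟩
  choose t ht using this
  have tinj : Function.Injective t := by
    intro i j e
    by_contra hne
    exact (apart i j hne _ _ (ht i) (ht j)).1 (by rw [e])
  have hmono : StrictMono (t ∘ Tuple.sort t) :=
    (Tuple.monotone_sort t).strictMono_of_injective (tinj.comp (Tuple.sort t).injective)
  exact core f hf hi s hs h t ht (Tuple.sort t 0) (Tuple.sort t 1) (Tuple.sort t 2) (Tuple.sort t 3)
    (hmono (by decide : (0 : Fin 4) < 1)) (hmono (by decide : (1 : Fin 4) < 2))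
    (hmono (by decide : (2 : Fin 4) < 3))

end Pool.Agent.H13.Kano
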