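import Mathlib

set_option autoImplicit false
open Filter

namespace Pool.Agent.H13.Ldim

noncomputable def F : ℕ → Ultrafilter (List ℕ)
  | 0 => pure []
  | k + 1 => (hyperfilter ℕ).bind fun n => (F k).map (n :: ·)

theorem ev_zero (p : List ℕ → Prop) : (∀ᶠ a in (F 0 : Filter (List ℕ)), p a) ↔ p [] := Iff.rfl

theorem ev_succ (k : ℕ) (p : List ℕ → Prop) :
    (∀ᶠ a in (F (k + 1) : Filter (List ℕ)), p a) ↔
      ∀ᶠ n in (hyperfilter ℕ : Filter ℕ), ∀ᶠ a in (F k : Filter (List ℕ)), p (n :: a) := Iff.rfl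

theorem ev_add (j k : ℕ) (p : List ℕ → Prop) :
    (∀ᶠ a in (F (j + k) : Filter (List ℕ)), p a) ↔
      ∀ᶠ r in (F j : Filter (List ℕ)), ∀ᶠ a in (F k : Filter (List ℕ)), p (r ++ a) := by
  induction j generalizing p with
  | zero => rw [ev_zero, Nat.zero_add]; rfl
  | succ j ih =>
    rw [show j + 1 + k = (j + k) + 1 by omega, ev_succ, ev_succ]
    simp only [ih, List.cons_append]

theorem ev_len (k : ℕ) : ∀ᶠ a in (F k : Filter (List ℕ)), a.length = k := by
  induction k with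
  | zero => rw [ev_zero]; rfl
  | succ k ih =>
    rw [ev_succ]
    exact Eventually.of_forall fun n => ih.mono fun a ha => by simp [ha]

theorem ev_head (k c : ℕ) (hk : 0 < k) : ∀ᶠ a in (F k : Filter (List ℕ)), c < a.getD 0 0 := by
  obtain ⟨k, rfl⟩ : ∃ j, k = j + 1 := ⟨k - 1, by omega⟩
  rw [ev_succ]
  have : ∀ᶠ n in (hyperfilter ℕ : Filter ℕ), c < n :=
    Nat.hyperfilter_le_atTop (eventually_gt_atTop c)
  exact this.mono fun n hn => Eventually.of_forall fun a => by simpa using hn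

def Dl (m : ℕ) (a b : ℕ → ℕ) : Prop := ∃ i, i < m ∧ (∀ j, j < i → a j = b j) ∧ a i < b i

def Rel (w s : ℕ) (a : ℕ → ℕ) (s' : ℕ) (b : ℕ → ℕ) : Prop :=
  (s = s' ∧ Dl w a b) ∨ (s < s' ∧ (s + w ≤ s' ∨ Dl (s' - s) a b))

theorem Dl.trans' {m k : ℕ} {a b c : ℕ → ℕ} (h1 : Dl m a b) (h2 : Dl k b c) :
    Dl (min m k) a c := by
  obtain ⟨i, hi, e1, l1⟩ := h1
  obtain ⟨j, hj, e2, l2⟩ := h2
  rcases lt_trichotomy i j with h | h | h
  · by_cases hik : i < k
    · exact ⟨i, lt_min hi hik, fun x hx => (e1 x hx).trans (e2 x (hx.trans h)), e2 i h ▸ l1⟩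
    · omega
  · subst h
    exact ⟨i, lt_min hi hj, fun x hx => (e1 x hx).trans (e2 x hx), l1.trans l2⟩
  · exact ⟨j, lt_min (h.trans hi) hj, fun x hx => (e1 x (hx.trans h)).trans (e2 x hx),
      (e1 j h).symm ▸ l2⟩

theorem Dl.mono {m k : ℕ} {a b : ℕ → ℕ} (h : Dl m a b) (hmk : m ≤ k) : Dl k a b := by
  obtain ⟨i, hi, e⟩ := h
  exact ⟨i, hi.trans_le hmk, e⟩

theorem Dl.irrefl (m : ℕ) (a : ℕ → ℕ) : ¬ Dl m a a := fun ⟨_, _, _, h⟩ => lt_irrefl _ h

theorem Rel.trans' {w s s' s'' : ℕ} {a b c : ℕ → ℕ} (h1 : Rel w s a s' b) (h2 : Rel w s' b s'' c) :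
    Rel w s a s'' c := by
  rcases h1 with ⟨e1, d1⟩ | ⟨l1, d1⟩ <;> rcases h2 with ⟨e2, d2⟩ | ⟨l2, d2⟩
  · exact Or.inl ⟨e1.trans e2, (d1.trans' d2).mono (min_le_left _ _)⟩
  · subst e1
    exact Or.inr ⟨l2, d2.imp id fun d2 => (d1.trans' d2).mono (min_le_right _ _)⟩
  · subst e2
    exact Or.inr ⟨l1, d1.imp id fun d1 => (d1.trans' d2).mono (min_le_left _ _)⟩
  · refine Or.inr ⟨l1.trans l2, ?_⟩
    rcases d1 with d1 | d1
    · exact Or.inl (by omega)
    · rcases d2 with d2 | d2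
      · exact Or.inl (by omega)
      · exact Or.inr ((d1.trans' d2).mono (by omega))

theorem Rel.irrefl (w s : ℕ) (a : ℕ → ℕ) : ¬ Rel w s a s a := by
  rintro (⟨_, h⟩ | ⟨h, _⟩)
  · exact Dl.irrefl _ _ h
  · exact lt_irrefl _ h

def fn (a : List ℕ) : ℕ → ℕ := fun i => a.getD i 0

def Cross (m i j : ℕ) : Prop := i = j ∨ i + m < j

theorem rel_cross {w m i j : ℕ} (hc : Cross m i j) (hm : m < w) {r a b : List ℕ}
    (hr : r.length = m) (hab : a.getD 0 0 < b.getD 0 0) :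
    Rel w i (fn (r ++ a)) j (fn (r ++ b)) := by
  have key : ∀ k, m < k → Dl k (fn (r ++ a)) (fn (r ++ b)) := by
    intro k hk
    refine ⟨m, hk, fun x hx => ?_, ?_⟩
    · simp only [fn]
      rw [List.getD_append _ _ _ _ (by omega), List.getD_append _ _ _ _ (by omega)]
    · simp only [fn]
      rw [List.getD_append_right _ _ _ _ (by omega), List.getD_append_right _ _ _ _ (by omega)]
      simpa [hr] using hab
  rcases hc with h | h
  · exact Or.inl ⟨h, key w hm⟩
  · exact Or.inr ⟨by omega, Or.inr (key _ (by omega))⟩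

section Core
variable {Λ : Type} {t w n : ℕ} (cls : ℕ → Fin t → List ℕ → Λ)
  (ord : Λ → ℕ → List ℕ → ℕ → List ℕ → Prop)

def St (w : ℕ) (c : Λ) (s : ℕ) (α : Fin t) (r : List ℕ) (m : ℕ) : Prop :=
  ∀ᶠ a in (F (w - m) : Filter (List ℕ)), cls s α (r ++ a) = c

def Link (w m s : ℕ) (α : Fin t) (s' : ℕ) (β : Fin t) : Prop :=
  ∀ᶠ r in (F m : Filter (List ℕ)), ∃ c, St cls w c s α r m ∧ St cls w c s' β r m

def Arc (w d s : ℕ) (α : Fin t) (s' : ℕ) (β : Fin t) : Prop :=
  ∀ᶠ r in (F d : Filter (List ℕ)), ∀ᶠ a in (F (w - d) : Filter (List ℕ)),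
    ∀ᶠ b in (F (w - d) : Filter (List ℕ)),
      cls s α (r ++ a) = cls s' β (r ++ b) ∧ ord (cls s α (r ++ a)) s' (r ++ b) s (r ++ a)

variable {cls ord}

theorem Arc.link {d s s' : ℕ} {α β : Fin t} (h : Arc cls ord w d s α s' β) :
    Link cls w d s α s' β := by
  refine h.mono fun r hr => ?_
  obtain ⟨a0, h0⟩ := hr.exists
  refine ⟨cls s α (r ++ a0), hr.mono fun a ha => ?_, h0.mono fun b hb => hb.1.symm⟩
  obtain ⟨b, h1, h2⟩ := (ha.and h0).exists
  exact h1.1.trans h2.1.symm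

theorem Link.symm {m s s' : ℕ} {α β : Fin t} (h : Link cls w m s α s' β) :
    Link cls w m s' β s α := h.mono fun _ ⟨c, h1, h2⟩ => ⟨c, h2, h1⟩

theorem Link.trans {m s s' s'' : ℕ} {α β γ : Fin t} (h1 : Link cls w m s α s' β)
    (h2 : Link cls w m s' β s'' γ) : Link cls w m s α s'' γ := by
  refine (h1.and h2).mono fun r ⟨⟨c, a1, a2⟩, ⟨c', b1, b2⟩⟩ => ?_
  obtain ⟨a, e1, e2⟩ := (a2.and b1).exists
  obtain rfl : c = c' := e1.symm.trans e2
  exact ⟨c, a1, b2⟩

theorem Link.lift {m m' s s0 s' : ℕ} {α α0 β : Fin t} (h0 : Link cls w m s0 α0 s α)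
    (h : Link cls w m' s α s' β) (hm : m ≤ m') (hw : m' ≤ w) : Link cls w m s0 α0 s' β := by
  obtain ⟨e, rfl⟩ := Nat.exists_eq_add_of_le hm
  unfold Link at h
  rw [ev_add] at h
  refine (h0.and h).mono fun r ⟨⟨c, a1, a2⟩, hr⟩ => ⟨c, a1, ?_⟩
  unfold St at a2 ⊢
  rw [show w - m = e + (w - (m + e)) by omega, ev_add] at a2 ⊢
  refine (a2.and hr).mono fun q ⟨q1, c', q2, q3⟩ => ?_
  obtain ⟨a, e1, e2⟩ := (q1.and q2).exists
  rw [List.append_assoc] at e2
  obtain rfl : c = c' := e1.symm.trans e2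
  exact q3.mono fun b hb => by rw [← List.append_assoc]; exact hb

theorem conflict
    (htr : ∀ c s a s' b s'' e, ord c s a s' b → ord c s' b s'' e → ord c s a s'' e)
    (hirr : ∀ c s a, ¬ ord c s a s a)
    (hext : ∀ s α a s' β b, s < n → s' < n → cls s α a = cls s' β b →
      Rel w s (fn a) s' (fn b) → ord (cls s α a) s a s' b)
    {d1 d2 i1 j1 i2 j2 : ℕ} {α1 β1 α2 β2 : Fin t} (h1 : Arc cls ord w d1 i1 α1 j1 β1)
    (h2 : Arc cls ord w d2 i2 α2 j2 β2) (hd : d1 ≤ d2) (hw : d2 < w)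
    (hl : Link cls w d1 i1 α1 i2 α2) (c1 : Cross d1 i1 j2) (c2 : Cross d1 i2 j1)
    (b1 : i1 < n) (b2 : j1 < n) (b3 : i2 < n) (b4 : j2 < n) : False := by
  obtain ⟨e, rfl⟩ := Nat.exists_eq_add_of_le hd
  unfold Arc at h2
  rw [ev_add] at h2
  obtain ⟨r, ⟨⟨hr1, hr2⟩, c, s1, s2⟩, hlen⟩ := (((h1.and h2).and hl).and (ev_len d1)).exists
  obtain ⟨a1, ha1, ca1⟩ := (hr1.and s1).exists
  have hh := ev_head (w - d1) (a1.getD 0 0) (by omega)
  unfold St at s2
  rw [show w - d1 = e + (w - (d1 + e)) by omega, ev_add] at s2 hh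
  obtain ⟨q, ⟨q1, q2⟩, q3⟩ := ((hr2.and s2).and hh).exists
  obtain ⟨a2, ha2, ca2⟩ := (q1.and q2).exists
  obtain ⟨y2, ⟨e2, o2⟩, hy2⟩ := (ha2.and q3).exists
  obtain ⟨y1, ⟨e1, o1⟩, hy1⟩ :=
    (ha1.and (ev_head (w - d1) ((q ++ a2).getD 0 0) (by omega))).exists
  simp only [List.append_assoc] at e2 o2
  have r1 := hext i1 α1 _ j2 β2 _ b1 b4 (ca1.trans (ca2.symm.trans e2))
    (rel_cross c1 (by omega) hlen hy2)
  have r2 := hext i2 α2 _ j1 β1 _ b3 b2 (ca2.trans (ca1.symm.trans e1))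
    (rel_cross c2 (by omega) hlen hy1)
  rw [ca1] at r1 o1
  rw [ca2] at r2 o2
  exact hirr _ _ _ (htr _ _ _ _ _ _ _ (htr _ _ _ _ _ _ _ (htr _ _ _ _ _ _ _ o1 r1) o2) r2)

theorem exists_arc {d s s' : ℕ}
    (h : ∀ᶠ r in (F d : Filter (List ℕ)), ∀ᶠ a in (F (w - d) : Filter (List ℕ)),
      ∀ᶠ b in (F (w - d) : Filter (List ℕ)), ∃ p : Fin t × Fin t,
      cls s p.1 (r ++ a) = cls s' p.2 (r ++ b) ∧ ord (cls s p.1 (r ++ a)) s' (r ++ b) s (r ++ a)) :
    ∃ p : Fin t × Fin t, Arc cls ord w d s p.1 s' p.2 := by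
  simp only [Ultrafilter.eventually_exists_iff] at h
  exact h

theorem count (t : ℕ) (α β : ℕ → ℕ → Fin t) (γ : ℕ → Fin t) (m : ℕ) (hm : m = t * t + 1)
    (hA : ∀ u d d', u + d < m → 1 ≤ d → d ≤ t → 1 ≤ d' → d' ≤ t → β u d ≠ α (u + d) d')
    (hB : ∀ v d d' u e, u < m → v < u → u + e = v + d → 1 ≤ e → d < d' → d' ≤ t →
      α v d' = α v d → β v d ≠ β u e)
    (hC : ∀ v d, v < m → 1 ≤ d → d ≤ t → γ v ≠ α v d)
    (hD : ∀ u d d', u + d < m → 1 ≤ d → d < d' → d' ≤ t → α u d' = α u d → γ (u + d) ≠ β u d) :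
    False := by
  classical
  let Φ : ℕ × ℕ → ℕ × Fin t := fun x =>
    if x.2 = 0 then (x.1, γ x.1)
    else if ∃ d', x.2 < d' ∧ d' ≤ t ∧ α x.1 d' = α x.1 x.2 then (x.1 + x.2, β x.1 x.2)
    else (x.1, α x.1 x.2)
  have hc := Finset.card_le_card_of_injOn (s := Finset.range m ×ˢ Finset.range (t + 1))
    (t := Finset.range (m + t) ×ˢ (Finset.univ : Finset (Fin t))) Φ ?_ ?_
  · simp only [Finset.card_product, Finset.card_range, Finset.card_univ, Fintype.card_fin] at hc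
    nlinarith
  · rintro ⟨v, d⟩ hx
    simp only [Finset.coe_product, Set.mem_prod, Finset.mem_coe, Finset.mem_range] at hx
    simp only [Φ, Finset.coe_product, Set.mem_prod, Finset.mem_coe, Finset.mem_range,
      Finset.mem_univ, and_true]
    split_ifs <;> simp only <;> omega
  · rintro ⟨v, d⟩ hx ⟨u, e⟩ hy h
    simp only [Finset.coe_product, Set.mem_prod, Finset.mem_coe, Finset.mem_range] at hx hy
    simp only [Φ] at h
    split_ifs at h with h1 h2 h3 h4 h5 h6 h7 h8 <;> simp only [Prod.mk.injEq] at h ⊢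
    · exact ⟨h.1, by omega⟩
    · obtain ⟨d', a1, a2, a3⟩ := h3
      obtain ⟨rfl, h⟩ := h
      exact absurd h (hD u e d' hx.1 (by omega) a1 a2 a3)
    · obtain ⟨rfl, h⟩ := h
      exact absurd h (hC v e hx.1 (by omega) (by omega))
    · obtain ⟨d', a1, a2, a3⟩ := h4
      obtain ⟨rfl, h⟩ := h
      exact absurd h.symm (hD v d d' hy.1 (by omega) a1 a2 a3)
    · obtain ⟨d', a1, a2, a3⟩ := h4
      obtain ⟨e', b1, b2, b3⟩ := h6
      rcases lt_trichotomy v u with l | l | l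
      · exact absurd h.2 (hB v d d' u e hy.1 l h.1.symm (by omega) a1 a2 a3)
      · exact ⟨l, by omega⟩
      · exact absurd h.2.symm (hB u e e' v d hx.1 l h.1 (by omega) b1 b2 b3)
    · obtain ⟨rfl, h⟩ := h
      exact absurd h (hA v d e hy.1 (by omega) (by omega) (by omega) (by omega))
    · obtain ⟨rfl, h⟩ := h
      exact absurd h.symm (hC v d hx.1 (by omega) (by omega))
    · obtain ⟨rfl, h⟩ := h
      exact absurd h.symm (hA u e d hx.1 (by omega) (by omega) (by omega) (by omega))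
    · obtain ⟨rfl, h⟩ := h
      refine ⟨rfl, ?_⟩
      rcases lt_trichotomy d e with l | l | l
      · exact absurd ⟨e, l, by omega, h.symm⟩ h4
      · exact l
      · exact absurd ⟨d, l, by omega, h⟩ h8

theorem core (hw : w = t + 1) (ht : 1 ≤ t) (hn : n = t * t + 1 + t)
    (htr : ∀ c s a s' b s'' e, ord c s a s' b → ord c s' b s'' e → ord c s a s'' e)
    (hirr : ∀ c s a, ¬ ord c s a s a)
    (hext : ∀ s α a s' β b, s < n → s' < n → cls s α a = cls s' β b →
      Rel w s (fn a) s' (fn b) → ord (cls s α a) s a s' b)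
    (hrev : ∀ s a s' b, s < n → s' < n → s ≠ s' → ¬ Rel w s (fn a) s' (fn b) →
      ¬ Rel w s' (fn b) s (fn a) →
      ∃ p : Fin t × Fin t, cls s p.1 a = cls s' p.2 b ∧ ord (cls s p.1 a) s' b s a) : False := by
  have fw : ∀ v d, ∃ p : Fin t × Fin t, v + d < n → 1 ≤ d → d ≤ t →
      Arc cls ord w d v p.1 (v + d) p.2 := by
    intro v d
    by_cases h : v + d < n ∧ 1 ≤ d ∧ d ≤ t
    · obtain ⟨p, hp⟩ := exists_arc (cls := cls) (ord := ord) (w := w) (d := d) (s := v)
        (s' := v + d) ((ev_len d).mono fun r hr => Eventually.of_forall fun a =>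
          Eventually.of_forall fun b => hrev _ _ _ _ (by omega) h.1 (by omega) (by
            rintro (⟨e, _⟩ | ⟨_, e | ⟨i, hi, _, e⟩⟩)
            · omega
            · omega
            · simp only [fn] at e
              rw [List.getD_append _ _ _ _ (by omega), List.getD_append _ _ _ _ (by omega)] at e
              exact lt_irrefl _ e) (by
            rintro (⟨e, _⟩ | ⟨e, _⟩) <;> omega))
      exact ⟨p, fun _ _ _ => hp⟩
    · exact ⟨(⟨0, ht⟩, ⟨0, ht⟩), fun a b c => absurd ⟨a, b, c⟩ h⟩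
  have bw : ∀ v, ∃ p : Fin t × Fin t, v + 1 < n → Arc cls ord w 0 (v + 1) p.1 v p.2 := by
    intro v
    by_cases h : v + 1 < n
    · obtain ⟨p, hp⟩ := exists_arc (cls := cls) (ord := ord) (w := w) (d := 0) (s := v + 1)
        (s' := v) ((ev_len 0).mono fun r hr => Eventually.of_forall fun a =>
          (ev_head (w - 0) (a.getD 0 0) (by omega)).mono fun b hb =>
            hrev _ _ _ _ h (by omega) (by omega) (by
            rintro (⟨e, _⟩ | ⟨e, _⟩) <;> omega) (by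
            rw [List.length_eq_zero_iff.1 hr]
            rintro (⟨e, _⟩ | ⟨_, e | ⟨i, hi, _, e⟩⟩)
            · omega
            · omega
            · obtain rfl : i = 0 := by omega
              simp only [fn, List.nil_append] at e
              omega))
      exact ⟨p, fun _ => hp⟩
    · exact ⟨(⟨0, ht⟩, ⟨0, ht⟩), fun a => absurd a h⟩
  choose f hf using fw
  choose g hg using bw
  have cf := @conflict Λ t w n cls ord htr hirr hext
  refine count t (fun v d => (f v d).1) (fun v d => (f v d).2) (fun v => (g v).2) _ rfl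
    ?_ ?_ ?_ ?_
  · intro u d d' b1 b2 b3 b4 b5 h
    have a1 := hf u d (by omega) b2 b3
    have a2 := hf (u + d) d' (by omega) b4 b5
    have l1 := a1.link
    rw [h] at l1
    rcases le_total d d' with l | l
    · exact cf a1 a2 l (by omega) l1 (Or.inr (by omega)) (Or.inl rfl) (by omega) (by omega)
        (by omega) (by omega)
    · exact cf a2 a1 l (by omega) (a2.link.trans (a2.link.symm.lift l1.symm l (by omega)))
        (Or.inl rfl) (Or.inr (by omega)) (by omega) (by omega) (by omega) (by omega)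
  · intro v d d' u e b1 b2 b3 b4 b5 b6 h1 h2
    have a1 := hf v d' (by omega) (by omega) b6
    have a2 := hf v d (by omega) (by omega) (by omega)
    have a3 := hf u e (by omega) b4 (by omega)
    have l2 := a2.link.symm
    rw [h2, ← h1, ← b3] at l2
    exact cf a3 a1 (by omega) (by omega) (a3.link.lift l2 (by omega) (by omega))
      (Or.inr (by omega)) (Or.inr (by omega)) (by omega) (by omega) (by omega) (by omega)
  · intro v d b1 b2 b3 h
    have a1 := hg v (by omega)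
    have a2 := hf v d (by omega) b2 b3
    have l1 := a1.link
    rw [h] at l1
    exact cf a1 a2 (by omega) (by omega) l1 (by unfold Cross; omega) (Or.inl rfl) (by omega)
      (by omega) (by omega) (by omega)
  · intro u d d' b1 b2 b3 b4 h1 h2
    have a1 := hg (u + d) (by omega)
    have a2 := hf u d (by omega) b2 (by omega)
    have a3 := hf u d' (by omega) (by omega) b4
    have l2 := a2.link.symm
    rw [← h2, ← h1] at l2
    exact cf a1 a3 (by omega) (by omega) (a1.link.lift l2 (by omega) (by omega))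
      (by unfold Cross; omega) (Or.inr (by omega)) (by omega) (by omega) (by omega) (by omega)

end Core

end Pool.Agent.H13.Ldim
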