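import Pool.Agent.H13.MCfD

namespace Pool.Agent.H13.MCf
open Finset Equiv

def rel (k a b : ℕ) : Prop := a ≠ b ∧ (a + 1 = b ∨ b + 1 = a ∨ (a + 1 = k ∧ b = 0) ∨ (b + 1 = k ∧ a = 0))

def gr {V : Type} {k : ℕ} (f : V → Fin k) : SimpleGraph V where
  Adj u v := rel k (f u) (f v)
  symm := ⟨fun u v h => by unfold rel at *; omega⟩
  loopless := ⟨fun u h => h.1 rfl⟩

theorem nowalk {k j : ℕ} (hk : k % 2 = 1) (hj : k < j) (w : ℕ → ℕ) (h : ∀ t < k, rel j (w t) (w (t + 1)))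
    (e : w k = w 0) : False := by
  have : ∀ t ≤ k, ∃ z q : ℤ, -(t : ℤ) ≤ z ∧ z ≤ t ∧ z % 2 = t % 2 ∧ (w t : ℤ) - w 0 - z = j * q := by
    intro t ht
    induction t with
    | zero => exact ⟨0, 0, by simp⟩
    | succ t ih =>
      obtain ⟨z, q, h1, h2, h3, h4⟩ := ih (by omega)
      rcases (h t (by omega)).2 with a | a | a | a
      · exact ⟨z + 1, q, by omega, by omega, by omega, by omega⟩
      · exact ⟨z - 1, q, by omega, by omega, by omega, by omega⟩
      · exact ⟨z + 1, q - 1, by omega, by omega, by omega, by rw [mul_sub]; omega⟩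
      · exact ⟨z - 1, q + 1, by omega, by omega, by omega, by rw [mul_add]; omega⟩
  obtain ⟨z, q, h1, h2, h3, h4⟩ := this k le_rfl
  rw [e] at h4
  have : z = 0 := Int.eq_zero_of_abs_lt_dvd (m := j) ⟨-q, by linarith⟩ (abs_lt.2 ⟨by omega, by omega⟩)
  omega

theorem noemb {V W : Type} {k j : ℕ} (hk : k % 2 = 1) (h3 : 3 ≤ k) (hj : k < j) (f : V → Fin k)
    (hf : Function.Surjective f) (g : W → Fin j) (e : gr f ↪g gr g) : False := by
  choose r hr using hf
  have k0 : 0 < k := by omega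
  refine nowalk hk hj (fun t => g (e (r ⟨t % k, Nat.mod_lt _ k0⟩))) (fun t ht => ?_) (by simp)
  refine e.map_rel_iff.2 ?_
  show rel k (f _) (f _)
  rw [hr, hr]
  simp only [Nat.mod_eq_of_lt ht]
  by_cases h : t + 1 < k
  · rw [Nat.mod_eq_of_lt h]; unfold rel; omega
  · rw [show t + 1 = k by omega, Nat.mod_self]; unfold rel; omega

theorem twin0 {k a b : ℕ} (hk : k % 2 = 1) (h3 : 3 ≤ k) (ha : a < k) (hb : b < k)
    (h : ∀ c < k, rel k a c ↔ rel k b c) : a = b := by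
  obtain ⟨c, c1, c2⟩ : ∃ c < k, (a + 1 = k ∧ c = 0) ∨ c = a + 1 := by
    by_cases e : a + 1 = k
    · exact ⟨0, by omega, by omega⟩
    · exact ⟨a + 1, by omega, by omega⟩
  obtain ⟨d, d1, d2⟩ : ∃ d < k, (a = 0 ∧ d + 1 = k) ∨ d + 1 = a := by
    by_cases e : a = 0
    · exact ⟨k - 1, by omega, by omega⟩
    · exact ⟨a - 1, by omega, by omega⟩
  have k1 := (h c c1).1 (by unfold rel; omega)
  have k2 := (h d d1).1 (by unfold rel; omega)
  unfold rel at k1 k2
  omega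

theorem twin {V : Type} {k : ℕ} (hk : k % 2 = 1) (h3 : 3 ≤ k) (f g : V → Fin k) (hf : Function.Surjective f)
    (e : gr f = gr g) {u v : V} (h : g u = g v) : f u = f v := by
  have key : ∀ c : Fin k, rel k (f u) c ↔ rel k (f v) c := by
    intro c
    obtain ⟨x, rfl⟩ := hf c
    show (gr f).Adj u x ↔ (gr f).Adj v x
    rw [e]
    show rel k (g u) (g x) ↔ rel k (g v) (g x)
    rw [h]
  exact Fin.ext (twin0 hk h3 (f u).2 (f v).2 fun c hc => key ⟨c, hc⟩)

theorem geom (k : ℕ) : ∑ i ∈ range k, 2 ^ i = 2 ^ k - 1 := by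
  induction k with
  | zero => simp
  | succ k ih => rw [sum_range_succ, ih, pow_succ]; have := Nat.one_le_two_pow (n := k); omega

theorem ex_f (k : ℕ) : ∃ f : Fin (2 ^ k - 1) → Fin k, ∀ i, Fintype.card {a // f a = i} = 2 ^ (i : ℕ) := by
  have hc : Fintype.card (Σ i : Fin k, Fin (2 ^ (i : ℕ))) = 2 ^ k - 1 := by
    rw [Fintype.card_sigma, ← geom, ← Fin.sum_univ_eq_sum_range (fun i => 2 ^ i)]; simp
  let e := (Fintype.equivFinOfCardEq hc).symm
  refine ⟨fun v => (e v).1, fun i => ?_⟩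
  rw [Fintype.card_congr ((e.subtypeEquiv (q := fun s => s.1 = i) fun _ => Iff.rfl).trans (Equiv.sigmaSubtype i))]
  simp

theorem choose_odd (m j : ℕ) (h : j < 2 ^ m) : (2 ^ m - 1).choose j % 2 = 1 := by
  induction j with
  | zero => simp
  | succ j ih =>
    have h1 := Nat.prime_two.dvd_choose_pow (n := m) (k := j + 1) (by omega) (by omega)
    have h2 := Nat.choose_succ_succ' (2 ^ m - 1) j
    rw [show 2 ^ m - 1 + 1 = 2 ^ m by omega] at h2
    have := ih (by omega)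
    omega

theorem fact_odd (k : ℕ) : ∃ c, c % 2 = 1 ∧ (2 ^ k - 1).factorial = c * ∏ i ∈ range k, (2 ^ i).factorial := by
  induction k with
  | zero => exact ⟨1, by simp⟩
  | succ k ih =>
    obtain ⟨c, h1, h2⟩ := ih
    have p := Nat.one_le_two_pow (n := k)
    have h3 := Nat.choose_mul_factorial_mul_factorial (n := 2 ^ (k + 1) - 1) (k := 2 ^ k) (by rw [pow_succ]; omega)
    rw [show 2 ^ (k + 1) - 1 - 2 ^ k = 2 ^ k - 1 by rw [pow_succ]; omega, h2] at h3
    refine ⟨(2 ^ (k + 1) - 1).choose (2 ^ k) * c, ?_, by rw [← h3, prod_range_succ]; ring⟩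
    rw [Nat.mul_mod, choose_odd _ _ (by rw [pow_succ]; omega), h1]

noncomputable def f0 (k : ℕ) : Fin (2 ^ k - 1) → Fin k := (ex_f k).choose

theorem f0_card (k : ℕ) (i : Fin k) : Fintype.card {a // f0 k a = i} = 2 ^ (i : ℕ) := (ex_f k).choose_spec i

theorem f0_surj (k : ℕ) : Function.Surjective (f0 k) := fun i => by
  have : 0 < Fintype.card {a // f0 k a = i} := by rw [f0_card]; positivity
  obtain ⟨a, ha⟩ := Fintype.card_pos_iff.1 this
  exact ⟨a, ha⟩

theorem gr_inj {k : ℕ} (hk : k % 2 = 1) (h3 : 3 ≤ k) (g h : Perm (Fin (2 ^ k - 1)))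
    (e : gr (f0 k ∘ g) = gr (f0 k ∘ h)) : f0 k ∘ g = f0 k ∘ h := by
  funext u
  have sg := (f0_surj k).comp g.surjective
  have sh := (f0_surj k).comp h.surjective
  have c : ∀ (g : Perm (Fin (2 ^ k - 1))) (i : Fin k), Fintype.card {a // (f0 k ∘ g) a = i} = 2 ^ (i : ℕ) :=
    fun g i => by rw [← f0_card]; exact Fintype.card_congr (g.subtypeEquiv fun _ => Iff.rfl)
  have : Fintype.card {a // (f0 k ∘ g) a = (f0 k ∘ g) u} = Fintype.card {a // (f0 k ∘ h) a = (f0 k ∘ h) u} :=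
    Fintype.card_congr (Equiv.subtypeEquivRight fun a => ⟨twin hk h3 _ _ sh e.symm, twin hk h3 _ _ sg e⟩)
  rw [c, c] at this
  exact Fin.ext (Nat.pow_right_injective le_rfl this)

theorem X_odd {k : ℕ} (hk : k % 2 = 1) (h3 : 3 ≤ k) :
    Set.ncard {G : SimpleGraph (Fin (2 ^ k - 1)) | ∃ g : Perm (Fin (2 ^ k - 1)), G = gr (f0 k ∘ g)} % 2 = 1 := by
  classical
  have e : {G : SimpleGraph (Fin (2 ^ k - 1)) | ∃ g : Perm (Fin (2 ^ k - 1)), G = gr (f0 k ∘ g)} =
      ↑(univ.image fun g : Perm (Fin (2 ^ k - 1)) => gr (f0 k ∘ g)) := by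
    ext G; simp [eq_comm]
  rw [e, Set.ncard_coe_finset]
  have h1 := card_eq_sum_card_image (fun g : Perm (Fin (2 ^ k - 1)) => gr (f0 k ∘ g)) univ
  have S := DomMulAct.stabilizer_card (f0 k)
  simp only [f0_card] at S
  replace S := S.trans (Fin.prod_univ_eq_prod_range (fun i : ℕ => (2 ^ i).factorial) k)
  rw [sum_congr rfl (g := fun _ => ∏ i ∈ range k, (2 ^ i).factorial)] at h1
  · obtain ⟨c, c1, c2⟩ := fact_odd k
    rw [sum_const, smul_eq_mul, card_univ, Fintype.card_perm, Fintype.card_fin, c2] at h1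
    rw [← Nat.eq_of_mul_eq_mul_right (prod_pos fun i _ => Nat.factorial_pos _) h1, c1]
  · intro G hG
    obtain ⟨h, -, rfl⟩ := mem_image.1 hG
    rw [← S, Fintype.card_subtype]
    refine card_nbij' (fun g => g * h⁻¹) (fun g => g * h) ?_ ?_ (fun g _ => by simp) (fun g _ => by simp)
    · intro g hg
      have := gr_inj hk h3 _ _ (mem_filter.1 hg).2
      refine mem_filter.2 ⟨mem_univ _, funext fun x => ?_⟩
      simpa using congrFun this (h⁻¹ x)
    · intro g hg
      refine mem_filter.2 ⟨mem_univ _, congrArg gr (funext fun x => ?_)⟩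
      simpa using congrFun (mem_filter.1 hg).2 (h x)

end Pool.Agent.H13.MCf
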