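import Pool.Agent.H13.MCf1

namespace Pool.Agent.H13.MCf
open Finset Equiv

def kk : ℕ → ℕ
  | 0 => 3
  | i + 1 => 2 ^ kk i + 1

theorem kk3 (i : ℕ) : 3 ≤ kk i ∧ kk i % 2 = 1 := by
  induction i with
  | zero => simp [kk]
  | succ i ih =>
    obtain ⟨m, hm⟩ : ∃ m, kk i = m + 1 := ⟨kk i - 1, by omega⟩
    have := Nat.one_le_two_pow (n := m)
    rw [kk, hm, pow_succ]; omega

theorem kk_mono : StrictMono kk := strictMono_nat_of_lt_succ fun i => by
  have := Nat.lt_two_pow_self (n := kk i)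
  rw [kk]; omega

theorem kk_lt {i j : ℕ} (h : i < j) : 2 ^ kk i - 1 < kk j := by
  have h1 : 2 ^ kk i + 1 ≤ kk j := kk_mono.monotone (show i + 1 ≤ j from h)
  exact lt_of_le_of_lt (Nat.sub_le _ _) h1

theorem kk_le (i : ℕ) : kk i ≤ 2 ^ kk i - 1 := by
  have := Nat.lt_two_pow_self (n := kk i); omega

def Cl (A : Set ℕ) (n : ℕ) : Set (SimpleGraph (Fin n)) :=
  {G | ∃ j, (n < kk j ∨ j ∈ A) ∧ Nonempty (G ↪g gr (f0 (kk j)))}

theorem Cl_her (A : Set ℕ) : Hereditary (Cl A) := by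
  rintro m n H G ⟨j, h1, ⟨e⟩⟩ ⟨e'⟩
  have : m ≤ n := by simpa using Fintype.card_le_of_injective _ e'.injective
  exact ⟨j, h1.imp_left fun h => by omega, ⟨e.comp e'⟩⟩

theorem emb_iff {k : ℕ} (G : SimpleGraph (Fin (2 ^ k - 1))) :
    Nonempty (G ↪g gr (f0 k)) ↔ ∃ g : Perm (Fin (2 ^ k - 1)), G = gr (f0 k ∘ g) := by
  constructor
  · rintro ⟨e⟩
    refine ⟨Equiv.ofBijective e (Finite.injective_iff_bijective.1 e.injective), ?_⟩
    ext u v
    exact e.map_rel_iff.symm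
  · rintro ⟨g, rfl⟩
    exact ⟨⟨g.toEmbedding, Iff.rfl⟩⟩

theorem Cl_not {A : Set ℕ} {i : ℕ} (h : i ∉ A) : Cl A (2 ^ kk i - 1) = Cl ∅ (2 ^ kk i - 1) := by
  ext G
  refine ⟨?_, fun ⟨j, h1, h2⟩ => ⟨j, h1.imp_right fun h => h.elim, h2⟩⟩
  rintro ⟨j, h1, ⟨e⟩⟩
  refine ⟨j, Or.inl ?_, ⟨e⟩⟩
  rcases lt_trichotomy i j with c | rfl | c
  · exact kk_lt c
  · exact h1.resolve_right h
  · have : 2 ^ kk i - 1 ≤ 2 ^ kk j - 1 := by simpa using Fintype.card_le_of_injective _ e.injective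
    have := kk_lt c
    have := kk_le i
    omega

theorem Cl_mem {A : Set ℕ} {i : ℕ} (h : i ∈ A) :
    (Cl A (2 ^ kk i - 1)).ncard % 2 ≠ (Cl ∅ (2 ^ kk i - 1)).ncard % 2 := by
  have e : Cl A (2 ^ kk i - 1) = Cl ∅ (2 ^ kk i - 1) ∪
      {G | ∃ g : Perm (Fin (2 ^ kk i - 1)), G = gr (f0 (kk i) ∘ g)} := by
    rw [← Cl_not (A := A \ {i}) (by simp)]
    ext G
    constructor
    · rintro ⟨j, h1, h2⟩
      by_cases c : j = i
      · subst c; exact Or.inr ((emb_iff G).1 h2)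
      · exact Or.inl ⟨j, h1.imp_right fun h => ⟨h, c⟩, h2⟩
    · rintro (⟨j, h1, h2⟩ | h2)
      · exact ⟨j, h1.imp_right fun h => h.1, h2⟩
      · exact ⟨i, Or.inr h, (emb_iff G).2 h2⟩
  have d : Disjoint (Cl ∅ (2 ^ kk i - 1)) {G | ∃ g : Perm (Fin (2 ^ kk i - 1)), G = gr (f0 (kk i) ∘ g)} := by
    rw [Set.disjoint_left]
    rintro G ⟨j, h1, ⟨e⟩⟩ ⟨g, rfl⟩
    have := kk_le i
    exact noemb (kk3 i).2 (kk3 i).1 (by rcases h1 with h1 | h1; omega; exact h1.elim) _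
      ((f0_surj _).comp g.surjective) _ e
  rw [e, Set.ncard_union_eq d]
  have := X_odd (kk3 i).2 (kk3 i).1
  omega

theorem cant (s : Set ℕ → ℕ → ℤ) (h : ∀ A, MCFinite (s A))
    (hi : ∀ A B, (∀ n, s A n ≡ s B n [ZMOD (2 : ℕ)]) → A = B) : False := by
  choose r p _ hp α hα using fun A => h A 2 one_le_two
  let code : Set ℕ → ℕ × ℕ × List ℤ × List ℤ := fun A =>
    (r A, p A, (List.range (p A)).map (α A), (List.range (r A + p A)).map (s A))
  have inj : Function.Injective code := by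
    intro A B e
    simp only [code, Prod.mk.injEq] at e
    obtain ⟨e1, e2, e3, e4⟩ := e
    rw [← e2] at e3
    rw [← e1, ← e2] at e4
    rw [List.map_inj_left] at e3 e4
    refine hi A B fun n => ?_
    induction n using Nat.strong_induction_on with
    | _ n ih =>
      by_cases c : n < r A + p A
      · rw [e4 n (List.mem_range.2 c)]
      · obtain ⟨t, rfl⟩ : ∃ t, n = t + p A := ⟨n - p A, by omega⟩
        have h1 := hα A t (by omega)
        have h2 := hα B t (by omega)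
        rw [← e2] at h2
        refine h1.trans (Int.ModEq.trans ?_ h2.symm)
        refine Int.ModEq.sum fun i hi => ?_
        rw [mem_range] at hi
        rw [e3 i (List.mem_range.2 hi)]
        exact (ih _ (by omega)).mul_left _
  exact Function.cantor_injective _ (Encodable.encode_injective.comp inj)

end Pool.Agent.H13.MCf
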