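import Mathlib

namespace Pool.Agent.H13.MCf

/-- An integer sequence is MC-finite: modulo every `m` it eventually satisfies a linear recurrence. -/
def MCFinite (s : ℕ → ℤ) : Prop :=
  ∀ m : ℕ, 1 ≤ m → ∃ r p : ℕ, 1 ≤ r ∧ 1 ≤ p ∧ ∃ α : ℕ → ℤ, ∀ n, r ≤ n →
    s (n + p) ≡ ∑ i ∈ Finset.range p, α i * s (n + i) [ZMOD m]

/-- A class of finite graphs (given by its members on each `Fin n`) is hereditary: every graph that is isomorphic
to an induced subgraph of a member is a member (in particular the class is closed under isomorphism). -/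
def Hereditary (C : ∀ n, Set (SimpleGraph (Fin n))) : Prop :=
  ∀ m n (H : SimpleGraph (Fin m)) (G : SimpleGraph (Fin n)), G ∈ C n → Nonempty (H ↪g G) → H ∈ C m

end Pool.Agent.H13.MCf
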