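import Pool.Agent.H13.MTDefs

namespace Pool.Agent.H13.MT

theorem step {ι κ : Type} {t : ι → Set E} (h : IsMT t Set.univ 2) {c : ι → κ} [Nontrivial κ]
    (hc : ∀ k, ∃ d : ℕ, 1 ≤ d ∧ IsMT t {i | c i = k} d) {p : E} (hp : ∀ i, p ∉ frontier (t i)) {i j : ι}
    (hij : i ≠ j) (hi : p ∈ interior (t i)) (hj : p ∈ interior (t j)) :
    c i ≠ c j ∧ ∀ k, k = c i ∨ k = c j := by
  have h2 := h p fun i _ => hp i
  have e : ({i, j} : Set ι) = {l | l ∈ Set.univ ∧ p ∈ interior (t l)} := by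
    refine (Set.toFinite {i, j}).eq_of_subset_of_encard_le ?_ ?_
    · rintro l (rfl | rfl) <;> exact ⟨trivial, by assumption⟩
    · rw [h2, Set.encard_pair hij]; rfl
  have A : ∀ k, k = c i ∨ k = c j := by
    intro k
    obtain ⟨d, hd, hk⟩ := hc k
    have := hk p fun i _ => hp i
    obtain ⟨l, hl, hl'⟩ : {i | i ∈ {i | c i = k} ∧ p ∈ interior (t i)}.Nonempty := by
      rw [← Set.encard_ne_zero, this]; exact_mod_cast (by omega)
    have : l ∈ ({i, j} : Set ι) := by rw [e]; exact ⟨trivial, hl'⟩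
    rcases this with rfl | rfl
    · exact Or.inl hl.symm
    · exact Or.inr hl.symm
  refine ⟨fun g => ?_, A⟩
  obtain ⟨a, b, hab⟩ := exists_pair_ne κ
  rcases A a with x | x <;> rcases A b with y | y <;> simp_all

theorem five {κ : Type} {a b c d e : κ} (h : ∀ k, k = a ∨ k = b) (h1 : a ≠ b) (h2 : b ≠ c) (h3 : c ≠ d)
    (h4 : d ≠ e) (h5 : e ≠ a) : False := by
  rcases h c with x | x <;> rcases h d with y | y <;> rcases h e with z | z <;> simp_all

theorem strict {T : Set E} {p : E} (hp : p ∈ interior T) (a b c : ℝ) (hab : 0 < a ^ 2 + b ^ 2)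
    (h : ∀ q ∈ T, a * q 0 + b * q 1 ≤ c) : a * p 0 + b * p 1 < c := by
  rw [mem_interior_iff_mem_nhds] at hp
  have hc : Continuous (fun s : ℝ => p + s • (!₂[a, b] : E)) := by fun_prop
  have ht : Filter.Tendsto (fun s : ℝ => p + s • (!₂[a, b] : E)) (nhds 0) (nhds p) := by
    simpa using hc.tendsto 0
  obtain ⟨s, hs, hq⟩ := (ht.eventually hp).exists_gt
  have := h _ hq
  simp at this
  nlinarith [mul_pos hs hab]

abbrev R := ℤ × ℤ × Bool

def U (r : R) (q : E) : ℝ := cond r.2.2 (q 1 - r.2.1) (q 0 - r.1)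
def W (r : R) (q : E) : ℝ := cond r.2.2 (q 0 - r.1) (q 1 - r.2.1)

theorem U_cont (r : R) : Continuous (U r) := by
  unfold U; cases r.2.2 <;> simp only [cond_true, cond_false] <;> fun_prop
theorem W_cont (r : R) : Continuous (W r) := by
  unfold W; cases r.2.2 <;> simp only [cond_true, cond_false] <;> fun_prop

theorem strictUW {T : Set E} {p : E} (hp : p ∈ interior T) (r : R) (a b c : ℝ) (hab : 0 < a ^ 2 + b ^ 2)
    (h : ∀ q ∈ T, a * U r q + b * W r q ≤ c) : a * U r p + b * W r p < c := by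
  obtain ⟨x, y, o⟩ := r
  cases o <;> simp only [U, W, cond_true, cond_false] at h ⊢
  · have := strict hp a b (c + a * x + b * y) hab fun q hq => by linarith [h q hq]
    linarith
  · have := strict hp b a (c + b * x + a * y) (by linarith) fun q hq => by linarith [h q hq]
    linarith

def pat (x : R) : Bool := List.elem x [(0, 1, true), (0, 5, true), (1, 0, false), (1, 1, false), (1, 1, true),
  (1, 3, true), (1, 5, false), (2, 0, true), (2, 2, true), (2, 3, false), (2, 4, false), (2, 5, false),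
  (3, 0, false), (3, 1, true), (3, 2, false), (3, 4, false)]

def S (r : R) : Prop := pat (r.1 % 4, r.2.1 % 6, r.2.2) = true

instance : DecidablePred S := fun r => by unfold S; infer_instance

def cand (X Y : ℤ) (c : Fin 3 × Bool) : R := cond c.2 (X, Y - (c.1 : ℕ), true) (X - (c.1 : ℕ), Y, false)

theorem fin_cov : ∀ i ∈ ([0, 1, 2, 3] : List ℤ), ∀ j ∈ ([0, 1, 2, 3, 4, 5] : List ℤ), ∃ a b : Fin 3 × Bool,
    a ≠ b ∧ S (cand i j a) ∧ S (cand i j b) ∧ ∀ c, S (cand i j c) → c = a ∨ c = b := by decide +kernel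

theorem cand_mod (X Y : ℤ) (c : Fin 3 × Bool) : S (cand X Y c) ↔ S (cand (X % 4) (Y % 6) c) := by
  obtain ⟨k, o⟩ := c
  cases o <;> simp [S, cand]

theorem cover (p : E) : ∃ a b : R, a ≠ b ∧ S a ∧ S b ∧
    (∀ r, r = a ∨ r = b → 0 ≤ U r p ∧ U r p ≤ 3 ∧ 0 ≤ W r p ∧ W r p ≤ 1) ∧
    ∀ r, S r → 0 < U r p → U r p < 3 → 0 < W r p → W r p < 1 → r = a ∨ r = b := by
  obtain ⟨a, b, hab, ha, hb, h⟩ := fin_cov (⌊p 0⌋ % 4) (by simp; omega) (⌊p 1⌋ % 6) (by simp; omega)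
  have x1 := Int.floor_le (p 0)
  have x2 := Int.lt_floor_add_one (p 0)
  have y1 := Int.floor_le (p 1)
  have y2 := Int.lt_floor_add_one (p 1)
  have inj : ∀ c d, cand ⌊p 0⌋ ⌊p 1⌋ c = cand ⌊p 0⌋ ⌊p 1⌋ d → c = d := by
    rintro ⟨k, o⟩ ⟨l, o'⟩
    cases o <;> cases o' <;> simp only [cand, cond_true, cond_false, Prod.mk.injEq, Fin.ext_iff] <;>
      intro h <;> first | omega | (exact absurd h.2.2 (by decide)) | (refine ⟨by omega, trivial⟩)
  have cl : ∀ c, 0 ≤ U (cand ⌊p 0⌋ ⌊p 1⌋ c) p ∧ U (cand ⌊p 0⌋ ⌊p 1⌋ c) p ≤ 3 ∧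
      0 ≤ W (cand ⌊p 0⌋ ⌊p 1⌋ c) p ∧ W (cand ⌊p 0⌋ ⌊p 1⌋ c) p ≤ 1 := by
    rintro ⟨k, o⟩
    have k1 : (0 : ℝ) ≤ (k : ℕ) := by positivity
    have k2 : ((k : ℕ) : ℝ) ≤ 2 := by exact_mod_cast Nat.lt_succ_iff.1 k.2
    cases o <;> simp only [U, W, cand, cond_true, cond_false] <;> push_cast <;>
      refine ⟨?_, ?_, ?_, ?_⟩ <;> linarith
  refine ⟨cand ⌊p 0⌋ ⌊p 1⌋ a, cand ⌊p 0⌋ ⌊p 1⌋ b, fun e => hab (inj _ _ e), (cand_mod _ _ _).2 ha,
    (cand_mod _ _ _).2 hb, by rintro r (rfl | rfl) <;> exact cl _, ?_⟩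
  rintro ⟨x, y, o⟩ hs u1 u2 w1 w2
  have : ∃ c, (x, y, o) = cand ⌊p 0⌋ ⌊p 1⌋ c := by
    cases o <;> simp only [U, W, cond_true, cond_false] at u1 u2 w1 w2
    · have a1 : x ≤ ⌊p 0⌋ := Int.le_floor.2 (by linarith)
      have a2 : ⌊p 0⌋ < x + 3 := Int.floor_lt.2 (by push_cast; linarith)
      have a3 : ⌊p 1⌋ = y := Int.floor_eq_iff.2 ⟨by linarith, by linarith⟩
      refine ⟨(⟨(⌊p 0⌋ - x).toNat, by omega⟩, false), ?_⟩
      simp only [cand, cond_false, Prod.mk.injEq, and_true]; omega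
    · have a1 : y ≤ ⌊p 1⌋ := Int.le_floor.2 (by linarith)
      have a2 : ⌊p 1⌋ < y + 3 := Int.floor_lt.2 (by push_cast; linarith)
      have a3 : ⌊p 0⌋ = x := Int.floor_eq_iff.2 ⟨by linarith, by linarith⟩
      refine ⟨(⟨(⌊p 1⌋ - y).toNat, by omega⟩, true), ?_⟩
      simp only [cand, cond_true, Prod.mk.injEq, and_true]; omega
  obtain ⟨c, hc⟩ := this
  rw [hc] at hs ⊢
  rcases h c ((cand_mod _ _ _).1 hs) with rfl | rfl <;> simp

theorem int_of {T : Set E} (hT : IsClosed T) {p : E} (h : p ∈ T) (h' : p ∉ frontier T) : p ∈ interior T := by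
  rw [hT.frontier_eq] at h'
  by_contra hn
  exact h' ⟨h, hn⟩

noncomputable def pt (m n : ℤ) : E := !₂[(m : ℝ) / 7, (n : ℝ) / 7]

theorem ni (m z : ℤ) (h : m % 7 ≠ 0) : (m : ℝ) / 7 ≠ z := by
  intro e
  have : (m : ℝ) = 7 * z := by linarith
  have : m = 7 * z := by exact_mod_cast this
  omega

theorem gen {m n : ℤ} (h1 : m % 7 ≠ 0) (h2 : n % 7 ≠ 0) (h3 : (m + 3 * n) % 7 ≠ 0) (h4 : (n + 3 * m) % 7 ≠ 0)
    (r : R) (z : ℤ) : U r (pt m n) ≠ z ∧ W r (pt m n) ≠ z ∧ U r (pt m n) + 3 * W r (pt m n) ≠ z := by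
  obtain ⟨x, y, o⟩ := r
  have a1 := ni m (z + x) h1
  have a2 := ni n (z + y) h2
  have a3 := ni _ (z + x + 3 * y) h3
  have a4 := ni _ (z + y + 3 * x) h4
  push_cast at a1 a2 a3 a4
  cases o <;> simp only [U, W, pt, cond_true, cond_false] <;> simp <;> refine ⟨?_, ?_, ?_⟩ <;>
    intro e <;> first | (apply a1; linarith) | (apply a2; linarith) | (apply a3; linarith) | (apply a4; linarith)

noncomputable def F (r : R) (e a b : ℝ) (q : E) : E :=
  cond r.2.2 !₂[r.1 + (b + e * q 1), r.2.1 + (a + e * q 0)] !₂[r.1 + (a + e * q 0), r.2.1 + (b + e * q 1)]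

theorem F_iso (r : R) {e : ℝ} (he : e ^ 2 = 1) (a b : ℝ) : Isometry (F r e a b) := by
  refine Isometry.of_dist_eq fun p q => ?_
  rw [EuclideanSpace.dist_eq, EuclideanSpace.dist_eq]
  congr 1
  unfold F
  cases r.2.2 <;> simp [Fin.sum_univ_two, Real.dist_eq, sq_abs] <;>
    linear_combination ((p 0 - q 0) ^ 2 + (p 1 - q 1) ^ 2) * he

theorem F_img (r : R) {e : ℝ} (he : e ^ 2 = 1) (a b : ℝ) (P : ℝ → ℝ → Prop) :
    F r e a b '' {q | P (q 0) (q 1)} = {q | P (e * (U r q - a)) (e * (W r q - b))} := by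
  ext q
  constructor
  · rintro ⟨s, hs, rfl⟩
    have e1 : e * (U r (F r e a b s) - a) = s 0 := by
      unfold U F; cases r.2.2 <;> simp <;> linear_combination s 0 * he
    have e2 : e * (W r (F r e a b s) - b) = s 1 := by
      unfold W F; cases r.2.2 <;> simp <;> linear_combination s 1 * he
    show P _ _
    rw [e1, e2]; exact hs
  · intro h
    refine ⟨!₂[e * (U r q - a), e * (W r q - b)], by simpa using h, ?_⟩
    ext i
    unfold F U W
    cases r.2.2 <;> fin_cases i <;> simp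
    · linear_combination (q 0 - r.1 - a) * he
    · linear_combination (q 1 - r.2.1 - b) * he
    · linear_combination (q 0 - r.1 - b) * he
    · linear_combination (q 1 - r.2.1 - a) * he

end Pool.Agent.H13.MT
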