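import Pool.Agent.H13.MT1

namespace Pool.Agent.H13.MT

theorem comb3 {s : Set E} {a b c q : E} (ha : a ∈ s) (hb : b ∈ s) (hc : c ∈ s) (x y : ℝ) (hx : 0 ≤ x) (hy : 0 ≤ y)
    (hxy : x + y ≤ 1) (h : q = (1 - x - y) • a + x • b + y • c) : q ∈ convexHull ℝ s := by
  have := (convex_convexHull ℝ s).sum_mem (t := Finset.univ) (w := ![1 - x - y, x, y]) (z := ![a, b, c])
    (by intro i _; fin_cases i <;> simp <;> linarith) (by rw [Fin.sum_univ_three]; simp; ring)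
    (by intro i _; fin_cases i <;> exact subset_convexHull ℝ s (by simpa))
  simpa [Fin.sum_univ_three, h] using this

theorem rect_eq : convexHull ℝ ({0, 0 + !₂[3, 0], 0 + !₂[0, 1], 0 + !₂[3, 0] + !₂[0, 1]} : Set E) =
    {q | 0 ≤ q 0 ∧ q 0 ≤ 3 ∧ 0 ≤ q 1 ∧ q 1 ≤ 1} := by
  apply Set.Subset.antisymm
  · apply convexHull_min
    · rintro q (rfl | rfl | rfl | rfl) <;> simp
    · rintro p ⟨p1, p2, p3, p4⟩ q ⟨q1, q2, q3, q4⟩ a b ha hb hab
      simp only [Set.mem_ofPred_eq, PiLp.add_apply, PiLp.smul_apply, smul_eq_mul]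
      refine ⟨?_, ?_, ?_, ?_⟩ <;> nlinarith
  · rintro q ⟨q1, q2, q3, q4⟩
    by_cases h : q 0 + 3 * q 1 ≤ 3
    · refine comb3 (a := 0) (b := 0 + !₂[3, 0]) (c := 0 + !₂[0, 1]) (by simp) (by simp) (by simp)
        (q 0 / 3) (q 1) (by linarith) q3 (by linarith) ?_
      ext i; fin_cases i <;> simp
    · refine comb3 (a := 0 + !₂[3, 0] + !₂[0, 1]) (b := 0 + !₂[0, 1]) (c := 0 + !₂[3, 0])
        (by simp) (by simp) (by simp) (1 - q 0 / 3) (1 - q 1) (by linarith) (by linarith) (by linarith) ?_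
      ext i; fin_cases i <;> simp <;> ring

theorem tri_eq : convexHull ℝ ({0, !₂[3, 0], !₂[0, 1]} : Set E) =
    {q | 0 ≤ q 0 ∧ 0 ≤ q 1 ∧ q 0 + 3 * q 1 ≤ 3} := by
  apply Set.Subset.antisymm
  · apply convexHull_min
    · rintro q (rfl | rfl | rfl) <;> simp
    · rintro p ⟨p1, p2, p3⟩ q ⟨q1, q2, q3⟩ a b ha hb hab
      simp only [Set.mem_ofPred_eq, PiLp.add_apply, PiLp.smul_apply, smul_eq_mul]
      refine ⟨?_, ?_, ?_⟩ <;> nlinarith
  · rintro q ⟨q1, q2, q3⟩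
    refine comb3 (a := 0) (b := !₂[3, 0]) (c := !₂[0, 1]) (by simp) (by simp) (by simp)
      (q 0 / 3) (q 1) (by linarith) q2 (by linarith) ?_
    ext i; fin_cases i <;> simp

/-- a general irreducibility criterion: an odd cycle of length five -/
theorem irred {ι : Type} {t : ι → Set E} (h : IsMT t Set.univ 2) (a b c d e : ι)
    (H : ∀ i j, (i, j) ∈ [(a, b), (b, c), (c, d), (d, e), (e, a)] → i ≠ j ∧
      ∃ p, (∀ l, p ∉ frontier (t l)) ∧ p ∈ interior (t i) ∧ p ∈ interior (t j)) : ¬ Reducible t := by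
  rintro ⟨κ, col, hn, -, hc⟩
  have K : ∀ i j, (i, j) ∈ [(a, b), (b, c), (c, d), (d, e), (e, a)] →
      col i ≠ col j ∧ ∀ k, k = col i ∨ k = col j := by
    intro i j hij
    obtain ⟨h1, p, h2, h3, h4⟩ := H i j hij
    exact step h hc h2 h1 h3 h4
  exact five (K a b (by simp)).2 (K a b (by simp)).1 (K b c (by simp)).1 (K c d (by simp)).1
    (K d e (by simp)).1 (K e a (by simp)).1

def Rc (r : R) : Set E := {q | 0 ≤ U r q ∧ U r q ≤ 3 ∧ 0 ≤ W r q ∧ W r q ≤ 1}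

theorem Rc_closed (r : R) : IsClosed (Rc r) :=
  (isClosed_le continuous_const (U_cont r)).inter <| (isClosed_le (U_cont r) continuous_const).inter <|
    (isClosed_le continuous_const (W_cont r)).inter (isClosed_le (W_cont r) continuous_const)

theorem Rc_int (r : R) (p : E) : p ∈ interior (Rc r) ↔ 0 < U r p ∧ U r p < 3 ∧ 0 < W r p ∧ W r p < 1 := by
  constructor
  · intro hp
    have a1 := strictUW hp r (-1) 0 0 (by norm_num) fun q hq => by linarith [hq.1]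
    have a2 := strictUW hp r 1 0 3 (by norm_num) fun q hq => by linarith [hq.2.1]
    have a3 := strictUW hp r 0 (-1) 0 (by norm_num) fun q hq => by linarith [hq.2.2.1]
    have a4 := strictUW hp r 0 1 1 (by norm_num) fun q hq => by linarith [hq.2.2.2]
    refine ⟨?_, ?_, ?_, ?_⟩ <;> linarith
  · intro hp
    have ho : IsOpen {q | 0 < U r q ∧ U r q < 3 ∧ 0 < W r q ∧ W r q < 1} :=
      (isOpen_lt continuous_const (U_cont r)).inter <| (isOpen_lt (U_cont r) continuous_const).inter <|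
        (isOpen_lt continuous_const (W_cont r)).inter (isOpen_lt (W_cont r) continuous_const)
    refine interior_maximal (fun q hq => ?_) ho hp
    exact ⟨hq.1.le, hq.2.1.le, hq.2.2.1.le, hq.2.2.2.le⟩

theorem Rc_gen {m n : ℤ} (h1 : m % 7 ≠ 0) (h2 : n % 7 ≠ 0) (h3 : (m + 3 * n) % 7 ≠ 0)
    (h4 : (n + 3 * m) % 7 ≠ 0) (r : R) : pt m n ∉ frontier (Rc r) := by
  rw [(Rc_closed r).frontier_eq]
  rintro ⟨⟨a1, a2, a3, a4⟩, hn⟩
  have g0 := gen h1 h2 h3 h4 r 0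
  have g1 := gen h1 h2 h3 h4 r 1
  have g3 := gen h1 h2 h3 h4 r 3
  push_cast at g0 g1 g3
  exact hn ((Rc_int r _).2 ⟨lt_of_le_of_ne a1 g0.1.symm, lt_of_le_of_ne a2 g3.1,
    lt_of_le_of_ne a3 g0.2.1.symm, lt_of_le_of_ne a4 g1.2.1⟩)

theorem Rc_inj : Function.Injective Rc := by
  rintro ⟨x, y, o⟩ ⟨x', y', o'⟩ e
  have K : ∀ X Y : ℤ, (!₂[(X : ℝ), Y] : E) ∈ Rc (x, y, o) ↔ (!₂[(X : ℝ), Y] : E) ∈ Rc (x', y', o') := by
    intro X Y; rw [e]
  cases o <;> cases o' <;> simp [Rc, U, W] at K ⊢ <;> norm_cast at K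
  all_goals
    have k1 := K x y
    have k2 := K x' y'
    have k3 := K (x + 3) y
    have k4 := K (x' + 3) y'
    omega

end Pool.Agent.H13.MT
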