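import Pool.Agent.H13.MT2

namespace Pool.Agent.H13.MT

def Tr (i : R × Bool) : Set E := {q | cond i.2 (U i.1 q ≤ 3 ∧ W i.1 q ≤ 1 ∧ 3 ≤ U i.1 q + 3 * W i.1 q)
  (0 ≤ U i.1 q ∧ 0 ≤ W i.1 q ∧ U i.1 q + 3 * W i.1 q ≤ 3)}

theorem UW_cont (r : R) : Continuous fun q => U r q + 3 * W r q :=
  (U_cont r).add (continuous_const.mul (W_cont r))

theorem Tr_closed (i : R × Bool) : IsClosed (Tr i) := by
  obtain ⟨r, h⟩ := i
  cases h
  · exact (isClosed_le continuous_const (U_cont r)).inter <| (isClosed_le continuous_const (W_cont r)).inter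
      (isClosed_le (UW_cont r) continuous_const)
  · exact (isClosed_le (U_cont r) continuous_const).inter <| (isClosed_le (W_cont r) continuous_const).inter
      (isClosed_le continuous_const (UW_cont r))

theorem Tr_int0 (r : R) (p : E) :
    p ∈ interior (Tr (r, false)) ↔ 0 < U r p ∧ 0 < W r p ∧ U r p + 3 * W r p < 3 := by
  constructor
  · intro hp
    have a1 := strictUW hp r (-1) 0 0 (by norm_num) fun q hq => by linarith [hq.1]
    have a2 := strictUW hp r 0 (-1) 0 (by norm_num) fun q hq => by linarith [hq.2.1]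
    have a3 := strictUW hp r 1 3 3 (by norm_num) fun q hq => by linarith [hq.2.2]
    refine ⟨?_, ?_, ?_⟩ <;> linarith
  · intro hp
    have ho : IsOpen {q | 0 < U r q ∧ 0 < W r q ∧ U r q + 3 * W r q < 3} :=
      (isOpen_lt continuous_const (U_cont r)).inter <|
        (isOpen_lt continuous_const (W_cont r)).inter (isOpen_lt (UW_cont r) continuous_const)
    refine interior_maximal (fun q hq => ?_) ho hp
    exact ⟨hq.1.le, hq.2.1.le, hq.2.2.le⟩

theorem Tr_int1 (r : R) (p : E) :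
    p ∈ interior (Tr (r, true)) ↔ U r p < 3 ∧ W r p < 1 ∧ 3 < U r p + 3 * W r p := by
  constructor
  · intro hp
    have a1 := strictUW hp r 1 0 3 (by norm_num) fun q hq => by linarith [hq.1]
    have a2 := strictUW hp r 0 1 1 (by norm_num) fun q hq => by linarith [hq.2.1]
    have a3 := strictUW hp r (-1) (-3) (-3) (by norm_num) fun q hq => by linarith [hq.2.2]
    refine ⟨?_, ?_, ?_⟩ <;> linarith
  · intro hp
    have ho : IsOpen {q | U r q < 3 ∧ W r q < 1 ∧ 3 < U r q + 3 * W r q} :=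
      (isOpen_lt (U_cont r) continuous_const).inter <|
        (isOpen_lt (W_cont r) continuous_const).inter (isOpen_lt continuous_const (UW_cont r))
    refine interior_maximal (fun q hq => ?_) ho hp
    exact ⟨hq.1.le, hq.2.1.le, hq.2.2.le⟩

theorem Tr_gen {m n : ℤ} (h1 : m % 7 ≠ 0) (h2 : n % 7 ≠ 0) (h3 : (m + 3 * n) % 7 ≠ 0)
    (h4 : (n + 3 * m) % 7 ≠ 0) (i : R × Bool) : pt m n ∉ frontier (Tr i) := by
  rw [(Tr_closed i).frontier_eq]
  obtain ⟨r, h⟩ := i
  have g0 := gen h1 h2 h3 h4 r 0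
  have g1 := gen h1 h2 h3 h4 r 1
  have g3 := gen h1 h2 h3 h4 r 3
  push_cast at g0 g1 g3
  cases h
  · rintro ⟨⟨a1, a2, a3⟩, hn⟩
    exact hn ((Tr_int0 r _).2 ⟨lt_of_le_of_ne a1 g0.1.symm, lt_of_le_of_ne a2 g0.2.1.symm,
      lt_of_le_of_ne a3 g3.2.2⟩)
  · rintro ⟨⟨a1, a2, a3⟩, hn⟩
    exact hn ((Tr_int1 r _).2 ⟨lt_of_le_of_ne a1 g3.1, lt_of_le_of_ne a2 g1.2.1,
      lt_of_le_of_ne a3 g3.2.2.symm⟩)

theorem Tr_inj : Function.Injective Tr := by
  rintro ⟨⟨x, y, o⟩, h⟩ ⟨⟨x', y', o'⟩, h'⟩ e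
  have K : ∀ X Y : ℤ, (!₂[(X : ℝ), Y] : E) ∈ Tr ((x, y, o), h) ↔
      (!₂[(X : ℝ), Y] : E) ∈ Tr ((x', y', o'), h') := by
    intro X Y; rw [e]
  cases o <;> cases o' <;> cases h <;> cases h' <;>
    simp only [Tr, U, W, cond_true, cond_false, Set.mem_ofPred_eq, PiLp.toLp_apply, Matrix.cons_val_zero,
      Matrix.cons_val_one, Matrix.cons_val_fin_one] at K <;> norm_cast at K <;> simp
  all_goals
    have k1 := K x y
    have k2 := K x' y'
    have k3 := K (x + 3) y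
    have k4 := K (x' + 3) y'
    have k5 := K x (y + 1)
    have k6 := K x' (y' + 1)
    have k7 := K (x + 1) y
    have k8 := K (x' + 1) y'
    have k9 := K x (y + 3)
    have k10 := K x' (y' + 3)
    have k11 := K (x + 3) (y + 1)
    have k12 := K (x' + 3) (y' + 1)
    have k13 := K (x + 1) (y + 3)
    have k14 := K (x' + 1) (y' + 3)
    clear K e
    simp at k1 k2 k3 k4 k5 k6 k7 k8 k9 k10 k11 k12 k13 k14
    omega

theorem Tr_mt : IsMT (fun i : {r // S r} × Bool => Tr (i.1.1, i.2)) Set.univ 2 := by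
  intro p hp
  obtain ⟨a, b, hab, ha, hb, h1, h2⟩ := cover p
  have sel : ∀ r (hr : S r), r = a ∨ r = b → ∃ h, p ∈ interior (Tr (r, h)) := by
    intro r hr h
    obtain ⟨u1, u2, u3, u4⟩ := h1 r h
    by_cases g : U r p + 3 * W r p ≤ 3
    · exact ⟨false, int_of (Tr_closed _) ⟨u1, u3, g⟩ (hp (⟨r, hr⟩, false) trivial)⟩
    · exact ⟨true, int_of (Tr_closed _) ⟨u2, u4, by simp only; linarith⟩ (hp (⟨r, hr⟩, true) trivial)⟩
  have uniq : ∀ r h h', p ∈ interior (Tr (r, h)) → p ∈ interior (Tr (r, h')) → h = h' := by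
    intro r h h'
    cases h <;> cases h' <;> simp only [Tr_int0, Tr_int1] <;> intro u v <;>
      first | trivial | (exfalso; linarith [u.2.2, v.2.2])
  obtain ⟨ca, hca⟩ := sel a ha (Or.inl rfl)
  obtain ⟨cb, hcb⟩ := sel b hb (Or.inr rfl)
  have e : {i : {r // S r} × Bool | i ∈ Set.univ ∧ p ∈ interior (Tr (i.1.1, i.2))} =
      {(⟨a, ha⟩, ca), (⟨b, hb⟩, cb)} := by
    ext ⟨⟨r, hr⟩, h⟩
    simp only [Set.mem_ofPred_eq, Set.mem_univ, true_and, Set.mem_insert_iff, Set.mem_singleton_iff,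
      Subtype.mk.injEq, Prod.mk.injEq]
    constructor
    · intro hh
      have : r = a ∨ r = b := by
        cases h
        · obtain ⟨u1, u2, u3⟩ := (Tr_int0 r p).1 hh
          exact h2 r hr u1 (by linarith) u2 (by linarith)
        · obtain ⟨u1, u2, u3⟩ := (Tr_int1 r p).1 hh
          exact h2 r hr (by linarith) u1 (by linarith) u2
      rcases this with rfl | rfl
      · exact Or.inl ⟨rfl, uniq _ _ _ hh hca⟩
      · exact Or.inr ⟨rfl, uniq _ _ _ hh hcb⟩
    · rintro (⟨rfl, rfl⟩ | ⟨rfl, rfl⟩) <;> assumption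
  rw [e, Set.encard_pair (by simp [hab])]; rfl

end Pool.Agent.H13.MT
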