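import Mathlib

namespace Pool.Agent.H13.MT

/-- The Euclidean plane. -/
abbrev E := EuclideanSpace ℝ (Fin 2)

/-- The tiles `t i`, `i ∈ S`, form a multiple tiling of density `d`: every point on the boundary of none of
them lies in the interiors of exactly `d` of them. -/
def IsMT {ι : Type} (t : ι → Set E) (S : Set ι) (d : ℕ) : Prop :=
  ∀ p : E, (∀ i ∈ S, p ∉ frontier (t i)) → {i | i ∈ S ∧ p ∈ interior (t i)}.encard = d

/-- The family splits into two or more nonempty subfamilies, each a multiple tiling of some density. -/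
def Reducible {ι : Type} (t : ι → Set E) : Prop :=
  ∃ (κ : Type) (c : ι → κ), Nontrivial κ ∧ Function.Surjective c ∧
    ∀ k, ∃ d : ℕ, 1 ≤ d ∧ IsMT t {i | c i = k} d

end Pool.Agent.H13.MT
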