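import Mathlib
import Pool.Agent.H13.Higgs

set_option autoImplicit false

namespace Pool.Agent.H13.Menger
open Pool.Agent.H13.Higgs (Cs Lo Hi cmp mem_of_cmp chain_of glue lo_ext hi_ext Cut ent ext)

structure N where
  k : ℕ∞
  x : ℕ → Bool
  z : ∀ i : ℕ, k ≤ i → x i = false

def D (a b : N) : Prop := b.k ≤ a.k ∧ ∀ i : ℕ, (i : ℕ∞) < b.k → a.x i = b.x i

theorem D.refl (a : N) : D a a := ⟨le_rfl, fun _ _ => rfl⟩

theorem D.trans {a b c : N} (h1 : D a b) (h2 : D b c) : D a c :=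
  ⟨h2.1.trans h1.1, fun i hi => (h1.2 i (hi.trans_le h2.1)).trans (h2.2 i hi)⟩

theorem D.eq_of_le {a b : N} (h1 : D a b) (h2 : a.k ≤ b.k) : a = b := by
  have e : a.k = b.k := le_antisymm h2 h1.1
  have e2 : a.x = b.x := funext fun i => by
    by_cases h : (i : ℕ∞) < b.k
    · exact h1.2 i h
    · rw [a.z i (e ▸ not_lt.1 h), b.z i (not_lt.1 h)]
  cases a; cases b; simp only at e e2; subst e; subst e2; rfl

theorem chain_inf (B : Set N) (hB : ∀ a ∈ B, ∀ b ∈ B, D a b ∨ D b a) :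
    ∃ m, (∀ b ∈ B, D m b) ∧ ∀ a, (∀ b ∈ B, D a b) → D a m := by
  classical
  let m : N := ⟨⨆ b ∈ B, b.k, fun i => decide (∃ b ∈ B, (i : ℕ∞) < b.k ∧ b.x i = true),
    fun i hi => by
      simp only [decide_eq_false_iff_not]
      rintro ⟨b, hb, h, _⟩
      exact absurd ((le_iSup₂ (f := fun b (_ : b ∈ B) => b.k) b hb).trans hi) (not_le.2 h)⟩
  have h1 : ∀ b ∈ B, D m b := fun b hb => by
    refine ⟨le_iSup₂ (f := fun b (_ : b ∈ B) => b.k) b hb, fun i hi => ?_⟩
    simp only [m]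
    cases h : b.x i
    · simp only [decide_eq_false_iff_not]
      rintro ⟨c, hc, h2, h3⟩
      rcases hB b hb c hc with l | l
      · rw [l.2 i h2, h3] at h; exact absurd h (by simp)
      · rw [← l.2 i hi, h3] at h; exact absurd h (by simp)
    · exact decide_eq_true ⟨b, hb, hi, h⟩
  refine ⟨m, h1, fun a ha => ⟨iSup₂_le fun b hb => (ha b hb).1, fun i hi => ?_⟩⟩
  simp only [m, lt_iSup_iff] at hi
  obtain ⟨b, hb, hi⟩ := hi
  exact ((ha b hb).2 i hi).trans ((h1 b hb).2 i hi).symm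

theorem chain_top (B : Set N) (hB : ∀ a ∈ B, ∀ b ∈ B, D a b ∨ D b a) (hne : B.Nonempty) :
    ∃ m ∈ B, ∀ b ∈ B, D b m := by
  obtain ⟨m, hm, hmin⟩ := (InvImage.wf N.k wellFounded_lt).has_min B hne
  refine ⟨m, hm, fun b hb => ?_⟩
  rcases hB b hb m hm with l | l
  · exact l
  · rw [l.eq_of_le (not_lt.1 (hmin b hb))]; exact D.refl b

def root : N := ⟨0, fun _ => false, fun _ _ => rfl⟩

theorem D_root (a : N) : D a root := ⟨zero_le, fun _ h => absurd h (by simp [root])⟩

def trunc (b : N) (n : ℕ) : N :=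
  ⟨n, fun i => if i < n then b.x i else false, fun i h => if_neg (by simpa using h)⟩

theorem D_trunc {b c : N} {n : ℕ} (h : (n : ℕ∞) ≤ c.k) (e : ∀ i < n, c.x i = b.x i) :
    D c (trunc b n) := ⟨h, fun i hi => by
  have : i < n := by simpa [trunc] using hi
  simp [trunc, this, e i this]⟩

theorem trunc_D {b c : N} {n : ℕ} (h : c.k ≤ n) (e : ∀ i : ℕ, (i : ℕ∞) < c.k → b.x i = c.x i) :
    D (trunc b n) c := ⟨h, fun i hi => by
  have : i < n := by exact_mod_cast hi.trans_le h
  simp [trunc, this, e i hi]⟩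

theorem fin_count : {a : N | a.k ≠ ⊤}.Countable := by
  refine (Set.countable_range fun l : List Bool =>
    trunc ⟨⊤, fun i => l.getD i false, by simp⟩ l.length).mono fun a ha => ?_
  obtain ⟨n, hn⟩ := ENat.ne_top_iff_exists.1 ha
  refine ⟨List.ofFn fun i : Fin n => a.x i, ?_⟩
  refine D.eq_of_le (trunc_D (by simp [hn]) fun i hi => ?_) (by simp [trunc, hn])
  have : i < n := by rw [← hn] at hi; exact_mod_cast hi
  simp [List.getD, this]

theorem exists_end {A : Set N} (hA : A.Countable) (n : ℕ) (z : N) (hz : z.k = n) :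
    ∃ e, e.k = ⊤ ∧ D e z ∧ e ∉ A := by
  let g : (ℕ → Bool) → N := fun y => ⟨⊤, fun i => if i < n then z.x i else y (i - n), by simp⟩
  have hg : Function.Injective g := fun y y' h => funext fun i => by
    simpa [g] using congrFun (congrArg N.x h) (i + n)
  by_contra hc
  push Not at hc
  have h1 : (g ⁻¹' A).Countable := hA.preimage hg
  have h2 : g ⁻¹' A = Set.univ := Set.eq_univ_of_forall fun y =>
    hc (g y) rfl ⟨le_top, fun i hi => by
      have : i < n := by rw [hz] at hi; exact_mod_cast hi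
      simp [g, this]⟩
  rw [h2, Set.countable_univ_iff] at h1
  obtain ⟨u, hu⟩ := exists_surjective_nat (ℕ → Bool)
  obtain ⟨j, hj⟩ := hu fun i => !u i i
  simpa using congrFun hj j

def spike (n : ℕ) : N := trunc ⟨⊤, fun i => decide (i = n), by simp⟩ (n + 1)

theorem spike_inj {a : N} {n m : ℕ} (h1 : D a (spike n)) (h2 : D a (spike m)) : n = m := by
  have key : ∀ n m : ℕ, D a (spike n) → D a (spike m) → ¬ n < m := fun n m h1 h2 l => by
    have a1 := h1.2 n (by simp only [spike, trunc]; exact_mod_cast Nat.lt_succ_self n)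
    have a2 := h2.2 n (by simp only [spike, trunc]; exact_mod_cast Nat.lt_succ_of_lt l)
    rw [a1] at a2
    simp [spike, trunc, l.ne] at a2
  have := key n m h1 h2
  have := key m n h2 h1
  omega

structure Idx where
  f : ℚ → N
  g : ℚ → N
  hf : ∀ a q r, D a (f q) → D a (f r) → q = r
  hg : ∀ a q r, D a (g q) → D a (g r) → q = r
  ff : ∀ q, (f q).k ≠ ⊤

inductive X : Type
  | low : N → X
  | row : Idx → Cut → X
  | up : N → X

def le : X → X → Prop
  | .low a, .low b => D a b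
  | .low a, .row R S => ∃ q ∈ S.s, D a (R.f q)
  | .low _, .up _ => True
  | .row _ _, .low _ => False
  | .row R S, .row R' S' => R = R' ∧ S.s ⊆ S'.s
  | .row R S, .up b => ∃ q, q ∉ S.s ∧ D b (R.g q)
  | .up _, .low _ => False
  | .up _, .row _ _ => False
  | .up a, .up b => D b a

instance : PartialOrder X where
  le := le
  le_refl a := by cases a <;> simp [le, D.refl]
  le_trans a b c h1 h2 := by
    cases a <;> cases b <;> cases c <;> simp only [le] at h1 h2 ⊢ <;> try trivial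
    · exact h1.trans h2
    · obtain ⟨q, hq, h⟩ := h2; exact ⟨q, hq, h1.trans h⟩
    · obtain ⟨q, hq, h⟩ := h1; obtain ⟨rfl, hs⟩ := h2; exact ⟨q, hs hq, h⟩
    · exact ⟨h1.1.trans h2.1, h1.2.trans h2.2⟩
    · obtain ⟨q, hq, h⟩ := h2; obtain ⟨rfl, hs⟩ := h1; exact ⟨q, fun h' => hq (hs h'), h⟩
    · obtain ⟨q, hq, h⟩ := h1; exact ⟨q, hq, h2.trans h⟩
    · exact h2.trans h1
  le_antisymm a b h1 h2 := by
    cases a <;> cases b <;> simp only [le] at h1 h2 ⊢ <;> try trivial
    · rw [h1.eq_of_le h2.1]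
    · obtain ⟨rfl, hs⟩ := h1
      rw [Cut.ext' (Set.Subset.antisymm hs h2.2)]
    · rw [h1.eq_of_le h2.1]

theorem inf_ok (C : Set X) (hC : IsChain (· ≤ ·) C) (hne : C.Nonempty) : ∃ i, IsGLB C i := by
  by_cases h1 : ∃ a, X.low a ∈ C
  · obtain ⟨m, m1, m2⟩ := chain_inf {a | X.low a ∈ C} fun a ha b hb => cmp hC ha hb
    obtain ⟨a, ha⟩ := h1
    refine ⟨X.low m, fun c hc => ?_, fun y hy => ?_⟩
    · cases c with
      | low b => exact m1 b hc
      | row R S =>
        rcases cmp hC ha hc with h | h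
        · exact le_trans (show X.low m ≤ X.low a from m1 a ha) h
        · exact h.elim
      | up b => trivial
    · cases y with
      | low b => exact m2 b fun c hc => hy hc
      | row R S => exact (hy ha).elim
      | up b => exact (hy ha).elim
  by_cases h3 : ∃ R S, X.row R S ∈ C
  · obtain ⟨R, S0, hS0⟩ := h3
    let I : Cut := ⟨{q | ∀ S, X.row R S ∈ C → q ∈ S.s},
      fun a b hab hb S hS => S.lower a b hab (hb S hS), fun S _ => S.zero,
      fun h => S0.one (h S0 hS0)⟩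
    have hI : ∀ S, X.row R S ∈ C → X.row R I ≤ X.row R S := fun S hS => ⟨rfl, fun q hq => hq S hS⟩
    refine ⟨X.row R I, fun c hc => ?_, fun y hy => ?_⟩
    · cases c with
      | low a => exact absurd ⟨a, hc⟩ h1
      | row R' S' =>
        obtain rfl : R' = R := (cmp hC hc hS0).elim (fun h => h.1) fun h => h.1.symm
        exact hI S' hc
      | up b =>
        rcases cmp hC hS0 hc with h | h
        · exact (hI S0 hS0).trans h
        · exact h.elim
    · cases y with
      | low a =>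
        obtain ⟨q, hq, hL⟩ := hy hS0
        refine ⟨q, fun S hS => ?_, hL⟩
        obtain ⟨q', hq', hL'⟩ := hy hS
        rw [R.hf a q q' hL hL']; exact hq'
      | row R' S' =>
        have := (hy hS0).1
        subst this
        exact ⟨rfl, fun q hq S hS => (hy hS).2 hq⟩
      | up b => exact (hy hS0).elim
  have all : ∀ c ∈ C, ∃ b, c = X.up b := fun c hc => by
    cases c with
    | low a => exact absurd ⟨a, hc⟩ h1
    | row R S => exact absurd ⟨R, S, hc⟩ h3
    | up b => exact ⟨b, rfl⟩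
  obtain ⟨c, hc⟩ := hne
  obtain ⟨b, rfl⟩ := all c hc
  obtain ⟨m, hm, h⟩ := chain_top {a | X.up a ∈ C} (fun a ha b hb => (cmp hC ha hb).symm) ⟨b, hc⟩
  refine ⟨X.up m, IsLeast.isGLB ⟨hm, fun c hc => ?_⟩⟩
  obtain ⟨b, rfl⟩ := all c hc
  exact h b hc

theorem sup_ok (C : Set X) (hC : IsChain (· ≤ ·) C) (hne : C.Nonempty) : ∃ i, IsLUB C i := by
  by_cases h1 : ∃ a, X.up a ∈ C
  · obtain ⟨m, m1, m2⟩ := chain_inf {a | X.up a ∈ C} fun a ha b hb => (cmp hC ha hb).symm
    obtain ⟨a, ha⟩ := h1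
    refine ⟨X.up m, fun c hc => ?_, fun y hy => ?_⟩
    · cases c with
      | up b => exact m1 b hc
      | row R S =>
        rcases cmp hC ha hc with h | h
        · exact h.elim
        · exact le_trans h (show X.up a ≤ X.up m from m1 a ha)
      | low b => trivial
    · cases y with
      | up b => exact m2 b fun c hc => hy hc
      | row R S => exact (hy ha).elim
      | low b => exact (hy ha).elim
  by_cases h3 : ∃ R S, X.row R S ∈ C
  · obtain ⟨R, S0, hS0⟩ := h3
    let I : Cut := ⟨{q | ∃ S, X.row R S ∈ C ∧ q ∈ S.s},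
      fun a b hab ⟨S, hS, hb⟩ => ⟨S, hS, S.lower a b hab hb⟩, ⟨S0, hS0, S0.zero⟩,
      fun ⟨S, _, h⟩ => S.one h⟩
    have hI : ∀ S, X.row R S ∈ C → X.row R S ≤ X.row R I :=
      fun S hS => ⟨rfl, fun q hq => ⟨S, hS, hq⟩⟩
    refine ⟨X.row R I, fun c hc => ?_, fun y hy => ?_⟩
    · cases c with
      | up a => exact absurd ⟨a, hc⟩ h1
      | row R' S' =>
        obtain rfl : R' = R := (cmp hC hc hS0).elim (fun h => h.1) fun h => h.1.symm
        exact hI S' hc
      | low b =>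
        rcases cmp hC hS0 hc with h | h
        · exact h.elim
        · exact h.trans (hI S0 hS0)
    · cases y with
      | up a =>
        obtain ⟨q, hq, hL⟩ := hy hS0
        refine ⟨q, fun ⟨S, hS, hqS⟩ => ?_, hL⟩
        obtain ⟨q', hq', hL'⟩ := hy hS
        rw [R.hg a q q' hL hL'] at hqS; exact hq' hqS
      | row R' S' =>
        have := (hy hS0).1
        subst this
        exact ⟨rfl, fun q ⟨S, hS, hq⟩ => (hy hS).2 hq⟩
      | low b => exact (hy hS0).elim
  have all : ∀ c ∈ C, ∃ b, c = X.low b := fun c hc => by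
    cases c with
    | up a => exact absurd ⟨a, hc⟩ h1
    | row R S => exact absurd ⟨R, S, hc⟩ h3
    | low b => exact ⟨b, rfl⟩
  obtain ⟨c, hc⟩ := hne
  obtain ⟨b, rfl⟩ := all c hc
  obtain ⟨m, hm, h⟩ := chain_top {a | X.low a ∈ C} (fun a ha b hb => cmp hC ha hb) ⟨b, hc⟩
  refine ⟨X.low m, IsGreatest.isLUB ⟨hm, fun c hc => ?_⟩⟩
  obtain ⟨b, rfl⟩ := all c hc
  exact h b hc

theorem meets {C : Set X} (hC : IsMaxChain (· ≤ ·) C) : ∃ a : N, a.k ≠ ⊤ ∧ X.low a ∈ C := by
  by_cases h3 : ∃ R S, X.row R S ∈ C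
  · obtain ⟨R, S0, hS0⟩ := h3
    have same : ∀ R' S, X.row R' S ∈ C → R' = R := fun R' S hc =>
      (cmp hC.1 hc hS0).elim (fun h => h.1) fun h => h.1.symm
    by_cases h1 : ∃ a, X.low a ∈ C
    · obtain ⟨m, hm, h⟩ := chain_top {a | X.low a ∈ C} (fun a ha b hb => cmp hC.1 ha hb) h1
      obtain ⟨q, hq, hL⟩ : X.low m ≤ X.row R S0 := (cmp hC.1 hm hS0).resolve_right id
      refine ⟨R.f q, R.ff q, mem_of_cmp hC fun c hc => ?_⟩
      cases c with
      | low b => exact Or.inr ((h b hc).trans hL)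
      | row R' S =>
        obtain rfl := same R' S hc
        obtain ⟨r, hr, hL'⟩ : X.low m ≤ X.row R' S := (cmp hC.1 hm hc).resolve_right id
        exact Or.inl ⟨r, hr, R'.hf m q r hL hL' ▸ D.refl _⟩
      | up b => exact Or.inl trivial
    · refine ⟨R.f 0, R.ff 0, mem_of_cmp hC fun c hc => ?_⟩
      cases c with
      | low b => exact absurd ⟨b, hc⟩ h1
      | row R' S => obtain rfl := same R' S hc; exact Or.inl ⟨0, S.zero, D.refl _⟩
      | up b => exact Or.inl trivial
  · refine ⟨root, by simp [root], mem_of_cmp hC fun c hc => ?_⟩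
    cases c with
    | low b => exact Or.inr (D_root b)
    | row R S => exact absurd ⟨R, S, hc⟩ h3
    | up b => exact Or.inl trivial

def Ess (K : Set X) : Prop :=
  ∀ k ∈ K, ∃ C : Set X, IsMaxChain (· ≤ ·) C ∧ k ∈ C ∧ ∀ c ∈ C, c ≠ k → c ∉ K

theorem child (B : Set N) (hB : ∀ a ∈ B, ∀ b ∈ B, D a b ∨ D b a) {k : N} (hk : k ∈ B)
    (hf : k.k ≠ ⊤) : ∃ a : N, a.k ≠ ⊤ ∧ D a k ∧ ¬ D k a ∧ ∀ b ∈ B, D a b ∨ D b a := by
  obtain ⟨n, hn⟩ := ENat.ne_top_iff_exists.1 hf
  obtain ⟨m, m1, _⟩ := chain_inf B hB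
  have lt : k.k < ((n + 1 : ℕ) : ℕ∞) := by rw [← hn]; exact_mod_cast Nat.lt_succ_self n
  refine ⟨trunc m (n + 1), by simp [trunc], trunc_D lt.le (m1 k hk).2,
    fun h => absurd h.1 (not_le.2 lt), fun b hb => ?_⟩
  rcases le_total b.k ((n + 1 : ℕ) : ℕ∞) with l | l
  · exact Or.inl (trunc_D l (m1 b hb).2)
  · exact Or.inr (D_trunc l fun i hi =>
      ((m1 b hb).2 i (lt_of_lt_of_le (by exact_mod_cast hi) l)).symm)

theorem low_dense {K : Set X} (hE : Ess K) (hc : K.Countable) (n : ℕ) :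
    ∃ a : N, a.k ≠ ⊤ ∧ D a (spike n) ∧ Lo K (X.low a) := by
  obtain ⟨e, e1, e2, e3⟩ := exists_end (A := X.low ⁻¹' K)
    (hc.preimage fun _ _ h => X.low.inj h) (n + 1) (spike n) rfl
  have l0 : Lo K (X.low e) := by
    obtain ⟨M, hM, hs⟩ := (Set.subsingleton_singleton (a := X.low e)).isChain.exists_maxChain
      (r := (· ≤ ·))
    refine ⟨M, hM, hs rfl, fun c _ h => ?_⟩
    cases c with
    | low b => rw [D.eq_of_le h (e1 ▸ le_top)]; exact e3
    | row _ _ => exact h.elim
    | up _ => exact h.elim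
  by_cases h : ∀ w, X.low e < w → w ≤ X.low (spike n) → w ∉ K
  · exact ⟨spike n, by simp [spike, trunc], D.refl _, lo_ext l0 e2 h⟩
  push Not at h
  obtain ⟨w, w1, w2, wK⟩ := h
  cases w with
  | row _ _ => exact w2.elim
  | up _ => exact w2.elim
  | low k =>
    obtain ⟨C, hC, kC, hne⟩ := hE _ wK
    have kf : k.k ≠ ⊤ := fun t => w1.ne (by rw [D.eq_of_le w1.le (t ▸ le_top)])
    obtain ⟨a, a1, a2, a3, a4⟩ := child {a | X.low a ∈ C} (fun a ha b hb => cmp hC.1 ha hb) kC kf
    refine ⟨a, a1, a2.trans w2, C, hC, mem_of_cmp hC fun c hc => ?_, fun c hc h => hne c hc ?_⟩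
    · cases c with
      | low b => exact a4 b hc
      | row R S =>
        exact Or.inl (le_trans (show X.low a ≤ X.low k from a2) ((cmp hC.1 kC hc).resolve_right id))
      | up b => exact Or.inl trivial
    · rintro rfl
      exact a3 h

theorem up_dense {K : Set X} (hE : Ess K) (hc : K.Countable) (n : ℕ) :
    ∃ a : N, D a (spike n) ∧ Hi K (X.up a) := by
  obtain ⟨e, e1, e2, e3⟩ := exists_end (A := X.up ⁻¹' K)
    (hc.preimage fun _ _ h => X.up.inj h) (n + 1) (spike n) rfl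
  have l0 : Hi K (X.up e) := by
    obtain ⟨M, hM, hs⟩ := (Set.subsingleton_singleton (a := X.up e)).isChain.exists_maxChain
      (r := (· ≤ ·))
    refine ⟨M, hM, hs rfl, fun c _ h => ?_⟩
    cases c with
    | up b => rw [D.eq_of_le h (e1 ▸ le_top)]; exact e3
    | row _ _ => exact h.elim
    | low _ => exact h.elim
  by_cases h : ∀ w, w < X.up e → X.up (spike n) ≤ w → w ∉ K
  · exact ⟨spike n, D.refl _, hi_ext l0 e2 h⟩
  push Not at h
  obtain ⟨w, w1, w2, wK⟩ := h
  cases w with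
  | row _ _ => exact w2.elim
  | low _ => exact w2.elim
  | up k =>
    obtain ⟨C, hC, kC, hne⟩ := hE _ wK
    have kf : k.k ≠ ⊤ := fun t => w1.ne (by rw [D.eq_of_le w1.le (t ▸ le_top)])
    obtain ⟨a, _, a2, a3, a4⟩ := child {a | X.up a ∈ C}
      (fun a ha b hb => (cmp hC.1 ha hb).symm) kC kf
    refine ⟨a, a2.trans w2, C, hC, mem_of_cmp hC fun c hc => ?_, fun c hc h => hne c hc ?_⟩
    · cases c with
      | up b => exact (a4 b hc).symm
      | row R S =>
        exact Or.inr (le_trans ((cmp hC.1 kC hc).resolve_left id) (show X.up k ≤ X.up a from a2))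
      | low b => exact Or.inr trivial
    · rintro rfl
      exact a3 h

theorem between {R : Idx} {S T : Cut} {w : X} (h1 : X.row R S ≤ w) (h2 : w ≤ X.row R T) :
    ∃ U, w = X.row R U := by
  cases w with
  | low _ => exact h1.elim
  | row R' U => exact ⟨U, by rw [h1.1]⟩
  | up _ => exact h2.elim

theorem row_cmp (R : Idx) (S T : Cut) : X.row R S ≤ X.row R T ∨ X.row R T ≤ X.row R S := by
  by_cases h : S.s ⊆ T.s
  · exact Or.inl ⟨rfl, h⟩
  · obtain ⟨q, hq, hqT⟩ := Set.not_subset.1 h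
    refine Or.inr ⟨rfl, fun r hr => ?_⟩
    rcases le_total r q with h | h
    · exact S.lower _ _ h hq
    · exact absurd (T.lower _ _ h hr) hqT

theorem ent_lo {K : Set X} {R : Idx} (hR : ∀ q, Lo K (X.low (R.f q))) (q : ℚ) (h0 : 0 ≤ q)
    (h1 : q < 1) (hK : X.row R (ent q h0 h1) ∉ K) : Lo K (X.row R (ent q h0 h1)) := by
  refine lo_ext (hR q) ⟨q, le_refl q, D.refl _⟩ fun w hw1 hw2 => ?_
  cases w with
  | low a =>
    obtain ⟨r, _, hr⟩ := hw2
    obtain rfl := R.hf _ q r (D.refl _) (D.trans hw1.le hr)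
    exact absurd hr hw1.not_ge
  | row R' U =>
    obtain ⟨rfl, hU⟩ := hw2
    obtain ⟨r, hr, hL⟩ := hw1.le
    obtain rfl := R'.hf _ q r (D.refl _) hL
    have : U = ent q h0 h1 :=
      Cut.ext' (Set.Subset.antisymm hU fun x hx => U.lower _ _ hx hr)
    rw [this]; exact hK
  | up _ => exact hw2.elim

theorem ext_hi {K : Set X} {R : Idx} (hR : ∀ q, Hi K (X.up (R.g q))) (q : ℚ) (h0 : 0 < q)
    (h1 : q ≤ 1) (hK : X.row R (ext q h0 h1) ∉ K) : Hi K (X.row R (ext q h0 h1)) := by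
  refine hi_ext (hR q) ⟨q, lt_irrefl q, D.refl _⟩ fun w hw1 hw2 => ?_
  cases w with
  | up a =>
    obtain ⟨r, _, hr⟩ := hw2
    obtain rfl := R.hg _ q r (D.refl _) (D.trans hw1.le hr)
    exact absurd hr hw1.not_ge
  | row R' U =>
    obtain ⟨rfl, hU⟩ := hw2
    obtain ⟨r, hr, hL⟩ := hw1.le
    obtain rfl := R.hg _ q r (D.refl _) hL
    have : U = ext q h0 h1 :=
      Cut.ext' (Set.Subset.antisymm (fun x hx => by
        by_contra h
        exact hr (U.lower _ _ (not_lt.1 h) hx)) hU)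
    rw [this]; exact hK
  | low _ => exact hw2.elim

theorem mid_mem {C : Set X} (hC : IsMaxChain (· ≤ ·) C) {R : Idx} {S T U : Cut}
    (hS : X.row R S ∈ C) (hT : X.row R T ∈ C) (h1 : X.row R S ≤ X.row R U)
    (h2 : X.row R U ≤ X.row R T) : X.row R U ∈ C := by
  refine mem_of_cmp hC fun c hc => ?_
  rcases cmp hC.1 hc hS with h | h
  · exact Or.inr (h.trans h1)
  · rcases cmp hC.1 hc hT with h' | h'
    · obtain ⟨V, rfl⟩ := between h h'
      exact row_cmp _ _ _
    · exact Or.inl (h2.trans h')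

theorem above {C : Set X} (hC : IsMaxChain (· ≤ ·) C) {R : Idx} {S : Cut} (hS : X.row R S ∈ C)
    (hno : ∀ T, X.row R T ∈ C → T.s ⊆ S.s) : ∃ q, S.s = Set.Iio q := by
  have key : ∀ q, q ∉ S.s → (∀ a, X.up a ∈ C → D a (R.g q)) → ∃ r, S.s = Set.Iio r := by
    intro q hq hup
    have h0 : 0 < min q 1 := lt_min (by
      by_contra h
      exact hq (S.lower _ _ (not_lt.1 h) S.zero)) one_pos
    have hsub : S.s ⊆ Set.Iio (min q 1) := fun x hx => lt_min (by
      by_contra h
      exact hq (S.lower _ _ (not_lt.1 h) hx)) (by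
      by_contra h
      exact S.one (S.lower _ _ (not_lt.1 h) hx))
    have hle : X.row R S ≤ X.row R (ext _ h0 (min_le_right _ _)) := ⟨rfl, hsub⟩
    have hm : X.row R (ext _ h0 (min_le_right _ _)) ∈ C := by
      refine mem_of_cmp hC fun c hc => ?_
      rcases cmp hC.1 hc hS with h | h
      · exact Or.inr (h.trans hle)
      · cases c with
        | low _ => exact h.elim
        | row R' U => obtain rfl := h.1; exact row_cmp _ _ _
        | up a => exact Or.inl ⟨q, fun h => absurd (min_le_left q 1) (not_le.2 h), hup a hc⟩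
    exact ⟨_, Set.Subset.antisymm hsub (hno _ hm)⟩
  by_cases h : ∃ a, X.up a ∈ C
  · obtain ⟨m, hm, h⟩ := chain_top {a | X.up a ∈ C} (fun a ha b hb => (cmp hC.1 ha hb).symm) h
    obtain ⟨q, hq, hL⟩ : X.row R S ≤ X.up m := (cmp hC.1 hS hm).resolve_right id
    exact key q hq fun a ha => (h a ha).trans hL
  · exact key 1 S.one fun a hc => absurd ⟨a, hc⟩ h

theorem below {C : Set X} (hC : IsMaxChain (· ≤ ·) C) {R : Idx} {S : Cut} (hS : X.row R S ∈ C)
    (hno : ∀ T, X.row R T ∈ C → S.s ⊆ T.s) : ∃ q, S.s = Set.Iic q := by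
  have key : ∀ q, q ∈ S.s → (∀ a, X.low a ∈ C → D a (R.f q)) → ∃ r, S.s = Set.Iic r := by
    intro q hq hup
    have hmx : max q 0 ∈ S.s := by
      rcases le_total q 0 with h | h
      · rw [max_eq_right h]; exact S.zero
      · rw [max_eq_left h]; exact hq
    have h1 : max q 0 < 1 := by
      by_contra h
      exact S.one (S.lower _ _ (not_lt.1 h) hmx)
    have hsub : Set.Iic (max q 0) ⊆ S.s := fun x hx => S.lower _ _ hx hmx
    have hle : X.row R (ent _ (le_max_right _ _) h1) ≤ X.row R S := ⟨rfl, hsub⟩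
    have hm : X.row R (ent _ (le_max_right _ _) h1) ∈ C := by
      refine mem_of_cmp hC fun c hc => ?_
      rcases cmp hC.1 hc hS with h | h
      · cases c with
        | up _ => exact h.elim
        | row R' U => obtain rfl := h.1; exact row_cmp _ _ _
        | low a => exact Or.inr ⟨q, le_max_left q 0, hup a hc⟩
      · exact Or.inl (hle.trans h)
    exact ⟨_, Set.Subset.antisymm (hno _ hm) hsub⟩
  by_cases h : ∃ a, X.low a ∈ C
  · obtain ⟨m, hm, h⟩ := chain_top {a | X.low a ∈ C} (fun a ha b hb => cmp hC.1 ha hb) h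
    obtain ⟨q, hq, hL⟩ : X.low m ≤ X.row R S := (cmp hC.1 hm hS).resolve_right id
    exact key q hq fun a ha => (h a ha).trans hL
  · exact key 0 S.zero fun a hc => absurd ⟨a, hc⟩ h

theorem row_free {K : Set X} (hK : Cs K) (hE : Ess K) {R : Idx} (hl : ∀ q, Lo K (X.low (R.f q)))
    (hu : ∀ q, Hi K (X.up (R.g q))) (S : Cut) : X.row R S ∉ K := by
  intro hk
  obtain ⟨C, hC, hkC, hne⟩ := hE _ hk
  by_cases h1 : ∀ T, X.row R T ∈ C → T.s ⊆ S.s
  · by_cases h2 : ∀ T, X.row R T ∈ C → S.s ⊆ T.s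
    · obtain ⟨q, hq⟩ := above hC hkC h1
      obtain ⟨r, hr⟩ := below hC hkC h2
      have e : Set.Iio q = Set.Iic r := hq.symm.trans hr
      have a1 : r < q := by
        have : r ∈ Set.Iio q := by rw [e]; exact le_refl r
        exact this
      have a2 : (r + q) / 2 ∈ Set.Iic r := by
        rw [← e]
        show (r + q) / 2 < q
        linarith
      have : (r + q) / 2 ≤ r := a2
      linarith
    · push Not at h2
      obtain ⟨T, hT, hTS⟩ := h2
      obtain ⟨q, hq, hqT⟩ := Set.not_subset.1 hTS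
      have q0 : 0 < q := by
        by_contra h
        exact hqT (T.lower _ _ (not_lt.1 h) T.zero)
      have q1 : q ≤ 1 := by
        by_contra h
        exact S.one (S.lower _ _ (not_le.1 h).le hq)
      have b1 : X.row R T ≤ X.row R (ext q q0 q1) := ⟨rfl, fun x hx => by
        by_contra h
        exact hqT (T.lower _ _ (not_lt.1 h) hx)⟩
      have b2 : X.row R (ext q q0 q1) ≤ X.row R S := ⟨rfl, fun x hx => S.lower _ _ (le_of_lt hx) hq⟩
      have b3 : ¬ X.row R S ≤ X.row R (ext q q0 q1) := fun h => lt_irrefl q (h.2 hq)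
      have hm := mid_mem hC hT hkC b1 b2
      have hn : ∀ c ∈ C, c ≤ X.row R (ext q q0 q1) → c ∉ K := fun c hc h =>
        hne c hc (by rintro rfl; exact b3 h)
      exact glue ⟨C, hC, hm, hn⟩ (ext_hi hu q q0 q1 (hn _ hm le_rfl)) hK
  · push Not at h1
    obtain ⟨T, hT, hTS⟩ := h1
    obtain ⟨q, hq, hqS⟩ := Set.not_subset.1 hTS
    have q0 : 0 ≤ q := by
      by_contra h
      exact hqS (S.lower _ _ (not_le.1 h).le S.zero)
    have q1 : q < 1 := by
      by_contra h
      exact T.one (T.lower _ _ (not_lt.1 h) hq)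
    have b1 : X.row R S ≤ X.row R (ent q q0 q1) := ⟨rfl, fun x hx => by
      by_contra h
      exact hqS (S.lower _ _ (not_le.1 h).le hx)⟩
    have b2 : X.row R (ent q q0 q1) ≤ X.row R T := ⟨rfl, fun x hx => T.lower _ _ hx hq⟩
    have b3 : ¬ X.row R (ent q q0 q1) ≤ X.row R S := fun h => hqS (h.2 (le_refl q))
    have hm := mid_mem hC hkC hT b1 b2
    have hn : ∀ c ∈ C, X.row R (ent q q0 q1) ≤ c → c ∉ K := fun c hc h =>
      hne c hc (by rintro rfl; exact b3 h)
    exact glue (ent_lo hl q q0 q1 (hn _ hm le_rfl)) ⟨C, hC, hm, hn⟩ hK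

theorem no_cut {K : Set X} (hK : Cs K) (hE : Ess K) (hc : K.Countable) : False := by
  choose f f1 f2 f3 using low_dense hE hc
  choose g g2 g3 using up_dense hE hc
  obtain ⟨e, he⟩ := Countable.exists_injective_nat ℚ
  let R : Idx := ⟨fun q => f (e q), fun q => g (e q),
    fun a q r h1 h2 => he (spike_inj (h1.trans (f2 _)) (h2.trans (f2 _))),
    fun a q r h1 h2 => he (spike_inj (h1.trans (g2 _)) (h2.trans (g2 _))), fun q => f1 _⟩
  have fr := row_free hK hE (R := R) (fun q => f3 _) fun q => g3 _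
  have l1 := ent_lo (R := R) (fun q => f3 _) 0 le_rfl one_pos (fr _)
  have u1 := ext_hi (R := R) (fun q => g3 _) 1 one_pos le_rfl (fr _)
  have hle : X.row R (ent 0 le_rfl one_pos) ≤ X.row R (ext 1 one_pos le_rfl) :=
    ⟨rfl, fun x hx => show x < 1 from lt_of_le_of_lt (show x ≤ 0 from hx) one_pos⟩
  refine glue (lo_ext l1 hle fun w h1 h2 => ?_) u1 hK
  obtain ⟨U, rfl⟩ := between h1.le h2
  exact fr U

end Pool.Agent.H13.Menger
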