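import Mathlib

set_option autoImplicit false

namespace Pool.Agent.H13.PermList

theorem sumPerm {n : ℕ} {M : Type} [AddCommMonoid M] (F : List (Fin n) → M) :
    ∑ σ : Equiv.Perm (Fin n), F (List.ofFn σ) = ((List.finRange n).permutations'.map F).sum := by
  classical
  rw [← ((List.permutations_perm_permutations' _).map F).sum_eq,
    ← List.sum_toFinset F (List.nodup_permutations _ (List.nodup_finRange n))]
  refine Finset.sum_bij (fun σ _ => List.ofFn σ) (fun σ _ => ?_) (fun σ _ τ _ h => ?_)
    (fun l hl => ?_) (fun _ _ => rfl)
  · rw [List.mem_toFinset, List.mem_permutations]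
    refine (List.perm_ext_iff_of_nodup (List.nodup_ofFn.2 σ.injective) (List.nodup_finRange n)).2
      (fun x => ?_)
    simp only [List.mem_ofFn, List.mem_finRange, iff_true]
    exact σ.surjective x
  · exact DFunLike.coe_injective (List.ofFn_injective h)
  · rw [List.mem_toFinset, List.mem_permutations] at hl
    have h1 : l.length = n := by simpa using hl.length_eq
    have h2 : Function.Injective (fun i : Fin n => l.get (i.cast h1.symm)) :=
      (List.nodup_iff_injective_get.1 (hl.nodup_iff.2 (List.nodup_finRange _))).comp
        (Fin.cast_injective _)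
    refine ⟨Equiv.ofBijective _ (Finite.injective_iff_bijective.1 h2), Finset.mem_univ _, ?_⟩
    refine List.ext_getElem (by simp [h1]) (fun i a b => ?_)
    simp

end Pool.Agent.H13.PermList
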