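import Mathlib

set_option autoImplicit false

namespace Pool.Agent.H13.Ramsey

open Finset

theorem ramsey (C : Type) [Finite C] (q : ℕ) : ∀ m : ℕ, ∃ N : ℕ, ∀ (α : Type) [DecidableEq α]
    (S : Finset α), N ≤ S.card → ∀ χ : Finset α → C, ∃ H ⊆ S, H.card = m ∧
      ∃ γ : C, ∀ P ⊆ H, P.card = q → χ P = γ := by
  classical
  induction q with
  | zero =>
    intro m
    refine ⟨m, fun α _ S hS χ => ?_⟩
    obtain ⟨H, h1, h2⟩ := exists_subset_card_eq hS
    refine ⟨H, h1, h2, χ ∅, fun P _ hP => ?_⟩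
    rw [card_eq_zero.1 hP]
  | succ q ih =>
    have inner : ∀ t : ℕ, ∃ N : ℕ, ∀ (α : Type) [DecidableEq α]
        (S : Finset α), N ≤ S.card → ∀ χ : Finset α → C, ∃ T ⊆ S, T.card = t ∧
          ∃ col : α → C, ∀ P ⊆ T, P.card = q + 1 → ∃ x ∈ P, χ P = col x := by
      intro t
      induction t with
      | zero =>
        refine ⟨0, fun α _ S _ χ => ⟨∅, empty_subset _, rfl, fun _ => χ ∅, fun P hP h => ?_⟩⟩
        rw [subset_empty.1 hP] at h
        simp at h
      | succ t iht =>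
        obtain ⟨N, hN⟩ := iht
        obtain ⟨M, hM⟩ := ih N
        refine ⟨M + 1, fun α _ S hS χ => ?_⟩
        obtain ⟨x, hx⟩ : S.Nonempty := card_pos.1 (by omega)
        obtain ⟨H, h1, h2, γ, h3⟩ := hM α (S.erase x) (by rw [card_erase_of_mem hx]; omega)
          (fun P => χ (insert x P))
        obtain ⟨T, g1, g2, col, g3⟩ := hN α H h2.ge χ
        have hxT : x ∉ T := fun h => notMem_erase x S (h1 (g1 h))
        refine ⟨insert x T, insert_subset hx (g1.trans (h1.trans (erase_subset _ _))),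
          by rw [card_insert_of_notMem hxT, g2], Function.update col x γ, fun P hP hc => ?_⟩
        by_cases hxP : x ∈ P
        · refine ⟨x, hxP, ?_⟩
          rw [Function.update_self, ← h3 (P.erase x) ((subset_insert_iff.1 hP).trans g1)
            (by rw [card_erase_of_mem hxP]; omega), insert_erase hxP]
        · obtain ⟨y, k1, k2⟩ := g3 P ((subset_insert_iff_of_notMem hxP).1 hP) hc
          refine ⟨y, k1, ?_⟩
          rw [Function.update_of_ne (fun h : y = x => hxP (h ▸ k1)), k2]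
    intro m
    have := Fintype.ofFinite C
    obtain ⟨N, hN⟩ := inner (Fintype.card C * m)
    refine ⟨N, fun α _ S hS χ => ?_⟩
    obtain ⟨T, h1, h2, col, h3⟩ := hN α S hS χ
    obtain ⟨γ, -, hγ⟩ := exists_le_card_fiber_of_mul_le_card_of_maps_to (s := T)
      (t := (univ : Finset C)) (f := col) (n := m) (fun _ _ => mem_univ _) ⟨χ ∅, mem_univ _⟩
      (by rw [card_univ, h2])
    obtain ⟨H, g1, g2⟩ := exists_subset_card_eq hγ
    refine ⟨H, g1.trans ((filter_subset _ _).trans h1), g2, γ, fun P hP hc => ?_⟩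
    obtain ⟨x, k1, k2⟩ := h3 P (hP.trans (g1.trans (filter_subset _ _))) hc
    rw [k2, (mem_filter.1 (g1 (hP k1))).2]

theorem ramseyAll (C : Type) [Finite C] (q : ℕ) : ∀ m : ℕ, ∃ N : ℕ, ∀ (α : Type) [DecidableEq α]
    (S : Finset α), N ≤ S.card → ∀ χ : Finset α → C, ∃ H ⊆ S, H.card = m ∧
      ∀ P ⊆ H, ∀ Q ⊆ H, P.card = Q.card → P.card < q → χ P = χ Q := by
  induction q with
  | zero =>
    intro m
    refine ⟨m, fun α _ S hS χ => ?_⟩
    obtain ⟨H, h1, h2⟩ := exists_subset_card_eq hS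
    exact ⟨H, h1, h2, fun P _ Q _ _ h => absurd h (Nat.not_lt_zero _)⟩
  | succ q ih =>
    intro m
    obtain ⟨N, hN⟩ := ih m
    obtain ⟨M, hM⟩ := ramsey C q N
    refine ⟨M, fun α _ S hS χ => ?_⟩
    obtain ⟨H, h1, h2, γ, h3⟩ := hM α S hS χ
    obtain ⟨T, g1, g2, g3⟩ := hN α H h2.ge χ
    refine ⟨T, g1.trans h1, g2, fun P hP Q hQ hc hq => ?_⟩
    by_cases h : P.card = q
    · rw [h3 P (hP.trans g1) h, h3 Q (hQ.trans g1) (hc ▸ h)]
    · exact g3 P hP Q hQ hc (by omega)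

theorem pointed (C : Type) [Finite C] (o : C) (k m : ℕ) : ∃ N : ℕ, ∀ (α : Type) [DecidableEq α]
    (S K : Finset α), N ≤ S.card → Disjoint K S → K.card = k → ∀ χ : Finset α → C, χ K ≠ o →
      ∃ A ⊆ K, ∃ Z ⊆ S, Z.card = m ∧ ∃ γ : C, γ ≠ o ∧ ∀ P ⊆ A ∪ Z, P.card = k →
        (A ⊆ P → χ P = γ) ∧ (¬ A ⊆ P → χ P = o) := by
  classical
  obtain ⟨N, hN⟩ := ramseyAll (Finset (Fin k) → C) (k + 1) m
  refine ⟨N, fun α _ S K hS hd hK χ hχ => ?_⟩
  let e : Fin k → α := fun i => (K.equivFinOfCardEq hK).symm i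
  have he : ∀ A ⊆ K, ∃ I : Finset (Fin k), I.image e = A := by
    intro A hA
    refine ⟨univ.filter (fun i => e i ∈ A), ?_⟩
    ext x
    simp only [mem_image, mem_filter, mem_univ, true_and]
    constructor
    · rintro ⟨i, h1, rfl⟩
      exact h1
    · intro hx
      refine ⟨K.equivFinOfCardEq hK ⟨x, hA hx⟩, ?_, ?_⟩ <;> simp [e, hx]
  obtain ⟨Z, h1, h2, h3⟩ := hN α S hS (fun B I => χ (I.image e ∪ B))
  have h4 : ∀ A ⊆ K, ∀ P ⊆ Z, ∀ Q ⊆ Z, P.card = Q.card → P.card ≤ k → χ (A ∪ P) = χ (A ∪ Q) := by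
    intro A hA P hP Q hQ hc hk
    obtain ⟨I, rfl⟩ := he A hA
    exact congrFun (h3 P hP Q hQ hc (by omega)) I
  obtain ⟨A, g1, g2⟩ := exists_min_image (K.powerset.filter
    (fun A => ∃ B ⊆ Z, A.card + B.card = k ∧ χ (A ∪ B) ≠ o)) card
    ⟨K, mem_filter.2 ⟨mem_powerset_self _, ∅, empty_subset _, by simpa using hK, by simpa using hχ⟩⟩
  obtain ⟨g3, B, g4, g5, g6⟩ := mem_filter.1 g1
  have g7 := mem_powerset.1 g3
  refine ⟨A, g7, Z, h1, h2, _, g6, fun P hP hc => ?_⟩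
  have k1 : P \ A ⊆ Z := fun x hx =>
    (mem_union.1 (hP (mem_sdiff.1 hx).1)).resolve_left (mem_sdiff.1 hx).2
  have k2 : (P \ A).card + (P ∩ A).card = k := by rw [card_sdiff_add_card_inter, hc]
  constructor
  · intro hA
    rw [inter_eq_right.2 hA] at k2
    rw [← h4 A g7 _ k1 B g4 (by omega) (by omega), union_sdiff_of_subset hA]
  · intro hA
    by_contra hne
    have k3 := g2 (P ∩ A) (mem_filter.2 ⟨mem_powerset.2 (inter_subset_right.trans g7), P \ A, k1,
      by omega, by rwa [union_comm, sdiff_union_inter]⟩)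
    exact hA (inter_eq_right.1 (eq_of_subset_of_card_le inter_subset_right k3))

theorem ordered (q m : ℕ) : ∃ N : ℕ, ∀ (α Γ : Type) [LinearOrder α] [Inhabited α]
    (S : Finset α), N ≤ S.card → ∀ c : Finset α → Γ, ∃ h : ℕ → α,
      (∀ x < m, h x ∈ S) ∧ (∀ x y, x < y → y < m → h x < h y) ∧
      ∀ w w' : ℕ → ℕ, (∀ x y, x < y → y < q → w x < w y) → (∀ x < q, w x < m) →
        (∀ x y, x < y → y < q → w' x < w' y) → (∀ x < q, w' x < m) →
        ∀ P ⊆ range q, ∀ Q ⊆ range q, c ((P.image w).image h) = c ((Q.image w).image h) →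
          c ((P.image w').image h) = c ((Q.image w').image h) := by
  classical
  obtain ⟨N, hN⟩ := ramsey (Finset (Fin q) → Finset (Fin q) → Prop) q m
  refine ⟨N, fun α Γ _ _ S hS c => ?_⟩
  obtain ⟨H, h1, h2, γ, h3⟩ := hN α S hS (fun W P Q => ∃ hW : W.card = q,
    c (P.image (W.orderEmbOfFin hW)) = c (Q.image (W.orderEmbOfFin hW)))
  let h : ℕ → α := fun x => if hx : x < m then H.orderEmbOfFin h2 ⟨x, hx⟩ else default
  have g1 : ∀ x < m, h x ∈ H := fun x hx => by simp [h, hx]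
  have g2 : ∀ x y, x < y → y < m → h x < h y := fun x y hxy hy => by
    simp [h, hy, hxy.trans hy, hxy]
  refine ⟨h, fun x hx => h1 (g1 x hx), g2, ?_⟩
  have key : ∀ w : ℕ → ℕ, (∀ x y, x < y → y < q → w x < w y) → (∀ x < q, w x < m) →
      ∀ P Q : Finset (Fin q), γ P Q ↔
        c (P.image (fun i : Fin q => h (w i))) = c (Q.image (fun i : Fin q => h (w i))) := by
    intro w k1 k2 P Q
    have k3 : StrictMono (fun i : Fin q => h (w i)) := fun i j hij =>
      g2 _ _ (k1 _ _ hij j.2) (k2 _ j.2)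
    have k4 : (univ.image (fun i : Fin q => h (w i))).card = q := by
      rw [card_image_of_injective _ k3.injective]; simp
    have k5 := orderEmbOfFin_unique k4 (f := fun i : Fin q => h (w i))
      (fun i => mem_image_of_mem _ (mem_univ i)) k3
    rw [← h3 _ (fun x hx => by
      obtain ⟨i, -, rfl⟩ := mem_image.1 hx
      exact g1 _ (k2 _ i.2)) k4]
    constructor
    · rintro ⟨hW, k6⟩
      rw [k5]
      exact k6
    · intro k6
      refine ⟨k4, ?_⟩
      rw [← k5]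
      exact k6
  have conv : ∀ P ⊆ range q, ∃ P' : Finset (Fin q), ∀ w : ℕ → ℕ,
      (P.image w).image h = P'.image (fun i : Fin q => h (w i)) := by
    intro P hP
    refine ⟨univ.filter (fun i => i.1 ∈ P), fun w => ?_⟩
    ext x
    simp only [mem_image, mem_filter, mem_univ, true_and]
    constructor
    · rintro ⟨_, ⟨y, k1, rfl⟩, rfl⟩
      exact ⟨⟨y, mem_range.1 (hP k1)⟩, k1, rfl⟩
    · rintro ⟨i, k1, rfl⟩
      exact ⟨_, ⟨i, k1, rfl⟩, rfl⟩
  intro w w' a1 a2 a3 a4 P hP Q hQ hc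
  obtain ⟨P', k1⟩ := conv P hP
  obtain ⟨Q', k2⟩ := conv Q hQ
  rw [k1, k2] at hc ⊢
  exact (key w' a3 a4 P' Q').1 ((key w a1 a2 P' Q').2 hc)

end Pool.Agent.H13.Ramsey
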