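import Mathlib

namespace Pool.Agent.H13.RookT
open Finset

/-- `S` is a covering set of rooks on the triangular board with `n` rows. -/
def Cov (n : ℕ) (S : Finset (ℕ × ℕ × ℕ)) : Prop :=
  (∀ s ∈ S, s.1 + s.2.1 + s.2.2 + 1 = n) ∧
    ∀ a b c : ℕ, a + b + c + 1 = n → ∃ s ∈ S, s.1 = a ∨ s.2.1 = b ∨ s.2.2 = c

/-- The least size of a covering set. -/
noncomputable def gam (n : ℕ) : ℕ := sInf {k | ∃ S, Cov n S ∧ S.card = k}

theorem gam_le {n : ℕ} {S : Finset (ℕ × ℕ × ℕ)} (h : Cov n S) : gam n ≤ S.card := Nat.sInf_le ⟨S, h, rfl⟩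

theorem cov1 {n : ℕ} {S : Finset (ℕ × ℕ × ℕ)} (h : Cov n S) :
    Cov (n + 1) (insert (0, 0, n) (S.image fun s => (s.1 + 1, s.2.1, s.2.2))) := by
  refine ⟨?_, fun a b c habc => ?_⟩
  · intro s hs
    rcases mem_insert.1 hs with rfl | hs
    · simp
    · obtain ⟨t, ht, rfl⟩ := mem_image.1 hs
      have := h.1 t ht
      simp only; omega
  · rcases a with _ | a
    · exact ⟨_, mem_insert_self _ _, Or.inl rfl⟩
    · obtain ⟨t, ht, e⟩ := h.2 a b c (by omega)
      exact ⟨_, mem_insert_of_mem (mem_image_of_mem _ ht), by simp only; omega⟩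

theorem cov2 {n : ℕ} {S : Finset (ℕ × ℕ × ℕ)} (h : Cov n S) :
    Cov (n + 2) (insert (0, 0, n + 1) (S.image fun s => (s.1 + 1, s.2.1 + 1, s.2.2))) := by
  refine ⟨?_, fun a b c habc => ?_⟩
  · intro s hs
    rcases mem_insert.1 hs with rfl | hs
    · simp
    · obtain ⟨t, ht, rfl⟩ := mem_image.1 hs
      have := h.1 t ht
      simp only; omega
  · rcases a with _ | a
    · exact ⟨_, mem_insert_self _ _, Or.inl rfl⟩
    rcases b with _ | b
    · exact ⟨_, mem_insert_self _ _, Or.inr (Or.inl rfl)⟩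
    · obtain ⟨t, ht, e⟩ := h.2 a b c (by omega)
      exact ⟨_, mem_insert_of_mem (mem_image_of_mem _ ht), by simp only; omega⟩

theorem cov0 : Cov 0 ∅ := ⟨by simp, fun a b c h => by omega⟩

theorem ex (n : ℕ) : ∃ S, Cov n S ∧ S.card = gam n := by
  have : {k | ∃ S, Cov n S ∧ S.card = k}.Nonempty := by
    induction n with
    | zero => exact ⟨_, _, cov0, rfl⟩
    | succ n ih => obtain ⟨_, S, h, -⟩ := ih; exact ⟨_, _, cov1 h, rfl⟩
  exact Nat.sInf_mem this

theorem gam1 (n : ℕ) : gam (n + 1) ≤ gam n + 1 := by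
  obtain ⟨S, h, e⟩ := ex n
  refine (gam_le (cov1 h)).trans ((card_insert_le _ _).trans ?_)
  have := card_image_le (s := S) (f := fun s : ℕ × ℕ × ℕ => (s.1 + 1, s.2.1, s.2.2))
  omega

theorem gam2 (n : ℕ) : gam (n + 2) ≤ gam n + 1 := by
  obtain ⟨S, h, e⟩ := ex n
  refine (gam_le (cov2 h)).trans ((card_insert_le _ _).trans ?_)
  have := card_image_le (s := S) (f := fun s : ℕ × ℕ × ℕ => (s.1 + 1, s.2.1 + 1, s.2.2))
  omega

theorem gamr (n r : ℕ) : gam (n + 2 * r) ≤ gam n + r := by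
  induction r with
  | zero => simp
  | succ r ih => have := gam2 (n + 2 * r); rw [show n + 2 * (r + 1) = n + 2 * r + 2 by ring]; omega

theorem gamr' (n r : ℕ) : 2 * gam (n + r) ≤ 2 * gam n + r + 1 := by
  obtain ⟨q, rfl | rfl⟩ := Nat.even_or_odd' r
  · have := gamr n q; omega
  · have := gamr n q
    have := gam1 (n + 2 * q)
    rw [← add_assoc]; omega

def rk (h i : ℕ) : ℕ × ℕ × ℕ :=
  if i < 4 * h then (2 * i + 1, 2 * (i + 4 * h - 1) + 1, 2 * (8 * h - 2 - 2 * i) + 1)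
  else if i < 8 * h - 1 then (2 * i + 1, 2 * (i - 4 * h) + 1, 2 * (16 * h - 3 - 2 * i) + 1)
  else if i < 9 * h - 1 then (2 * (i + 1 - 8 * h), 2 * (i + 1 - 8 * h), 24 * h - 3 - 4 * (i + 1 - 8 * h))
  else if i < 10 * h - 1 then (2 * (i + 1 - 8 * h), 26 * h - 3 - 4 * (i + 1 - 8 * h), 2 * (i + 1 - 9 * h))
  else (24 * h - 3 - 4 * (i + 1 - 9 * h), 2 * (i + 1 - 9 * h), 2 * (i + 1 - 9 * h))

theorem fam (h : ℕ) (hh : 1 ≤ h) : gam (24 * h - 2) ≤ 11 * h - 1 := by
  have : Cov (24 * h - 2) ((range (11 * h - 1)).image (rk h)) := by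
    refine ⟨?_, fun a b c habc => ?_⟩
    · intro s hs
      obtain ⟨i, hi, rfl⟩ := mem_image.1 hs
      rw [mem_range] at hi
      unfold rk; split_ifs <;> simp only <;> omega
    · have K : ∀ i, i < 11 * h - 1 → ((rk h i).1 = a ∨ (rk h i).2.1 = b ∨ (rk h i).2.2 = c) →
          ∃ s ∈ (range (11 * h - 1)).image (rk h), s.1 = a ∨ s.2.1 = b ∨ s.2.2 = c :=
        fun i hi e => ⟨_, mem_image_of_mem _ (mem_range.2 hi), e⟩
      have : (a % 2 = 1 ∧ a < 16 * h - 1) ∨ (a % 2 = 0 ∧ a < 4 * h) ∨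
          (b % 2 = 1 ∧ b < 8 * h - 2) ∨ (b % 2 = 1 ∧ 8 * h - 2 ≤ b ∧ b < 16 * h - 1) ∨
          (b % 2 = 0 ∧ b < 2 * h) ∨ (b % 2 = 0 ∧ 2 * h ≤ b ∧ b < 4 * h) ∨
          (c % 4 = 1 ∧ c < 16 * h - 1) ∨ (c % 4 = 3 ∧ c < 16 * h - 1) ∨
          (c % 2 = 0 ∧ c < 4 * h) := by omega
      rcases this with e | e | e | e | e | e | e | e | e
      · refine K (a / 2) (by omega) ?_
        unfold rk; split_ifs <;> simp only <;> omega
      · refine K (a / 2 + 8 * h - 1) (by omega) ?_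
        unfold rk; split_ifs <;> simp only <;> omega
      · refine K (b / 2 + 4 * h) (by omega) ?_
        unfold rk; split_ifs <;> simp only <;> omega
      · refine K (b / 2 + 1 - 4 * h) (by omega) ?_
        unfold rk; split_ifs <;> simp only <;> omega
      · refine K (b / 2 + 8 * h - 1) (by omega) ?_
        unfold rk; split_ifs <;> simp only <;> omega
      · refine K (b / 2 + 9 * h - 1) (by omega) ?_
        unfold rk; split_ifs <;> simp only <;> omega
      · refine K (4 * h - 1 - c / 4) (by omega) ?_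
        unfold rk; split_ifs <;> simp only <;> omega
      · refine K (8 * h - 2 - c / 4) (by omega) ?_
        unfold rk; split_ifs <;> simp only <;> omega
      · refine K (c / 2 + 9 * h - 1) (by omega) ?_
        unfold rk; split_ifs <;> simp only <;> omega
  exact (gam_le this).trans (card_image_le.trans (by simp))

theorem upper (n : ℕ) : 24 * gam n ≤ 11 * n + 33 := by
  by_cases hn : n ≤ 21
  · have := gamr' 0 n
    have h0 : gam 0 ≤ 0 := gam_le cov0
    rw [zero_add] at this; omega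
  · have h1 := fam ((n + 2) / 24) (by omega)
    have h2 := gamr' (24 * ((n + 2) / 24) - 2) ((n + 2) % 24)
    rw [show 24 * ((n + 2) / 24) - 2 + (n + 2) % 24 = n by omega] at h2
    omega

theorem chk (n : ℕ) (L : List (ℕ × ℕ × ℕ)) (h1 : ∀ s ∈ L, s.1 + s.2.1 + s.2.2 + 1 = n)
    (h2 : ∀ a < n, ∀ b < n - a, ∃ s ∈ L, s.1 = a ∨ s.2.1 = b ∨ s.2.2 = n - 1 - a - b) : gam n ≤ L.length := by
  refine (gam_le (S := L.toFinset) ⟨by simpa using h1, fun a b c e => ?_⟩).trans (List.toFinset_card_le _)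
  obtain ⟨s, hs, h⟩ := h2 a (by omega) b (by omega)
  exact ⟨s, List.mem_toFinset.2 hs, by omega⟩

theorem g20 : gam 20 ≤ 9 := chk 20 [(0, 18, 1), (9, 0, 10), (11, 8, 0), (5, 12, 2), (2, 1, 16), (13, 2, 4),
  (3, 4, 12), (7, 6, 6), (1, 10, 8)] (by decide) (by decide +kernel)

theorem g31 : gam 31 ≤ 14 := chk 31 [(0, 14, 16), (8, 18, 4), (3, 3, 24), (12, 4, 14), (1, 26, 3), (20, 2, 8),
  (4, 20, 6), (6, 6, 18), (2, 8, 20), (16, 12, 2), (10, 10, 10), (14, 16, 0), (18, 0, 12), (28, 1, 1)]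
  (by decide) (by decide +kernel)

theorem low {S : Finset (ℕ × ℕ × ℕ)} (f : ℕ × ℕ × ℕ → ℕ) (x : ℕ) (h : ∀ t < x, ∃ s ∈ S, f s = t) :
    x ≤ ∑ s ∈ S, if f s < x then 1 else 0 := by
  rw [← card_filter]
  refine (card_range x).symm.le.trans ((card_le_card ?_).trans (card_image_le (f := f)))
  intro t ht
  obtain ⟨s, hs, rfl⟩ := h t (mem_range.1 ht)
  exact mem_image_of_mem _ (mem_filter.2 ⟨hs, mem_range.1 ht⟩)

theorem mid {S : Finset (ℕ × ℕ × ℕ)} (f g : ℕ × ℕ × ℕ → ℕ) (y z m : ℕ)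
    (h : ∀ t < m, ∃ s ∈ S, f s = y + t ∨ g s = z + (m - 1 - t)) :
    m ≤ (∑ s ∈ S, if y ≤ f s ∧ f s < y + m then 1 else 0) + ∑ s ∈ S, if z ≤ g s ∧ g s < z + m then 1 else 0 := by
  rw [← card_filter, ← card_filter]
  refine (card_range m).symm.le.trans ((card_le_card (t := (S.filter fun s => y ≤ f s ∧ f s < y + m).image
    (fun s => f s - y) ∪ (S.filter fun s => z ≤ g s ∧ g s < z + m).image (fun s => z + m - 1 - g s)) ?_).trans
    ((card_union_le _ _).trans (add_le_add card_image_le card_image_le)))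
  intro t ht
  rw [mem_range] at ht
  obtain ⟨s, hs, e | e⟩ := h t ht
  · exact mem_union_left _ (mem_image.2 ⟨s, mem_filter.2 ⟨hs, by omega⟩, by omega⟩)
  · exact mem_union_right _ (mem_image.2 ⟨s, mem_filter.2 ⟨hs, by omega⟩, by omega⟩)

theorem first (S : Finset (ℕ × ℕ × ℕ)) (f : ℕ × ℕ × ℕ → ℕ) :
    ∃ x, (∀ s ∈ S, f s ≠ x) ∧ ∀ t < x, ∃ s ∈ S, f s = t := by
  classical
  have : ∃ x, ∀ s ∈ S, f s ≠ x := by
    obtain ⟨x, hx⟩ := Infinite.exists_notMem_finset (S.image f)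
    exact ⟨x, fun s hs e => hx (e ▸ mem_image_of_mem _ hs)⟩
  refine ⟨Nat.find this, Nat.find_spec this, fun t ht => ?_⟩
  have := Nat.find_min this ht
  push Not at this
  exact this

theorem lower (n : ℕ) : 3 * n ≤ 7 * gam n := by
  obtain ⟨S, ⟨h1, h2⟩, e⟩ := ex n
  rw [← e]
  obtain ⟨x, x1, x2⟩ := first S fun s => s.1
  obtain ⟨y, y1, y2⟩ := first S fun s => s.2.1
  obtain ⟨z, z1, z2⟩ := first S fun s => s.2.2
  by_cases hs : n ≤ x + y + z
  · obtain ⟨x', y', z', hx, hy, hz, e'⟩ : ∃ x' y' z', x' ≤ x ∧ y' ≤ y ∧ z' ≤ z ∧ x' + y' + z' = n :=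
      ⟨min x n, min y (n - min x n), n - min x n - min y (n - min x n), by omega, by omega, by omega, by omega⟩
    have a1 := low (fun s => s.1) x' fun t ht => x2 t (by omega)
    have a2 := low (fun s => s.2.1) y' fun t ht => y2 t (by omega)
    have a3 := low (fun s => s.2.2) z' fun t ht => z2 t (by omega)
    have : ∑ s ∈ S, ((if s.1 < x' then 1 else 0) + (if s.2.1 < y' then 1 else 0) +
        (if s.2.2 < z' then 1 else 0)) ≤ ∑ s ∈ S, 2 :=
      sum_le_sum fun s hs => by have := h1 s hs; split_ifs <;> omega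
    rw [sum_add_distrib, sum_add_distrib, sum_const, smul_eq_mul] at this
    omega
  · obtain ⟨m, hm⟩ : ∃ m, x + y + z + m = n := ⟨n - (x + y + z), by omega⟩
    have a1 := low (fun s => s.1) x x2
    have a2 := low (fun s => s.2.1) y y2
    have a3 := low (fun s => s.2.2) z z2
    have b1 := mid (S := S) (fun s => s.2.1) (fun s => s.2.2) y z m fun t ht => by
      obtain ⟨s, hs, e⟩ := h2 x (y + t) (z + (m - 1 - t)) (by omega)
      exact ⟨s, hs, e.resolve_left (x1 s hs)⟩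
    have b2 := mid (S := S) (fun s => s.1) (fun s => s.2.2) x z m fun t ht => by
      obtain ⟨s, hs, e⟩ := h2 (x + t) y (z + (m - 1 - t)) (by omega)
      have := y1 s hs
      exact ⟨s, hs, by tauto⟩
    have b3 := mid (S := S) (fun s => s.1) (fun s => s.2.1) x y m fun t ht => by
      obtain ⟨s, hs, e⟩ := h2 (x + t) (y + (m - 1 - t)) z (by omega)
      have := z1 s hs
      exact ⟨s, hs, by tauto⟩
    have : ∑ s ∈ S, (3 * (if s.1 < x then 1 else 0) + 3 * (if s.2.1 < y then 1 else 0) +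
        3 * (if s.2.2 < z then 1 else 0) + 2 * (if x ≤ s.1 ∧ s.1 < x + m then 1 else 0) +
        2 * (if y ≤ s.2.1 ∧ s.2.1 < y + m then 1 else 0) +
        2 * (if z ≤ s.2.2 ∧ s.2.2 < z + m then 1 else 0)) ≤ ∑ s ∈ S, 7 :=
      sum_le_sum fun s hs => by have := h1 s hs; split_ifs <;> omega
    simp only [sum_add_distrib, ← mul_sum, sum_const, smul_eq_mul] at this
    omega

end Pool.Agent.H13.RookT
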