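import Mathlib
import Pool.Agent.H13.Ramsey

set_option autoImplicit false

namespace Pool.Agent.H13.Schemes

open Finset

def Mono (k : ℕ) (t : ℕ → ℕ) : Prop := ∀ x y, x < y → y < k → t x < t y

theorem Mono.inj {k : ℕ} {t : ℕ → ℕ} (h : Mono k t) {x y : ℕ} (hx : x < k) (hy : y < k)
    (e : t x = t y) : x = y := by
  rcases lt_trichotomy x y with g | g | g
  · have := h x y g hy; omega
  · exact g
  · have := h y x g hx; omega

theorem enum (k : ℕ) (Q : Finset ℕ) (hQ : Q.card = k) : ∃ g : ℕ → ℕ, Mono k g ∧
    Q = (range k).image g := by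
  refine ⟨fun x => if hx : x < k then Q.orderEmbOfFin hQ ⟨x, hx⟩ else 0, fun x y h1 h2 => ?_, ?_⟩
  · simp [h2, h1.trans h2, h1]
  · ext z
    simp only [mem_image, mem_range]
    constructor
    · intro hz
      have : z ∈ Set.range (Q.orderEmbOfFin hQ) := by rw [range_orderEmbOfFin]; exact hz
      obtain ⟨i, rfl⟩ := this
      exact ⟨i.1, i.2, by simp⟩
    · rintro ⟨x, h1, rfl⟩
      simp [h1]

def Hom {Γ : Type} (C : Finset ℕ → Γ) (q m : ℕ) : Prop :=
  ∀ w w' : ℕ → ℕ, Mono q w → (∀ x < q, w x < m) → Mono q w' → (∀ x < q, w' x < m) →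
    ∀ P ⊆ range q, ∀ Q ⊆ range q, C (P.image w) = C (Q.image w) → C (P.image w') = C (Q.image w')

def Move (k b j : ℕ) (t t' : ℕ → ℕ) : Prop :=
  Mono k t ∧ Mono k t' ∧ (∀ x < k, t x < b) ∧ (∀ x < k, t' x < b) ∧
    ∀ x < k, x ≠ j → t x = t' x

theorem moveRep {k l0 j : ℕ} (hk : k < l0) (hj : j < k) {t t' : ℕ → ℕ}
    (h : Move k (3 * l0) j t t') (hlt : t j < t' j) : ∃ w : ℕ → ℕ, Mono (2 * l0) w ∧
      (∀ x < 2 * l0, w x < 5 * l0) ∧
      ((range k).image (fun x => if x ≤ j then x else x + 1)).image w = (range k).image t ∧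
      ((range k).image (fun x => if x < j then x else x + 1)).image w = (range k).image t' := by
  obtain ⟨h1, h2, h3, h4, h5⟩ := h
  refine ⟨fun x => if x ≤ j then t x else if x ≤ k then t' (x - 1) else 3 * l0 + x, ?_, ?_, ?_, ?_⟩
  · intro x y g1 g2
    dsimp only
    split_ifs with a1 a2 a3 a4 a5 a6 a7 a8
    · exact h1 x y g1 (by omega)
    · have b1 : t x ≤ t j := by
        rcases eq_or_lt_of_le a1 with e | e
        · rw [e]
        · exact (h1 x j e hj).le
      have b2 : t' j ≤ t' (y - 1) := by
        rcases eq_or_lt_of_le (show j ≤ y - 1 by omega) with e | e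
        · rw [← e]
        · exact (h2 _ _ e (by omega)).le
      omega
    · have := h3 x (by omega); omega
    · omega
    · exact h2 _ _ (by omega) (by omega)
    · have := h4 (x - 1) (by omega); omega
    · omega
    · omega
    · omega
  · intro x hx
    dsimp only
    split_ifs with a1 a2
    · have := h3 x (by omega); omega
    · have := h4 (x - 1) (by omega); omega
    · omega
  · rw [image_image]
    refine image_congr (fun x hx => ?_)
    have hx' : x < k := by simpa using hx
    by_cases a : x ≤ j
    · simp [a]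
    · simp only [Function.comp, if_neg a]
      rw [if_neg (by omega), if_pos (by omega), h5 x hx' (by omega)]
      simp
  · rw [image_image]
    refine image_congr (fun x hx => ?_)
    have hx' : x < k := by simpa using hx
    by_cases a : x < j
    · simp only [Function.comp, if_pos a]
      rw [if_pos a.le, h5 x hx' (by omega)]
    · simp only [Function.comp, if_neg a]
      rw [if_neg (by omega), if_pos (by omega)]
      simp

theorem moveInv {Γ : Type} {C : Finset ℕ → Γ} {k l0 j : ℕ} (hC : Hom C (2 * l0) (5 * l0))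
    (hk : k < l0) (hj : j < k) {t t' u u' : ℕ → ℕ}
    (h : Move k (3 * l0) j t t') (hlt : t j < t' j) (h' : Move k (3 * l0) j u u')
    (e : C ((range k).image t) = C ((range k).image t')) :
    C ((range k).image u) = C ((range k).image u') := by
  have main : ∀ u u' : ℕ → ℕ, Move k (3 * l0) j u u' → u j < u' j →
      C ((range k).image u) = C ((range k).image u') := by
    intro u u' h' hlt'
    obtain ⟨w, a1, a2, a3, a4⟩ := moveRep hk hj h hlt
    obtain ⟨w', b1, b2, b3, b4⟩ := moveRep hk hj h' hlt'
    rw [← b3, ← b4]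
    refine hC w w' a1 a2 b1 b2 _ (fun z hz => ?_) _ (fun z hz => ?_) (by rw [a3, a4, e])
    · obtain ⟨x, c1, rfl⟩ := mem_image.1 hz
      have := mem_range.1 c1
      rw [mem_range]
      split_ifs <;> omega
    · obtain ⟨x, c1, rfl⟩ := mem_image.1 hz
      have := mem_range.1 c1
      rw [mem_range]
      split_ifs <;> omega
  rcases lt_trichotomy (u j) (u' j) with g | g | g
  · exact main u u' h' g
  · congr 1
    refine image_congr (fun x hx => ?_)
    by_cases a : x = j
    · rw [a, g]
    · exact h'.2.2.2.2 x (by simpa using hx) a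
  · exact (main u' u ⟨h'.2.1, h'.1, h'.2.2.2.1, h'.2.2.1,
      fun x a b => (h'.2.2.2.2 x a b).symm⟩ g).symm

def pos (E : Finset ℕ) (x : ℕ) : ℕ := 3 * x + if x ∈ E then 1 else 0

theorem pos_inj (E : Finset ℕ) : Function.Injective (pos E) := by
  intro x y h
  unfold pos at h
  split_ifs at h <;> omega

theorem core {Γ : Type} {C : Finset ℕ → Γ} {k l l0 : ℕ} (hC : Hom C (2 * l0) (5 * l0))
    (hk : k < l) (hl : l ≤ l0) (w : Γ → ℚ)
    (h0 : ∑ P ∈ powersetCard k ((range l).image (pos ∅)), w (C P) ≠ 0)
    (h1 : ∀ E : Finset ℕ, ∑ P ∈ powersetCard k ((range l).image (pos E)), w (C P) ≠ 0 →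
      ∀ P ∈ powersetCard k ((range l).image (pos E)),
        ∃ P' ∈ powersetCard k ((range l).image (pos ∅)), C P = C P') :
    ∀ P ∈ powersetCard k (range l), C P = C (range k) := by
  classical
  let J : Finset ℕ := (range k).filter (fun j => ∃ t t', Move k (3 * l0) j t t' ∧
    C ((range k).image t) ≠ C ((range k).image t'))
  have nJ : ∀ j < k, j ∉ J → ∀ t t', Move k (3 * l0) j t t' →
      C ((range k).image t) = C ((range k).image t') := by
    intro j a1 a2 t t' a3
    by_contra a4
    exact a2 (mem_filter.2 ⟨mem_range.2 a1, t, t', a3, a4⟩)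
  by_cases hJ : J.Nonempty
  swap
  · have hJ' : ∀ j, j ∉ J := fun j hj => hJ ⟨j, hj⟩
    intro P hP
    obtain ⟨a1, a2⟩ := mem_powersetCard.1 hP
    obtain ⟨g, b1, b2⟩ := enum k P a2
    have b3 : ∀ x < k, g x < l := fun x hx =>
      mem_range.1 (a1 (b2 ▸ mem_image_of_mem g (mem_range.2 hx)))
    have b4 : ∀ x < k, x ≤ g x := by
      intro x
      induction x with
      | zero => omega
      | succ x ih =>
        intro hx
        have := ih (by omega)
        have := b1 x (x + 1) (by omega) hx
        omega
    have b5 : ∀ j, Mono k (fun x => if x < j then x else g x) := by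
      intro j x y c1 c2
      dsimp only
      have := b4 y c2
      have := b1 x y c1 c2
      split_ifs <;> omega
    have b6 : ∀ j, ∀ x < k, (fun x => if x < j then x else g x) x < 3 * l0 := by
      intro j x hx
      dsimp only
      have := b3 x hx
      split_ifs <;> omega
    have b7 : ∀ j ≤ k, C ((range k).image (fun x => if x < j then x else g x)) = C P := by
      intro j
      induction j with
      | zero => intro _; simp [b2]
      | succ j ih =>
        intro hj
        rw [← ih (by omega)]
        refine nJ j (by omega) (hJ' j) _ _ ⟨b5 _, b5 _, b6 _, b6 _, fun x c1 c2 => ?_⟩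
        dsimp only
        split_ifs <;> omega
    rw [← b7 k le_rfl]
    congr 1
    rw [image_congr (g := id) (fun x hx => by simpa using fun h => absurd (by simpa using hx) (not_lt.2 h)), image_id]
  exfalso
  have Jk : ∀ j ∈ J, j < k := fun j hj => mem_range.1 (mem_filter.1 hj).1
  let D : Finset ℕ := insert (J.max' hJ + 1) J
  have D1 : D.card = J.card + 1 := card_insert_of_notMem (fun h => by
    have := J.le_max' _ h; omega)
  have D2 : ∀ i ∈ D, ∃ d, d ≤ 1 ∧ ∃ j ∈ J, j + d = i := by
    intro i hi
    rcases mem_insert.1 hi with e | e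
    · exact ⟨1, le_rfl, _, J.max'_mem hJ, e.symm⟩
    · exact ⟨0, by omega, i, e, rfl⟩
  have mv : ∀ (g : ℕ → ℕ) (E : Finset ℕ), Mono k g → Mono k (pos E ∘ g) := by
    intro g E a x y c1 c2
    have := a x y c1 c2
    simp only [Function.comp, pos]
    split_ifs <;> omega
  have bd : ∀ (g : ℕ → ℕ) (E : Finset ℕ), (∀ x < k, g x < l) → ∀ x < k, (pos E ∘ g) x < 3 * l0 := by
    intro g E a x c
    have := a x c
    simp only [Function.comp, pos]
    split_ifs <;> omega
  have S1 : ∀ E : Finset ℕ, ∑ P ∈ powersetCard k ((range l).image (pos E)), w (C P) =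
      ∑ Q ∈ powersetCard k (range l), w (C (Q.image (pos E))) := by
    intro E
    have : (range l).image (pos E) = (range l).map ⟨pos E, pos_inj E⟩ := by
      rw [map_eq_image]; rfl
    rw [this, powersetCard_map, sum_map]
    refine sum_congr rfl (fun Q _ => ?_)
    simp [map_eq_image]
  have S2 : ∑ E ∈ D.powerset, (-1 : ℚ) ^ E.card *
      ∑ P ∈ powersetCard k ((range l).image (pos E)), w (C P) = 0 := by
    simp only [S1, mul_sum]
    rw [sum_comm]
    refine sum_eq_zero (fun Q hQ => ?_)
    obtain ⟨a1, a2⟩ := mem_powersetCard.1 hQ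
    obtain ⟨g, b1, b2⟩ := enum k Q a2
    have b3 : ∀ x < k, g x < l := fun x hx =>
      mem_range.1 (a1 (b2 ▸ mem_image_of_mem g (mem_range.2 hx)))
    obtain ⟨i, c1, c2⟩ : ∃ i ∈ D, i ∉ J.image g := by
      by_contra c
      push Not at c
      have := card_le_card (show D ⊆ J.image g from c)
      have := card_image_le (s := J) (f := g)
      omega
    rw [← insert_erase c1, sum_powerset_insert (notMem_erase _ _), ← sum_add_distrib]
    refine sum_eq_zero (fun E hE => ?_)
    have c3 : i ∉ E := fun h => notMem_erase i D (mem_powerset.1 hE h)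
    have c4 : C (Q.image (pos (insert i E))) = C (Q.image (pos E)) := by
      rw [b2, image_image, image_image]
      by_cases c5 : ∃ j < k, g j = i
      · obtain ⟨j, d1, d2⟩ := c5
        refine nJ j d1 (fun h => c2 (d2 ▸ mem_image_of_mem g h)) _ _
          ⟨mv g _ b1, mv g _ b1, bd g _ b3, bd g _ b3, fun x e1 e2 => ?_⟩
        have : g x ≠ i := fun h => e2 (b1.inj e1 d1 (h.trans d2.symm))
        simp [pos, this]
      · congr 1
        refine image_congr (fun x hx => ?_)
        have : g x ≠ i := fun h => c5 ⟨x, by simpa using hx, h⟩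
        simp [pos, this]
    rw [card_insert_of_notMem c3, c4]
    ring
  obtain ⟨E, e1, e2, e3⟩ : ∃ E ∈ D.powerset, E ≠ ∅ ∧
      ∑ P ∈ powersetCard k ((range l).image (pos E)), w (C P) ≠ 0 := by
    by_contra c
    push Not at c
    rw [sum_eq_single ∅ (fun E a b => by rw [c E a (nonempty_iff_ne_empty.2 b), mul_zero]) (by simp)] at S2
    exact h0 (by simpa using S2)
  obtain ⟨i, hi⟩ := nonempty_iff_ne_empty.2 e2
  obtain ⟨d, d1, j, d2, d3⟩ := D2 i (mem_powerset.1 e1 hi)
  have g1 : Mono k (fun x => x + d) := fun x y a _ => by dsimp only; omega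
  have g2 : ∀ x < k, (fun x => x + d) x < l := fun x a => by dsimp only; omega
  obtain ⟨P', p1, p2⟩ := h1 E e3 ((range k).image (pos E ∘ (fun x => x + d))) (by
    refine mem_powersetCard.2 ⟨?_, ?_⟩
    · rw [← image_image]
      refine image_subset_image (fun z hz => ?_)
      obtain ⟨x, a, rfl⟩ := mem_image.1 hz
      exact mem_range.2 (g2 x (mem_range.1 a))
    · rw [card_image_of_injective _ ((pos_inj E).comp (add_left_injective d)), card_range])
  obtain ⟨Q, q1, rfl⟩ := subset_image_iff.1 (mem_powersetCard.1 p1).1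
  let u' : ℕ → ℕ := fun x => 3 * (x + d) + if x + d ∈ E then (if x + d = i then 2 else 1) else 0
  have key := hC (fun x => 3 * (x / 2) + x % 2)
    (fun x => 3 * (x / 2) + x % 2 * (if x / 2 = i then 2 else 1))
    (fun x y a b => by dsimp only; omega) (fun x a => by omega)
    (fun x y a b => by dsimp only; split_ifs <;> omega) (fun x a => by split_ifs <;> omega)
    ((range k).image (fun x => 2 * (x + d) + if x + d ∈ E then 1 else 0)) (fun z hz => by
      obtain ⟨x, a, rfl⟩ := mem_image.1 hz
      have := mem_range.1 a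
      rw [mem_range]
      split_ifs <;> omega)
    (Q.image (fun x => 2 * x)) (fun z hz => by
      obtain ⟨x, a, rfl⟩ := mem_image.1 hz
      have := mem_range.1 (q1 a)
      rw [mem_range]
      omega)
  have r1 : ((range k).image (fun x => 2 * (x + d) + if x + d ∈ E then 1 else 0)).image
      (fun x => 3 * (x / 2) + x % 2) = (range k).image (pos E ∘ (fun x => x + d)) := by
    rw [image_image]
    refine image_congr (fun x _ => ?_)
    simp only [Function.comp, pos]
    split_ifs <;> omega
  have r2 : (Q.image (fun x => 2 * x)).image (fun x => 3 * (x / 2) + x % 2) = Q.image (pos ∅) := by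
    rw [image_image]
    refine image_congr (fun x _ => ?_)
    simp [pos]
  have r3 : ((range k).image (fun x => 2 * (x + d) + if x + d ∈ E then 1 else 0)).image
      (fun x => 3 * (x / 2) + x % 2 * (if x / 2 = i then 2 else 1)) = (range k).image u' := by
    rw [image_image]
    refine image_congr (fun x _ => ?_)
    simp only [Function.comp, u']
    split_ifs <;> omega
  have r4 : (Q.image (fun x => 2 * x)).image
      (fun x => 3 * (x / 2) + x % 2 * (if x / 2 = i then 2 else 1)) = Q.image (pos ∅) := by
    rw [image_image]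
    refine image_congr (fun x _ => ?_)
    simp [pos]
  rw [r1, r2, r3, r4] at key
  obtain ⟨-, t, t', t1, t2⟩ := mem_filter.1 d2
  refine t2 (moveInv hC (by omega) (Jk j d2) (t := pos E ∘ (fun x => x + d)) (t' := u')
    ⟨mv _ _ g1, fun x y a b => ?_, bd _ _ g2, fun x a => ?_, fun x a b => ?_⟩ ?_ t1
    (p2.trans (key p2).symm))
  · simp only [u']
    split_ifs <;> omega
  · simp only [u']
    split_ifs <;> omega
  · simp only [u', Function.comp, pos]
    rw [if_neg (show ¬ x + d = i by omega)]
  · simp [u', pos, d3, hi]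

end Pool.Agent.H13.Schemes
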