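import Mathlib
import Pool.Agent.H13.Schemes

set_option autoImplicit false

namespace Pool.Agent.H13.Schemes

open Finset

theorem imageSum {α β M : Type} [DecidableEq α] [DecidableEq β] [AddCommMonoid M] (k : ℕ)
    (L : Finset α) (h : α → β) (hi : Set.InjOn h L) (F : Finset β → M) :
    ∑ P ∈ powersetCard k (L.image h), F P = ∑ Q ∈ powersetCard k L, F (Q.image h) := by
  symm
  refine sum_bij (fun Q _ => Q.image h) (fun Q hQ => ?_) (fun Q hQ Q' hQ' e => ?_)
    (fun P hP => ?_) (fun _ _ => rfl)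
  · obtain ⟨a1, a2⟩ := mem_powersetCard.1 hQ
    exact mem_powersetCard.2 ⟨image_subset_image a1,
      by rw [card_image_of_injOn (hi.mono (by exact_mod_cast a1)), a2]⟩
  · have a1 := (mem_powersetCard.1 hQ).1
    have a2 := (mem_powersetCard.1 hQ').1
    ext x
    constructor
    · intro hx
      obtain ⟨y, b1, b2⟩ := mem_image.1 (e ▸ mem_image_of_mem h hx : h x ∈ Q'.image h)
      exact hi (a2 b1) (a1 hx) b2 ▸ b1
    · intro hx
      obtain ⟨y, b1, b2⟩ := mem_image.1 (e.symm ▸ mem_image_of_mem h hx : h x ∈ Q.image h)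
      exact hi (a1 b1) (a2 hx) b2 ▸ b1
  · obtain ⟨a1, a2⟩ := mem_powersetCard.1 hP
    obtain ⟨Q, b1, rfl⟩ := subset_image_iff.1 a1
    refine ⟨Q, mem_powersetCard.2 ⟨b1, ?_⟩, rfl⟩
    rw [← a2, card_image_of_injOn (hi.mono (by exact_mod_cast b1))]

theorem mono (l0 : ℕ) : ∃ N : ℕ, ∀ (α Γ : Type) [LinearOrder α] [Inhabited α]
    (S : Finset α), N ≤ S.card → ∀ (c : Finset α → Γ) (k l : ℕ), k < l → l ≤ l0 →
      (∀ L0 ⊆ S, L0.card = l → ∃ w : Γ → ℚ, ∑ P ∈ powersetCard k L0, w (c P) ≠ 0 ∧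
        ∀ L ⊆ S, L.card = l → ∑ P ∈ powersetCard k L, w (c P) ≠ 0 →
          ∀ P ∈ powersetCard k L, ∃ P' ∈ powersetCard k L0, c P = c P') →
      ∃ L ⊆ S, L.card = l ∧ ∃ γ, ∀ P ∈ powersetCard k L, c P = γ := by
  obtain ⟨N, hN⟩ := Ramsey.ordered (2 * l0) (5 * l0)
  refine ⟨N, fun α Γ _ _ S hS c k l hk hl hT => ?_⟩
  obtain ⟨h, h1, h2, h3⟩ := hN α Γ S hS c
  have hi : ∀ X : Finset ℕ, (∀ x ∈ X, x < 5 * l0) → Set.InjOn h X := by
    intro X hX x hx y hy e
    rcases lt_trichotomy x y with g | g | g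
    · exact absurd e (h2 x y g (hX y hy)).ne
    · exact g
    · exact absurd e (h2 y x g (hX x hx)).ne'
  have b1 : ∀ E, ∀ x ∈ (range l).image (pos E), x < 5 * l0 := by
    intro E x hx
    obtain ⟨y, a, rfl⟩ := mem_image.1 hx
    have := mem_range.1 a
    unfold pos
    split_ifs <;> omega
  have b2 : ∀ E, ((range l).image (pos E)).image h ⊆ S := by
    intro E x hx
    obtain ⟨y, a, rfl⟩ := mem_image.1 hx
    exact h1 y (b1 E y a)
  have b3 : ∀ E, (((range l).image (pos E)).image h).card = l := by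
    intro E
    rw [card_image_of_injOn (hi _ (b1 E)), card_image_of_injective _ (pos_inj E), card_range]
  obtain ⟨w, w1, w2⟩ := hT _ (b2 ∅) (b3 ∅)
  have key := core (C := fun X => c (X.image h)) (l0 := l0) h3 hk hl w
    (by rwa [imageSum k _ h (hi _ (b1 ∅))] at w1) (by
      intro E e1 P hP
      obtain ⟨a1, a2⟩ := mem_powersetCard.1 hP
      obtain ⟨P', p1, p2⟩ := w2 _ (b2 E) (b3 E) (by rwa [imageSum k _ h (hi _ (b1 E))])
        (P.image h) (mem_powersetCard.2 ⟨image_subset_image a1, by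
          rw [card_image_of_injOn ((hi _ (b1 E)).mono (by exact_mod_cast a1)), a2]⟩)
      obtain ⟨Q, q1, rfl⟩ := subset_image_iff.1 (mem_powersetCard.1 p1).1
      refine ⟨Q, mem_powersetCard.2 ⟨q1, ?_⟩, p2⟩
      rw [← (mem_powersetCard.1 p1).2,
        card_image_of_injOn ((hi _ (b1 ∅)).mono (by exact_mod_cast q1))])
  have b4 : ∀ x ∈ range l, x < 5 * l0 := fun x hx => by have := mem_range.1 hx; omega
  refine ⟨(range l).image h, fun x hx => ?_, ?_, c ((range k).image h), fun P hP => ?_⟩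
  · obtain ⟨y, a, rfl⟩ := mem_image.1 hx
    exact h1 y (b4 y a)
  · rw [card_image_of_injOn (hi _ b4), card_range]
  · obtain ⟨Q, q1, rfl⟩ := subset_image_iff.1 (mem_powersetCard.1 hP).1
    refine key Q (mem_powersetCard.2 ⟨q1, ?_⟩)
    rw [← (mem_powersetCard.1 hP).2, card_image_of_injOn ((hi _ b4).mono (by exact_mod_cast q1))]

theorem unionSum {α M : Type} [DecidableEq α] [AddCommMonoid M] (k : ℕ) (A L : Finset α)
    (hd : Disjoint A L) (hA : A.card ≤ k) (F : Finset α → M)
    (hF : ∀ P ⊆ A ∪ L, P.card = k → ¬ A ⊆ P → F P = 0) :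
    ∑ P ∈ powersetCard k (A ∪ L), F P = ∑ B ∈ powersetCard (k - A.card) L, F (A ∪ B) := by
  rw [← sum_filter_of_ne (p := fun P => A ⊆ P) (fun P hP h => by
    by_contra g
    exact h (hF P (mem_powersetCard.1 hP).1 (mem_powersetCard.1 hP).2 g))]
  symm
  refine sum_bij (fun B _ => A ∪ B) (fun B hB => ?_) (fun B hB B' hB' e => ?_)
    (fun P hP => ?_) (fun _ _ => rfl)
  · obtain ⟨a1, a2⟩ := mem_powersetCard.1 hB
    refine mem_filter.2 ⟨mem_powersetCard.2 ⟨union_subset_union_right a1, ?_⟩, subset_union_left⟩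
    rw [card_union_of_disjoint (hd.mono_right a1), a2]
    omega
  · rw [← union_sdiff_cancel_left (hd.mono_right (mem_powersetCard.1 hB).1), e,
      union_sdiff_cancel_left (hd.mono_right (mem_powersetCard.1 hB').1)]
  · obtain ⟨a1, a2⟩ := mem_filter.1 hP
    obtain ⟨a3, a4⟩ := mem_powersetCard.1 a1
    refine ⟨P \ A, mem_powersetCard.2 ⟨fun x hx => (mem_union.1 (a3 (mem_sdiff.1 hx).1)).resolve_left
      (mem_sdiff.1 hx).2, by rw [card_sdiff_of_subset a2, a4]⟩, union_sdiff_of_subset a2⟩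

def scheme {α Γ : Type} [DecidableEq Γ] (k : ℕ) (c : Finset α → Γ) (L : Finset α) (i : Γ) : ℕ :=
  ((L.powersetCard k).filter (fun K => c K = i)).card

theorem schemeSum {α Γ : Type} [DecidableEq Γ] [Fintype Γ] (k : ℕ) (c : Finset α → Γ)
    (L : Finset α) (w : Γ → ℚ) :
    ∑ P ∈ powersetCard k L, w (c P) = ∑ i, w i * scheme k c L i := by
  rw [← sum_fiberwise_of_maps_to (t := univ) (g := c) (fun _ _ => mem_univ _)]
  refine sum_congr rfl (fun i _ => ?_)
  rw [sum_congr rfl (g := fun _ => w i) (fun P hP => by rw [(mem_filter.1 hP).2]), sum_const,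
    scheme, nsmul_eq_mul, mul_comm]

theorem rank (k l : ℕ) (hk : k < l) : ∃ N : ℕ, ∀ (α Γ : Type) [DecidableEq α] [Fintype α],
    N ≤ Fintype.card α → ∀ (c : Finset α → Γ) (w : Γ → ℚ),
      (∀ L : Finset α, L.card = l → ∑ P ∈ powersetCard k L, w (c P) = 0) →
      ∀ K : Finset α, K.card = k → w (c K) = 0 := by
  obtain ⟨N, hN⟩ := Ramsey.pointed SignType 0 k l
  refine ⟨N + k, fun α Γ _ _ hα c w hw K hK => ?_⟩
  by_contra hne
  obtain ⟨A, a1, Z, a2, a3, γ, a4, a5⟩ := hN α Kᶜ K (by rw [card_compl]; omega)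
    disjoint_compl_right hK (fun P => SignType.sign (w (c P))) (by simpa using hne)
  have a6 : A.card ≤ k := hK ▸ card_le_card a1
  obtain ⟨L, b1, b2⟩ := exists_subset_card_eq (s := Z) (n := l - A.card) (by omega)
  have hd : Disjoint A L := (disjoint_compl_right.mono a1 (b1.trans a2))
  have b3 := hw (A ∪ L) (by rw [card_union_of_disjoint hd]; omega)
  rw [unionSum k A L hd a6 _ (fun P p1 p2 p3 => by
    simpa using (a5 P (p1.trans (union_subset_union_right b1)) p2).2 p3)] at b3
  have b4 : ∀ B ∈ powersetCard (k - A.card) L, SignType.sign (w (c (A ∪ B))) = γ := by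
    intro B hB
    obtain ⟨p1, p2⟩ := mem_powersetCard.1 hB
    refine (a5 _ (union_subset_union_right (p1.trans b1)) ?_).1 subset_union_left
    rw [card_union_of_disjoint (hd.mono_right p1)]
    omega
  have b5 : (powersetCard (k - A.card) L).Nonempty := powersetCard_nonempty.2 (by omega)
  rcases γ with _ | _ | _
  · exact a4 rfl
  · exact (sum_neg (fun B hB => sign_eq_neg_one_iff.1 (b4 B hB)) b5).ne b3
  · exact (sum_pos (fun B hB => sign_eq_one_iff.1 (b4 B hB)) b5).ne' b3

theorem dual {α : Type} [DecidableEq α] [Fintype α] {r k l : ℕ} (c : Finset α → Fin r)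
    (h1 : ∀ w : Fin r → ℚ, (∀ L : Finset α, L.card = l → ∑ P ∈ powersetCard k L, w (c P) = 0) →
      w = 0)
    (h2 : ((univ.filter (fun L : Finset α => L.card = l)).image (scheme k c)).card = r)
    (L0 : Finset α) (hL : L0.card = l) : ∃ w : Fin r → ℚ, ∀ L : Finset α, L.card = l →
      ∑ P ∈ powersetCard k L, w (c P) = if scheme k c L = scheme k c L0 then 1 else 0 := by
  let T := (univ.filter (fun L : Finset α => L.card = l)).image (scheme k c)
  let Φ : (Fin r → ℚ) →ₗ[ℚ] (T → ℚ) :=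
    { toFun := fun w s => ∑ i, w i * s.1 i
      map_add' := fun a b => by ext s; simp [add_mul, sum_add_distrib]
      map_smul' := fun a b => by ext s; simp [mul_sum, mul_assoc] }
  have m : ∀ L : Finset α, L.card = l → scheme k c L ∈ T := fun L h =>
    mem_image_of_mem _ (mem_filter.2 ⟨mem_univ _, h⟩)
  have i1 : Function.Injective Φ := by
    rw [injective_iff_map_eq_zero]
    intro w hw
    refine h1 w (fun L h => ?_)
    rw [schemeSum]
    exact congrFun hw ⟨_, m L h⟩
  have i2 : Function.Surjective Φ := by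
    refine (LinearMap.injective_iff_surjective_of_finrank_eq_finrank ?_).1 i1
    rw [Module.finrank_fintype_fun_eq_card, Module.finrank_fintype_fun_eq_card, Fintype.card_fin,
      Fintype.card_coe]
    exact h2.symm
  obtain ⟨w, hw⟩ := i2 (fun s => if s.1 = scheme k c L0 then 1 else 0)
  refine ⟨w, fun L h => ?_⟩
  rw [schemeSum]
  exact congrFun hw ⟨_, m L h⟩

theorem step (k l : ℕ) (hk : k < l) : ∃ N : ℕ, ∀ (α Γ : Type) [LinearOrder α] [Fintype α]
    [DecidableEq Γ] [Fintype Γ], N ≤ Fintype.card α → ∀ (c : Finset α → Γ) (T : Finset Γ),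
      (∀ L0 : Finset α, L0.card = l → (∃ P ∈ powersetCard k L0, c P ∉ T) → ∃ w : Γ → ℚ,
        (∀ i ∈ T, w i = 0) ∧ ∀ L : Finset α, L.card = l →
        ∑ P ∈ powersetCard k L, w (c P) = if scheme k c L = scheme k c L0 then 1 else 0) →
      ∀ K : Finset α, K.card = k → c K ∉ T → ∃ L : Finset α, L.card = l ∧ ∃ γ ∉ T,
        (∃ P ∈ powersetCard k L, c P = γ) ∧ ∀ P ∈ powersetCard k L, c P ∈ insert γ T := by
  obtain ⟨M, hM⟩ := mono l
  obtain ⟨N, hN⟩ := Ramsey.pointed Bool true k M
  refine ⟨N + k + 1, fun α Γ _ _ _ _ hα c T hw K hK hT => ?_⟩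
  have : Nonempty α := Fintype.card_pos_iff.1 (by omega)
  have : Inhabited α := Classical.inhabited_of_nonempty this
  obtain ⟨A, a1, Z, a2, a3, γ, a4, a5⟩ := hN α Kᶜ K (by rw [card_compl]; omega)
    disjoint_compl_right hK (fun P => decide (c P ∈ T)) (by simpa using hT)
  have a6 : A.card ≤ k := hK ▸ card_le_card a1
  have hd : Disjoint A Z := disjoint_compl_right.mono a1 a2
  have g1 : ∀ P ⊆ A ∪ Z, P.card = k → (c P ∈ T ↔ ¬ A ⊆ P) := by
    intro P p1 p2
    refine ⟨fun h p3 => a4 ?_, fun h => by simpa using (a5 P p1 p2).2 h⟩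
    rw [← (a5 P p1 p2).1 p3]
    simpa using h
  have g2 : ∀ L ⊆ Z, ∀ B ∈ powersetCard (k - A.card) L, A ∪ B ∈ powersetCard k (A ∪ L) := by
    intro L hL B hB
    obtain ⟨p1, p2⟩ := mem_powersetCard.1 hB
    refine mem_powersetCard.2 ⟨union_subset_union_right p1, ?_⟩
    rw [card_union_of_disjoint (hd.mono_right (p1.trans hL))]
    omega
  have g3 : ∀ L ⊆ Z, ∀ B ∈ powersetCard (k - A.card) L, c (A ∪ B) ∉ T := by
    intro L hL B hB h
    obtain ⟨p1, p2⟩ := mem_powersetCard.1 (g2 L hL B hB)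
    exact (g1 _ (p1.trans (union_subset_union_right hL)) p2).1 h subset_union_left
  have g4 : ∀ L ⊆ Z, L.card = l - A.card → (A ∪ L).card = l := by
    intro L hL h
    rw [card_union_of_disjoint (hd.mono_right hL)]
    omega
  have g5 : ∀ L ⊆ Z, ∀ P ∈ powersetCard k (A ∪ L), c P ∉ T →
      ∃ B ∈ powersetCard (k - A.card) L, P = A ∪ B := by
    intro L hL P hP h
    obtain ⟨p1, p2⟩ := mem_powersetCard.1 hP
    have p3 : A ⊆ P := by
      by_contra g
      exact h ((g1 P (p1.trans (union_subset_union_right hL)) p2).2 g)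
    exact ⟨P \ A, mem_powersetCard.2 ⟨fun x hx => (mem_union.1 (p1 (mem_sdiff.1 hx).1)).resolve_left
      (mem_sdiff.1 hx).2, by rw [card_sdiff_of_subset p3, p2]⟩, (union_sdiff_of_subset p3).symm⟩
  obtain ⟨L, b1, b2, δ, b3⟩ := hM α Γ Z a3.ge (fun B => c (A ∪ B)) (k - A.card) (l - A.card)
    (by omega) (by omega) (by
      intro L0 p1 p2
      obtain ⟨B0, hB0⟩ : (powersetCard (k - A.card) L0).Nonempty :=
        powersetCard_nonempty.2 (by omega)
      obtain ⟨w, w1, w2⟩ := hw (A ∪ L0) (g4 L0 p1 p2) ⟨_, g2 L0 p1 B0 hB0, g3 L0 p1 B0 hB0⟩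
      have w3 : ∀ L ⊆ Z, L.card = l - A.card → ∑ B ∈ powersetCard (k - A.card) L, w (c (A ∪ B)) =
          if scheme k c (A ∪ L) = scheme k c (A ∪ L0) then 1 else 0 := by
        intro L q1 q2
        rw [← w2 _ (g4 L q1 q2), unionSum k A L (hd.mono_right q1) a6]
        intro P r1 r2 r3
        exact w1 _ ((g1 P (r1.trans (union_subset_union_right q1)) r2).2 r3)
      refine ⟨w, by rw [w3 L0 p1 p2]; simp, fun L q1 q2 q3 B hB => ?_⟩
      rw [w3 L q1 q2] at q3
      have q4 : scheme k c (A ∪ L) = scheme k c (A ∪ L0) := by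
        by_contra g
        exact q3 (if_neg g)
      have q5 : 0 < scheme k c (A ∪ L0) (c (A ∪ B)) := by
        rw [← q4]
        exact card_pos.2 ⟨A ∪ B, mem_filter.2 ⟨g2 L q1 B hB, rfl⟩⟩
      obtain ⟨P, q6⟩ := card_pos.1 q5
      obtain ⟨q7, q8⟩ := mem_filter.1 q6
      obtain ⟨B', q9, rfl⟩ := g5 L0 p1 P q7 (q8 ▸ g3 L q1 B hB)
      exact ⟨B', q9, q8.symm⟩)
  obtain ⟨B0, hB0⟩ : (powersetCard (k - A.card) L).Nonempty := powersetCard_nonempty.2 (by omega)
  refine ⟨A ∪ L, g4 L b1 b2, δ, b3 B0 hB0 ▸ g3 L b1 B0 hB0, ⟨_, g2 L b1 B0 hB0, b3 B0 hB0⟩,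
    fun P hP => ?_⟩
  by_cases h : c P ∈ T
  · exact mem_insert_of_mem h
  · obtain ⟨B, p1, rfl⟩ := g5 L b1 P hP h
    rw [b3 B p1]
    exact mem_insert_self _ _

theorem build (k l : ℕ) (hk : k < l) : ∃ N : ℕ, ∀ n r : ℕ, N ≤ n → ∀ c : Finset (Fin n) → Fin r,
    (∀ i : Fin r, ∃ K : Finset (Fin n), K.card = k ∧ c K = i) →
    ((univ.filter (fun L : Finset (Fin n) => L.card = l)).image (scheme k c)).card = r →
    ∀ t ≤ r, ∃ (e : ℕ → Fin r) (σ : ℕ → Finset (Fin n)), (∀ j < t, (σ j).card = l) ∧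
      (∀ i j, i < j → j < t → e i ≠ e j) ∧ (∀ j < t, ∃ P ∈ powersetCard k (σ j), c P = e j) ∧
      ∀ j < t, ∀ P ∈ powersetCard k (σ j), ∃ i ≤ j, c P = e i := by
  obtain ⟨M, hM⟩ := rank k l hk
  obtain ⟨N, hN⟩ := step k l hk
  refine ⟨M + N, fun n r hn c h1 h2 t => ?_⟩
  have hd := dual c (fun w hw => by
    funext i
    obtain ⟨K, a1, rfl⟩ := h1 i
    exact hM (Fin n) (Fin r) (by simpa using by omega) c w hw K a1) h2
  induction t with
  | zero => exact fun _ => ⟨fun _ => c ∅, fun _ => ∅, by simp, by simp, by simp, by simp⟩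
  | succ t ih =>
    intro ht
    obtain ⟨e, σ, a1, a2, a3, a4⟩ := ih (by omega)
    obtain ⟨γ0, b0⟩ : ∃ γ0, γ0 ∉ (range t).image e := by
      by_contra g
      push Not at g
      have g1 := card_le_card (show (univ : Finset (Fin r)) ⊆ (range t).image e from fun x _ => g x)
      have g2 := card_image_le (s := range t) (f := e)
      simp only [card_univ, Fintype.card_fin, card_range] at g1 g2
      omega
    obtain ⟨K, b1, rfl⟩ := h1 γ0
    obtain ⟨L, c1, γ, c2, c3, c4⟩ := hN (Fin n) (Fin r) (by simpa using by omega) c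
      ((range t).image e) (by
        rintro L0 p1 ⟨P0, p2, p3⟩
        obtain ⟨w, hw⟩ := hd L0 p1
        refine ⟨w, ?_, hw⟩
        have q1 : ∀ j < t, ∑ P ∈ powersetCard k (σ j), w (c P) = 0 := by
          intro j hj
          rw [hw _ (a1 j hj), if_neg]
          intro g
          have q2 : 0 < scheme k c (σ j) (c P0) := by
            rw [g]
            exact card_pos.2 ⟨P0, mem_filter.2 ⟨p2, rfl⟩⟩
          obtain ⟨P, q3⟩ := card_pos.1 q2
          obtain ⟨q4, q5⟩ := mem_filter.1 q3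
          obtain ⟨i, q6, q7⟩ := a4 j hj P q4
          exact p3 (mem_image.2 ⟨i, mem_range.2 (by omega), q7.symm.trans q5⟩)
        have q2 : ∀ j < t, w (e j) = 0 := by
          intro j
          induction j using Nat.strong_induction_on with
          | _ j ihj =>
            intro hj
            obtain ⟨P1, r1, r2⟩ := a3 j hj
            by_contra g
            have r3 : ∀ P ∈ powersetCard k (σ j), w (c P) = 0 ∨ w (c P) = w (e j) := by
              intro P hP
              obtain ⟨i, s1, s2⟩ := a4 j hj P hP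
              rcases eq_or_lt_of_le s1 with s3 | s3
              · right; rw [s2, s3]
              · left; rw [s2]; exact ihj i s3 (by omega)
            rcases lt_or_gt_of_ne g with g | g
            · refine (sum_neg' (fun P hP => ?_) ⟨P1, r1, r2 ▸ g⟩).ne (q1 j hj)
              rcases r3 P hP with s | s <;> rw [s]
              exact g.le
            · refine (sum_pos' (fun P hP => ?_) ⟨P1, r1, r2 ▸ g⟩).ne' (q1 j hj)
              rcases r3 P hP with s | s <;> rw [s]
              exact g.le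
        intro i hi
        obtain ⟨j, s1, rfl⟩ := mem_image.1 hi
        exact q2 j (mem_range.1 s1)) K b1 b0
    refine ⟨Function.update e t γ, Function.update σ t L, fun j hj => ?_, fun i j h3 h4 => ?_,
      fun j hj => ?_, fun j hj P hP => ?_⟩
    · by_cases g : j = t
      · rw [g, Function.update_self, c1]
      · rw [Function.update_of_ne g, a1 j (by omega)]
    · rw [Function.update_of_ne (show i ≠ t by omega)]
      by_cases g : j = t
      · rw [g, Function.update_self]
        exact fun h => c2 (mem_image.2 ⟨i, mem_range.2 (by omega), h⟩)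
      · rw [Function.update_of_ne g]
        exact a2 i j h3 (by omega)
    · by_cases g : j = t
      · rw [g, Function.update_self, Function.update_self]
        exact c3
      · rw [Function.update_of_ne g, Function.update_of_ne g]
        exact a3 j (by omega)
    · by_cases g : j = t
      · rw [g, Function.update_self] at hP
        rcases mem_insert.1 (c4 P hP) with s | s
        · exact ⟨t, by omega, by rw [Function.update_self, s]⟩
        · obtain ⟨i, s1, s2⟩ := mem_image.1 s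
          have := mem_range.1 s1
          exact ⟨i, by omega, by rw [Function.update_of_ne (by omega), s2]⟩
      · rw [Function.update_of_ne g] at hP
        obtain ⟨i, s1, s2⟩ := a4 j (by omega) P hP
        exact ⟨i, s1, by rw [Function.update_of_ne (by omega), s2]⟩

end Pool.Agent.H13.Schemes
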