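import Pool.Agent.H13.SimData

set_option autoImplicit false

namespace Pool.Agent.H13.Sim

open Pool.Agent.H13.SimData

def U (m : ℕ) : Bool := Nat.beq (Nat.land (Nat.shiftRight T m) 1) 1

def pm (q : List ℕ) (m : ℕ) : ℕ := q.foldr (fun i acc => Nat.bit (m.testBit i) acc) 0

theorem testBit_pm (q : List ℕ) (m j : ℕ) :
    (pm q m).testBit j = (decide (j < q.length) && m.testBit (q.getD j 0)) := by
  induction q generalizing j with
  | nil => simp [pm]
  | cons a q ih =>
    have : pm (a :: q) m = Nat.bit (m.testBit a) (pm q m) := rfl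
    rw [this]
    cases j with
    | zero => simp
    | succ j => rw [Nat.testBit_bit_succ, ih]; simp

def g (t : ℕ) : List ℕ := gens.getD t []

theorem g_len : ∀ t < 5, (g t).length = 15 := by decide
theorem g_lt : ∀ t < 5, ∀ j < 15, (g t).getD j 0 < 15 := by decide
theorem g_inv : ∀ t < 5, ∀ j < 15, (g t).getD ((g t).getD j 0) 0 = j := by decide

theorem lt_of_bits {m : ℕ} (h : ∀ j, 15 ≤ j → m.testBit j = false) : m < 2 ^ 15 :=
  Nat.lt_pow_two_of_testBit m h

theorem bit_hi {m j : ℕ} (hm : m < 2 ^ 15) (hj : 15 ≤ j) : m.testBit j = false :=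
  Nat.testBit_lt_two_pow (hm.trans_le (Nat.pow_le_pow_right (by norm_num) hj))

theorem pm_lt {t : ℕ} (ht : t < 5) (m : ℕ) : pm (g t) m < 2 ^ 15 := by
  apply lt_of_bits
  intro j hj
  rw [testBit_pm, g_len t ht]
  simp; omega

theorem or_lt {m i : ℕ} (hm : m < 2 ^ 15) (hi : i < 15) : m ||| 2 ^ i < 2 ^ 15 :=
  Nat.or_lt_two_pow hm (Nat.pow_lt_pow_right (by norm_num) hi)

theorem pm_bit {t : ℕ} (ht : t < 5) (m : ℕ) {j : ℕ} (hj : j < 15) :
    (pm (g t) m).testBit j = m.testBit ((g t).getD j 0) := by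
  rw [testBit_pm, g_len t ht]; simp [hj]

theorem pm_or {t : ℕ} (ht : t < 5) (m : ℕ) {i : ℕ} (hi : i < 15) :
    pm (g t) (m ||| 2 ^ i) = pm (g t) m ||| 2 ^ ((g t).getD i 0) := by
  apply Nat.eq_of_testBit_eq
  intro j
  by_cases hj : j < 15
  · rw [Nat.testBit_or, pm_bit ht _ hj, pm_bit ht _ hj, Nat.testBit_or, Nat.testBit_two_pow,
      Nat.testBit_two_pow]
    congr 1
    apply decide_eq_decide.2
    constructor
    · intro h; rw [h, g_inv t ht j hj]
    · intro h; rw [← h, g_inv t ht i hi]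
  · have hj' : 15 ≤ j := by omega
    rw [bit_hi (pm_lt ht _) hj', bit_hi (or_lt (pm_lt ht _) (g_lt t ht i hi)) hj']

def allLt (n : ℕ) (f : ℕ → Bool) : Bool := Nat.rec true (fun k acc => f k && acc) n

theorem allLt_spec {n : ℕ} {f : ℕ → Bool} (h : allLt n f = true) : ∀ k < n, f k = true := by
  induction n with
  | zero => intro k hk; omega
  | succ n ih =>
    have h' : (f n && allLt n f) = true := h
    rw [Bool.and_eq_true] at h'
    intro k hk
    rcases Nat.lt_succ_iff_lt_or_eq.1 hk with h1 | h1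
    · exact ih h'.2 k h1
    · rw [h1]; exact h'.1

def all15 (f : ℕ → Bool) : Bool := allLt 128 (fun x => allLt 256 (fun y => f (256 * x + y)))

theorem all15_spec {f : ℕ → Bool} (h : all15 f = true) : ∀ m < 2 ^ 15, f m = true := by
  intro m hm
  have h1 := allLt_spec (allLt_spec h (m / 256) (by omega)) (m % 256) (by omega)
  rwa [Nat.div_add_mod] at h1

theorem chk_up : all15 (fun m => U m || allLt 15 (fun i => !U (m ^^^ 2 ^ i) || !m.testBit i))
    = true := by
  decide +kernel

theorem tb (a j : ℕ) : Nat.testBit (no_index (OfNat.ofNat (a + 2))) j = decide ((a + 2) / 2 ^ j % 2 = 1) := by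
  rw [Nat.testBit_eq_decide_div_mod_eq]; rfl

theorem tb1 (j : ℕ) : Nat.testBit 1 j = decide (0 = j) := Nat.testBit_two_pow (n := 0)

def f0 (m : ℕ) : ℕ := Nat.lor (Nat.land (Nat.shiftLeft m 4) 480) (Nat.lor (Nat.land m 32257) (Nat.land (Nat.shiftRight m 4) 30))

theorem f0_eq (m : ℕ) : f0 m = pm (g 0) m := by
  apply Nat.eq_of_testBit_eq
  intro j
  by_cases hj : j < 15
  · rw [pm_bit (by norm_num) _ hj]
    simp only [f0, Nat.lor_eq, Nat.land_eq, Nat.shiftRight_eq, Nat.shiftLeft_eq', Nat.testBit_or,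
      Nat.testBit_and, Nat.testBit_shiftRight, Nat.testBit_shiftLeft]
    interval_cases j <;> simp [g, gens, tb, tb1]
  · rw [bit_hi (pm_lt (by norm_num) _) (by omega)]
    apply bit_hi _ (by omega)
    simp only [f0, Nat.lor_eq, Nat.land_eq]
    repeat' apply Nat.or_lt_two_pow
    all_goals exact Nat.and_lt_two_pow _ (by norm_num)

theorem chk_inv0 : all15 (fun m => U m || !U (f0 m)) = true := by
  decide +kernel

def f1 (m : ℕ) : ℕ := Nat.lor (Nat.land (Nat.shiftLeft m 3) 3584) (Nat.lor (Nat.land (Nat.shiftLeft m 1) 2) (Nat.lor (Nat.land m 28732) (Nat.lor (Nat.land (Nat.shiftRight m 1) 1) (Nat.land (Nat.shiftRight m 3) 448))))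

theorem f1_eq (m : ℕ) : f1 m = pm (g 1) m := by
  apply Nat.eq_of_testBit_eq
  intro j
  by_cases hj : j < 15
  · rw [pm_bit (by norm_num) _ hj]
    simp only [f1, Nat.lor_eq, Nat.land_eq, Nat.shiftRight_eq, Nat.shiftLeft_eq', Nat.testBit_or,
      Nat.testBit_and, Nat.testBit_shiftRight, Nat.testBit_shiftLeft]
    interval_cases j <;> simp [g, gens, tb, tb1]
  · rw [bit_hi (pm_lt (by norm_num) _) (by omega)]
    apply bit_hi _ (by omega)
    simp only [f1, Nat.lor_eq, Nat.land_eq]
    repeat' apply Nat.or_lt_two_pow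
    all_goals exact Nat.and_lt_two_pow _ (by norm_num)

theorem chk_inv1 : all15 (fun m => U m || !U (f1 m)) = true := by
  decide +kernel

def f2 (m : ℕ) : ℕ := Nat.lor (Nat.land (Nat.shiftLeft m 2) 12288) (Nat.lor (Nat.land (Nat.shiftLeft m 1) 68) (Nat.lor (Nat.land m 17305) (Nat.lor (Nat.land (Nat.shiftRight m 1) 34) (Nat.land (Nat.shiftRight m 2) 3072))))

theorem f2_eq (m : ℕ) : f2 m = pm (g 2) m := by
  apply Nat.eq_of_testBit_eq
  intro j
  by_cases hj : j < 15
  · rw [pm_bit (by norm_num) _ hj]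
    simp only [f2, Nat.lor_eq, Nat.land_eq, Nat.shiftRight_eq, Nat.shiftLeft_eq', Nat.testBit_or,
      Nat.testBit_and, Nat.testBit_shiftRight, Nat.testBit_shiftLeft]
    interval_cases j <;> simp [g, gens, tb, tb1]
  · rw [bit_hi (pm_lt (by norm_num) _) (by omega)]
    apply bit_hi _ (by omega)
    simp only [f2, Nat.lor_eq, Nat.land_eq]
    repeat' apply Nat.or_lt_two_pow
    all_goals exact Nat.and_lt_two_pow _ (by norm_num)

theorem chk_inv2 : all15 (fun m => U m || !U (f2 m)) = true := by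
  decide +kernel

def f3 (m : ℕ) : ℕ := Nat.lor (Nat.land (Nat.shiftLeft m 1) 17544) (Nat.lor (Nat.land m 6451) (Nat.land (Nat.shiftRight m 1) 8772))

theorem f3_eq (m : ℕ) : f3 m = pm (g 3) m := by
  apply Nat.eq_of_testBit_eq
  intro j
  by_cases hj : j < 15
  · rw [pm_bit (by norm_num) _ hj]
    simp only [f3, Nat.lor_eq, Nat.land_eq, Nat.shiftRight_eq, Nat.shiftLeft_eq', Nat.testBit_or,
      Nat.testBit_and, Nat.testBit_shiftRight, Nat.testBit_shiftLeft]
    interval_cases j <;> simp [g, gens, tb, tb1]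
  · rw [bit_hi (pm_lt (by norm_num) _) (by omega)]
    apply bit_hi _ (by omega)
    simp only [f3, Nat.lor_eq, Nat.land_eq]
    repeat' apply Nat.or_lt_two_pow
    all_goals exact Nat.and_lt_two_pow _ (by norm_num)

theorem chk_inv3 : all15 (fun m => U m || !U (f3 m)) = true := by
  decide +kernel

def f4 (m : ℕ) : ℕ := Nat.lor (Nat.land (Nat.shiftLeft m 1) 10512) (Nat.lor (Nat.land m 16999) (Nat.land (Nat.shiftRight m 1) 5256))

theorem f4_eq (m : ℕ) : f4 m = pm (g 4) m := by
  apply Nat.eq_of_testBit_eq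
  intro j
  by_cases hj : j < 15
  · rw [pm_bit (by norm_num) _ hj]
    simp only [f4, Nat.lor_eq, Nat.land_eq, Nat.shiftRight_eq, Nat.shiftLeft_eq', Nat.testBit_or,
      Nat.testBit_and, Nat.testBit_shiftRight, Nat.testBit_shiftLeft]
    interval_cases j <;> simp [g, gens, tb, tb1]
  · rw [bit_hi (pm_lt (by norm_num) _) (by omega)]
    apply bit_hi _ (by omega)
    simp only [f4, Nat.lor_eq, Nat.land_eq]
    repeat' apply Nat.or_lt_two_pow
    all_goals exact Nat.and_lt_two_pow _ (by norm_num)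

theorem chk_inv4 : all15 (fun m => U m || !U (f4 m)) = true := by
  decide +kernel

theorem chk_inv {t : ℕ} (ht : t < 5) {m : ℕ} (hm : m < 2 ^ 15) :
    (U m || !U (pm (g t) m)) = true := by
  interval_cases t
  · rw [← f0_eq]; exact all15_spec chk_inv0 m hm
  · rw [← f1_eq]; exact all15_spec chk_inv1 m hm
  · rw [← f2_eq]; exact all15_spec chk_inv2 m hm
  · rw [← f3_eq]; exact all15_spec chk_inv3 m hm
  · rw [← f4_eq]; exact all15_spec chk_inv4 m hm

theorem pm_pm {t : ℕ} (ht : t < 5) {m : ℕ} (hm : m < 2 ^ 15) : pm (g t) (pm (g t) m) = m := by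
  apply Nat.eq_of_testBit_eq
  intro j
  by_cases hj : j < 15
  · rw [pm_bit ht _ hj, pm_bit ht _ (g_lt t ht j hj), g_inv t ht j hj]
  · rw [bit_hi (pm_lt ht _) (by omega), bit_hi hm (by omega)]

theorem U_zero : U 0 = false := by decide +kernel

theorem U_up {m i : ℕ} (hm : m < 2 ^ 15) (hi : i < 15) (h : U m = true) :
    U (m ||| 2 ^ i) = true := by
  by_cases hb : m.testBit i = true
  · have : m ||| 2 ^ i = m := by
      apply Nat.eq_of_testBit_eq
      intro j
      rw [Nat.testBit_or, Nat.testBit_two_pow]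
      by_cases hij : i = j
      · subst hij; simp [hb]
      · simp [hij]
    rwa [this]
  · have h1 := all15_spec chk_up _ (or_lt hm hi)
    by_contra hcon
    rw [Bool.not_eq_true] at hcon
    simp only [hcon, Bool.false_or] at h1
    have h2 := allLt_spec h1 i hi
    have : (m ||| 2 ^ i) ^^^ 2 ^ i = m := by
      apply Nat.eq_of_testBit_eq
      intro j
      rw [Nat.testBit_xor, Nat.testBit_or, Nat.testBit_two_pow]
      by_cases hij : i = j
      · subst hij; simp [hb]
      · simp [hij]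
    rw [this, h] at h2
    simp [Nat.testBit_or] at h2

theorem U_inv {t : ℕ} (ht : t < 5) {m : ℕ} (hm : m < 2 ^ 15) : U (pm (g t) m) = U m := by
  have h1 := chk_inv ht hm
  have h2 := chk_inv ht (pm_lt ht m)
  simp only [pm_pm ht hm] at h2
  revert h1 h2
  cases U m <;> cases U (pm (g t) m) <;> simp

theorem U_mono {m a : ℕ} (hm : m < 2 ^ 15) (ha : a < 2 ^ 15)
    (hsub : ∀ i < 15, m.testBit i = true → a.testBit i = true) (h : U m = true) :
    U a = true := by
  have key : ∀ k ≤ 15, U (m ||| a % 2 ^ k) = true := by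
    intro k
    induction k with
    | zero => intro _; simpa [Nat.mod_one] using h
    | succ k ih =>
      intro hk
      have h1 := ih (by omega)
      have hlt : m ||| a % 2 ^ k < 2 ^ 15 :=
        Nat.or_lt_two_pow hm ((Nat.mod_le _ _).trans_lt ha)
      by_cases hb : a.testBit k = true
      · have : m ||| a % 2 ^ (k + 1) = (m ||| a % 2 ^ k) ||| 2 ^ k := by
          apply Nat.eq_of_testBit_eq
          intro j
          simp only [Nat.testBit_or, Nat.testBit_mod_two_pow, Nat.testBit_two_pow]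
          by_cases h1 : j < k
          · have h2 : j < k + 1 := by omega
            have h3 : ¬ k = j := by omega
            simp [h1, h2, h3]
          · by_cases h2 : j = k
            · subst h2; simp [hb]
            · have h3 : ¬ j < k + 1 := by omega
              have h4 : ¬ k = j := by omega
              simp [h1, h3, h4]
        rw [this]
        exact U_up hlt (by omega) h1
      · have : m ||| a % 2 ^ (k + 1) = m ||| a % 2 ^ k := by
          apply Nat.eq_of_testBit_eq
          intro j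
          simp only [Nat.testBit_or, Nat.testBit_mod_two_pow]
          by_cases h1 : j < k
          · have h2 : j < k + 1 := by omega
            simp [h1, h2]
          · by_cases h2 : j = k
            · subst h2; simp [hb]
            · have h3 : ¬ j < k + 1 := by omega
              simp [h1, h3]
        rw [this]; exact h1
  have h2 := key 15 le_rfl
  have : m ||| a % 2 ^ 15 = a := by
    rw [Nat.mod_eq_of_lt ha]
    apply Nat.eq_of_testBit_eq
    intro j
    rw [Nat.testBit_or]
    by_cases hj : j < 15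
    · cases hmj : m.testBit j
      · simp
      · simp [hsub j hj hmj]
    · simp [bit_hi hm (by omega : 15 ≤ j)]
  rwa [this] at h2

def WinS : ℕ → ℕ → ℕ → Prop
  | 0, _, _ => False
  | k + 1, a, b => U a = false ∧ (∃ i < 15, a.testBit i = false ∧ b.testBit i = false) ∧
      ∀ i < 15, a.testBit i = false → b.testBit i = false →
        U (b ||| 2 ^ i) = true ∨
          ∃ j < 15, a.testBit j = false ∧ (b ||| 2 ^ i).testBit j = false ∧
            WinS k (a ||| 2 ^ j) (b ||| 2 ^ i)

theorem WinS_inv {t : ℕ} (ht : t < 5) : ∀ k a b, a < 2 ^ 15 → b < 2 ^ 15 →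
    WinS k (pm (g t) a) (pm (g t) b) → WinS k a b := by
  intro k
  induction k with
  | zero => intro a b _ _ h; exact h
  | succ k ih =>
    intro a b ha hb h
    obtain ⟨h1, ⟨i, hi, hia, hib⟩, h3⟩ := h
    refine ⟨by rwa [U_inv ht ha] at h1, ⟨(g t).getD i 0, g_lt t ht i hi, ?_, ?_⟩, ?_⟩
    · rwa [pm_bit ht _ hi] at hia
    · rwa [pm_bit ht _ hi] at hib
    · intro i hi hia hib
      have hi' := g_lt t ht i hi
      rcases h3 ((g t).getD i 0) hi' (by rw [pm_bit ht _ hi', g_inv t ht i hi]; exact hia)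
        (by rw [pm_bit ht _ hi', g_inv t ht i hi]; exact hib) with h4 | ⟨j, hj, hja, hjb, h5⟩
      · left
        rwa [← pm_or ht b hi, U_inv ht (or_lt hb hi)] at h4
      · right
        have hj' := g_lt t ht j hj
        refine ⟨(g t).getD j 0, hj', ?_, ?_, ?_⟩
        · rwa [pm_bit ht _ hj] at hja
        · rwa [← pm_or ht b hi, pm_bit ht _ hj] at hjb
        · apply ih _ _ (or_lt ha hj') (or_lt hb hi)
          rw [pm_or ht a hj', g_inv t ht j hj, pm_or ht b hi]
          exact h5

def app (w : List ℕ) (m : ℕ) : ℕ := w.foldl (fun x t => pm (g t) x) m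

theorem WinS_app (k : ℕ) : ∀ (w : List ℕ) (a b : ℕ), (∀ t ∈ w, t < 5) → a < 2 ^ 15 → b < 2 ^ 15 →
    WinS k (app w a) (app w b) → WinS k a b := by
  intro w
  induction w with
  | nil => intro a b _ _ _ h; exact h
  | cons t w ih =>
    intro a b hw ha hb h
    have ht : t < 5 := hw t (by simp)
    apply WinS_inv ht k a b ha hb
    exact ih _ _ (fun s hs => hw s (by simp [hs])) (pm_lt ht _) (pm_lt ht _) h

abbrev St := ℕ × ℕ × List (ℕ × ℕ × List ℕ)

def chk (next : List St) (s : St) : Bool :=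
  decide (s.1 < 2 ^ 15) && decide (s.2.1 < 2 ^ 15) && !U s.1 &&
  !allLt 15 (fun i => s.1.testBit i || s.2.1.testBit i) &&
  allLt 15 (fun i => s.1.testBit i || s.2.1.testBit i || U (s.2.1 ||| 2 ^ i) ||
    s.2.2.any (fun r => r.1 == i && decide (r.2.1 < 15) && !s.1.testBit r.2.1 &&
      !(s.2.1 ||| 2 ^ i).testBit r.2.1 && r.2.2.all (fun t => decide (t < 5)) &&
      next.any (fun u => u.1 == app r.2.2 (s.1 ||| 2 ^ r.2.1) &&
        u.2.1 == app r.2.2 (s.2.1 ||| 2 ^ i))))

theorem allLt_false {n : ℕ} {f : ℕ → Bool} (h : allLt n f = false) : ∃ k < n, f k = false := by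
  induction n with
  | zero => simp [allLt] at h
  | succ n ih =>
    have h' : (f n && allLt n f) = false := h
    cases hf : f n
    · exact ⟨n, by omega, hf⟩
    · rw [hf, Bool.true_and] at h'
      obtain ⟨k, hk, hk'⟩ := ih h'
      exact ⟨k, by omega, hk'⟩

theorem chk_sound {k : ℕ} {next cur : List St} (hn : ∀ u ∈ next, WinS k u.1 u.2.1)
    (h : cur.all (chk next) = true) : ∀ s ∈ cur, WinS (k + 1) s.1 s.2.1 := by
  intro s hs
  have h1 := List.all_eq_true.1 h s hs
  simp only [chk, Bool.and_eq_true, decide_eq_true_eq, Bool.not_eq_true'] at h1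
  obtain ⟨⟨⟨⟨ha, hb⟩, hU⟩, hfree⟩, hall⟩ := h1
  refine ⟨hU, ?_, ?_⟩
  · obtain ⟨i, hi, hi'⟩ := allLt_false hfree
    rw [Bool.or_eq_false_iff] at hi'
    exact ⟨i, hi, hi'.1, hi'.2⟩
  · intro i hi hia hib
    have h2 := allLt_spec hall i hi
    simp only [hia, hib, Bool.false_or, Bool.or_eq_true, List.any_eq_true, Bool.and_eq_true,
      decide_eq_true_eq, Bool.not_eq_true', List.all_eq_true, beq_iff_eq] at h2
    rcases h2 with h2 | ⟨r, _, ⟨⟨⟨⟨⟨_, hr⟩, hra⟩, hrb⟩, hw⟩, u, hu, hu1, hu2⟩⟩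
    · exact Or.inl h2
    · right
      refine ⟨r.2.1, hr, hra, hrb, WinS_app k r.2.2 _ _ hw (or_lt ha hr) (or_lt hb hi) ?_⟩
      rw [← hu1, ← hu2]
      exact hn u hu

theorem w6 : ∀ s ∈ lv6, WinS 1 s.1 s.2.1 :=
  chk_sound (next := []) (by simp) (by decide +kernel)
theorem w5 : ∀ s ∈ lv5, WinS 2 s.1 s.2.1 := chk_sound w6 (by decide +kernel)
theorem w4 : ∀ s ∈ lv4, WinS 3 s.1 s.2.1 := chk_sound w5 (by decide +kernel)
theorem w3 : ∀ s ∈ lv3, WinS 4 s.1 s.2.1 := chk_sound w4 (by decide +kernel)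
theorem w2 : ∀ s ∈ lv2, WinS 5 s.1 s.2.1 := chk_sound w3 (by decide +kernel)
theorem w1 : ∀ s ∈ lv1, WinS 6 s.1 s.2.1 := chk_sound w2 (by decide +kernel)
theorem w0 : ∀ s ∈ lv0, WinS 7 s.1 s.2.1 := chk_sound w1 (by decide +kernel)

theorem start : WinS 7 1 0 := w0 _ List.mem_cons_self

end Pool.Agent.H13.Sim
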