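import Mathlib

set_option autoImplicit false

namespace Pool.Agent.H13.SqFree

def Pt : List ℕ := [926, 933, 931, 416, 419, 927, 500, 420, 930, 932, 929, 414, 415, 928, 418, 417]
def Gt : List ℕ := [800, 900, 300, 100, 200, 900, 500, 100, 800, 900, 700, 100, 200, 900, 600, 100,
  800, 900, 300, 100, 200, 900, 500, 100, 800, 900, 700, 100, 200, 900, 400, 100]
def Qt : List ℕ := [583, 582, 72, 585, 586, 71, 68, 70, 580, 500, 73, 581, 584, 69, 67, 74]
def Pr : List ℕ := [8, 15, 13, 2, 5, 9, 7, 6, 12, 14, 11, 0, 1, 10, 4, 3]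
def Qr : List ℕ := [12, 11, 5, 14, 15, 4, 1, 3, 9, 8, 6, 10, 13, 2, 0, 7]

def per (x : ℕ) : ℕ := Gt.getD (x % 32) 0

def lev (n x : ℕ) : ℕ :=
  if x < 16 then Pt.getD x 0 else if n ≤ x + 16 then Qt.getD (x + 16 - n) 0 else per x

def Iso {α : Type} [LT α] (w : ℕ → α) (i l : ℕ) : Prop :=
  ∀ a < l, ∀ b < l, (w (i + a) < w (i + b) ↔ w (i + l + a) < w (i + l + b))

instance (w : ℕ → ℕ) (i l : ℕ) : Decidable (Iso w i l) := by unfold Iso; infer_instance

def SqF (w : ℕ → ℕ) (n : ℕ) : Prop := ∀ i l, 2 ≤ l → i + 2 * l ≤ n → ¬ Iso w i l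

def mis (f : ℕ → ℕ) (i j k : ℕ) : Bool :=
  (List.range k).any fun a => (List.range k).any fun b =>
    Nat.blt (f (i + a)) (f (i + b)) && Nat.blt (f (j + b)) (f (j + a))

theorem mis_spec {f : ℕ → ℕ} {i j k : ℕ} (h : mis f i j k = true) :
    ∃ a < k, ∃ b < k, f (i + a) < f (i + b) ∧ f (j + b) < f (j + a) := by
  simpa [mis, Nat.blt_eq] using h

theorem chk1' : ((List.range 52).all fun l => (List.range 173).all fun i =>
    l < 2 || (l % 16 == 0 && l != 16) || 173 < i + 2 * l ||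
      mis (lev 173) i (i + l) (min l 20)) = true := by decide +kernel

theorem chk1 (l i : ℕ) (h1 : l < 52) (h2 : 2 ≤ l) (h3 : l % 16 ≠ 0 ∨ l = 16) (h4 : i + 2 * l ≤ 173) :
    mis (lev 173) i (i + l) (min l 20) = true := by
  have h := chk1'
  simp only [List.all_eq_true, List.mem_range, Bool.or_eq_true, decide_eq_true_eq,
    Bool.and_eq_true, beq_iff_eq, bne_iff_ne] at h
  rcases h l h1 i (by omega) with ((h | h) | h) | h
  · omega
  · omega
  · omega
  · exact h

theorem chk2 : ∀ i < 32, ∀ d < 32, d % 16 ≠ 0 → mis per i (i + d) 20 = true := by decide +kernel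

theorem chk3 : ∀ i < 172, if i % 4 = 0 ∨ i % 4 = 3 then lev 173 i < lev 173 (i + 1)
    else lev 173 (i + 1) < lev 173 i := by decide +kernel

theorem chk4 : ∀ i < 173, lev 173 i < 1000 ∧ (lev 173 i = 500 ↔ i % 16 = 6) := by decide +kernel

def ins {α : Type} (f : ℕ → α) (p : ℕ) (x : α) (y : ℕ) : α :=
  if y < p then f y else if y = p then x else f (y - 1)

theorem chk5 : ∀ p < 3, ∀ k < 17, ∃ i < 17, ∃ l < 9, 2 ≤ l ∧ i + 2 * l ≤ 17 ∧
    Iso (ins (fun y => 2 * Pr.getD y 0 + 1) p (2 * k)) i l := by decide +kernel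

theorem chk6 : ∀ p < 3, ∀ k < 17, ∃ i < 17, ∃ l < 9, 2 ≤ l ∧ i + 2 * l ≤ 17 ∧
    Iso (ins (fun y => 2 * Qr.getD y 0 + 1) (14 + p) (2 * k)) i l := by decide +kernel

theorem chk7 : ∀ i < 16, Pr.getD i 0 < 16 ∧ ∀ j < 16, (Pr.getD i 0 = Pr.getD j 0 → i = j) ∧
    (Pr.getD i 0 < Pr.getD j 0 → Pt.getD i 0 < Pt.getD j 0) := by decide +kernel

theorem chk8 : ∀ i < 16, Qr.getD i 0 < 16 ∧ ∀ j < 16, (Qr.getD i 0 = Qr.getD j 0 → i = j) ∧
    (Qr.getD i 0 < Qr.getD j 0 → Qt.getD i 0 < Qt.getD j 0) := by decide +kernel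

theorem levL {n x : ℕ} (h : x < 16) : lev n x = Pt.getD x 0 := if_pos h

theorem levR {n x : ℕ} (h : 16 ≤ x) (g : n ≤ x + 16) : lev n x = Qt.getD (x + 16 - n) 0 := by
  rw [lev, if_neg (by omega), if_pos g]

theorem levM {n x : ℕ} (h : 16 ≤ x) (g : x + 16 < n) : lev n x = per x := by
  rw [lev, if_neg (by omega), if_neg (by omega)]

theorem perC {x y : ℕ} (h : x % 32 = y % 32) : per x = per y := by rw [per, per, h]

theorem transfer (m i k : ℕ) (h1 : k ≤ 102) (h2 : i + k ≤ 173 + 32 * m) : ∃ j, j + k ≤ 173 ∧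
    j % 32 = i % 32 ∧ ∀ x < k, lev (173 + 32 * m) (i + x) = lev 173 (j + x) := by
  by_cases a : i < 16
  · refine ⟨i, by omega, rfl, fun x hx => ?_⟩
    by_cases c : i + x < 16
    · rw [levL c, levL c]
    · rw [levM (by omega) (by omega), levM (by omega) (by omega)]
  by_cases b : 173 + 32 * m < i + k + 16
  · refine ⟨i - 32 * m, by omega, by omega, fun x hx => ?_⟩
    by_cases c : 173 + 32 * m ≤ i + x + 16
    · rw [levR (by omega) c, levR (by omega) (by omega),
        show i + x + 16 - (173 + 32 * m) = i - 32 * m + x + 16 - 173 by omega]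
    · rw [levM (by omega) (by omega), levM (by omega) (by omega)]
      exact perC (by omega)
  · refine ⟨16 + (i - 16) % 32, by omega, by omega, fun x hx => ?_⟩
    rw [levM (by omega) (by omega), levM (by omega) (by omega)]
    exact perC (by omega)

theorem lev4 (m x : ℕ) (h : x < 173 + 32 * m) :
    lev (173 + 32 * m) x < 1000 ∧ (lev (173 + 32 * m) x = 500 ↔ x % 16 = 6) := by
  obtain ⟨j, a1, a2, a3⟩ := transfer m x 1 (by omega) (by omega)
  have a4 := a3 0 (by omega)
  have a5 := chk4 j (by omega)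
  simp only [add_zero] at a4
  rw [a4]
  exact ⟨a5.1, a5.2.trans (by omega)⟩

theorem lev3 (m x : ℕ) (h : x + 1 < 173 + 32 * m) :
    if x % 4 = 0 ∨ x % 4 = 3 then lev (173 + 32 * m) x < lev (173 + 32 * m) (x + 1)
    else lev (173 + 32 * m) (x + 1) < lev (173 + 32 * m) x := by
  obtain ⟨j, a1, a2, a3⟩ := transfer m x 2 (by omega) (by omega)
  have a4 := a3 0 (by omega)
  have a5 := chk3 j (by omega)
  simp only [add_zero] at a4
  rw [a4, a3 1 (by omega), show x % 4 = j % 4 by omega]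
  exact a5

theorem levMis (m i l : ℕ) (h2 : 2 ≤ l) (h3 : l % 16 ≠ 0 ∨ l = 16) (h4 : i + 2 * l ≤ 173 + 32 * m) :
    ∃ a < l, ∃ b < l, lev (173 + 32 * m) (i + a) < lev (173 + 32 * m) (i + b) ∧
      lev (173 + 32 * m) (i + l + b) < lev (173 + 32 * m) (i + l + a) := by
  by_cases h1 : l < 52
  · obtain ⟨j, a1, -, a3⟩ := transfer m i (2 * l) (by omega) h4
    obtain ⟨a, b1, b, b2, b3, b4⟩ := mis_spec (chk1 l j h1 h2 h3 a1)
    have b5 : a < l := by omega
    have b6 : b < l := by omega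
    refine ⟨a, b5, b, b6, ?_, ?_⟩
    · rwa [a3 a (by omega), a3 b (by omega)]
    · rwa [add_assoc, add_assoc, a3 _ (by omega), a3 _ (by omega), ← add_assoc, ← add_assoc]
  · obtain ⟨a, b1, b, b2, b3, b4⟩ := mis_spec (chk2 ((i + 16) % 32) (by omega) (l % 32) (by omega)
      (by omega))
    refine ⟨16 + a, by omega, 16 + b, by omega, ?_, ?_⟩
    · rw [levM (by omega) (by omega), levM (by omega) (by omega),
        perC (y := (i + 16) % 32 + a) (by omega), perC (x := i + (16 + b)) (y := (i + 16) % 32 + b) (by omega)]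
      exact b3
    · rw [levM (by omega) (by omega), levM (by omega) (by omega),
        perC (y := (i + 16) % 32 + l % 32 + b) (by omega),
        perC (x := i + l + (16 + a)) (y := (i + 16) % 32 + l % 32 + a) (by omega)]
      exact b4

def W (s : ℕ → ℕ) (T n x : ℕ) : ℕ := T * lev n x + if x % 16 = 6 then s (x / 16) else x

def Good (s : ℕ → ℕ) (t T : ℕ) : Prop :=
  SqF s t ∧ (∀ i < t, ∀ j < t, s i = s j → i = j) ∧ ∀ i < t, s i < T

theorem Wlt {s : ℕ → ℕ} {T m : ℕ} (h : Good s (11 + 2 * m) T) (hT : 173 + 32 * m ≤ T) {x y : ℕ}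
    (hx : x < 173 + 32 * m) (e : lev (173 + 32 * m) x < lev (173 + 32 * m) y) :
    W s T (173 + 32 * m) x < W s T (173 + 32 * m) y := by
  have a1 : (if x % 16 = 6 then s (x / 16) else x) < T := by
    split_ifs with c
    · exact h.2.2 _ (by omega)
    · omega
  have a2 := Nat.mul_le_mul_left T (Nat.succ_le_of_lt e)
  rw [Nat.mul_succ] at a2
  unfold W
  omega

theorem Wgood {s : ℕ → ℕ} {T m : ℕ} (h : Good s (11 + 2 * m) T) (hT : 173 + 32 * m ≤ T) :
    Good (W s T (173 + 32 * m)) (173 + 32 * m) (T * 1000) := by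
  refine ⟨fun i l h1 h2 h3 => ?_, fun x hx y hy e => ?_, fun x hx => ?_⟩
  · by_cases c : l % 16 ≠ 0 ∨ l = 16
    · obtain ⟨a, b1, b, b2, b3, b4⟩ := levMis m i l h1 c h2
      exact lt_asymm ((h3 a b1 b b2).1 (Wlt h hT (by omega) b3)) (Wlt h hT (by omega) b4)
    · obtain ⟨q, rfl⟩ : ∃ q, l = 16 * q := ⟨l / 16, by omega⟩
      have k : ∀ x, 16 * x + 6 < 173 + 32 * m →
          W s T (173 + 32 * m) (16 * x + 6) = T * 500 + s x := by
        intro x hx
        rw [W, (lev4 m _ hx).2.2 (by omega), if_pos (by omega), show (16 * x + 6) / 16 = x by omega]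
      refine h.1 ((i + 9) / 16) q (by omega) (by omega) (fun a ha b hb => ?_)
      have := h3 (16 * ((i + 9) / 16 + a) + 6 - i) (by omega) (16 * ((i + 9) / 16 + b) + 6 - i)
        (by omega)
      rw [show i + (16 * ((i + 9) / 16 + a) + 6 - i) = 16 * ((i + 9) / 16 + a) + 6 by omega,
        show i + (16 * ((i + 9) / 16 + b) + 6 - i) = 16 * ((i + 9) / 16 + b) + 6 by omega,
        show i + 16 * q + (16 * ((i + 9) / 16 + a) + 6 - i) = 16 * ((i + 9) / 16 + q + a) + 6 by omega,
        show i + 16 * q + (16 * ((i + 9) / 16 + b) + 6 - i) = 16 * ((i + 9) / 16 + q + b) + 6 by omega,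
        k _ (by omega), k _ (by omega), k _ (by omega), k _ (by omega)] at this
      simpa using this
  · rcases lt_trichotomy (lev (173 + 32 * m) x) (lev (173 + 32 * m) y) with c | c | c
    · exact absurd e (Wlt h hT hx c).ne
    · have a1 := (lev4 m x hx).2
      have a2 := (lev4 m y hy).2
      unfold W at e
      rw [c] at e a1
      by_cases d : x % 16 = 6
      · have d' := a2.1 (a1.2 d)
        rw [if_pos d, if_pos d'] at e
        have := h.2.1 _ (by omega) _ (by omega) (Nat.add_left_cancel e)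
        omega
      · rw [if_neg d, if_neg (fun d' => d (a1.1 (a2.2 d')))] at e
        omega
    · exact absurd e (Wlt h hT hy c).ne'
  · have a1 : (if x % 16 = 6 then s (x / 16) else x) < T := by
      split_ifs with c
      · exact h.2.2 _ (by omega)
      · omega
    have a2 := Nat.mul_le_mul_left T (Nat.succ_le_of_lt (lev4 m x hx).1)
    rw [Nat.mul_succ] at a2
    unfold W
    omega

theorem Good.mono {s : ℕ → ℕ} {t T t' T' : ℕ} (h : Good s t T) (h1 : t' ≤ t) (h2 : T ≤ T') :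
    Good s t' T' :=
  ⟨fun i l a b => h.1 i l a (by omega), fun i a j b => h.2.1 i (by omega) j (by omega),
    fun i a => lt_of_lt_of_le (h.2.2 i (by omega)) h2⟩

theorem base : Good (fun x => Pr.getD x 0) 11 16 := by
  refine ⟨fun i l a b => ?_, fun i a j b => ((chk7 i (by omega)).2 j (by omega)).1,
    fun i a => (chk7 i (by omega)).1⟩
  have : ∀ i < 11, ∀ l < 11, 2 ≤ l → i + 2 * l ≤ 11 → ¬ Iso (fun x => Pr.getD x 0) i l := by
    decide +kernel
  exact this i (by omega) l (by omega) a b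

theorem good (m : ℕ) : ∃ s T, Good s (11 + 2 * m) T ∧ 173 + 32 * m ≤ T := by
  induction m with
  | zero => exact ⟨_, 173, base.mono le_rfl (by omega), le_rfl⟩
  | succ m ih =>
    obtain ⟨s, T, h1, h2⟩ := ih
    exact ⟨_, T * 1000, (Wgood h1 h2).mono (by omega) le_rfl, by omega⟩

theorem bdry (f : ℕ → ℚ) (r : ℕ → ℕ) (x : ℚ) (h1 : ∀ i < 16, r i < 16)
    (h2 : ∀ i < 16, ∀ j < 16, f i < f j ↔ r i < r j) (h3 : ∀ i < 16, f i ≠ x) (p : ℕ) (hp : p ≤ 16) :
    ∃ k < 17, ∀ a < 17, ∀ b < 17, ins f p x a < ins f p x b ↔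
      ins (fun y => 2 * r y + 1) p (2 * k) a < ins (fun y => 2 * r y + 1) p (2 * k) b := by
  classical
  obtain ⟨k, k1, k2⟩ : ∃ k < 17, ∀ i < 16, f i < x ↔ r i < k := by
    refine ⟨((Finset.range 16).filter (fun i => f i < x)).sup (fun i => r i + 1), ?_, fun i hi => ?_⟩
    · refine lt_of_le_of_lt (Finset.sup_le (a := 16) (fun i hi => ?_)) (by omega)
      exact h1 i (Finset.mem_range.1 (Finset.mem_filter.1 hi).1)
    · constructor
      · intro h
        exact Finset.le_sup (f := fun i => r i + 1)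
          (Finset.mem_filter.2 ⟨Finset.mem_range.2 hi, h⟩)
      · intro h
        obtain ⟨j, a1, a2⟩ := Finset.lt_sup_iff.1 h
        obtain ⟨a3, a4⟩ := Finset.mem_filter.1 a1
        refine lt_of_le_of_lt (not_lt.1 (fun c => ?_)) a4
        have := (h2 j (Finset.mem_range.1 a3) i hi).1 c
        omega
  have k3 : ∀ i < 16, x < f i ↔ 2 * k < 2 * r i + 1 := by
    intro i hi
    have := k2 i hi
    have a := h3 i hi
    constructor
    · intro c
      have : ¬ r i < k := fun d => lt_asymm c (this.2 d)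
      omega
    · intro c
      exact lt_of_le_of_ne (not_lt.1 (fun d => by have := this.1 d; omega)) a.symm
  refine ⟨k, k1, fun a ha b hb => ?_⟩
  unfold ins
  dsimp only
  split_ifs
  · rw [h2 _ (by omega) _ (by omega)]; omega
  · rw [k2 _ (by omega)]; omega
  · rw [h2 _ (by omega) _ (by omega)]; omega
  · exact k3 _ (by omega)
  · simp
  · exact k3 _ (by omega)
  · rw [h2 _ (by omega) _ (by omega)]; omega
  · rw [k2 _ (by omega)]; omega
  · rw [h2 _ (by omega) _ (by omega)]; omega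

theorem iso2 (u : ℕ → ℚ) (i : ℕ) (h1 : u i ≠ u (i + 1)) (h2 : u (i + 2) ≠ u (i + 3))
    (h3 : u i < u (i + 1) ↔ u (i + 2) < u (i + 3)) : Iso u i 2 := by
  intro a ha b hb
  interval_cases a <;> interval_cases b
  · simp
  · exact h3
  · show u (i + 1) < u i ↔ u (i + 3) < u (i + 2)
    rw [← not_iff_not, not_lt, not_lt, h1.le_iff_lt, h2.le_iff_lt]
    exact h3
  · simp

theorem interior (f : ℕ → ℚ) (x : ℚ) (q : ℕ) (h1 : ∀ i < q + 5, f i ≠ f (i + 1))
    (h2 : ∀ i < q + 5, f i < f (i + 1) ↔ (i % 4 = 0 ∨ i % 4 = 3)) (h3 : ∀ i < q + 6, f i ≠ x) :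
    ∃ i, i ≤ q + 3 ∧ Iso (ins f (q + 3) x) i 2 := by
  have e0 : ins f (q + 3) x q = f q := if_pos (by omega)
  have e1 : ins f (q + 3) x (q + 1) = f (q + 1) := if_pos (by omega)
  have e2 : ins f (q + 3) x (q + 2) = f (q + 2) := if_pos (by omega)
  have e3 : ins f (q + 3) x (q + 3) = x := by simp [ins]
  have e4 : ins f (q + 3) x (q + 4) = f (q + 3) := by simp [ins]
  have e5 : ins f (q + 3) x (q + 5) = f (q + 4) := by simp [ins]
  have e6 : ins f (q + 3) x (q + 6) = f (q + 5) := by simp [ins]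
  by_contra hc
  push Not at hc
  have c0 := mt (iso2 (ins f (q + 3) x) q (by rw [e0, e1]; exact h1 _ (by omega))
    (by rw [e2, e3]; exact h3 _ (by omega))) (hc _ (by omega))
  have c1 := mt (iso2 (ins f (q + 3) x) (q + 1) (by rw [e1, e2]; exact h1 _ (by omega))
    (by rw [e3, e4]; exact (h3 _ (by omega)).symm)) (hc _ (by omega))
  have c2 := mt (iso2 (ins f (q + 3) x) (q + 2) (by rw [e2, e3]; exact h3 _ (by omega))
    (by rw [e4, e5]; exact h1 _ (by omega))) (hc _ (by omega))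
  have c3 := mt (iso2 (ins f (q + 3) x) (q + 3) (by rw [e3, e4]; exact (h3 _ (by omega)).symm)
    (by rw [e5, e6]; exact h1 _ (by omega))) (hc _ (by omega))
  rw [e0, e1, e2, e3, h2 _ (by omega)] at c0
  rw [e1, e2, e3, e4, h2 _ (by omega)] at c1
  rw [e2, e3, e4, e5, h2 (q + 3) (by omega)] at c2
  rw [e3, e4, e5, e6, h2 (q + 4) (by omega)] at c3
  by_cases a : f (q + 2) < x <;> by_cases b : x < f (q + 3) <;> simp only [a, b] at c0 c1 c2 c3 <;>
    simp at c0 c1 c2 c3 <;> omega

theorem extremal {s : ℕ → ℕ} {T m : ℕ} (h : Good s (11 + 2 * m) T) (hT : 173 + 32 * m ≤ T)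
    (p : ℕ) (hp : p ≤ 173 + 32 * m) (x : ℚ)
    (hx : ∀ i < 173 + 32 * m, (W s T (173 + 32 * m) i : ℚ) ≠ x) :
    ∃ i l, 2 ≤ l ∧ i + 2 * l ≤ 173 + 32 * m + 1 ∧
      Iso (ins (fun i => (W s T (173 + 32 * m) i : ℚ)) p x) i l := by
  have ord : ∀ (B : ℕ) (r t : ℕ → ℕ), B + 16 ≤ 173 + 32 * m →
      (∀ i < 16, lev (173 + 32 * m) (B + i) = t i) →
      (∀ i < 16, ∀ j < 16, (r i = r j → i = j) ∧ (r i < r j → t i < t j)) →
      ∀ i < 16, ∀ j < 16, ((W s T (173 + 32 * m) (B + i) : ℚ) < W s T (173 + 32 * m) (B + j) ↔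
        r i < r j) := by
    intro B r t a1 a2 a3 i hi j hj
    rw [Nat.cast_lt]
    refine ⟨fun c => ?_, fun c => Wlt h hT (by omega) (by
      rw [a2 i hi, a2 j hj]; exact (a3 i hi j hj).2 c)⟩
    rcases lt_trichotomy (r i) (r j) with d | d | d
    · exact d
    · rw [(a3 i hi j hj).1 d] at c
      exact absurd c (lt_irrefl _)
    · exact absurd c (lt_asymm (Wlt h hT (by omega) (by
        rw [a2 i hi, a2 j hj]; exact (a3 j hj i hi).2 d)))
  by_cases c1 : p < 3
  · obtain ⟨k, k1, k2⟩ := bdry (fun i => (W s T (173 + 32 * m) i : ℚ)) (fun y => Pr.getD y 0) x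
      (fun i hi => (chk7 i hi).1) (by
        simpa using ord 0 (fun y => Pr.getD y 0) (fun y => Pt.getD y 0) (by omega)
          (fun i hi => by rw [zero_add, levL hi]) (fun i hi => (chk7 i hi).2))
      (fun i hi => hx i (by omega)) p (by omega)
    obtain ⟨i, -, l, -, a1, a2, a3⟩ := chk5 p c1 k k1
    refine ⟨i, l, a1, by omega, fun a ha b hb => ?_⟩
    rw [k2 _ (by omega) _ (by omega), k2 _ (by omega) _ (by omega)]
    exact a3 a ha b hb
  by_cases c2 : 173 + 32 * m < p + 3
  · obtain ⟨p', rfl⟩ : ∃ p', p = 157 + 32 * m + (14 + p') := ⟨p - (171 + 32 * m), by omega⟩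
    obtain ⟨k, k1, k2⟩ := bdry (fun i => (W s T (173 + 32 * m) (157 + 32 * m + i) : ℚ))
      (fun y => Qr.getD y 0) x (fun i hi => (chk8 i hi).1)
      (ord _ (fun y => Qr.getD y 0) (fun y => Qt.getD y 0) (by omega)
          (fun i hi => by
            rw [levR (by omega) (by omega), show 157 + 32 * m + i + 16 - (173 + 32 * m) = i by omega])
          (fun i hi => (chk8 i hi).2))
      (fun i hi => hx _ (by omega)) (14 + p') (by omega)
    obtain ⟨i, -, l, -, a1, a2, a3⟩ := chk6 p' (by omega) k k1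
    have e : ∀ y, ins (fun i => (W s T (173 + 32 * m) i : ℚ)) (157 + 32 * m + (14 + p')) x
        (157 + 32 * m + y) =
        ins (fun i => (W s T (173 + 32 * m) (157 + 32 * m + i) : ℚ)) (14 + p') x y := by
      intro y
      unfold ins
      by_cases d1 : y < 14 + p'
      · rw [if_pos d1, if_pos (by omega)]
      · by_cases d2 : y = 14 + p'
        · rw [if_neg d1, if_neg (by omega), if_pos d2, if_pos (by omega)]
        · rw [if_neg d1, if_neg (by omega), if_neg d2, if_neg (by omega),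
            show 157 + 32 * m + y - 1 = 157 + 32 * m + (y - 1) by omega]
    refine ⟨157 + 32 * m + i, l, a1, by omega, fun a ha b hb => ?_⟩
    simp only [add_assoc (157 + 32 * m), e]
    rw [k2 _ (by omega) _ (by omega), k2 _ (by omega) _ (by omega)]
    exact a3 a ha b hb
  · obtain ⟨q, rfl⟩ : ∃ q, p = q + 3 := ⟨p - 3, by omega⟩
    obtain ⟨i, a1, a2⟩ := interior (fun i => (W s T (173 + 32 * m) i : ℚ)) x q
      (fun i hi c => by
        have := (Wgood h hT).2.1 i (by omega) (i + 1) (by omega) (by exact_mod_cast c)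
        omega)
      (fun i hi => by
        have a := lev3 m i (by omega)
        rw [Nat.cast_lt]
        split_ifs at a with c
        · exact iff_of_true (Wlt h hT (by omega) a) c
        · exact iff_of_false (lt_asymm (Wlt h hT (by omega) a)) c)
      (fun i hi => hx i (by omega))
    exact ⟨i, 2, le_rfl, by omega, a2⟩

theorem getD_map (f : ℕ → ℚ) (n i : ℕ) (h : i < n) : ((List.range n).map f).getD i 0 = f i := by
  simp [List.getD_eq_getElem?_getD, h]

theorem getD_ins (f : ℕ → ℚ) (n p i : ℕ) (x : ℚ) (hp : p ≤ n) (h : i ≤ n) :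
    (((List.range n).map f).take p ++ x :: ((List.range n).map f).drop p).getD i 0 =
      ins f p x i := by
  have e : (((List.range n).map f).take p).length = p := by simp [hp]
  unfold ins
  rw [List.getD_eq_getElem?_getD]
  split_ifs with a b
  · rw [List.getElem?_append_left (by omega)]
    simp [a, show i < n by omega]
  · rw [List.getElem?_append_right (by omega), e, b]
    simp
  · rw [List.getElem?_append_right (by omega), e, show i - p = (i - p - 1) + 1 by omega,
      List.getElem?_cons_succ, List.getElem?_drop, show p + (i - p - 1) = i - 1 by omega]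
    simp [show i - 1 < n by omega]

end Pool.Agent.H13.SqFree
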