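import Mathlib

set_option autoImplicit false
open Finset

namespace Pool.Agent.H13.ZSum

theorem one {κ : Type} (K : Finset κ) (w : κ → ℤ) (C : ℕ) (hw : ∀ x ∈ K, |w x| ≤ C)
    (h0 : ∑ x ∈ K, w x = 0) (hK : K.Nonempty) :
    ∃ L ⊆ K, L.Nonempty ∧ L.card ≤ 2 * C + 1 ∧ ∑ x ∈ L, w x = 0 := by
  classical
  by_cases hc : K.card ≤ 2 * C + 1
  · exact ⟨K, Subset.rfl, hK, hc, h0⟩
  have step : ∀ A : Finset κ, ∃ A' : Finset κ, A ⊆ A' ∧ (A ⊆ K → |∑ x ∈ A, w x| ≤ C →
      A.card < K.card → A' ⊆ K ∧ |∑ x ∈ A', w x| ≤ C ∧ A'.card = A.card + 1) := by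
    intro A
    by_cases h : A ⊆ K ∧ |∑ x ∈ A, w x| ≤ C ∧ A.card < K.card
    swap
    · exact ⟨A, Subset.rfl, fun a b c => absurd ⟨a, b, c⟩ h⟩
    obtain ⟨h1, h2, h3⟩ := h
    have hs := sum_sdiff (f := w) h1
    have hn : (K \ A).Nonempty := by
      rw [← card_pos, card_sdiff_of_subset h1]; omega
    have : ∃ x ∈ K \ A, |w x + ∑ x ∈ A, w x| ≤ C := by
      rcases le_total 0 (∑ x ∈ A, w x) with h | h
      · obtain ⟨x, hx, e⟩ := exists_le_of_sum_le (f := w) (g := fun _ => 0) hn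
          (by rw [sum_const_zero]; omega)
        have := abs_le.1 (hw x (mem_sdiff.1 hx).1)
        have := abs_le.1 h2
        exact ⟨x, hx, abs_le.2 ⟨by omega, by omega⟩⟩
      · obtain ⟨x, hx, e⟩ := exists_le_of_sum_le (g := w) (f := fun _ => 0) hn
          (by rw [sum_const_zero]; omega)
        have := abs_le.1 (hw x (mem_sdiff.1 hx).1)
        have := abs_le.1 h2
        exact ⟨x, hx, abs_le.2 ⟨by omega, by omega⟩⟩
    obtain ⟨x, hx, e⟩ := this
    obtain ⟨h4, h5⟩ := mem_sdiff.1 hx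
    exact ⟨insert x A, subset_insert _ _, fun _ _ _ => ⟨insert_subset h4 h1,
      by rwa [sum_insert h5], card_insert_of_notMem h5⟩⟩
  choose g g1 g2 using step
  have P : ∀ i ≤ K.card, g^[i] ∅ ⊆ K ∧ |∑ x ∈ g^[i] ∅, w x| ≤ C ∧ (g^[i] ∅).card = i := by
    intro i
    induction i with
    | zero => simp
    | succ i ih =>
      intro h
      obtain ⟨a, b, c⟩ := ih (by omega)
      rw [Function.iterate_succ_apply']
      have := g2 _ a b (by omega)
      rwa [c] at this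
  have M : Monotone fun i => g^[i] ∅ := monotone_nat_of_le_succ fun i => by
    rw [Function.iterate_succ_apply']; exact g1 _
  have fin : ∀ a b, a < b → b < 2 * C + 2 → ∑ x ∈ g^[a] ∅, w x = ∑ x ∈ g^[b] ∅, w x →
      ∃ L ⊆ K, L.Nonempty ∧ L.card ≤ 2 * C + 1 ∧ ∑ x ∈ L, w x = 0 := by
    intro a b h hb e
    have s : g^[a] ∅ ⊆ g^[b] ∅ := M h.le
    have c := card_sdiff_of_subset s
    rw [(P a (by omega)).2.2, (P b (by omega)).2.2] at c
    refine ⟨g^[b] ∅ \ g^[a] ∅, sdiff_subset.trans (P b (by omega)).1, by rw [← card_pos]; omega,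
      by omega, ?_⟩
    have := sum_sdiff (f := w) s
    omega
  obtain ⟨a, ha, b, hb, n, e⟩ := exists_ne_map_eq_of_card_lt_of_maps_to (s := range (2 * C + 2))
    (t := Icc (-(C : ℤ)) C) (by simp; omega) (f := fun i => ∑ x ∈ g^[i] ∅, w x) (fun i hi => by
      have := mem_range.1 hi
      simpa [abs_le] using (P i (by omega)).2.1)
  rcases lt_or_gt_of_ne n with h | h
  · exact fin a b h (mem_range.1 hb) e
  · exact fin b a h (mem_range.1 ha) e.symm

theorem part {ι : Type} [DecidableEq ι] (Z : Finset ι → Prop) (s : ℕ)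
    (h1 : ∀ I J, J ⊆ I → Z I → Z J → Z (I \ J))
    (h2 : ∀ I, Z I → I.Nonempty → ∃ J ⊆ I, J.Nonempty ∧ J.card ≤ s ∧ Z J) (I : Finset ι) :
    Z I → ∃ P : Finpartition I, ∀ p ∈ P.parts, p.card ≤ s ∧ Z p := by
  induction I using Finset.strongInduction with
  | H I ih =>
    intro hI
    rcases I.eq_empty_or_nonempty with rfl | hn
    · exact ⟨Finpartition.empty _, by simp [Finpartition.empty]⟩
    obtain ⟨J, a, b, c, d⟩ := h2 I hI hn
    obtain ⟨P, hP⟩ := ih (I \ J) (sdiff_ssubset a b) (h1 I J a hI d)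
    refine ⟨P.extend b.ne_empty sdiff_disjoint (sdiff_union_of_subset a), fun p hp => ?_⟩
    rcases mem_insert.1 hp with rfl | hp
    exacts [⟨c, d⟩, hP p hp]

theorem multi {ι τ : Type} (v : ι → τ → ℤ) (b : ℕ) (T : Finset τ) :
    ∀ I : Finset ι, (∀ i ∈ I, ∀ t, |v i t| ≤ (2 ^ b : ℕ)) → (∀ t ∈ T, ∑ i ∈ I, v i t = 0) →
      I.Nonempty → ∃ J ⊆ I, J.Nonempty ∧ J.card ≤ 2 ^ (3 ^ T.card * (b + 2)) ∧
        ∀ t ∈ T, ∑ i ∈ J, v i t = 0 := by
  classical
  induction T using Finset.induction_on with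
  | empty => exact fun I _ _ ⟨x, hx⟩ => ⟨{x}, by simpa, by simp, by
      rw [card_singleton]; exact Nat.one_le_two_pow, by simp⟩
  | insert t T ht ih =>
    intro I hb h0 hn
    set s := 2 ^ (3 ^ T.card * (b + 2)) with hs
    obtain ⟨P, hP⟩ := part (fun J => J ⊆ I ∧ ∀ t ∈ T, ∑ i ∈ J, v i t = 0) s
      (fun A J h a c => ⟨sdiff_subset.trans a.1, fun u hu => by
        have := sum_sdiff (f := fun i => v i u) h
        rw [a.2 u hu, c.2 u hu] at this
        simpa using this⟩)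
      (fun A a n => by
        obtain ⟨J, j1, j2, j3, j4⟩ := ih A (fun i hi => hb i (a.1 hi)) a.2 n
        exact ⟨J, j1, j2, j3, j1.trans a.1, j4⟩) I
      ⟨Subset.rfl, fun u hu => h0 u (mem_insert_of_mem hu)⟩
    have sb : ∀ L ⊆ P.parts, ∀ u, ∑ i ∈ L.biUnion id, v i u = ∑ p ∈ L, ∑ i ∈ p, v i u :=
      fun L hL u => sum_biUnion (P.disjoint.subset (coe_subset.2 hL))
    obtain ⟨L, l1, ⟨p, hp⟩, l3, l4⟩ := one P.parts (fun p => ∑ i ∈ p, v i t) (s * 2 ^ b)
      (fun p hp => by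
        refine (abs_sum_le_sum_abs _ _).trans ((sum_le_card_nsmul _ _ ((2 ^ b : ℕ) : ℤ)
          fun i hi => hb i (P.subset hp hi) t).trans ?_)
        rw [nsmul_eq_mul]
        exact_mod_cast Nat.mul_le_mul_right _ (hP p hp).1)
      (by rw [← sb _ Subset.rfl, P.biUnion_parts]; exact h0 t (mem_insert_self _ _))
      (P.parts_nonempty hn.ne_empty)
    refine ⟨L.biUnion id, biUnion_subset.2 fun q hq => P.subset (l1 hq), ?_, ?_, fun u hu => ?_⟩
    · obtain ⟨x, hx⟩ := P.nonempty_of_mem_parts (l1 hp)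
      exact ⟨x, mem_biUnion.2 ⟨p, hp, hx⟩⟩
    · refine (card_biUnion_le_card_mul _ _ s fun q hq => (hP q (l1 hq)).1).trans ?_
      have e : 1 ≤ s * 2 ^ b := Nat.mul_pos (by positivity) (by positivity)
      have f : 1 ≤ 3 ^ T.card := Nat.one_le_pow _ _ (by norm_num)
      calc L.card * s ≤ (4 * (s * 2 ^ b)) * s := Nat.mul_le_mul_right _ (by omega)
        _ = 2 ^ (2 * (3 ^ T.card * (b + 2)) + 1 * (b + 2)) := by rw [hs]; ring
        _ ≤ _ := Nat.pow_le_pow_right (by norm_num) (by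
          rw [card_insert_of_notMem ht, pow_succ]
          have := Nat.mul_le_mul_right (b + 2) f
          nlinarith)
    · rw [sb L l1]
      rcases mem_insert.1 hu with rfl | hu
      · exact l4
      · exact sum_eq_zero fun q hq => (hP q (l1 hq)).2.2 u hu

theorem ext {r : ℕ} {K V : Type} [Field K] [AddCommGroup V] [Module K V] (x y : Fin r → V)
    (h : LinearMap.ker (Fintype.linearCombination K x) =
      LinearMap.ker (Fintype.linearCombination K y)) : ∃ g : V ≃ₗ[K] V, g ∘ x = y := by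
  obtain ⟨g, hg⟩ := Submodule.exists_linearEquiv_restrict_eq
    ((Fintype.linearCombination K x).quotKerEquivRange.symm ≪≫ₗ Submodule.quotEquivOfEq _ _ h ≪≫ₗ
      (Fintype.linearCombination K y).quotKerEquivRange)
  refine ⟨g, funext fun i => ?_⟩
  have := hg ⟨_, LinearMap.mem_range_self _ (Pi.single i 1)⟩
  simp only [LinearEquiv.trans_apply, LinearMap.quotKerEquivRange_symm_apply_image,
    Submodule.mkQ_apply, Submodule.quotEquivOfEq_mk, LinearMap.quotKerEquivRange_apply_mk] at this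
  simpa using this.symm

theorem grow (C n : ℕ) : ∃ j, n ≤ j ∧ C * ((j + 2) * (j + 2) + 2) < 2 ^ j := by
  refine ⟨4 * (16 * C + n), by omega, ?_⟩
  set i := 16 * C + n with hi
  have h : i + 1 ≤ 2 ^ i := Nat.lt_two_pow_self
  have h2 : (i + 1) ^ 4 ≤ 2 ^ (4 * i) := by
    rw [mul_comm, pow_mul]; exact Nat.pow_le_pow_left h 4
  refine lt_of_lt_of_le ?_ h2
  have h3 : 16 * C < (i + 1) ^ 2 := by nlinarith
  calc C * ((4 * i + 2) * (4 * i + 2) + 2) ≤ 16 * C * (i + 1) ^ 2 := by nlinarith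
    _ < (i + 1) ^ 2 * (i + 1) ^ 2 := Nat.mul_lt_mul_of_pos_right h3 (by positivity)
    _ = _ := by ring

end Pool.Agent.H13.ZSum
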